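import Pool.Agent.R463.Lin2

set_option autoImplicit false

/-!
# The integers without small prime factors as a system
-/

namespace Pool.Agent.R463.PS

open Polynomial Finset Filter
open Pool.Agent.W123.RP Pool.Agent.H373R2.T7 Pool.Agent.W123.RU Pool.Agent.W123.RU.Poly
open Pool.Agent.TH464.PW Pool.Agent.TH464.PO Pool.Agent.Y879.GL

/-- the system of the form `n` -/
noncomputable def idf : Fin 1 → ℤ[X] := ls (fun _ => 1) (fun _ => 0)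

lemma idf_adm : AdmL (k := 1) (fun _ => 1) (fun _ => 0) := by
  refine ⟨fun _ => one_pos, fun p hp => ⟨1, fun _ h => ?_⟩⟩
  have h1 : (p : ℤ) ∣ ((1 : ℕ) : ℤ) := by simpa using h
  exact hp.one_lt.ne' (Nat.dvd_one.1 (Int.natCast_dvd_natCast.1 h1))

theorem idf_sys (H U : ℝ) (hH : 1 ≤ H) : System 1 H U idf :=
  lin_system idf_adm H U (fun _ => by simpa using hH) (fun _ => by
    simp only [Int.cast_zero, abs_zero]
    linarith) (fun i j t ht _ h => by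
    have h2 := h.2
    change (0 : ℤ) = 0 + 1 * (t : ℤ) at h2
    omega)

lemma idf_sift (X r n : ℕ) : Sifted idf X r n ↔
    ∀ p : ℕ, p.Prime → (p : ℝ) ≤ (X : ℝ) ^ (1 / (r : ℝ)) → ¬ p ∣ n := by
  unfold idf
  rw [ls_sift]
  constructor
  · intro h p hp hpX hd
    apply h p hp hpX 0
    rw [one_mul, add_zero]
    exact_mod_cast hd
  · intro h p hp hpX i hd
    apply h p hp hpX
    rw [one_mul, add_zero] at hd
    exact_mod_cast hd

lemma idf_om (p : ℕ) (hp : p.Prime) : om idf p = 1 := by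
  unfold idf
  rw [ls_om]
  have e : (range p).filter (fun n : ℕ => ∃ _i : Fin 1, (p : ℤ) ∣ 1 * (n : ℤ) + 0) = {0} := by
    ext n
    simp only [mem_filter, mem_range, mem_singleton, one_mul, add_zero]
    constructor
    · rintro ⟨h1, ⟨_, h2⟩⟩
      exact Nat.eq_zero_of_dvd_of_lt (Int.natCast_dvd_natCast.1 h2) h1
    · rintro rfl
      exact ⟨hp.pos, 0, by simp⟩
  rw [e, card_singleton]

/-- the product of `1 - 1 / p` over the primes `p ≤ X ^ (1 / r)` -/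
noncomputable def V1 (X r : ℕ) : ℝ :=
  ∏ p ∈ (Icc 1 ⌊(X : ℝ) ^ (1 / (r : ℝ))⌋₊).filter Nat.Prime, (1 - 1 / (p : ℝ))

lemma V1_eq (X r : ℕ) : V1 X r = V idf X r := by
  unfold V1 V
  apply prod_congr rfl
  intro p hp
  rw [idf_om p (mem_filter.1 hp).2, Nat.cast_one]

theorem idf_V (r : ℕ) (hr : 2 ≤ r) : ∃ C : ℝ, 0 < C ∧ ∀ᶠ X : ℕ in atTop, V idf X r ≤ C / Real.log X := by
  obtain ⟨C, hC, h⟩ := Vz_le r hr
  refine ⟨C, hC, ?_⟩
  filter_upwards [h] with X hX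
  exact (V_le_Vz idf X r (fun p hp => by rw [idf_om p hp])).trans hX

/-- the gap laws for the integers without small prime factors -/
theorem one_gaps (θ : ℝ) (hθ : 0 < θ) (l₀ : ℕ) (x₀ ε : ℝ) (hε : 0 < ε) :
    ∃ r₀ : ℕ, 2 ≤ r₀ ∧ ∀ r : ℕ, r₀ ≤ r → ∀ᶠ X : ℕ in atTop,
      ∀ Z Y : ℕ, (X : ℝ) ^ θ ≤ Y → ∀ l T : ℕ, (l ≤ l₀ ∨ T * V1 X r ≤ x₀) →
        |(Far idf X r l T Z Y : ℝ) - Y * V1 X r *
          ∑ j ∈ range l, Real.exp (-(T * V1 X r)) * (T * V1 X r) ^ j / j.factorial| ≤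
          ε * (Y * V1 X r) := by
  obtain ⟨r₀, h⟩ := gaps 1 1 1 1 θ one_pos one_pos hθ l₀ x₀ ε hε
  refine ⟨max r₀ 2, le_max_right _ _, fun r hr => ?_⟩
  obtain ⟨C, hC, hV⟩ := idf_V r ((le_max_right _ _).trans hr)
  filter_upwards [h r ((le_max_left _ _).trans hr) C, hV, eventually_ge_atTop 1] with X h1 h2 h3 Z Y hY l T hT
  have hX1 : (1 : ℝ) ≤ X := by exact_mod_cast h3
  rw [V1_eq] at hT ⊢
  exact h1 idf (idf_sys _ _ (Real.one_le_rpow hX1 one_pos.le)) h2 Z Y hY l T hT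

open Classical in
/-- regular points of arbitrary sets of integers without small prime factors -/
theorem one_regular (θ : ℝ) (hθ : 0 < θ) :
    ∃ r₀ : ℕ, 2 ≤ r₀ ∧ ∀ r : ℕ, r₀ ≤ r → ∀ ε : ℝ, 0 < ε → ∃ c : ℝ, 0 < c ∧
      ∀ δ : ℝ, 0 < δ → ∃ B : ℕ, ∀ᶠ X : ℕ in atTop,
      ∀ u Y : ℕ, (X : ℝ) ^ θ ≤ Y → Y ≤ X → Y ≤ u →
      ∀ A : Set ℕ, (∀ m ∈ A, Sifted idf X r m) →
        (((Ioc u (u + Y)).filter (fun m => m ∈ A ∧ ¬ Regular A (V1 X r) c δ B Y m)).card : ℝ) ≤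
          ε * (Y * V1 X r) := by
  obtain ⟨r₀, hr₀, h⟩ := regular 1 1 0 1 1 θ one_pos one_pos hθ
  refine ⟨r₀, hr₀, fun r hr ε hε => ?_⟩
  obtain ⟨C, hC, hV⟩ := idf_V r (hr₀.trans hr)
  obtain ⟨c, hc, h1⟩ := h r hr C hC ε hε
  refine ⟨c, hc, fun δ hδ => ?_⟩
  obtain ⟨B, h2⟩ := h1 δ hδ
  refine ⟨B, ?_⟩
  filter_upwards [h2, hV, eventually_ge_atTop 1] with X h1 h2 h3 u Y hY hYX hYu A hA
  have hX1 : (1 : ℝ) ≤ X := by exact_mod_cast h3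
  have hs := idf_sys ((X : ℝ) ^ (1 : ℝ)) ((X : ℝ) ^ (1 : ℝ)) (Real.one_le_rpow hX1 one_pos.le)
  rw [V1_eq]
  exact h1 idf (idf_sys _ _ (Real.one_le_rpow hX1 one_pos.le)) ∅ (by simp)
    (fun i j t ht htX _ => hs.tr i j t ht htX) h2 u Y hY hYX hYu A hA

end Pool.Agent.R463.PS
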