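import Mathlib
import Pool.Agent.Y840.CT.GenF

/-!
# Chen's theorem for `p`, `e p + N` under sieve conditions of any dimension, for both signs `e`
-/

set_option autoImplicit false

open Finset Filter

namespace Pool.Agent.R463.CG

/-- the number of the residues `m` modulo `q` such that `q` divides `m` or `e m + N`, or `m ≡ a`
modulo `q` for some `a ∈ F q` -/
def nu (e N : ℤ) (F : ℕ → Finset ℤ) (q : ℕ) : ℕ :=
  ((range q).filter (fun m : ℕ => (q : ℤ) ∣ (m : ℤ) ∨ (q : ℤ) ∣ e * m + N ∨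
    ∃ a ∈ F q, (q : ℤ) ∣ m - a)).card

/-- at most `r` forbidden classes for each prime, and no local obstruction -/
def Sys (r : ℕ) (e N : ℤ) (F : ℕ → Finset ℤ) : Prop :=
  ∀ q : ℕ, q.Prime → (F q).card ≤ r ∧ nu e N F q < q

/-- the sieve product over the primes `q ≤ X` -/
noncomputable def V (e N : ℤ) (F : ℕ → Finset ℤ) (X : ℕ) : ℝ :=
  ∏ q ∈ (Icc 1 X).filter Nat.Prime, (1 - (nu e N F q : ℝ) / q)

open Classical in
/-- the primes `p` in `(A, B]`, `p > X ^ (1/t)`, such that `e p + N` is, up to the sign, a product of at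
most two primes, all of them `> X ^ (1/9)` and `> X ^ (1/t)`, and `p` is not in the class of any element of
`F q` modulo `q`, for all primes `q ≤ X ^ (1/t)` -/
noncomputable def G (e N : ℤ) (t X A B : ℕ) (F : ℕ → Finset ℤ) : Finset ℕ :=
  (Ioc A B).filter (fun p : ℕ => p.Prime ∧ (X : ℝ) ^ (1 / (t : ℝ)) < p ∧ e * p + N ≠ 0 ∧
    (e * p + N).natAbs.primeFactorsList.length ≤ 2 ∧
    (∀ q : ℕ, q.Prime → (q : ℤ) ∣ e * p + N → (X : ℝ) ^ (1 / 9 : ℝ) < q ∧ (X : ℝ) ^ (1 / (t : ℝ)) < q) ∧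
    ∀ q : ℕ, q.Prime → (q : ℝ) ≤ (X : ℝ) ^ (1 / (t : ℝ)) → ∀ a ∈ F q, ¬ (q : ℤ) ∣ p - a)

/-- the shifts -/
def Fp (e N : ℤ) (F : ℕ → Finset ℤ) (q : ℕ) : Finset ℤ := insert (-e * N) (F q)

theorem shift {e N : ℤ} (he : e * e = 1) (m : ℤ) : -e * N - m = -e * (e * m + N) := by
  linear_combination m * he

theorem shift_dvd {e N : ℤ} (he : e * e = 1) (q m : ℤ) : q ∣ -e * N - m ↔ q ∣ e * m + N := by
  rw [shift he]
  constructor
  · intro h
    have h1 := h.mul_left (-e)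
    have e1 : -e * (-e * (e * m + N)) = e * m + N := by linear_combination (e * m + N) * he
    rwa [e1] at h1
  · intro h
    exact h.mul_left _

theorem shift_abs {e N : ℤ} (he : e * e = 1) (m : ℤ) : (-e * N - m).natAbs = (e * m + N).natAbs := by
  rw [shift he, Int.natAbs_mul]
  have h1 : (-e).natAbs = 1 := by
    have h2 : (-e).natAbs * (-e).natAbs = 1 := by
      rw [← Int.natAbs_mul, neg_mul_neg, he]
      rfl
    exact Nat.eq_one_of_mul_eq_one_left h2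
  rw [h1, one_mul]

/-- the meaning of the shifts -/
theorem mem_Fp {e N : ℤ} (he : e * e = 1) {F : ℕ → Finset ℤ} {q : ℕ} (m : ℤ) :
    (∃ h ∈ insert 0 (Fp e N F q), (q : ℤ) ∣ h - m) ↔
      ((q : ℤ) ∣ m ∨ (q : ℤ) ∣ e * m + N ∨ ∃ a ∈ F q, (q : ℤ) ∣ m - a) := by
  unfold Fp
  constructor
  · rintro ⟨h, hh, hd⟩
    rw [mem_insert, mem_insert] at hh
    rcases hh with rfl | rfl | ha
    · left
      rw [zero_sub] at hd
      exact (dvd_neg).1 hd
    · right; left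
      exact (shift_dvd he _ _).1 hd
    · right; right
      refine ⟨h, ha, ?_⟩
      rw [← neg_sub] at hd
      exact (dvd_neg).1 hd
  · rintro (hd | hd | ⟨a, ha, hd⟩)
    · exact ⟨0, mem_insert_self _ _, by rw [zero_sub]; exact (dvd_neg).2 hd⟩
    · exact ⟨-e * N, by simp, (shift_dvd he _ _).2 hd⟩
    · refine ⟨a, ?_, ?_⟩
      · rw [mem_insert, mem_insert]
        exact Or.inr (Or.inr ha)
      · rw [← neg_sub]
        exact (dvd_neg).2 hd

theorem emod_iff {q : ℕ} (x y : ℤ) : x % (q : ℤ) = y % (q : ℤ) ↔ (q : ℤ) ∣ x - y := by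
  rw [← Int.emod_emod_of_dvd x (dvd_refl (q : ℤ))]
  rw [Int.emod_emod_of_dvd x (dvd_refl (q : ℤ)), Int.emod_eq_emod_iff_emod_sub_eq_zero]
  exact (Int.dvd_iff_emod_eq_zero).symm

theorem rho_eq {e N : ℤ} (he : e * e = 1) (F : ℕ → Finset ℤ) {q : ℕ} (hq : q.Prime) :
    Pool.Agent.Y840.CT.rho (Fp e N F q) q = nu e N F q := by
  classical
  have hq0 : (0 : ℤ) < q := by exact_mod_cast hq.pos
  unfold Pool.Agent.Y840.CT.rho nu
  symm
  apply card_bij (fun (m : ℕ) _ => (m : ℤ) % (q : ℤ))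
  · intro m hm
    rw [mem_filter] at hm
    obtain ⟨h, hh, hd⟩ := (mem_Fp he (m : ℤ)).2 hm.2
    rw [mem_image]
    exact ⟨h, hh, (emod_iff _ _).2 hd⟩
  · intro a ha b hb hab
    rw [mem_filter, mem_range] at ha hb
    have h1 := (emod_iff _ _).1 hab
    have h3 : (a : ℤ) - b = 0 := by
      apply Int.eq_zero_of_abs_lt_dvd h1
      rw [abs_lt]
      constructor <;> omega
    omega
  · intro y hy
    rw [mem_image] at hy
    obtain ⟨h, hh, rfl⟩ := hy
    obtain ⟨m, hm⟩ : ∃ m : ℕ, (m : ℤ) = h % q :=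
      ⟨(h % q).toNat, Int.toNat_of_nonneg (Int.emod_nonneg _ hq0.ne')⟩
    have hd : (q : ℤ) ∣ h - m := by
      rw [hm]
      exact (emod_iff _ _).1 (Int.emod_emod_of_dvd _ (dvd_refl _)).symm
    have hlt : m < q := by
      have := Int.emod_lt_of_pos h hq0
      rw [← hm] at this
      exact_mod_cast this
    refine ⟨m, ?_, ?_⟩
    · rw [mem_filter, mem_range]
      exact ⟨hlt, (mem_Fp he (m : ℤ)).1 ⟨h, hh, hd⟩⟩
    · exact ((emod_iff _ _).2 hd).symm

theorem sys {r X : ℕ} {e N : ℤ} {F : ℕ → Finset ℤ} (he : e * e = 1) (hN : N ≠ 0) (hX : |N| ≤ X)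
    (hF : Sys r e N F) : Pool.Agent.Y840.CT.SysF (r + 1) X (Fp e N F) (-e * N) := by
  have hne : e ≠ 0 := by
    rintro rfl
    norm_num at he
  refine ⟨?_, mul_ne_zero (neg_ne_zero.2 hne) hN, ?_, ?_, ?_⟩
  · intro q hq
    unfold Fp
    refine (card_insert_le _ _).trans ?_
    have := (hF q hq).1
    omega
  · have h1 : |(-e * N)| = |N| := by
      have := shift_abs (N := N) he 0
      rw [mul_zero, zero_add, sub_zero] at this
      rw [Int.abs_eq_natAbs, Int.abs_eq_natAbs, this]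
    rw [h1]
    exact hX
  · intro q _
    unfold Fp
    simp
  · intro q hq
    rw [rho_eq he F hq]
    exact (hF q hq).2

theorem VF_eq {e N : ℤ} (he : e * e = 1) (F : ℕ → Finset ℤ) (X : ℕ) :
    Pool.Agent.Y840.CT.VF (Fp e N F) X = V e N F X := by
  unfold Pool.Agent.Y840.CT.VF V
  apply prod_congr rfl
  intro q hq
  rw [mem_filter] at hq
  rw [rho_eq he F hq.2]

/-- the good primes -/
theorem G_eq {e N : ℤ} (he : e * e = 1) (t X A B : ℕ) (F : ℕ → Finset ℤ) :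
    Pool.Agent.Y840.CT.GoodF t X A B (Fp e N F) (-e * N) = G e N t X A B F := by
  classical
  unfold Pool.Agent.Y840.CT.GoodF G
  apply filter_congr
  intro p _
  unfold Pool.Agent.Y840.CT.Rough
  rw [shift_abs he]
  simp only [shift_dvd he]
  constructor
  · rintro ⟨a3, a4, ⟨a5, a6, a7⟩, a8⟩
    refine ⟨a3, a4, ?_, a6, ?_, ?_⟩
    · intro h0
      apply a5
      rw [shift he, h0, mul_zero]
    · intro q hq hd
      refine ⟨a7 q hq hd, ?_⟩
      by_contra hcon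
      push Not at hcon
      apply a8 q hq hcon (-e * N) ?_ ((shift_dvd he _ _).2 hd)
      unfold Fp
      simp
    · intro q hq hqX a ha hd
      apply a8 q hq hqX a
      · unfold Fp
        exact mem_insert_of_mem ha
      · rw [← neg_sub]
        exact (dvd_neg).2 hd
  · rintro ⟨a3, a4, a5, a6, a7, a8⟩
    refine ⟨a3, a4, ⟨?_, a6, fun q hq hd => (a7 q hq hd).1⟩, ?_⟩
    · intro h0
      apply a5
      have h1 := shift_abs (N := N) he (p : ℤ)
      rw [h0] at h1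
      exact Int.natAbs_eq_zero.1 h1.symm
    · intro q hq hqX h hh hd
      unfold Fp at hh
      rw [mem_insert] at hh
      rcases hh with rfl | hh
      · have := (a7 q hq ((shift_dvd he _ _).1 hd)).2
        linarith
      · apply a8 q hq hqX h hh
        rw [← neg_sub]
        exact (dvd_neg).2 hd

/-- **Chen's theorem for pairs under sieve conditions.** -/
theorem chen (e : ℤ) (he : e * e = 1) (r : ℕ) : ∃ t : ℕ, 1 ≤ t ∧ ∃ c : ℝ, 0 < c ∧
    (∀ θ : ℝ, 0 < θ → ∃ X₀ : ℕ, ∀ X : ℕ, X₀ ≤ X → ∀ N : ℤ, N ≠ 0 → |N| ≤ X → ∀ F : ℕ → Finset ℤ,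
      Sys r e N F → ∀ A B : ℕ, B ≤ X → θ * X ≤ (B : ℝ) - A →
      c * ((B : ℝ) - A) * V e N F X ≤ ((G e N t X A B F).card : ℝ)) ∧
    (∀ k : ℕ, ∀ θ δ : ℝ, 0 < θ → 0 < δ → ∃ D X₀ : ℕ, ∀ X : ℕ, X₀ ≤ X → ∀ N : ℤ, N ≠ 0 → |N| ≤ X →
      ∀ F : ℕ → Finset ℤ, Sys r e N F → ∀ A B : ℕ, B ≤ X → θ * X ≤ (B : ℝ) - A →
      ∀ S : Finset ℕ, S ⊆ G e N t X A B F → δ * ((G e N t X A B F).card : ℝ) ≤ S.card →
        ∃ a d : ℕ, 1 ≤ d ∧ (d : ℝ) ≤ Real.log X ^ D ∧ ∀ j < k, a + j * d ∈ S) := by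
  classical
  obtain ⟨t, ht, c, hc, H1, H2⟩ := Pool.Agent.Y840.CT.genF (r + 1)
  refine ⟨t, ht, c, hc, ?_, ?_⟩
  · intro θ hθ
    obtain ⟨X₀, H⟩ := H1 θ hθ
    refine ⟨X₀, fun X hX N hN hNX F hF A B hB hAB => ?_⟩
    have := H X hX (Fp e N F) (-e * N) (sys he hN hNX hF) A B hB hAB
    rwa [VF_eq he, G_eq he] at this
  · intro k θ δ hθ hδ
    obtain ⟨D, X₀, H⟩ := H2 k θ δ hθ hδ
    refine ⟨D, X₀, fun X hX N hN hNX F hF A B hB hAB S hS hSc => ?_⟩
    refine H X hX (Fp e N F) (-e * N) (sys he hN hNX hF) A B hB hAB S ?_ ?_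
    · rw [G_eq he]
      exact hS
    · rw [G_eq he]
      exact hSc

end Pool.Agent.R463.CG
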