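import Pool.Agent.R463.EX2

set_option autoImplicit false

/-!
# Relative averages of the singular series over shifts in distant windows
-/

namespace Pool.Agent.R463.EX

open Finset Filter Pool.Agent.H373R2.T7 Pool.Agent.W123.RP Pool.Agent.W123.RU Pool.Agent.TH464.PO
open Pool.Agent.R463.PP

/-- a collision of the shifts `b` and `s` -/
def CoS (Q : ℕ → ℕ → Prop) (b p s : ℕ) : Prop := ∃ m : ℕ, Q p (m + b) ∧ Q p (m + s)

lemma cos_iff (Q : ℕ → ℕ → Prop) (c : ℕ) (hQ : PerB Q c) (b s p : ℕ) (hp : 0 < p) :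
    CoS Q b p s ↔ CoG Q p (ad s b) := by
  have key : ∀ x z : ℕ, x ≤ z → (∃ m, Q p (m + x) ∧ Q p (m + z)) → CoG Q p (z - x) := by
    rintro x z hxz ⟨m, h1, h2⟩
    exact ⟨m + x, h1, by rw [show m + x + (z - x) = m + z by omega]; exact h2⟩
  have key2 : ∀ x z : ℕ, x ≤ z → CoG Q p (z - x) → (∃ m, Q p (m + x) ∧ Q p (m + z)) := by
    rintro x z hxz ⟨m, h1, h2⟩
    have hpx : x ≤ p * x := Nat.le_mul_of_pos_left x hp
    refine ⟨m + (p * x - x), ?_, ?_⟩
    · rw [show m + (p * x - x) + x = m + p * x by omega, hQ.per, Nat.add_mul_mod_self_left, ← hQ.per]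
      exact h1
    · rw [show m + (p * x - x) + z = m + (z - x) + p * x by omega, hQ.per, Nat.add_mul_mod_self_left,
        ← hQ.per]
      exact h2
  unfold CoS
  rcases Nat.lt_or_ge b s with h | h
  · rw [ad_of_gt h]
    exact ⟨key b s h.le, key2 b s h.le⟩
  · have e : ad s b = b - s := by
      unfold ad
      omega
    rw [e]
    constructor
    · rintro ⟨m, h1, h2⟩
      exact key s b h ⟨m, h2, h1⟩
    · intro hc
      obtain ⟨m, h1, h2⟩ := key2 s b h hc
      exact ⟨m, h2, h1⟩

lemma coll_cos (Q : ℕ → ℕ → Prop) (c : ℕ) (hQ : PerB Q c) (b d p0 : ℕ) :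
    Coll (fun p h => CoS Q b p (d + h)) p0 (c ^ 2) := by
  classical
  constructor
  · intro p n
    unfold CoS
    apply exists_congr
    intro m
    rw [hQ.per p (m + (d + n)), hQ.per p (m + (d + n % p))]
    have : (m + (d + n)) % p = (m + (d + n % p)) % p := by
      rw [← add_assoc, ← add_assoc, Nat.add_mod (m + d) n, Nat.add_mod (m + d) (n % p), Nat.mod_mod]
    rw [this]
  · intro p hp _
    have hsub : (range p).filter (fun h => CoS Q b p (d + h)) ⊆
        ((range p).filter (fun r => Q p (r + b))).biUnion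
          (fun a => (range p).filter (fun r => Q p (r + (a + d)))) := by
      intro h hh
      rw [mem_filter] at hh
      obtain ⟨hh1, m, hm1, hm2⟩ := hh
      rw [mem_biUnion]
      refine ⟨m % p, ?_, ?_⟩
      · rw [mem_filter, mem_range]
        refine ⟨Nat.mod_lt _ hp.pos, ?_⟩
        rw [hQ.per] at hm1 ⊢
        have : (m % p + b) % p = (m + b) % p := by rw [Nat.add_mod, Nat.mod_mod, ← Nat.add_mod]
        rw [this]
        exact hm1
      · rw [mem_filter]
        refine ⟨hh1, ?_⟩
        rw [hQ.per] at hm2 ⊢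
        have : (h + (m % p + d)) % p = (m + (d + h)) % p := by
          rw [show h + (m % p + d) = m % p + (d + h) by ring, Nat.add_mod, Nat.mod_mod, ← Nat.add_mod]
        rw [this]
        exact hm2
    have h1 := Finset.card_biUnion_le_card_mul ((range p).filter (fun r => Q p (r + b)))
      (fun a => (range p).filter (fun r => Q p (r + (a + d)))) c (by
        intro a _
        have h2 := nuB_shift Q c hQ (a + d) p
        have h3 := hQ.few p hp
        refine le_trans (le_of_eq ?_) h3
        rw [← h2])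
    have h2 : ((range p).filter (fun r => Q p (r + b))).card ≤ c := by
      have h2 := nuB_shift Q c hQ b p
      refine le_trans (le_of_eq ?_) (hQ.few p hp)
      rw [← h2]
    calc _ ≤ _ := card_le_card hsub
      _ ≤ _ := h1
      _ ≤ c * c := Nat.mul_le_mul_right c h2
      _ = c ^ 2 := (sq c).symm

open Classical in
/-- **The average over one window.** -/
lemma win_avg (K c w : ℕ) (hw : 1 ≤ w) (η1 : ℝ) (hη1 : 0 < η1) (hη1' : η1 ≤ 1)
    (hKD : ((K * c ^ 2 : ℕ) : ℝ) / (w : ℝ) ≤ η1) : ∃ T0 : ℕ, 2 ≤ T0 ∧ ∀ T : ℕ, T0 ≤ T →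
    ∀ Q : ℕ → ℕ → Prop, PerB Q c → ∀ y : ℕ, ∀ η' : ℝ, 0 ≤ η' → K * η' ≤ η1 → ∀ B : ℕ, T ≤ B →
    (∀ t ∈ Icc 1 B, ((((pz y).filter (fun p : ℕ => T < p ∧ CoG Q p t)).card : ℕ) : ℝ) ≤ η' * T) →
    ∀ b ≤ B, ∀ d : ℕ, d + T ≤ B →
    ∑ s ∈ (Ioc d (d + T)).filter (fun s => s ≠ b), (Fp Q K w y (ad s b) - 1) ≤ 24 * η1 * T := by
  obtain ⟨T1, hT1, havg⟩ := avg_sharp K (c ^ 2) w hw η1 hη1 hKD
  refine ⟨T1, hT1, ?_⟩
  intro T hT Q hQ y η' hη' hKη B hTB hlarge b hb d hd
  have hT0 : (0 : ℝ) ≤ T := Nat.cast_nonneg T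
  have hge : ∀ t, 0 ≤ Fp Q K w y t - 1 := by
    intro t
    have := Fp_ge Q K w y t
    linarith
  have hfin : ∀ S : ℝ, S ≤ Real.exp η1 * (Real.exp η1 + η1) * T → S - T ≤ 12 * η1 * T := by
    intro S hS
    have h6 := exp_bound η1 hη1.le hη1'
    have h7 := mul_le_mul_of_nonneg_right h6 hT0
    linarith
  by_cases hnear : d ≤ b ∧ b ≤ d + T
  · have h4 := havg T hT (CoG Q) (coll_gen Q c hQ w) y η' hη' hKη (fun t ht => hlarge t (by
      rw [mem_Icc] at ht ⊢
      omega))
    have h5 : ∑ t ∈ Icc 1 T, (Fp Q K w y t - 1) ≤ 12 * η1 * T := by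
      rw [Finset.sum_sub_distrib, Finset.sum_const, Nat.card_Icc, Nat.add_sub_cancel, nsmul_eq_mul,
        mul_one]
      exact hfin _ h4
    have h1 : ∑ s ∈ (Ioc d (d + T)).filter (fun s => s ≠ b), (Fp Q K w y (ad s b) - 1) ≤
        ∑ s ∈ (Ioc d (d + T)).filter (fun s => s < b), (Fp Q K w y (b - s) - 1) +
          ∑ s ∈ (Ioc d (d + T)).filter (fun s => b < s), (Fp Q K w y (s - b) - 1) := by
      have e : (Ioc d (d + T)).filter (fun s => s ≠ b) =
          (Ioc d (d + T)).filter (fun s => s < b) ∪ (Ioc d (d + T)).filter (fun s => b < s) := by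
        ext s
        simp only [mem_filter, mem_union]
        constructor
        · rintro ⟨a1, a2⟩
          rcases Nat.lt_or_gt_of_ne a2 with h | h
          · exact Or.inl ⟨a1, h⟩
          · exact Or.inr ⟨a1, h⟩
        · rintro (⟨a1, a2⟩ | ⟨a1, a2⟩)
          · exact ⟨a1, a2.ne⟩
          · exact ⟨a1, a2.ne'⟩
      rw [e, Finset.sum_union]
      · apply le_of_eq
        congr 1
        · apply Finset.sum_congr rfl
          intro s hs
          rw [ad_of_lt (mem_filter.1 hs).2]
        · apply Finset.sum_congr rfl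
          intro s hs
          rw [ad_of_gt (mem_filter.1 hs).2]
      · rw [Finset.disjoint_left]
        intro s hs hs'
        rw [mem_filter] at hs hs'
        omega
    have h2 : ∑ s ∈ (Ioc d (d + T)).filter (fun s => s < b), (Fp Q K w y (b - s) - 1) ≤
        ∑ t ∈ Icc 1 T, (Fp Q K w y t - 1) := by
      rw [← Finset.sum_image (f := fun t => Fp Q K w y t - 1) (g := fun s => b - s) (by
        intro s hs s' hs' h
        rw [Finset.mem_coe, mem_filter] at hs hs'
        have h' : b - s = b - s' := h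
        omega)]
      apply Finset.sum_le_sum_of_subset_of_nonneg
      · intro t ht
        rw [mem_image] at ht
        obtain ⟨s, hs, rfl⟩ := ht
        rw [mem_filter, mem_Ioc] at hs
        rw [mem_Icc]
        omega
      · intros
        exact hge _
    have h3 : ∑ s ∈ (Ioc d (d + T)).filter (fun s => b < s), (Fp Q K w y (s - b) - 1) ≤
        ∑ t ∈ Icc 1 T, (Fp Q K w y t - 1) := by
      rw [← Finset.sum_image (f := fun t => Fp Q K w y t - 1) (g := fun s => s - b) (by
        intro s hs s' hs' h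
        rw [Finset.mem_coe, mem_filter] at hs hs'
        simp only at h
        omega)]
      apply Finset.sum_le_sum_of_subset_of_nonneg
      · intro t ht
        rw [mem_image] at ht
        obtain ⟨s, hs, rfl⟩ := ht
        rw [mem_filter, mem_Ioc] at hs
        rw [mem_Icc]
        omega
      · intros
        exact hge _
    linarith
  · have hne : ∀ s ∈ Ioc d (d + T), s ≠ b := by
      intro s hs
      rw [mem_Ioc] at hs
      omega
    have hpt : ∀ h ∈ Icc 1 T, ∀ p ∈ pz y, (CoS Q b p (d + h) ↔ CoG Q p (ad (d + h) b)) :=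
      fun h _ p hp => cos_iff Q c hQ b (d + h) p (mem_pz.1 hp).2.pos
    have h4 := havg T hT (fun p h => CoS Q b p (d + h)) (coll_cos Q c hQ b d w) y η' hη' hKη
      (fun h hh => by
        refine le_trans (le_of_eq ?_) (hlarge (ad (d + h) b) ?_)
        · congr 2
          apply Finset.filter_congr
          intro p hp
          rw [hpt h hh p hp]
        · rw [mem_Icc] at hh ⊢
          unfold ad
          omega)
    have e1 : ∑ h ∈ Icc 1 T, ∏ p ∈ (pz y).filter (fun p : ℕ => w < p ∧ CoS Q b p (d + h)),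
        (1 + (K : ℝ) / p) = ∑ h ∈ Icc 1 T, Fp Q K w y (ad (d + h) b) := by
      apply Finset.sum_congr rfl
      intro h hh
      unfold Fp
      congr 1
      apply Finset.filter_congr
      intro p hp
      rw [hpt h hh p hp]
    rw [e1] at h4
    have e2 : (Ioc d (d + T)).filter (fun s => s ≠ b) = Ioc d (d + T) :=
      Finset.filter_true_of_mem hne
    have e3 : ∑ s ∈ Ioc d (d + T), (Fp Q K w y (ad s b) - 1) =
        ∑ h ∈ Icc 1 T, (Fp Q K w y (ad (d + h) b) - 1) := by
      symm
      apply Finset.sum_bij (fun h _ => d + h)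
      · intro h hh
        rw [mem_Icc] at hh
        rw [mem_Ioc]
        omega
      · intro h _ h' _ e
        omega
      · intro s hs
        rw [mem_Ioc] at hs
        exact ⟨s - d, by rw [mem_Icc]; omega, by omega⟩
      · intro h _
        rfl
    rw [e2, e3, Finset.sum_sub_distrib, Finset.sum_const, Nat.card_Icc, Nat.add_sub_cancel,
      nsmul_eq_mul, mul_one]
    have h5 := hfin _ h4
    have h6 : 0 ≤ η1 * T := by positivity
    linarith

open Classical in
lemma card_oneF (k M : ℕ) (U : Finset ℕ) (hU : U.card ≤ M) (a : ℕ) :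
    ((powersetCard (k + 1) U).filter (fun H => a ∈ H)).card ≤ M ^ k := by
  have h1 : ((powersetCard (k + 1) U).filter (fun H => a ∈ H)).card ≤ (powersetCard k U).card := by
    apply Finset.card_le_card_of_injOn (fun H => H.erase a)
    · intro H hH
      rw [Finset.mem_coe, mem_filter, mem_powersetCard] at hH
      obtain ⟨⟨h1, h2⟩, h3⟩ := hH
      rw [Finset.mem_coe, mem_powersetCard]
      refine ⟨(erase_subset _ _).trans h1, ?_⟩
      beta_reduce
      rw [card_erase_of_mem h3, h2]
      omega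
    · intro H hH H' hH' h
      rw [Finset.mem_coe, mem_filter] at hH hH'
      simp only at h
      rw [← insert_erase hH.2, ← insert_erase hH'.2, h]
  refine h1.trans ?_
  rw [card_powersetCard]
  exact (Nat.choose_le_pow _ k).trans (Nat.pow_le_pow_left hU k)

open Classical in
lemma card_twoF (k M : ℕ) (U : Finset ℕ) (hU : U.card ≤ M) (a b : ℕ) (hab : a ≠ b) :
    ((powersetCard (k + 2) U).filter (fun H => a ∈ H ∧ b ∈ H)).card ≤ M ^ k := by
  have h1 : ((powersetCard (k + 2) U).filter (fun H => a ∈ H ∧ b ∈ H)).card ≤ (powersetCard k U).card := by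
    apply Finset.card_le_card_of_injOn (fun H => (H.erase a).erase b)
    · intro H hH
      rw [Finset.mem_coe, mem_filter, mem_powersetCard] at hH
      obtain ⟨⟨h1, h2⟩, h3, h4⟩ := hH
      rw [Finset.mem_coe, mem_powersetCard]
      refine ⟨((erase_subset _ _).trans (erase_subset _ _)).trans h1, ?_⟩
      beta_reduce
      rw [card_erase_of_mem (mem_erase.2 ⟨hab.symm, h4⟩), card_erase_of_mem h3, h2]
      omega
    · intro H hH H' hH' h
      rw [Finset.mem_coe, mem_filter] at hH hH'
      simp only at h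
      have e1 : insert b ((H.erase a).erase b) = H.erase a :=
        insert_erase (mem_erase.2 ⟨hab.symm, hH.2.2⟩)
      have e2 : insert b ((H'.erase a).erase b) = H'.erase a :=
        insert_erase (mem_erase.2 ⟨hab.symm, hH'.2.2⟩)
      rw [← insert_erase hH.2.1, ← insert_erase hH'.2.1, ← e1, ← e2, h]
  refine h1.trans ?_
  rw [card_powersetCard]
  exact (Nat.choose_le_pow _ k).trans (Nat.pow_le_pow_left hU k)

open Classical in
/-- double counting -/
lemma sum_prF (k M : ℕ) (U H : Finset ℕ) (hU : U.card ≤ M) (g : ℕ → ℝ) (hg : ∀ t, 0 ≤ g t) (G : ℝ)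
    (hG : ∀ b ∈ H ∪ U, ∑ s ∈ U.filter (fun s => s ≠ b), g (ad s b) ≤ G) (hG0 : 0 ≤ G) :
    ∑ S ∈ powersetCard (k + 1) U, ∑ x ∈ prR H S, g (ad x.1 x.2) ≤
      (H.card + 1) * ((M : ℝ) ^ k * G) := by
  have hM0 : (0 : ℝ) ≤ M := Nat.cast_nonneg M
  have hUM : (U.card : ℝ) ≤ M := by exact_mod_cast hU
  have hsplit : ∀ S : Finset ℕ, ∑ x ∈ prR H S, g (ad x.1 x.2) ≤
      ∑ b ∈ H, ∑ s ∈ S.filter (fun s => s ≠ b), g (ad s b) +
        ∑ b ∈ S, ∑ s ∈ S.filter (fun s => s ≠ b), g (ad s b) := by
    intro S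
    have e1 : prR H S ⊆ (S ×ˢ H).filter (fun x => x.1 ≠ x.2) ∪ (S ×ˢ S).filter (fun x => x.1 ≠ x.2) := by
      intro x hx
      unfold prR at hx
      rw [mem_filter, mem_product, mem_union] at hx
      rw [mem_union, mem_filter, mem_filter, mem_product, mem_product]
      tauto
    have e2 : ∑ x ∈ prR H S, g (ad x.1 x.2) ≤ ∑ x ∈ (S ×ˢ H).filter (fun x => x.1 ≠ x.2), g (ad x.1 x.2) +
        ∑ x ∈ (S ×ˢ S).filter (fun x => x.1 ≠ x.2), g (ad x.1 x.2) := by
      refine (Finset.sum_le_sum_of_subset_of_nonneg e1 (fun _ _ _ => hg _)).trans ?_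
      have := Finset.sum_union_inter (s₁ := (S ×ˢ H).filter (fun x => x.1 ≠ x.2))
        (s₂ := (S ×ˢ S).filter (fun x => x.1 ≠ x.2)) (f := fun x : ℕ × ℕ => g (ad x.1 x.2))
      have h0 : 0 ≤ ∑ x ∈ (S ×ˢ H).filter (fun x => x.1 ≠ x.2) ∩ (S ×ˢ S).filter (fun x => x.1 ≠ x.2),
          g (ad x.1 x.2) := Finset.sum_nonneg fun _ _ => hg _
      linarith
    refine e2.trans (le_of_eq ?_)
    congr 1
    · rw [Finset.sum_filter, Finset.sum_product_right]
      apply Finset.sum_congr rfl
      intro b _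
      rw [Finset.sum_filter]
    · rw [Finset.sum_filter, Finset.sum_product_right]
      apply Finset.sum_congr rfl
      intro b _
      rw [Finset.sum_filter]
  refine (Finset.sum_le_sum fun S _ => hsplit S).trans ?_
  rw [Finset.sum_add_distrib]
  have hfix : ∀ S ∈ powersetCard (k + 1) U, ∀ b : ℕ, ∑ s ∈ S.filter (fun s => s ≠ b), g (ad s b) =
      ∑ s ∈ U.filter (fun s => s ≠ b), if s ∈ S then g (ad s b) else 0 := by
    intro S hS b
    rw [mem_powersetCard] at hS
    rw [← Finset.sum_filter, Finset.filter_filter]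
    apply Finset.sum_congr _ (fun _ _ => rfl)
    ext s
    simp only [mem_filter]
    constructor
    · rintro ⟨a1, a2⟩
      exact ⟨hS.1 a1, a2, a1⟩
    · rintro ⟨_, a2, a1⟩
      exact ⟨a1, a2⟩
  have h2 : ∑ S ∈ powersetCard (k + 1) U, ∑ b ∈ H, ∑ s ∈ S.filter (fun s => s ≠ b), g (ad s b) ≤
      H.card * ((M : ℝ) ^ k * G) := by
    rw [Finset.sum_comm, ← nsmul_eq_mul, ← Finset.sum_const]
    apply Finset.sum_le_sum
    intro b hb
    rw [Finset.sum_congr rfl (fun S hS => hfix S hS b), Finset.sum_comm]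
    calc ∑ s ∈ U.filter (fun s => s ≠ b), ∑ S ∈ powersetCard (k + 1) U,
          (if s ∈ S then g (ad s b) else 0) ≤
        ∑ s ∈ U.filter (fun s => s ≠ b), (M : ℝ) ^ k * g (ad s b) := by
          apply Finset.sum_le_sum
          intro s _
          rw [← Finset.sum_filter, Finset.sum_const, nsmul_eq_mul]
          apply mul_le_mul_of_nonneg_right _ (hg _)
          exact_mod_cast card_oneF k M U hU s
      _ = (M : ℝ) ^ k * ∑ s ∈ U.filter (fun s => s ≠ b), g (ad s b) := by rw [Finset.mul_sum]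
      _ ≤ _ := mul_le_mul_of_nonneg_left (hG b (mem_union_left _ hb)) (by positivity)
  have h3 : ∑ S ∈ powersetCard (k + 1) U, ∑ b ∈ S, ∑ s ∈ S.filter (fun s => s ≠ b), g (ad s b) ≤
      (M : ℝ) ^ k * G := by
    have e : ∀ S ∈ powersetCard (k + 1) U, ∑ b ∈ S, ∑ s ∈ S.filter (fun s => s ≠ b), g (ad s b) =
        ∑ b ∈ U, ∑ s ∈ U.filter (fun s => s ≠ b), if (b ∈ S ∧ s ∈ S) then g (ad s b) else 0 := by
      intro S hS
      rw [Finset.sum_congr rfl (fun b _ => hfix S hS b)]
      rw [mem_powersetCard] at hS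
      have e1 := Finset.sum_ite_mem U S
        (fun b => ∑ s ∈ U.filter (fun s => s ≠ b), if s ∈ S then g (ad s b) else 0)
      rw [Finset.inter_eq_right.2 hS.1] at e1
      rw [← e1]
      apply Finset.sum_congr rfl
      intro b _
      by_cases hb : b ∈ S
      · simp [hb]
      · simp [hb]
    have hcnt : ∀ b s : ℕ, s ≠ b →
        ((((powersetCard (k + 1) U).filter (fun S => b ∈ S ∧ s ∈ S)).card : ℕ) : ℝ) * M ≤ (M : ℝ) ^ k := by
      intro b s hsb
      rcases k with _ | k
      · have : (powersetCard (0 + 1) U).filter (fun S => b ∈ S ∧ s ∈ S) = ∅ := by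
          rw [Finset.filter_eq_empty_iff]
          rintro S hS ⟨h1, h2⟩
          rw [mem_powersetCard] at hS
          have h3 : ({b, s} : Finset ℕ) ⊆ S := by
            intro x hx
            rw [mem_insert, mem_singleton] at hx
            rcases hx with rfl | rfl <;> assumption
          have h4 := card_le_card h3
          rw [card_pair hsb.symm] at h4
          omega
        rw [this, card_empty, Nat.cast_zero, zero_mul]
        positivity
      · have h1 := card_twoF k M U hU b s hsb.symm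
        calc ((((powersetCard (k + 2) U).filter (fun S => b ∈ S ∧ s ∈ S)).card : ℕ) : ℝ) * M ≤
            ((M ^ k : ℕ) : ℝ) * M := by
              apply mul_le_mul_of_nonneg_right _ hM0
              exact_mod_cast h1
          _ = (M : ℝ) ^ (k + 1) := by push_cast; ring
    rcases Nat.eq_zero_or_pos M with hM | hM
    · have hU0 : U = ∅ := by
        rw [← Finset.card_eq_zero]
        omega
      have h5 : powersetCard (k + 1) (∅ : Finset ℕ) = ∅ := Finset.powersetCard_eq_empty.2 (by simp)
      rw [hU0, h5, Finset.sum_empty]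
      positivity
    · have hMpos : (0 : ℝ) < M := by exact_mod_cast hM
      have h4 : (M : ℝ) * ∑ S ∈ powersetCard (k + 1) U, ∑ b ∈ S, ∑ s ∈ S.filter (fun s => s ≠ b), g (ad s b) ≤
          M * ((M : ℝ) ^ k * G) := by
        rw [Finset.sum_congr rfl e, Finset.sum_comm, Finset.mul_sum]
        calc ∑ b ∈ U, (M : ℝ) * ∑ S ∈ powersetCard (k + 1) U, ∑ s ∈ U.filter (fun s => s ≠ b),
              (if (b ∈ S ∧ s ∈ S) then g (ad s b) else 0) ≤ ∑ b ∈ U, (M : ℝ) ^ k * G := by
              apply Finset.sum_le_sum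
              intro b hb
              rw [Finset.sum_comm, Finset.mul_sum]
              calc ∑ s ∈ U.filter (fun s => s ≠ b), (M : ℝ) * ∑ S ∈ powersetCard (k + 1) U,
                    (if (b ∈ S ∧ s ∈ S) then g (ad s b) else 0) ≤
                  ∑ s ∈ U.filter (fun s => s ≠ b), (M : ℝ) ^ k * g (ad s b) := by
                    apply Finset.sum_le_sum
                    intro s hs
                    rw [mem_filter] at hs
                    rw [← Finset.sum_filter, Finset.sum_const, nsmul_eq_mul, ← mul_assoc,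
                      mul_comm (M : ℝ)]
                    exact mul_le_mul_of_nonneg_right (hcnt b s hs.2) (hg _)
                _ = (M : ℝ) ^ k * ∑ s ∈ U.filter (fun s => s ≠ b), g (ad s b) := by rw [Finset.mul_sum]
                _ ≤ _ := mul_le_mul_of_nonneg_left (hG b (mem_union_right _ hb)) (by positivity)
          _ = U.card * ((M : ℝ) ^ k * G) := by rw [Finset.sum_const, nsmul_eq_mul]
          _ ≤ M * ((M : ℝ) ^ k * G) := mul_le_mul_of_nonneg_right hUM (by positivity)
      exact le_of_mul_le_mul_left h4 hMpos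
  linarith

end Pool.Agent.R463.EX
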