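import Pool.Agent.R463.EF1

set_option autoImplicit false

/-!
# Relative averages of the singular series, distant windows
-/

namespace Pool.Agent.R463.EX

open Finset Filter Pool.Agent.H373R2.T7 Pool.Agent.W123.RP Pool.Agent.W123.RU Pool.Agent.TH464.PO
open Pool.Agent.R463.PP

lemma sum_biUnion_le' {ι : Type*} [DecidableEq ι] (D : Finset ι) (W : ι → Finset ℕ) (f : ℕ → ℝ)
    (hf : ∀ s, 0 ≤ f s) : ∑ s ∈ D.biUnion W, f s ≤ ∑ d ∈ D, ∑ s ∈ W d, f s := by
  induction D using Finset.induction_on with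
  | empty => simp
  | insert a D ha ih =>
    rw [Finset.biUnion_insert, Finset.sum_insert ha]
    have h1 := Finset.sum_union_inter (s₁ := W a) (s₂ := D.biUnion W) (f := f)
    have h2 : 0 ≤ ∑ s ∈ W a ∩ D.biUnion W, f s := Finset.sum_nonneg fun _ _ => hf _
    linarith

open Classical in
/-- **The small primes**, relative to `H`. -/
theorem small_avgF (k w : ℕ) (η C : ℝ) (hη : 0 < η) (hC : 0 ≤ C) : ∃ T0 : ℕ, ∀ T : ℕ, T0 ≤ T →
    ∀ (Q : ℕ → ℕ → Prop) (c : ℕ), PerB Q c → (∀ p : ℕ, p.Prime → nuB Q p < p) →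
    ∀ H W : Finset ℕ, W.card ≤ T →
    (∀ m : ℕ, |((W.filter (fun h => Sf Q w (m + h))).card : ℝ) - W.card * Vq Q w| ≤ C) →
    |∑ S ∈ powersetCard (k + 1) W, Vq (QH Q (H ∪ S)) w -
      Vq (QH Q H) w * ((W.card * Vq Q w) ^ (k + 1) / (k + 1).factorial)| ≤
      η * (Vq (QH Q H) w * ((T * Vq Q w) ^ (k + 1) / (k + 1).factorial)) := by
  obtain ⟨M, hM⟩ : ∃ M, M = Mw w := ⟨_, rfl⟩
  have hMpos : 0 < M := by rw [hM]; exact Mw_pos w
  have hMr : (0 : ℝ) < M := by exact_mod_cast hMpos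
  obtain ⟨B, hB⟩ : ∃ B : ℝ, B = max (C + k + 1) ((C + (k + 1)) * (k + 1) * 2 ^ k / η) := ⟨_, rfl⟩
  obtain ⟨T0, hT0⟩ : ∃ T0 : ℕ, (M : ℝ) * B ≤ T0 := exists_nat_ge _
  refine ⟨T0, ?_⟩
  intro T hT Q c hQ hadm H W hW hwin
  have hTr : (M : ℝ) * B ≤ T := hT0.trans (by exact_mod_cast hT)
  have hWp := Vq_pos Q hadm w
  have hex := exact Q c hQ w
  rw [← hM] at hex
  have hMW : 1 ≤ (M : ℝ) * Vq Q w := by
    rw [← hex]
    have h1 : (0 : ℝ) < (((range M).filter (fun m => Sf Q w m)).card : ℝ) := by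
      rw [hex]
      positivity
    have h2 : 0 < ((range M).filter (fun m => Sf Q w m)).card := by exact_mod_cast h1
    exact_mod_cast h2
  obtain ⟨x, hx⟩ : ∃ x : ℝ, x = W.card * Vq Q w := ⟨_, rfl⟩
  obtain ⟨z, hz⟩ : ∃ z : ℝ, z = T * Vq Q w := ⟨_, rfl⟩
  rw [← hx, ← hz]
  rw [← hx] at hwin
  have hx0 : 0 ≤ x := by rw [hx]; positivity
  have hWT : (W.card : ℝ) ≤ T := by exact_mod_cast hW
  have hxz : x ≤ z := by
    rw [hx, hz]
    exact mul_le_mul_of_nonneg_right hWT hWp.le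
  have hBz : B ≤ z := by
    have h1 : (M : ℝ) * B ≤ M * z := by
      rw [hz]
      calc (M : ℝ) * B ≤ T := hTr
        _ = T * 1 := (mul_one _).symm
        _ ≤ T * (M * Vq Q w) := by gcongr
        _ = _ := by ring
    exact le_of_mul_le_mul_left h1 hMr
  have hB1 : C + k + 1 ≤ z := (by rw [hB]; exact le_max_left _ _ : C + k + 1 ≤ B).trans hBz
  have hB2 : (C + (k + 1)) * (k + 1) * 2 ^ k ≤ η * z := by
    have h1 : (C + (k + 1)) * (k + 1) * 2 ^ k / η ≤ z :=
      (by rw [hB]; exact le_max_right _ _ : (C + (k + 1)) * (k + 1) * 2 ^ k / η ≤ B).trans hBz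
    rw [div_le_iff₀ hη] at h1
    linarith
  have hz0 : 0 ≤ z := hx0.trans hxz
  have hkf : (0 : ℝ) < (k + 1).factorial := by exact_mod_cast Nat.factorial_pos (k + 1)
  have hsum := sum_setsR Q c hQ w (k + 1) H W
  rw [← hM] at hsum
  have hexH := exact (QH Q H) _ (perB_QH Q c hQ H) w
  rw [← hM] at hexH
  obtain ⟨F, hF⟩ : ∃ F, F = (range M).filter (fun m => Sf (QH Q H) w m) := ⟨_, rfl⟩
  rw [← hF] at hsum hexH
  have hb : ∀ m ∈ F, |(((W.filter (fun h => Sf Q w (m + h))).card.choose (k + 1) : ℕ) : ℝ) -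
      x ^ (k + 1) / (k + 1).factorial| ≤ η * (z ^ (k + 1) / (k + 1).factorial) := by
    intro m _
    refine (choose_near _ k x z C (hwin m) hC hx0 hxz hB1).trans ?_
    rw [← mul_div_assoc]
    apply div_le_div_of_nonneg_right _ hkf.le
    calc (C + (k + 1)) * (k + 1) * (2 * z) ^ k = (C + (k + 1)) * (k + 1) * 2 ^ k * z ^ k := by
          rw [mul_pow]; ring
      _ ≤ η * z * z ^ k := mul_le_mul_of_nonneg_right hB2 (by positivity)
      _ = _ := by ring
  have e : (M : ℝ) * (∑ S ∈ powersetCard (k + 1) W, Vq (QH Q (H ∪ S)) w -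
      Vq (QH Q H) w * (x ^ (k + 1) / (k + 1).factorial)) =
      ∑ m ∈ F, ((((W.filter (fun h => Sf Q w (m + h))).card.choose (k + 1) : ℕ) : ℝ) -
        x ^ (k + 1) / (k + 1).factorial) := by
    rw [mul_sub, hsum, Finset.sum_sub_distrib, Finset.sum_const, nsmul_eq_mul, hexH]
    ring
  have h3 : |(M : ℝ) * (∑ S ∈ powersetCard (k + 1) W, Vq (QH Q (H ∪ S)) w -
      Vq (QH Q H) w * (x ^ (k + 1) / (k + 1).factorial))| ≤
      M * (η * (Vq (QH Q H) w * (z ^ (k + 1) / (k + 1).factorial))) := by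
    rw [e]
    refine (Finset.abs_sum_le_sum_abs _ _).trans ?_
    refine (Finset.sum_le_card_nsmul _ _ _ hb).trans (le_of_eq ?_)
    rw [nsmul_eq_mul, hexH]
    ring
  rw [abs_mul, abs_of_pos hMr] at h3
  exact le_of_mul_le_mul_left h3 hMr

open Classical in
/-- **The relative average of the singular series**, distant windows. -/
theorem sing_far (c a m k : ℕ) (hm : 1 ≤ m) (η : ℝ) (hη : 0 < η) (hη1 : η ≤ 1) (C : ℕ → ℝ) (hC : ∀ w, 0 ≤ C w) :
    ∃ (w : ℕ) (η' : ℝ) (T0 : ℕ), 0 < η' ∧ ∀ T : ℕ, T0 ≤ T → ∀ Q : ℕ → ℕ → Prop, PerB Q c →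
      (∀ p : ℕ, p.Prime → nuB Q p < p) → ∀ y : ℕ, w ≤ y →
      ∀ Bd : ℕ, T ≤ Bd →
      (∀ t ∈ Icc 1 Bd, ((((pz y).filter (fun p : ℕ => T < p ∧ CoG Q p t)).card : ℕ) : ℝ) ≤ η' * T) →
      ∀ H : Finset ℕ, H.card = a → H ⊆ range (Bd + 1) → ∀ D : Finset ℕ, D.card ≤ m →
      (∀ d ∈ D, d + T ≤ Bd) →
      ∀ W : Finset ℕ, W ⊆ D.biUnion (fun d => Ioc d (d + T)) → Disjoint H W →
      (∀ w m : ℕ, |((W.filter (fun h => Sf Q w (m + h))).card : ℝ) - W.card * Vq Q w| ≤ C w) →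
      |∑ S ∈ powersetCard (k + 1) W, Vq (QH Q (H ∪ S)) y -
        Vq (QH Q H) y * ((W.card * Vq Q y) ^ (k + 1) / (k + 1).factorial)| ≤
        η * (Vq (QH Q H) y * ((((m * T : ℕ) : ℝ) * Vq Q y) ^ (k + 1) / (k + 1).factorial)) := by
  obtain ⟨c1, B, w1, hc1, hw12, hW⟩ := W_low c
  obtain ⟨K, hK⟩ : ∃ K : ℕ, K = (1 + 2 * ((k + 1) * c)) ^ ((a + (k + 1)) ^ 2) - 1 := ⟨_, rfl⟩
  obtain ⟨A, hA⟩ : ∃ A : ℕ, A = 24 * (a + 1) * (K * c ^ 2 + 1) * (k + 1).factorial +
      ((a + (k + 1)) * c) ^ 2 := ⟨_, rfl⟩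
  obtain ⟨w, hw0, hw2, hAw, hAw'⟩ := exists_w A B (k + 1) c1 (η / 4) hc1 (by positivity)
    (max w1 (2 * ((a + (k + 1)) * c)))
  have hww1 : w1 ≤ w := (le_max_left _ _).trans hw0
  have hwc : 2 * ((a + (k + 1)) * c) ≤ w := (le_max_right _ _).trans hw0
  have hwc' : 2 * ((k + 1) * c) ≤ w := by
    refine le_trans ?_ hwc
    exact Nat.mul_le_mul_left 2 (Nat.mul_le_mul_right c (by omega))
  have hwr : (0 : ℝ) < w := by exact_mod_cast (by omega : 0 < w)
  obtain ⟨η1, hη1def⟩ : ∃ η1 : ℝ, η1 = ((K * c ^ 2 + 1 : ℕ) : ℝ) / w := ⟨_, rfl⟩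
  have hη10 : 0 < η1 := by rw [hη1def]; positivity
  have hfac : (1 : ℝ) ≤ (k + 1).factorial := by
    exact_mod_cast Nat.factorial_pos (k + 1)
  have ha1 : (1 : ℝ) ≤ a + 1 := by
    have : (0 : ℝ) ≤ a := Nat.cast_nonneg a
    linarith
  have hAge : 24 * (a + 1) * η1 * (k + 1).factorial ≤ (A : ℝ) / w := by
    rw [hη1def, le_div_iff₀ hwr]
    have : ((24 * (a + 1) * (K * c ^ 2 + 1) * (k + 1).factorial : ℕ) : ℝ) ≤ A := by
      exact_mod_cast (by omega : 24 * (a + 1) * (K * c ^ 2 + 1) * (k + 1).factorial ≤ A)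
    refine le_trans (le_of_eq ?_) this
    push_cast
    field_simp
  have hAge2 : (((a + (k + 1)) * c : ℕ) : ℝ) ^ 2 / w ≤ η / 4 := by
    refine le_trans ?_ hAw'
    apply div_le_div_of_nonneg_right _ hwr.le
    exact_mod_cast (by omega : ((a + (k + 1)) * c) ^ 2 ≤ A)
  have hη1le : η1 ≤ 1 := by
    have h1 : 24 * (a + 1) * η1 * (k + 1).factorial ≤ 1 := hAge.trans (hAw'.trans (by linarith))
    have h2 : 24 * η1 ≤ 24 * (a + 1) * η1 * (k + 1).factorial := by
      calc 24 * η1 = 24 * 1 * η1 * 1 := by ring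
        _ ≤ 24 * (a + 1) * η1 * (k + 1).factorial := by gcongr
    linarith
  obtain ⟨T1, hT1, havg⟩ := win_avg K c w (by omega) η1 hη10 hη1le (by
    rw [hη1def]
    apply div_le_div_of_nonneg_right _ hwr.le
    push_cast
    linarith)
  obtain ⟨T2, hsmall⟩ := small_avgF k w (η / 4) (C w) (by positivity) (hC w)
  refine ⟨w, η1 / (K + 1), max T1 T2, by positivity, ?_⟩
  intro T1' hT Q hQ hadm y hwy Bd hTB hlarge H hHa hHT D hD hDB U hU hdis hwin
  have hT1' : T1 ≤ T1' := (le_max_left _ _).trans hT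
  have hT2' : T2 ≤ T1' := (le_max_right _ _).trans hT
  obtain ⟨T, hTdef⟩ : ∃ T, T = m * T1' := ⟨_, rfl⟩
  have hTT : T1' ≤ T := by rw [hTdef]; exact Nat.le_mul_of_pos_left T1' hm
  obtain ⟨UU, hUU⟩ : ∃ UU, UU = D.biUnion (fun d => Ioc d (d + T1')) := ⟨_, rfl⟩
  rw [← hUU] at hU
  rw [← hTdef]
  have hUUcard : UU.card ≤ T := by
    rw [hUU, hTdef]
    refine card_biUnion_le.trans ?_
    calc ∑ d ∈ D, (Ioc d (d + T1')).card = D.card * T1' := by
          rw [Finset.sum_congr rfl (fun d _ => by rw [Nat.card_Ioc, Nat.add_sub_cancel_left]),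
            Finset.sum_const, smul_eq_mul]
      _ ≤ m * T1' := Nat.mul_le_mul_right T1' hD
  have hUcard : U.card ≤ T := (card_le_card hU).trans hUUcard
  have s0 := hsmall T (hT2'.trans hTT) Q c hQ hadm H U hUcard (hwin w)
  obtain ⟨s1, s2⟩ := abs_le.1 s0
  have hWpos := Vq_pos Q hadm w
  obtain ⟨W, hWdef⟩ : ∃ W, W = Vq Q w := ⟨_, rfl⟩
  obtain ⟨V, hV⟩ : ∃ V, V = Vt Q w y := ⟨_, rfl⟩
  have hV0 : 0 ≤ V := by rw [hV]; exact Vt_nonneg Q w y
  obtain ⟨P, hP⟩ : ∃ P, P = Vq (QH Q H) w := ⟨_, rfl⟩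
  have hP0 : 0 ≤ P := by rw [hP]; exact Vq_nonneg _ w
  obtain ⟨R, hR⟩ : ∃ R, R = Vt (QH Q H) w y := ⟨_, rfl⟩
  have hR0 : 0 ≤ R := by rw [hR]; exact Vt_nonneg _ w y
  rw [← hWdef] at s1 s2 hWpos
  rw [← hP] at s1 s2
  rw [Vq_split Q w y hwy, Vq_split (QH Q H) w y hwy, ← hWdef, ← hV, ← hP, ← hR]
  have hT0 : (0 : ℝ) ≤ T := Nat.cast_nonneg T
  have hUT : (U.card : ℝ) ≤ T := by exact_mod_cast hUcard
  have e1 : ∀ x : ℝ, P * R * ((x * (W * V)) ^ (k + 1) / (k + 1).factorial) =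
      R * V ^ (k + 1) * (P * ((x * W) ^ (k + 1) / (k + 1).factorial)) := by
    intro x
    rw [← mul_assoc x, mul_pow (x * W) V]
    ring
  rw [e1, e1]
  obtain ⟨Z, hZ⟩ : ∃ Z : ℝ, Z = P * ((T * W) ^ (k + 1) / ((k + 1).factorial : ℝ)) := ⟨_, rfl⟩
  obtain ⟨z, hz⟩ : ∃ z : ℝ, z = P * ((U.card * W) ^ (k + 1) / ((k + 1).factorial : ℝ)) := ⟨_, rfl⟩
  obtain ⟨S, hS⟩ : ∃ S : ℝ, S = ∑ S ∈ powersetCard (k + 1) U, Vq (QH Q (H ∪ S)) w := ⟨_, rfl⟩
  have hzZ : z ≤ Z := by
    rw [hz, hZ]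
    apply mul_le_mul_of_nonneg_left _ hP0
    apply div_le_div_of_nonneg_right _ (by positivity)
    apply pow_le_pow_left₀ (by positivity)
    exact mul_le_mul_of_nonneg_right hUT hWpos.le
  have hz0 : 0 ≤ z := by rw [hz]; positivity
  rw [← hS, ← hz, ← hZ] at s1 s2
  rw [← hz, ← hZ]
  have hterm : ∀ S ∈ powersetCard (k + 1) U, Vq (QH Q (H ∪ S)) y =
      Vq (QH Q (H ∪ S)) w * Vt (QH Q (H ∪ S)) w y := fun S _ => Vq_split _ w y hwy
  have hRV : 0 ≤ R * V ^ (k + 1) := by positivity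
  have hlow : R * V ^ (k + 1) * (1 - η / 4) * S ≤ ∑ S ∈ powersetCard (k + 1) U, Vq (QH Q (H ∪ S)) y := by
    have h1 : ∀ S ∈ powersetCard (k + 1) U,
        R * V ^ (k + 1) * (1 - η / 4) * Vq (QH Q (H ∪ S)) w ≤ Vq (QH Q (H ∪ S)) y := by
      intro S hS
      rw [hterm S hS]
      rw [mem_powersetCard] at hS
      have h2 := tail_loR Q c hQ H S w y (by omega) (by rw [hS.2, hHa]; exact hwc)
      rw [hS.2, hHa, ← hV, ← hR] at h2
      have h3 : R * V ^ (k + 1) * (1 - η / 4) ≤ Vt (QH Q (H ∪ S)) w y := by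
        refine le_trans ?_ h2
        apply mul_le_mul_of_nonneg_left _ hRV
        linarith
      calc R * V ^ (k + 1) * (1 - η / 4) * Vq (QH Q (H ∪ S)) w ≤
            Vt (QH Q (H ∪ S)) w y * Vq (QH Q (H ∪ S)) w :=
            mul_le_mul_of_nonneg_right h3 (Vq_nonneg _ w)
        _ = _ := mul_comm _ _
    have h2 := Finset.sum_le_sum h1
    rw [← Finset.mul_sum, ← hS] at h2
    exact h2
  have hup : ∑ S ∈ powersetCard (k + 1) U, Vq (QH Q (H ∪ S)) y ≤ R * V ^ (k + 1) * (S + η / 4 * Z) := by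
    have h1 : ∀ S ∈ powersetCard (k + 1) U, Vq (QH Q (H ∪ S)) y ≤
        R * V ^ (k + 1) * (Vq (QH Q (H ∪ S)) w + P * ∑ x ∈ prR H S, (Fp Q K w y (ad x.1 x.2) - 1)) := by
      intro S hS
      rw [hterm S hS]
      rw [mem_powersetCard] at hS
      have hdS : Disjoint H S := Finset.disjoint_of_subset_right hS.1 hdis
      have h2 := tail_upR Q c hQ H S hdS w y (by rw [hS.2]; exact hwc')
      rw [hS.2, hHa, ← hV, ← hR, ← hK] at h2
      have h3 : 0 ≤ ∑ x ∈ prR H S, (Fp Q K w y (ad x.1 x.2) - 1) := by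
        apply Finset.sum_nonneg
        intro x _
        have := Fp_ge Q K w y (ad x.1 x.2)
        linarith
      have h4 := Vq_nonneg (QH Q (H ∪ S)) w
      have h5 : Vq (QH Q (H ∪ S)) w ≤ P := by
        rw [hP]
        exact Vq_anti' _ _ w fun p m ⟨h, hh, hq⟩ => ⟨h, mem_union_left _ hh, hq⟩
      calc Vq (QH Q (H ∪ S)) w * Vt (QH Q (H ∪ S)) w y ≤ Vq (QH Q (H ∪ S)) w * (R * V ^ (k + 1) *
            (1 + ∑ x ∈ prR H S, (Fp Q K w y (ad x.1 x.2) - 1))) := mul_le_mul_of_nonneg_left h2 h4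
        _ = R * V ^ (k + 1) * (Vq (QH Q (H ∪ S)) w +
            Vq (QH Q (H ∪ S)) w * ∑ x ∈ prR H S, (Fp Q K w y (ad x.1 x.2) - 1)) := by ring
        _ ≤ _ := by
          apply mul_le_mul_of_nonneg_left _ hRV
          have := mul_le_mul_of_nonneg_right h5 h3
          linarith
    have h2 := Finset.sum_le_sum h1
    rw [← Finset.mul_sum, Finset.sum_add_distrib, ← hS, ← Finset.mul_sum] at h2
    refine h2.trans ?_
    have hG0 : 0 ≤ 24 * η1 * T := by positivity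
    have h3 := sum_prF k T UU H hUUcard (fun t => Fp Q K w y t - 1) (fun t => by
      have := Fp_ge Q K w y t
      linarith) (24 * η1 * T) (by
        intro b hb
        have hbB : b ≤ Bd := by
          rw [mem_union] at hb
          rcases hb with hb | hb
          · have := mem_range.1 (hHT hb)
            omega
          · rw [hUU, mem_biUnion] at hb
            obtain ⟨d, hd, hb⟩ := hb
            rw [mem_Ioc] at hb
            have := hDB d hd
            omega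
        have h4 : ∀ d ∈ D, ∑ s ∈ (Ioc d (d + T1')).filter (fun s => s ≠ b), (Fp Q K w y (ad s b) - 1) ≤
            24 * η1 * T1' := by
          intro d hd
          refine havg T1' hT1' Q hQ y (η1 / (K + 1)) (by positivity) ?_ Bd hTB hlarge b hbB d (hDB d hd)
          rw [← mul_div_assoc, div_le_iff₀ (by positivity)]
          have : (0 : ℝ) ≤ K := Nat.cast_nonneg K
          nlinarith
        have h5 : UU.filter (fun s => s ≠ b) ⊆ D.biUnion (fun d => (Ioc d (d + T1')).filter (fun s => s ≠ b)) := by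
          intro s hs
          rw [hUU, mem_filter, mem_biUnion] at hs
          obtain ⟨⟨d, hd, hs⟩, hsb⟩ := hs
          rw [mem_biUnion]
          exact ⟨d, hd, mem_filter.2 ⟨hs, hsb⟩⟩
        have hnn : ∀ s : ℕ, 0 ≤ Fp Q K w y (ad s b) - 1 := fun s => by
          have := Fp_ge Q K w y (ad s b)
          linarith
        calc ∑ s ∈ UU.filter (fun s => s ≠ b), (Fp Q K w y (ad s b) - 1) ≤
              ∑ s ∈ D.biUnion (fun d => (Ioc d (d + T1')).filter (fun s => s ≠ b)),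
                (Fp Q K w y (ad s b) - 1) :=
              Finset.sum_le_sum_of_subset_of_nonneg h5 (fun _ _ _ => hnn _)
          _ ≤ ∑ d ∈ D, ∑ s ∈ (Ioc d (d + T1')).filter (fun s => s ≠ b), (Fp Q K w y (ad s b) - 1) :=
              sum_biUnion_le' D _ _ hnn
          _ ≤ ∑ _d ∈ D, 24 * η1 * T1' := Finset.sum_le_sum h4
          _ = D.card * (24 * η1 * T1') := by rw [Finset.sum_const, nsmul_eq_mul]
          _ ≤ m * (24 * η1 * T1') := by
              apply mul_le_mul_of_nonneg_right _ (by positivity)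
              exact_mod_cast hD
          _ = 24 * η1 * T := by
              rw [hTdef]
              push_cast
              ring) hG0
    have hmono : ∑ S ∈ powersetCard (k + 1) U, ∑ x ∈ prR H S, (Fp Q K w y (ad x.1 x.2) - 1) ≤
        ∑ S ∈ powersetCard (k + 1) UU, ∑ x ∈ prR H S, (Fp Q K w y (ad x.1 x.2) - 1) := by
      apply Finset.sum_le_sum_of_subset_of_nonneg (Finset.powersetCard_mono hU)
      intro S _ _
      apply Finset.sum_nonneg
      intro x _
      have := Fp_ge Q K w y (ad x.1 x.2)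
      linarith
    have h6 : P * ∑ S ∈ powersetCard (k + 1) UU, ∑ x ∈ prR H S, (Fp Q K w y (ad x.1 x.2) - 1) ≤
        η / 4 * Z := by
      rw [hZ]
      have h7 : ∑ S ∈ powersetCard (k + 1) UU, ∑ x ∈ prR H S, (Fp Q K w y (ad x.1 x.2) - 1) ≤
          η / 4 * ((T * W) ^ (k + 1) / ((k + 1).factorial : ℝ)) := by
        calc _ ≤ (H.card + 1) * ((T : ℝ) ^ k * (24 * η1 * T)) := h3
          _ = 24 * (a + 1) * η1 * (k + 1).factorial * (T ^ (k + 1) / (k + 1).factorial) := by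
            rw [pow_succ, hHa]
            field_simp
          _ ≤ (η / 4 * (c1 / Real.log w ^ B) ^ (k + 1)) * (T ^ (k + 1) / (k + 1).factorial) := by
            apply mul_le_mul_of_nonneg_right (hAge.trans hAw) (by positivity)
          _ ≤ (η / 4 * W ^ (k + 1)) * (T ^ (k + 1) / (k + 1).factorial) := by
            apply mul_le_mul_of_nonneg_right _ (by positivity)
            apply mul_le_mul_of_nonneg_left _ (by positivity)
            have hlog : 0 < Real.log w := Real.log_pos (by exact_mod_cast (by omega : 1 < w))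
            apply pow_le_pow_left₀ (by positivity)
            rw [hWdef]
            exact hW w hww1 Q hQ hadm
          _ = _ := by
            rw [mul_pow]
            ring
      have h8 := mul_le_mul_of_nonneg_left h7 hP0
      refine h8.trans (le_of_eq ?_)
      ring
    apply mul_le_mul_of_nonneg_left _ hRV
    have := mul_le_mul_of_nonneg_left hmono hP0
    linarith
  have hZ0 : 0 ≤ Z := hz0.trans hzZ
  have hη4 : η / 4 ≤ 1 := by linarith
  have hηZ : 0 ≤ η * Z := by positivity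
  have hS0 : 0 ≤ S := by
    rw [hS]
    exact Finset.sum_nonneg fun _ _ => Vq_nonneg _ w
  rw [abs_le]
  constructor
  · have h1 : z - η * Z ≤ (1 - η / 4) * S := by
      have h2 : z - η / 4 * Z ≤ S := by linarith
      have h5 : η / 4 * Z ≤ 1 * Z := mul_le_mul_of_nonneg_right hη4 hZ0
      have h3 : η / 4 * S ≤ η / 4 * (2 * Z) := by
        apply mul_le_mul_of_nonneg_left _ (by positivity)
        linarith
      linarith
    have h2 := mul_le_mul_of_nonneg_left h1 hRV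
    have h3 : R * V ^ (k + 1) * (z - η * Z) = R * V ^ (k + 1) * z - η * (R * V ^ (k + 1) * Z) := by ring
    have h4 : R * V ^ (k + 1) * ((1 - η / 4) * S) = R * V ^ (k + 1) * (1 - η / 4) * S := by ring
    linarith
  · have h1 : S + η / 4 * Z ≤ z + η * Z := by linarith
    have h2 := mul_le_mul_of_nonneg_left h1 hRV
    have h3 : R * V ^ (k + 1) * (z + η * Z) = R * V ^ (k + 1) * z + η * (R * V ^ (k + 1) * Z) := by ring
    linarith

end Pool.Agent.R463.EX
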