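import Pool.Agent.R463.PP7

set_option autoImplicit false

/-!
# The upper bound for the patterns, and the joint law
-/

namespace Pool.Agent.R463.PP

open Finset Filter Pool.Agent.H373R2.T7 Pool.Agent.W123.RP Pool.Agent.W123.RU Pool.Agent.TH464.PO

/-- the condition on the last gap -/
def La (G : ℕ → Prop) (q l β σ τ p : ℕ) : Prop :=
  sq G p (l + 1) % q = β ∧ σ < sq G p (l + 1) - sq G p l ∧ sq G p (l + 1) - sq G p l ≤ τ

lemma pat_succ (g : ℕ → Prop) (q l : ℕ) (B : Finset ℕ) (c0 : ℕ) (b s T b' s' T' : ℕ → ℕ)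
    (hb : ∀ j < l, b' j = b j) (hs : ∀ j < l, s' j = s j) (hT : ∀ j < l, T' j = T j) (p : ℕ) :
    Pat g q (l + 1) B c0 b' s' T' p ↔ Pat g q l B c0 b s T p ∧ La (GB g q B) q l (b' l) (s' l) (T' l) p := by
  unfold Pat Ev La
  constructor
  · rintro ⟨h1, h2, h3⟩
    refine ⟨⟨h1, h2, fun j hj => ?_⟩, h3 l (by omega)⟩
    rw [← hb j hj, ← hs j hj, ← hT j hj]
    exact h3 j (by omega)
  · rintro ⟨⟨h1, h2, h3⟩, h4⟩
    refine ⟨h1, h2, fun j hj => ?_⟩
    rcases Nat.lt_or_ge j l with h | h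
    · rw [hb j h, hs j h, hT j h]
      exact h3 j h
    · have : j = l := by omega
      rw [this]
      exact h4

open Classical in
lemma cnt_succ (Q : ℕ → ℕ → Prop) (y q l : ℕ) (B : Finset ℕ) (c0 : ℕ) (b s T b' s' T' : ℕ → ℕ)
    (hb : ∀ j < l, b' j = b j) (hs : ∀ j < l, s' j = s j) (hT : ∀ j < l, T' j = T j) (Z Y : ℕ) :
    cnt Q y q (l + 1) B c0 b' s' T' Z Y =
      ∑ p ∈ (Ioc Z (Z + Y)).filter (Pat (Sf Q y) q l B c0 b s T),
        (if La (GB (Sf Q y) q B) q l (b' l) (s' l) (T' l) p then 1 else 0) := by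
  unfold cnt
  rw [Finset.sum_ite, Finset.sum_const_zero, add_zero, Finset.sum_const, smul_eq_mul, mul_one,
    Finset.filter_filter]
  congr 1
  apply Finset.filter_congr
  intro p _
  exact pat_succ _ q l B c0 b s T b' s' T' hb hs hT p

lemma inner (B : Finset ℕ) (r β0 σ τ U x : ℕ) (h1 : σ ≤ τ) :
    (if r = β0 ∧ σ < x ∧ x ≤ τ then 1 else 0) + (if r = β0 ∧ 0 < x ∧ x ≤ σ then 1 else 0) +
      (if r = β0 ∧ τ < x ∧ x ≤ U then 1 else 0) +
      ∑ β ∈ B.erase β0, (if r = β ∧ 0 < x ∧ x ≤ U then 1 else 0) ≤ 1 := by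
  by_cases h : r = β0
  · have h2 : ∑ β ∈ B.erase β0, (if r = β ∧ 0 < x ∧ x ≤ U then 1 else 0) = 0 := by
      apply Finset.sum_eq_zero
      intro β hβ
      have := (Finset.mem_erase.1 hβ).1
      rw [if_neg]
      rintro ⟨e, _⟩
      exact this (e.symm.trans h)
    rw [h2]
    split_ifs <;> omega
  · have h2 : ∑ β ∈ B.erase β0, (if r = β ∧ 0 < x ∧ x ≤ U then 1 else 0) ≤ 1 := by
      calc ∑ β ∈ B.erase β0, (if r = β ∧ 0 < x ∧ x ≤ U then 1 else 0) ≤
          ∑ β ∈ B.erase β0, (if r = β then 1 else 0) := by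
            apply Finset.sum_le_sum
            intro β _
            split_ifs <;> omega
        _ ≤ 1 := by
            rw [Finset.sum_ite_eq]
            split_ifs <;> omega
    rw [if_neg (fun hh => h hh.1), if_neg (fun hh => h hh.1), if_neg (fun hh => h hh.1)]
    omega

open Classical in
lemma cnt_split (Q : ℕ → ℕ → Prop) (y q l : ℕ) (B : Finset ℕ) (c0 : ℕ) (b s T : ℕ → ℕ) (Z Y U : ℕ)
    (hsT : s l ≤ T l) :
    cnt Q y q (l + 1) B c0 b s T Z Y +
      cnt Q y q (l + 1) B c0 b (Function.update s l 0) (Function.update T l (s l)) Z Y +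
      cnt Q y q (l + 1) B c0 b (Function.update s l (T l)) (Function.update T l U) Z Y +
      ∑ β ∈ B.erase (b l),
        cnt Q y q (l + 1) B c0 (Function.update b l β) (Function.update s l 0) (Function.update T l U) Z Y ≤
      cnt Q y q l B c0 b s T Z Y := by
  have hup : ∀ (f : ℕ → ℕ) (x : ℕ), ∀ j < l, Function.update f l x j = f j := by
    intro f x j hj
    rw [Function.update_of_ne (by omega)]
  rw [cnt_succ Q y q l B c0 b s T b s T (fun _ _ => rfl) (fun _ _ => rfl) (fun _ _ => rfl),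
    cnt_succ Q y q l B c0 b s T b _ _ (fun _ _ => rfl) (hup s 0) (hup T (s l)),
    cnt_succ Q y q l B c0 b s T b _ _ (fun _ _ => rfl) (hup s (T l)) (hup T U),
    Finset.sum_congr rfl (fun β _ => cnt_succ Q y q l B c0 b s T _ _ _ (hup b β) (hup s 0) (hup T U) Z Y),
    Finset.sum_comm, ← Finset.sum_add_distrib, ← Finset.sum_add_distrib, ← Finset.sum_add_distrib]
  have h1 : cnt Q y q l B c0 b s T Z Y =
      ∑ p ∈ (Ioc Z (Z + Y)).filter (Pat (Sf Q y) q l B c0 b s T), 1 := by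
    unfold cnt
    rw [Finset.sum_const, smul_eq_mul, mul_one]
  rw [h1]
  apply Finset.sum_le_sum
  intro p _
  simp only [Function.update_self]
  unfold La
  have hin := inner B (sq (GB (Sf Q y) q B) p (l + 1) % q) (b l) (s l) (T l) U
    (sq (GB (Sf Q y) q B) p (l + 1) - sq (GB (Sf Q y) q B) p l) hsT
  refine le_trans (le_of_eq ?_) hin
  congr
  funext β
  congr

lemma gp_nonneg (V : ℝ) (q l : ℕ) (B : Finset ℕ) (s T : ℕ → ℕ) (hV : 0 ≤ V) (hsT : ∀ j < l, s j ≤ T j) :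
    0 ≤ gp V q l B s T := by
  unfold gp
  apply Finset.prod_nonneg
  intro j hj
  rw [sub_nonneg]
  apply Real.exp_le_exp.2
  apply neg_le_neg
  apply mul_le_mul_of_nonneg_left _ (by positivity)
  exact_mod_cast hsT j (mem_range.1 hj)

lemma gp_le_one (V : ℝ) (q l : ℕ) (B : Finset ℕ) (s T : ℕ → ℕ) (hV : 0 ≤ V) (hq : 1 ≤ q)
    (hB : 1 ≤ B.card) (hsT : ∀ j < l, s j ≤ T j) : gp V q l B s T ≤ 1 := by
  unfold gp
  exact prod_le_one' B.card V q l s T (by exact_mod_cast hB) hV (by exact_mod_cast hq) hsT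

lemma gp_succ (V : ℝ) (q l : ℕ) (B : Finset ℕ) (s T s' T' : ℕ → ℕ) (hs : ∀ j < l, s' j = s j)
    (hT : ∀ j < l, T' j = T j) : gp V q (l + 1) B s' T' = gp V q l B s T *
      (Real.exp (-(B.card * V / q * s' l)) - Real.exp (-(B.card * V / q * T' l))) := by
  unfold gp
  rw [Finset.prod_range_succ]
  congr 1
  apply Finset.prod_congr rfl
  intro j hj
  rw [hs j (mem_range.1 hj), hT j (mem_range.1 hj)]

lemma alg_up (A G R e0 e1 e2 ε' : ℝ) (l : ℕ) (N N1 N2 N3 N0 : ℝ) (hA : 0 ≤ A) (hG1 : G ≤ 1)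
    (hR : 1 ≤ R) (he2 : e2 ≤ ε') (he20 : 0 ≤ e2)
    (h0 : N0 ≤ A * (G / R ^ l + ε')) (h1 : A * (G * (1 - e0) / R ^ (l + 1) - ε') ≤ N1)
    (h2 : A * (G * (e1 - e2) / R ^ (l + 1) - ε') ≤ N2)
    (h3 : (R - 1) * (A * (G * (1 - e2) / R ^ (l + 1) - ε')) ≤ N3) (h : N + N1 + N2 + N3 ≤ N0) :
    N ≤ A * (G * (e0 - e1) / R ^ (l + 1) + (R + 3) * ε') := by
  have hR0 : 0 < R := by linarith
  have hRl : 1 ≤ R ^ l := one_le_pow₀ hR
  have h4 : G / R ^ l * e2 ≤ ε' := by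
    have e1 : G / R ^ l ≤ 1 := by
      rw [div_le_one (by positivity)]
      linarith
    calc G / R ^ l * e2 ≤ 1 * e2 := mul_le_mul_of_nonneg_right e1 he20
      _ ≤ ε' := by linarith
  have h5 : A * (G / R ^ l + ε') - A * (G * (1 - e0) / R ^ (l + 1) - ε') -
      A * (G * (e1 - e2) / R ^ (l + 1) - ε') - (R - 1) * (A * (G * (1 - e2) / R ^ (l + 1) - ε')) =
      A * (G * (e0 - e1) / R ^ (l + 1) + G / R ^ l * e2 + (R + 2) * ε') := by
    rw [pow_succ]
    field_simp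
    ring
  have h6 : A * (G * (e0 - e1) / R ^ (l + 1) + G / R ^ l * e2 + (R + 2) * ε') ≤
      A * (G * (e0 - e1) / R ^ (l + 1) + (R + 3) * ε') := by
    apply mul_le_mul_of_nonneg_left _ hA
    linarith
  linarith

open Classical in
/-- the count in the class `c0` -/
theorem count_class (c q : ℕ) (hc : 1 ≤ c) (hq : 1 ≤ q) (B : Finset ℕ) (hB : B ⊆ range q)
    (ε : ℝ) (hε : 0 < ε) : ∃ P : Par, ∀ (Q : ℕ → ℕ → Prop) (Y y : ℕ), Ok P c q Q Y y →
      ∀ Z c0 : ℕ, c0 ∈ B → ∀ b s T : ℕ → ℕ,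
        (cnt Q y q 0 B c0 b s T Z Y : ℝ) ≤ Y * Vq Q y / q * (1 + ε) := by
  have hqr : (1 : ℝ) ≤ q := by exact_mod_cast hq
  obtain ⟨K, x0, hK, hfund⟩ := sys_fund c hc (ε / 2) (by positivity)
  refine ⟨⟨K, x0 + 1, 0, 0, 1, ε / (4 * q), 1, by omega, one_pos, by positivity, one_pos⟩, ?_⟩
  intro Q Y y hok Z c0 hc0 b s T
  have hV0 : 0 < Vq Q y := Vq_pos Q hok.adm y
  have hV1 : Vq Q y ≤ 1 := Vq_le_one Q y
  have hcq := mem_range.1 (hB hc0)
  obtain ⟨s0, hs0⟩ : ∃ s0, s0 = off q Z c0 := ⟨_, rfl⟩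
  have hs1 := off_mem q Z c0 hcq
  have hs2 := off_mod q Z c0 hcq
  rw [← hs0] at hs1 hs2
  rw [mem_Icc] at hs1
  have hok1 : x0 ≤ y := by
    have := hok.hy
    simp only at this
    omega
  have h1 := hfund Y y hok1 hok.hY (Qr Q q (Z + s0)) (qr_per Q c hok.per q (Z + s0) hok.cop) (Y / q)
  have e1 : ∏ p ∈ pz y, (1 - (nuB (Qr Q q (Z + s0)) p : ℝ) / p) = Vq Q y :=
    qr_Vq Q c hok.per q (Z + s0) y hok.cop
  rw [e1] at h1
  have h2 := (abs_le.1 h1).2
  have h3 : cnt Q y q 0 B c0 b s T Z Y ≤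
      ((Icc 1 (Y / q)).filter (fun n : ℕ => ∀ p ∈ pz y, ¬ Qr Q q (Z + s0) p n)).card + 1 := by
    have h4 : (Ioc Z (Z + Y)).filter (Pat (Sf Q y) q 0 B c0 b s T) ⊆
        ((Icc 1 (Y / q)).filter (fun n : ℕ => ∀ p ∈ pz y, ¬ Qr Q q (Z + s0) p n)).image
          (fun v => q * v + (Z + s0)) ∪ {Z + s0} := by
      intro p hp
      rw [mem_filter, mem_Ioc] at hp
      obtain ⟨⟨p1, p2⟩, ⟨p3, p4⟩, p5, _⟩ := hp
      have hmod : (Z + s0) ≡ p [MOD q] := by
        show (Z + s0) % q = p % q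
        rw [hs2, p5]
      have hle : Z + s0 ≤ p := by
        by_contra hcon
        rw [not_le] at hcon
        have hd : q ∣ (Z + s0) - p := (Nat.modEq_iff_dvd' hcon.le).1 hmod.symm
        have := Nat.le_of_dvd (by omega) hd
        omega
      obtain ⟨v, hv⟩ := (Nat.modEq_iff_dvd' hle).1 hmod
      rw [mem_union, mem_singleton, mem_image]
      rcases Nat.eq_zero_or_pos v with hv0 | hv0
      · right
        rw [hv0, mul_zero] at hv
        omega
      · left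
        refine ⟨v, ?_, by omega⟩
        rw [mem_filter, mem_Icc]
        refine ⟨⟨hv0, ?_⟩, ?_⟩
        · rw [Nat.le_div_iff_mul_le (by omega), mul_comm]
          omega
        · intro r hr
          unfold Qr
          rw [show q * v + (Z + s0) = p by omega]
          exact p4 r hr
    refine (card_le_card h4).trans ((card_union_le _ _).trans ?_)
    rw [card_singleton]
    exact Nat.add_le_add_right card_image_le 1
  have h3' : (cnt Q y q 0 B c0 b s T Z Y : ℝ) ≤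
      (((Icc 1 (Y / q)).filter (fun n : ℕ => ∀ p ∈ pz y, ¬ Qr Q q (Z + s0) p n)).card : ℝ) + 1 := by
    exact_mod_cast h3
  have h5 : (((Y / q : ℕ) : ℕ) : ℝ) ≤ Y / q := Nat.cast_div_le
  have h6 := hok.hsq
  have h7 := hok.hbd
  simp only at h6 h7
  have h8 : 1 ≤ 1 / Vq Q y := by
    rw [le_div_iff₀ hV0]
    linarith
  have h9 : ε / (4 * q) * (Y * Vq Q y) = ε / 4 * (Y * Vq Q y / q) := by
    field_simp
  rw [h9] at h6 h7
  have h10 : (((Y / q : ℕ) : ℕ) : ℝ) * Vq Q y ≤ Y * Vq Q y / q := by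
    calc (((Y / q : ℕ) : ℕ) : ℝ) * Vq Q y ≤ Y / q * Vq Q y := mul_le_mul_of_nonneg_right h5 hV0.le
      _ = _ := by ring
  have h11 : ε / 2 * ((((Y / q : ℕ) : ℕ) : ℝ) * Vq Q y) ≤ ε / 2 * (Y * Vq Q y / q) :=
    mul_le_mul_of_nonneg_left h10 (by positivity)
  have h12 : (((Icc 1 (Y / q)).filter (fun n : ℕ => ∀ p ∈ pz y, ¬ Qr Q q (Z + s0) p n)).card : ℝ) ≤
      (((Y / q : ℕ) : ℕ) : ℝ) * Vq Q y + ε / 2 * ((((Y / q : ℕ) : ℕ) : ℝ) * Vq Q y) + √(Y : ℝ) := by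
    have : (((Icc 1 (Y / q)).filter (fun n : ℕ => ∀ p ∈ pz y, ¬ Qr Q q (Z + s0) p n)).card : ℝ) -
      (((Y / q : ℕ) : ℕ) : ℝ) * Vq Q y ≤ ε / 2 * ((((Y / q : ℕ) : ℕ) : ℝ) * Vq Q y) + √(Y : ℝ) := by
      convert h2
    linarith
  linarith

open Classical in
/-- **The upper bound for the patterns.** -/
theorem runs_up (c q l : ℕ) (hc : 1 ≤ c) (hq : 1 ≤ q) (B : Finset ℕ) (hB : B ⊆ range q) (hB0 : 1 ≤ B.card) :
    ∀ ε : ℝ, 0 < ε → ε ≤ 1 → ∃ P : Par, ∀ (Q : ℕ → ℕ → Prop) (Y y : ℕ), Ok P c q Q Y y →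
      ∀ Z c0 : ℕ, c0 ∈ B → ∀ b s T : ℕ → ℕ, (∀ j < l, b j ∈ B) → (∀ j < l, s j ≤ T j) →
        cnt Q y q l B c0 b s T Z Y ≤ Y * Vq Q y / q * (gp (Vq Q y) q l B s T / B.card ^ l + ε) := by
  have hqr : (1 : ℝ) ≤ q := by exact_mod_cast hq
  have hR1 : (1 : ℝ) ≤ B.card := by exact_mod_cast hB0
  induction l with
  | zero =>
    intro ε hε _
    obtain ⟨P, hP⟩ := count_class c q hc hq B hB ε hε
    refine ⟨P, ?_⟩
    intro Q Y y hok Z c0 hc0 b s T _ _
    have h1 := hP Q Y y hok Z c0 hc0 b s T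
    have h2 : gp (Vq Q y) q 0 B s T / B.card ^ 0 = 1 := by
      unfold gp
      simp
    rw [h2]
    exact h1
  | succ l ih =>
    intro ε hε hε1
    obtain ⟨ε', hε'⟩ : ∃ ε' : ℝ, ε' = ε / (B.card + 3) := ⟨_, rfl⟩
    have hε'0 : 0 < ε' := by rw [hε']; positivity
    have hε'1 : ε' ≤ 1 := by
      rw [hε', div_le_one (by positivity)]
      linarith
    have hε'2 : (B.card + 3) * ε' = ε := by
      rw [hε']
      field_simp
    obtain ⟨X2, hX2⟩ : ∃ X2 : ℕ, Real.exp (-(X2 : ℝ)) ≤ ε' := by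
      have h1 : Tendsto (fun n : ℕ => Real.exp (-(n : ℝ))) atTop (nhds 0) :=
        Real.tendsto_exp_neg_atTop_nhds_zero.comp tendsto_natCast_atTop_atTop
      obtain ⟨n, hn⟩ := (h1.eventually (gt_mem_nhds hε'0)).exists
      exact ⟨n, hn.le⟩
    obtain ⟨P1, hP1⟩ := ih ε' hε'0 hε'1
    obtain ⟨P2, hP2⟩ := runs_low c q (l + 1) hc hq B hB hB0 ε' hε'0 hε'1
    obtain ⟨P, _, hP⟩ := Par.combine P1 P2
    refine ⟨P, ?_⟩
    intro Q Y y hok Z c0 hc0 b s T hb hsT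
    obtain ⟨hok1, hok2⟩ := hP c q Q Y y hok
    obtain ⟨V, hV⟩ : ∃ V, V = Vq Q y := ⟨_, rfl⟩
    have hV0 : 0 < V := by rw [hV]; exact Vq_pos Q hok.adm y
    have hup : ∀ (f : ℕ → ℕ) (x : ℕ), ∀ j < l, Function.update f l x j = f j := by
      intro f x j hj
      rw [Function.update_of_ne (by omega)]
    have hsTl : s l ≤ T l := hsT l (by omega)
    have hsT' : ∀ j < l, s j ≤ T j := fun j hj => hsT j (by omega)
    obtain ⟨ρ, hρ⟩ : ∃ ρ : ℝ, ρ = B.card * V / q := ⟨_, rfl⟩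
    have hρ0 : 0 < ρ := by rw [hρ]; positivity
    obtain ⟨U, hU⟩ : ∃ U : ℕ, U = max (T l) ⌈X2 / ρ⌉₊ := ⟨_, rfl⟩
    have hTU : T l ≤ U := by rw [hU]; exact le_max_left _ _
    have heU : Real.exp (-(ρ * U)) ≤ ε' := by
      refine le_trans (Real.exp_le_exp.2 (neg_le_neg ?_)) hX2
      have h1 : (X2 : ℝ) / ρ ≤ U := (Nat.le_ceil _).trans (by
        rw [hU]
        exact_mod_cast le_max_right _ _)
      rw [div_le_iff₀ hρ0] at h1
      linarith
    have hb' : ∀ β ∈ B, ∀ j < l + 1, Function.update b l β j ∈ B := by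
      intro β hβ j hj
      rcases Nat.lt_or_ge j l with h | h
      · rw [hup b β j h]
        exact hb j (by omega)
      · have : j = l := by omega
        rw [this, Function.update_self]
        exact hβ
    have hst' : ∀ σ τ : ℕ, σ ≤ τ → ∀ j < l + 1, Function.update s l σ j ≤ Function.update T l τ j := by
      intro σ τ hστ j hj
      rcases Nat.lt_or_ge j l with h | h
      · rw [hup s σ j h, hup T τ j h]
        exact hsT j (by omega)
      · have : j = l := by omega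
        rw [this, Function.update_self, Function.update_self]
        exact hστ
    obtain ⟨G, hG⟩ : ∃ G : ℝ, G = gp V q l B s T := ⟨_, rfl⟩
    have hG0 : 0 ≤ G := by rw [hG]; exact gp_nonneg V q l B s T hV0.le hsT'
    have hG1 : G ≤ 1 := by rw [hG]; exact gp_le_one V q l B s T hV0.le hq hB0 hsT'
    have hgp : ∀ σ τ : ℕ, gp V q (l + 1) B (Function.update s l σ) (Function.update T l τ) =
        G * (Real.exp (-(ρ * σ)) - Real.exp (-(ρ * τ))) := by
      intro σ τ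
      rw [gp_succ V q l B s T _ _ (hup s σ) (hup T τ), ← hG, ← hρ, Function.update_self, Function.update_self]
    have hgp0 : gp V q (l + 1) B s T = G * (Real.exp (-(ρ * s l)) - Real.exp (-(ρ * T l))) := by
      rw [gp_succ V q l B s T _ _ (fun _ _ => rfl) (fun _ _ => rfl), ← hG, ← hρ]
    have n0 := hP1 Q Y y hok1 Z c0 hc0 b s T (fun j hj => hb j (by omega)) hsT'
    have n1 := hP2 Q Y y hok2 Z c0 hc0 b _ _ hb (hst' 0 (s l) (Nat.zero_le _))
    have n2 := hP2 Q Y y hok2 Z c0 hc0 b _ _ hb (hst' (T l) U hTU)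
    have n3 : ∀ β ∈ B.erase (b l), _ := fun β hβ =>
      hP2 Q Y y hok2 Z c0 hc0 _ _ _ (hb' β (Finset.mem_of_mem_erase hβ)) (hst' 0 U (Nat.zero_le _))
    rw [← hV] at n0 n1 n2 ⊢
    rw [hgp] at n1 n2
    rw [← hG] at n0
    rw [hgp0]
    have hsplit : (cnt Q y q (l + 1) B c0 b s T Z Y : ℝ) +
        cnt Q y q (l + 1) B c0 b (Function.update s l 0) (Function.update T l (s l)) Z Y +
        cnt Q y q (l + 1) B c0 b (Function.update s l (T l)) (Function.update T l U) Z Y +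
        ((∑ β ∈ B.erase (b l), cnt Q y q (l + 1) B c0 (Function.update b l β) (Function.update s l 0)
          (Function.update T l U) Z Y : ℕ) : ℝ) ≤ (cnt Q y q l B c0 b s T Z Y : ℝ) := by
      exact_mod_cast cnt_split Q y q l B c0 b s T Z Y U hsTl
    have hexp0 : Real.exp (-(ρ * ((0 : ℕ) : ℝ))) = 1 := by simp
    rw [hexp0] at n1
    have n3' : ((B.card : ℝ) - 1) * (Y * V / q * (G * (1 - Real.exp (-(ρ * U))) / B.card ^ (l + 1) - ε')) ≤
        ((∑ β ∈ B.erase (b l), cnt Q y q (l + 1) B c0 (Function.update b l β) (Function.update s l 0)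
          (Function.update T l U) Z Y : ℕ) : ℝ) := by
      have h1 : ((B.card : ℝ) - 1) = ((B.erase (b l)).card : ℝ) := by
        rw [Finset.card_erase_of_mem (hb l (by omega)), Nat.cast_sub hB0, Nat.cast_one]
      rw [h1, ← nsmul_eq_mul, ← Finset.sum_const, Nat.cast_sum]
      apply Finset.sum_le_sum
      intro β hβ
      have h2 := n3 β hβ
      rw [← hV, hgp, hexp0] at h2
      exact h2
    have := alg_up (Y * V / q) G B.card (Real.exp (-(ρ * s l))) (Real.exp (-(ρ * T l)))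
      (Real.exp (-(ρ * U))) ε' l (cnt Q y q (l + 1) B c0 b s T Z Y) _ _ _ _ (by positivity) hG1 hR1 heU
      (Real.exp_pos _).le n0 n1 n2 n3' hsplit
    rw [hε'2] at this
    exact this

open Classical in
/-- **The joint law** of `l` consecutive gaps and residues. -/
theorem runs (c q l : ℕ) (hc : 1 ≤ c) (hq : 1 ≤ q) (B : Finset ℕ) (hB : B ⊆ range q) (hB0 : 1 ≤ B.card)
    (ε : ℝ) (hε : 0 < ε) : ∃ P : Par, ∀ (Q : ℕ → ℕ → Prop) (Y y : ℕ), Ok P c q Q Y y →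
      ∀ Z c0 : ℕ, c0 ∈ B → ∀ b s T : ℕ → ℕ, (∀ j < l, b j ∈ B) → (∀ j < l, s j ≤ T j) →
        |(cnt Q y q l B c0 b s T Z Y : ℝ) - Y * Vq Q y / q * (gp (Vq Q y) q l B s T / B.card ^ l)| ≤
          ε * (Y * Vq Q y / q) := by
  have h0 : 0 < min ε 1 := by positivity
  obtain ⟨P1, hP1⟩ := runs_low c q l hc hq B hB hB0 (min ε 1) h0 (min_le_right _ _)
  obtain ⟨P2, hP2⟩ := runs_up c q l hc hq B hB hB0 (min ε 1) h0 (min_le_right _ _)
  obtain ⟨P, _, hP⟩ := Par.combine P1 P2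
  refine ⟨P, ?_⟩
  intro Q Y y hok Z c0 hc0 b s T hb hsT
  obtain ⟨hok1, hok2⟩ := hP c q Q Y y hok
  have h1 := hP1 Q Y y hok1 Z c0 hc0 b s T hb hsT
  have h2 := hP2 Q Y y hok2 Z c0 hc0 b s T hb hsT
  have hV0 : 0 < Vq Q y := Vq_pos Q hok.adm y
  have h3 : min ε 1 * (Y * Vq Q y / q) ≤ ε * (Y * Vq Q y / q) :=
    mul_le_mul_of_nonneg_right (min_le_left _ _) (by positivity)
  rw [mul_sub] at h1
  rw [mul_add] at h2
  rw [abs_le]
  constructor <;> linarith

end Pool.Agent.R463.PP
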