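import Pool.Agent.R463.EX2
import Pool.Agent.R463.PP8

set_option autoImplicit false

/-!
# Relative binomial moments and the relative law
-/

namespace Pool.Agent.R463.EX

open Finset Filter Pool.Agent.H373R2.T7 Pool.Agent.W123.RP Pool.Agent.W123.RU Pool.Agent.TH464.PO
open Pool.Agent.R463.PP

open Classical in
/-- the integers `1 ≤ n ≤ Y` for which all `n + h`, `h ∈ H`, are sifted -/
noncomputable def OmH (Q : ℕ → ℕ → Prop) (H : Finset ℕ) (y Y : ℕ) : Finset ℕ :=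
  (Icc 1 Y).filter (fun n => Sf (QH Q H) y n)

open Classical in
/-- the number of the shifts `h ∈ W` for which `n + h` is sifted -/
noncomputable def NX (Q : ℕ → ℕ → Prop) (y : ℕ) (W : Finset ℕ) (n : ℕ) : ℕ :=
  (W.filter (fun h => Sf Q y (n + h))).card

open Classical in
lemma OmH_union (Q : ℕ → ℕ → Prop) (H S : Finset ℕ) (y Y : ℕ) :
    OmH Q (H ∪ S) y Y = (OmH Q H y Y).filter (fun n => ∀ h ∈ S, Sf Q y (n + h)) := by
  unfold OmH
  rw [Finset.filter_filter]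
  apply Finset.filter_congr
  intro m _
  rw [sf_QH, sf_QH]
  constructor
  · intro h
    exact ⟨fun x hx => h x (mem_union_left _ hx), fun x hx => h x (mem_union_right _ hx)⟩
  · rintro ⟨h2, h3⟩ x hx
    rcases mem_union.1 hx with h | h
    · exact h2 x h
    · exact h3 x h

open Classical in
lemma moment_eqR (Q : ℕ → ℕ → Prop) (H W : Finset ℕ) (y k Y : ℕ) :
    ∑ n ∈ OmH Q H y Y, ((NX Q y W n).choose k : ℝ) =
      ∑ S ∈ powersetCard k W, ((OmH Q (H ∪ S) y Y).card : ℝ) := by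
  have h1 : ∀ S ∈ powersetCard k W, ((OmH Q (H ∪ S) y Y).card : ℝ) =
      ∑ n ∈ OmH Q H y Y, if (∀ h ∈ S, Sf Q y (n + h)) then (1 : ℝ) else 0 := by
    intro S _
    rw [OmH_union, Finset.sum_ite, Finset.sum_const_zero, add_zero, Finset.sum_const, nsmul_eq_mul,
      mul_one]
  rw [Finset.sum_congr rfl h1, Finset.sum_comm]
  apply Finset.sum_congr rfl
  intro m _
  rw [Finset.sum_ite, Finset.sum_const_zero, add_zero, Finset.sum_const, nsmul_eq_mul, mul_one]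
  unfold NX
  rw [← Finset.card_powersetCard]
  congr 2
  ext S
  rw [mem_filter, mem_powersetCard, mem_powersetCard]
  constructor
  · rintro ⟨a1, a2⟩
    exact ⟨⟨fun h hh => (mem_filter.1 (a1 hh)).1, a2⟩, fun h hh => (mem_filter.1 (a1 hh)).2⟩
  · rintro ⟨⟨a1, a2⟩, a3⟩
    exact ⟨fun h hh => mem_filter.2 ⟨a1 hh, a3 h hh⟩, a2⟩

open Classical in
/-- the zeroth moment -/
theorem countR (c a : ℕ) (hc : 1 ≤ c) (ha : 1 ≤ a) (η : ℝ) (hη : 0 < η) :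
    ∃ K0 y0 : ℕ, ∀ Y y : ℕ, y0 ≤ y → y ^ K0 ≤ Y → ∀ Q : ℕ → ℕ → Prop, PerB Q c →
      ∀ H : Finset ℕ, H.card = a →
      |((OmH Q H y Y).card : ℝ) - Y * Vq (QH Q H) y| ≤ η * (Y * Vq (QH Q H) y) + √(Y : ℝ) := by
  obtain ⟨K0, x0, hK0, hfund⟩ := sys_fund (a * c) (Nat.mul_pos ha hc) η hη
  refine ⟨K0, x0, ?_⟩
  intro Y y hy hyY Q hQ H hH
  have hper := perB_QH Q c hQ H
  rw [hH] at hper
  have h3 := hfund Y y hy hyY (QH Q H) hper Y
  unfold OmH Sf Vq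
  convert h3

open Classical in
/-- **Relative binomial moments.** -/
theorem momentR (c a k : ℕ) (hc : 1 ≤ c) (η : ℝ) (hη : 0 < η) (hη1 : η ≤ 1) (C : ℕ → ℝ)
    (hC : ∀ w, 0 ≤ C w) :
    ∃ (K0 y0 T0 : ℕ) (η' : ℝ), 0 < η' ∧ ∀ Y y T : ℕ, y0 ≤ y → y ^ K0 ≤ Y → T0 ≤ T →
      ∀ Q : ℕ → ℕ → Prop, PerB Q c → (∀ p : ℕ, p.Prime → nuB Q p < p) →
      (∀ t ∈ Icc 1 T, ((((pz y).filter (fun p : ℕ => T < p ∧ CoG Q p t)).card : ℕ) : ℝ) ≤ η' * T) →
      ∀ H : Finset ℕ, H.card = a → H ⊆ range (T + 1) →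
      ∀ W : Finset ℕ, W ⊆ Icc 1 T → Disjoint H W →
      (∀ w m : ℕ, |((W.filter (fun h => Sf Q w (m + h))).card : ℝ) - W.card * Vq Q w| ≤ C w) →
      |∑ n ∈ OmH Q H y Y, ((NX Q y W n).choose (k + 1) : ℝ) -
        Y * Vq (QH Q H) y * ((W.card * Vq Q y) ^ (k + 1) / (k + 1).factorial)| ≤
        η * (Y * Vq (QH Q H) y * ((T * Vq Q y) ^ (k + 1) / (k + 1).factorial)) +
          T ^ (k + 1) * √(Y : ℝ) := by
  obtain ⟨K0, x0, hK0, hfund⟩ := sys_fund ((a + (k + 1)) * c) (Nat.mul_pos (by omega) hc) (η / 4)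
    (by positivity)
  obtain ⟨w, η', T0, hη', hsing⟩ := sing_rel c a k (η / 4) (by positivity) (by linarith) C hC
  refine ⟨K0, max x0 w, T0, η', hη', ?_⟩
  intro Y y T hy hyY hT Q hQ hadm hlarge H hHa hHT W hW hdis hwin
  have s0 := hsing T hT Q hQ hadm y ((le_max_right _ _).trans hy) hlarge H hHa hHT W hW hdis hwin
  rw [moment_eqR]
  obtain ⟨G, hG⟩ : ∃ G, G = Vq (QH Q H) y := ⟨_, rfl⟩
  have hG0 : 0 ≤ G := by rw [hG]; exact Vq_nonneg _ y
  rw [← hG] at s0 ⊢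
  obtain ⟨S, hS⟩ : ∃ S, S = ∑ S ∈ powersetCard (k + 1) W, Vq (QH Q (H ∪ S)) y := ⟨_, rfl⟩
  obtain ⟨Z, hZ⟩ : ∃ Z : ℝ, Z = (T * Vq Q y) ^ (k + 1) / (k + 1).factorial := ⟨_, rfl⟩
  obtain ⟨z, hz⟩ : ∃ z : ℝ, z = (W.card * Vq Q y) ^ (k + 1) / (k + 1).factorial := ⟨_, rfl⟩
  rw [← hS, ← hZ, ← hz] at s0
  rw [← hZ, ← hz]
  have hV0 := Vq_nonneg Q y
  have hZ0 : 0 ≤ Z := by rw [hZ]; positivity
  have hY0 : (0 : ℝ) ≤ Y := Nat.cast_nonneg Y
  have hWT : (W.card : ℝ) ≤ T := by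
    have := card_le_card hW
    rw [Nat.card_Icc, Nat.add_sub_cancel] at this
    exact_mod_cast this
  have hzZ : z ≤ Z := by
    rw [hz, hZ]
    apply div_le_div_of_nonneg_right _ (by positivity)
    apply pow_le_pow_left₀ (by positivity)
    exact mul_le_mul_of_nonneg_right hWT hV0
  have h1 : |∑ S ∈ powersetCard (k + 1) W, ((OmH Q (H ∪ S) y Y).card : ℝ) - Y * S| ≤
      η / 4 * (Y * S) + T ^ (k + 1) * √(Y : ℝ) := by
    have e : Y * S = ∑ S ∈ powersetCard (k + 1) W, (Y : ℝ) * Vq (QH Q (H ∪ S)) y := by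
      rw [hS, Finset.mul_sum]
    rw [e, ← Finset.sum_sub_distrib]
    refine (Finset.abs_sum_le_sum_abs _ _).trans ?_
    have h2 : ∀ S ∈ powersetCard (k + 1) W,
        |((OmH Q (H ∪ S) y Y).card : ℝ) - Y * Vq (QH Q (H ∪ S)) y| ≤
        η / 4 * (Y * Vq (QH Q (H ∪ S)) y) + √(Y : ℝ) := by
      intro S hS
      rw [mem_powersetCard] at hS
      have hdS : Disjoint H S := Finset.disjoint_of_subset_right hS.1 hdis
      have hper := perB_QH Q c hQ (H ∪ S)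
      rw [card_union_of_disjoint hdS, hHa, hS.2] at hper
      have h3 := hfund Y y ((le_max_left _ _).trans hy) hyY (QH Q (H ∪ S)) hper Y
      unfold OmH Sf Vq
      convert h3
    refine (Finset.sum_le_sum h2).trans ?_
    rw [Finset.sum_add_distrib, ← Finset.mul_sum, Finset.sum_const, nsmul_eq_mul]
    have h3 : ((powersetCard (k + 1) W).card : ℝ) ≤ (T : ℝ) ^ (k + 1) := by
      rw [card_powersetCard]
      calc ((W.card.choose (k + 1) : ℕ) : ℝ) ≤ ((W.card ^ (k + 1) : ℕ) : ℝ) := by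
            exact_mod_cast Nat.choose_le_pow _ (k + 1)
        _ = (W.card : ℝ) ^ (k + 1) := by push_cast; rfl
        _ ≤ _ := pow_le_pow_left₀ (Nat.cast_nonneg _) hWT _
    have h4 := mul_le_mul_of_nonneg_right h3 (Real.sqrt_nonneg (Y : ℝ))
    linarith
  have h5 : |Y * S - Y * (G * z)| ≤ η / 4 * (Y * (G * Z)) := by
    rw [← mul_sub, abs_mul, abs_of_nonneg hY0]
    calc (Y : ℝ) * |S - G * z| ≤ Y * (η / 4 * (G * Z)) := mul_le_mul_of_nonneg_left s0 hY0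
      _ = _ := by ring
  have h8 : 0 ≤ Y * (G * Z) := by positivity
  have h6 : Y * S ≤ 2 * (Y * (G * Z)) := by
    have h7 := (abs_le.1 h5).2
    have h9 : Y * (G * z) ≤ Y * (G * Z) := by gcongr
    nlinarith
  have h9 := abs_sub_le (∑ S ∈ powersetCard (k + 1) W, ((OmH Q (H ∪ S) y Y).card : ℝ)) (Y * S)
    (Y * (G * z))
  have h10 : η / 4 * (Y * S) ≤ η / 4 * (2 * (Y * (G * Z))) :=
    mul_le_mul_of_nonneg_left h6 (by positivity)
  have h11 : 0 ≤ η * (Y * (G * Z)) := by positivity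
  have e1 : (Y : ℝ) * G * z = Y * (G * z) := by ring
  have e2 : (Y : ℝ) * G * Z = Y * (G * Z) := by ring
  rw [e1, e2]
  calc _ ≤ _ := h9
    _ ≤ η / 4 * (2 * (Y * (G * Z))) + T ^ (k + 1) * √(Y : ℝ) + η / 4 * (Y * (G * Z)) := by linarith
    _ ≤ _ := by linarith

open Classical in
/-- **The relative Poisson law.** -/
theorem lawR (c a : ℕ) (hc : 1 ≤ c) (ha : 1 ≤ a) (x0 ε : ℝ) (hx0 : 0 ≤ x0) (hε : 0 < ε) (hε1 : ε ≤ 1)
    (C : ℕ → ℝ) (hC : ∀ w, 0 ≤ C w) :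
    ∃ (K0 y0 T0 R0 : ℕ) (η' : ℝ), 0 < η' ∧ ∀ Y y T : ℕ, y0 ≤ y → y ^ K0 ≤ Y → T0 ≤ T →
      ∀ Q : ℕ → ℕ → Prop, PerB Q c → (∀ p : ℕ, p.Prime → nuB Q p < p) → T * Vq Q y ≤ x0 →
      (∀ t ∈ Icc 1 T, ((((pz y).filter (fun p : ℕ => T < p ∧ CoG Q p t)).card : ℕ) : ℝ) ≤ η' * T) →
      ∀ H : Finset ℕ, H.card = a → H ⊆ range (T + 1) →
      (T : ℝ) ^ R0 * √(Y : ℝ) ≤ η' * (Y * Vq (QH Q H) y) →
      ∀ W : Finset ℕ, W ⊆ Icc 1 T → Disjoint H W →
      (∀ w m : ℕ, |((W.filter (fun h => Sf Q w (m + h))).card : ℝ) - W.card * Vq Q w| ≤ C w) →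
      |((OmH Q H y Y).card : ℝ) - Y * Vq (QH Q H) y| ≤ ε * (Y * Vq (QH Q H) y) ∧
      ∀ A : Finset ℕ, |(((OmH Q H y Y).filter (fun n => NX Q y W n ∈ A)).card : ℝ) -
        (OmH Q H y Y).card * ∑ j ∈ A, Real.exp (-(W.card * Vq Q y)) * (W.card * Vq Q y) ^ j / j.factorial| ≤
        ε * (OmH Q H y Y).card := by
  obtain ⟨R, η, hη, htv⟩ := law_tv x0 ε hx0 hε
  obtain ⟨X1, hX1⟩ : ∃ X1 : ℝ, X1 = (1 + x0) ^ R := ⟨_, rfl⟩
  have hX1pos : 1 ≤ X1 := by rw [hX1]; exact one_le_pow₀ (by linarith)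
  obtain ⟨η1, hη1⟩ : ∃ η1 : ℝ, η1 = min (ε / 4) (η / (8 * X1)) := ⟨_, rfl⟩
  have hη10 : 0 < η1 := by rw [hη1]; positivity
  have hη11 : η1 ≤ ε / 4 := by rw [hη1]; exact min_le_left _ _
  have hη12 : 8 * (η1 * X1) ≤ η := by
    have : η1 ≤ η / (8 * X1) := by rw [hη1]; exact min_le_right _ _
    rw [le_div_iff₀ (by positivity)] at this
    linarith
  obtain ⟨K00, y00, hcount⟩ := countR c a hc ha η1 hη10
  choose K0 y0 T0 η' hη' hmom using fun k => momentR c a k hc η1 hη10 (by linarith) C hC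
  obtain ⟨η0, hη00, hη0⟩ := exists_lower η' hη' R
  refine ⟨(∑ k ∈ range R, K0 k) + K00, (∑ k ∈ range R, y0 k) + y00 + 1,
    (∑ k ∈ range R, T0 k) + 1, R, min η0 η1, lt_min hη00 hη10, ?_⟩
  intro Y y T hy hyY hT Q hQ hadm hx' hlarge H hHa hHT hTR W hW hdis hwin
  have hV0 := Vq_nonneg Q y
  have hy1' : 1 ≤ y := by omega
  have hT1 : 1 ≤ T := by omega
  have hWT : (W.card : ℝ) ≤ T := by
    have := card_le_card hW
    rw [Nat.card_Icc, Nat.add_sub_cancel] at this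
    exact_mod_cast this
  obtain ⟨x, hxdef⟩ : ∃ x, x = W.card * Vq Q y := ⟨_, rfl⟩
  have hx : x ≤ x0 := by
    rw [hxdef]
    exact (mul_le_mul_of_nonneg_right hWT hV0).trans hx'
  have hx00 : 0 ≤ x := by
    rw [hxdef]
    exact mul_nonneg (Nat.cast_nonneg _) hV0
  obtain ⟨M, hM⟩ : ∃ M : ℝ, M = Y * Vq (QH Q H) y := ⟨_, rfl⟩
  have hM0 : 0 ≤ M := by
    rw [hM]
    exact mul_nonneg (Nat.cast_nonneg _) (Vq_nonneg _ y)
  obtain ⟨Nn, hN⟩ : ∃ Nn : ℝ, Nn = (OmH Q H y Y).card := ⟨_, rfl⟩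
  have hN0 : 0 ≤ Nn := by rw [hN]; exact Nat.cast_nonneg _
  rw [← hM] at hTR ⊢
  have hTR' : ∀ k ≤ R, (T : ℝ) ^ k * √(Y : ℝ) ≤ η1 * M := by
    intro k hk
    have h1 : (T : ℝ) ^ k ≤ (T : ℝ) ^ R := pow_le_pow_right₀ (by exact_mod_cast hT1) hk
    calc (T : ℝ) ^ k * √(Y : ℝ) ≤ (T : ℝ) ^ R * √(Y : ℝ) :=
          mul_le_mul_of_nonneg_right h1 (Real.sqrt_nonneg _)
      _ ≤ min η0 η1 * M := hTR
      _ ≤ η1 * M := mul_le_mul_of_nonneg_right (min_le_right _ _) hM0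
  -- the zeroth moment
  have hzero : |Nn - M| ≤ 2 * (η1 * M) := by
    have h1 := hcount Y y (by omega) ((Nat.pow_le_pow_right hy1' (by omega)).trans hyY) Q hQ H hHa
    rw [← hN, ← hM] at h1
    have h2 := hTR' 0 (Nat.zero_le _)
    rw [pow_zero, one_mul] at h2
    linarith
  have hfirst : |Nn - M| ≤ ε * M := by
    refine hzero.trans ?_
    nlinarith
  rw [← hN]
  refine ⟨hfirst, ?_⟩
  have hMN : M ≤ 2 * Nn := by
    have h1 := (abs_le.1 hzero).1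
    nlinarith
  have hmk : ∀ k ≤ R, ∀ z : ℝ, 0 ≤ z → z ≤ x0 → z ^ k / (k.factorial : ℝ) ≤ X1 := by
    intro k hk z hz0 hz1
    have hf1 : (1 : ℝ) ≤ k.factorial := by exact_mod_cast Nat.factorial_pos k
    calc z ^ k / (k.factorial : ℝ) ≤ z ^ k := div_le_self (by positivity) hf1
      _ ≤ (1 + x0) ^ k := pow_le_pow_left₀ hz0 (by linarith) _
      _ ≤ (1 + x0) ^ R := pow_le_pow_right₀ (by linarith) hk
      _ = X1 := hX1.symm
  have hmain : ∀ k ≤ R, |∑ n ∈ OmH Q H y Y, ((NX Q y W n).choose k : ℝ) - M * (x ^ k / k.factorial)| ≤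
      2 * (η1 * (M * X1)) := by
    intro k hk
    rcases k with _ | k
    · have e0 : ∑ n ∈ OmH Q H y Y, ((NX Q y W n).choose 0 : ℝ) = Nn := by
        rw [hN]
        simp
      rw [e0]
      simp only [pow_zero, Nat.factorial_zero, Nat.cast_one, div_one, mul_one]
      refine hzero.trans ?_
      have : η1 * (M * 1) ≤ η1 * (M * X1) := by gcongr
      linarith
    · have hkR : k ∈ range R := mem_range.2 (by omega)
      have hKk : K0 k ≤ ∑ k ∈ range R, K0 k := Finset.single_le_sum (fun _ _ => Nat.zero_le _) hkR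
      have hyk : y0 k ≤ ∑ k ∈ range R, y0 k := Finset.single_le_sum (fun _ _ => Nat.zero_le _) hkR
      have hTk : T0 k ≤ ∑ k ∈ range R, T0 k := Finset.single_le_sum (fun _ _ => Nat.zero_le _) hkR
      have h1 := hmom k Y y T (by omega)
        ((Nat.pow_le_pow_right hy1' (by omega)).trans hyY) (by omega) Q hQ hadm (fun t ht =>
          (hlarge t ht).trans (mul_le_mul_of_nonneg_right ((min_le_left _ _).trans (hη0 k (by omega)))
            (Nat.cast_nonneg _))) H hHa hHT W hW hdis hwin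
      rw [← hxdef, ← hM] at h1
      refine h1.trans ?_
      have h2 := hmk (k + 1) hk (T * Vq Q y) (by positivity) hx'
      have h3 := hTR' (k + 1) hk
      have h4 : η1 * (M * ((T * Vq Q y) ^ (k + 1) / ((k + 1).factorial : ℝ))) ≤ η1 * (M * X1) := by gcongr
      have h5 : η1 * (M * 1) ≤ η1 * (M * X1) := by gcongr
      linarith
  rw [← hxdef]
  intro A
  have hfin := htv (OmH Q H y Y) (NX Q y W) x hx00 hx (by
    intro k hk
    rw [← hN]
    have h1 := hmain k hk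
    have h2 := hmk k hk x hx00 hx
    obtain ⟨mk, hmkdef⟩ : ∃ mk : ℝ, mk = x ^ k / (k.factorial : ℝ) := ⟨_, rfl⟩
    obtain ⟨S, hS⟩ : ∃ S : ℝ, S = ∑ n ∈ OmH Q H y Y, ((NX Q y W n).choose k : ℝ) := ⟨_, rfl⟩
    rw [← hmkdef] at h1 h2 ⊢
    rw [← hS] at h1 ⊢
    have hmk0 : 0 ≤ mk := by rw [hmkdef]; positivity
    have e : S - Nn * mk = (S - M * mk) + mk * (M - Nn) := by ring
    rw [e]
    refine (abs_add_le _ _).trans ?_
    have h4 : |mk * (M - Nn)| ≤ X1 * (2 * (η1 * M)) := by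
      rw [abs_mul, abs_of_nonneg hmk0]
      apply mul_le_mul h2 _ (abs_nonneg _) (by linarith)
      rw [abs_sub_comm]
      exact hzero
    have h7 : 4 * (η1 * X1) * M ≤ 4 * (η1 * X1) * (2 * Nn) := by gcongr
    have h8 : 8 * (η1 * X1) * Nn ≤ η * Nn := by gcongr
    linarith) A
  rw [← hN] at hfin
  exact hfin

end Pool.Agent.R463.EX
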