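import Pool.Agent.R463.Lin

set_option autoImplicit false

/-!
# Families of linear forms: densities
-/

namespace Pool.Agent.R463.PS

open Polynomial Finset Filter
open Pool.Agent.W123.RP Pool.Agent.H373R2.T7 Pool.Agent.W123.RU Pool.Agent.W123.RU.Poly
open Pool.Agent.TH464.PW Pool.Agent.TH464.PO Pool.Agent.Y879.GL

variable {k : ℕ}

lemma om_le (f : Fin k → ℤ[X]) (p : ℕ) : om f p ≤ p := by
  classical
  unfold om
  exact (card_filter_le _ _).trans (card_range p).le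

/-- a comparison of densities -/
lemma V_le_Vz (f : Fin k → ℤ[X]) (X r : ℕ) (h1 : ∀ p : ℕ, p.Prime → 1 ≤ om f p) :
    V f X r ≤ Vz ⌊(X : ℝ) ^ (1 / (r : ℝ))⌋₊ := by
  unfold V Vz pz
  apply Finset.prod_le_prod
  · intro p hp
    have hp0 : (0 : ℝ) < p := by exact_mod_cast (mem_filter.1 hp).2.pos
    rw [sub_nonneg, div_le_one hp0]
    exact_mod_cast om_le f p
  · intro p hp
    have hp0 : (0 : ℝ) < p := by exact_mod_cast (mem_filter.1 hp).2.pos
    have h2 : (1 : ℝ) ≤ om f p := by exact_mod_cast h1 p (mem_filter.1 hp).2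
    have h3 : 1 / (p : ℝ) ≤ (om f p : ℝ) / p := by gcongr
    linarith

/-- the product of `1 - 1 / p` over the primes `p ≤ X ^ (1 / r)` is `O(1 / log X)` -/
theorem Vz_le (r : ℕ) (hr : 2 ≤ r) : ∃ C : ℝ, 0 < C ∧ ∀ᶠ X : ℕ in atTop,
    Vz ⌊(X : ℝ) ^ (1 / (r : ℝ))⌋₊ ≤ C / Real.log X := by
  obtain ⟨c, C, hc, hC, hV⟩ := Vz_bounds
  have hrr : (2 : ℝ) ≤ r := by exact_mod_cast hr
  refine ⟨C * (2 * r), by positivity, ?_⟩
  filter_upwards [level_ok r hr] with X hX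
  obtain ⟨l1, l2, l3, l4, l5⟩ := hX
  obtain ⟨h6, h7⟩ := hV ⌊(X : ℝ) ^ (1 / (r : ℝ))⌋₊ (by omega)
  refine h7.trans ?_
  rw [mul_div_assoc, div_eq_mul_one_div C]
  apply mul_le_mul_of_nonneg_left _ hC.le
  rw [one_div, inv_le_comm₀ (by linarith) (by positivity), inv_div]
  exact l2

/-- a monic form has a root modulo every prime -/
lemma om_monic {a b : Fin k → ℤ} (i : Fin k) (hi : a i = 1) (p : ℕ) (hp : p.Prime) :
    1 ≤ om (ls a b) p := by
  rw [ls_om, Nat.one_le_iff_ne_zero, Ne, Finset.card_eq_zero, ← Ne, ← Finset.nonempty_iff_ne_empty]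
  have hp0 : (0 : ℤ) < p := by exact_mod_cast hp.pos
  refine ⟨((-b i) % p).toNat, ?_⟩
  have h1 : (((-b i) % p).toNat : ℤ) = (-b i) % p := Int.toNat_of_nonneg (Int.emod_nonneg _ hp0.ne')
  rw [mem_filter, mem_range]
  constructor
  · have := Int.emod_lt_of_pos (-b i) hp0
    omega
  · refine ⟨i, ?_⟩
    rw [hi, h1, one_mul]
    have h2 := Int.emod_add_mul_ediv (-b i) p
    exact ⟨-((-b i) / p), by linarith⟩

end Pool.Agent.R463.PS
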