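import Pool.Agent.R463.EX5
import Pool.Agent.R463.Lin2

set_option autoImplicit false

/-!
# Exact patterns of the integers without small prime factors
-/

namespace Pool.Agent.R463.EX

open Polynomial Finset Filter
open Pool.Agent.W123.RP Pool.Agent.H373R2.T7 Pool.Agent.W123.RU Pool.Agent.W123.RU.Poly
open Pool.Agent.TH464.PW Pool.Agent.TH464.PO Pool.Agent.Y879.GL Pool.Agent.R463.PP Pool.Agent.R463.PS

/-- the condition of divisibility -/
def Qi (p m : ℕ) : Prop := p ∣ m

open Classical in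
lemma nuB_QH_Qi (H : Finset ℕ) (p : ℕ) (hp : p.Prime) : nuB (QH Qi H) p = (H.image (· % p)).card := by
  have e : nuB (QH Qi H) p = ((range p).filter (fun m => QH Qi H p m)).card := by
    unfold nuB
    congr
  rw [e]
  symm
  apply Finset.card_bij (fun s _ => (p - s) % p)
  · intro s hs
    rw [mem_image] at hs
    obtain ⟨h, hh, rfl⟩ := hs
    have h1 := Nat.mod_lt h hp.pos
    rw [mem_filter, mem_range]
    refine ⟨Nat.mod_lt _ hp.pos, h, hh, ?_⟩
    unfold Qi
    apply Nat.dvd_of_mod_eq_zero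
    rw [Nat.add_mod, Nat.mod_mod, ← Nat.add_mod, Nat.add_mod, Nat.mod_mod_of_dvd _ (dvd_refl p) |>.symm]
    have h2 : ((p - h % p) + h % p) % p = 0 := by
      rw [Nat.sub_add_cancel h1.le, Nat.mod_self]
    rw [Nat.add_mod] at h2
    simpa using h2
  · intro s hs s' hs' h
    rw [mem_image] at hs hs'
    obtain ⟨a, ha, rfl⟩ := hs
    obtain ⟨b, hb, rfl⟩ := hs'
    have h1 := Nat.mod_lt a hp.pos
    have h2 := Nat.mod_lt b hp.pos
    rcases Nat.eq_zero_or_pos (a % p) with h3 | h3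
    · rcases Nat.eq_zero_or_pos (b % p) with h4 | h4
      · rw [h3, h4]
      · rw [h3, Nat.sub_zero, Nat.mod_self, Nat.mod_eq_of_lt (by omega : p - b % p < p)] at h
        omega
    · rcases Nat.eq_zero_or_pos (b % p) with h4 | h4
      · rw [h4, Nat.sub_zero, Nat.mod_self, Nat.mod_eq_of_lt (by omega : p - a % p < p)] at h
        omega
      · rw [Nat.mod_eq_of_lt (by omega : p - a % p < p), Nat.mod_eq_of_lt (by omega : p - b % p < p)] at h
        omega
  · intro m hm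
    rw [mem_filter, mem_range] at hm
    obtain ⟨hm1, h, hh, hq⟩ := hm
    unfold Qi at hq
    have h1 := Nat.mod_lt h hp.pos
    refine ⟨h % p, mem_image.2 ⟨h, hh, rfl⟩, ?_⟩
    have h2 : (m + h % p) % p = 0 := by
      rw [Nat.add_mod_mod]
      exact Nat.mod_eq_zero_of_dvd hq
    obtain ⟨c, hc⟩ := Nat.dvd_of_mod_eq_zero h2
    rcases Nat.eq_zero_or_pos m with h3 | h3
    · have h4 : h % p = 0 := by
        by_contra h5
        have h6 : 0 < h % p := Nat.pos_of_ne_zero h5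
        rcases Nat.eq_zero_or_pos c with h7 | h7
        · rw [h7, mul_zero] at hc
          omega
        · have : p * 1 ≤ p * c := Nat.mul_le_mul_left p h7
          omega
      rw [h4, Nat.sub_zero, Nat.mod_self, h3]
    · have h5 : m + h % p = p := by
        rcases Nat.lt_or_ge c 2 with h6 | h6
        · interval_cases c <;> omega
        · have : p * 2 ≤ p * c := Nat.mul_le_mul_left p h6
          omega
      rw [show p - h % p = m by omega, Nat.mod_eq_of_lt hm1]

open Classical in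
lemma nuB_Qi (p : ℕ) (hp : p.Prime) : nuB Qi p = 1 := by
  have h1 := nuB_QH_Qi {0} p hp
  have e : nuB (QH Qi {0}) p = nuB Qi p := by
    apply le_antisymm
    · apply nuB_mono'
      rintro m ⟨h, hh, hq⟩
      rw [mem_singleton] at hh
      rw [hh, add_zero] at hq
      exact hq
    · apply nuB_mono'
      intro m hm
      exact ⟨0, mem_singleton_self _, hm⟩
  rw [← e, h1, image_singleton, card_singleton]

lemma perB_Qi : PerB Qi 1 := by
  refine ⟨fun p m => ?_, fun p hp => (nuB_Qi p hp).le⟩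
  unfold Qi
  exact (Nat.dvd_mod_iff (dvd_refl p)).symm

lemma adm_Qi (p : ℕ) (hp : p.Prime) : nuB Qi p < p := by
  rw [nuB_Qi p hp]
  exact hp.one_lt

lemma Vq_Qi (y : ℕ) : Vq Qi y = ∏ p ∈ pz y, (1 - 1 / (p : ℝ)) := by
  unfold Vq
  apply Finset.prod_congr rfl
  intro p hp
  rw [nuB_Qi p (mem_pz.1 hp).2, Nat.cast_one]

open Classical in
/-- **The exact patterns of the integers without prime factors `p ≤ y`**, in all intervals longer
than a power of `y`. -/
theorem patt_rough (a : ℕ) (ha : 1 ≤ a) (x0 ε : ℝ) (hε : 0 < ε) :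
    ∃ s y0 : ℕ, ∀ y : ℕ, y0 ≤ y → ∀ Z Y : ℕ, y ^ s ≤ Y → ∀ H : Finset ℕ, H.card = a → 0 ∈ H → ∀ L : ℕ,
        H ⊆ range (L + 1) → L * Vq Qi y ≤ x0 →
        |(exN Qi H L y Z Y : ℝ) - Y * Vq (QH Qi H) y * Real.exp (-(L * Vq Qi y))| ≤
          ε * (Y * Vq (QH Qi H) y * Real.exp (-(L * Vq Qi y))) := by
  obtain ⟨r0, h0⟩ := patt_unif 1 a le_rfl ha x0 ε 1 1 1 hε one_pos one_pos one_pos
  obtain ⟨r, hr⟩ : ∃ r, r = max r0 2 := ⟨_, rfl⟩
  have hr0 : r0 ≤ r := by rw [hr]; exact le_max_left _ _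
  have hr2 : 2 ≤ r := by rw [hr]; exact le_max_right _ _
  obtain ⟨C, hC, hV⟩ := Vz_le r hr2
  obtain ⟨X0, hX0⟩ := eventually_atTop.1 ((h0 r hr0 C).and (hV.and (eventually_ge_atTop 2)))
  refine ⟨r, X0 + 1, ?_⟩
  intro y hy Z Y hY H hHa hH0 L hHL hL
  have hyr : y ≤ y ^ r := Nat.le_self_pow (by omega) y
  obtain ⟨h1, h2, h3⟩ := hX0 (y ^ r) (by omega)
  have e : ⌊((y ^ r : ℕ) : ℝ) ^ (1 / (r : ℝ))⌋₊ = y := by
    have : ((y ^ r : ℕ) : ℝ) ^ (1 / (r : ℝ)) = y := by
      push_cast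
      rw [one_div]
      exact Real.pow_rpow_inv_natCast (Nat.cast_nonneg y) (by omega)
    rw [this, Nat.floor_natCast]
  rw [e] at h1 h2
  apply h1 Qi perB_Qi adm_Qi ?_ ?_ Y ?_ Z H hHa hH0 L hHL hL
  · rw [Vq_Qi]
    exact h2
  · intro t ht _
    refine ⟨1, one_pos, ?_, ?_⟩
    · rw [Real.rpow_one]
      have : (2 : ℝ) ≤ ((y ^ r : ℕ) : ℝ) := by exact_mod_cast h3
      push_cast at this ⊢
      linarith
    · rintro p hp htp ⟨m, h4, h5⟩
      unfold Qi at h4 h5
      have h6 : p ∣ t := (Nat.dvd_add_right h4).1 h5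
      have := Nat.le_of_dvd (by omega) h6
      omega
  · rw [Real.rpow_one]
    exact_mod_cast hY

end Pool.Agent.R463.EX
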