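import Pool.Agent.R463.EF3
import Pool.Agent.R463.EX6

set_option autoImplicit false

/-!
# Exact patterns on several distant windows
-/

namespace Pool.Agent.R463.EX

open Polynomial Finset Filter
open Pool.Agent.W123.RP Pool.Agent.H373R2.T7 Pool.Agent.W123.RU Pool.Agent.W123.RU.Poly
open Pool.Agent.TH464.PW Pool.Agent.TH464.PO Pool.Agent.Y879.GL Pool.Agent.R463.PP Pool.Agent.R463.PS

/-- the union of the windows `(d, d + ℓ d]`, `d ∈ D` -/
def Jw (D : Finset ℕ) (l : ℕ → ℕ) : Finset ℕ := D.biUnion (fun d => Ioc d (d + l d))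

open Classical in
/-- the number of the integers `Z < n ≤ Z + Y` for which, for all `h ∈ J`, `n + h` is sifted if and only
if `h ∈ H` -/
noncomputable def exJ (Q : ℕ → ℕ → Prop) (J H : Finset ℕ) (y Z Y : ℕ) : ℕ :=
  ((Icc (Z + 1) (Z + Y)).filter (fun n => ∀ h ∈ J, Sf Q y (n + h) ↔ h ∈ H)).card

open Classical in
lemma exJ_zero (Q : ℕ → ℕ → Prop) (J H : Finset ℕ) (y Y : ℕ) (hJ : H ⊆ J) :
    exJ Q J H y 0 Y = ((OmH Q H y Y).filter (fun n => NX Q y (J \ H) n ∈ ({0} : Finset ℕ))).card := by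
  unfold exJ OmH
  rw [zero_add, zero_add, Finset.filter_filter]
  congr 1
  apply Finset.filter_congr
  intro n _
  rw [sf_QH, mem_singleton]
  unfold NX
  rw [Finset.card_eq_zero, Finset.filter_eq_empty_iff]
  constructor
  · intro h
    refine ⟨fun x hx => (h x (hJ hx)).2 hx, fun x hx hs => ?_⟩
    rw [Finset.mem_sdiff] at hx
    exact hx.2 ((h x hx.1).1 hs)
  · rintro ⟨h1, h2⟩ x hx
    refine ⟨fun hs => ?_, fun hh => h1 x hh⟩
    by_contra hcon
    exact h2 (Finset.mem_sdiff.2 ⟨hx, hcon⟩) hs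

open Classical in
lemma exJ_Qt (Q : ℕ → ℕ → Prop) (J H : Finset ℕ) (y Z Y : ℕ) :
    exJ Q J H y Z Y = exJ (Qt Q Z) J H y 0 Y := by
  unfold exJ
  rw [zero_add, zero_add]
  symm
  apply Finset.card_bij (fun n _ => n + Z)
  · intro n hn
    rw [mem_filter, mem_Icc] at hn ⊢
    refine ⟨⟨by omega, by omega⟩, fun h hh => ?_⟩
    have h1 := hn.2 h hh
    rw [sf_Qt] at h1
    rw [show n + Z + h = n + h + Z by ring]
    exact h1
  · intro n _ n' _ h
    exact Nat.add_right_cancel h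
  · intro n hn
    rw [mem_filter, mem_Icc] at hn
    refine ⟨n - Z, ?_, by omega⟩
    rw [mem_filter, mem_Icc]
    refine ⟨⟨by omega, by omega⟩, fun h hh => ?_⟩
    rw [sf_Qt, show n - Z + h + Z = n + h by omega]
    exact hn.2 h hh

open Classical in
/-- regularity of a union of disjoint windows -/
lemma windowJ (Q : ℕ → ℕ → Prop) (c : ℕ) (hQ : PerB Q c) (D : Finset ℕ) (l : ℕ → ℕ)
    (hdis : (D : Set ℕ).PairwiseDisjoint (fun d => Ioc d (d + l d))) (w m : ℕ) :
    |((((Jw D l).filter (fun h => Sf Q w (m + h))).card : ℕ) : ℝ) - (Jw D l).card * Vq Q w| ≤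
      D.card * Mw w := by
  have e1 : (Jw D l).filter (fun h => Sf Q w (m + h)) =
      D.biUnion (fun d => (Ioc d (d + l d)).filter (fun h => Sf Q w (m + h))) := by
    unfold Jw
    rw [Finset.filter_biUnion]
  have e2 : ((Jw D l).filter (fun h => Sf Q w (m + h))).card =
      ∑ d ∈ D, ((Ioc d (d + l d)).filter (fun h => Sf Q w (m + h))).card := by
    rw [e1, card_biUnion]
    intro d hd d' hd' hne
    exact Finset.disjoint_filter_filter (hdis hd hd' hne)
  have e3 : (Jw D l).card = ∑ d ∈ D, l d := by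
    unfold Jw
    rw [card_biUnion (fun d hd d' hd' hne => hdis hd hd' hne)]
    apply Finset.sum_congr rfl
    intro d _
    rw [Nat.card_Ioc, Nat.add_sub_cancel_left]
  rw [e2, e3]
  push_cast
  rw [Finset.sum_mul, ← Finset.sum_sub_distrib]
  refine (Finset.abs_sum_le_sum_abs _ _).trans ?_
  rw [← nsmul_eq_mul, ← Finset.sum_const]
  apply Finset.sum_le_sum
  intro d _
  have h1 := window Q c hQ w (m + d) (l d)
  have e4 : ((Icc 1 (l d)).filter (fun h => Sf Q w (m + d + h))).card =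
      ((Ioc d (d + l d)).filter (fun h => Sf Q w (m + h))).card := by
    apply Finset.card_bij (fun h _ => d + h)
    · intro h hh
      rw [mem_filter, mem_Icc] at hh
      rw [mem_filter, mem_Ioc, ← add_assoc]
      exact ⟨by omega, hh.2⟩
    · intro h _ h' _ e
      omega
    · intro s hs
      rw [mem_filter, mem_Ioc] at hs
      refine ⟨s - d, ?_, by omega⟩
      rw [mem_filter, mem_Icc, show m + d + (s - d) = m + s by omega]
      exact ⟨by omega, hs.2⟩
  rw [e4] at h1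
  exact h1

open Classical in
lemma windowJR (Q : ℕ → ℕ → Prop) (c : ℕ) (hQ : PerB Q c) (D : Finset ℕ) (l : ℕ → ℕ)
    (hdis : (D : Set ℕ).PairwiseDisjoint (fun d => Ioc d (d + l d))) (H : Finset ℕ) (hH : H ⊆ Jw D l)
    (w m : ℕ) :
    |((((Jw D l \ H).filter (fun h => Sf Q w (m + h))).card : ℕ) : ℝ) - (Jw D l \ H).card * Vq Q w| ≤
      D.card * Mw w + 2 * H.card := by
  have h1 := windowJ Q c hQ D l hdis w m
  have e1 : ((Jw D l).filter (fun h => Sf Q w (m + h))).card =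
      ((Jw D l \ H).filter (fun h => Sf Q w (m + h))).card +
        (H.filter (fun h => Sf Q w (m + h))).card := by
    rw [← card_union_of_disjoint]
    · rw [← Finset.filter_union, Finset.sdiff_union_of_subset hH]
    · exact Finset.disjoint_filter_filter Finset.sdiff_disjoint
  have e2 : (Jw D l).card = (Jw D l \ H).card + H.card := by
    rw [Finset.card_sdiff_of_subset hH]
    have := card_le_card hH
    omega
  have h2 : (H.filter (fun h => Sf Q w (m + h))).card ≤ H.card := card_filter_le _ _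
  have hV0 := Vq_nonneg Q w
  have hV1 := Vq_le_one Q w
  have e2r : ((Jw D l).card : ℝ) = (Jw D l \ H).card + H.card := by rw [e2]; push_cast; ring
  have h2r : (((H.filter (fun h => Sf Q w (m + h))).card : ℕ) : ℝ) ≤ H.card := Nat.cast_le.2 h2
  have h2s : (0 : ℝ) ≤ (((H.filter (fun h => Sf Q w (m + h))).card : ℕ) : ℝ) := Nat.cast_nonneg _
  have h3s : (0 : ℝ) ≤ (H.card : ℝ) := Nat.cast_nonneg _
  rw [e1] at h1
  push_cast at h1
  have h4 : ((Jw D l).card : ℝ) * Vq Q w = (Jw D l \ H).card * Vq Q w + H.card * Vq Q w := by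
    rw [e2r]
    ring
  have h5 : (H.card : ℝ) * Vq Q w ≤ H.card := by
    have h7 := mul_le_mul_of_nonneg_left hV1 h3s
    linarith
  have h6 : 0 ≤ (H.card : ℝ) * Vq Q w := mul_nonneg h3s hV0
  rw [h4] at h1
  obtain ⟨g1, g2⟩ := abs_le.1 h1
  rw [abs_le]
  constructor <;> linarith

open Classical in
lemma exJ_eq_zero (Q : ℕ → ℕ → Prop) (c : ℕ) (hQ : PerB Q c) (J H : Finset ℕ) (y Z Y : ℕ)
    (hHJ : H ⊆ J) (p : ℕ) (hp : p ∈ pz y) (hnu : nuB (QH Q H) p = p) :
    exJ Q J H y Z Y = 0 := by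
  unfold exJ
  rw [Finset.card_eq_zero, Finset.filter_eq_empty_iff]
  intro n _ hn
  have hp0 := (mem_pz.1 hp).2.pos
  have h1 : QH Q H p (n % p) := by
    have h2 : ((range p).filter (fun m => QH Q H p m)).card = (range p).card := by
      rw [card_range]
      have e : nuB (QH Q H) p = ((range p).filter (fun m => QH Q H p m)).card := by
        unfold nuB
        congr
      rw [← e, hnu]
    have h3 : (range p).filter (fun m => QH Q H p m) = range p :=
      Finset.eq_of_subset_of_card_le (filter_subset _ _) h2.ge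
    have h4 : n % p ∈ (range p).filter (fun m => QH Q H p m) := by
      rw [h3]
      exact mem_range.2 (Nat.mod_lt _ hp0)
    exact (mem_filter.1 h4).2
  rw [← (perB_QH Q c hQ H).per p n] at h1
  obtain ⟨h, hh, hq⟩ := h1
  have h5 := (hn h (hHJ hh)).2 hh
  exact h5 p hp hq

open Classical in
/-- **The exact patterns on distant windows**, integers without prime factors `p ≤ y`. -/
theorem pattF (a m : ℕ) (ha : 1 ≤ a) (hm : 1 ≤ m) (x0 ε : ℝ) (A : ℕ) (hε : 0 < ε) :
    ∃ s y0 : ℕ, ∀ y : ℕ, y0 ≤ y → ∀ Z Y : ℕ, y ^ s ≤ Y → ∀ (D : Finset ℕ) (l : ℕ → ℕ), D.card ≤ m →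
      (D : Set ℕ).PairwiseDisjoint (fun d => Ioc d (d + l d)) → (∀ d ∈ D, d + l d ≤ y ^ A) →
      (∀ d ∈ D, (l d : ℝ) * Vq Qi y ≤ x0) → ∀ H : Finset ℕ, H ⊆ Jw D l → H.card = a →
        |(exJ Qi (Jw D l) H y Z Y : ℝ) - Y * Vq (QH Qi H) y * Real.exp (-((Jw D l).card * Vq Qi y))| ≤
          ε * (Y * Vq (QH Qi H) y * Real.exp (-((Jw D l).card * Vq Qi y))) := by
  obtain ⟨z, hz⟩ : ∃ z : ℝ, z = max x0 1 := ⟨_, rfl⟩
  have hz1 : 1 ≤ z := by rw [hz]; exact le_max_right _ _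
  have hzx : x0 ≤ z := by rw [hz]; exact le_max_left _ _
  obtain ⟨ε1, hε1⟩ : ∃ ε1 : ℝ, ε1 = min 1 (ε * Real.exp (-(m * z))) := ⟨_, rfl⟩
  have hex := Real.exp_pos (-((m : ℝ) * z))
  have hε10 : 0 < ε1 := by rw [hε1]; positivity
  have hε11 : ε1 ≤ 1 := by rw [hε1]; exact min_le_left _ _
  obtain ⟨K0, y1, T0, R0, η', hη', hlaw⟩ := lawF 1 a m le_rfl ha hm (m * z) (ε1 / 8) (by positivity)
    (by positivity) (by linarith) (fun w => m * Mw w + 2 * a) (fun w => by positivity)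
  have har : (1 : ℝ) ≤ a := by exact_mod_cast ha
  have hmr : (1 : ℝ) ≤ m := by exact_mod_cast hm
  obtain ⟨κ, hκ⟩ : ∃ κ : ℝ, κ = min (ε1 / (16 * a)) (1 / 2) := ⟨_, rfl⟩
  have hκ0 : 0 < κ := by rw [hκ]; positivity
  have hκ2 : κ ≤ 1 / 2 := by rw [hκ]; exact min_le_right _ _
  have hκa : a * κ ≤ ε1 / 16 := by
    have : κ ≤ ε1 / (16 * a) := by rw [hκ]; exact min_le_left _ _
    rw [le_div_iff₀ (by positivity)] at this
    linarith
  obtain ⟨c1, C1, hc1, hC1, hVz⟩ := Vz_bounds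
  obtain ⟨v, hv, hV⟩ := V_lower_unif (a * 1)
  obtain ⟨E, hE⟩ : ∃ E : ℝ, E = Real.exp ((A + 2) * C1 / (κ * η')) := ⟨_, rfl⟩
  have hE0 : 0 < E := by rw [hE]; exact Real.exp_pos _
  have hlogy : Tendsto (fun y : ℕ => Real.log (y : ℝ)) atTop atTop :=
    Real.tendsto_log_atTop.comp tendsto_natCast_atTop_atTop
  obtain ⟨M1, hM1⟩ : ∃ M1 : ℝ, M1 = (m * z / c1) ^ R0 / (η' * v) + 1 := ⟨_, rfl⟩
  have hM10 : 0 < M1 := by rw [hM1]; positivity
  obtain ⟨Y0, hY0⟩ := eventually_atTop.1 (((hlogy.eventually_ge_atTop (C1 / κ * (T0 + 2 + E))).and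
    (hlogy.eventually_ge_atTop 1)).and ((logpow_rpow (R0 + a) M1 1 hM10 one_pos).and
      ((logpow_rpow 1 (z / c1 + 1) 1 (by positivity) one_pos).and (eventually_ge_atTop (a + 3)))))
  refine ⟨K0 + 2, max y1 Y0, ?_⟩
  intro y hy Z Y hY D l hD hdis hDA hlx H hHJ hHa
  obtain ⟨⟨g1, g2⟩, g3, g4, g5⟩ := hY0 y ((le_max_right _ _).trans hy)
  rw [Real.rpow_one] at g3 g4
  rw [pow_one] at g4
  have hy1 : y1 ≤ y := (le_max_left _ _).trans hy
  have hyr : (3 : ℝ) ≤ y := by
    have : 3 ≤ y := by omega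
    exact_mod_cast this
  have hly : 0 < Real.log (y : ℝ) := by linarith
  obtain ⟨hlow, hup⟩ := hVz y (by omega)
  have hVz' : Vq Qi y = Vz y := by
    rw [Vq_Qi]
    rfl
  rw [← hVz'] at hlow hup
  obtain ⟨V, hVdef⟩ : ∃ V, V = Vq Qi y := ⟨_, rfl⟩
  have hV0 : 0 < V := by rw [hVdef]; exact Vq_pos Qi adm_Qi y
  rw [← hVdef] at hlow hup
  by_cases hzero : ∀ p ∈ pz y, nuB (QH Qi H) p < p
  swap
  · push Not at hzero
    obtain ⟨p, hp, hnu⟩ := hzero
    have hnu' : nuB (QH Qi H) p = p := le_antisymm (nuB_le _ p) hnu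
    have hp0 : (0 : ℝ) < p := by exact_mod_cast (mem_pz.1 hp).2.pos
    have hV0 : Vq (QH Qi H) y = 0 := by
      unfold Vq
      apply Finset.prod_eq_zero hp
      rw [hnu', div_self hp0.ne', sub_self]
    rw [exJ_eq_zero Qi 1 perB_Qi _ H y Z Y hHJ p hp hnu', hV0]
    simp
  have hperH := perB_QH Qi 1 perB_Qi H
  rw [hHa] at hperH
  have hadmH : ∀ p : ℕ, p.Prime → nuB (QH Qi H) p < p := by
    intro p hp
    by_cases hpy : p ≤ y
    · exact hzero p (mem_pz.2 ⟨hpy, hp⟩)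
    · have := hperH.few p hp
      omega
  have hVH : v / Real.log y ^ a ≤ Vq (QH Qi H) y := by
    have h2 := hV (QH Qi H) hperH hadmH y (by omega)
    rwa [mul_one] at h2
  have hT0r : (0 : ℝ) ≤ T0 := Nat.cast_nonneg _
  have hκV : κ / V ≥ T0 + 2 + E := by
    rw [ge_iff_le, le_div_iff₀ hV0]
    have h1 : (T0 + 2 + E) * V ≤ (T0 + 2 + E) * (C1 / Real.log y) :=
      mul_le_mul_of_nonneg_left hup (by positivity)
    refine h1.trans ?_
    rw [← mul_div_assoc, div_le_iff₀ hly]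
    have h3 := mul_le_mul_of_nonneg_right g1 hκ0.le
    calc (T0 + 2 + E) * C1 = C1 / κ * (T0 + 2 + E) * κ := by field_simp
      _ ≤ Real.log y * κ := h3
      _ = κ * Real.log y := mul_comm _ _
  have hVκ : V ≤ κ := by
    have h1 : (1 : ℝ) ≤ κ / V := by linarith
    rwa [le_div_iff₀ hV0, one_mul] at h1
  obtain ⟨T', w1, w2, w3⟩ := exists_window V κ hV0 hVκ
  obtain ⟨T, hT⟩ : ∃ T, T = max T' (D.sup l) := ⟨_, rfl⟩
  have hT'T : T' ≤ T := by rw [hT]; exact le_max_left _ _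
  have hlT : ∀ d ∈ D, l d ≤ T := fun d hd => by
    rw [hT]
    exact (Finset.le_sup hd).trans (le_max_right _ _)
  have hTκ : κ / V ≤ T := by
    rw [div_le_iff₀ hV0]
    refine w1.trans ?_
    exact mul_le_mul_of_nonneg_right (by exact_mod_cast hT'T) hV0.le
  have hTz : (T : ℝ) * V ≤ z := by
    rw [hT]
    rcases le_total T' (D.sup l) with h | h
    · rw [max_eq_right h]
      rcases D.eq_empty_or_nonempty with he | hne
      · rw [he, Finset.sup_empty]
        simp only [Nat.bot_eq_zero, Nat.cast_zero, zero_mul]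
        linarith
      · obtain ⟨d, hd, he⟩ := Finset.exists_mem_eq_sup D hne l
        rw [he, hVdef]
        exact (hlx d hd).trans hzx
    · rw [max_eq_left h]
      refine w2.trans ?_
      linarith
  have hTr0 : (0 : ℝ) ≤ T := Nat.cast_nonneg _
  have hTlog : (T : ℝ) ≤ z / c1 * Real.log y := by
    have h2 : (T : ℝ) * (c1 / Real.log y) ≤ z := (mul_le_mul_of_nonneg_left hlow hTr0).trans hTz
    rw [← mul_div_assoc, div_le_iff₀ hly] at h2
    rw [div_mul_eq_mul_div, le_div_iff₀ hc1]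
    exact h2
  have hTy : T ≤ y := by
    have h1 : (T : ℝ) ≤ y := by
      refine hTlog.trans (le_trans ?_ g4)
      apply mul_le_mul_of_nonneg_right _ hly.le
      linarith
    exact_mod_cast h1
  have hTbig : (T0 : ℝ) + 2 + E ≤ T := hκV.le.trans hTκ
  have hT2 : 2 ≤ T := by
    have : (2 : ℝ) ≤ T := by linarith
    exact_mod_cast this
  have hT0T : T0 ≤ T := by
    have : (T0 : ℝ) ≤ T := by linarith
    exact_mod_cast this
  have hyA : y ^ A + y ≤ y ^ (A + 2) := by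
    have h1 : 1 ≤ y ^ A := Nat.one_le_pow _ _ (by omega)
    have h2 : y ^ (A + 2) = y ^ A * (y * y) := by ring
    have h3 : y * 3 ≤ y * y := Nat.mul_le_mul_left y (by omega)
    have h4 : y ^ A * (y * 3) ≤ y ^ (A + 2) := by rw [h2]; exact Nat.mul_le_mul_left _ h3
    nlinarith
  have hTV : κ ≤ T * V := by
    rwa [div_le_iff₀ hV0] at hTκ
  have hlarge : ∀ t ∈ Icc 1 (y ^ (A + 2)), ((((pz y).filter
      (fun p : ℕ => T < p ∧ CoG (Qt Qi Z) p t)).card : ℕ) : ℝ) ≤ η' * T := by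
    intro t ht
    rw [mem_Icc] at ht
    have h3 := card_primes_le ((pz y).filter (fun p : ℕ => T < p ∧ CoG (Qt Qi Z) p t)) T t hT2 (by omega)
      ((y : ℝ) ^ (A + 2)) (by exact_mod_cast ht.2) (fun p hp => by
        rw [mem_filter] at hp
        refine ⟨(mem_pz.1 hp.1).2, hp.2.1, ?_⟩
        obtain ⟨n, h4, h5⟩ := hp.2.2
        unfold Qt Qi at h4 h5
        rw [show n + t + Z = n + Z + t by ring] at h5
        exact (Nat.dvd_add_right h4).1 h5)
    rw [Real.log_pow] at h3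
    have hlT : (A + 2) * C1 / (κ * η') ≤ Real.log T := by
      have h4 : E ≤ T := by linarith
      have h5 := Real.log_le_log hE0 h4
      rwa [hE, Real.log_exp] at h5
    have hlT0 : 0 < Real.log T := lt_of_lt_of_le (by positivity) hlT
    have hlyT : Real.log y ≤ C1 / κ * T := by
      have h4 : κ ≤ T * (C1 / Real.log y) := hTV.trans (mul_le_mul_of_nonneg_left hup hTr0)
      rw [← mul_div_assoc, le_div_iff₀ hly] at h4
      rw [div_mul_eq_mul_div, le_div_iff₀ hκ0]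
      linarith
    have h6 : ((A + 2 : ℕ) : ℝ) * Real.log y ≤ η' * T * Real.log T := by
      push_cast
      calc ((A : ℝ) + 2) * Real.log y ≤ (A + 2) * (C1 / κ * T) :=
            mul_le_mul_of_nonneg_left hlyT (by positivity)
        _ = η' * T * ((A + 2) * C1 / (κ * η')) := by field_simp
        _ ≤ η' * T * Real.log T := mul_le_mul_of_nonneg_left hlT (by positivity)
    exact le_of_mul_le_mul_right (h3.trans h6) hlT0
  have hYr : (y : ℝ) ≤ √(Y : ℝ) := by
    apply Real.le_sqrt_of_sq_le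
    have h1 : y ^ 2 ≤ Y := (Nat.pow_le_pow_right (by omega) (by omega)).trans hY
    exact_mod_cast h1
  have hs0 : 0 ≤ √(Y : ℝ) := Real.sqrt_nonneg _
  have hsq : √(Y : ℝ) * √(Y : ℝ) = Y := Real.mul_self_sqrt (Nat.cast_nonneg Y)
  have hcond : ((m * T : ℕ) : ℝ) ^ R0 * √(Y : ℝ) ≤ η' * (Y * Vq (QH Qi H) y) := by
    have h1 : ((m * T : ℕ) : ℝ) ≤ m * z / c1 * Real.log y := by
      push_cast
      calc (m : ℝ) * T ≤ m * (z / c1 * Real.log y) := mul_le_mul_of_nonneg_left hTlog (by positivity)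
        _ = _ := by ring
    have h2 : (m * z / c1) ^ R0 * Real.log y ^ R0 ≤ √(Y : ℝ) * (η' * (v / Real.log y ^ a)) := by
      have h3 : (m * z / c1) ^ R0 / (η' * v) * Real.log y ^ (R0 + a) ≤ √(Y : ℝ) := by
        refine le_trans ?_ (g3.trans hYr)
        apply mul_le_mul_of_nonneg_right _ (by positivity)
        linarith
      calc (m * z / c1) ^ R0 * Real.log y ^ R0 =
            ((m * z / c1) ^ R0 / (η' * v) * Real.log y ^ (R0 + a)) * (η' * (v / Real.log y ^ a)) := by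
            rw [pow_add]
            field_simp
        _ ≤ _ := mul_le_mul_of_nonneg_right h3 (by positivity)
    calc ((m * T : ℕ) : ℝ) ^ R0 * √(Y : ℝ) ≤ (m * z / c1 * Real.log y) ^ R0 * √(Y : ℝ) := by
          apply mul_le_mul_of_nonneg_right (pow_le_pow_left₀ (Nat.cast_nonneg _) h1 _) hs0
      _ = (m * z / c1) ^ R0 * Real.log y ^ R0 * √(Y : ℝ) := by rw [mul_pow]
      _ ≤ √(Y : ℝ) * (η' * (v / Real.log y ^ a)) * √(Y : ℝ) := mul_le_mul_of_nonneg_right h2 hs0
      _ ≤ √(Y : ℝ) * (η' * Vq (QH Qi H) y) * √(Y : ℝ) := by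
          apply mul_le_mul_of_nonneg_right _ hs0
          apply mul_le_mul_of_nonneg_left _ hs0
          exact mul_le_mul_of_nonneg_left hVH hη'.le
      _ = η' * ((√(Y : ℝ) * √(Y : ℝ)) * Vq (QH Qi H) y) := by ring
      _ = _ := by rw [hsq]
  have hJmem : ∀ h ∈ Jw D l, h ≤ y ^ A := by
    intro h hh
    unfold Jw at hh
    rw [mem_biUnion] at hh
    obtain ⟨d, hd, hh⟩ := hh
    rw [mem_Ioc] at hh
    exact hh.2.trans (hDA d hd)
  have hper := perB_Qt Qi 1 perB_Qi Z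
  have hmain := hlaw Y y T hy1 ((Nat.pow_le_pow_right (by omega) (by omega)).trans hY) hT0T (Qt Qi Z) hper
    (fun p hp => by rw [nuB_Qt Qi 1 perB_Qi]; exact adm_Qi p hp) (by
      rw [Vq_Qt Qi 1 perB_Qi, ← hVdef]
      push_cast
      calc (m : ℝ) * T * V = m * (T * V) := by ring
        _ ≤ m * z := mul_le_mul_of_nonneg_left hTz (by positivity)) (y ^ (A + 2)) (by
      have h1 : 1 ≤ y ^ A := Nat.one_le_pow _ _ (by omega)
      omega) hlarge H hHa (by
      intro h hh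
      have := hJmem h (hHJ hh)
      rw [mem_range]
      omega) (by rw [Vq_QH_Qt Qi 1 perB_Qi]; exact hcond) D hD (fun d hd => by
      have := hDA d hd
      omega) (Jw D l \ H) (by
      intro h hh
      rw [Finset.mem_sdiff] at hh
      have h1 := hh.1
      unfold Jw at h1
      rw [mem_biUnion] at h1 ⊢
      obtain ⟨d, hd, h2⟩ := h1
      refine ⟨d, hd, ?_⟩
      rw [mem_Ioc] at h2 ⊢
      have := hlT d hd
      omega) Finset.disjoint_sdiff (fun w n => by
      have h1 := windowJR (Qt Qi Z) 1 hper D l hdis H hHJ w n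
      rw [hHa] at h1
      refine h1.trans ?_
      have h2 : (D.card : ℝ) ≤ m := by exact_mod_cast hD
      have h3 : (D.card : ℝ) * Mw w ≤ m * Mw w := mul_le_mul_of_nonneg_right h2 (Nat.cast_nonneg _)
      linarith)
  rw [Vq_QH_Qt Qi 1 perB_Qi, Vq_Qt Qi 1 perB_Qi, ← hVdef] at hmain
  obtain ⟨k1, k2⟩ := hmain
  have k3 := k2 {0}
  rw [← exJ_zero (Qt Qi Z) (Jw D l) H y Y hHJ, ← exJ_Qt] at k3
  rw [← hVdef]
  obtain ⟨N, hN⟩ : ∃ N : ℝ, N = ((OmH (Qt Qi Z) H y Y).card : ℝ) := ⟨_, rfl⟩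
  obtain ⟨M, hM⟩ : ∃ M : ℝ, M = Y * Vq (QH Qi H) y := ⟨_, rfl⟩
  obtain ⟨e0, he0⟩ : ∃ e0 : ℝ, e0 = (exJ Qi (Jw D l) H y Z Y : ℝ) := ⟨_, rfl⟩
  obtain ⟨w, hw⟩ : ∃ w : ℝ, w = ((Jw D l \ H).card : ℝ) := ⟨_, rfl⟩
  obtain ⟨J, hJ⟩ : ∃ J : ℝ, J = ((Jw D l).card : ℝ) := ⟨_, rfl⟩
  have hM0 : 0 ≤ M := by
    rw [hM]
    exact mul_nonneg (Nat.cast_nonneg _) (Vq_nonneg _ y)
  have hw0 : 0 ≤ w := by rw [hw]; exact Nat.cast_nonneg _
  have hwJ : w = J - a := by
    rw [hw, hJ, Finset.card_sdiff_of_subset hHJ, Nat.cast_sub (card_le_card hHJ), hHa]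
  have hJz : J * V ≤ m * z := by
    have h1 : (Jw D l).card ≤ m * T := by
      refine (card_le_card ?_).trans (biU_card D m T hD)
      intro h hh
      unfold Jw at hh
      rw [mem_biUnion] at hh ⊢
      obtain ⟨d, hd, h2⟩ := hh
      refine ⟨d, hd, ?_⟩
      rw [mem_Ioc] at h2 ⊢
      have := hlT d hd
      omega
    have h2 : J ≤ m * T := by
      rw [hJ]
      exact_mod_cast h1
    calc J * V ≤ m * T * V := mul_le_mul_of_nonneg_right h2 hV0.le
      _ = m * (T * V) := by ring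
      _ ≤ m * z := mul_le_mul_of_nonneg_left hTz (by positivity)
  rw [← hN, ← hM] at k1
  rw [← hN, ← he0, ← hw] at k3
  rw [← he0, ← hM, ← hJ]
  have k4 : |e0 - N * Real.exp (-(w * V))| ≤ ε1 / 8 * N := by simpa using k3
  have hN2 : N ≤ 2 * M := by
    have h3 := (abs_le.1 k1).2
    nlinarith
  have hJ0 : 0 ≤ J := by rw [hJ]; exact Nat.cast_nonneg _
  have h1 := exp_sub_le (w * V) (J * V) (by positivity) (by positivity)
  have h2 : |w * V - J * V| ≤ ε1 / 16 := by
    have h3 : w * V - J * V = -(a * V) := by rw [hwJ]; ring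
    rw [h3, abs_neg, abs_of_nonneg (by positivity)]
    exact (mul_le_mul_of_nonneg_left hVκ (by positivity)).trans hκa
  have hew : 0 < Real.exp (-(w * V)) := Real.exp_pos _
  have hew1 : Real.exp (-(w * V)) ≤ 1 := Real.exp_le_one_iff.2 (by
    have : 0 ≤ w * V := by positivity
    linarith)
  have hfin : |e0 - M * Real.exp (-(J * V))| ≤ ε1 * M := by
    have e : e0 - M * Real.exp (-(J * V)) =
        (e0 - N * Real.exp (-(w * V))) + (N - M) * Real.exp (-(w * V)) +
          M * (Real.exp (-(w * V)) - Real.exp (-(J * V))) := by ring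
    rw [e]
    refine (abs_add_le _ _).trans ?_
    have h3 := abs_add_le (e0 - N * Real.exp (-(w * V))) ((N - M) * Real.exp (-(w * V)))
    have h4 : |(N - M) * Real.exp (-(w * V))| ≤ ε1 / 8 * M := by
      rw [abs_mul, abs_of_pos hew]
      calc |N - M| * Real.exp (-(w * V)) ≤ |N - M| * 1 := by gcongr
        _ ≤ _ := by linarith
    have h5 : |M * (Real.exp (-(w * V)) - Real.exp (-(J * V)))| ≤ M * (ε1 / 16) := by
      rw [abs_mul, abs_of_nonneg hM0]
      exact mul_le_mul_of_nonneg_left (h1.trans h2) hM0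
    have h6 : ε1 / 8 * N ≤ ε1 / 8 * (2 * M) := by gcongr
    have h7 : 0 ≤ ε1 * M := by positivity
    linarith
  refine hfin.trans ?_
  have h3 : ε1 ≤ ε * Real.exp (-(J * V)) := by
    refine (show ε1 ≤ ε * Real.exp (-(m * z)) by rw [hε1]; exact min_le_right _ _).trans ?_
    apply mul_le_mul_of_nonneg_left _ hε.le
    exact Real.exp_le_exp.2 (by linarith)
  calc ε1 * M ≤ ε * Real.exp (-(J * V)) * M := mul_le_mul_of_nonneg_right h3 hM0
    _ = _ := by ring

end Pool.Agent.R463.EX
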