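import Pool.Agent.R463.EX6

set_option autoImplicit false

/-!
# The singular series of pairs: extremal shifts
-/

namespace Pool.Agent.R463.EX

open Polynomial Finset Filter
open Pool.Agent.W123.RP Pool.Agent.H373R2.T7 Pool.Agent.W123.RU Pool.Agent.W123.RU.Poly
open Pool.Agent.TH464.PW Pool.Agent.TH464.PO Pool.Agent.Y879.GL Pool.Agent.R463.PP Pool.Agent.R463.PS

/-- the product of `(p - 1) / (p - 2)` over the odd primes `p ≤ y` which divide `h` -/
noncomputable def Rh (y h : ℕ) : ℝ :=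
  ∏ p ∈ (pz y).filter (fun p => 2 < p ∧ p ∣ h), (((p : ℝ) - 1) / ((p : ℝ) - 2))

/-- the product of `(p - 1) / (p - 2)` over the odd primes `p ≤ t` -/
noncomputable def At (t : ℕ) : ℝ := ∏ p ∈ (pz t).filter (fun p => 2 < p), (((p : ℝ) - 1) / ((p : ℝ) - 2))

/-- the density of the pairs -/
noncomputable def Vp (y h : ℕ) : ℝ := ∏ p ∈ pz y, (1 - ((if p ∣ h then 1 else 2 : ℕ) : ℝ) / p)

lemma fac_ge (p : ℕ) (hp : 2 < p) : (1 : ℝ) ≤ ((p : ℝ) - 1) / ((p : ℝ) - 2) := by
  have h : (3 : ℝ) ≤ p := by exact_mod_cast hp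
  rw [le_div_iff₀ (by linarith)]
  linarith

lemma fac_le (p t : ℕ) (hp : t < p) (ht : 2 ≤ t) :
    ((p : ℝ) - 1) / ((p : ℝ) - 2) ≤ Real.exp (1 / ((t : ℝ) - 1)) := by
  have h : (t : ℝ) + 1 ≤ p := by exact_mod_cast hp
  have h2 : (2 : ℝ) ≤ t := by exact_mod_cast ht
  have h3 : ((p : ℝ) - 1) / ((p : ℝ) - 2) = 1 + 1 / ((p : ℝ) - 2) := by
    have : (p : ℝ) - 2 ≠ 0 := by linarith
    field_simp
    ring
  have h4 : 1 / ((p : ℝ) - 2) ≤ 1 / ((t : ℝ) - 1) := by
    apply one_div_le_one_div_of_le <;> linarith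
  have h5 := Real.add_one_le_exp (1 / ((t : ℝ) - 1))
  rw [h3]
  linarith

lemma prod_sub_le (s t : Finset ℕ) (f : ℕ → ℝ) (hst : s ⊆ t) (hf : ∀ p ∈ t, 1 ≤ f p) :
    ∏ p ∈ s, f p ≤ ∏ p ∈ t, f p := by
  rw [← Finset.prod_sdiff hst]
  have h1 : 1 ≤ ∏ p ∈ t \ s, f p := Finset.one_le_prod (fun p hp => hf p (Finset.mem_sdiff.1 hp).1)
  have h2 : 0 ≤ ∏ p ∈ s, f p := Finset.prod_nonneg (fun p hp => by
    have := hf p (hst hp)
    linarith)
  nlinarith

lemma At_pos (t : ℕ) : 1 ≤ At t := by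
  unfold At
  apply Finset.one_le_prod
  intro p hp
  exact fac_ge p (mem_filter.1 hp).2

lemma Rh_ge (y h : ℕ) : 1 ≤ Rh y h := by
  unfold Rh
  apply Finset.one_le_prod
  intro p hp
  exact fac_ge p (mem_filter.1 hp).2.1

lemma Vp_eq (y h : ℕ) (hh : 2 ∣ h) : Vp y h = Vp y 2 * Rh y h := by
  unfold Vp Rh
  rw [Finset.prod_filter, ← Finset.prod_mul_distrib]
  apply Finset.prod_congr rfl
  intro p hp
  have hpp := (mem_pz.1 hp).2
  have hp0 : (0 : ℝ) < p := by exact_mod_cast hpp.pos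
  rcases Nat.lt_or_ge 2 p with h2 | h2
  · have h3 : ¬ p ∣ 2 := fun h => by
      have := Nat.le_of_dvd (by norm_num) h
      omega
    have h3r : (3 : ℝ) ≤ p := by exact_mod_cast h2
    by_cases h4 : p ∣ h
    · rw [if_pos h4, if_neg h3, if_pos ⟨h2, h4⟩]
      have h5 : (p : ℝ) - 2 ≠ 0 := by linarith
      push_cast
      field_simp
    · rw [if_neg h4, if_neg h3, if_neg (fun h => h4 h.2), mul_one]
  · have h3 : p = 2 := le_antisymm h2 hpp.two_le
    subst h3
    rw [if_pos hh, if_pos (dvd_refl 2), if_neg (fun h => by omega), mul_one]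

lemma Vp_odd (y h : ℕ) (hy : 2 ≤ y) (hh : ¬ 2 ∣ h) : Vp y h = 0 := by
  unfold Vp
  apply Finset.prod_eq_zero (i := 2) (mem_pz.2 ⟨hy, Nat.prime_two⟩)
  rw [if_neg hh]
  norm_num

lemma Rh_mul (y q h : ℕ) (hq : q.Prime) (hq2 : 2 < q) (hqy : q ≤ y) (hqh : ¬ q ∣ h) :
    Rh y (q * h) = Rh y h * (((q : ℝ) - 1) / ((q : ℝ) - 2)) := by
  unfold Rh
  have e : (pz y).filter (fun p => 2 < p ∧ p ∣ q * h) = insert q ((pz y).filter (fun p => 2 < p ∧ p ∣ h)) := by
    ext p
    rw [mem_insert, mem_filter, mem_filter]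
    constructor
    · rintro ⟨h1, h2, h3⟩
      rcases (Nat.Prime.dvd_mul (mem_pz.1 h1).2).1 h3 with h4 | h4
      · exact Or.inl ((Nat.prime_dvd_prime_iff_eq (mem_pz.1 h1).2 hq).1 h4)
      · exact Or.inr ⟨h1, h2, h4⟩
    · rintro (rfl | ⟨h1, h2, h3⟩)
      · exact ⟨mem_pz.2 ⟨hqy, hq⟩, hq2, Dvd.intro h rfl⟩
      · exact ⟨h1, h2, Dvd.dvd.mul_left h3 q⟩
  rw [e, Finset.prod_insert (by
    rw [mem_filter]
    rintro ⟨_, _, h⟩
    exact hqh h), mul_comm]

/-- the upper bound for `Rh` -/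
lemma Rh_le (y h t : ℕ) (ht : 2 ≤ t) (hh : 1 ≤ h) :
    Rh y h ≤ At t * Real.exp (Real.log h / (((t : ℝ) - 1) * Real.log t)) := by
  have ht2 : (2 : ℝ) ≤ t := by exact_mod_cast ht
  have hlt : 0 < Real.log (t : ℝ) := Real.log_pos (by linarith)
  have e : (pz y).filter (fun p => 2 < p ∧ p ∣ h) ⊆
      (pz t).filter (fun p => 2 < p) ∪ (pz y).filter (fun p => t < p ∧ p ∣ h) := by
    intro p hp
    rw [mem_filter, mem_pz] at hp
    rw [mem_union, mem_filter, mem_filter, mem_pz, mem_pz]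
    rcases Nat.lt_or_ge t p with h1 | h1
    · exact Or.inr ⟨hp.1, h1, hp.2.2⟩
    · exact Or.inl ⟨⟨h1, hp.1.2⟩, hp.2.1⟩
  have hge : ∀ p ∈ (pz t).filter (fun p => 2 < p) ∪ (pz y).filter (fun p => t < p ∧ p ∣ h),
      (1 : ℝ) ≤ ((p : ℝ) - 1) / ((p : ℝ) - 2) := by
    intro p hp
    apply fac_ge
    rw [mem_union, mem_filter, mem_filter] at hp
    rcases hp with h1 | h1
    · exact h1.2
    · omega
  have h1 : Rh y h ≤ ∏ p ∈ (pz t).filter (fun p => 2 < p) ∪ (pz y).filter (fun p => t < p ∧ p ∣ h),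
      (((p : ℝ) - 1) / ((p : ℝ) - 2)) := by
    unfold Rh
    exact prod_sub_le _ _ _ e hge
  have hdis : Disjoint ((pz t).filter (fun p => 2 < p)) ((pz y).filter (fun p => t < p ∧ p ∣ h)) := by
    rw [Finset.disjoint_left]
    intro p hp hp'
    rw [mem_filter, mem_pz] at hp hp'
    omega
  rw [Finset.prod_union hdis] at h1
  refine h1.trans ?_
  unfold At
  apply mul_le_mul_of_nonneg_left _ (by
    have := At_pos t
    unfold At at this
    linarith)
  have h2 : ∏ p ∈ (pz y).filter (fun p => t < p ∧ p ∣ h), (((p : ℝ) - 1) / ((p : ℝ) - 2)) ≤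
      ∏ _p ∈ (pz y).filter (fun p => t < p ∧ p ∣ h), Real.exp (1 / ((t : ℝ) - 1)) := by
    apply Finset.prod_le_prod
    · intro p hp
      have := fac_ge p (by
        rw [mem_filter] at hp
        omega)
      linarith
    · intro p hp
      rw [mem_filter] at hp
      exact fac_le p t hp.2.1 ht
  refine h2.trans ?_
  rw [Finset.prod_const, ← Real.exp_nat_mul]
  apply Real.exp_le_exp.2
  have h3 := card_primes_le ((pz y).filter (fun p => t < p ∧ p ∣ h)) t h ht hh h le_rfl (fun p hp => by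
    rw [mem_filter] at hp
    exact ⟨(mem_pz.1 hp.1).2, hp.2⟩)
  have h4 : (((pz y).filter (fun p => t < p ∧ p ∣ h)).card : ℝ) ≤ Real.log h / Real.log t := by
    rw [le_div_iff₀ hlt]
    exact h3
  calc (((pz y).filter (fun p => t < p ∧ p ∣ h)).card : ℝ) * (1 / ((t : ℝ) - 1)) ≤
        Real.log h / Real.log t * (1 / ((t : ℝ) - 1)) := by
        apply mul_le_mul_of_nonneg_right h4
        apply div_nonneg zero_le_one
        linarith
    _ = _ := by
        have : (t : ℝ) - 1 ≠ 0 := by linarith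
        field_simp

/-- the products `At` vary slowly -/
lemma At_le (t t' : ℕ) (ht' : 2 ≤ t') (h : t' ≤ t) :
    At t ≤ At t' * Real.exp (t * Real.log 4 / (((t' : ℝ) - 1) * Real.log t')) := by
  have ht2 : (2 : ℝ) ≤ t' := by exact_mod_cast ht'
  have hlt : 0 < Real.log (t' : ℝ) := Real.log_pos (by linarith)
  have e : (pz t).filter (fun p => 2 < p) = (pz t').filter (fun p => 2 < p) ∪ (pz t).filter (fun p => t' < p) := by
    ext p
    simp only [mem_filter, mem_union, mem_pz]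
    constructor
    · rintro ⟨h1, h2⟩
      rcases Nat.lt_or_ge t' p with h3 | h3
      · exact Or.inr ⟨h1, h3⟩
      · exact Or.inl ⟨⟨h3, h1.2⟩, h2⟩
    · rintro (⟨h1, h2⟩ | ⟨h1, h2⟩)
      · exact ⟨⟨by omega, h1.2⟩, h2⟩
      · exact ⟨h1, by omega⟩
  have hdis : Disjoint ((pz t').filter (fun p => 2 < p)) ((pz t).filter (fun p => t' < p)) := by
    rw [Finset.disjoint_left]
    intro p hp hp'
    rw [mem_filter, mem_pz] at hp hp'
    omega
  have h1 : At t = At t' * ∏ p ∈ (pz t).filter (fun p => t' < p), (((p : ℝ) - 1) / ((p : ℝ) - 2)) := by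
    unfold At
    rw [e, Finset.prod_union hdis]
  rw [h1]
  apply mul_le_mul_of_nonneg_left _ (by
    have := At_pos t'
    linarith)
  have h2 : ∏ p ∈ (pz t).filter (fun p => t' < p), (((p : ℝ) - 1) / ((p : ℝ) - 2)) ≤
      ∏ _p ∈ (pz t).filter (fun p => t' < p), Real.exp (1 / ((t' : ℝ) - 1)) := by
    apply Finset.prod_le_prod
    · intro p hp
      have := fac_ge p (by
        rw [mem_filter] at hp
        omega)
      linarith
    · intro p hp
      rw [mem_filter] at hp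
      exact fac_le p t' hp.2 ht'
  refine h2.trans ?_
  rw [Finset.prod_const, ← Real.exp_nat_mul]
  apply Real.exp_le_exp.2
  have h3 := card_primes_le ((pz t).filter (fun p => t' < p)) t' (primorial t) ht' (primorial_pos t)
    ((4 : ℝ) ^ t) (by exact_mod_cast primorial_le_four_pow t) (fun p hp => by
      rw [mem_filter, mem_pz] at hp
      refine ⟨hp.1.2, hp.2, ?_⟩
      unfold primorial
      apply Finset.dvd_prod_of_mem
      rw [mem_filter, mem_range]
      exact ⟨by omega, hp.1.2⟩)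
  rw [Real.log_pow] at h3
  have h4 : (((pz t).filter (fun p => t' < p)).card : ℝ) ≤ t * Real.log 4 / Real.log t' := by
    rw [le_div_iff₀ hlt]
    exact h3
  calc (((pz t).filter (fun p => t' < p)).card : ℝ) * (1 / ((t' : ℝ) - 1)) ≤
        t * Real.log 4 / Real.log t' * (1 / ((t' : ℝ) - 1)) := by
        apply mul_le_mul_of_nonneg_right h4
        apply div_nonneg zero_le_one
        linarith
    _ = _ := by
        have : (t' : ℝ) - 1 ≠ 0 := by linarith
        field_simp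

lemma Rh_primorial (y t : ℕ) (hty : t ≤ y) : At t ≤ Rh y (primorial t) := by
  unfold At Rh
  apply prod_sub_le
  · intro p hp
    rw [mem_filter, mem_pz] at hp
    rw [mem_filter, mem_pz]
    refine ⟨⟨hp.1.1.trans hty, hp.1.2⟩, hp.2, ?_⟩
    unfold primorial
    apply Finset.dvd_prod_of_mem
    rw [mem_filter, mem_range]
    exact ⟨by omega, hp.1.2⟩
  · intro p hp
    exact fac_ge p (mem_filter.1 hp).2.1

end Pool.Agent.R463.EX
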