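import Pool.Agent.R463.EF4
import Pool.Agent.R463.EF5

set_option autoImplicit false

/-!
# The most frequent gaps: extremal shifts, and three bounds for the frequency of a gap
-/

namespace Pool.Agent.R463.EX

open Polynomial Finset Filter
open Pool.Agent.W123.RP Pool.Agent.H373R2.T7 Pool.Agent.W123.RU Pool.Agent.W123.RU.Poly
open Pool.Agent.TH464.PW Pool.Agent.TH464.PO Pool.Agent.Y879.GL Pool.Agent.R463.PP Pool.Agent.R463.PS

lemma dvd_primorial (q t : ℕ) (hq : q.Prime) (h : q ≤ t) : q ∣ primorial t := by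
  unfold primorial
  apply Finset.dvd_prod_of_mem
  rw [mem_filter, mem_range]
  exact ⟨by omega, hq⟩

/-- **Extremal shifts.** -/
theorem extremal (ε : ℝ) (hε : 0 < ε) (M : ℕ) : ∃ Y0 : ℕ, ∀ y : ℕ, Y0 ≤ y → ∃ h0 : ℕ, 1 ≤ h0 ∧
    (h0 : ℝ) ^ 2 ≤ Real.log y ∧ (∀ q : ℕ, q.Prime → q ≤ M → q ∣ h0) ∧ 2 ∣ h0 ∧
    ∀ h : ℕ, 1 ≤ h → (h : ℝ) ≤ Real.log y ^ 4 → Rh y h ≤ (1 + ε) * Rh y h0 := by
  have hlogy : Tendsto (fun y : ℕ => Real.log (y : ℝ)) atTop atTop :=
    Real.tendsto_log_atTop.comp tendsto_natCast_atTop_atTop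
  have hll : Tendsto (fun y : ℕ => Real.log (Real.log (y : ℝ))) atTop atTop :=
    Real.tendsto_log_atTop.comp hlogy
  have hlll : Tendsto (fun y : ℕ => Real.log (Real.log (Real.log (y : ℝ)) / 8)) atTop atTop := by
    apply Real.tendsto_log_atTop.comp
    exact hll.atTop_div_const (by norm_num)
  have hle : 0 < Real.log (1 + ε) := Real.log_pos (by linarith)
  obtain ⟨Y0, hY0⟩ := eventually_atTop.1 (((hll.eventually_ge_atTop (4 * (M + 8))).and
    (hlll.eventually_ge_atTop (20 / Real.log (1 + ε)))).and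
      ((hlogy.eventually_ge_atTop 1).and (eventually_ge_atTop 3)))
  refine ⟨Y0, fun y hy => ?_⟩
  obtain ⟨⟨g1, g2⟩, g3, g4⟩ := hY0 y hy
  obtain ⟨u, hu⟩ : ∃ u : ℝ, u = Real.log (Real.log (y : ℝ)) := ⟨_, rfl⟩
  rw [← hu] at g1 g2
  have hM0 : (0 : ℝ) ≤ M := Nat.cast_nonneg M
  have hu32 : 32 ≤ u := by linarith
  have hyr : (3 : ℝ) ≤ y := by exact_mod_cast g4
  have hly : 0 < Real.log (y : ℝ) := by linarith
  obtain ⟨t, ht⟩ : ∃ t, t = ⌊u⌋₊ := ⟨_, rfl⟩
  obtain ⟨t', ht'⟩ : ∃ t', t' = ⌊u / 4⌋₊ := ⟨_, rfl⟩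
  have ht1 : (t : ℝ) ≤ u := by rw [ht]; exact Nat.floor_le (by linarith)
  have ht2 : u < t + 1 := by rw [ht]; exact Nat.lt_floor_add_one u
  have ht1' : (t' : ℝ) ≤ u / 4 := by rw [ht']; exact Nat.floor_le (by linarith)
  have ht2' : u / 4 < t' + 1 := by rw [ht']; exact Nat.lt_floor_add_one _
  have htt : t' ≤ t := by rw [ht, ht']; exact Nat.floor_le_floor (by linarith)
  have ht7 : 7 ≤ t' := by
    have : (7 : ℝ) ≤ t' := by linarith
    exact_mod_cast this
  have huy : u ≤ y := by
    have h1 := Real.log_le_sub_one_of_pos hly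
    have h2 := Real.log_le_sub_one_of_pos (show (0 : ℝ) < y by linarith)
    rw [hu]
    linarith
  have hty : t' ≤ y := by
    have : (t' : ℝ) ≤ y := by linarith
    exact_mod_cast this
  have hlog4 : Real.log 4 ≤ 3 / 2 := by
    have h1 : Real.log 4 = 2 * Real.log 2 := by
      rw [show (4 : ℝ) = 2 ^ 2 by norm_num, Real.log_pow]
      norm_num
    have := Real.log_two_lt_d9
    linarith
  have hlog4' : 0 < Real.log 4 := Real.log_pos (by norm_num)
  refine ⟨primorial t', primorial_pos t', ?_, ?_, dvd_primorial 2 t' Nat.prime_two (by omega), ?_⟩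
  · have h1 : ((primorial t' : ℕ) : ℝ) ≤ (4 : ℝ) ^ t' := by exact_mod_cast primorial_le_four_pow t'
    have h2 : (4 : ℝ) ^ t' = Real.exp (t' * Real.log 4) := by
      rw [mul_comm, ← Real.rpow_def_of_pos (by norm_num), Real.rpow_natCast]
    calc ((primorial t' : ℕ) : ℝ) ^ 2 ≤ ((4 : ℝ) ^ t') ^ 2 := pow_le_pow_left₀ (Nat.cast_nonneg _) h1 2
      _ = Real.exp (2 * (t' * Real.log 4)) := by
          rw [h2, ← Real.exp_nat_mul]
          norm_num
      _ ≤ Real.exp u := by
          apply Real.exp_le_exp.2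
          have h3 : (t' : ℝ) * Real.log 4 ≤ u / 4 * (3 / 2) := by
            apply mul_le_mul ht1' hlog4 hlog4'.le (by linarith)
          linarith
      _ = Real.log y := by rw [hu, Real.exp_log hly]
  · intro q hq hqM
    apply dvd_primorial q t' hq
    have h1 : (q : ℝ) ≤ M := by exact_mod_cast hqM
    have h2 : (q : ℝ) ≤ t' := by linarith
    exact_mod_cast h2
  · intro h hh1 hh2
    have htr : (7 : ℝ) ≤ t' := by exact_mod_cast ht7
    have hu8 : 1 < u / 8 := by linarith
    have hl8 : 0 < Real.log (u / 8) := Real.log_pos hu8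
    have hlt' : Real.log (u / 8) ≤ Real.log t' := Real.log_le_log (by linarith) (by linarith)
    have hlt : Real.log (u / 8) ≤ Real.log t := Real.log_le_log (by linarith) (by linarith)
    have h1 := Rh_le y h t (by omega) hh1
    have h2 := At_le t t' (by omega) htt
    have h3 := Rh_primorial y t' hty
    have hh1r : (1 : ℝ) ≤ h := by exact_mod_cast hh1
    have hlh : Real.log h ≤ 4 * u := by
      have h4 := Real.log_le_log (by linarith) hh2
      rw [Real.log_pow] at h4
      rw [hu]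
      exact_mod_cast h4
    have hlh0 : 0 ≤ Real.log (h : ℝ) := Real.log_nonneg hh1r
    have e1 : Real.log h / (((t : ℝ) - 1) * Real.log t) ≤ 8 / Real.log (u / 8) := by
      rw [div_le_div_iff₀ (mul_pos (by linarith) (by linarith)) hl8]
      calc Real.log h * Real.log (u / 8) ≤ 4 * u * Real.log (u / 8) :=
            mul_le_mul_of_nonneg_right hlh hl8.le
        _ ≤ 8 * (((t : ℝ) - 1) * Real.log (u / 8)) := by nlinarith
        _ ≤ 8 * (((t : ℝ) - 1) * Real.log t) := by
            apply mul_le_mul_of_nonneg_left _ (by norm_num)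
            exact mul_le_mul_of_nonneg_left hlt (by linarith)
    have e2 : t * Real.log 4 / (((t' : ℝ) - 1) * Real.log t') ≤ 12 / Real.log (u / 8) := by
      rw [div_le_div_iff₀ (mul_pos (by linarith) (by linarith)) hl8]
      have h5 : (t : ℝ) * Real.log 4 ≤ u * (3 / 2) := mul_le_mul ht1 hlog4 hlog4'.le (by linarith)
      calc (t : ℝ) * Real.log 4 * Real.log (u / 8) ≤ u * (3 / 2) * Real.log (u / 8) :=
            mul_le_mul_of_nonneg_right h5 hl8.le
        _ ≤ 12 * (((t' : ℝ) - 1) * Real.log (u / 8)) := by nlinarith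
        _ ≤ 12 * (((t' : ℝ) - 1) * Real.log t') := by
            apply mul_le_mul_of_nonneg_left _ (by norm_num)
            exact mul_le_mul_of_nonneg_left hlt' (by linarith)
    have hexp : Real.exp (12 / Real.log (u / 8)) * Real.exp (8 / Real.log (u / 8)) ≤ 1 + ε := by
      rw [← Real.exp_add, ← add_div]
      have h5 : (12 + 8) / Real.log (u / 8) ≤ Real.log (1 + ε) := by
        rw [div_le_iff₀ hl8]
        rw [div_le_iff₀ hle] at g2
        linarith
      calc Real.exp ((12 + 8) / Real.log (u / 8)) ≤ Real.exp (Real.log (1 + ε)) := Real.exp_le_exp.2 h5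
        _ = 1 + ε := Real.exp_log (by linarith)
    have hA0 : 0 ≤ At t' := by
      have := At_pos t'
      linarith
    calc Rh y h ≤ At t * Real.exp (Real.log h / (((t : ℝ) - 1) * Real.log t)) := h1
      _ ≤ (At t' * Real.exp (t * Real.log 4 / (((t' : ℝ) - 1) * Real.log t'))) *
          Real.exp (8 / Real.log (u / 8)) := by
          apply mul_le_mul h2 (Real.exp_le_exp.2 e1) (Real.exp_pos _).le
          exact mul_nonneg hA0 (Real.exp_pos _).le
      _ ≤ (At t' * Real.exp (12 / Real.log (u / 8))) * Real.exp (8 / Real.log (u / 8)) := by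
          apply mul_le_mul_of_nonneg_right _ (Real.exp_pos _).le
          exact mul_le_mul_of_nonneg_left (Real.exp_le_exp.2 e2) hA0
      _ = At t' * (Real.exp (12 / Real.log (u / 8)) * Real.exp (8 / Real.log (u / 8))) := by ring
      _ ≤ At t' * (1 + ε) := mul_le_mul_of_nonneg_left hexp hA0
      _ ≤ Rh y (primorial t') * (1 + ε) := mul_le_mul_of_nonneg_right h3 (by linarith)
      _ = _ := mul_comm _ _

/-- the number of the pairs `n, n + h` of consecutive integers without prime factors `p ≤ y`,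
`Z < n ≤ Z + Y` -/
noncomputable def Gp (y Z Y h : ℕ) : ℕ := exN Qi {0, h} h y Z Y

lemma pair_image (h p : ℕ) (hp : p.Prime) (b : ℕ) :
    (({b, b + h} : Finset ℕ).image (· % p)).card = if p ∣ h then 1 else 2 := by
  rw [image_insert, image_singleton]
  split_ifs with h1
  · have : (b + h) % p = b % p := by
      obtain ⟨c, rfl⟩ := h1
      exact Nat.add_mul_mod_self_left _ _ _
    rw [this, pair_eq_singleton, card_singleton]
  · rw [card_pair]
    intro h2
    apply h1
    have h3 : b + 0 ≡ b + h [MOD p] := h2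
    have h4 : 0 ≡ h [MOD p] := Nat.ModEq.add_left_cancel' b h3
    exact (Nat.modEq_zero_iff_dvd).1 h4.symm

lemma Vq_pair (y h b : ℕ) : Vq (QH Qi {b, b + h}) y = Vp y h := by
  unfold Vq Vp
  apply Finset.prod_congr rfl
  intro p hp
  rw [nuB_QH_Qi _ p (mem_pz.1 hp).2, pair_image h p (mem_pz.1 hp).2 b]

open Classical in
/-- the gaps are disjoint -/
lemma Gp_trivial (y Z Y h : ℕ) : Gp y Z Y h * h ≤ Y + h := by
  unfold Gp exN
  obtain ⟨S, hS⟩ : ∃ S, S = (Icc (Z + 1) (Z + Y)).filter
    (fun n => ∀ j ≤ h, Sf Qi y (n + j) ↔ j ∈ ({0, h} : Finset ℕ)) := ⟨_, rfl⟩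
  rw [← hS]
  have key : ∀ n ∈ S, ∀ n' ∈ S, n < n' → n + h ≤ n' := by
    intro n hn n' hn' hlt
    by_contra hcon
    rw [hS, mem_filter] at hn hn'
    have h1 : Sf Qi y n' := by
      have := (hn'.2 0 (Nat.zero_le _)).2 (by simp)
      rwa [add_zero] at this
    have h2 := hn.2 (n' - n) (by omega)
    rw [show n + (n' - n) = n' by omega] at h2
    have h3 := h2.1 h1
    rw [mem_insert, mem_singleton] at h3
    omega
  have hdis : (S : Set ℕ).PairwiseDisjoint (fun n => Ico n (n + h)) := by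
    intro n hn n' hn' hne
    rw [Function.onFun, Finset.disjoint_left]
    intro x hx hx'
    rw [mem_Ico] at hx hx'
    rcases Nat.lt_or_gt_of_ne hne with h1 | h1
    · have := key n hn n' hn' h1
      omega
    · have := key n' hn' n hn h1
      omega
  have h1 := card_biUnion (fun n hn n' hn' hne => hdis hn hn' hne)
  rw [Finset.sum_congr rfl (fun n _ => by rw [Nat.card_Ico, Nat.add_sub_cancel_left]), Finset.sum_const,
    smul_eq_mul] at h1
  rw [← h1]
  have h2 : S.biUnion (fun n => Ico n (n + h)) ⊆ Ioc Z (Z + Y + h) := by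
    intro x hx
    rw [mem_biUnion] at hx
    obtain ⟨n, hn, hx⟩ := hx
    rw [hS, mem_filter, mem_Icc] at hn
    rw [mem_Ico] at hx
    rw [mem_Ioc]
    omega
  have h3 := card_le_card h2
  rw [Nat.card_Ioc] at h3
  omega

open Classical in
/-- only the first part of a long gap is used -/
lemma Gp_far (y Z Y h T : ℕ) (hT : T + 1 ≤ h) :
    Gp y Z Y h ≤ exJ Qi (Jw {0, h} (fun d => if d = 0 then T + 1 else 1)) {1, 1 + h} y (Z - 1) Y + 1 := by
  unfold Gp exN exJ
  obtain ⟨S, hS⟩ : ∃ S, S = (Icc (Z + 1) (Z + Y)).filter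
    (fun n => ∀ j ≤ h, Sf Qi y (n + j) ↔ j ∈ ({0, h} : Finset ℕ)) := ⟨_, rfl⟩
  rw [← hS]
  have h1 : S.card = (S.filter (fun n => 2 ≤ n)).card + (S.filter (fun n => ¬ 2 ≤ n)).card :=
    (card_filter_add_card_filter_not (fun n => 2 ≤ n)).symm
  have h2 : (S.filter (fun n => ¬ 2 ≤ n)).card ≤ 1 := by
    have : S.filter (fun n => ¬ 2 ≤ n) ⊆ {1} := by
      intro n hn
      rw [mem_filter, hS, mem_filter, mem_Icc] at hn
      rw [mem_singleton]
      omega
    refine (card_le_card this).trans ?_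
    rw [card_singleton]
  have h3 : (S.filter (fun n => 2 ≤ n)).card ≤ ((Icc (Z - 1 + 1) (Z - 1 + Y)).filter
      (fun n => ∀ j ∈ Jw {0, h} (fun d => if d = 0 then T + 1 else 1),
        Sf Qi y (n + j) ↔ j ∈ ({1, 1 + h} : Finset ℕ))).card := by
    apply Finset.card_le_card_of_injOn (fun n => n - 1)
    · intro n hn
      rw [Finset.mem_coe, mem_filter, hS, mem_filter, mem_Icc] at hn
      obtain ⟨⟨hn1, hn2⟩, hn3⟩ := hn
      rw [Finset.mem_coe, mem_filter, mem_Icc]
      beta_reduce
      refine ⟨⟨by omega, by omega⟩, ?_⟩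
      intro j hj
      unfold Jw at hj
      rw [mem_biUnion] at hj
      obtain ⟨d, hd, hj⟩ := hj
      rw [mem_insert, mem_singleton] at hd
      rw [mem_Ioc] at hj
      beta_reduce at hj
      have hj1 : 1 ≤ j ∧ j ≤ h + 1 := by
        rcases hd with rfl | rfl
        · rw [if_pos rfl] at hj
          omega
        · split_ifs at hj <;> omega
      have h4 := hn2 (j - 1) (by omega)
      rw [show n + (j - 1) = n - 1 + j by omega] at h4
      rw [h4, mem_insert, mem_singleton, mem_insert, mem_singleton]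
      omega
    · intro n hn n' hn' e
      rw [Finset.mem_coe, mem_filter] at hn hn'
      have : n - 1 = n' - 1 := e
      omega
  omega

end Pool.Agent.R463.EX
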