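import Pool.Agent.R463.EF6

set_option autoImplicit false

/-!
# The most frequent gaps between the integers without small prime factors
-/

namespace Pool.Agent.R463.EX

open Polynomial Finset Filter
open Pool.Agent.W123.RP Pool.Agent.H373R2.T7 Pool.Agent.W123.RU Pool.Agent.W123.RU.Poly
open Pool.Agent.TH464.PW Pool.Agent.TH464.PO Pool.Agent.Y879.GL Pool.Agent.R463.PP Pool.Agent.R463.PS

lemma Vz_Qi' (y : ℕ) : Vq Qi y = Vz y := by
  rw [Vq_Qi]
  rfl

lemma Vp2_ge : ∃ v : ℝ, 0 < v ∧ ∀ y : ℕ, 2 ≤ y → v / Real.log y ^ 2 ≤ Vp y 2 := by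
  obtain ⟨v, hv, hV⟩ := V_lower_unif 2
  refine ⟨v, hv, fun y hy => ?_⟩
  have hper := perB_QH Qi 1 perB_Qi {0, 0 + 2}
  have hc : (({0, 0 + 2} : Finset ℕ).card) * 1 = 2 := by decide
  rw [hc] at hper
  have h1 := hV (QH Qi {0, 0 + 2}) hper (fun p hp => by
    rw [nuB_QH_Qi _ p hp, pair_image 2 p hp 0]
    have h2 := hp.two_le
    split_ifs with h3
    · omega
    · rcases Nat.lt_or_ge 2 p with h4 | h4
      · exact h4
      · exfalso
        apply h3
        rw [le_antisymm h4 h2]) y hy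
  rwa [Vq_pair] at h1

/-- the asymptotic formula for the number of the gaps of length `h` -/
lemma Gp_asym (ε : ℝ) (hε : 0 < ε) : ∃ s y0 : ℕ, ∀ y : ℕ, y0 ≤ y → ∀ Z Y : ℕ, y ^ s ≤ Y → ∀ h : ℕ,
    1 ≤ h → h * Vq Qi y ≤ 4 →
    |(Gp y Z Y h : ℝ) - Y * Vp y h * Real.exp (-(h * Vq Qi y))| ≤
      ε * (Y * Vp y h * Real.exp (-(h * Vq Qi y))) := by
  obtain ⟨s, y0, h0⟩ := patt_rough 2 (by norm_num) 4 ε hε
  refine ⟨s, y0, fun y hy Z Y hY h hh1 hh4 => ?_⟩
  have h1 := h0 y hy Z Y hY {0, h} (card_pair (by omega)) (by simp) h (by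
    intro x hx
    rw [mem_insert, mem_singleton] at hx
    rw [mem_range]
    omega) hh4
  have h2 : Vq (QH Qi {0, h}) y = Vp y h := by
    have := Vq_pair y h 0
    rwa [zero_add] at this
  rw [h2] at h1
  exact h1

/-- an upper bound for the number of the long gaps of length `h` -/
lemma Gp_long (ε : ℝ) (hε : 0 < ε) : ∃ s y0 : ℕ, ∀ y : ℕ, y0 ≤ y → ∀ Z Y : ℕ, y ^ s ≤ Y → ∀ h : ℕ,
    3 < h * Vq Qi y → h + 1 ≤ y →
    (Gp y Z Y h : ℝ) ≤ (1 + ε) * (Y * Vp y h / 8) + 1 := by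
  obtain ⟨s, y0, h0⟩ := pattF 2 2 (by norm_num) (by norm_num) 4 ε 1 hε
  refine ⟨s, max y0 2, fun y hy Z Y hY h hh3 hhy => ?_⟩
  have hy0 : y0 ≤ y := (le_max_left _ _).trans hy
  have hy2 : 2 ≤ y := (le_max_right _ _).trans hy
  have hV0 : 0 < Vq Qi y := by
    rcases (Vq_nonneg Qi y).eq_or_lt with h1 | h1
    · rw [← h1, mul_zero] at hh3
      linarith
    · exact h1
  have hV1 : Vq Qi y ≤ 1 := Vq_le_one _ y
  obtain ⟨T, hT⟩ : ∃ T, T = ⌊3 / Vq Qi y⌋₊ := ⟨_, rfl⟩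
  have hT1 : (T : ℝ) ≤ 3 / Vq Qi y := by rw [hT]; exact Nat.floor_le (by positivity)
  have hT2 : 3 / Vq Qi y < T + 1 := by rw [hT]; exact Nat.lt_floor_add_one _
  have hTV : (T : ℝ) * Vq Qi y ≤ 3 := by rwa [le_div_iff₀ hV0] at hT1
  have hTV2 : 3 < ((T : ℝ) + 1) * Vq Qi y := by rwa [div_lt_iff₀ hV0] at hT2
  have hTh : T + 1 ≤ h := by
    have h1 : (T : ℝ) < h := by
      by_contra hcon
      push Not at hcon
      have := mul_le_mul_of_nonneg_right hcon hV0.le
      linarith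
    have h2 : T < h := by exact_mod_cast h1
    omega
  obtain ⟨l, hl⟩ : ∃ l : ℕ → ℕ, l = fun d => if d = 0 then T + 1 else 1 := ⟨_, rfl⟩
  have hl0 : l 0 = T + 1 := by rw [hl]; exact if_pos rfl
  have hlh : l h = 1 := by rw [hl]; exact if_neg (by omega)
  have hJ : Jw {0, h} l = Ioc 0 (T + 1) ∪ Ioc h (h + 1) := by
    unfold Jw
    rw [biUnion_insert, singleton_biUnion, hl0, hlh, zero_add]
  have hdis : Disjoint (Ioc 0 (T + 1)) (Ioc h (h + 1)) := by
    rw [Finset.disjoint_left]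
    intro x hx hx'
    rw [mem_Ioc] at hx hx'
    omega
  have hJc : (Jw {0, h} l).card = T + 2 := by
    rw [hJ, card_union_of_disjoint hdis, Nat.card_Ioc, Nat.card_Ioc]
    omega
  have h1 := h0 y hy0 (Z - 1) Y hY {0, h} l (card_le_two) (by
    intro d hd d' hd' hne
    rw [Finset.mem_coe, mem_insert, mem_singleton] at hd hd'
    rcases hd with rfl | rfl <;> rcases hd' with rfl | rfl
    · exact absurd rfl hne
    · rw [Function.onFun, hl0, hlh, zero_add]
      exact hdis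
    · rw [Function.onFun, hl0, hlh, zero_add]
      exact hdis.symm
    · exact absurd rfl hne) (by
    intro d hd
    rw [mem_insert, mem_singleton] at hd
    rcases hd with rfl | rfl
    · rw [hl0, pow_one]
      omega
    · rw [hlh, pow_one]
      omega) (by
    intro d hd
    rw [mem_insert, mem_singleton] at hd
    rcases hd with rfl | rfl
    · rw [hl0]
      push_cast
      linarith
    · rw [hlh]
      push_cast
      linarith) {1, 1 + h} (by
    intro x hx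
    rw [mem_insert, mem_singleton] at hx
    rw [hJ, mem_union, mem_Ioc, mem_Ioc]
    omega) (card_pair (by omega))
  rw [Vq_pair, hJc] at h1
  have h2 := Gp_far y Z Y h T hTh
  rw [← hl] at h2
  have h2' : (Gp y Z Y h : ℝ) ≤ (exJ Qi (Jw {0, h} l) {1, 1 + h} y (Z - 1) Y : ℝ) + 1 := by exact_mod_cast h2
  have hVp0 : 0 ≤ Vp y h := by
    rw [← Vq_pair y h 0]
    exact Vq_nonneg _ y
  have h3 : Real.exp (-(((T + 2 : ℕ) : ℝ) * Vq Qi y)) ≤ 1 / 8 := by
    have h4 : -(((T + 2 : ℕ) : ℝ) * Vq Qi y) ≤ -3 := by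
      push_cast
      nlinarith
    have h5 : Real.exp (-3) ≤ 1 / 8 := by
      rw [Real.exp_neg, ← one_div]
      apply one_div_le_one_div_of_le (by norm_num)
      have h6 : (2 : ℝ) ≤ Real.exp 1 := by
        have := Real.exp_one_gt_d9
        linarith
      calc (8 : ℝ) = 2 ^ 3 := by norm_num
        _ ≤ Real.exp 1 ^ 3 := pow_le_pow_left₀ (by norm_num) h6 3
        _ = Real.exp 3 := by
            rw [← Real.exp_nat_mul]
            norm_num
    exact (Real.exp_le_exp.2 h4).trans h5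
  have h4 := (abs_le.1 h1).2
  have h5 : Y * Vp y h * Real.exp (-(((T + 2 : ℕ) : ℝ) * Vq Qi y)) ≤ Y * Vp y h / 8 := by
    have : (0 : ℝ) ≤ Y * Vp y h := by positivity
    calc Y * Vp y h * Real.exp (-(((T + 2 : ℕ) : ℝ) * Vq Qi y)) ≤ Y * Vp y h * (1 / 8) :=
          mul_le_mul_of_nonneg_left h3 this
      _ = _ := by ring
  have h6 := mul_le_mul_of_nonneg_left h5 (by linarith : (0 : ℝ) ≤ 1 + ε)
  linarith

end Pool.Agent.R463.EX
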