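import Pool.Agent.R463.EX7

set_option autoImplicit false

/-!
# Exact patterns after primes
-/

namespace Pool.Agent.R463.EX

open Finset Filter Pool.Agent.H373R2.T7 Pool.Agent.W123.RP Pool.Agent.W123.RU Pool.Agent.TH464.PO
open Pool.Agent.R463.PP Pool.Agent.Y879.PR

open Classical in
/-- the number of the integers `u < n ≤ u + Y` with `a n + b` prime for which the sifted integers in
`[n, n + L]` are exactly the integers `n + h`, `h ∈ H` -/
noncomputable def exP (a b : ℕ) (Q : ℕ → ℕ → Prop) (H : Finset ℕ) (L y u Y : ℕ) : ℕ :=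
  ((Ioc u (u + Y)).filter (fun n => (a * n + b).Prime ∧ ∀ h ≤ L, Sf Q y (n + h) ↔ h ∈ H)).card

open Classical in
lemma exP_eq (a b : ℕ) (Q : ℕ → ℕ → Prop) (H : Finset ℕ) (L y u Y : ℕ) (h0 : 0 ∈ H)
    (hL : H ⊆ range (L + 1)) : exP a b Q H L y u Y =
      ((Om a b (QH Q H) y u Y).filter (fun n => NX Q y (Icc 1 L \ H) n ∈ ({0} : Finset ℕ))).card := by
  unfold exP Om
  rw [Finset.filter_filter]
  congr 1
  apply Finset.filter_congr
  intro n _
  rw [sf_QH, mem_singleton, and_assoc]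
  apply and_congr Iff.rfl
  unfold NX
  rw [Finset.card_eq_zero, Finset.filter_eq_empty_iff]
  constructor
  · intro h
    refine ⟨fun x hx => (h x ?_).2 hx, fun x hx hs => ?_⟩
    · have := mem_range.1 (hL hx)
      omega
    · rw [Finset.mem_sdiff, mem_Icc] at hx
      exact hx.2 ((h x hx.1.2).1 hs)
  · rintro ⟨h1, h2⟩ x hx
    refine ⟨fun hs => ?_, fun hh => h1 x hh⟩
    by_contra hcon
    have hx0 : x ≠ 0 := by
      rintro rfl
      exact hcon h0
    exact h2 (Finset.mem_sdiff.2 ⟨mem_Icc.2 ⟨by omega, hx⟩, hcon⟩) hs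

open Classical in
/-- **The exact patterns after primes.** -/
theorem pattP0 (a c g C : ℕ) (ha : Squarefree a) (hg : 1 ≤ g) (x0 ε δ : ℝ) (hε : 0 < ε)
    (hε1 : ε ≤ 1) (hδ : 0 < δ) (hδ1 : δ ≤ 1) :
    ∃ (K y0 T0 : ℕ) (η' κ x1 : ℝ), 0 < η' ∧ 0 < κ ∧ 0 < x1 ∧ ∀ X y : ℕ, y0 ≤ y → y ^ K ≤ X →
      ∀ b : ℕ, b ≤ X → Nat.Coprime a b → ∀ Q : ℕ → ℕ → Prop, PerB Q c →
      (∀ p : ℕ, p.Prime → nuB Q p < p) → Vq Q y ≤ κ →
      (∀ T : ℕ, κ ≤ T * Vq Q y → T * Vq Q y ≤ x1 → T0 ≤ T ∧ ∀ t ∈ Icc 1 T,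
        ((((pz y).filter (fun p : ℕ => T < p ∧ CoG Q p t)).card : ℕ) : ℝ) ≤ η' * T) →
      ∀ H : Finset ℕ, H.card = g → 0 ∈ H →
      (∀ S : Finset ℕ, Base a b ((H ∪ S).card * c) (QH Q (H ∪ S))) → 1 / Real.log X ^ C ≤ Vq (QH Q H) y →
      ∀ L : ℕ, H ⊆ range (L + 1) → L * Vq Q y ≤ x0 →
      ∀ u Y : ℕ, δ * X ≤ u → δ * X ≤ Y → u + Y ≤ X →
      |(exP a b Q H L y u Y : ℝ) * Real.log X -
          Y * (Vq (QH Q H) y / Vz y) * Real.exp (-(L * Vq Q y))| ≤
        ε * (Y * (Vq (QH Q H) y / Vz y)) := by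
  obtain ⟨z, hz⟩ : ∃ z : ℝ, z = max x0 1 := ⟨_, rfl⟩
  have hz1 : 1 ≤ z := by rw [hz]; exact le_max_right _ _
  have hzx : x0 ≤ z := by rw [hz]; exact le_max_left _ _
  obtain ⟨K0, y0, T0, η', hη', hlaw⟩ := lawP a c g C ha hg z (ε / 8) δ (by linarith) (by positivity)
    (by linarith) hδ hδ1 (fun w => Mw w + 2 * g) (fun w => by positivity)
  have hgr : (1 : ℝ) ≤ g := by exact_mod_cast hg
  obtain ⟨κ, hκ⟩ : ∃ κ : ℝ, κ = ε / (16 * g) := ⟨_, rfl⟩
  have hκ0 : 0 < κ := by rw [hκ]; positivity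
  have hκa : κ * g ≤ ε / 16 := by
    rw [hκ]
    apply le_of_eq
    field_simp
  have hκε : κ ≤ ε / 16 := by
    refine le_trans ?_ hκa
    nlinarith
  refine ⟨K0, y0 + 3, T0, η', κ, z, hη', hκ0, by linarith, ?_⟩
  intro X y hy hyX b hbX hab Q hQ hadm hVκ hT H hHg h0 hB hVH L hHL hLx u Y hu hY huY
  have hyX' : 1 ≤ X := (Nat.one_le_pow _ _ (by omega)).trans hyX
  have hl0 : 0 ≤ Real.log X := Real.log_nonneg (by exact_mod_cast hyX')
  have hV0 : 0 < Vq Q y := Vq_pos Q hadm y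
  obtain ⟨V, hV⟩ : ∃ V, V = Vq Q y := ⟨_, rfl⟩
  obtain ⟨M, hM⟩ : ∃ M : ℝ, M = Y * (Vq (QH Q H) y / Vz y) := ⟨_, rfl⟩
  have hM0 : 0 ≤ M := by
    rw [hM]
    exact mul_nonneg (Nat.cast_nonneg _) (div_nonneg (Vq_nonneg _ y) (Pool.Agent.H373R2.T7.Vz_pos y).le)
  -- the law for a window of length `T`
  have key : ∀ T : ℕ, κ ≤ T * Vq Q y → T * Vq Q y ≤ z → H ⊆ range (T + 1) →
      |((Om a b (QH Q H) y u Y).card : ℝ) * Real.log X - M| ≤ ε / 8 * M ∧
      |(exP a b Q H T y u Y : ℝ) * Real.log X - ((Om a b (QH Q H) y u Y).card : ℝ) * Real.log X *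
        Real.exp (-((Icc 1 T \ H).card * Vq Q y))| ≤
        ε / 8 * (((Om a b (QH Q H) y u Y).card : ℝ) * Real.log X) := by
    intro T h1 h2 h3
    obtain ⟨t1, t3⟩ := hT T h1 h2
    have h4 := hlaw X y T (by omega) hyX t1 b hbX hab Q hQ hadm h2 t3 H hHg h0 hB h3 hVH (Icc 1 T \ H)
      Finset.sdiff_subset Finset.disjoint_sdiff (fun w m => by
        have := windowR Q c hQ H w m T
        rw [hHg] at this
        exact this) u Y hu hY huY
    rw [← hM] at h4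
    refine ⟨h4.1, ?_⟩
    have h5 := h4.2 {0}
    rw [← exP_eq a b Q H T y u Y h0 h3] at h5
    have h6 : |(exP a b Q H T y u Y : ℝ) - ((Om a b (QH Q H) y u Y).card : ℝ) *
        Real.exp (-((Icc 1 T \ H).card * Vq Q y))| ≤ ε / 8 * ((Om a b (QH Q H) y u Y).card : ℝ) := by
      simpa using h5
    have h7 := mul_le_mul_of_nonneg_right h6 hl0
    rw [← abs_of_nonneg hl0, ← abs_mul, abs_of_nonneg hl0] at h7
    have e1 : (exP a b Q H T y u Y : ℝ) * Real.log X - ((Om a b (QH Q H) y u Y).card : ℝ) * Real.log X *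
        Real.exp (-((Icc 1 T \ H).card * Vq Q y)) = ((exP a b Q H T y u Y : ℝ) -
        ((Om a b (QH Q H) y u Y).card : ℝ) * Real.exp (-((Icc 1 T \ H).card * Vq Q y))) *
          Real.log X := by ring
    have e2 : ε / 8 * (((Om a b (QH Q H) y u Y).card : ℝ) * Real.log X) =
        ε / 8 * ((Om a b (QH Q H) y u Y).card : ℝ) * Real.log X := by ring
    rw [e1, e2]
    exact h7
  rw [← hM, ← hV]
  rw [← hV] at hLx key hV0 hVκ
  have hcardW : ∀ T : ℕ, (T : ℝ) - g ≤ (Icc 1 T \ H).card ∧ ((Icc 1 T \ H).card : ℝ) ≤ T := by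
    intro T
    have e2 : (Icc 1 T \ H).card + (Icc 1 T ∩ H).card = T := by
      rw [Finset.card_sdiff_add_card_inter, Nat.card_Icc, Nat.add_sub_cancel]
    have h3 : (Icc 1 T ∩ H).card ≤ g := by
      rw [← hHg]
      exact card_le_card Finset.inter_subset_right
    have e2r : ((Icc 1 T \ H).card : ℝ) + ((Icc 1 T ∩ H).card : ℝ) = T := by exact_mod_cast e2
    have h3r : ((Icc 1 T ∩ H).card : ℝ) ≤ g := by exact_mod_cast h3
    have h3s : (0 : ℝ) ≤ ((Icc 1 T ∩ H).card : ℝ) := Nat.cast_nonneg _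
    constructor <;> linarith
  obtain ⟨N, hN⟩ : ∃ N : ℝ, N = ((Om a b (QH Q H) y u Y).card : ℝ) * Real.log X := ⟨_, rfl⟩
  have hN0 : 0 ≤ N := by rw [hN]; positivity
  rw [← hN] at key
  by_cases hcase : κ ≤ L * V
  · obtain ⟨k1, k2⟩ := key L hcase (hLx.trans hzx) hHL
    obtain ⟨c1, c2⟩ := hcardW L
    obtain ⟨w, hw⟩ : ∃ w : ℝ, w = ((Icc 1 L \ H).card : ℝ) := ⟨_, rfl⟩
    rw [← hw] at k2 c1 c2
    have hw0 : 0 ≤ w := by rw [hw]; exact Nat.cast_nonneg _
    obtain ⟨e0, he0⟩ : ∃ e0 : ℝ, e0 = (exP a b Q H L y u Y : ℝ) * Real.log X := ⟨_, rfl⟩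
    rw [← he0] at k2 ⊢
    have h1 := exp_sub_le (w * V) (L * V) (by positivity) (by positivity)
    have h2 : |w * V - L * V| ≤ ε / 16 := by
      rw [← sub_mul, abs_mul, abs_of_nonneg hV0.le, abs_of_nonpos (by linarith)]
      have h3 : -(w - L) * V ≤ g * κ := mul_le_mul (by linarith) hVκ hV0.le (by linarith)
      linarith
    have hN2 : N ≤ 2 * M := by
      have h3 := (abs_le.1 k1).2
      nlinarith
    have he0 : 0 < Real.exp (-(w * V)) := Real.exp_pos _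
    have he1 : Real.exp (-(w * V)) ≤ 1 := Real.exp_le_one_iff.2 (by
      have : 0 ≤ w * V := by positivity
      linarith)
    have e : e0 - M * Real.exp (-(L * V)) =
        (e0 - N * Real.exp (-(w * V))) + (N - M) * Real.exp (-(w * V)) +
          M * (Real.exp (-(w * V)) - Real.exp (-(L * V))) := by ring
    rw [e]
    refine (abs_add_le _ _).trans ?_
    have h3 := abs_add_le (e0 - N * Real.exp (-(w * V))) ((N - M) * Real.exp (-(w * V)))
    have h4 : |(N - M) * Real.exp (-(w * V))| ≤ ε / 8 * M := by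
      rw [abs_mul, abs_of_pos he0]
      calc |N - M| * Real.exp (-(w * V)) ≤ |N - M| * 1 := by gcongr
        _ ≤ _ := by linarith
    have h5 : |M * (Real.exp (-(w * V)) - Real.exp (-(L * V)))| ≤ M * (ε / 16) := by
      rw [abs_mul, abs_of_nonneg hM0]
      exact mul_le_mul_of_nonneg_left (h1.trans h2) hM0
    have h6 : ε / 8 * N ≤ ε / 8 * (2 * M) := by gcongr
    have h7 : 0 ≤ ε * M := by positivity
    linarith
  · rw [not_le] at hcase
    obtain ⟨T, w1, w2, w3⟩ := exists_window V κ hV0 hVκ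
    have hLT := w3 L hcase
    have hHT : H ⊆ range (T + 1) := hHL.trans (Finset.range_subset_range.2 (by omega))
    obtain ⟨k1, k2⟩ := key T w1 (w2.trans (by linarith)) hHT
    obtain ⟨c1, c2⟩ := hcardW T
    obtain ⟨w, hw⟩ : ∃ w : ℝ, w = ((Icc 1 T \ H).card : ℝ) := ⟨_, rfl⟩
    rw [← hw] at k2 c1 c2
    have hw0 : 0 ≤ w := by rw [hw]; exact Nat.cast_nonneg _
    have hN2 : N ≤ 2 * M := by
      have h3 := (abs_le.1 k1).2
      nlinarith
    have hlow : (exP a b Q H T y u Y : ℝ) * Real.log X ≤ exP a b Q H L y u Y * Real.log X := by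
      apply mul_le_mul_of_nonneg_right _ hl0
      rw [exP_eq a b Q H T y u Y h0 hHT, exP_eq a b Q H L y u Y h0 hHL]
      have : ((Om a b (QH Q H) y u Y).filter (fun n => NX Q y (Icc 1 T \ H) n ∈ ({0} : Finset ℕ))).card ≤
          ((Om a b (QH Q H) y u Y).filter (fun n => NX Q y (Icc 1 L \ H) n ∈ ({0} : Finset ℕ))).card := by
        apply card_le_card
        intro n hn
        rw [mem_filter, mem_singleton] at hn ⊢
        refine ⟨hn.1, ?_⟩
        have h5 : NX Q y (Icc 1 L \ H) n ≤ NX Q y (Icc 1 T \ H) n := by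
          unfold NX
          apply card_le_card
          intro h hh
          rw [mem_filter, Finset.mem_sdiff, mem_Icc] at hh ⊢
          exact ⟨⟨⟨hh.1.1.1, hh.1.1.2.trans hLT⟩, hh.1.2⟩, hh.2⟩
        omega
      exact_mod_cast this
    have hup : (exP a b Q H L y u Y : ℝ) * Real.log X ≤ N := by
      rw [hN]
      apply mul_le_mul_of_nonneg_right _ hl0
      rw [exP_eq a b Q H L y u Y h0 hHL]
      exact_mod_cast card_filter_le _ _
    obtain ⟨e1, he1⟩ : ∃ e1 : ℝ, e1 = (exP a b Q H T y u Y : ℝ) * Real.log X := ⟨_, rfl⟩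
    obtain ⟨e0, he0⟩ : ∃ e0 : ℝ, e0 = (exP a b Q H L y u Y : ℝ) * Real.log X := ⟨_, rfl⟩
    rw [← he1] at k2 hlow
    rw [← he0] at hlow hup ⊢
    have hexpw : 1 - 2 * κ ≤ Real.exp (-(w * V)) := by
      have h1 := Real.add_one_le_exp (-(w * V))
      have h2 : w * V ≤ T * V := mul_le_mul_of_nonneg_right c2 hV0.le
      linarith
    have hexpL : 1 - κ ≤ Real.exp (-(L * V)) := by
      have h1 := Real.add_one_le_exp (-(L * V))
      linarith
    have hexpL1 : Real.exp (-(L * V)) ≤ 1 := Real.exp_le_one_iff.2 (by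
      have : 0 ≤ L * V := by positivity
      linarith)
    obtain ⟨q1, q2⟩ := abs_le.1 k1
    obtain ⟨r1, r2⟩ := abs_le.1 k2
    have h1 : N * (1 - 2 * κ) ≤ N * Real.exp (-(w * V)) := mul_le_mul_of_nonneg_left hexpw hN0
    have h2 : κ * N ≤ ε / 16 * (2 * M) := by
      apply mul_le_mul hκε hN2 hN0 (by positivity)
    have h3 : ε / 8 * N ≤ ε / 8 * (2 * M) := by gcongr
    have h4 : M * (1 - κ) ≤ M * Real.exp (-(L * V)) := mul_le_mul_of_nonneg_left hexpL hM0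
    have h5 : M * Real.exp (-(L * V)) ≤ M * 1 := mul_le_mul_of_nonneg_left hexpL1 hM0
    have h6 : M * κ ≤ M * (ε / 16) := mul_le_mul_of_nonneg_left hκε hM0
    have h7 : 0 ≤ ε * M := by positivity
    rw [abs_le]
    constructor
    · linarith
    · linarith

end Pool.Agent.R463.EX
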