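import Pool.Agent.R463.EF4
import Pool.Agent.R463.EX8

set_option autoImplicit false

/-!
# The relative law after primes, distant windows
-/

namespace Pool.Agent.R463.EX

open Finset Filter Pool.Agent.H373R2.T7 Pool.Agent.W123.RP Pool.Agent.W123.RU Pool.Agent.TH464.PO
open Pool.Agent.R463.PP Pool.Agent.Y879.PR

open Classical in
/-- **Relative binomial moments after primes**, distant windows. -/
theorem momentPF (a c g m k : ℕ) (ha : Squarefree a) (hm : 1 ≤ m) (η δ : ℝ) (hη : 0 < η) (hη1 : η ≤ 1)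
    (hδ : 0 < δ) (hδ1 : δ ≤ 1) (C : ℕ → ℝ) (hC : ∀ w, 0 ≤ C w) :
    ∃ (K T0 : ℕ) (η' : ℝ), 0 < η' ∧ ∀ U : ℕ, ∃ x0 : ℕ, ∀ X y T : ℕ, x0 ≤ y → y ^ K ≤ X → T0 ≤ T →
      ∀ b : ℕ, b ≤ X → Nat.Coprime a b → ∀ Q : ℕ → ℕ → Prop, PerB Q c →
      (∀ p : ℕ, p.Prime → nuB Q p < p) →
      ∀ Bd : ℕ, T ≤ Bd →
      (∀ t ∈ Icc 1 Bd, ((((pz y).filter (fun p : ℕ => T < p ∧ CoG Q p t)).card : ℕ) : ℝ) ≤ η' * T) →
      ∀ H : Finset ℕ, H.card = g →
      (∀ S : Finset ℕ, Base a b ((H ∪ S).card * c) (QH Q (H ∪ S))) → H ⊆ range (Bd + 1) →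
      ∀ D : Finset ℕ, D.card ≤ m → (∀ d ∈ D, d + T ≤ Bd) →
      ∀ W : Finset ℕ, W ⊆ D.biUnion (fun d => Ioc d (d + T)) → Disjoint H W →
      (∀ w m : ℕ, |((W.filter (fun h => Sf Q w (m + h))).card : ℝ) - W.card * Vq Q w| ≤ C w) →
      ∀ u Y : ℕ, δ * X ≤ u → δ * X ≤ Y → u + Y ≤ X →
      |(∑ n ∈ Om a b (QH Q H) y u Y, ((NX Q y W n).choose (k + 1) : ℝ)) * Real.log X -
        Y / Vz y * Vq (QH Q H) y * ((W.card * Vq Q y) ^ (k + 1) / (k + 1).factorial)| ≤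
        η * (Y / Vz y * Vq (QH Q H) y * ((((m * T : ℕ) : ℝ) * Vq Q y) ^ (k + 1) / (k + 1).factorial)) +
          ((m * T : ℕ) : ℝ) ^ (k + 1) * (X / Real.log X ^ U) := by
  obtain ⟨K, hK, hcount⟩ := prime_count a ((g + (k + 1)) * c) ha (η / 4) δ (by positivity) (by linarith)
    hδ hδ1
  obtain ⟨w, η', T0, hη', hsing⟩ := sing_far c g m k hm (η / 4) (by positivity) (by linarith) C hC
  refine ⟨K, T0, η', hη', ?_⟩
  intro U
  obtain ⟨x0, hx0⟩ := hcount U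
  refine ⟨max x0 (max w 3), ?_⟩
  intro X y T1 hy hyX hT b hbX hab Q hQ hadm Bd hTB hlarge H hHg hB hHT D hD hDB W hW hdis hwin u Y hu hY huY
  have hy0 : x0 ≤ y := (le_max_left _ _).trans hy
  have hyw : w ≤ y := ((le_max_left _ _).trans (le_max_right _ _)).trans hy
  have hy3 : 3 ≤ y := ((le_max_right _ _).trans (le_max_right _ _)).trans hy
  have hyX' : y ≤ X := (Nat.le_self_pow (by omega) y).trans hyX
  have hX1 : (1 : ℝ) ≤ X := by exact_mod_cast (by omega : 1 ≤ X)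
  have hl0 : 0 ≤ Real.log X := Real.log_nonneg hX1
  have s0 := hsing T1 hT Q hQ hadm y hyw Bd hTB hlarge H hHg hHT D hD hDB W hW hdis hwin
  have hWc : W.card ≤ m * T1 := (card_le_card hW).trans (biU_card D m T1 hD)
  obtain ⟨T, hTdef⟩ : ∃ T, T = m * T1 := ⟨_, rfl⟩
  rw [← hTdef] at s0 hWc ⊢
  have hVz := Pool.Agent.H373R2.T7.Vz_pos y
  obtain ⟨G, hG⟩ : ∃ G : ℝ, G = Y / Vz y := ⟨_, rfl⟩
  have hG0 : 0 ≤ G := by rw [hG]; exact div_nonneg (Nat.cast_nonneg _) hVz.le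
  obtain ⟨P, hP⟩ : ∃ P : ℝ, P = Vq (QH Q H) y := ⟨_, rfl⟩
  have hP0 : 0 ≤ P := by rw [hP]; exact Vq_nonneg _ y
  obtain ⟨S, hS⟩ : ∃ S, S = ∑ S ∈ powersetCard (k + 1) W, Vq (QH Q (H ∪ S)) y := ⟨_, rfl⟩
  obtain ⟨Z, hZ⟩ : ∃ Z : ℝ, Z = (T * Vq Q y) ^ (k + 1) / (k + 1).factorial := ⟨_, rfl⟩
  obtain ⟨z, hz⟩ : ∃ z : ℝ, z = (W.card * Vq Q y) ^ (k + 1) / (k + 1).factorial := ⟨_, rfl⟩
  obtain ⟨E, hE⟩ : ∃ E : ℝ, E = X / Real.log X ^ U := ⟨_, rfl⟩
  have hE0 : 0 ≤ E := by rw [hE]; positivity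
  have hV0 := Vq_nonneg Q y
  have hZ0 : 0 ≤ Z := by rw [hZ]; positivity
  have hWT : (W.card : ℝ) ≤ T := by exact_mod_cast hWc
  have hzZ : z ≤ Z := by
    rw [hz, hZ]
    apply div_le_div_of_nonneg_right _ (by positivity)
    apply pow_le_pow_left₀ (by positivity)
    exact mul_le_mul_of_nonneg_right hWT hV0
  rw [← hS, ← hZ, ← hz, ← hP] at s0
  rw [← hZ, ← hz, ← hP, ← hG, ← hE, momP_eq, Finset.sum_mul]
  have h1 : |∑ S ∈ powersetCard (k + 1) W, ((Om a b (QH Q (H ∪ S)) y u Y).card : ℝ) * Real.log X -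
      G * S| ≤ η / 4 * (G * S) + (T : ℝ) ^ (k + 1) * E := by
    have e : G * S = ∑ S ∈ powersetCard (k + 1) W, (Y : ℝ) * (Vq (QH Q (H ∪ S)) y / Vz y) := by
      rw [hS, hG, Finset.mul_sum]
      apply Finset.sum_congr rfl
      intros
      ring
    rw [e, ← Finset.sum_sub_distrib]
    refine (Finset.abs_sum_le_sum_abs _ _).trans ?_
    have h2 : ∀ S ∈ powersetCard (k + 1) W,
        |((Om a b (QH Q (H ∪ S)) y u Y).card : ℝ) * Real.log X -
          (Y : ℝ) * (Vq (QH Q (H ∪ S)) y / Vz y)| ≤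
        η / 4 * (Y * (Vq (QH Q (H ∪ S)) y / Vz y)) + E := by
      intro S hS
      rw [mem_powersetCard] at hS
      have hdS : Disjoint H S := Finset.disjoint_of_subset_right hS.1 hdis
      have hb := hB S
      rw [card_union_of_disjoint hdS, hHg, hS.2] at hb
      rw [hE]
      exact hx0 X y hy0 hyX b hbX hab (QH Q (H ∪ S)) hb u Y hu hY huY
    refine (Finset.sum_le_sum h2).trans ?_
    rw [Finset.sum_add_distrib, ← Finset.mul_sum, Finset.sum_const, nsmul_eq_mul]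
    have h3 : ((powersetCard (k + 1) W).card : ℝ) ≤ (T : ℝ) ^ (k + 1) := by
      rw [card_powersetCard]
      calc ((W.card.choose (k + 1) : ℕ) : ℝ) ≤ ((W.card ^ (k + 1) : ℕ) : ℝ) := by
            exact_mod_cast Nat.choose_le_pow _ (k + 1)
        _ = (W.card : ℝ) ^ (k + 1) := by push_cast; rfl
        _ ≤ _ := pow_le_pow_left₀ (Nat.cast_nonneg _) hWT _
    have h4 := mul_le_mul_of_nonneg_right h3 hE0
    linarith
  have h5 : |G * S - G * (P * z)| ≤ η / 4 * (G * (P * Z)) := by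
    rw [← mul_sub, abs_mul, abs_of_nonneg hG0]
    calc G * |S - P * z| ≤ G * (η / 4 * (P * Z)) := mul_le_mul_of_nonneg_left s0 hG0
      _ = _ := by ring
  have h8 : 0 ≤ G * (P * Z) := by positivity
  have h6 : G * S ≤ 2 * (G * (P * Z)) := by
    have h7 := (abs_le.1 h5).2
    have h9 : G * (P * z) ≤ G * (P * Z) := by gcongr
    nlinarith
  have h9 := abs_sub_le (∑ S ∈ powersetCard (k + 1) W,
      ((Om a b (QH Q (H ∪ S)) y u Y).card : ℝ) * Real.log X) (G * S) (G * (P * z))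
  have h10 : η / 4 * (G * S) ≤ η / 4 * (2 * (G * (P * Z))) :=
    mul_le_mul_of_nonneg_left h6 (by positivity)
  have h11 : 0 ≤ η * (G * (P * Z)) := by positivity
  have e1 : G * P * z = G * (P * z) := by ring
  have e2 : G * P * Z = G * (P * Z) := by ring
  rw [e1, e2]
  linarith

/-- the density of the shifts is at most the density of the set -/
lemma Vq_QH_le (Q : ℕ → ℕ → Prop) (c : ℕ) (hQ : PerB Q c) (H : Finset ℕ) (h : ℕ) (hh : h ∈ H) (y : ℕ) :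
    Vq (QH Q H) y ≤ Vq Q y := by
  rw [← Vq_Qt Q c hQ h y]
  exact Vq_anti' _ _ y fun p m hq => ⟨h, hh, hq⟩

open Classical in
/-- **The relative Poisson law after primes**, distant windows. -/
theorem lawPF (a c g m C : ℕ) (ha : Squarefree a) (hg : 1 ≤ g) (hm : 1 ≤ m) (x0 ε δ : ℝ) (hx0 : 0 ≤ x0)
    (hε : 0 < ε) (hε1 : ε ≤ 1) (hδ : 0 < δ) (hδ1 : δ ≤ 1) (Cw : ℕ → ℝ) (hCw : ∀ w, 0 ≤ Cw w) :
    ∃ (K y0 T0 : ℕ) (η' : ℝ), 0 < η' ∧ ∀ X y T : ℕ, y0 ≤ y → y ^ K ≤ X → T0 ≤ T →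
      ∀ b : ℕ, b ≤ X → Nat.Coprime a b → ∀ Q : ℕ → ℕ → Prop, PerB Q c →
      (∀ p : ℕ, p.Prime → nuB Q p < p) → ((m * T : ℕ) : ℝ) * Vq Q y ≤ x0 →
      ∀ Bd : ℕ, T ≤ Bd →
      (∀ t ∈ Icc 1 Bd, ((((pz y).filter (fun p : ℕ => T < p ∧ CoG Q p t)).card : ℕ) : ℝ) ≤ η' * T) →
      ∀ H : Finset ℕ, H.card = g →
      (∀ S : Finset ℕ, Base a b ((H ∪ S).card * c) (QH Q (H ∪ S))) → H ⊆ range (Bd + 1) →
      1 / Real.log X ^ C ≤ Vq (QH Q H) y →
      ∀ D : Finset ℕ, D.card ≤ m → (∀ d ∈ D, d + T ≤ Bd) →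
      ∀ W : Finset ℕ, W ⊆ D.biUnion (fun d => Ioc d (d + T)) → Disjoint H W →
      (∀ w m : ℕ, |((W.filter (fun h => Sf Q w (m + h))).card : ℝ) - W.card * Vq Q w| ≤ Cw w) →
      ∀ u Y : ℕ, δ * X ≤ u → δ * X ≤ Y → u + Y ≤ X →
      |((Om a b (QH Q H) y u Y).card : ℝ) * Real.log X - Y * (Vq (QH Q H) y / Vz y)| ≤
        ε * (Y * (Vq (QH Q H) y / Vz y)) ∧
      ∀ A : Finset ℕ, |(((Om a b (QH Q H) y u Y).filter (fun n => NX Q y W n ∈ A)).card : ℝ) -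
        (Om a b (QH Q H) y u Y).card *
          ∑ j ∈ A, Real.exp (-(W.card * Vq Q y)) * (W.card * Vq Q y) ^ j / j.factorial| ≤
        ε * (Om a b (QH Q H) y u Y).card := by
  obtain ⟨R, η, hη, htv⟩ := law_tv x0 ε hx0 hε
  obtain ⟨X1, hX1⟩ : ∃ X1 : ℝ, X1 = (1 + x0) ^ R := ⟨_, rfl⟩
  have hX1pos : 1 ≤ X1 := by rw [hX1]; exact one_le_pow₀ (by linarith)
  obtain ⟨η1, hη1⟩ : ∃ η1 : ℝ, η1 = min (ε / 4) (η / (8 * X1)) := ⟨_, rfl⟩
  have hη10 : 0 < η1 := by rw [hη1]; positivity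
  have hη11 : η1 ≤ ε / 4 := by rw [hη1]; exact min_le_left _ _
  have hη12 : 8 * (η1 * X1) ≤ η := by
    have : η1 ≤ η / (8 * X1) := by rw [hη1]; exact min_le_right _ _
    rw [le_div_iff₀ (by positivity)] at this
    linarith
  obtain ⟨U, hU⟩ : ∃ U : ℕ, U = C * R + C + 1 := ⟨_, rfl⟩
  obtain ⟨K00, hK00, hcount⟩ := prime_count a (g * c) ha η1 δ hη10 (by linarith) hδ hδ1
  obtain ⟨y00, hcount⟩ := hcount U
  choose K T0 η' hη' hmom using fun k => momentPF a c g m k ha hm η1 δ hη10 (by linarith) hδ hδ1 Cw hCw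
  choose y0 hy0 using fun k => hmom k U
  obtain ⟨η0, hη00, hη0⟩ := exists_lower η' hη' (R + 1)
  have hlogX : Tendsto (fun X : ℕ => Real.log (X : ℝ)) atTop atTop :=
    Real.tendsto_log_atTop.comp tendsto_natCast_atTop_atTop
  obtain ⟨Z1, hZ1⟩ := eventually_atTop.1 ((hlogX.eventually_ge_atTop ((x0 + 1) ^ R / (η1 * δ))).and
    (hlogX.eventually_ge_atTop 1))
  refine ⟨(∑ k ∈ range (R + 1), K k) + K00 + 1, (∑ k ∈ range (R + 1), y0 k) + y00 + Z1 + 3,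
    (∑ k ∈ range (R + 1), T0 k) + 1, η0, hη00, ?_⟩
  intro X y T1 hy hyX hT b hbX hab Q hQ hadm hx Bd hTB hlarge H hHg hB hHT hVHlow D hD hDB W hW hdis hwin
    u Y hu hY huY
  have hy3 : 3 ≤ y := by omega
  have hyX' : y ≤ X := (Nat.le_self_pow (by omega) y).trans hyX
  obtain ⟨z1, z2⟩ := hZ1 X (by omega)
  obtain ⟨l, hl⟩ : ∃ l, l = Real.log X := ⟨_, rfl⟩
  have hcount0 := hcount X y (by omega) ((Nat.pow_le_pow_right (by omega) (by omega)).trans hyX) b hbX hab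
    (QH Q H) (by have := hB ∅; rwa [union_empty, hHg] at this) u Y hu hY huY
  rw [← hl] at z1 z2 hVHlow hcount0 ⊢
  have hl0 : 0 < l := by linarith
  have hWc : W.card ≤ m * T1 := (card_le_card hW).trans (biU_card D m T1 hD)
  obtain ⟨T, hTdef⟩ : ∃ T, T = m * T1 := ⟨_, rfl⟩
  rw [← hTdef] at hWc hx
  obtain ⟨V, hV⟩ : ∃ V, V = Vq Q y := ⟨_, rfl⟩
  have hV0 : 0 < V := by rw [hV]; exact Vq_pos Q hadm y
  obtain ⟨P, hP⟩ : ∃ P, P = Vq (QH Q H) y := ⟨_, rfl⟩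
  have hPV : P ≤ V := by
    obtain ⟨h0, hh0⟩ : H.Nonempty := by
      rw [← Finset.card_pos, hHg]
      omega
    rw [hP, hV]
    exact Vq_QH_le Q c hQ H h0 hh0 y
  rw [← hP] at hVHlow hcount0 ⊢
  have hVlow : 1 / l ^ C ≤ V := hVHlow.trans hPV
  rw [← hV] at hx ⊢
  have hVz := Pool.Agent.H373R2.T7.Vz_pos y
  have hVz1 := Pool.Agent.H373R2.T7.Vz_le_one y
  have hP0 : 0 < P := lt_of_lt_of_le (by positivity) hVHlow
  obtain ⟨M, hM⟩ : ∃ M : ℝ, M = Y * (P / Vz y) := ⟨_, rfl⟩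
  have hXr : (1 : ℝ) ≤ X := by exact_mod_cast (by omega : 1 ≤ X)
  have hYr : 0 < (Y : ℝ) := lt_of_lt_of_le (by positivity) hY
  have hM0 : 0 < M := by rw [hM]; positivity
  have hMlow : δ * X * (1 / l ^ C) ≤ M := by
    rw [hM]
    apply mul_le_mul hY _ (by positivity) hYr.le
    refine hVHlow.trans ?_
    rw [le_div_iff₀ hVz]
    nlinarith
  obtain ⟨x, hxdef⟩ : ∃ x, x = W.card * V := ⟨_, rfl⟩
  have hWT : (W.card : ℝ) ≤ T := by exact_mod_cast hWc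
  have hx0' : x ≤ x0 := by
    rw [hxdef]
    exact (mul_le_mul_of_nonneg_right hWT hV0.le).trans hx
  have hx00 : 0 ≤ x := by
    rw [hxdef]
    exact mul_nonneg (Nat.cast_nonneg _) hV0.le
  have hT0r : (0 : ℝ) ≤ T := Nat.cast_nonneg _
  have hTup : (T : ℝ) ≤ (x0 + 1) * l ^ C := by
    have h1 : (T : ℝ) * (1 / l ^ C) ≤ x0 := (mul_le_mul_of_nonneg_left hVlow hT0r).trans hx
    rw [mul_one_div, div_le_iff₀ (by positivity)] at h1
    have : 0 ≤ l ^ C := by positivity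
    nlinarith
  -- the error terms
  have hEk : ∀ k ≤ R, (T : ℝ) ^ k * (X / l ^ U) ≤ η1 * M := by
    intro k hk
    have h1 : (T : ℝ) ^ k ≤ ((x0 + 1) * l ^ C) ^ R := by
      calc (T : ℝ) ^ k ≤ ((x0 + 1) * l ^ C) ^ k := pow_le_pow_left₀ hT0r hTup _
        _ ≤ ((x0 + 1) * l ^ C) ^ R := by
          apply pow_le_pow_right₀ _ hk
          have : 1 ≤ l ^ C := one_le_pow₀ z2
          nlinarith
    have h2 : (x0 + 1) ^ R ≤ l * (η1 * δ) := by
      rwa [div_le_iff₀ (by positivity)] at z1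
    calc (T : ℝ) ^ k * (X / l ^ U) ≤ ((x0 + 1) * l ^ C) ^ R * (X / l ^ U) := by gcongr
      _ = (x0 + 1) ^ R * (l ^ (C * R) * X / l ^ U) := by rw [mul_pow, ← pow_mul]; ring
      _ ≤ (l * (η1 * δ)) * (l ^ (C * R) * X / l ^ U) := by gcongr
      _ = η1 * (δ * X * (1 / l ^ C)) := by
          rw [hU, pow_add, pow_add, pow_one]
          field_simp
      _ ≤ η1 * M := by gcongr
  have hmk : ∀ k ≤ R, ∀ z : ℝ, 0 ≤ z → z ≤ x0 → z ^ k / (k.factorial : ℝ) ≤ X1 := by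
    intro k hk z hz0 hz1
    have hf1 : (1 : ℝ) ≤ k.factorial := by exact_mod_cast Nat.factorial_pos k
    calc z ^ k / (k.factorial : ℝ) ≤ z ^ k := div_le_self (by positivity) hf1
      _ ≤ (1 + x0) ^ k := pow_le_pow_left₀ hz0 (by linarith) _
      _ ≤ (1 + x0) ^ R := pow_le_pow_right₀ (by linarith) hk
      _ = X1 := hX1.symm
  obtain ⟨Nn, hN⟩ : ∃ Nn : ℝ, Nn = (Om a b (QH Q H) y u Y).card := ⟨_, rfl⟩
  have hzero : |Nn * l - M| ≤ 2 * (η1 * M) := by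
    have h1 := hEk 0 (Nat.zero_le _)
    rw [pow_zero, one_mul] at h1
    rw [← hN, ← hM] at hcount0
    linarith
  rw [← hN, ← hM]
  have hz := abs_le.1 hzero
  have hfirst : |Nn * l - M| ≤ ε * M := by
    refine hzero.trans ?_
    nlinarith
  refine ⟨hfirst, ?_⟩
  have hMN : M ≤ 2 * (Nn * l) := by nlinarith
  have hmain : ∀ k ≤ R, |(∑ n ∈ Om a b (QH Q H) y u Y, ((NX Q y W n).choose k : ℝ)) * l -
      M * (x ^ k / k.factorial)| ≤ 2 * (η1 * (M * X1)) := by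
    intro k hk
    rcases k with _ | k
    · have e0 : ∑ n ∈ Om a b (QH Q H) y u Y, ((NX Q y W n).choose 0 : ℝ) = Nn := by
        rw [hN]
        simp
      rw [e0]
      simp only [pow_zero, Nat.factorial_zero, Nat.cast_one, div_one, mul_one]
      refine hzero.trans ?_
      have : η1 * (M * 1) ≤ η1 * (M * X1) := by gcongr
      linarith
    · have hkR : k ∈ range (R + 1) := mem_range.2 (by omega)
      have hKk : K k ≤ ∑ k ∈ range (R + 1), K k := Finset.single_le_sum (fun _ _ => Nat.zero_le _) hkR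
      have hyk : y0 k ≤ ∑ k ∈ range (R + 1), y0 k := Finset.single_le_sum (fun _ _ => Nat.zero_le _) hkR
      have hTk : T0 k ≤ ∑ k ∈ range (R + 1), T0 k := Finset.single_le_sum (fun _ _ => Nat.zero_le _) hkR
      have h1 := hy0 k X y T1 (by omega)
        ((Nat.pow_le_pow_right (by omega) (by omega)).trans hyX) (by omega) b hbX hab Q hQ hadm Bd hTB
        (fun t ht => (hlarge t ht).trans (mul_le_mul_of_nonneg_right (hη0 k (by omega))
          (Nat.cast_nonneg _))) H hHg hB hHT D hD hDB W hW hdis hwin u Y hu hY huY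
      rw [← hl, ← hV, ← hP, ← hxdef, ← hTdef] at h1
      have e : (Y : ℝ) / Vz y * P = M := by
        rw [hM]; ring
      rw [e] at h1
      refine h1.trans ?_
      have h2 := hmk (k + 1) hk (T * V) (by positivity) hx
      have h3 := hEk (k + 1) hk
      have h4 : η1 * (M * ((T * V) ^ (k + 1) / ((k + 1).factorial : ℝ))) ≤ η1 * (M * X1) := by gcongr
      have h5 : η1 * (M * 1) ≤ η1 * (M * X1) := by gcongr
      linarith
  rw [← hxdef]
  intro A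
  have hN0 : 0 ≤ Nn := by rw [hN]; exact Nat.cast_nonneg _
  have hfin := htv (Om a b (QH Q H) y u Y) (NX Q y W) x hx00 hx0' (by
    intro k hk
    rw [← hN]
    have h1 := hmain k hk
    have h2 := hmk k hk x hx00 hx0'
    obtain ⟨mk, hmkdef⟩ : ∃ mk : ℝ, mk = x ^ k / (k.factorial : ℝ) := ⟨_, rfl⟩
    obtain ⟨S, hS⟩ : ∃ S : ℝ, S = ∑ n ∈ Om a b (QH Q H) y u Y, ((NX Q y W n).choose k : ℝ) := ⟨_, rfl⟩
    rw [← hmkdef] at h1 h2 ⊢
    rw [← hS] at h1 ⊢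
    have hmk0 : 0 ≤ mk := by rw [hmkdef]; positivity
    have h3 : |(S - Nn * mk) * l| ≤ η * Nn * l := by
      have e : (S - Nn * mk) * l = (S * l - M * mk) + mk * (M - Nn * l) := by ring
      rw [e]
      refine (abs_add_le _ _).trans ?_
      have h4 : |mk * (M - Nn * l)| ≤ X1 * (2 * (η1 * M)) := by
        rw [abs_mul, abs_of_nonneg hmk0]
        apply mul_le_mul h2 _ (abs_nonneg _) (by linarith)
        rw [abs_sub_comm]
        exact hzero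
      have h7 : 4 * (η1 * X1) * M ≤ 4 * (η1 * X1) * (2 * (Nn * l)) := by gcongr
      have h8 : 8 * (η1 * X1) * (Nn * l) ≤ η * (Nn * l) := by gcongr
      linarith
    rw [abs_mul, abs_of_pos hl0] at h3
    exact le_of_mul_le_mul_right h3 hl0) A
  rw [← hN] at hfin
  exact hfin

end Pool.Agent.R463.EX
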