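import Pool.Agent.R463.EX6
import Pool.Agent.R463.EX8

set_option autoImplicit false

/-!
# Blocks of consecutive integers without small prime factors which contain a prime
-/

namespace Pool.Agent.R463.EX

open Polynomial Finset Filter
open Pool.Agent.W123.RP Pool.Agent.H373R2.T7 Pool.Agent.W123.RU Pool.Agent.W123.RU.Poly
open Pool.Agent.TH464.PW Pool.Agent.TH464.PO Pool.Agent.Y879.GL Pool.Agent.R463.PP Pool.Agent.R463.PS
open Pool.Agent.Y879.PR

lemma base_Qi (H : Finset ℕ) (b : ℕ) (hb : b ∈ H) (S : Finset ℕ) :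
    Base 1 b ((H ∪ S).card * 1) (QH Qi (H ∪ S)) := by
  refine ⟨perB_QH Qi 1 perB_Qi (H ∪ S), ?_, ?_⟩
  · intro p n hp hp1
    exact absurd (Nat.dvd_one.1 hp1) hp.one_lt.ne'
  · intro p n _ _ hn
    rw [one_mul] at hn
    exact ⟨b, mem_union_left _ hb, hn⟩

lemma Vz_Qi (y : ℕ) : Vq Qi y = Vz y := by
  rw [Vq_Qi]
  rfl

open Classical in
lemma exP_le (a b : ℕ) (Q : ℕ → ℕ → Prop) (H : Finset ℕ) (L y u Y : ℕ) :
    exP a b Q H L y u Y ≤ exN Q H L y u Y := by
  unfold exP exN
  apply card_le_card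
  intro n hn
  rw [mem_filter, mem_Ioc] at hn
  rw [mem_filter, mem_Icc]
  exact ⟨⟨by omega, hn.1.2⟩, hn.2.2⟩

open Classical in
/-- **The blocks of consecutive integers without small prime factors with a prime at a prescribed place.** -/
theorem prime_rough (g : ℕ) (hg : 1 ≤ g) (x0 ε δ : ℝ) (hε : 0 < ε) (hδ : 0 < δ) (hδ1 : δ ≤ 1) :
    ∃ s y0 : ℕ, ∀ y : ℕ, y0 ≤ y → ∀ X : ℕ, y ^ s ≤ X → ∀ H : Finset ℕ, H.card = g → 0 ∈ H →
      ∀ b ∈ H, ∀ L : ℕ, H ⊆ range (L + 1) → L * Vq Qi y ≤ x0 →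
      ∀ u Y : ℕ, δ * X ≤ u → δ * X ≤ Y → u + Y ≤ X →
        |(exP 1 b Qi H L y u Y : ℝ) * Real.log X - Y * (Vq (QH Qi H) y / Vz y) *
          Real.exp (-(L * Vq Qi y))| ≤
          ε * (Y * (Vq (QH Qi H) y / Vz y) * Real.exp (-(L * Vq Qi y))) := by
  obtain ⟨ε1, hε1⟩ : ∃ ε1 : ℝ, ε1 = min 1 (ε * Real.exp (-x0)) := ⟨_, rfl⟩
  have hex := Real.exp_pos (-x0)
  have hε10 : 0 < ε1 := by rw [hε1]; positivity
  obtain ⟨K, y1, T0, η', κ, x1, hη', hκ, hx1, hmain⟩ := pattP0 1 1 g (g + 1) squarefree_one hg x0 ε1 δ hε10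
    (by rw [hε1]; exact min_le_left _ _) hδ hδ1
  obtain ⟨c1, C1, hc1, hC1, hVz⟩ := Vz_bounds
  obtain ⟨v, hv, hV⟩ := V_lower_unif (g * 1)
  have hlogy : Tendsto (fun y : ℕ => Real.log (y : ℝ)) atTop atTop :=
    Real.tendsto_log_atTop.comp tendsto_natCast_atTop_atTop
  have hratio : ∀ᶠ y : ℕ in atTop, x0 / c1 * Real.log (y : ℝ) ≤ y := by
    have h := (Real.isLittleO_log_id_atTop.comp_tendsto tendsto_natCast_atTop_atTop).bound
      (show (0 : ℝ) < 1 / (|x0 / c1| + 1) by positivity)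
    filter_upwards [h, eventually_ge_atTop 2] with y hy hy2
    have hy2r : (2 : ℝ) ≤ y := by exact_mod_cast hy2
    have hl0 : 0 ≤ Real.log (y : ℝ) := Real.log_nonneg (by linarith)
    simp only [Function.comp_def, id] at hy
    rw [Real.norm_of_nonneg hl0, Real.norm_of_nonneg (by linarith), one_div, inv_mul_eq_div,
      le_div_iff₀ (by positivity)] at hy
    have h1 : x0 / c1 * Real.log (y : ℝ) ≤ |x0 / c1| * Real.log (y : ℝ) :=
      mul_le_mul_of_nonneg_right (le_abs_self _) hl0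
    nlinarith
  obtain ⟨Y0, hY0⟩ := eventually_atTop.1 (((hlogy.eventually_ge_atTop (C1 / κ * (T0 + 1))).and
    (hlogy.eventually_ge_atTop (1 / v))).and ((hlogy.eventually_ge_atTop 1).and
      (hratio.and (eventually_ge_atTop (g + 3)))))
  refine ⟨K + 1, max y1 Y0, ?_⟩
  intro y hy X hX H hHg h0 b hb L hHL hLx u Y hu hY huY
  obtain ⟨⟨g1, g2⟩, g3, g4, g5⟩ := hY0 y ((le_max_right _ _).trans hy)
  have hy1 : y1 ≤ y := (le_max_left _ _).trans hy
  have hyX : y ≤ X := by
    refine le_trans ?_ hX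
    exact Nat.le_self_pow (by omega) y
  have hyr : (3 : ℝ) ≤ y := by
    have : 3 ≤ y := by omega
    exact_mod_cast this
  have hXr : (3 : ℝ) ≤ X := hyr.trans (by exact_mod_cast hyX)
  have hly : 0 < Real.log (y : ℝ) := by linarith
  have hlyX : Real.log (y : ℝ) ≤ Real.log X := Real.log_le_log (by linarith) (by exact_mod_cast hyX)
  have hlX : 0 < Real.log (X : ℝ) := hly.trans_le hlyX
  obtain ⟨hlow, hup⟩ := hVz y (by omega)
  rw [← Vz_Qi] at hlow hup
  have hbL : b ≤ L := by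
    have := mem_range.1 (hHL hb)
    omega
  have hbX : b ≤ X := by
    have h1 : (L : ℝ) ≤ y := by
      refine le_trans ?_ g4
      have h2 : (L : ℝ) * (c1 / Real.log y) ≤ x0 :=
        (mul_le_mul_of_nonneg_left hlow (Nat.cast_nonneg _)).trans hLx
      rw [← mul_div_assoc, div_le_iff₀ hly] at h2
      rw [div_mul_eq_mul_div, le_div_iff₀ hc1]
      exact h2
    have h3 : L ≤ y := by exact_mod_cast h1
    omega
  have hVκ : Vq Qi y ≤ κ / (T0 + 1) := by
    refine hup.trans ?_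
    rw [div_le_div_iff₀ hly (by positivity)]
    have h3 := mul_le_mul_of_nonneg_right g1 hκ.le
    calc C1 * ((T0 : ℝ) + 1) = C1 / κ * (T0 + 1) * κ := by field_simp
      _ ≤ Real.log y * κ := h3
      _ = κ * Real.log y := mul_comm _ _
  have hT0r : (0 : ℝ) ≤ T0 := Nat.cast_nonneg _
  have hVκ' : Vq Qi y ≤ κ := by
    refine hVκ.trans ?_
    apply div_le_self hκ.le
    linarith
  have hVpos : 0 < Vq Qi y := Vq_pos Qi adm_Qi y
  have hperH := perB_QH Qi 1 perB_Qi H
  rw [hHg] at hperH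
  have hM0 : 0 ≤ (Y : ℝ) * (Vq (QH Qi H) y / Vz y) := mul_nonneg (Nat.cast_nonneg _)
    (div_nonneg (Vq_nonneg _ y) (Pool.Agent.H373R2.T7.Vz_pos y).le)
  by_cases hzero : ∀ p ∈ pz y, nuB (QH Qi H) p < p
  · have hadmH : ∀ p : ℕ, p.Prime → nuB (QH Qi H) p < p := by
      intro p hp
      by_cases hpy : p ≤ y
      · exact hzero p (mem_pz.2 ⟨hpy, hp⟩)
      · have := hperH.few p hp
        omega
    have h1 := hmain X y hy1 ((Nat.pow_le_pow_right (by omega) (by omega)).trans hX) b hbX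
      (Nat.coprime_one_left b) Qi perB_Qi adm_Qi hVκ' (by
        intro T hT1 hT2
        constructor
        · have h2 : κ ≤ T * (κ / (T0 + 1)) :=
            hT1.trans (mul_le_mul_of_nonneg_left hVκ (Nat.cast_nonneg _))
          have h3 : (T0 : ℝ) + 1 ≤ T := by
            rw [← mul_div_assoc, le_div_iff₀ (by positivity)] at h2
            have : κ * ((T0 : ℝ) + 1) ≤ κ * T := by linarith
            exact le_of_mul_le_mul_left this hκ
          have h4 : T0 + 1 ≤ T := by exact_mod_cast h3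
          omega
        · intro t ht
          rw [mem_Icc] at ht
          have : (pz y).filter (fun p : ℕ => T < p ∧ CoG Qi p t) = ∅ := by
            rw [Finset.filter_eq_empty_iff]
            rintro p hp ⟨hTp, m, h5, h6⟩
            unfold Qi at h5 h6
            have h7 : p ∣ t := (Nat.dvd_add_right h5).1 h6
            have := Nat.le_of_dvd (by omega) h7
            omega
          rw [this, Finset.card_empty, Nat.cast_zero]
          positivity) H hHg h0 (base_Qi H b hb) (by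
        have h2 := hV (QH Qi H) (by rw [mul_one] at hperH ⊢; exact hperH) hadmH y (by omega)
        refine le_trans ?_ h2
        rw [mul_one, div_le_div_iff₀ (by positivity) (by positivity), one_mul, pow_succ]
        rw [div_le_iff₀ hv] at g2
        have h3 : Real.log (y : ℝ) ^ g ≤ Real.log (X : ℝ) ^ g := pow_le_pow_left₀ hly.le hlyX g
        have h4 : 0 ≤ Real.log (X : ℝ) ^ g := by positivity
        calc Real.log (y : ℝ) ^ g ≤ Real.log (X : ℝ) ^ g * 1 := by linarith
          _ ≤ Real.log (X : ℝ) ^ g * (Real.log y * v) := mul_le_mul_of_nonneg_left g2 h4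
          _ ≤ Real.log (X : ℝ) ^ g * (Real.log X * v) := by
              apply mul_le_mul_of_nonneg_left _ h4
              exact mul_le_mul_of_nonneg_right hlyX hv.le
          _ = v * (Real.log (X : ℝ) ^ g * Real.log X) := by ring) L hHL hLx u Y hu hY huY
    refine h1.trans ?_
    have h2 : ε1 ≤ ε * Real.exp (-(L * Vq Qi y)) := by
      refine (show ε1 ≤ ε * Real.exp (-x0) by rw [hε1]; exact min_le_right _ _).trans ?_
      apply mul_le_mul_of_nonneg_left _ hε.le
      exact Real.exp_le_exp.2 (by linarith)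
    calc ε1 * (Y * (Vq (QH Qi H) y / Vz y)) ≤
          ε * Real.exp (-(L * Vq Qi y)) * (Y * (Vq (QH Qi H) y / Vz y)) :=
          mul_le_mul_of_nonneg_right h2 hM0
      _ = _ := by ring
  · push Not at hzero
    obtain ⟨p, hp, hnu⟩ := hzero
    have hnu' : nuB (QH Qi H) p = p := le_antisymm (nuB_le _ p) hnu
    have hp0 : (0 : ℝ) < p := by exact_mod_cast (mem_pz.1 hp).2.pos
    have hV0 : Vq (QH Qi H) y = 0 := by
      unfold Vq
      apply Finset.prod_eq_zero hp
      rw [hnu', div_self hp0.ne', sub_self]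
    have h1 := exP_le 1 b Qi H L y u Y
    rw [exN_eq_zero Qi 1 perB_Qi H L y u Y hHL p hp hnu'] at h1
    have h2 : exP 1 b Qi H L y u Y = 0 := by omega
    rw [h2, hV0]
    simp

end Pool.Agent.R463.EX
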