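import Pool.Agent.R463.EH1
import Pool.Agent.R463.EX9

set_option autoImplicit false

/-!
# Exact patterns on several distant windows, with a prime
-/

namespace Pool.Agent.R463.EX

open Polynomial Finset Filter
open Pool.Agent.W123.RP Pool.Agent.H373R2.T7 Pool.Agent.W123.RU Pool.Agent.W123.RU.Poly
open Pool.Agent.TH464.PW Pool.Agent.TH464.PO Pool.Agent.Y879.GL Pool.Agent.R463.PP Pool.Agent.R463.PS
open Pool.Agent.Y879.PR

open Classical in
/-- the number of the integers `u < n ≤ u + Y` with `a n + b` prime for which, for all `h ∈ J`, `n + h` is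
sifted if and only if `h ∈ H` -/
noncomputable def exJP (a b : ℕ) (Q : ℕ → ℕ → Prop) (J H : Finset ℕ) (y u Y : ℕ) : ℕ :=
  ((Ioc u (u + Y)).filter (fun n => (a * n + b).Prime ∧ ∀ h ∈ J, Sf Q y (n + h) ↔ h ∈ H)).card

open Classical in
lemma exJP_eq (a b : ℕ) (Q : ℕ → ℕ → Prop) (J H : Finset ℕ) (y u Y : ℕ) (hJ : H ⊆ J) :
    exJP a b Q J H y u Y =
      ((Om a b (QH Q H) y u Y).filter (fun n => NX Q y (J \ H) n ∈ ({0} : Finset ℕ))).card := by
  unfold exJP Om
  rw [Finset.filter_filter]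
  congr 1
  apply Finset.filter_congr
  intro n _
  rw [sf_QH, mem_singleton, and_assoc]
  apply and_congr Iff.rfl
  unfold NX
  rw [Finset.card_eq_zero, Finset.filter_eq_empty_iff]
  constructor
  · intro h
    refine ⟨fun x hx => (h x (hJ hx)).2 hx, fun x hx hs => ?_⟩
    rw [Finset.mem_sdiff] at hx
    exact hx.2 ((h x hx.1).1 hs)
  · rintro ⟨h1, h2⟩ x hx
    refine ⟨fun hs => ?_, fun hh => h1 x hh⟩
    by_contra hcon
    exact h2 (Finset.mem_sdiff.2 ⟨hx, hcon⟩) hs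

open Classical in
lemma exJP_le (a b : ℕ) (Q : ℕ → ℕ → Prop) (J H : Finset ℕ) (y u Y : ℕ) :
    exJP a b Q J H y u Y ≤ exJ Q J H y u Y := by
  unfold exJP exJ
  apply card_le_card
  intro n hn
  rw [mem_filter, mem_Ioc] at hn
  rw [mem_filter, mem_Icc]
  exact ⟨⟨by omega, hn.1.2⟩, hn.2.2⟩

open Classical in
/-- **The exact patterns on distant windows, with a prime**, integers without prime factors `p ≤ y`. -/
theorem pattPF (g m : ℕ) (hg : 1 ≤ g) (hm : 1 ≤ m) (x0 ε δ : ℝ) (A : ℕ) (hε : 0 < ε) (hδ : 0 < δ)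
    (hδ1 : δ ≤ 1) :
    ∃ s y0 : ℕ, ∀ y : ℕ, y0 ≤ y → ∀ X : ℕ, y ^ s ≤ X → ∀ (D : Finset ℕ) (l : ℕ → ℕ), D.card ≤ m →
      (D : Set ℕ).PairwiseDisjoint (fun d => Ioc d (d + l d)) → (∀ d ∈ D, d + l d ≤ y ^ A) →
      (∀ d ∈ D, (l d : ℝ) * Vq Qi y ≤ x0) → ∀ H : Finset ℕ, H ⊆ Jw D l → H.card = g → ∀ b ∈ H,
      ∀ u Y : ℕ, δ * X ≤ u → δ * X ≤ Y → u + Y ≤ X →
        |(exJP 1 b Qi (Jw D l) H y u Y : ℝ) * Real.log X -
            Y * (Vq (QH Qi H) y / Vz y) * Real.exp (-((Jw D l).card * Vq Qi y))| ≤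
          ε * (Y * (Vq (QH Qi H) y / Vz y) * Real.exp (-((Jw D l).card * Vq Qi y))) := by
  obtain ⟨z, hz⟩ : ∃ z : ℝ, z = max x0 1 := ⟨_, rfl⟩
  have hz1 : 1 ≤ z := by rw [hz]; exact le_max_right _ _
  have hzx : x0 ≤ z := by rw [hz]; exact le_max_left _ _
  obtain ⟨ε1, hε1⟩ : ∃ ε1 : ℝ, ε1 = min 1 (ε * Real.exp (-(m * z))) := ⟨_, rfl⟩
  have hex := Real.exp_pos (-((m : ℝ) * z))
  have hε10 : 0 < ε1 := by rw [hε1]; positivity
  have hε11 : ε1 ≤ 1 := by rw [hε1]; exact min_le_left _ _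
  obtain ⟨K0, y1, T0, η', hη', hlaw⟩ := lawPF 1 1 g m (g + 1) squarefree_one hg hm (m * z) (ε1 / 8) δ
    (by positivity) (by positivity) (by linarith) hδ hδ1 (fun w => m * Mw w + 2 * g)
    (fun w => by positivity)
  have hgr : (1 : ℝ) ≤ g := by exact_mod_cast hg
  have hmr : (1 : ℝ) ≤ m := by exact_mod_cast hm
  obtain ⟨κ, hκ⟩ : ∃ κ : ℝ, κ = min (ε1 / (16 * g)) (1 / 2) := ⟨_, rfl⟩
  have hκ0 : 0 < κ := by rw [hκ]; positivity
  have hκ2 : κ ≤ 1 / 2 := by rw [hκ]; exact min_le_right _ _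
  have hκa : g * κ ≤ ε1 / 16 := by
    have : κ ≤ ε1 / (16 * g) := by rw [hκ]; exact min_le_left _ _
    rw [le_div_iff₀ (by positivity)] at this
    linarith
  obtain ⟨c1, C1, hc1, hC1, hVz⟩ := Vz_bounds
  obtain ⟨v, hv, hV⟩ := V_lower_unif (g * 1)
  obtain ⟨E, hE⟩ : ∃ E : ℝ, E = Real.exp ((A + 2) * C1 / (κ * η')) := ⟨_, rfl⟩
  have hE0 : 0 < E := by rw [hE]; exact Real.exp_pos _
  have hlogy : Tendsto (fun y : ℕ => Real.log (y : ℝ)) atTop atTop :=
    Real.tendsto_log_atTop.comp tendsto_natCast_atTop_atTop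
  obtain ⟨Y0, hY0⟩ := eventually_atTop.1 (((hlogy.eventually_ge_atTop (C1 / κ * (T0 + 2 + E))).and
    (hlogy.eventually_ge_atTop 1)).and ((hlogy.eventually_ge_atTop (1 / v)).and
      ((logpow_rpow 1 (z / c1 + 1) 1 (by positivity) one_pos).and (eventually_ge_atTop (g + 3)))))
  refine ⟨K0 + A + 2, max y1 Y0, ?_⟩
  intro y hy X hX D l hD hdis hDA hlx H hHJ hHg b hb u Y hu hY huY
  obtain ⟨⟨g1, g2⟩, g3, g4, g5⟩ := hY0 y ((le_max_right _ _).trans hy)
  rw [Real.rpow_one] at g4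
  rw [pow_one] at g4
  have hy1 : y1 ≤ y := (le_max_left _ _).trans hy
  have hyr : (3 : ℝ) ≤ y := by
    have : 3 ≤ y := by omega
    exact_mod_cast this
  have hyX : y ≤ X := (Nat.le_self_pow (by omega) y).trans hX
  have hly : 0 < Real.log (y : ℝ) := by linarith
  have hlyX : Real.log (y : ℝ) ≤ Real.log X := Real.log_le_log (by linarith) (by exact_mod_cast hyX)
  have hlX : 0 < Real.log (X : ℝ) := hly.trans_le hlyX
  obtain ⟨hlow, hup⟩ := hVz y (by omega)
  have hVz' : Vq Qi y = Vz y := by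
    rw [Vq_Qi]
    rfl
  rw [← hVz'] at hlow hup
  obtain ⟨V, hVdef⟩ : ∃ V, V = Vq Qi y := ⟨_, rfl⟩
  have hV0 : 0 < V := by rw [hVdef]; exact Vq_pos Qi adm_Qi y
  rw [← hVdef] at hlow hup
  have hVzpos := Pool.Agent.H373R2.T7.Vz_pos y
  by_cases hzero : ∀ p ∈ pz y, nuB (QH Qi H) p < p
  swap
  · push Not at hzero
    obtain ⟨p, hp, hnu⟩ := hzero
    have hnu' : nuB (QH Qi H) p = p := le_antisymm (nuB_le _ p) hnu
    have hp0 : (0 : ℝ) < p := by exact_mod_cast (mem_pz.1 hp).2.pos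
    have hV0 : Vq (QH Qi H) y = 0 := by
      unfold Vq
      apply Finset.prod_eq_zero hp
      rw [hnu', div_self hp0.ne', sub_self]
    have h1 := exJP_le 1 b Qi (Jw D l) H y u Y
    rw [exJ_eq_zero Qi 1 perB_Qi _ H y u Y hHJ p hp hnu'] at h1
    have h2 : exJP 1 b Qi (Jw D l) H y u Y = 0 := by omega
    rw [h2, hV0]
    simp
  have hperH := perB_QH Qi 1 perB_Qi H
  rw [hHg] at hperH
  have hadmH : ∀ p : ℕ, p.Prime → nuB (QH Qi H) p < p := by
    intro p hp
    by_cases hpy : p ≤ y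
    · exact hzero p (mem_pz.2 ⟨hpy, hp⟩)
    · have := hperH.few p hp
      omega
  have hVH : v / Real.log y ^ g ≤ Vq (QH Qi H) y := by
    have h2 := hV (QH Qi H) hperH hadmH y (by omega)
    rwa [mul_one] at h2
  have hT0r : (0 : ℝ) ≤ T0 := Nat.cast_nonneg _
  have hκV : κ / V ≥ T0 + 2 + E := by
    rw [ge_iff_le, le_div_iff₀ hV0]
    have h1 : (T0 + 2 + E) * V ≤ (T0 + 2 + E) * (C1 / Real.log y) :=
      mul_le_mul_of_nonneg_left hup (by positivity)
    refine h1.trans ?_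
    rw [← mul_div_assoc, div_le_iff₀ hly]
    have h3 := mul_le_mul_of_nonneg_right g1 hκ0.le
    calc (T0 + 2 + E) * C1 = C1 / κ * (T0 + 2 + E) * κ := by field_simp
      _ ≤ Real.log y * κ := h3
      _ = κ * Real.log y := mul_comm _ _
  have hVκ : V ≤ κ := by
    have h1 : (1 : ℝ) ≤ κ / V := by linarith
    rwa [le_div_iff₀ hV0, one_mul] at h1
  obtain ⟨T', w1, w2, w3⟩ := exists_window V κ hV0 hVκ
  obtain ⟨T, hT⟩ : ∃ T, T = max T' (D.sup l) := ⟨_, rfl⟩
  have hT'T : T' ≤ T := by rw [hT]; exact le_max_left _ _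
  have hlT : ∀ d ∈ D, l d ≤ T := fun d hd => by
    rw [hT]
    exact (Finset.le_sup hd).trans (le_max_right _ _)
  have hTκ : κ / V ≤ T := by
    rw [div_le_iff₀ hV0]
    refine w1.trans ?_
    exact mul_le_mul_of_nonneg_right (by exact_mod_cast hT'T) hV0.le
  have hTz : (T : ℝ) * V ≤ z := by
    rw [hT]
    rcases le_total T' (D.sup l) with h | h
    · rw [max_eq_right h]
      rcases D.eq_empty_or_nonempty with he | hne
      · rw [he, Finset.sup_empty]
        simp only [Nat.bot_eq_zero, Nat.cast_zero, zero_mul]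
        linarith
      · obtain ⟨d, hd, he⟩ := Finset.exists_mem_eq_sup D hne l
        rw [he, hVdef]
        exact (hlx d hd).trans hzx
    · rw [max_eq_left h]
      refine w2.trans ?_
      linarith
  have hTr0 : (0 : ℝ) ≤ T := Nat.cast_nonneg _
  have hTlog : (T : ℝ) ≤ z / c1 * Real.log y := by
    have h2 : (T : ℝ) * (c1 / Real.log y) ≤ z := (mul_le_mul_of_nonneg_left hlow hTr0).trans hTz
    rw [← mul_div_assoc, div_le_iff₀ hly] at h2
    rw [div_mul_eq_mul_div, le_div_iff₀ hc1]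
    exact h2
  have hTy : T ≤ y := by
    have h1 : (T : ℝ) ≤ y := by
      refine hTlog.trans (le_trans ?_ g4)
      apply mul_le_mul_of_nonneg_right _ hly.le
      linarith
    exact_mod_cast h1
  have hTbig : (T0 : ℝ) + 2 + E ≤ T := hκV.le.trans hTκ
  have hT2 : 2 ≤ T := by
    have : (2 : ℝ) ≤ T := by linarith
    exact_mod_cast this
  have hT0T : T0 ≤ T := by
    have : (T0 : ℝ) ≤ T := by linarith
    exact_mod_cast this
  have hyA : y ^ A + y ≤ y ^ (A + 2) := by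
    have h1 : 1 ≤ y ^ A := Nat.one_le_pow _ _ (by omega)
    have h2 : y ^ (A + 2) = y ^ A * (y * y) := by ring
    have h3 : y * 3 ≤ y * y := Nat.mul_le_mul_left y (by omega)
    have h4 : y ^ A * (y * 3) ≤ y ^ (A + 2) := by rw [h2]; exact Nat.mul_le_mul_left _ h3
    nlinarith
  have hTV : κ ≤ T * V := by
    rwa [div_le_iff₀ hV0] at hTκ
  have hlarge : ∀ t ∈ Icc 1 (y ^ (A + 2)), ((((pz y).filter
      (fun p : ℕ => T < p ∧ CoG Qi p t)).card : ℕ) : ℝ) ≤ η' * T := by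
    intro t ht
    rw [mem_Icc] at ht
    have h3 := card_primes_le ((pz y).filter (fun p : ℕ => T < p ∧ CoG Qi p t)) T t hT2 (by omega)
      ((y : ℝ) ^ (A + 2)) (by exact_mod_cast ht.2) (fun p hp => by
        rw [mem_filter] at hp
        refine ⟨(mem_pz.1 hp.1).2, hp.2.1, ?_⟩
        obtain ⟨n, h4, h5⟩ := hp.2.2
        unfold Qi at h4 h5
        exact (Nat.dvd_add_right h4).1 h5)
    rw [Real.log_pow] at h3
    have hlT : (A + 2) * C1 / (κ * η') ≤ Real.log T := by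
      have h4 : E ≤ T := by linarith
      have h5 := Real.log_le_log hE0 h4
      rwa [hE, Real.log_exp] at h5
    have hlT0 : 0 < Real.log T := lt_of_lt_of_le (by positivity) hlT
    have hlyT : Real.log y ≤ C1 / κ * T := by
      have h4 : κ ≤ T * (C1 / Real.log y) := hTV.trans (mul_le_mul_of_nonneg_left hup hTr0)
      rw [← mul_div_assoc, le_div_iff₀ hly] at h4
      rw [div_mul_eq_mul_div, le_div_iff₀ hκ0]
      linarith
    have h6 : ((A + 2 : ℕ) : ℝ) * Real.log y ≤ η' * T * Real.log T := by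
      push_cast
      calc ((A : ℝ) + 2) * Real.log y ≤ (A + 2) * (C1 / κ * T) :=
            mul_le_mul_of_nonneg_left hlyT (by positivity)
        _ = η' * T * ((A + 2) * C1 / (κ * η')) := by field_simp
        _ ≤ η' * T * Real.log T := mul_le_mul_of_nonneg_left hlT (by positivity)
    exact le_of_mul_le_mul_right (h3.trans h6) hlT0
  have hJmem : ∀ h ∈ Jw D l, h ≤ y ^ A := by
    intro h hh
    unfold Jw at hh
    rw [mem_biUnion] at hh
    obtain ⟨d, hd, hh⟩ := hh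
    rw [mem_Ioc] at hh
    exact hh.2.trans (hDA d hd)
  have hbX : b ≤ X := (hJmem b (hHJ hb)).trans ((Nat.pow_le_pow_right (by omega) (by omega)).trans hX)
  have hmain := hlaw X y T hy1 ((Nat.pow_le_pow_right (by omega) (by omega)).trans hX) hT0T b hbX
    (Nat.coprime_one_left b) Qi perB_Qi adm_Qi (by
      rw [← hVdef]
      push_cast
      calc (m : ℝ) * T * V = m * (T * V) := by ring
        _ ≤ m * z := mul_le_mul_of_nonneg_left hTz (by positivity)) (y ^ (A + 2)) (by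
      have h1 : 1 ≤ y ^ A := Nat.one_le_pow _ _ (by omega)
      omega) hlarge H hHg (base_Qi H b hb) (by
      intro h hh
      have := hJmem h (hHJ hh)
      rw [mem_range]
      omega) (by
      refine le_trans ?_ hVH
      rw [div_le_div_iff₀ (by positivity) (by positivity), one_mul, pow_succ]
      rw [div_le_iff₀ hv] at g3
      have h3 : Real.log (y : ℝ) ^ g ≤ Real.log (X : ℝ) ^ g := pow_le_pow_left₀ hly.le hlyX g
      have h4 : 0 ≤ Real.log (X : ℝ) ^ g := by positivity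
      calc Real.log (y : ℝ) ^ g ≤ Real.log (X : ℝ) ^ g * 1 := by linarith
        _ ≤ Real.log (X : ℝ) ^ g * (Real.log y * v) := mul_le_mul_of_nonneg_left g3 h4
        _ ≤ Real.log (X : ℝ) ^ g * (Real.log X * v) := by
            apply mul_le_mul_of_nonneg_left _ h4
            exact mul_le_mul_of_nonneg_right hlyX hv.le
        _ = v * (Real.log (X : ℝ) ^ g * Real.log X) := by ring) D hD (fun d hd => by
      have := hDA d hd
      omega) (Jw D l \ H) (by
      intro h hh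
      rw [Finset.mem_sdiff] at hh
      have h1 := hh.1
      unfold Jw at h1
      rw [mem_biUnion] at h1 ⊢
      obtain ⟨d, hd, h2⟩ := h1
      refine ⟨d, hd, ?_⟩
      rw [mem_Ioc] at h2 ⊢
      have := hlT d hd
      omega) Finset.disjoint_sdiff (fun w n => by
      have h1 := windowJR Qi 1 perB_Qi D l hdis H hHJ w n
      rw [hHg] at h1
      refine h1.trans ?_
      have h2 : (D.card : ℝ) ≤ m := by exact_mod_cast hD
      have h3 : (D.card : ℝ) * Mw w ≤ m * Mw w := mul_le_mul_of_nonneg_right h2 (Nat.cast_nonneg _)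
      linarith) u Y hu hY huY
  rw [← hVdef] at hmain
  obtain ⟨k1, k2⟩ := hmain
  have k3 := k2 {0}
  rw [← exJP_eq 1 b Qi (Jw D l) H y u Y hHJ] at k3
  rw [← hVdef]
  obtain ⟨N0, hN0⟩ : ∃ N0 : ℝ, N0 = ((Om 1 b (QH Qi H) y u Y).card : ℝ) := ⟨_, rfl⟩
  obtain ⟨M, hM⟩ : ∃ M : ℝ, M = Y * (Vq (QH Qi H) y / Vz y) := ⟨_, rfl⟩
  obtain ⟨e00, he00⟩ : ∃ e0 : ℝ, e0 = (exJP 1 b Qi (Jw D l) H y u Y : ℝ) := ⟨_, rfl⟩
  obtain ⟨w, hw⟩ : ∃ w : ℝ, w = ((Jw D l \ H).card : ℝ) := ⟨_, rfl⟩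
  obtain ⟨J, hJ⟩ : ∃ J : ℝ, J = ((Jw D l).card : ℝ) := ⟨_, rfl⟩
  have hM0 : 0 ≤ M := by
    rw [hM]
    exact mul_nonneg (Nat.cast_nonneg _) (div_nonneg (Vq_nonneg _ y) hVzpos.le)
  have hw0 : 0 ≤ w := by rw [hw]; exact Nat.cast_nonneg _
  have hwJ : w = J - g := by
    rw [hw, hJ, Finset.card_sdiff_of_subset hHJ, Nat.cast_sub (card_le_card hHJ), hHg]
  have hJz : J * V ≤ m * z := by
    have h1 : (Jw D l).card ≤ m * T := by
      refine (card_le_card ?_).trans (biU_card D m T hD)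
      intro h hh
      unfold Jw at hh
      rw [mem_biUnion] at hh ⊢
      obtain ⟨d, hd, h2⟩ := hh
      refine ⟨d, hd, ?_⟩
      rw [mem_Ioc] at h2 ⊢
      have := hlT d hd
      omega
    have h2 : J ≤ m * T := by
      rw [hJ]
      exact_mod_cast h1
    calc J * V ≤ m * T * V := mul_le_mul_of_nonneg_right h2 hV0.le
      _ = m * (T * V) := by ring
      _ ≤ m * z := mul_le_mul_of_nonneg_left hTz (by positivity)
  rw [← hN0, ← hM] at k1
  rw [← hN0, ← he00, ← hw] at k3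
  rw [← he00, ← hM, ← hJ]
  have k4' : |e00 - N0 * Real.exp (-(w * V))| ≤ ε1 / 8 * N0 := by simpa using k3
  obtain ⟨N, hN⟩ : ∃ N : ℝ, N = N0 * Real.log X := ⟨_, rfl⟩
  obtain ⟨e0, he0⟩ : ∃ e0 : ℝ, e0 = e00 * Real.log X := ⟨_, rfl⟩
  have k4 : |e0 - N * Real.exp (-(w * V))| ≤ ε1 / 8 * N := by
    have h7 := mul_le_mul_of_nonneg_right k4' hlX.le
    rw [← abs_of_nonneg hlX.le, ← abs_mul, abs_of_nonneg hlX.le] at h7
    have q1 : e0 - N * Real.exp (-(w * V)) = (e00 - N0 * Real.exp (-(w * V))) * Real.log X := by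
      rw [he0, hN]
      ring
    have q2 : ε1 / 8 * N = ε1 / 8 * N0 * Real.log X := by
      rw [hN]
      ring
    rw [q1, q2]
    exact h7
  rw [← hN] at k1
  rw [← he0]
  have hN2 : N ≤ 2 * M := by
    have h3 := (abs_le.1 k1).2
    nlinarith
  have hJ0 : 0 ≤ J := by rw [hJ]; exact Nat.cast_nonneg _
  have h1 := exp_sub_le (w * V) (J * V) (by positivity) (by positivity)
  have h2 : |w * V - J * V| ≤ ε1 / 16 := by
    have h3 : w * V - J * V = -(g * V) := by rw [hwJ]; ring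
    rw [h3, abs_neg, abs_of_nonneg (by positivity)]
    exact (mul_le_mul_of_nonneg_left hVκ (by positivity)).trans hκa
  have hew : 0 < Real.exp (-(w * V)) := Real.exp_pos _
  have hew1 : Real.exp (-(w * V)) ≤ 1 := Real.exp_le_one_iff.2 (by
    have : 0 ≤ w * V := by positivity
    linarith)
  have hfin : |e0 - M * Real.exp (-(J * V))| ≤ ε1 * M := by
    have e : e0 - M * Real.exp (-(J * V)) =
        (e0 - N * Real.exp (-(w * V))) + (N - M) * Real.exp (-(w * V)) +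
          M * (Real.exp (-(w * V)) - Real.exp (-(J * V))) := by ring
    rw [e]
    refine (abs_add_le _ _).trans ?_
    have h3 := abs_add_le (e0 - N * Real.exp (-(w * V))) ((N - M) * Real.exp (-(w * V)))
    have h4 : |(N - M) * Real.exp (-(w * V))| ≤ ε1 / 8 * M := by
      rw [abs_mul, abs_of_pos hew]
      calc |N - M| * Real.exp (-(w * V)) ≤ |N - M| * 1 := by gcongr
        _ ≤ _ := by linarith
    have h5 : |M * (Real.exp (-(w * V)) - Real.exp (-(J * V)))| ≤ M * (ε1 / 16) := by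
      rw [abs_mul, abs_of_nonneg hM0]
      exact mul_le_mul_of_nonneg_left (h1.trans h2) hM0
    have h6 : ε1 / 8 * N ≤ ε1 / 8 * (2 * M) := by gcongr
    have h7 : 0 ≤ ε1 * M := by positivity
    linarith
  refine hfin.trans ?_
  have h3 : ε1 ≤ ε * Real.exp (-(J * V)) := by
    refine (show ε1 ≤ ε * Real.exp (-(m * z)) by rw [hε1]; exact min_le_right _ _).trans ?_
    apply mul_le_mul_of_nonneg_left _ hε.le
    exact Real.exp_le_exp.2 (by linarith)
  calc ε1 * M ≤ ε * Real.exp (-(J * V)) * M := mul_le_mul_of_nonneg_right h3 hM0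
    _ = _ := by ring

end Pool.Agent.R463.EX
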