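import Pool.Agent.R463.EH2
import Pool.Agent.R463.EF8

set_option autoImplicit false

/-!
# The most frequent distances from a prime to the next integer without small prime factors: preparations
-/

namespace Pool.Agent.R463.EX

open Polynomial Finset Filter
open Pool.Agent.W123.RP Pool.Agent.H373R2.T7 Pool.Agent.W123.RU Pool.Agent.W123.RU.Poly
open Pool.Agent.TH464.PW Pool.Agent.TH464.PO Pool.Agent.Y879.GL Pool.Agent.R463.PP Pool.Agent.R463.PS

/-- **Extremal shifts**, up to any power of `log y`. -/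
theorem extremalB (ε : ℝ) (hε : 0 < ε) (M B : ℕ) : ∃ Y0 : ℕ, ∀ y : ℕ, Y0 ≤ y → ∃ h0 : ℕ, 1 ≤ h0 ∧
    (h0 : ℝ) ^ 2 ≤ Real.log y ∧ (∀ q : ℕ, q.Prime → q ≤ M → q ∣ h0) ∧ 2 ∣ h0 ∧
    ∀ h : ℕ, 1 ≤ h → (h : ℝ) ≤ Real.log y ^ B → Rh y h ≤ (1 + ε) * Rh y h0 := by
  have hlogy : Tendsto (fun y : ℕ => Real.log (y : ℝ)) atTop atTop :=
    Real.tendsto_log_atTop.comp tendsto_natCast_atTop_atTop
  have hll : Tendsto (fun y : ℕ => Real.log (Real.log (y : ℝ))) atTop atTop :=
    Real.tendsto_log_atTop.comp hlogy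
  have hlll : Tendsto (fun y : ℕ => Real.log (Real.log (Real.log (y : ℝ)) / 8)) atTop atTop := by
    apply Real.tendsto_log_atTop.comp
    exact hll.atTop_div_const (by norm_num)
  have hle : 0 < Real.log (1 + ε) := Real.log_pos (by linarith)
  have hBr : (0 : ℝ) ≤ B := Nat.cast_nonneg B
  obtain ⟨Y0, hY0⟩ := eventually_atTop.1 (((hll.eventually_ge_atTop (4 * (M + 8))).and
    (hlll.eventually_ge_atTop ((12 + 2 * B) / Real.log (1 + ε)))).and
      ((hlogy.eventually_ge_atTop 1).and (eventually_ge_atTop 3)))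
  refine ⟨Y0, fun y hy => ?_⟩
  obtain ⟨⟨g1, g2⟩, g3, g4⟩ := hY0 y hy
  obtain ⟨u, hu⟩ : ∃ u : ℝ, u = Real.log (Real.log (y : ℝ)) := ⟨_, rfl⟩
  rw [← hu] at g1 g2
  have hM0 : (0 : ℝ) ≤ M := Nat.cast_nonneg M
  have hu32 : 32 ≤ u := by linarith
  have hyr : (3 : ℝ) ≤ y := by exact_mod_cast g4
  have hly : 0 < Real.log (y : ℝ) := by linarith
  obtain ⟨t, ht⟩ : ∃ t, t = ⌊u⌋₊ := ⟨_, rfl⟩
  obtain ⟨t', ht'⟩ : ∃ t', t' = ⌊u / 4⌋₊ := ⟨_, rfl⟩
  have ht1 : (t : ℝ) ≤ u := by rw [ht]; exact Nat.floor_le (by linarith)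
  have ht2 : u < t + 1 := by rw [ht]; exact Nat.lt_floor_add_one u
  have ht1' : (t' : ℝ) ≤ u / 4 := by rw [ht']; exact Nat.floor_le (by linarith)
  have ht2' : u / 4 < t' + 1 := by rw [ht']; exact Nat.lt_floor_add_one _
  have htt : t' ≤ t := by rw [ht, ht']; exact Nat.floor_le_floor (by linarith)
  have ht7 : 7 ≤ t' := by
    have : (7 : ℝ) ≤ t' := by linarith
    exact_mod_cast this
  have huy : u ≤ y := by
    have h1 := Real.log_le_sub_one_of_pos hly
    have h2 := Real.log_le_sub_one_of_pos (show (0 : ℝ) < y by linarith)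
    rw [hu]
    linarith
  have hty : t' ≤ y := by
    have : (t' : ℝ) ≤ y := by linarith
    exact_mod_cast this
  have hlog4 : Real.log 4 ≤ 3 / 2 := by
    have h1 : Real.log 4 = 2 * Real.log 2 := by
      rw [show (4 : ℝ) = 2 ^ 2 by norm_num, Real.log_pow]
      norm_num
    have := Real.log_two_lt_d9
    linarith
  have hlog4' : 0 < Real.log 4 := Real.log_pos (by norm_num)
  refine ⟨primorial t', primorial_pos t', ?_, ?_, dvd_primorial 2 t' Nat.prime_two (by omega), ?_⟩
  · have h1 : ((primorial t' : ℕ) : ℝ) ≤ (4 : ℝ) ^ t' := by exact_mod_cast primorial_le_four_pow t'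
    have h2 : (4 : ℝ) ^ t' = Real.exp (t' * Real.log 4) := by
      rw [mul_comm, ← Real.rpow_def_of_pos (by norm_num), Real.rpow_natCast]
    calc ((primorial t' : ℕ) : ℝ) ^ 2 ≤ ((4 : ℝ) ^ t') ^ 2 := pow_le_pow_left₀ (Nat.cast_nonneg _) h1 2
      _ = Real.exp (2 * (t' * Real.log 4)) := by
          rw [h2, ← Real.exp_nat_mul]
          norm_num
      _ ≤ Real.exp u := by
          apply Real.exp_le_exp.2
          have h3 : (t' : ℝ) * Real.log 4 ≤ u / 4 * (3 / 2) := by
            apply mul_le_mul ht1' hlog4 hlog4'.le (by linarith)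
          linarith
      _ = Real.log y := by rw [hu, Real.exp_log hly]
  · intro q hq hqM
    apply dvd_primorial q t' hq
    have h1 : (q : ℝ) ≤ M := by exact_mod_cast hqM
    have h2 : (q : ℝ) ≤ t' := by linarith
    exact_mod_cast h2
  · intro h hh1 hh2
    have htr : (7 : ℝ) ≤ t' := by exact_mod_cast ht7
    have hu8 : 1 < u / 8 := by linarith
    have hl8 : 0 < Real.log (u / 8) := Real.log_pos hu8
    have hlt' : Real.log (u / 8) ≤ Real.log t' := Real.log_le_log (by linarith) (by linarith)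
    have hlt : Real.log (u / 8) ≤ Real.log t := Real.log_le_log (by linarith) (by linarith)
    have h1 := Rh_le y h t (by omega) hh1
    have h2 := At_le t t' (by omega) htt
    have h3 := Rh_primorial y t' hty
    have hh1r : (1 : ℝ) ≤ h := by exact_mod_cast hh1
    have hlh : Real.log h ≤ B * u := by
      have h4 := Real.log_le_log (by linarith) hh2
      rw [Real.log_pow] at h4
      rw [hu]
      exact_mod_cast h4
    have hlh0 : 0 ≤ Real.log (h : ℝ) := Real.log_nonneg hh1r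
    have e1 : Real.log h / (((t : ℝ) - 1) * Real.log t) ≤ (2 * B) / Real.log (u / 8) := by
      rw [div_le_div_iff₀ (mul_pos (by linarith) (by linarith)) hl8]
      calc Real.log h * Real.log (u / 8) ≤ B * u * Real.log (u / 8) :=
            mul_le_mul_of_nonneg_right hlh hl8.le
        _ ≤ B * (2 * ((t : ℝ) - 1)) * Real.log (u / 8) := by
            apply mul_le_mul_of_nonneg_right _ hl8.le
            apply mul_le_mul_of_nonneg_left _ hBr
            linarith
        _ = 2 * B * (((t : ℝ) - 1) * Real.log (u / 8)) := by ring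
        _ ≤ 2 * B * (((t : ℝ) - 1) * Real.log t) := by
            apply mul_le_mul_of_nonneg_left _ (by positivity)
            exact mul_le_mul_of_nonneg_left hlt (by linarith)
    have e2 : t * Real.log 4 / (((t' : ℝ) - 1) * Real.log t') ≤ 12 / Real.log (u / 8) := by
      rw [div_le_div_iff₀ (mul_pos (by linarith) (by linarith)) hl8]
      have h5 : (t : ℝ) * Real.log 4 ≤ u * (3 / 2) := mul_le_mul ht1 hlog4 hlog4'.le (by linarith)
      calc (t : ℝ) * Real.log 4 * Real.log (u / 8) ≤ u * (3 / 2) * Real.log (u / 8) :=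
            mul_le_mul_of_nonneg_right h5 hl8.le
        _ ≤ 12 * (((t' : ℝ) - 1) * Real.log (u / 8)) := by nlinarith
        _ ≤ 12 * (((t' : ℝ) - 1) * Real.log t') := by
            apply mul_le_mul_of_nonneg_left _ (by norm_num)
            exact mul_le_mul_of_nonneg_left hlt' (by linarith)
    have hexp : Real.exp (12 / Real.log (u / 8)) * Real.exp ((2 * B) / Real.log (u / 8)) ≤ 1 + ε := by
      rw [← Real.exp_add, ← add_div]
      have h5 : (12 + 2 * B) / Real.log (u / 8) ≤ Real.log (1 + ε) := by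
        rw [div_le_iff₀ hl8]
        rw [div_le_iff₀ hle] at g2
        linarith
      calc Real.exp ((12 + 2 * B) / Real.log (u / 8)) ≤ Real.exp (Real.log (1 + ε)) :=
            Real.exp_le_exp.2 h5
        _ = 1 + ε := Real.exp_log (by linarith)
    have hA0 : 0 ≤ At t' := by
      have := At_pos t'
      linarith
    calc Rh y h ≤ At t * Real.exp (Real.log h / (((t : ℝ) - 1) * Real.log t)) := h1
      _ ≤ (At t' * Real.exp (t * Real.log 4 / (((t' : ℝ) - 1) * Real.log t'))) *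
          Real.exp ((2 * B) / Real.log (u / 8)) := by
          apply mul_le_mul h2 (Real.exp_le_exp.2 e1) (Real.exp_pos _).le
          exact mul_nonneg hA0 (Real.exp_pos _).le
      _ ≤ (At t' * Real.exp (12 / Real.log (u / 8))) * Real.exp ((2 * B) / Real.log (u / 8)) := by
          apply mul_le_mul_of_nonneg_right _ (Real.exp_pos _).le
          exact mul_le_mul_of_nonneg_left (Real.exp_le_exp.2 e2) hA0
      _ = At t' * (Real.exp (12 / Real.log (u / 8)) * Real.exp ((2 * B) / Real.log (u / 8))) := by ring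
      _ ≤ At t' * (1 + ε) := mul_le_mul_of_nonneg_left hexp hA0
      _ ≤ Rh y (primorial t') * (1 + ε) := mul_le_mul_of_nonneg_right h3 (by linarith)
      _ = _ := mul_comm _ _

/-- the number of the primes `u < n ≤ u + Y` for which the next integer without prime factors `p ≤ y` is
`n + h` -/
noncomputable def GpP (y u Y h : ℕ) : ℕ := exP 1 0 Qi {0, h} h y u Y

lemma GpP_trivial (y u Y h : ℕ) : GpP y u Y h * h ≤ Y + h := by
  have h1 : GpP y u Y h ≤ Gp y u Y h := exP_le 1 0 Qi {0, h} h y u Y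
  exact (Nat.mul_le_mul_right h h1).trans (Gp_trivial y u Y h)

open Classical in
/-- only the first part of a long gap is used -/
lemma GpP_far (y u Y h T : ℕ) (hT : T + 1 ≤ h) :
    GpP y u Y h ≤ exJP 1 1 Qi (Jw {0, h} (fun d => if d = 0 then T + 1 else 1)) {1, 1 + h} y (u - 1) Y := by
  unfold GpP exP exJP
  apply Finset.card_le_card_of_injOn (fun n => n - 1)
  · intro n hn
    rw [Finset.mem_coe, mem_filter, mem_Ioc] at hn
    obtain ⟨hn1, hn2, hn3⟩ := hn
    rw [one_mul, add_zero] at hn2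
    have hn0 := hn2.two_le
    rw [Finset.mem_coe, mem_filter, mem_Ioc]
    beta_reduce
    refine ⟨⟨by omega, by omega⟩, ?_, ?_⟩
    · rw [one_mul, show n - 1 + 1 = n by omega]
      exact hn2
    intro j hj
    unfold Jw at hj
    rw [mem_biUnion] at hj
    obtain ⟨d, hd, hj⟩ := hj
    rw [mem_insert, mem_singleton] at hd
    rw [mem_Ioc] at hj
    beta_reduce at hj
    have hj1 : 1 ≤ j ∧ j ≤ h + 1 := by
      rcases hd with rfl | rfl
      · rw [if_pos rfl] at hj
        omega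
      · split_ifs at hj <;> omega
    have h4 := hn3 (j - 1) (by omega)
    rw [show n + (j - 1) = n - 1 + j by omega] at h4
    rw [h4, mem_insert, mem_singleton, mem_insert, mem_singleton]
    omega
  · intro n hn n' hn' e
    rw [Finset.mem_coe, mem_filter, mem_Ioc] at hn hn'
    have h1 := hn.2.1.two_le
    have h2 := hn'.2.1.two_le
    have : n - 1 = n' - 1 := e
    omega

/-- the asymptotic formula for the number of the gaps of length `h` after primes -/
lemma GpP_asym (ε δ : ℝ) (hε : 0 < ε) (hδ : 0 < δ) (hδ1 : δ ≤ 1) : ∃ s y0 : ℕ, ∀ y : ℕ, y0 ≤ y → ∀ X : ℕ,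
    y ^ s ≤ X → ∀ u Y : ℕ, δ * X ≤ u → δ * X ≤ Y → u + Y ≤ X → ∀ h : ℕ,
    1 ≤ h → h * Vq Qi y ≤ 4 →
    |(GpP y u Y h : ℝ) * Real.log X - Y * (Vp y h / Vz y) * Real.exp (-(h * Vq Qi y))| ≤
      ε * (Y * (Vp y h / Vz y) * Real.exp (-(h * Vq Qi y))) := by
  obtain ⟨s, y0, h0⟩ := prime_rough 2 (by norm_num) 4 ε δ hε hδ hδ1
  refine ⟨s, y0, fun y hy X hX u Y hu hY huY h hh1 hh4 => ?_⟩
  have h1 := h0 y hy X hX {0, h} (card_pair (by omega)) (by simp) 0 (by simp) h (by
    intro x hx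
    rw [mem_insert, mem_singleton] at hx
    rw [mem_range]
    omega) hh4 u Y hu hY huY
  have h2 : Vq (QH Qi {0, h}) y = Vp y h := by
    have := Vq_pair y h 0
    rwa [zero_add] at this
  rw [h2] at h1
  exact h1

/-- an upper bound for the number of the long gaps of length `h` after primes -/
lemma GpP_long (ε δ : ℝ) (A : ℕ) (hε : 0 < ε) (hδ : 0 < δ) (hδ1 : δ ≤ 1) : ∃ s y0 : ℕ, ∀ y : ℕ, y0 ≤ y →
    ∀ X : ℕ, y ^ s ≤ X → ∀ u Y : ℕ, δ * X ≤ u → δ * X ≤ Y → u + Y ≤ X → ∀ h : ℕ,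
    3 < h * Vq Qi y → h + 1 ≤ y ^ A →
    (GpP y u Y h : ℝ) * Real.log X ≤ (1 + ε) * (Y * (Vp y h / Vz y) / 8) := by
  obtain ⟨s, y0, h0⟩ := pattPF 2 2 (by norm_num) (by norm_num) 4 ε (δ / 2) A hε (by positivity)
    (by linarith)
  obtain ⟨Xd, hXd⟩ : ∃ Xd : ℕ, 2 / δ ≤ Xd := exists_nat_ge _
  refine ⟨s + 1, max y0 (max Xd 2), fun y hy X hX u Y hu hY huY h hh3 hhy => ?_⟩
  have hy0 : y0 ≤ y := (le_max_left _ _).trans hy
  have hyd : Xd ≤ y := ((le_max_left _ _).trans (le_max_right _ _)).trans hy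
  have hy2 : 2 ≤ y := ((le_max_right _ _).trans (le_max_right _ _)).trans hy
  have hyX : y ≤ X := (Nat.le_self_pow (by omega) y).trans hX
  have hX1 : (1 : ℝ) ≤ X := by exact_mod_cast (by omega : 1 ≤ X)
  have hXδ : 2 ≤ δ * X := by
    rw [div_le_iff₀ hδ] at hXd
    have h1 : (Xd : ℝ) ≤ X := by exact_mod_cast hyd.trans hyX
    have := mul_le_mul_of_nonneg_left h1 hδ.le
    linarith
  have hu1 : 1 ≤ u := by
    have : (1 : ℝ) ≤ u := by linarith
    exact_mod_cast this
  have hl0 : 0 ≤ Real.log (X : ℝ) := Real.log_nonneg hX1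
  have hV0 : 0 < Vq Qi y := by
    rcases (Vq_nonneg Qi y).eq_or_lt with h1 | h1
    · rw [← h1, mul_zero] at hh3
      linarith
    · exact h1
  have hV1 : Vq Qi y ≤ 1 := Vq_le_one _ y
  obtain ⟨T, hT⟩ : ∃ T, T = ⌊3 / Vq Qi y⌋₊ := ⟨_, rfl⟩
  have hT1 : (T : ℝ) ≤ 3 / Vq Qi y := by rw [hT]; exact Nat.floor_le (by positivity)
  have hT2 : 3 / Vq Qi y < T + 1 := by rw [hT]; exact Nat.lt_floor_add_one _
  have hTV : (T : ℝ) * Vq Qi y ≤ 3 := by rwa [le_div_iff₀ hV0] at hT1
  have hTV2 : 3 < ((T : ℝ) + 1) * Vq Qi y := by rwa [div_lt_iff₀ hV0] at hT2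
  have hTh : T + 1 ≤ h := by
    have h1 : (T : ℝ) < h := by
      by_contra hcon
      push Not at hcon
      have := mul_le_mul_of_nonneg_right hcon hV0.le
      linarith
    have h2 : T < h := by exact_mod_cast h1
    omega
  obtain ⟨l, hl⟩ : ∃ l : ℕ → ℕ, l = fun d => if d = 0 then T + 1 else 1 := ⟨_, rfl⟩
  have hl0' : l 0 = T + 1 := by rw [hl]; exact if_pos rfl
  have hlh : l h = 1 := by rw [hl]; exact if_neg (by omega)
  have hJ : Jw {0, h} l = Ioc 0 (T + 1) ∪ Ioc h (h + 1) := by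
    unfold Jw
    rw [biUnion_insert, singleton_biUnion, hl0', hlh, zero_add]
  have hdis : Disjoint (Ioc 0 (T + 1)) (Ioc h (h + 1)) := by
    rw [Finset.disjoint_left]
    intro x hx hx'
    rw [mem_Ioc] at hx hx'
    omega
  have hJc : (Jw {0, h} l).card = T + 2 := by
    rw [hJ, card_union_of_disjoint hdis, Nat.card_Ioc, Nat.card_Ioc]
    omega
  have h1 := h0 y hy0 X ((Nat.pow_le_pow_right (by omega) (by omega)).trans hX) {0, h} l (card_le_two) (by
    intro d hd d' hd' hne
    rw [Finset.mem_coe, mem_insert, mem_singleton] at hd hd'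
    rcases hd with rfl | rfl <;> rcases hd' with rfl | rfl
    · exact absurd rfl hne
    · rw [Function.onFun, hl0', hlh, zero_add]
      exact hdis
    · rw [Function.onFun, hl0', hlh, zero_add]
      exact hdis.symm
    · exact absurd rfl hne) (by
    intro d hd
    rw [mem_insert, mem_singleton] at hd
    rcases hd with rfl | rfl
    · rw [hl0']
      omega
    · rw [hlh]
      omega) (by
    intro d hd
    rw [mem_insert, mem_singleton] at hd
    rcases hd with rfl | rfl
    · rw [hl0']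
      push_cast
      linarith
    · rw [hlh]
      push_cast
      linarith) {1, 1 + h} (by
    intro x hx
    rw [mem_insert, mem_singleton] at hx
    rw [hJ, mem_union, mem_Ioc, mem_Ioc]
    omega) (card_pair (by omega)) 1 (by simp) (u - 1) Y (by
      rw [Nat.cast_sub hu1, Nat.cast_one]
      linarith) (by linarith) (by omega)
  rw [Vq_pair, hJc] at h1
  have h2 := GpP_far y u Y h T hTh
  rw [← hl] at h2
  have h2' : (GpP y u Y h : ℝ) ≤ (exJP 1 1 Qi (Jw {0, h} l) {1, 1 + h} y (u - 1) Y : ℝ) := by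
    exact_mod_cast h2
  have hVp0 : 0 ≤ Vp y h := by
    rw [← Vq_pair y h 0]
    exact Vq_nonneg _ y
  have hVz := Pool.Agent.H373R2.T7.Vz_pos y
  have h3 : Real.exp (-(((T + 2 : ℕ) : ℝ) * Vq Qi y)) ≤ 1 / 8 := by
    have h4 : -(((T + 2 : ℕ) : ℝ) * Vq Qi y) ≤ -3 := by
      push_cast
      nlinarith
    have h5 : Real.exp (-3) ≤ 1 / 8 := by
      rw [Real.exp_neg, ← one_div]
      apply one_div_le_one_div_of_le (by norm_num)
      have h6 : (2 : ℝ) ≤ Real.exp 1 := by
        have := Real.exp_one_gt_d9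
        linarith
      calc (8 : ℝ) = 2 ^ 3 := by norm_num
        _ ≤ Real.exp 1 ^ 3 := pow_le_pow_left₀ (by norm_num) h6 3
        _ = Real.exp 3 := by
            rw [← Real.exp_nat_mul]
            norm_num
    exact (Real.exp_le_exp.2 h4).trans h5
  have h4 := (abs_le.1 h1).2
  have hn : (0 : ℝ) ≤ Y * (Vp y h / Vz y) := by positivity
  have h5 : Y * (Vp y h / Vz y) * Real.exp (-(((T + 2 : ℕ) : ℝ) * Vq Qi y)) ≤
      Y * (Vp y h / Vz y) / 8 := by
    calc Y * (Vp y h / Vz y) * Real.exp (-(((T + 2 : ℕ) : ℝ) * Vq Qi y)) ≤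
          Y * (Vp y h / Vz y) * (1 / 8) := mul_le_mul_of_nonneg_left h3 hn
      _ = _ := by ring
  have h6 := mul_le_mul_of_nonneg_left h5 (by linarith : (0 : ℝ) ≤ 1 + ε)
  have h7 := mul_le_mul_of_nonneg_right h2' hl0
  linarith

end Pool.Agent.R463.EX
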