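import Pool.Agent.R463.EH3

set_option autoImplicit false

/-!
# The most frequent distances from a prime to the next integer without small prime factors
-/

namespace Pool.Agent.R463.EX

open Polynomial Finset Filter
open Pool.Agent.W123.RP Pool.Agent.H373R2.T7 Pool.Agent.W123.RU Pool.Agent.W123.RU.Poly
open Pool.Agent.TH464.PW Pool.Agent.TH464.PO Pool.Agent.Y879.GL Pool.Agent.R463.PP Pool.Agent.R463.PS

lemma ev_logsP (v : ℝ) (A : ℕ) (hv : 0 < v) : ∀ᶠ y : ℕ in atTop,
    100 * Real.log y ^ (A + 2) ≤ v * y ∧ Real.log y ^ (A + 4) + 1 ≤ y := by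
  have h1 : (fun y : ℕ => Real.log (y : ℝ) ^ (A + 4)) =o[atTop] (fun y : ℕ => (y : ℝ)) := by
    have := (isLittleO_log_rpow_rpow_atTop ((A + 4 : ℕ) : ℝ) (show (0 : ℝ) < 1 by norm_num)).comp_tendsto
      tendsto_natCast_atTop_atTop
    refine this.congr (fun y => ?_) (fun y => ?_)
    · simp only [Function.comp]
      exact Real.rpow_natCast (Real.log (y : ℝ)) (A + 4)
    · simp [Function.comp]
  have h2 : (fun y : ℕ => Real.log (y : ℝ) ^ (A + 2)) =o[atTop] (fun y : ℕ => (y : ℝ)) := by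
    have := (isLittleO_log_rpow_rpow_atTop ((A + 2 : ℕ) : ℝ) (show (0 : ℝ) < 1 by norm_num)).comp_tendsto
      tendsto_natCast_atTop_atTop
    refine this.congr (fun y => ?_) (fun y => ?_)
    · simp only [Function.comp]
      exact Real.rpow_natCast (Real.log (y : ℝ)) (A + 2)
    · simp [Function.comp]
  filter_upwards [h1.bound (show (0 : ℝ) < 1 / 2 by norm_num),
    h2.bound (show (0 : ℝ) < v / 100 by positivity), eventually_ge_atTop 2] with y g1 g2 g3
  have hy : (2 : ℝ) ≤ y := by exact_mod_cast g3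
  have hl : 0 ≤ Real.log (y : ℝ) := Real.log_nonneg (by linarith)
  rw [Real.norm_of_nonneg (by positivity), Real.norm_of_nonneg (by positivity)] at g1 g2
  constructor <;> linarith

/-- **The most frequent distances from a prime to the next integer without small prime factors.** -/
theorem champP (M A : ℕ) (δ : ℝ) (hδ : 0 < δ) (hδ1 : δ ≤ 1) : ∃ c : ℝ, 0 < c ∧ c < 1 ∧ ∃ s y0 : ℕ,
    ∀ y : ℕ, y0 ≤ y → ∀ X : ℕ, y ^ s ≤ X → Real.log X ≤ Real.log y ^ A → ∀ u Y : ℕ, δ * X ≤ u →
    δ * X ≤ Y → u + Y ≤ X →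
    ∀ h : ℕ, 1 ≤ h → (∀ h' : ℕ, 1 ≤ h' → (1 - c) * GpP y u Y h' ≤ GpP y u Y h) →
      (∀ q : ℕ, q.Prime → q ≤ M → q ∣ h) ∧ M * h ≤ Real.log y := by
  obtain ⟨c1, C1, hc1, hC1, hVz⟩ := Vz_bounds
  obtain ⟨v, hv, hVp⟩ := Vp2_ge
  obtain ⟨N, hN⟩ : ∃ N, N = max M 3 := ⟨_, rfl⟩
  have hMN : M ≤ N := by rw [hN]; exact le_max_left _ _
  have hN3 : 3 ≤ N := by rw [hN]; exact le_max_right _ _
  have hNr : (3 : ℝ) ≤ N := by exact_mod_cast hN3
  have hMNr : (M : ℝ) ≤ N := by exact_mod_cast hMN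
  obtain ⟨t, ht⟩ : ∃ t : ℝ, t = 1 / N := ⟨_, rfl⟩
  have ht0 : 0 < t := by rw [ht]; positivity
  have ht3 : t ≤ 1 / 3 := by rw [ht]; exact one_div_le_one_div_of_le (by norm_num) hNr
  have hNt : (N : ℝ) * t = 1 := by rw [ht]; field_simp
  obtain ⟨c0, hc0⟩ : ∃ c0 : ℝ, c0 = min (t ^ 2 / 4) (c1 * t) := ⟨_, rfl⟩
  have hc0p : 0 < c0 := by rw [hc0]; positivity
  have hc0a : c0 ≤ t ^ 2 / 4 := by rw [hc0]; exact min_le_left _ _
  have hc0b : c0 ≤ c1 * t := by rw [hc0]; exact min_le_right _ _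
  have hc036 : c0 ≤ 1 / 36 := by
    have : t ^ 2 ≤ (1 / 3) ^ 2 := pow_le_pow_left₀ ht0.le ht3 2
    linarith
  obtain ⟨ε, hε⟩ : ∃ ε : ℝ, ε = c0 / 16 := ⟨_, rfl⟩
  have hε0 : 0 < ε := by rw [hε]; positivity
  have hε1 : ε ≤ 1 / 576 := by rw [hε]; linarith
  obtain ⟨s1, y1, hasy⟩ := GpP_asym ε δ hε0 hδ hδ1
  obtain ⟨s2, y2, hlong⟩ := GpP_long ε δ 1 hε0 hδ hδ1
  obtain ⟨y3, hext⟩ := extremalB ε hε0 N (A + 4)
  have hlogy : Tendsto (fun y : ℕ => Real.log (y : ℝ)) atTop atTop :=
    Real.tendsto_log_atTop.comp tendsto_natCast_atTop_atTop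
  obtain ⟨y4, hy4⟩ := eventually_atTop.1 (((ev_logsP v A hv).and
    (hlogy.eventually_ge_atTop ((C1 / ε) ^ 2))).and
      (((hlogy.eventually_ge_atTop 1).and (hlogy.eventually_ge_atTop (3 / c1))).and
        ((hlogy.eventually_ge_atTop (8 / v)).and (eventually_ge_atTop 3))))
  obtain ⟨yd, hyd⟩ : ∃ yd : ℕ, 1 / δ ≤ yd := exists_nat_ge _
  refine ⟨ε, hε0, by linarith, max s1 s2 + 2, max (max y1 y2) (max y3 (max y4 (max N yd))), ?_⟩
  intro y hy X hX hXA u Y hu hY huY h hh1 hmax
  have k1 : y1 ≤ y := ((le_max_left _ _).trans (le_max_left _ _)).trans hy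
  have k2 : y2 ≤ y := ((le_max_right _ _).trans (le_max_left _ _)).trans hy
  have k3 : y3 ≤ y := ((le_max_left _ _).trans (le_max_right _ _)).trans hy
  have k45 : max y4 (max N yd) ≤ y := ((le_max_right _ _).trans (le_max_right _ _)).trans hy
  have k4 : y4 ≤ y := (le_max_left _ _).trans k45
  have k5 : N ≤ y := ((le_max_left _ _).trans (le_max_right _ _)).trans k45
  have k6 : yd ≤ y := ((le_max_right _ _).trans (le_max_right _ _)).trans k45
  have hy1' : 1 ≤ y := by omega
  have hXs1 : y ^ s1 ≤ X := (Nat.pow_le_pow_right hy1' (by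
    have := le_max_left s1 s2
    omega)).trans hX
  have hXs2 : y ^ s2 ≤ X := (Nat.pow_le_pow_right hy1' (by
    have := le_max_right s1 s2
    omega)).trans hX
  have hXy2 : y ^ 2 ≤ X := (Nat.pow_le_pow_right hy1' (by omega)).trans hX
  obtain ⟨⟨⟨g2, g1⟩, g3⟩, ⟨g4, g5⟩, g6, g7⟩ := hy4 y k4
  obtain ⟨h0, a1, a2, a3, a4, a5⟩ := hext y k3
  have hA := hasy y k1 X hXs1 u Y hu hY huY
  have hL := hlong y k2 X hXs2 u Y hu hY huY
  obtain ⟨V, hV⟩ : ∃ V : ℝ, V = Vq Qi y := ⟨_, rfl⟩
  have hVzp := Pool.Agent.H373R2.T7.Vz_pos y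
  have hVz1 := Pool.Agent.H373R2.T7.Vz_le_one y
  have hVb := hVz y (by omega)
  rw [← Vz_Qi', ← hV] at hVb
  rw [← hV] at hA hL
  obtain ⟨L, hLdef⟩ : ∃ L : ℝ, L = Real.log y := ⟨_, rfl⟩
  rw [← hLdef] at hVb a2 a5 g1 g2 g3 g4 g5 g6 hXA ⊢
  have hL0 : 0 < L := by linarith
  have hV0 : 0 < V := lt_of_lt_of_le (by positivity) hVb.1
  obtain ⟨F, hF⟩ : ∃ F : ℝ, F = Y * (Vp y 2 / Vz y) := ⟨_, rfl⟩
  have hyr : (3 : ℝ) ≤ y := by exact_mod_cast g7
  have hyX : (y : ℝ) ≤ X := by
    have h1 : y ≤ y ^ 2 := Nat.le_self_pow (by norm_num) y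
    exact_mod_cast h1.trans hXy2
  have hYr : (y : ℝ) ≤ Y := by
    refine le_trans ?_ hY
    have h1 : (y : ℝ) ^ 2 ≤ X := by exact_mod_cast hXy2
    have h2 : 1 ≤ δ * y := by
      rw [div_le_iff₀ hδ] at hyd
      have h3 : (yd : ℝ) ≤ y := by exact_mod_cast k6
      have h4 := mul_le_mul_of_nonneg_left h3 hδ.le
      linarith
    calc (y : ℝ) = 1 * y := (one_mul _).symm
      _ ≤ δ * y * y := mul_le_mul_of_nonneg_right h2 (by linarith)
      _ = δ * (y ^ 2) := by ring
      _ ≤ δ * X := mul_le_mul_of_nonneg_left h1 hδ.le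
  have hlX0 : 0 < Real.log (X : ℝ) := by
    apply Real.log_pos
    linarith
  have hVp0 : ∀ h, 0 ≤ Vp y h := fun h => by
    rw [← Vq_pair y h 0]
    exact Vq_nonneg _ y
  have hFlow : Y * (v / L ^ 2) ≤ F := by
    have e := hVp y (by omega)
    rw [← hLdef] at e
    rw [hF]
    apply mul_le_mul_of_nonneg_left _ (Nat.cast_nonneg _)
    refine e.trans ?_
    rw [le_div_iff₀ hVzp]
    calc Vp y 2 * Vz y ≤ Vp y 2 * 1 := mul_le_mul_of_nonneg_left hVz1 (hVp0 2)
      _ = Vp y 2 := mul_one _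
  have hYvA : 100 * L ^ A ≤ Y * (v / L ^ 2) := by
    rw [mul_div_assoc', le_div_iff₀ (by positivity)]
    have h1 : v * y ≤ v * Y := mul_le_mul_of_nonneg_left hYr hv.le
    have h2 : L ^ (A + 2) = L ^ A * L ^ 2 := pow_add _ _ _
    rw [h2] at g2
    linarith
  have hLA1 : 1 ≤ L ^ A := one_le_pow₀ g4
  have hYv : 100 ≤ Y * (v / L ^ 2) := by linarith
  have hF0 : 0 < F := by linarith
  obtain ⟨G, hG⟩ : ∃ G : ℕ → ℝ, G = fun h => (GpP y u Y h : ℝ) * Real.log X := ⟨_, rfl⟩
  have hGe : ∀ h, (GpP y u Y h : ℝ) * Real.log X = G h := fun h => by rw [hG]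
  have hmax' : ∀ h' : ℕ, 1 ≤ h' → (1 - ε) * G h' ≤ G h := by
    intro h' hh'
    rw [← hGe, ← hGe, ← mul_assoc]
    exact mul_le_mul_of_nonneg_right (hmax h' hh') hlX0.le
  have hGtriv : ∀ h : ℕ, 1 ≤ h → G h ≤ (Y / h + 1) * L ^ A := by
    intro h hh
    have b3 : (GpP y u Y h : ℝ) * h ≤ Y + h := by exact_mod_cast GpP_trivial y u Y h
    have hhr : (0 : ℝ) < h := by
      have : (1 : ℝ) ≤ h := by exact_mod_cast hh
      linarith
    have b4 : (GpP y u Y h : ℝ) ≤ Y / h + 1 := by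
      rw [← sub_le_iff_le_add, le_div_iff₀ hhr]
      linarith
    rw [← hGe]
    exact mul_le_mul b4 hXA hlX0.le (by positivity)
  clear hmax
  -- the even and the odd gaps
  have hodd : ∀ h : ℕ, 1 ≤ h → h * V ≤ 4 → ¬ 2 ∣ h → G h = 0 := by
    intro h e1 e2 e3
    have e4 := hA h e1 e2
    rw [hGe, Vp_odd y h (by omega) e3, zero_div, mul_zero, zero_mul, mul_zero, sub_zero] at e4
    exact abs_eq_zero.1 (le_antisymm e4 (abs_nonneg _))
  have heven : ∀ h : ℕ, 1 ≤ h → h * V ≤ 4 → 2 ∣ h →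
      (1 - ε) * (F * Rh y h * Real.exp (-(h * V))) ≤ G h ∧
        G h ≤ (1 + ε) * (F * Rh y h * Real.exp (-(h * V))) := by
    intro h e1 e2 e3
    have e4 := abs_le.1 (hA h e1 e2)
    have e5 : (Y : ℝ) * (Vp y h / Vz y) = F * Rh y h := by
      rw [Vp_eq y h e3, hF]
      ring
    rw [hGe, e5] at e4
    constructor <;> linarith [e4.1, e4.2]
  obtain ⟨P, hP⟩ : ∃ P : ℝ, P = F * Rh y h0 := ⟨_, rfl⟩
  have hPF : F ≤ P := by
    rw [hP]
    have := mul_le_mul_of_nonneg_left (Rh_ge y h0) hF0.le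
    linarith
  have hP100 : 100 ≤ P := by linarith
  have hP0 : 0 < P := by linarith
  have hh0V : h0 * V ≤ ε := by
    have e1 : (h0 : ℝ) * V ≤ h0 * (C1 / L) := mul_le_mul_of_nonneg_left hVb.2 (Nat.cast_nonneg _)
    have e2 : ((h0 : ℝ) * (C1 / L)) ^ 2 ≤ ε ^ 2 := by
      have e3 : ((h0 : ℝ) * (C1 / L)) ^ 2 = (h0 : ℝ) ^ 2 * (C1 ^ 2 / L ^ 2) := by ring
      rw [e3]
      have e4 : C1 ^ 2 ≤ ε ^ 2 * L := by
        rw [div_pow, div_le_iff₀ (by positivity)] at g3
        linarith
      calc (h0 : ℝ) ^ 2 * (C1 ^ 2 / L ^ 2) ≤ L * (C1 ^ 2 / L ^ 2) :=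
            mul_le_mul_of_nonneg_right a2 (by positivity)
        _ = C1 ^ 2 / L := by field_simp
        _ ≤ ε ^ 2 := by
            rw [div_le_iff₀ hL0]
            exact e4
    exact e1.trans (le_of_sq_le_sq e2 hε0.le)
  have hlow0 : (1 - ε) * ((1 - ε) * P) ≤ G h0 := by
    have e1 := (heven h0 a1 (by linarith) a4).1
    refine le_trans ?_ e1
    apply mul_le_mul_of_nonneg_left _ (by linarith)
    rw [← hP, mul_comm]
    apply mul_le_mul_of_nonneg_left _ hP0.le
    have := Real.add_one_le_exp (-(h0 * V))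
    linarith
  have hm0 := hmax' h0 a1
  have hm1 : (1 - ε) * ((1 - ε) * ((1 - ε) * P)) ≤ G h :=
    (mul_le_mul_of_nonneg_left hlow0 (by linarith)).trans hm0
  have hm2 : (1 - 3 * ε) * P ≤ G h := by
    refine le_trans ?_ hm1
    have e1 : (1 - ε) * ((1 - ε) * ((1 - ε) * P)) - (1 - 3 * ε) * P = ε ^ 2 * (3 - ε) * P := by ring
    have e2 : 0 ≤ ε ^ 2 * (3 - ε) * P := by
      have : 0 ≤ 3 - ε := by linarith
      positivity
    linarith
  -- the gap is short
  have hshort : h * V < c0 := by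
    by_contra hcon
    push Not at hcon
    rcases le_or_gt ((h : ℝ) * V) 3 with b1 | b1
    · by_cases b2 : 2 ∣ h
      · have b3 := (heven h hh1 (by linarith) b2).2
        have b4 : (h : ℝ) ≤ L ^ (A + 4) := by
          have e1 : (h : ℝ) * (c1 / L) ≤ 3 := (mul_le_mul_of_nonneg_left hVb.1 (Nat.cast_nonneg _)).trans b1
          have e2 : (h : ℝ) ≤ 3 / c1 * L := by
            rw [mul_div_assoc', div_le_iff₀ hL0] at e1
            rw [div_mul_eq_mul_div, le_div_iff₀ hc1]
            exact e1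
          have e3 : 3 / c1 * L ≤ L * L := mul_le_mul_of_nonneg_right g5 hL0.le
          have e4 : L * L ≤ L ^ (A + 4) := by
            have : L ^ 2 ≤ L ^ (A + 4) := pow_le_pow_right₀ g4 (by omega)
            linarith
          linarith
        have b5 := a5 h hh1 b4
        have b6 : Real.exp (-(h * V)) ≤ 1 - c0 / 2 :=
          (Real.exp_le_exp.2 (by linarith)).trans (exp_neg_le_half c0 hc0p.le (by linarith))
        have b7 : G h ≤ (1 + ε) * ((1 + ε) * P * (1 - 8 * ε)) := by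
          refine b3.trans ?_
          apply mul_le_mul_of_nonneg_left _ (by linarith)
          apply mul_le_mul
          · calc F * Rh y h ≤ F * ((1 + ε) * Rh y h0) := mul_le_mul_of_nonneg_left b5 hF0.le
              _ = (1 + ε) * P := by rw [hP]; ring
          · rw [hε]
            linarith
          · exact (Real.exp_pos _).le
          · have : 0 ≤ 1 + ε := by linarith
            positivity
        have b8 : (1 + ε) * ((1 + ε) * P * (1 - 8 * ε)) = (1 - 3 * ε) * P - (3 * ε + 15 * ε ^ 2 + 8 * ε ^ 3) * P := by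
          ring
        have b9 : 0 < (3 * ε + 15 * ε ^ 2 + 8 * ε ^ 3) * P := by positivity
        linarith
      · have b3 := hodd h hh1 (by linarith) b2
        rw [b3] at hm2
        have : 0 < (1 - 3 * ε) * P := mul_pos (by linarith) hP0
        linarith
    · rcases le_or_gt (h : ℝ) (L ^ (A + 4)) with b2 | b2
      · have b3 : h + 1 ≤ y := by
          have : (h : ℝ) + 1 ≤ y := by linarith
          exact_mod_cast this
        have b4 := hL h b1 (by rw [pow_one]; exact b3)
        rw [hGe] at b4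
        by_cases b5 : 2 ∣ h
        · have b6 := a5 h hh1 b2
          have e5 : (Y : ℝ) * (Vp y h / Vz y) = F * Rh y h := by
            rw [Vp_eq y h b5, hF]
            ring
          rw [e5] at b4
          have b7 : F * Rh y h ≤ (1 + ε) * P := by
            calc F * Rh y h ≤ F * ((1 + ε) * Rh y h0) := mul_le_mul_of_nonneg_left b6 hF0.le
              _ = (1 + ε) * P := by rw [hP]; ring
          have b8 : (1 + ε) * (F * Rh y h / 8) ≤ (1 + ε) * ((1 + ε) * P / 8) :=
            mul_le_mul_of_nonneg_left (by linarith) (by linarith)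
          have b9 : (1 + ε) * ((1 + ε) * P / 8) ≤ 2 * (2 * P / 8) := by
            have : (1 + ε) * P ≤ 2 * P := mul_le_mul_of_nonneg_right (by linarith) hP0.le
            apply mul_le_mul (by linarith) (by linarith) _ (by norm_num)
            have : 0 ≤ (1 + ε) * P := mul_nonneg (by linarith) hP0.le
            linarith
          have b10 : (3 / 4 : ℝ) * P ≤ (1 - 3 * ε) * P := mul_le_mul_of_nonneg_right (by linarith) hP0.le
          linarith
        · rw [Vp_odd y h (by omega) b5, zero_div, mul_zero, zero_div, mul_zero] at b4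
          have b10 : (3 / 4 : ℝ) * P ≤ (1 - 3 * ε) * P := mul_le_mul_of_nonneg_right (by linarith) hP0.le
          linarith
      · have b3 := hGtriv h hh1
        have hLA : (0 : ℝ) < L ^ A := by positivity
        have b5 : (Y : ℝ) / h ≤ Y / L ^ (A + 4) :=
          div_le_div_of_nonneg_left (Nat.cast_nonneg _) (by positivity) b2.le
        have b5' : (Y : ℝ) / h * L ^ A ≤ Y / L ^ 4 := by
          calc (Y : ℝ) / h * L ^ A ≤ Y / L ^ (A + 4) * L ^ A := mul_le_mul_of_nonneg_right b5 hLA.le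
            _ = Y / L ^ 4 := by
                rw [pow_add]
                field_simp
        have b6 : (Y : ℝ) / L ^ 4 ≤ Y * (v / L ^ 2) / 8 := by
          have e1 : 8 ≤ v * L := by
            rw [div_le_iff₀ hv] at g6
            linarith
          have e2 : 8 ≤ v * L ^ 2 := by
            have : L * 1 ≤ L * L := mul_le_mul_of_nonneg_left g4 hL0.le
            calc (8 : ℝ) ≤ v * L := e1
              _ ≤ v * L ^ 2 := by
                apply mul_le_mul_of_nonneg_left _ hv.le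
                linarith
          have e3 : Y * (v / L ^ 2) / 8 = (Y : ℝ) / L ^ 4 * (v * L ^ 2 / 8) := by
            field_simp
          rw [e3]
          have e4 : (0 : ℝ) ≤ Y / L ^ 4 := by positivity
          calc (Y : ℝ) / L ^ 4 = Y / L ^ 4 * 1 := (mul_one _).symm
            _ ≤ Y / L ^ 4 * (v * L ^ 2 / 8) := mul_le_mul_of_nonneg_left (by linarith) e4
        have b7 : G h ≤ Y / h * L ^ A + L ^ A := by
          refine b3.trans (le_of_eq ?_)
          ring
        have b10 : (3 / 4 : ℝ) * P ≤ (1 - 3 * ε) * P := mul_le_mul_of_nonneg_right (by linarith) hP0.le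
        linarith
  have hNh : N * (h : ℝ) ≤ L := by
    have e1 : (h : ℝ) * (c1 / L) ≤ c1 * t :=
      ((mul_le_mul_of_nonneg_left hVb.1 (Nat.cast_nonneg _)).trans hshort.le).trans hc0b
    rw [mul_div_assoc', div_le_iff₀ hL0] at e1
    have e2 : (h : ℝ) ≤ t * L := by
      have : c1 * (h : ℝ) ≤ c1 * (t * L) := by linarith
      exact le_of_mul_le_mul_left this hc1
    calc (N : ℝ) * h ≤ N * (t * L) := mul_le_mul_of_nonneg_left e2 (Nat.cast_nonneg _)
      _ = (N * t) * L := by ring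
      _ = L := by rw [hNt, one_mul]
  refine ⟨?_, ?_⟩
  · intro q hq hqM
    by_contra hqh
    have hh4 : (h : ℝ) * V ≤ 4 := by linarith
    by_cases b2 : 2 ∣ h
    · have hq3 : 2 < q := by
        rcases Nat.lt_or_ge 2 q with e | e
        · exact e
        · exfalso
          have := le_antisymm e hq.two_le
          rw [this] at hqh
          exact hqh b2
      have b3 := (heven h hh1 hh4 b2).2
      have hqr : (q : ℝ) ≤ N := by exact_mod_cast hqM.trans hMN
      have hqr3 : (3 : ℝ) ≤ q := by exact_mod_cast hq3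
      have e1 : ((q * h : ℕ) : ℝ) * V ≤ t / 4 := by
        push_cast
        calc (q : ℝ) * h * V = q * (h * V) := by ring
          _ ≤ N * (t ^ 2 / 4) := by
              apply mul_le_mul hqr (hshort.le.trans hc0a) (by positivity) (by linarith)
          _ = (N * t) * t / 4 := by ring
          _ = t / 4 := by rw [hNt, one_mul]
      have b4 := (heven (q * h) (Nat.mul_pos hq.pos hh1) (by linarith) (Dvd.dvd.mul_left b2 q)).1
      rw [Rh_mul y q h hq hq3 ((hqM.trans hMN).trans k5) hqh] at b4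
      have b5 := hmax' (q * h) (Nat.mul_pos hq.pos hh1)
      obtain ⟨R, hR⟩ : ∃ R : ℝ, R = F * Rh y h := ⟨_, rfl⟩
      have hR0 : 0 < R := by
        rw [hR]
        have := Rh_ge y h
        positivity
      rw [← hR] at b3
      have e2 : 1 + t ≤ ((q : ℝ) - 1) / (q - 2) := by
        rw [le_div_iff₀ (by linarith)]
        have : t * (q - 2) ≤ t * N := mul_le_mul_of_nonneg_left (by linarith) ht0.le
        linarith
      have e3 : 1 - t / 4 ≤ Real.exp (-(((q * h : ℕ) : ℝ) * V)) := by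
        have := Real.add_one_le_exp (-(((q * h : ℕ) : ℝ) * V))
        linarith
      have e4 : R * ((1 + t) * (1 - t / 4)) ≤
          F * (Rh y h * (((q : ℝ) - 1) / (q - 2))) * Real.exp (-(((q * h : ℕ) : ℝ) * V)) := by
        calc R * ((1 + t) * (1 - t / 4)) ≤ R * ((((q : ℝ) - 1) / (q - 2)) * Real.exp (-(((q * h : ℕ) : ℝ) * V))) := by
              apply mul_le_mul_of_nonneg_left _ hR0.le
              apply mul_le_mul e2 e3 (by linarith) (by linarith)
          _ = _ := by rw [hR]; ring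
      have e5 : (1 - ε) * ((1 - ε) * (R * ((1 + t) * (1 - t / 4)))) ≤ (1 + ε) * R := by
        have e6 : (1 - ε) * (R * ((1 + t) * (1 - t / 4))) ≤ G (q * h) :=
          (mul_le_mul_of_nonneg_left e4 (by linarith)).trans b4
        have e7 := mul_le_mul_of_nonneg_left e6 (by linarith : (0 : ℝ) ≤ 1 - ε)
        have e8 : R * Real.exp (-(h * V)) ≤ R := by
          have : Real.exp (-(h * V)) ≤ 1 := Real.exp_le_one_iff.2 (by
            have : 0 ≤ (h : ℝ) * V := by positivity
            linarith)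
          calc R * Real.exp (-(h * V)) ≤ R * 1 := mul_le_mul_of_nonneg_left this hR0.le
            _ = R := mul_one R
        have e9 := mul_le_mul_of_nonneg_left e8 (by linarith : (0 : ℝ) ≤ 1 + ε)
        linarith
      have e6 : (1 - ε) * ((1 - ε) * ((1 + t) * (1 - t / 4))) ≤ 1 + ε := by
        have : (1 - ε) * ((1 - ε) * ((1 + t) * (1 - t / 4))) * R ≤ (1 + ε) * R := by
          calc (1 - ε) * ((1 - ε) * ((1 + t) * (1 - t / 4))) * R =
                (1 - ε) * ((1 - ε) * (R * ((1 + t) * (1 - t / 4)))) := by ring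
            _ ≤ _ := e5
        exact le_of_mul_le_mul_right this hR0
      have e7 : 1 + t / 2 ≤ (1 + t) * (1 - t / 4) := lem_t t ht0.le (by linarith)
      have e8 : (1 - 2 * ε) * (1 + t / 2) ≤ (1 - ε) * ((1 - ε) * ((1 + t) * (1 - t / 4))) := by
        calc (1 - 2 * ε) * (1 + t / 2) ≤ (1 - ε) * (1 - ε) * (1 + t / 2) := by
              apply mul_le_mul_of_nonneg_right (lem_e ε) (by linarith)
          _ ≤ (1 - ε) * (1 - ε) * ((1 + t) * (1 - t / 4)) := by
              apply mul_le_mul_of_nonneg_left e7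
              exact mul_nonneg (by linarith) (by linarith)
          _ = _ := by ring
      have e9 : ε ≤ t / 192 := by
        have : t ^ 2 ≤ t * (1 / 3) := by
          rw [pow_two]
          exact mul_le_mul_of_nonneg_left ht3 ht0.le
        rw [hε]
        linarith
      have e10 : ε * t ≤ ε := by
        calc ε * t ≤ ε * 1 := mul_le_mul_of_nonneg_left (by linarith) hε0.le
          _ = ε := mul_one ε
      have e11 : (1 - 2 * ε) * (1 + t / 2) = 1 + t / 2 - 2 * ε - ε * t := by ring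
      linarith
    · have b3 := hodd h hh1 hh4 b2
      rw [b3] at hm2
      have : 0 < (1 - 3 * ε) * P := mul_pos (by linarith) hP0
      linarith
  · exact (mul_le_mul_of_nonneg_right hMNr (Nat.cast_nonneg _)).trans hNh

end Pool.Agent.R463.EX
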