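import Pool.Agent.R463.EF8
import Pool.Agent.Cov.PNT
import Pool.Agent.H398R2.RK.Rec2

set_option autoImplicit false

/-!
# Covering with two protected positions: preparations
-/

namespace Pool.Agent.R463.EI

open Polynomial Finset Filter
open Pool.Agent.W123.RP Pool.Agent.H373R2.T7 Pool.Agent.W123.RU Pool.Agent.W123.RU.Poly
open Pool.Agent.TH464.PW Pool.Agent.TH464.PO Pool.Agent.Y879.GL Pool.Agent.R463.PP Pool.Agent.R463.PS
open Pool.Agent.R463.EX

lemma pc_eq (n : ℕ) : Nat.primeCounting n = ((Icc 1 n).filter Nat.Prime).card := by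
  rw [Nat.primeCounting, Nat.primeCounting', Nat.count_eq_card_filter_range]
  congr 1
  ext p
  rw [mem_filter, mem_filter, mem_range, mem_Icc]
  constructor
  · rintro ⟨h1, h2⟩
    exact ⟨⟨h2.pos, by omega⟩, h2⟩
  · rintro ⟨h1, h2⟩
    exact ⟨by omega, h2⟩

/-- the primes between `y` and `2 y` -/
lemma primes_between : ∃ y0 : ℕ, ∀ y : ℕ, y0 ≤ y →
    (y : ℝ) / (2 * Real.log y) ≤ (((Ioc y (2 * y)).filter Nat.Prime).card : ℝ) := by
  have h1 := Pool.Agent.Cov.PNT.pi_tendsto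
  have h2 : ∀ᶠ x : ℝ in atTop, 19 / 20 ≤ (Nat.primeCounting ⌊x⌋₊ : ℝ) * Real.log x / x :=
    h1.eventually_const_le (by norm_num)
  have h3 : ∀ᶠ x : ℝ in atTop, (Nat.primeCounting ⌊x⌋₊ : ℝ) * Real.log x / x ≤ 21 / 20 :=
    h1.eventually_le_const (by norm_num)
  obtain ⟨x0, hx0⟩ := eventually_atTop.1 (h2.and h3)
  have hlogy : Tendsto (fun y : ℕ => Real.log (y : ℝ)) atTop atTop :=
    Real.tendsto_log_atTop.comp tendsto_natCast_atTop_atTop
  obtain ⟨y1, hy1⟩ := eventually_atTop.1 ((hlogy.eventually_ge_atTop 20).and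
    (tendsto_natCast_atTop_atTop.eventually_ge_atTop (max x0 1)))
  refine ⟨y1, fun y hy => ?_⟩
  obtain ⟨g1, g2⟩ := hy1 y hy
  have gx : x0 ≤ y := (le_max_left _ _).trans g2
  have gy : (1 : ℝ) ≤ y := (le_max_right _ _).trans g2
  have a1 := (hx0 y gx).2
  have a2 := (hx0 (2 * y) (by linarith)).1
  rw [Nat.floor_natCast] at a1
  rw [show (2 * (y : ℝ)) = ((2 * y : ℕ) : ℝ) by push_cast; ring, Nat.floor_natCast] at a2
  have hL : (0 : ℝ) < Real.log y := by linarith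
  have hlog2 : Real.log ((2 * y : ℕ) : ℝ) ≤ 21 / 20 * Real.log y := by
    push_cast
    rw [Real.log_mul (by norm_num) (by linarith)]
    have := Real.log_two_lt_d9
    linarith
  have hL2 : 0 < Real.log ((2 * y : ℕ) : ℝ) := by
    apply Real.log_pos
    push_cast
    linarith
  have e1 : Nat.primeCounting (2 * y) = Nat.primeCounting y + ((Ioc y (2 * y)).filter Nat.Prime).card := by
    rw [pc_eq, pc_eq, ← card_union_of_disjoint]
    · congr 1
      ext p
      simp only [mem_filter, mem_Icc, mem_union, mem_Ioc]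
      constructor
      · rintro ⟨⟨b1, b2⟩, b3⟩
        rcases Nat.lt_or_ge y p with b4 | b4
        · exact Or.inr ⟨⟨b4, b2⟩, b3⟩
        · exact Or.inl ⟨⟨b1, b4⟩, b3⟩
      · rintro (⟨⟨b1, b2⟩, b3⟩ | ⟨⟨b1, b2⟩, b3⟩)
        · exact ⟨⟨b1, by omega⟩, b3⟩
        · exact ⟨⟨by omega, b2⟩, b3⟩
    · rw [Finset.disjoint_left]
      intro p hp hp'
      simp only [mem_filter, mem_Icc, mem_Ioc] at hp hp'
      omega
  obtain ⟨A, hA⟩ : ∃ A : ℝ, A = (Nat.primeCounting y : ℝ) := ⟨_, rfl⟩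
  obtain ⟨B, hB⟩ : ∃ B : ℝ, B = (((Ioc y (2 * y)).filter Nat.Prime).card : ℝ) := ⟨_, rfl⟩
  have e2 : (Nat.primeCounting (2 * y) : ℝ) = A + B := by
    rw [e1, hA, hB]
    push_cast
    ring
  rw [e2] at a2
  rw [← hA] at a1
  rw [← hB]
  have hA0 : 0 ≤ A := by rw [hA]; exact Nat.cast_nonneg _
  have hB0 : 0 ≤ B := by rw [hB]; exact Nat.cast_nonneg _
  rw [div_le_iff₀ (by linarith)] at a1
  rw [le_div_iff₀ (by push_cast; linarith)] at a2
  rw [div_le_iff₀ (by linarith)]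
  have a3 : (A + B) * Real.log ((2 * y : ℕ) : ℝ) ≤ (A + B) * (21 / 20 * Real.log y) :=
    mul_le_mul_of_nonneg_left hlog2 (by linarith)
  push_cast at a2
  have a4 : 19 / 20 * (2 * (y : ℝ)) ≤ (A + B) * (21 / 20 * Real.log y) := a2.trans (by
    push_cast at a3
    exact a3)
  nlinarith

lemma assign (m : ℕ) (Pr : Finset ℕ) (bad : ℕ → Finset ℕ) (U : Finset ℕ)
    (hb : ∀ k ∈ U, (bad k).card ≤ m) (hc : U.card + m ≤ Pr.card) :
    ∃ f : ℕ → ℕ, (∀ k ∈ U, f k ∈ Pr ∧ f k ∉ bad k) ∧ Set.InjOn f U := by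
  classical
  induction U using Finset.induction_on with
  | empty => exact ⟨fun _ => 0, by simp, by simp⟩
  | insert k U hk ih =>
    rw [card_insert_of_notMem hk] at hc
    obtain ⟨f, hf1, hf2⟩ := ih (fun j hj => hb j (mem_insert_of_mem hj)) (by omega)
    have h1 : (U.image f ∪ bad k).card ≤ U.card + m :=
      (card_union_le _ _).trans (Nat.add_le_add card_image_le (hb k (mem_insert_self _ _)))
    have h2 : (Pr \ (U.image f ∪ bad k)).Nonempty := by
      rw [← card_pos]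
      have := le_card_sdiff (U.image f ∪ bad k) Pr
      by_contra hcon
      have h3 : U.card + m < Pr.card + 1 := by omega
      have h4 : Pr.card ≤ (U.image f ∪ bad k).card + (Pr \ (U.image f ∪ bad k)).card := by
        omega
      omega
    obtain ⟨q, hq⟩ := h2
    rw [Finset.mem_sdiff, mem_union] at hq
    push Not at hq
    refine ⟨Function.update f k q, ?_, ?_⟩
    · intro j hj
      rcases eq_or_ne j k with rfl | hne
      · rw [Function.update_self]
        exact ⟨hq.1, hq.2.2⟩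
      · rw [Function.update_of_ne hne]
        exact hf1 j ((mem_insert.1 hj).resolve_left hne)
    · intro i hi j hj hij
      rw [Finset.mem_coe, mem_insert] at hi hj
      rcases eq_or_ne i k with rfl | hi' <;> rcases eq_or_ne j i with rfl | hj'
      · rfl
      · exfalso
        rw [Function.update_self, Function.update_of_ne hj'] at hij
        exact hq.2.1 (mem_image.2 ⟨j, hj.resolve_left hj', hij.symm⟩)
      · rfl
      · rcases eq_or_ne j k with rfl | hjk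
        · exfalso
          rw [Function.update_self, Function.update_of_ne hi'] at hij
          exact hq.2.1 (mem_image.2 ⟨i, hi.resolve_left hi', hij⟩)
        · rw [Function.update_of_ne hi', Function.update_of_ne hjk] at hij
          exact hf2 (hi.resolve_left hi') (hj.resolve_left hjk) hij

lemma ev_pow (a : ℕ) (M : ℝ) (hM : 0 < M) : ∀ᶠ y : ℕ in atTop, M * Real.log y ^ a ≤ √(y : ℝ) := by
  have h1 := logpow_rpow a M (1 / 2) hM (by norm_num)
  filter_upwards [h1] with y hy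
  rw [Real.sqrt_eq_rpow]
  exact hy

/-- the position of the interval -/
lemma start : ∃ y0 : ℕ, ∀ y : ℕ, y0 ≤ y → ∀ h : ℕ, 2 ∣ h → 0 < h → ∃ c0 : ℕ, 1 ≤ c0 ∧ c0 ≤ y ∧
    ∀ p : ℕ, p.Prime → (p : ℝ) ≤ Real.log y ^ 3 → ¬ p ∣ c0 ∧ ¬ p ∣ c0 + h := by
  classical
  obtain ⟨K0, x0, hcount⟩ := countR 1 2 le_rfl (by norm_num) (1 / 2) (by norm_num)
  obtain ⟨v, hv, hVp⟩ := Vp2_ge
  have hlogy : Tendsto (fun y : ℕ => Real.log (y : ℝ)) atTop atTop :=
    Real.tendsto_log_atTop.comp tendsto_natCast_atTop_atTop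
  have hll : Tendsto (fun y : ℕ => Real.log (Real.log (y : ℝ))) atTop atTop :=
    Real.tendsto_log_atTop.comp hlogy
  obtain ⟨y1, hy1⟩ := eventually_atTop.1 (((ev_pow (3 * K0 + 3) 1 one_pos).and
    (ev_pow 2 (3 / v) (by positivity))).and (((hlogy.eventually_ge_atTop (x0 + 3)).and
      (eventually_ge_atTop 4))))
  refine ⟨y1, fun y hy h h2 hh => ?_⟩
  obtain ⟨⟨g1, g2⟩, g3, g4⟩ := hy1 y hy
  obtain ⟨L, hL⟩ : ∃ L : ℝ, L = Real.log y := ⟨_, rfl⟩
  rw [← hL] at g1 g2 g3 ⊢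
  have hx0 : (0 : ℝ) ≤ x0 := Nat.cast_nonneg _
  have hL3 : 3 ≤ L := by linarith
  obtain ⟨v1, hv1⟩ : ∃ v1 : ℕ, v1 = ⌊L ^ 3⌋₊ := ⟨_, rfl⟩
  have hv1le : (v1 : ℝ) ≤ L ^ 3 := by rw [hv1]; exact Nat.floor_le (by positivity)
  have hLL : L ≤ L ^ 3 := by
    have : L ^ 1 ≤ L ^ 3 := pow_le_pow_right₀ (by linarith) (by norm_num)
    linarith
  have hv1x : x0 ≤ v1 := by
    rw [hv1]
    apply Nat.le_floor
    linarith
  have hv13 : 3 ≤ v1 := by
    rw [hv1]
    apply Nat.le_floor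
    push_cast
    linarith
  have hyr : (4 : ℝ) ≤ y := by exact_mod_cast g4
  have hsy : √(y : ℝ) ≤ y := by
    rw [Real.sqrt_le_left (by linarith)]
    nlinarith
  have hsy1 : 1 ≤ √(y : ℝ) := by
    rw [Real.one_le_sqrt]
    linarith
  have hp1 : L ^ (3 * K0) ≤ L ^ (3 * K0 + 3) := pow_le_pow_right₀ (by linarith) (by omega)
  have hp2 : L ^ 3 ≤ L ^ (3 * K0 + 3) := pow_le_pow_right₀ (by linarith) (by omega)
  have hpow : v1 ^ K0 ≤ y := by
    have h3 : ((v1 : ℝ)) ^ K0 ≤ y := by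
      calc ((v1 : ℝ)) ^ K0 ≤ (L ^ 3) ^ K0 := pow_le_pow_left₀ (Nat.cast_nonneg _) hv1le _
        _ = L ^ (3 * K0) := by rw [← pow_mul]
        _ ≤ y := by linarith
    exact_mod_cast h3
  have h3 := hcount y v1 hv1x hpow Qi perB_Qi {0, 0 + h} (card_pair (by omega))
  rw [Vq_pair v1 h 0, Vp_eq v1 h h2] at h3
  have h4 := hVp v1 (by omega)
  have h5 := Rh_ge v1 h
  have hlv : Real.log v1 ≤ L := by
    rw [hL]
    apply Real.log_le_log (by exact_mod_cast (by omega : 0 < v1))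
    linarith
  have hlv0 : 0 < Real.log v1 := Real.log_pos (by exact_mod_cast (by omega : 1 < v1))
  have hV2 : 0 ≤ Vp v1 2 := by
    rw [← Vq_pair v1 2 0]
    exact Vq_nonneg _ v1
  have h6 : v / L ^ 2 ≤ Vp v1 2 * Rh v1 h := by
    calc v / L ^ 2 ≤ v / Real.log v1 ^ 2 := by
          apply div_le_div_of_nonneg_left hv.le (by positivity)
          exact pow_le_pow_left₀ hlv0.le hlv 2
      _ ≤ Vp v1 2 * 1 := by rw [mul_one]; exact h4
      _ ≤ _ := mul_le_mul_of_nonneg_left h5 hV2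
  obtain ⟨D, hD⟩ : ∃ D : ℝ, D = Vp v1 2 * Rh v1 h := ⟨_, rfl⟩
  rw [← hD] at h3 h6
  have h7 : 3 * √(y : ℝ) ≤ y * D := by
    have e1 : 3 / v * L ^ 2 * (v / L ^ 2) = 3 := by field_simp
    have hv0 : 0 ≤ v / L ^ 2 := by positivity
    calc 3 * √(y : ℝ) = (3 / v * L ^ 2 * (v / L ^ 2)) * √(y : ℝ) := by rw [e1]
      _ ≤ (√(y : ℝ) * (v / L ^ 2)) * √(y : ℝ) := by
          apply mul_le_mul_of_nonneg_right _ (Real.sqrt_nonneg _)
          exact mul_le_mul_of_nonneg_right g2 hv0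
      _ = (√(y : ℝ) * √(y : ℝ)) * (v / L ^ 2) := by ring
      _ = y * (v / L ^ 2) := by rw [Real.mul_self_sqrt (by linarith)]
      _ ≤ y * D := mul_le_mul_of_nonneg_left h6 (by linarith)
  have h8 : (0 : ℝ) < (OmH Qi {0, 0 + h} v1 y).card := by
    have := (abs_le.1 h3).1
    linarith
  obtain ⟨n, hn⟩ : (OmH Qi {0, 0 + h} v1 y).Nonempty := by
    rw [← card_pos]
    exact_mod_cast h8
  unfold OmH at hn
  rw [mem_filter, mem_Icc] at hn
  refine ⟨n, hn.1.1, hn.1.2, fun p hp hpL => ?_⟩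
  have hp1 : p ∈ pz v1 := mem_pz.2 ⟨by
    rw [hv1]
    exact Nat.le_floor hpL, hp⟩
  have h9 := (sf_QH Qi {0, 0 + h} v1 n).1 hn.2
  have h10 := h9 0 (by simp) p hp1
  have h11 := h9 (0 + h) (by simp) p hp1
  unfold Qi at h10 h11
  rw [add_zero] at h10
  rw [zero_add] at h11
  exact ⟨h10, h11⟩

end Pool.Agent.R463.EI
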