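import Pool.Agent.R463.EI1
import Pool.Agent.R463.EI2

set_option autoImplicit false

/-!
# The covering of the interior of an interval, with protected end points
-/

namespace Pool.Agent.R463.EI

open Polynomial Finset Filter
open Pool.Agent.W123.RP Pool.Agent.H373R2.T7 Pool.Agent.W123.RU Pool.Agent.W123.RU.Poly
open Pool.Agent.TH464.PW Pool.Agent.TH464.PO Pool.Agent.Y879.GL Pool.Agent.R463.PP Pool.Agent.R463.PS
open Pool.Agent.R463.EX

/-- Rankin's function, in terms of `y ≈ log X` -/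
noncomputable def Rk (y : ℕ) : ℝ :=
  y * Real.log y * Real.log (Real.log (Real.log y)) / Real.log (Real.log y) ^ 2

lemma ev_cov (C : ℝ) (hC : 0 < C) : ∀ᶠ y : ℕ in atTop, 16 ≤ Real.log (y : ℝ) ∧
    1 ≤ Real.log (Real.log (y : ℝ)) ∧ 1 ≤ Real.log (Real.log (Real.log (y : ℝ))) ∧
    8 * C * Real.log (Real.log (y : ℝ)) ^ 2 ≤ Real.log y ∧ 24 * Real.log y ≤ y := by
  have hlogy : Tendsto (fun y : ℕ => Real.log (y : ℝ)) atTop atTop :=
    Real.tendsto_log_atTop.comp tendsto_natCast_atTop_atTop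
  have hll : Tendsto (fun y : ℕ => Real.log (Real.log (y : ℝ))) atTop atTop :=
    Real.tendsto_log_atTop.comp hlogy
  have hlll : Tendsto (fun y : ℕ => Real.log (Real.log (Real.log (y : ℝ)))) atTop atTop :=
    Real.tendsto_log_atTop.comp hll
  have h1 : (fun x : ℝ => Real.log x ^ 2) =o[atTop] (fun x : ℝ => x) := by
    have := isLittleO_log_rpow_rpow_atTop (2 : ℝ) (show (0 : ℝ) < 1 by norm_num)
    refine this.congr (fun x => ?_) (fun x => ?_)
    · exact_mod_cast Real.rpow_natCast (Real.log x) 2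
    · simp
  have h2 := (h1.comp_tendsto hlogy).bound (show (0 : ℝ) < 1 / (8 * C) by positivity)
  have h3 : ∀ᶠ y : ℕ in atTop, 24 * Real.log (y : ℝ) ≤ y := by
    have h := (Real.isLittleO_log_id_atTop.comp_tendsto tendsto_natCast_atTop_atTop).bound
      (show (0 : ℝ) < 1 / 24 by norm_num)
    filter_upwards [h, eventually_ge_atTop 2] with y hy hy2
    have hy2r : (2 : ℝ) ≤ y := by exact_mod_cast hy2
    have hl0 : 0 ≤ Real.log (y : ℝ) := Real.log_nonneg (by linarith)
    simp only [Function.comp_def, id] at hy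
    rw [Real.norm_of_nonneg hl0, Real.norm_of_nonneg (by linarith)] at hy
    linarith
  filter_upwards [hlogy.eventually_ge_atTop 16, hll.eventually_ge_atTop 1, hlll.eventually_ge_atTop 1, h2,
    h3] with y g1 g2 g3 g4 g5
  refine ⟨g1, g2, g3, ?_, g5⟩
  simp only [Function.comp_def] at g4
  rw [Real.norm_of_nonneg (by positivity), Real.norm_of_nonneg (by linarith), div_mul_eq_mul_div, one_mul,
    le_div_iff₀ (by positivity)] at g4
  linarith

open Classical in
/-- **The covering.** -/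
theorem cover : ∃ c : ℝ, 0 < c ∧ ∃ y₀ : ℕ, ∀ y : ℕ, y₀ ≤ y → ∀ h : ℕ, 2 ∣ h → 0 < h → (h : ℝ) ≤ c * Rk y →
    ∃ (P : Finset ℕ) (n0 : ℕ), (∀ p ∈ P, p.Prime ∧ p ≤ 2 * y) ∧ 2 ∈ P ∧
      (∀ p ∈ P, ¬ p ∣ n0 ∧ ¬ p ∣ n0 + h) ∧ ∀ j : ℕ, 0 < j → j < h → ∃ p ∈ P, p ∣ n0 + j := by
  obtain ⟨C, hC, y1, hrs⟩ := rsurv 2
  obtain ⟨y2, hstart⟩ := start
  obtain ⟨y3, hpb⟩ := primes_between
  obtain ⟨y4, hy4⟩ := eventually_atTop.1 (ev_cov C hC)
  refine ⟨min 1 (1 / (8 * C)), by positivity, max (max y1 y2) (max y3 (max y4 3)), ?_⟩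
  intro y hy h h2 hh hhR
  have k1 : y1 ≤ y := ((le_max_left _ _).trans (le_max_left _ _)).trans hy
  have k2 : y2 ≤ y := ((le_max_right _ _).trans (le_max_left _ _)).trans hy
  have k3 : y3 ≤ y := ((le_max_left _ _).trans (le_max_right _ _)).trans hy
  have k45 : max y4 3 ≤ y := ((le_max_right _ _).trans (le_max_right _ _)).trans hy
  have k4 : y4 ≤ y := (le_max_left _ _).trans k45
  have k5 : 3 ≤ y := (le_max_right _ _).trans k45
  obtain ⟨g1, g2, g3, g4, g5⟩ := hy4 y k4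
  obtain ⟨c0, a1, a2, a3⟩ := hstart y k2 h h2 hh
  have hpb' := hpb y k3
  unfold Rk at hhR
  obtain ⟨L, hL⟩ : ∃ L : ℝ, L = Real.log y := ⟨_, rfl⟩
  rw [← hL] at g1 g2 g3 g4 g5 a3 hpb' hhR
  obtain ⟨l, hl⟩ : ∃ l : ℝ, l = Real.log L := ⟨_, rfl⟩
  rw [← hl] at g2 g3 g4 hhR
  obtain ⟨r, hr⟩ : ∃ r : ℝ, r = Real.log l := ⟨_, rfl⟩
  rw [← hr] at g3 hhR
  have hyr : (3 : ℝ) ≤ y := by exact_mod_cast k5
  have hL0 : 0 < L := by linarith
  have hl0 : 0 < l := by linarith
  have hrl : r ≤ l := by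
    have := Real.log_le_sub_one_of_pos hl0
    linarith
  have hyL : L ≤ y := by linarith
  -- the size of `h`
  have hh1 : (h : ℝ) ≤ y * L := by
    refine hhR.trans ?_
    calc min 1 (1 / (8 * C)) * (y * L * r / l ^ 2) ≤ 1 * (y * L * r / l ^ 2) := by
          apply mul_le_mul_of_nonneg_right (min_le_left _ _)
          positivity
      _ ≤ y * L := by
          rw [one_mul, div_le_iff₀ (by positivity)]
          apply mul_le_mul_of_nonneg_left _ (by positivity)
          nlinarith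
  have hh2 : C * h * l ^ 2 / (L ^ 2 * r) ≤ y / (8 * L) := by
    have e1 : (h : ℝ) ≤ 1 / (8 * C) * (y * L * r / l ^ 2) := by
      refine hhR.trans ?_
      apply mul_le_mul_of_nonneg_right (min_le_right _ _)
      positivity
    calc C * h * l ^ 2 / (L ^ 2 * r) ≤ C * (1 / (8 * C) * (y * L * r / l ^ 2)) * l ^ 2 / (L ^ 2 * r) := by
          gcongr
      _ = y / (8 * L) := by
          field_simp
  have hh3 : C * y * l ^ 2 / (L ^ 2 * r) ≤ y / (8 * L) := by
    rw [div_le_div_iff₀ (by positivity) (by positivity)]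
    have e1 : 8 * C * l ^ 2 ≤ L * r := by nlinarith
    calc C * y * l ^ 2 * (8 * L) = y * L * (8 * C * l ^ 2) := by ring
      _ ≤ y * L * (L * r) := mul_le_mul_of_nonneg_left e1 (by positivity)
      _ = y * (L ^ 2 * r) := by ring
  obtain ⟨H', hH'⟩ : ∃ H', H' = y + h := ⟨_, rfl⟩
  have hyH : y ≤ H' := by omega
  have hHy : (H' : ℝ) ≤ y * L ^ 2 := by
    rw [hH']
    push_cast
    nlinarith
  have hc0h : c0 + h ≤ H' := by omega
  -- the exceptional primes
  obtain ⟨S, hS⟩ : ∃ S : Finset ℕ, S = (c0 * (c0 + h)).primeFactors.filter (fun p => p ≤ y) := ⟨_, rfl⟩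
  have hSmem : ∀ q, q ∈ S ↔ q.Prime ∧ q ∣ c0 * (c0 + h) ∧ q ≤ y := by
    intro q
    rw [hS, mem_filter, Nat.mem_primeFactors]
    constructor
    · rintro ⟨⟨b1, b2, _⟩, b3⟩
      exact ⟨b1, b2, b3⟩
    · rintro ⟨b1, b2, b3⟩
      refine ⟨⟨b1, b2, ?_⟩, b3⟩
      have : 0 < c0 * (c0 + h) := Nat.mul_pos (by omega) (by omega)
      omega
  have hL8 : (2 : ℝ) ≤ L ^ 3 := by
    have : (16 : ℝ) ^ 3 ≤ L ^ 3 := pow_le_pow_left₀ (by norm_num) g1 3
    linarith
  have hSbig : ∀ q ∈ S, L ^ 3 < (q : ℝ) := by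
    intro q hq
    by_contra hcon
    push Not at hcon
    obtain ⟨b1, b2, b3⟩ := (hSmem q).1 hq
    obtain ⟨b4, b5⟩ := a3 q b1 hcon
    rcases (Nat.Prime.dvd_mul b1).1 b2 with b6 | b6
    · exact b4 b6
    · exact b5 b6
  have hS2 : ∀ q ∈ S, q.Prime ∧ 2 < q := by
    intro q hq
    refine ⟨((hSmem q).1 hq).1, ?_⟩
    have := hSbig q hq
    have h3 : (2 : ℝ) < q := by linarith
    exact_mod_cast h3
  have hSsum : ∑ q ∈ S, (1 : ℝ) / q ≤ 12 / (Real.log y) ^ 2 := by
    rw [← hL]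
    have e1 : ∑ q ∈ S, (1 : ℝ) / q ≤ ∑ _q ∈ S, 1 / L ^ 3 := by
      apply Finset.sum_le_sum
      intro q hq
      exact one_div_le_one_div_of_le (by positivity) (hSbig q hq).le
    rw [Finset.sum_const, nsmul_eq_mul] at e1
    have e2 : (S.card : ℝ) ≤ 8 * L := by
      have f1 : S.card ≤ (c0 * (c0 + h)).primeFactors.card := by
        rw [hS]
        exact card_filter_le _ _
      have f2 := Pool.Agent.H398R2.RK.card_primeFactors_le (c0 * (c0 + h)) (Nat.mul_pos (by omega) (by omega))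
      have f3 : Real.log ((c0 * (c0 + h) : ℕ) : ℝ) ≤ 4 * L := by
        have f4 : ((c0 * (c0 + h) : ℕ) : ℝ) ≤ (y : ℝ) ^ 4 := by
          push_cast
          have f5 : (c0 : ℝ) ≤ y := by exact_mod_cast a2
          have f6 : (c0 : ℝ) + h ≤ y ^ 3 := by
            have f7 : (y : ℝ) * L ^ 2 ≤ y * y ^ 2 := by
              apply mul_le_mul_of_nonneg_left _ (by linarith)
              exact pow_le_pow_left₀ hL0.le hyL 2
            have f8 : (c0 : ℝ) + h ≤ H' := by exact_mod_cast hc0h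
            linarith [show (y : ℝ) * y ^ 2 = y ^ 3 by ring]
          calc (c0 : ℝ) * (c0 + h) ≤ y * y ^ 3 := by
                apply mul_le_mul f5 f6 (by positivity) (by linarith)
            _ = y ^ 4 := by ring
        have f9 := Real.log_le_log (by
          have : 0 < c0 * (c0 + h) := Nat.mul_pos (by omega) (by omega)
          exact_mod_cast this) f4
        rw [Real.log_pow, ← hL] at f9
        push_cast at f9 ⊢
        exact f9
      have f10 : (S.card : ℝ) ≤ ((c0 * (c0 + h)).primeFactors.card : ℝ) := by exact_mod_cast f1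
      linarith
    calc ∑ q ∈ S, (1 : ℝ) / q ≤ S.card * (1 / L ^ 3) := e1
      _ ≤ 8 * L * (1 / L ^ 3) := mul_le_mul_of_nonneg_right e2 (by positivity)
      _ = 8 / L ^ 2 := by field_simp
      _ ≤ 12 / L ^ 2 := by gcongr; norm_num
  -- the classes of Rankin
  obtain ⟨b, hb1, hb2⟩ := hrs y k1 S 1 hS2 hSsum (Or.inl rfl) H' hyH (by rw [← hL]; exact hHy)
    (fun j : Fin 2 => if j = 0 then c0 else c0 + h) (by
      intro j
      refine ⟨?_, by split_ifs <;> omega⟩
      intro p hp hpy hpS _ hd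
      apply hpS
      rw [hSmem]
      refine ⟨hp, ?_, hpy⟩
      split_ifs at hd
      · exact hd.mul_right _
      · exact hd.mul_left _)
  rw [← hL, ← hl, ← hr] at hb2
  obtain ⟨U, hU⟩ : ∃ U : Finset ℕ, U = (Ioo c0 (c0 + h)).filter (fun k =>
    ∀ p : ℕ, p.Prime → p ≤ y → p ∉ S → ¬ k ≡ b p [MOD p]) := ⟨_, rfl⟩
  have hUc : (U.card : ℝ) ≤ y / (4 * L) := by
    have e1 : (U.card : ℝ) ≤ C * H' * l ^ 2 / (L ^ 2 * r) := by
      refine le_trans ?_ hb2
      have : U ⊆ (range (H' + 1)).filter (fun k => (∀ j : Fin 2, k ≠ if j = 0 then c0 else c0 + h) ∧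
          ∀ p : ℕ, p.Prime → p ≤ y → p ∉ S → p ≠ 1 → ¬ k ≡ b p [MOD p]) := by
        intro k hk
        rw [hU, mem_filter, mem_Ioo] at hk
        rw [mem_filter, mem_range]
        refine ⟨by omega, fun j => by split_ifs <;> omega, fun p hp hpy hpS _ => hk.2 p hp hpy hpS⟩
      apply Nat.cast_le.2
      convert card_le_card this
    refine e1.trans ?_
    have e2 : C * H' * l ^ 2 / (L ^ 2 * r) = C * y * l ^ 2 / (L ^ 2 * r) + C * h * l ^ 2 / (L ^ 2 * r) := by
      rw [hH']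
      push_cast
      ring
    rw [e2]
    have e3 : (y : ℝ) / (4 * L) = y / (8 * L) + y / (8 * L) := by
      field_simp
      norm_num
    linarith
  -- the large primes
  obtain ⟨Pr, hPr⟩ : ∃ Pr : Finset ℕ, Pr = (Ioc y (2 * y)).filter Nat.Prime := ⟨_, rfl⟩
  rw [← hPr] at hpb'
  obtain ⟨bad, hbad⟩ : ∃ bad : ℕ → Finset ℕ,
    bad = fun k => Pr.filter (fun p => p ∣ (k - c0) * (c0 + h - k)) := ⟨_, rfl⟩
  have hbadc : ∀ k ∈ U, (bad k).card ≤ 6 := by
    intro k hk
    rw [hU, mem_filter, mem_Ioo] at hk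
    have hpos : 0 < (k - c0) * (c0 + h - k) := Nat.mul_pos (by omega) (by omega)
    have e1 := card_primes_le (bad k) y ((k - c0) * (c0 + h - k)) (by omega) hpos ((y : ℝ) ^ 6) (by
      push_cast
      have f1 : ((k - c0 : ℕ) : ℝ) ≤ y ^ 3 := by
        have f2 : ((k - c0 : ℕ) : ℝ) ≤ H' := by
          have : k - c0 ≤ H' := by omega
          exact_mod_cast this
        have f7 : (y : ℝ) * L ^ 2 ≤ y * y ^ 2 := by
          apply mul_le_mul_of_nonneg_left _ (by linarith)
          exact pow_le_pow_left₀ hL0.le hyL 2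
        linarith [show (y : ℝ) * y ^ 2 = y ^ 3 by ring]
      have f3 : ((c0 + h - k : ℕ) : ℝ) ≤ y ^ 3 := by
        have f2 : ((c0 + h - k : ℕ) : ℝ) ≤ H' := by
          have : c0 + h - k ≤ H' := by omega
          exact_mod_cast this
        have f7 : (y : ℝ) * L ^ 2 ≤ y * y ^ 2 := by
          apply mul_le_mul_of_nonneg_left _ (by linarith)
          exact pow_le_pow_left₀ hL0.le hyL 2
        linarith [show (y : ℝ) * y ^ 2 = y ^ 3 by ring]
      calc ((k - c0 : ℕ) : ℝ) * ((c0 + h - k : ℕ) : ℝ) ≤ y ^ 3 * y ^ 3 := by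
            apply mul_le_mul f1 f3 (Nat.cast_nonneg _) (by positivity)
        _ = (y : ℝ) ^ 6 := by ring) (fun p hp => by
        rw [hbad] at hp
        rw [mem_filter, hPr, mem_filter, mem_Ioc] at hp
        exact ⟨hp.1.2, hp.1.1.1, hp.2⟩)
    rw [Real.log_pow, ← hL] at e1
    have e2 : ((bad k).card : ℝ) ≤ 6 := by
      have : ((bad k).card : ℝ) * L ≤ 6 * L := by exact_mod_cast e1
      exact le_of_mul_le_mul_right this hL0
    exact_mod_cast e2
  have hUPr : U.card + 6 ≤ Pr.card := by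
    have e1 : (U.card : ℝ) + 6 ≤ Pr.card := by
      have e2 : (6 : ℝ) ≤ y / (4 * L) := by
        rw [le_div_iff₀ (by positivity)]
        linarith
      have e3 : (y : ℝ) / (2 * L) = y / (4 * L) + y / (4 * L) := by
        field_simp
        norm_num
      linarith
    exact_mod_cast e1
  obtain ⟨f, hf1, hf2⟩ := assign 6 Pr bad U hbadc hUPr
  -- the residue classes
  obtain ⟨rr, hrr⟩ : ∃ rr : ℕ → ℕ, rr = fun p => if p ≤ y then b p else (U.filter (fun k => f k = p)).sup id :=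
    ⟨_, rfl⟩
  have hrr1 : ∀ p, p ≤ y → rr p = b p := fun p hp => by rw [hrr]; exact if_pos hp
  have hrr2 : ∀ k ∈ U, rr (f k) = k := by
    intro k hk
    have e1 : ¬ f k ≤ y := by
      have := (hf1 k hk).1
      rw [hPr, mem_filter, mem_Ioc] at this
      omega
    have e2 : U.filter (fun j => f j = f k) = {k} := by
      ext j
      rw [mem_filter, mem_singleton]
      constructor
      · rintro ⟨b1, b2⟩
        exact hf2 (Finset.mem_coe.2 b1) (Finset.mem_coe.2 hk) b2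
      · rintro rfl
        exact ⟨hk, rfl⟩
    have e3 : rr (f k) = (U.filter (fun j => f j = f k)).sup id := by
      rw [hrr]
      exact if_neg e1
    rw [e3, e2, sup_singleton, id]
  obtain ⟨P, hP⟩ : ∃ P : Finset ℕ, P = (Icc 1 y).filter (fun p => p.Prime ∧ p ∉ S) ∪ U.image f := ⟨_, rfl⟩
  have hPmem : ∀ p ∈ P, p.Prime ∧ p ≤ 2 * y := by
    intro p hp
    rw [hP, mem_union, mem_filter, mem_Icc, mem_image] at hp
    rcases hp with hp | ⟨k, hk, rfl⟩
    · exact ⟨hp.2.1, by omega⟩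
    · have := (hf1 k hk).1
      rw [hPr, mem_filter, mem_Ioc] at this
      exact ⟨this.2, this.1.2⟩
  obtain ⟨n1, hn1⟩ := Nat.chineseRemainderOfFinset (fun p => p - rr p % p) (fun p => p) P
    (fun p hp => (hPmem p hp).1.ne_zero)
    (fun p hp q hq hpq => (Nat.coprime_primes (hPmem p (by simpa using hp)).1
      (hPmem q (by simpa using hq)).1).2 hpq)
  have hkey : ∀ p ∈ P, ∀ k : ℕ, p ∣ n1 + k ↔ k ≡ rr p [MOD p] := by
    intro p hp k
    have h1 := hn1 p hp
    have hlt := Nat.mod_lt (rr p) (hPmem p hp).1.pos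
    have h3 : n1 + rr p ≡ 0 [MOD p] := by
      have h4 := h1.add_right (rr p)
      refine h4.trans ?_
      rw [Nat.modEq_zero_iff_dvd]
      have h5 : p - rr p % p + rr p = p + (rr p - rr p % p) := by
        have := Nat.mod_le (rr p) p
        omega
      rw [h5]
      exact (Nat.dvd_refl p).add (Nat.dvd_sub_mod _)
    constructor
    · intro hd
      have h4 : n1 + k ≡ n1 + rr p [MOD p] := ((Nat.modEq_zero_iff_dvd).2 hd).trans h3.symm
      exact Nat.ModEq.add_left_cancel' n1 h4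
    · intro hs
      have h4 : n1 + k ≡ n1 + rr p [MOD p] := Nat.ModEq.add_left n1 hs
      exact (Nat.modEq_zero_iff_dvd).1 (h4.trans h3)
  refine ⟨P, n1 + c0, hPmem, ?_, ?_, ?_⟩
  · rw [hP, mem_union, mem_filter, mem_Icc]
    exact Or.inl ⟨⟨by norm_num, by omega⟩, Nat.prime_two, fun hcon => absurd (hS2 2 hcon).2 (lt_irrefl 2)⟩
  · intro p hp
    have hp' := hp
    rw [hP, mem_union, mem_filter, mem_Icc, mem_image] at hp'
    rw [add_assoc, hkey p hp, hkey p hp]
    rcases hp' with hp' | ⟨k, hk, rfl⟩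
    · rw [hrr1 p hp'.1.2]
      have e1 := (hb1 p hp'.2.1 hp'.1.2 hp'.2.2 hp'.2.1.one_lt.ne').2
      have e2 := e1 0
      have e3 := e1 1
      rw [if_pos rfl] at e2
      rw [if_neg (by decide)] at e3
      exact ⟨e2, e3⟩
    · rw [hrr2 k hk]
      have e1 := (hf1 k hk).2
      rw [hbad] at e1
      have e2 : ¬ f k ∣ (k - c0) * (c0 + h - k) := fun hd => e1 (mem_filter.2 ⟨(hf1 k hk).1, hd⟩)
      rw [hU, mem_filter, mem_Ioo] at hk
      constructor
      · intro hcon
        apply e2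
        exact ((Nat.modEq_iff_dvd' hk.1.1.le).1 hcon).mul_right _
      · intro hcon
        apply e2
        exact ((Nat.modEq_iff_dvd' hk.1.2.le).1 hcon.symm).mul_left _
  · intro j hj1 hj2
    by_cases hk : c0 + j ∈ U
    · refine ⟨f (c0 + j), ?_, ?_⟩
      · rw [hP, mem_union, mem_image]
        exact Or.inr ⟨c0 + j, hk, rfl⟩
      · rw [add_assoc, hkey (f (c0 + j)) (by
          rw [hP, mem_union, mem_image]
          exact Or.inr ⟨c0 + j, hk, rfl⟩), hrr2 (c0 + j) hk]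
    · rw [hU, mem_filter, mem_Ioo] at hk
      push Not at hk
      obtain ⟨p, hp, hpy, hpS, hmod⟩ := hk ⟨by omega, by omega⟩
      have hpP : p ∈ P := by
        rw [hP, mem_union, mem_filter, mem_Icc]
        exact Or.inl ⟨⟨hp.pos, hpy⟩, hp, hpS⟩
      refine ⟨p, hpP, ?_⟩
      rw [add_assoc, hkey p hpP, hrr1 p hpy]
      exact hmod

end Pool.Agent.R463.EI
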