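import Pool.Agent.R463.EI3

set_option autoImplicit false

/-!
# Every even number up to Rankin's function is a gap between integers without small prime factors
-/

namespace Pool.Agent.R463.EI

open Polynomial Finset Filter
open Pool.Agent.W123.RP Pool.Agent.H373R2.T7 Pool.Agent.W123.RU Pool.Agent.W123.RU.Poly
open Pool.Agent.TH464.PW Pool.Agent.TH464.PO Pool.Agent.Y879.GL Pool.Agent.R463.PP Pool.Agent.R463.PS
open Pool.Agent.R463.EX

/-- Rankin's function -/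
noncomputable def Ran (X : ℕ) : ℝ :=
  Real.log X * Real.log (Real.log X) * Real.log (Real.log (Real.log (Real.log X))) /
    Real.log (Real.log (Real.log X)) ^ 2

lemma Rk_ge (κ : ℝ) (hκ : 0 < κ) (hκ1 : κ ≤ 1) : ∀ᶠ X : ℕ in atTop,
    κ / 8 * Ran X ≤ Rk ⌊κ * Real.log X⌋₊ := by
  have hlog : Tendsto (fun X : ℕ => Real.log (X : ℝ)) atTop atTop :=
    Real.tendsto_log_atTop.comp tendsto_natCast_atTop_atTop
  have hll : Tendsto (fun X : ℕ => Real.log (Real.log (X : ℝ))) atTop atTop :=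
    Real.tendsto_log_atTop.comp hlog
  have hlll : Tendsto (fun X : ℕ => Real.log (Real.log (Real.log (X : ℝ)))) atTop atTop :=
    Real.tendsto_log_atTop.comp hll
  have hllll : Tendsto (fun X : ℕ => Real.log (Real.log (Real.log (Real.log (X : ℝ))))) atTop atTop :=
    Real.tendsto_log_atTop.comp hlll
  filter_upwards [hlog.eventually_ge_atTop (2 / κ), hll.eventually_ge_atTop (2 * (-Real.log (κ / 2))),
    hll.eventually_ge_atTop 4, hlll.eventually_ge_atTop 4, hllll.eventually_ge_atTop 4] with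
    X g1 g2 g3 g4 g5
  obtain ⟨T, hT⟩ : ∃ T : ℝ, T = Real.log X := ⟨_, rfl⟩
  unfold Ran Rk
  rw [← hT] at g1 g2 g3 g4 g5 ⊢
  obtain ⟨A, hA⟩ : ∃ A : ℝ, A = Real.log T := ⟨_, rfl⟩
  rw [← hA] at g2 g3 g4 g5 ⊢
  obtain ⟨B, hB⟩ : ∃ B : ℝ, B = Real.log A := ⟨_, rfl⟩
  rw [← hB] at g4 g5 ⊢
  obtain ⟨D, hD⟩ : ∃ D : ℝ, D = Real.log B := ⟨_, rfl⟩
  rw [← hD] at g5 ⊢
  have hT0 : 0 < T := lt_of_lt_of_le (by positivity) g1
  have hκT : 2 ≤ κ * T := by
    rw [div_le_iff₀ hκ] at g1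
    linarith
  obtain ⟨y, hy⟩ : ∃ y : ℕ, y = ⌊κ * T⌋₊ := ⟨_, rfl⟩
  rw [← hy]
  have hy1 : (y : ℝ) ≤ κ * T := by rw [hy]; exact Nat.floor_le (by positivity)
  have hy2 : κ * T < y + 1 := by rw [hy]; exact Nat.lt_floor_add_one _
  have hy3 : κ * T / 2 ≤ y := by linarith
  have hy0 : (0 : ℝ) < y := by linarith
  have hyT : (y : ℝ) ≤ T := by nlinarith
  have hlog2 : Real.log 2 ≤ 1 := by
    have := Real.log_two_lt_d9
    linarith
  have l1 : Real.log y ≤ A := by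
    rw [hA]
    exact Real.log_le_log hy0 hyT
  have l2 : A / 2 ≤ Real.log y := by
    have h1 : Real.log (κ / 2 * T) ≤ Real.log y := Real.log_le_log (by positivity) (by linarith)
    rw [Real.log_mul (by positivity) (by positivity), ← hA] at h1
    linarith
  have l20 : 0 < Real.log (y : ℝ) := by linarith
  have m1 : Real.log (Real.log y) ≤ B := by
    rw [hB]
    exact Real.log_le_log l20 l1
  have m2 : B / 2 ≤ Real.log (Real.log y) := by
    have h1 : Real.log (A / 2) ≤ Real.log (Real.log y) := Real.log_le_log (by linarith) l2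
    rw [Real.log_div (by linarith) (by norm_num), ← hB] at h1
    linarith
  have m20 : 0 < Real.log (Real.log (y : ℝ)) := by linarith
  have n2 : D / 2 ≤ Real.log (Real.log (Real.log y)) := by
    have h1 : Real.log (B / 2) ≤ Real.log (Real.log (Real.log y)) := Real.log_le_log (by linarith) m2
    rw [Real.log_div (by linarith) (by norm_num), ← hD] at h1
    linarith
  calc κ / 8 * (T * A * D / B ^ 2) = (κ * T / 2) * (A / 2) * (D / 2) / B ^ 2 := by ring
    _ ≤ y * Real.log y * Real.log (Real.log (Real.log y)) / B ^ 2 := by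
        apply div_le_div_of_nonneg_right _ (by positivity)
        apply mul_le_mul _ n2 (by linarith) (by positivity)
        exact mul_le_mul hy3 l2 (by linarith) hy0.le
    _ ≤ y * Real.log y * Real.log (Real.log (Real.log y)) / Real.log (Real.log y) ^ 2 := by
        apply div_le_div_of_nonneg_left
        · have : 0 < Real.log (Real.log (Real.log (y : ℝ))) := by linarith
          positivity
        · positivity
        · exact pow_le_pow_left₀ m20.le m1 2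

/-- the sieve conditions for `n = a + W m` and `n + h`, outside the prime factors of `W` -/
def QW (W a h p m : ℕ) : Prop := ¬ p ∣ W ∧ (p ∣ a + W * m ∨ p ∣ a + h + W * m)

lemma one_root (W a p : ℕ) (hp : p.Prime) (hW : ¬ p ∣ W) [DecidablePred fun r => p ∣ a + W * r] :
    ((range p).filter (fun r => p ∣ a + W * r)).card ≤ 1 := by
  rw [card_le_one]
  intro r hr r' hr'
  rw [mem_filter, mem_range] at hr hr'
  have h1 : a + W * r ≡ a + W * r' [MOD p] :=
    ((Nat.modEq_zero_iff_dvd).2 hr.2).trans ((Nat.modEq_zero_iff_dvd).2 hr'.2).symm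
  have h2 : W * r ≡ W * r' [MOD p] := Nat.ModEq.add_left_cancel' a h1
  have h3 : r ≡ r' [MOD p] := Nat.ModEq.cancel_left_of_coprime ((Nat.Prime.coprime_iff_not_dvd hp).2 hW) h2
  exact Nat.ModEq.eq_of_lt_of_lt h3 hr.1 hr'.1

lemma perB_QW (W a h : ℕ) : PerB (QW W a h) 2 := by
  classical
  constructor
  · intro p n
    have h1 : W * n ≡ W * (n % p) [MOD p] := (Nat.mod_modEq n p).symm.mul_left W
    unfold QW
    rw [Nat.ModEq.dvd_iff (h1.add_left a) (Nat.dvd_refl p),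
      Nat.ModEq.dvd_iff (h1.add_left (a + h)) (Nat.dvd_refl p)]
  · intro p hp
    unfold nuB
    by_cases hW : p ∣ W
    · have : (range p).filter (fun r => QW W a h p r) = ∅ := by
        rw [Finset.filter_eq_empty_iff]
        intro r _ hr
        exact hr.1 hW
      have h2 : ((range p).filter (fun r => QW W a h p r)).card ≤ 2 := by
        rw [this, card_empty]
        norm_num
      convert h2
    · have h2 : (range p).filter (fun r => QW W a h p r) ⊆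
          (range p).filter (fun r => p ∣ a + W * r) ∪ (range p).filter (fun r => p ∣ a + h + W * r) := by
        intro r hr
        rw [mem_filter] at hr
        rw [mem_union, mem_filter, mem_filter]
        rcases hr.2.2 with h3 | h3
        · exact Or.inl ⟨hr.1, h3⟩
        · exact Or.inr ⟨hr.1, h3⟩
      have h3 : ((range p).filter (fun r => QW W a h p r)).card ≤ 2 := by
        refine (card_le_card h2).trans ((card_union_le _ _).trans ?_)
        have h4 := one_root W a p hp hW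
        have h5 := one_root W (a + h) p hp hW
        omega
      convert h3

lemma adm_QW (W a h : ℕ) (h2 : 2 ∣ W) (p : ℕ) (hp : p.Prime) : nuB (QW W a h) p < p := by
  classical
  rcases Nat.lt_or_ge 2 p with h3 | h3
  · have := (perB_QW W a h).few p hp
    omega
  · have h4 : p = 2 := le_antisymm h3 hp.two_le
    subst h4
    have h5 : nuB (QW W a h) 2 = 0 := by
      unfold nuB
      rw [card_eq_zero, Finset.filter_eq_empty_iff]
      intro r _ hr
      exact hr.1 h2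
    omega

/-- `n` has no prime factor `p ≤ w` -/
def Ro (w n : ℕ) : Prop := ∀ p : ℕ, p.Prime → p ≤ w → ¬ p ∣ n

open Classical in
/-- the number of the `n ∈ (Z, Z + Y]` for which `n` and `n + h` are consecutive integers without prime
factors `p ≤ w` -/
noncomputable def gapc (w Z Y h : ℕ) : ℕ :=
  ((Ioc Z (Z + Y)).filter (fun n => Ro w n ∧ Ro w (n + h) ∧ ∀ j : ℕ, 0 < j → j < h → ¬ Ro w (n + j))).card

open Classical in
/-- a covering gives many gaps -/
lemma gap_of_cover (P : Finset ℕ) (n0 h w Z M : ℕ) (hP : ∀ p ∈ P, p.Prime ∧ p ≤ w)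
    (hn : ∀ p ∈ P, ¬ p ∣ n0 ∧ ¬ p ∣ n0 + h) (hc : ∀ j : ℕ, 0 < j → j < h → ∃ p ∈ P, p ∣ n0 + j) :
    ∃ a : ℕ, ((Icc 1 M).filter (fun m => ∀ p ∈ pz w, ¬ QW (∏ p ∈ P, p) a h p m)).card ≤
      gapc w Z ((∏ p ∈ P, p) * (M + 1)) h := by
  obtain ⟨W, hW⟩ : ∃ W, W = ∏ p ∈ P, p := ⟨_, rfl⟩
  rw [← hW]
  have hW0 : 0 < W := by
    rw [hW]
    exact Finset.prod_pos fun p hp => (hP p hp).1.pos
  obtain ⟨t, ht⟩ : ∃ t, t = (n0 + (W - 1) * (Z + 1)) % W := ⟨_, rfl⟩
  have htW : t < W := by rw [ht]; exact Nat.mod_lt _ hW0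
  have hmod : Z + 1 + t ≡ n0 [MOD W] := by
    have h1 : t ≡ n0 + (W - 1) * (Z + 1) [MOD W] := by rw [ht]; exact Nat.mod_modEq _ _
    have h2 : Z + 1 + t ≡ Z + 1 + (n0 + (W - 1) * (Z + 1)) [MOD W] := h1.add_left _
    have h3 : Z + 1 + (n0 + (W - 1) * (Z + 1)) = n0 + W * (Z + 1) := by
      have h4 : W * (Z + 1) = (W - 1) * (Z + 1) + (Z + 1) := by
        conv_lhs => rw [show W = (W - 1) + 1 by omega]
        ring
      rw [h4]
      ring
    rw [h3] at h2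
    refine h2.trans ?_
    have h5 : n0 + W * (Z + 1) ≡ n0 + 0 [MOD W] :=
      Nat.ModEq.add_left n0 ((Nat.modEq_zero_iff_dvd).2 (Dvd.intro _ rfl))
    rwa [add_zero] at h5
  have hpW : ∀ p ∈ P, p ∣ W := fun p hp => by rw [hW]; exact Finset.dvd_prod_of_mem _ hp
  have hpP : ∀ p : ℕ, p.Prime → p ∣ W → p ∈ P := by
    intro p hp hd
    rw [hW] at hd
    obtain ⟨q, hq, hpq⟩ := (Nat.Prime.prime hp).exists_mem_finset_dvd hd
    have := (Nat.prime_dvd_prime_iff_eq hp (hP q hq).1).1 hpq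
    rw [this]
    exact hq
  refine ⟨Z + 1 + t, ?_⟩
  unfold gapc
  apply Finset.card_le_card_of_injOn (fun m => Z + 1 + t + W * m)
  · intro m hm
    rw [Finset.mem_coe, mem_filter, mem_Icc] at hm
    obtain ⟨⟨hm1, hm2⟩, hm3⟩ := hm
    rw [Finset.mem_coe, mem_filter, mem_Ioc]
    beta_reduce
    have hmodm : ∀ j : ℕ, ∀ p ∈ P, (p ∣ Z + 1 + t + W * m + j ↔ p ∣ n0 + j) := by
      intro j p hp
      have h1 : Z + 1 + t + W * m ≡ n0 + 0 [MOD W] :=
        hmod.add ((Nat.modEq_zero_iff_dvd).2 (Dvd.intro _ rfl))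
      rw [add_zero] at h1
      exact Nat.ModEq.dvd_iff (h1.add_right j) (hpW p hp)
    refine ⟨⟨by omega, ?_⟩, ?_, ?_, ?_⟩
    · have h1 : W * m ≤ W * M := Nat.mul_le_mul_left W hm2
      have h2 : W * (M + 1) = W * M + W := by ring
      omega
    · intro p hp hpw hd
      by_cases hpW' : p ∣ W
      · have h1 := hmodm 0 p (hpP p hp hpW')
        rw [add_zero, add_zero] at h1
        exact (hn p (hpP p hp hpW')).1 (h1.1 hd)
      · exact hm3 p (mem_pz.2 ⟨hpw, hp⟩) ⟨hpW', Or.inl hd⟩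
    · intro p hp hpw hd
      by_cases hpW' : p ∣ W
      · exact (hn p (hpP p hp hpW')).2 ((hmodm h p (hpP p hp hpW')).1 hd)
      · apply hm3 p (mem_pz.2 ⟨hpw, hp⟩)
        refine ⟨hpW', Or.inr ?_⟩
        rw [show Z + 1 + t + h + W * m = Z + 1 + t + W * m + h by ring]
        exact hd
    · intro j hj1 hj2 hr
      obtain ⟨p, hp, hd⟩ := hc j hj1 hj2
      exact hr p (hP p hp).1 (hP p hp).2 ((hmodm j p hp).2 hd)
  · intro m _ m' _ e
    have e1 : W * m = W * m' := by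
      have : Z + 1 + t + W * m = Z + 1 + t + W * m' := e
      omega
    exact Nat.eq_of_mul_eq_mul_left hW0 e1

lemma gapc_mono (w Z Y Y' h : ℕ) (hY : Y ≤ Y') : gapc w Z Y h ≤ gapc w Z Y' h := by
  classical
  unfold gapc
  apply card_le_card
  intro n hn
  rw [mem_filter, mem_Ioc] at hn ⊢
  exact ⟨⟨hn.1.1, by omega⟩, hn.2⟩

/-- **Every even number up to Rankin's function is a gap** between consecutive integers without prime factors
`p ≤ w`, in every interval of length `Y`, `log Y ≤ w ≤ Y ^ (1 / s)`. -/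
theorem every_gap : ∃ s : ℕ, 1 ≤ s ∧ ∀ ε : ℝ, 0 < ε → ∃ c : ℝ, 0 < c ∧ ∃ Y₀ : ℕ, ∀ Y : ℕ, Y₀ ≤ Y →
    ∀ w : ℕ, Real.log Y ≤ w → w ^ s ≤ Y → ∀ Z h : ℕ, 2 ∣ h → 0 < h → (h : ℝ) ≤ c * Ran Y →
      (Y : ℝ) ^ (1 - ε) ≤ gapc w Z Y h := by
  classical
  obtain ⟨K, x0, hK1, hfund⟩ := sys_fund 2 (by norm_num) (1 / 2) (by norm_num)
  obtain ⟨c0, hc0, y0, hcov⟩ := cover
  obtain ⟨v, hv, hV⟩ := V_lower_unif 2
  refine ⟨2 * K, by omega, ?_⟩
  intro ε0 hε0
  obtain ⟨ε, hε⟩ : ∃ ε : ℝ, ε = min ε0 (1 / 2) := ⟨_, rfl⟩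
  have hε1 : 0 < ε := by rw [hε]; positivity
  have hε2 : ε ≤ 1 / 2 := by rw [hε]; exact min_le_right _ _
  have hε3 : ε ≤ ε0 := by rw [hε]; exact min_le_left _ _
  obtain ⟨κ, hκ⟩ : ∃ κ : ℝ, κ = ε / 24 := ⟨_, rfl⟩
  have hκ0 : 0 < κ := by rw [hκ]; positivity
  have hκ1 : κ ≤ 1 / 2 := by rw [hκ]; linarith
  have hlog : Tendsto (fun X : ℕ => Real.log (X : ℝ)) atTop atTop :=
    Real.tendsto_log_atTop.comp tendsto_natCast_atTop_atTop
  obtain ⟨Y0, hY0⟩ := eventually_atTop.1 (((Rk_ge κ hκ0 (by linarith)).and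
    (hlog.eventually_ge_atTop (max (max (x0 : ℝ) 3) ((y0 + 1) / κ)))).and
    ((logpow_rpow 2 (64 / v) (ε / 2) (by positivity) (by positivity)).and
      ((logpow_rpow 0 4 (1 / 4) (by norm_num) (by norm_num)).and (eventually_ge_atTop 3))))
  refine ⟨c0 * (κ / 8), by positivity, Y0, ?_⟩
  intro Y hY w hw hwY Z h h2 hh hhR
  obtain ⟨⟨g1, g2⟩, g3, g4, g5⟩ := hY0 Y hY
  rw [pow_zero, mul_one] at g4
  obtain ⟨T, hT⟩ : ∃ T : ℝ, T = Real.log Y := ⟨_, rfl⟩
  rw [← hT] at g1 g2 g3 hw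
  have hTx : (x0 : ℝ) ≤ T := ((le_max_left _ _).trans (le_max_left _ _)).trans g2
  have hT3 : 3 ≤ T := ((le_max_right _ _).trans (le_max_left _ _)).trans g2
  have hTy : ((y0 : ℝ) + 1) / κ ≤ T := (le_max_right _ _).trans g2
  obtain ⟨y, hy⟩ : ∃ y : ℕ, y = ⌊κ * T⌋₊ := ⟨_, rfl⟩
  rw [← hy] at g1
  have hy1 : (y : ℝ) ≤ κ * T := by rw [hy]; exact Nat.floor_le (by positivity)
  have hy0 : y0 ≤ y := by
    rw [hy]
    apply Nat.le_floor
    rw [div_le_iff₀ hκ0] at hTy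
    linarith
  have hYr : (3 : ℝ) ≤ Y := by exact_mod_cast g5
  obtain ⟨P, n0, hP1, hP2, hP3, hP4⟩ := hcov y hy0 h h2 hh (by
    refine hhR.trans ?_
    rw [mul_assoc]
    exact mul_le_mul_of_nonneg_left g1 hc0.le)
  have hyw : 2 * y ≤ w := by
    have h1 : (2 * (y : ℝ)) ≤ w := by nlinarith
    exact_mod_cast h1
  have hP1' : ∀ p ∈ P, p.Prime ∧ p ≤ w := fun p hp => ⟨(hP1 p hp).1, (hP1 p hp).2.trans hyw⟩
  obtain ⟨W, hW⟩ : ∃ W, W = ∏ p ∈ P, p := ⟨_, rfl⟩
  have hW0 : 0 < W := by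
    rw [hW]
    exact Finset.prod_pos fun p hp => (hP1 p hp).1.pos
  have hW2 : 2 ∣ W := by rw [hW]; exact Finset.dvd_prod_of_mem _ hP2
  have hWle : W ≤ 4 ^ (2 * y) := by
    refine le_trans ?_ (primorial_le_four_pow (2 * y))
    rw [hW]
    unfold primorial
    apply Finset.prod_le_prod_of_subset_of_one_le'
    · intro p hp
      rw [mem_filter, mem_range]
      have := hP1 p hp
      exact ⟨by omega, this.1⟩
    · intro p hp _
      exact (mem_filter.1 hp).2.one_le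
  have hWY : (W : ℝ) ≤ (Y : ℝ) ^ (ε / 8) := by
    have h1 : (W : ℝ) ≤ (4 : ℝ) ^ (2 * y) := by exact_mod_cast hWle
    have hlog4 : Real.log 4 ≤ 3 / 2 := by
      have h1 : Real.log 4 = 2 * Real.log 2 := by
        rw [show (4 : ℝ) = 2 ^ 2 by norm_num, Real.log_pow]
        norm_num
      have := Real.log_two_lt_d9
      linarith
    have h2 : (4 : ℝ) ^ (2 * y) = Real.exp (((2 * y : ℕ) : ℝ) * Real.log 4) := by
      rw [mul_comm (((2 * y : ℕ) : ℝ)), ← Real.rpow_def_of_pos (by norm_num), Real.rpow_natCast]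
    rw [h2] at h1
    refine h1.trans ?_
    rw [Real.rpow_def_of_pos (by linarith), ← hT]
    apply Real.exp_le_exp.2
    push_cast
    have h3 : 2 * (y : ℝ) * Real.log 4 ≤ 2 * (y : ℝ) * (3 / 2) :=
      mul_le_mul_of_nonneg_left hlog4 (by positivity)
    rw [hκ] at hy1
    linarith
  -- the length of the progression
  obtain ⟨q, hq⟩ : ∃ q : ℕ, q = Y / W := ⟨_, rfl⟩
  obtain ⟨M, hM⟩ : ∃ M : ℕ, M = q - 1 := ⟨_, rfl⟩
  have hYW : (Y : ℝ) ^ (1 - ε / 8) ≤ Y / W := by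
    rw [le_div_iff₀ (by exact_mod_cast hW0)]
    calc (Y : ℝ) ^ (1 - ε / 8) * W ≤ (Y : ℝ) ^ (1 - ε / 8) * (Y : ℝ) ^ (ε / 8) :=
          mul_le_mul_of_nonneg_left hWY (by positivity)
      _ = Y := by
          rw [← Real.rpow_add (by linarith)]
          rw [show 1 - ε / 8 + ε / 8 = 1 by ring, Real.rpow_one]
  have hYq : (Y : ℝ) ^ ((1 : ℝ) / 4) ≤ (Y : ℝ) ^ (1 - ε / 8) :=
    Real.rpow_le_rpow_of_exponent_le (by linarith) (by linarith)
  have hMlow : (Y : ℝ) ^ (1 - ε / 8) / 2 ≤ M := by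
    have h1 : (Y : ℝ) / W < (q : ℝ) + 1 := by
      rw [hq, ← Nat.floor_div_eq_div (K := ℝ) Y W]
      exact Nat.lt_floor_add_one _
    have h2 : (q : ℝ) ≤ M + 1 := by
      have : q ≤ M + 1 := by omega
      exact_mod_cast this
    linarith
  have hMY : W * (M + 1) ≤ Y := by
    have h1 : 1 ≤ q := by
      by_contra hcon
      have h3 : M = 0 := by omega
      rw [h3, Nat.cast_zero] at hMlow
      linarith
    have h2 : M + 1 = q := by omega
    rw [h2, hq]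
    exact Nat.mul_div_le Y W
  have hMY' : (M : ℝ) ≤ Y := by
    have : M ≤ W * (M + 1) := by nlinarith
    exact_mod_cast this.trans hMY
  obtain ⟨a, ha⟩ := gap_of_cover P n0 h w Z M hP1' hP3 hP4
  rw [← hW] at ha
  have hwx : x0 ≤ w := by
    have : (x0 : ℝ) ≤ w := hTx.trans hw
    exact_mod_cast this
  have hw3 : 3 ≤ w := by
    have : (3 : ℝ) ≤ w := hT3.trans hw
    exact_mod_cast this
  have hsY : √(Y : ℝ) = (Y : ℝ) ^ ((1 : ℝ) / 2) := Real.sqrt_eq_rpow _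
  have hwK : w ^ K ≤ M := by
    have h1 : ((w : ℝ) ^ K) ≤ √(Y : ℝ) := by
      apply Real.le_sqrt_of_sq_le
      rw [← pow_mul, mul_comm]
      exact_mod_cast hwY
    have h2 : √(Y : ℝ) ≤ (Y : ℝ) ^ (1 - ε / 8) / 2 := by
      rw [hsY, le_div_iff₀ (by norm_num)]
      calc (Y : ℝ) ^ ((1 : ℝ) / 2) * 2 ≤ (Y : ℝ) ^ ((1 : ℝ) / 2) * (Y : ℝ) ^ ((1 : ℝ) / 4) := by
            apply mul_le_mul_of_nonneg_left (by linarith) (by positivity)
        _ = (Y : ℝ) ^ ((1 : ℝ) / 2 + 1 / 4) := by rw [Real.rpow_add (by linarith)]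
        _ ≤ (Y : ℝ) ^ (1 - ε / 8) := Real.rpow_le_rpow_of_exponent_le (by linarith) (by linarith)
    have h3 : ((w : ℝ) ^ K) ≤ M := h1.trans (h2.trans hMlow)
    exact_mod_cast h3
  have h1 := hfund M w hwx hwK (QW W a h) (perB_QW W a h) M
  have h4 := hV (QW W a h) (perB_QW W a h) (adm_QW W a h hW2) w (by omega)
  obtain ⟨V, hVdef⟩ : ∃ V : ℝ, V = Vq (QW W a h) w := ⟨_, rfl⟩
  have hVe : ∏ p ∈ pz w, (1 - (nuB (QW W a h) p : ℝ) / p) = V := by rw [hVdef]; rfl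
  rw [hVe] at h1
  rw [← hVdef] at h4
  obtain ⟨N, hN⟩ : ∃ N : ℝ,
    N = ((((Icc 1 M).filter (fun m => ∀ p ∈ pz w, ¬ QW W a h p m)).card : ℕ) : ℝ) := ⟨_, rfl⟩
  have hNe : ((((Icc 1 M).filter (fun n : ℕ => ∀ p ∈ pz w, ¬ QW W a h p n)).card : ℕ) : ℝ) = N := by
    rw [hN]
  have h5 : |N - M * V| ≤ 1 / 2 * (M * V) + √(M : ℝ) := by
    rw [hN]
    convert h1
  have hNg : N ≤ gapc w Z Y h := by
    rw [hN]
    have h6 := ha.trans (gapc_mono w Z _ Y h hMY)
    have h7 : (((Icc 1 M).filter (fun m => ∀ p ∈ pz w, ¬ QW W a h p m)).card : ℝ) ≤ (gapc w Z Y h : ℝ) := by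
      exact_mod_cast h6
    convert h7
  -- the lower bound
  have hlw : Real.log w ≤ T := by
    rw [hT]
    apply Real.log_le_log (by exact_mod_cast (by omega : 0 < w))
    have : w ≤ Y := (Nat.le_self_pow (by omega) w).trans hwY
    exact_mod_cast this
  have hlw0 : 0 < Real.log (w : ℝ) := Real.log_pos (by exact_mod_cast (by omega : 1 < w))
  have hVlow : v / T ^ 2 ≤ V := by
    refine le_trans ?_ h4
    apply div_le_div_of_nonneg_left hv.le (by positivity)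
    exact pow_le_pow_left₀ hlw0.le hlw 2
  have hsM : √(M : ℝ) ≤ (Y : ℝ) ^ ((1 : ℝ) / 2) := by
    rw [← hsY]
    exact Real.sqrt_le_sqrt hMY'
  have h6 : 1 / 2 * (M * V) - √(M : ℝ) ≤ N := by
    have := (abs_le.1 h5).1
    linarith
  have h7 : (Y : ℝ) ^ (1 - ε / 8) / 2 * (v / T ^ 2) ≤ M * V := by
    apply mul_le_mul hMlow hVlow (by positivity) (Nat.cast_nonneg _)
  have h8 : 8 * (Y : ℝ) ^ (1 - ε) ≤ (Y : ℝ) ^ (1 - ε / 8) / 2 * (v / T ^ 2) := by
    have e1 : (Y : ℝ) ^ (1 - ε / 8) = (Y : ℝ) ^ (1 - ε) * (Y : ℝ) ^ (7 * ε / 8) := by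
      rw [← Real.rpow_add (by linarith)]
      congr 1
      ring
    have e2 : (Y : ℝ) ^ (ε / 2) ≤ (Y : ℝ) ^ (7 * ε / 8) :=
      Real.rpow_le_rpow_of_exponent_le (by linarith) (by linarith)
    have e3 : 64 / v * T ^ 2 ≤ (Y : ℝ) ^ (7 * ε / 8) := g3.trans e2
    have e4 : 32 ≤ (Y : ℝ) ^ (7 * ε / 8) * (v / T ^ 2) := by
      calc (32 : ℝ) ≤ 64 := by norm_num
        _ = 64 / v * T ^ 2 * (v / T ^ 2) := by field_simp
        _ ≤ _ := mul_le_mul_of_nonneg_right e3 (by positivity)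
    rw [e1]
    have e5 : (0 : ℝ) ≤ (Y : ℝ) ^ (1 - ε) := by positivity
    have e6 := mul_le_mul_of_nonneg_left e4 e5
    calc 8 * (Y : ℝ) ^ (1 - ε) ≤ (Y : ℝ) ^ (1 - ε) * 32 / 2 := by linarith
      _ ≤ (Y : ℝ) ^ (1 - ε) * ((Y : ℝ) ^ (7 * ε / 8) * (v / T ^ 2)) / 2 := by linarith
      _ = _ := by ring
  have h9 : (Y : ℝ) ^ ((1 : ℝ) / 2) ≤ (Y : ℝ) ^ (1 - ε) :=
    Real.rpow_le_rpow_of_exponent_le (by linarith) (by linarith)
  have h10 : (Y : ℝ) ^ (1 - ε0) ≤ (Y : ℝ) ^ (1 - ε) :=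
    Real.rpow_le_rpow_of_exponent_le (by linarith) (by linarith)
  have h11 : (0 : ℝ) ≤ (Y : ℝ) ^ (1 - ε) := by positivity
  linarith

end Pool.Agent.R463.EI
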