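import Pool.Agent.R463.EI4

set_option autoImplicit false

/-!
# The covering of an interval, with a protected admissible set
-/

namespace Pool.Agent.R463.EI

open Polynomial Finset Filter
open Pool.Agent.W123.RP Pool.Agent.H373R2.T7 Pool.Agent.W123.RU Pool.Agent.W123.RU.Poly
open Pool.Agent.TH464.PW Pool.Agent.TH464.PO Pool.Agent.Y879.GL Pool.Agent.R463.PP Pool.Agent.R463.PS
open Pool.Agent.R463.EX

/-- `H` misses a residue class modulo every prime -/
def Adm (H : Finset ℕ) : Prop := ∀ p : ℕ, p.Prime → (H.image (· % p)).card < p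

/-- the position of the interval -/
lemma startH (a : ℕ) (ha : 1 ≤ a) : ∃ y0 : ℕ, ∀ y : ℕ, y0 ≤ y → ∀ H : Finset ℕ, H.card = a → Adm H →
    ∃ c0 : ℕ, 1 ≤ c0 ∧ c0 ≤ y ∧ ∀ p : ℕ, p.Prime → (p : ℝ) ≤ Real.log y ^ 4 → ∀ h ∈ H, ¬ p ∣ c0 + h := by
  classical
  obtain ⟨K0, x0, hcount⟩ := countR 1 a le_rfl ha (1 / 2) (by norm_num)
  obtain ⟨v, hv, hV⟩ := V_lower_unif (a * 1)
  have hlogy : Tendsto (fun y : ℕ => Real.log (y : ℝ)) atTop atTop :=
    Real.tendsto_log_atTop.comp tendsto_natCast_atTop_atTop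
  obtain ⟨y1, hy1⟩ := eventually_atTop.1 (((ev_pow (4 * K0 + 4) 1 one_pos).and
    (ev_pow (a * 1) (3 / v) (by positivity))).and (((hlogy.eventually_ge_atTop (x0 + 3)).and
      (eventually_ge_atTop 4))))
  refine ⟨y1, fun y hy H hHa hadm => ?_⟩
  obtain ⟨⟨g1, g2⟩, g3, g4⟩ := hy1 y hy
  obtain ⟨L, hL⟩ : ∃ L : ℝ, L = Real.log y := ⟨_, rfl⟩
  rw [← hL] at g1 g2 g3 ⊢
  have hx0 : (0 : ℝ) ≤ x0 := Nat.cast_nonneg _
  have hL3 : 3 ≤ L := by linarith
  obtain ⟨v1, hv1⟩ : ∃ v1 : ℕ, v1 = ⌊L ^ 4⌋₊ := ⟨_, rfl⟩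
  have hv1le : (v1 : ℝ) ≤ L ^ 4 := by rw [hv1]; exact Nat.floor_le (by positivity)
  have hLL : L ≤ L ^ 4 := by
    have : L ^ 1 ≤ L ^ 4 := pow_le_pow_right₀ (by linarith) (by norm_num)
    linarith
  have hv1x : x0 ≤ v1 := by
    rw [hv1]
    apply Nat.le_floor
    linarith
  have hv13 : 3 ≤ v1 := by
    rw [hv1]
    apply Nat.le_floor
    push_cast
    linarith
  have hyr : (4 : ℝ) ≤ y := by exact_mod_cast g4
  have hsy : √(y : ℝ) ≤ y := by
    rw [Real.sqrt_le_left (by linarith)]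
    nlinarith
  have hsy1 : 1 ≤ √(y : ℝ) := by
    rw [Real.one_le_sqrt]
    linarith
  have hp1 : L ^ (4 * K0) ≤ L ^ (4 * K0 + 4) := pow_le_pow_right₀ (by linarith) (by omega)
  have hp2 : L ^ 4 ≤ L ^ (4 * K0 + 4) := pow_le_pow_right₀ (by linarith) (by omega)
  have hpow : v1 ^ K0 ≤ y := by
    have h3 : ((v1 : ℝ)) ^ K0 ≤ y := by
      calc ((v1 : ℝ)) ^ K0 ≤ (L ^ 4) ^ K0 := pow_le_pow_left₀ (Nat.cast_nonneg _) hv1le _
        _ = L ^ (4 * K0) := by rw [← pow_mul]
        _ ≤ y := by linarith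
    exact_mod_cast h3
  have h3 := hcount y v1 hv1x hpow Qi perB_Qi H hHa
  have hperH := perB_QH Qi 1 perB_Qi H
  rw [hHa] at hperH
  have h6' := hV (QH Qi H) hperH (fun p hp => by
    rw [nuB_QH_Qi H p hp]
    exact hadm p hp) v1 (by omega)
  have hlv : Real.log v1 ≤ L := by
    rw [hL]
    apply Real.log_le_log (by exact_mod_cast (by omega : 0 < v1))
    linarith
  have hlv0 : 0 < Real.log v1 := Real.log_pos (by exact_mod_cast (by omega : 1 < v1))
  have h6 : v / L ^ (a * 1) ≤ Vq (QH Qi H) v1 := by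
    refine le_trans ?_ h6'
    apply div_le_div_of_nonneg_left hv.le (by positivity)
    exact pow_le_pow_left₀ hlv0.le hlv _
  obtain ⟨D, hD⟩ : ∃ D : ℝ, D = Vq (QH Qi H) v1 := ⟨_, rfl⟩
  rw [← hD] at h3 h6
  have h7 : 3 * √(y : ℝ) ≤ y * D := by
    have e1 : 3 / v * L ^ (a * 1) * (v / L ^ (a * 1)) = 3 := by field_simp
    have hv0 : 0 ≤ v / L ^ (a * 1) := by positivity
    calc 3 * √(y : ℝ) = (3 / v * L ^ (a * 1) * (v / L ^ (a * 1))) * √(y : ℝ) := by rw [e1]
      _ ≤ (√(y : ℝ) * (v / L ^ (a * 1))) * √(y : ℝ) := by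
          apply mul_le_mul_of_nonneg_right _ (Real.sqrt_nonneg _)
          exact mul_le_mul_of_nonneg_right g2 hv0
      _ = (√(y : ℝ) * √(y : ℝ)) * (v / L ^ (a * 1)) := by ring
      _ = y * (v / L ^ (a * 1)) := by rw [Real.mul_self_sqrt (by linarith)]
      _ ≤ y * D := mul_le_mul_of_nonneg_left h6 (by linarith)
  have h8 : (0 : ℝ) < (OmH Qi H v1 y).card := by
    have := (abs_le.1 h3).1
    linarith
  obtain ⟨n, hn⟩ : (OmH Qi H v1 y).Nonempty := by
    rw [← card_pos]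
    exact_mod_cast h8
  unfold OmH at hn
  rw [mem_filter, mem_Icc] at hn
  refine ⟨n, hn.1.1, hn.1.2, fun p hp hpL h hh => ?_⟩
  have hp1 : p ∈ pz v1 := mem_pz.2 ⟨by
    rw [hv1]
    exact Nat.le_floor hpL, hp⟩
  have h9 := (sf_QH Qi H v1 n).1 hn.2
  exact h9 h hh p hp1

open Classical in
/-- **The covering with a protected set.** -/
theorem coverH (a : ℕ) (ha : 1 ≤ a) : ∃ c : ℝ, 0 < c ∧ ∃ y₀ : ℕ, ∀ y : ℕ, y₀ ≤ y → ∀ N : ℕ,
    (N : ℝ) ≤ c * Rk y → ∀ H : Finset ℕ, H.card = a → Adm H → (∀ h ∈ H, h ≤ N) →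
    ∃ (P : Finset ℕ) (n0 : ℕ), (∀ p ∈ P, p.Prime ∧ p ≤ 2 * y) ∧ (∀ p : ℕ, p.Prime → p ≤ a → p ∈ P) ∧
      (∀ p ∈ P, ∀ h ∈ H, ¬ p ∣ n0 + h) ∧ ∀ j : ℕ, j ≤ N → j ∉ H → ∃ p ∈ P, p ∣ n0 + j := by
  obtain ⟨C, hC, y1, hrs⟩ := rsurv a
  obtain ⟨y2, hstart⟩ := startH a ha
  obtain ⟨y3, hpb⟩ := primes_between
  have har : (1 : ℝ) ≤ a := by exact_mod_cast ha
  have hlogy : Tendsto (fun y : ℕ => Real.log (y : ℝ)) atTop atTop :=
    Real.tendsto_log_atTop.comp tendsto_natCast_atTop_atTop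
  obtain ⟨y4, hy4⟩ := eventually_atTop.1 ((ev_cov C hC).and ((hlogy.eventually_ge_atTop (a : ℝ)).and
    (ev_pow 1 (12 * a) (by positivity))))
  refine ⟨min 1 (1 / (8 * C)), by positivity, max (max y1 y2) (max y3 (max y4 3)), ?_⟩
  intro y hy N hhR H hHa hadm hHN
  have k1 : y1 ≤ y := ((le_max_left _ _).trans (le_max_left _ _)).trans hy
  have k2 : y2 ≤ y := ((le_max_right _ _).trans (le_max_left _ _)).trans hy
  have k3 : y3 ≤ y := ((le_max_left _ _).trans (le_max_right _ _)).trans hy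
  have k45 : max y4 3 ≤ y := ((le_max_right _ _).trans (le_max_right _ _)).trans hy
  have k4 : y4 ≤ y := (le_max_left _ _).trans k45
  have k5 : 3 ≤ y := (le_max_right _ _).trans k45
  obtain ⟨⟨g1, g2, g3, g4, g5⟩, g6, g7⟩ := hy4 y k4
  obtain ⟨c0, a1, a2, a3⟩ := hstart y k2 H hHa hadm
  have hpb' := hpb y k3
  unfold Rk at hhR
  obtain ⟨L, hL⟩ : ∃ L : ℝ, L = Real.log y := ⟨_, rfl⟩
  rw [← hL] at g1 g2 g3 g4 g5 g6 g7 a3 hpb' hhR
  obtain ⟨l, hl⟩ : ∃ l : ℝ, l = Real.log L := ⟨_, rfl⟩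
  rw [← hl] at g2 g3 g4 hhR
  obtain ⟨r, hr⟩ : ∃ r : ℝ, r = Real.log l := ⟨_, rfl⟩
  rw [← hr] at g3 hhR
  rw [pow_one] at g7
  have hyr : (3 : ℝ) ≤ y := by exact_mod_cast k5
  have hL0 : 0 < L := by linarith
  have hl0 : 0 < l := by linarith
  have hrl : r ≤ l := by
    have := Real.log_le_sub_one_of_pos hl0
    linarith
  have hyL : L ≤ y := by linarith
  have hsy : √(y : ℝ) ≤ y := by
    rw [Real.sqrt_le_left (by linarith)]
    nlinarith
  -- the size of the interval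
  have hh1 : (N : ℝ) ≤ y * L := by
    refine hhR.trans ?_
    calc min 1 (1 / (8 * C)) * (y * L * r / l ^ 2) ≤ 1 * (y * L * r / l ^ 2) := by
          apply mul_le_mul_of_nonneg_right (min_le_left _ _)
          positivity
      _ ≤ y * L := by
          rw [one_mul, div_le_iff₀ (by positivity)]
          apply mul_le_mul_of_nonneg_left _ (by positivity)
          nlinarith
  have hh2 : C * N * l ^ 2 / (L ^ 2 * r) ≤ y / (8 * L) := by
    have e1 : (N : ℝ) ≤ 1 / (8 * C) * (y * L * r / l ^ 2) := by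
      refine hhR.trans ?_
      apply mul_le_mul_of_nonneg_right (min_le_right _ _)
      positivity
    calc C * N * l ^ 2 / (L ^ 2 * r) ≤ C * (1 / (8 * C) * (y * L * r / l ^ 2)) * l ^ 2 / (L ^ 2 * r) := by
          gcongr
      _ = y / (8 * L) := by
          field_simp
  have hh3 : C * y * l ^ 2 / (L ^ 2 * r) ≤ y / (8 * L) := by
    rw [div_le_div_iff₀ (by positivity) (by positivity)]
    have e1 : 8 * C * l ^ 2 ≤ L * r := by nlinarith
    calc C * y * l ^ 2 * (8 * L) = y * L * (8 * C * l ^ 2) := by ring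
      _ ≤ y * L * (L * r) := mul_le_mul_of_nonneg_left e1 (by positivity)
      _ = y * (L ^ 2 * r) := by ring
  obtain ⟨H', hH'⟩ : ∃ H', H' = y + N := ⟨_, rfl⟩
  have hyH : y ≤ H' := by omega
  have hHy : (H' : ℝ) ≤ y * L ^ 2 := by
    rw [hH']
    push_cast
    nlinarith
  have hH'3 : (H' : ℝ) ≤ y ^ 3 := by
    have f7 : (y : ℝ) * L ^ 2 ≤ y * y ^ 2 := by
      apply mul_le_mul_of_nonneg_left _ (by linarith)
      exact pow_le_pow_left₀ hL0.le hyL 2
    linarith [show (y : ℝ) * y ^ 2 = y ^ 3 by ring]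
  have hc0h : c0 + N ≤ H' := by omega
  -- the exceptional primes
  obtain ⟨R, hR⟩ : ∃ R : ℕ, R = ∏ h ∈ H, (c0 + h) := ⟨_, rfl⟩
  have hR0 : 0 < R := by
    rw [hR]
    exact Finset.prod_pos fun h _ => by omega
  obtain ⟨S, hS⟩ : ∃ S : Finset ℕ, S = R.primeFactors.filter (fun p => p ≤ y) := ⟨_, rfl⟩
  have hSmem : ∀ q, q ∈ S ↔ q.Prime ∧ (∃ h ∈ H, q ∣ c0 + h) ∧ q ≤ y := by
    intro q
    rw [hS, mem_filter, Nat.mem_primeFactors]
    constructor
    · rintro ⟨⟨b1, b2, _⟩, b3⟩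
      rw [hR] at b2
      exact ⟨b1, (Nat.Prime.prime b1).exists_mem_finset_dvd b2, b3⟩
    · rintro ⟨b1, ⟨h, hh, b2⟩, b3⟩
      refine ⟨⟨b1, ?_, hR0.ne'⟩, b3⟩
      rw [hR]
      exact b2.trans (Finset.dvd_prod_of_mem _ hh)
  have hL8 : (2 : ℝ) ≤ L ^ 4 := by
    have : (16 : ℝ) ^ 4 ≤ L ^ 4 := pow_le_pow_left₀ (by norm_num) g1 4
    linarith
  have hSbig : ∀ q ∈ S, L ^ 4 < (q : ℝ) := by
    intro q hq
    by_contra hcon
    push Not at hcon
    obtain ⟨b1, ⟨h, hh, b2⟩, b3⟩ := (hSmem q).1 hq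
    exact a3 q b1 hcon h hh b2
  have hS2 : ∀ q ∈ S, q.Prime ∧ 2 < q := by
    intro q hq
    refine ⟨((hSmem q).1 hq).1, ?_⟩
    have := hSbig q hq
    have h3 : (2 : ℝ) < q := by linarith
    exact_mod_cast h3
  have hLa : (a : ℝ) < L ^ 4 := by
    have h1 : L * 1 < L * L ^ 3 := by
      apply mul_lt_mul_of_pos_left _ hL0
      have : (16 : ℝ) ^ 3 ≤ L ^ 3 := pow_le_pow_left₀ (by norm_num) g1 3
      linarith
    have h2 : L * L ^ 3 = L ^ 4 := by ring
    linarith
  have hSsum : ∑ q ∈ S, (1 : ℝ) / q ≤ 12 / (Real.log y) ^ 2 := by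
    rw [← hL]
    have e1 : ∑ q ∈ S, (1 : ℝ) / q ≤ ∑ _q ∈ S, 1 / L ^ 4 := by
      apply Finset.sum_le_sum
      intro q hq
      exact one_div_le_one_div_of_le (by positivity) (hSbig q hq).le
    rw [Finset.sum_const, nsmul_eq_mul] at e1
    have e2 : (S.card : ℝ) ≤ 6 * a * L := by
      have f1 : S.card ≤ R.primeFactors.card := by
        rw [hS]
        exact card_filter_le _ _
      have f2 := Pool.Agent.H398R2.RK.card_primeFactors_le R hR0
      have f3 : Real.log (R : ℝ) ≤ 3 * a * L := by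
        have f4 : (R : ℝ) ≤ ((y : ℝ) ^ 3) ^ a := by
          rw [hR]
          push_cast
          rw [← hHa, ← Finset.prod_const]
          apply Finset.prod_le_prod
          · intro h _
            positivity
          · intro h hh
            have : c0 + h ≤ H' := by
              have := hHN h hh
              omega
            have f8 : (c0 : ℝ) + h ≤ H' := by exact_mod_cast this
            linarith
        have f9 := Real.log_le_log (by exact_mod_cast hR0) f4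
        rw [Real.log_pow, Real.log_pow, ← hL] at f9
        push_cast at f9
        linarith
      have f10 : (S.card : ℝ) ≤ (R.primeFactors.card : ℝ) := by exact_mod_cast f1
      linarith
    calc ∑ q ∈ S, (1 : ℝ) / q ≤ S.card * (1 / L ^ 4) := e1
      _ ≤ 6 * a * L * (1 / L ^ 4) := mul_le_mul_of_nonneg_right e2 (by positivity)
      _ ≤ 6 * L * L * (1 / L ^ 4) := by
          apply mul_le_mul_of_nonneg_right _ (by positivity)
          apply mul_le_mul_of_nonneg_right _ hL0.le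
          linarith
      _ = 6 / L ^ 2 := by field_simp
      _ ≤ 12 / L ^ 2 := by gcongr; norm_num
  -- the classes of Rankin
  have htH : ∀ j : Fin a, (H.orderEmbOfFin hHa j) ∈ H := fun j => Finset.orderEmbOfFin_mem H hHa j
  have htS : ∀ h ∈ H, ∃ j : Fin a, H.orderEmbOfFin hHa j = h := by
    intro h hh
    have : h ∈ Set.range (H.orderEmbOfFin hHa) := by
      rw [Finset.range_orderEmbOfFin]
      exact hh
    exact this
  obtain ⟨b, hb1, hb2⟩ := hrs y k1 S 1 hS2 hSsum (Or.inl rfl) H' hyH (by rw [← hL]; exact hHy)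
    (fun j : Fin a => c0 + H.orderEmbOfFin hHa j) (by
      intro j
      refine ⟨?_, by
        have := hHN _ (htH j)
        omega⟩
      intro p hp hpy hpS _ hd
      apply hpS
      rw [hSmem]
      exact ⟨hp, ⟨_, htH j, hd⟩, hpy⟩)
  rw [← hL, ← hl, ← hr] at hb2
  obtain ⟨U, hU⟩ : ∃ U : Finset ℕ, U = (Icc c0 (c0 + N)).filter (fun k => (∀ h ∈ H, k ≠ c0 + h) ∧
    ∀ p : ℕ, p.Prime → p ≤ y → p ∉ S → ¬ k ≡ b p [MOD p]) := ⟨_, rfl⟩
  have hUc : (U.card : ℝ) ≤ y / (4 * L) := by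
    have e1 : (U.card : ℝ) ≤ C * H' * l ^ 2 / (L ^ 2 * r) := by
      refine le_trans ?_ hb2
      have : U ⊆ (range (H' + 1)).filter (fun k => (∀ j : Fin a, k ≠ c0 + H.orderEmbOfFin hHa j) ∧
          ∀ p : ℕ, p.Prime → p ≤ y → p ∉ S → p ≠ 1 → ¬ k ≡ b p [MOD p]) := by
        intro k hk
        rw [hU, mem_filter, mem_Icc] at hk
        rw [mem_filter, mem_range]
        exact ⟨by omega, fun j => hk.2.1 _ (htH j), fun p hp hpy hpS _ => hk.2.2 p hp hpy hpS⟩
      apply Nat.cast_le.2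
      convert card_le_card this
    refine e1.trans ?_
    have e2 : C * H' * l ^ 2 / (L ^ 2 * r) = C * y * l ^ 2 / (L ^ 2 * r) + C * N * l ^ 2 / (L ^ 2 * r) := by
      rw [hH']
      push_cast
      ring
    rw [e2]
    have e3 : (y : ℝ) / (4 * L) = y / (8 * L) + y / (8 * L) := by
      field_simp
      norm_num
    linarith
  -- the large primes
  obtain ⟨Pr, hPr⟩ : ∃ Pr : Finset ℕ, Pr = (Ioc y (2 * y)).filter Nat.Prime := ⟨_, rfl⟩
  rw [← hPr] at hpb'
  obtain ⟨bad, hbad⟩ : ∃ bad : ℕ → Finset ℕ,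
    bad = fun k => Pr.filter (fun p => p ∣ ∏ h ∈ H, ((k - (c0 + h)) + (c0 + h - k))) := ⟨_, rfl⟩
  have hbadc : ∀ k ∈ U, (bad k).card ≤ 3 * a := by
    intro k hk
    rw [hU, mem_filter, mem_Icc] at hk
    have hpos : 0 < ∏ h ∈ H, ((k - (c0 + h)) + (c0 + h - k)) := by
      apply Finset.prod_pos
      intro h hh
      have := hk.2.1 h hh
      omega
    have e1 := card_primes_le (bad k) y (∏ h ∈ H, ((k - (c0 + h)) + (c0 + h - k))) (by omega) hpos
      (((y : ℝ) ^ 3) ^ a) (by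
      push_cast
      rw [← hHa, ← Finset.prod_const]
      apply Finset.prod_le_prod
      · intro h _
        positivity
      · intro h hh
        have f2 : (((k - (c0 + h)) + (c0 + h - k) : ℕ) : ℝ) ≤ H' := by
          have h1 := hHN h hh
          have : (k - (c0 + h)) + (c0 + h - k) ≤ H' := by omega
          exact_mod_cast this
        push_cast at f2
        linarith) (fun p hp => by
        rw [hbad] at hp
        rw [mem_filter, hPr, mem_filter, mem_Ioc] at hp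
        exact ⟨hp.1.2, hp.1.1.1, hp.2⟩)
    rw [Real.log_pow, Real.log_pow, ← hL] at e1
    have e2 : ((bad k).card : ℝ) ≤ 3 * a := by
      have : ((bad k).card : ℝ) * L ≤ (3 * a) * L := by
        push_cast at e1
        linarith
      exact le_of_mul_le_mul_right this hL0
    exact_mod_cast e2
  have hUPr : U.card + 3 * a ≤ Pr.card := by
    have e1 : (U.card : ℝ) + 3 * a ≤ Pr.card := by
      have e2 : 3 * (a : ℝ) ≤ y / (4 * L) := by
        rw [le_div_iff₀ (by positivity)]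
        linarith
      have e3 : (y : ℝ) / (2 * L) = y / (4 * L) + y / (4 * L) := by
        field_simp
        norm_num
      linarith
    exact_mod_cast e1
  obtain ⟨f, hf1, hf2⟩ := assign (3 * a) Pr bad U hbadc hUPr
  -- the residue classes
  obtain ⟨rr, hrr⟩ : ∃ rr : ℕ → ℕ, rr = fun p => if p ≤ y then b p else (U.filter (fun k => f k = p)).sup id :=
    ⟨_, rfl⟩
  have hrr1 : ∀ p, p ≤ y → rr p = b p := fun p hp => by rw [hrr]; exact if_pos hp
  have hrr2 : ∀ k ∈ U, rr (f k) = k := by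
    intro k hk
    have e1 : ¬ f k ≤ y := by
      have := (hf1 k hk).1
      rw [hPr, mem_filter, mem_Ioc] at this
      omega
    have e2 : U.filter (fun j => f j = f k) = {k} := by
      ext j
      rw [mem_filter, mem_singleton]
      constructor
      · rintro ⟨b1, b2⟩
        exact hf2 (Finset.mem_coe.2 b1) (Finset.mem_coe.2 hk) b2
      · rintro rfl
        exact ⟨hk, rfl⟩
    have e3 : rr (f k) = (U.filter (fun j => f j = f k)).sup id := by
      rw [hrr]
      exact if_neg e1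
    rw [e3, e2, sup_singleton, id]
  obtain ⟨P, hP⟩ : ∃ P : Finset ℕ, P = (Icc 1 y).filter (fun p => p.Prime ∧ p ∉ S) ∪ U.image f := ⟨_, rfl⟩
  have hPmem : ∀ p ∈ P, p.Prime ∧ p ≤ 2 * y := by
    intro p hp
    rw [hP, mem_union, mem_filter, mem_Icc, mem_image] at hp
    rcases hp with hp | ⟨k, hk, rfl⟩
    · exact ⟨hp.2.1, by omega⟩
    · have := (hf1 k hk).1
      rw [hPr, mem_filter, mem_Ioc] at this
      exact ⟨this.2, this.1.2⟩
  obtain ⟨n1, hn1⟩ := Nat.chineseRemainderOfFinset (fun p => p - rr p % p) (fun p => p) P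
    (fun p hp => (hPmem p hp).1.ne_zero)
    (fun p hp q hq hpq => (Nat.coprime_primes (hPmem p (by simpa using hp)).1
      (hPmem q (by simpa using hq)).1).2 hpq)
  have hkey : ∀ p ∈ P, ∀ k : ℕ, p ∣ n1 + k ↔ k ≡ rr p [MOD p] := by
    intro p hp k
    have h1 := hn1 p hp
    have hlt := Nat.mod_lt (rr p) (hPmem p hp).1.pos
    have h3 : n1 + rr p ≡ 0 [MOD p] := by
      have h4 := h1.add_right (rr p)
      refine h4.trans ?_
      rw [Nat.modEq_zero_iff_dvd]
      have h5 : p - rr p % p + rr p = p + (rr p - rr p % p) := by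
        have := Nat.mod_le (rr p) p
        omega
      rw [h5]
      exact (Nat.dvd_refl p).add (Nat.dvd_sub_mod _)
    constructor
    · intro hd
      have h4 : n1 + k ≡ n1 + rr p [MOD p] := ((Nat.modEq_zero_iff_dvd).2 hd).trans h3.symm
      exact Nat.ModEq.add_left_cancel' n1 h4
    · intro hs
      have h4 : n1 + k ≡ n1 + rr p [MOD p] := Nat.ModEq.add_left n1 hs
      exact (Nat.modEq_zero_iff_dvd).1 (h4.trans h3)
  refine ⟨P, n1 + c0, hPmem, ?_, ?_, ?_⟩
  · intro p hp hpa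
    rw [hP, mem_union, mem_filter, mem_Icc]
    refine Or.inl ⟨⟨hp.pos, ?_⟩, hp, fun hcon => ?_⟩
    · have h1 : (p : ℝ) ≤ a := by exact_mod_cast hpa
      have h2 : (p : ℝ) ≤ y := by linarith
      exact_mod_cast h2
    · have h1 := hSbig p hcon
      have h2 : (p : ℝ) ≤ a := by exact_mod_cast hpa
      linarith
  · intro p hp h hh
    have hp' := hp
    rw [hP, mem_union, mem_filter, mem_Icc, mem_image] at hp'
    rw [add_assoc, hkey p hp]
    rcases hp' with hp' | ⟨k, hk, rfl⟩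
    · rw [hrr1 p hp'.1.2]
      obtain ⟨j, hj⟩ := htS h hh
      have e1 := (hb1 p hp'.2.1 hp'.1.2 hp'.2.2 hp'.2.1.one_lt.ne').2 j
      rw [hj] at e1
      exact e1
    · rw [hrr2 k hk]
      have e1 := (hf1 k hk).2
      rw [hbad] at e1
      have e2 : ¬ f k ∣ ∏ h ∈ H, ((k - (c0 + h)) + (c0 + h - k)) :=
        fun hd => e1 (mem_filter.2 ⟨(hf1 k hk).1, hd⟩)
      intro hcon
      apply e2
      refine Dvd.dvd.trans ?_ (Finset.dvd_prod_of_mem _ hh)
      rcases le_total (c0 + h) k with h5 | h5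
      · have h6 := (Nat.modEq_iff_dvd' h5).1 hcon
        rw [show c0 + h - k = 0 by omega, add_zero]
        exact h6
      · have h6 := (Nat.modEq_iff_dvd' h5).1 hcon.symm
        rw [show k - (c0 + h) = 0 by omega, zero_add]
        exact h6
  · intro j hjN hjH
    by_cases hk : c0 + j ∈ U
    · refine ⟨f (c0 + j), ?_, ?_⟩
      · rw [hP, mem_union, mem_image]
        exact Or.inr ⟨c0 + j, hk, rfl⟩
      · rw [add_assoc, hkey (f (c0 + j)) (by
          rw [hP, mem_union, mem_image]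
          exact Or.inr ⟨c0 + j, hk, rfl⟩), hrr2 (c0 + j) hk]
    · rw [hU, mem_filter, mem_Icc] at hk
      push Not at hk
      obtain ⟨p, hp, hpy, hpS, hmod⟩ := hk ⟨by omega, by omega⟩ (by
        intro h hh e
        have : j = h := by omega
        rw [this] at hjH
        exact hjH hh)
      have hpP : p ∈ P := by
        rw [hP, mem_union, mem_filter, mem_Icc]
        exact Or.inl ⟨⟨hp.pos, hpy⟩, hp, hpS⟩
      refine ⟨p, hpP, ?_⟩
      rw [add_assoc, hkey p hpP, hrr1 p hpy]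
      exact hmod

end Pool.Agent.R463.EI
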