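import Pool.Agent.R463.PP1

set_option autoImplicit false

/-!
# Relative averages of the singular series: one factor, tails
-/

namespace Pool.Agent.R463.EX

open Finset Filter Pool.Agent.H373R2.T7 Pool.Agent.W123.RP Pool.Agent.W123.RU Pool.Agent.TH464.PO

/-- the absolute difference -/
def ad (a b : ℕ) : ℕ := max a b - min a b

lemma ad_of_lt {a b : ℕ} (h : a < b) : ad a b = b - a := by unfold ad; omega
lemma ad_of_gt {a b : ℕ} (h : b < a) : ad a b = a - b := by unfold ad; omega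

/-- a collision which involves a shift of `S` -/
def ClR (Q : ℕ → ℕ → Prop) (H S : Finset ℕ) (p : ℕ) : Prop :=
  ∃ a ∈ S, ∃ b ∈ H ∪ S, a ≠ b ∧ CoG Q p (ad a b)

lemma cog_of {Q : ℕ → ℕ → Prop} {p r a b : ℕ} (h : a ≠ b) (ha : Q p (r + a)) (hb : Q p (r + b)) :
    CoG Q p (ad a b) := by
  rcases Nat.lt_or_gt_of_ne h with h2 | h2
  · rw [ad_of_lt h2]
    exact ⟨r + a, ha, by rw [show r + a + (b - a) = r + b by omega]; exact hb⟩
  · rw [ad_of_gt h2]
    exact ⟨r + b, hb, by rw [show r + b + (a - b) = r + a by omega]; exact ha⟩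

open Classical in
lemma nuB_rel (Q : ℕ → ℕ → Prop) (c : ℕ) (hQ : PerB Q c) (H S : Finset ℕ) (hd : Disjoint H S) (p : ℕ)
    (h : ¬ ClR Q H S p) : nuB (QH Q (H ∪ S)) p = nuB (QH Q H) p + S.card * nuB Q p := by
  have h1 : (range p).filter (fun r => QH Q (H ∪ S) p r) =
      (range p).filter (fun r => QH Q H p r) ∪
        S.biUnion (fun h => (range p).filter (fun r => Q p (r + h))) := by
    ext r
    rw [mem_union, mem_filter, mem_filter, mem_biUnion]
    unfold QH
    constructor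
    · rintro ⟨hr1, h, hh, hq⟩
      rcases mem_union.1 hh with hh | hh
      · exact Or.inl ⟨hr1, h, hh, hq⟩
      · exact Or.inr ⟨h, hh, mem_filter.2 ⟨hr1, hq⟩⟩
    · rintro (⟨hr1, h, hh, hq⟩ | ⟨h, hh, hr⟩)
      · exact ⟨hr1, h, mem_union_left _ hh, hq⟩
      · rw [mem_filter] at hr
        exact ⟨hr.1, h, mem_union_right _ hh, hr.2⟩
  have hd1 : (S : Set ℕ).PairwiseDisjoint (fun h => (range p).filter (fun r => Q p (r + h))) := by
    intro a ha b hb hab
    rw [Function.onFun, Finset.disjoint_left]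
    intro r hr hr'
    rw [mem_filter] at hr hr'
    exact h ⟨a, ha, b, mem_union_right _ hb, hab, cog_of hab hr.2 hr'.2⟩
  have hd2 : Disjoint ((range p).filter (fun r => QH Q H p r))
      (S.biUnion (fun h => (range p).filter (fun r => Q p (r + h)))) := by
    rw [Finset.disjoint_left]
    intro r hr hr'
    rw [mem_filter] at hr
    rw [mem_biUnion] at hr'
    obtain ⟨s, hs, hrs⟩ := hr'
    rw [mem_filter] at hrs
    obtain ⟨_, b, hb, hqb⟩ := hr
    have hne : s ≠ b := by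
      rintro rfl
      exact Finset.disjoint_left.1 hd hb hs
    exact h ⟨s, hs, b, mem_union_left _ hb, hne, cog_of hne hrs.2 hqb⟩
  have h2 := Finset.card_biUnion hd1
  have h3 : ∀ h ∈ S, ((range p).filter (fun r => Q p (r + h))).card = nuB Q p :=
    fun a _ => nuB_shift Q c hQ a p
  rw [Finset.sum_congr rfl h3, Finset.sum_const, smul_eq_mul] at h2
  have h4 := Finset.card_union_of_disjoint hd2
  rw [h2, ← h1] at h4
  unfold nuB at h4 ⊢
  convert h4

open Classical in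
lemma nuB_rel_le (Q : ℕ → ℕ → Prop) (c : ℕ) (hQ : PerB Q c) (H S : Finset ℕ) (p : ℕ) :
    nuB (QH Q (H ∪ S)) p ≤ nuB (QH Q H) p + S.card * nuB Q p := by
  have h1 : (range p).filter (fun r => QH Q (H ∪ S) p r) ⊆
      (range p).filter (fun r => QH Q H p r) ∪ (range p).filter (fun r => QH Q S p r) := by
    intro r hr
    rw [mem_filter] at hr
    rw [mem_union, mem_filter, mem_filter]
    obtain ⟨hr1, h, hh, hq⟩ := hr
    rcases mem_union.1 hh with hh | hh
    · exact Or.inl ⟨hr1, h, hh, hq⟩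
    · exact Or.inr ⟨hr1, h, hh, hq⟩
  have h2 := (card_le_card h1).trans (card_union_le _ _)
  have h3 := nuB_QH_le Q c hQ S p
  have e1 : nuB (QH Q (H ∪ S)) p = ((range p).filter (fun r => QH Q (H ∪ S) p r)).card := by
    unfold nuB
    congr
  have e2 : nuB (QH Q H) p = ((range p).filter (fun r => QH Q H p r)).card := by
    unfold nuB
    congr
  have e3 : nuB (QH Q S) p = ((range p).filter (fun r => QH Q S p r)).card := by
    unfold nuB
    congr
  omega

open Classical in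
lemma nuB_mono' (P P' : ℕ → ℕ → Prop) (p : ℕ) (h : ∀ m, P p m → P' p m) : nuB P p ≤ nuB P' p := by
  unfold nuB
  apply card_le_card
  intro m hm
  rw [mem_filter] at hm ⊢
  exact ⟨hm.1, h m hm.2⟩

lemma nuB_rel_ge (Q : ℕ → ℕ → Prop) (H S : Finset ℕ) (p : ℕ) :
    nuB (QH Q H) p ≤ nuB (QH Q (H ∪ S)) p :=
  nuB_mono' _ _ p fun m ⟨h, hh, hq⟩ => ⟨h, mem_union_left _ hh, hq⟩

/-- `V` decreases with the conditions -/
lemma Vq_anti' (P P' : ℕ → ℕ → Prop) (y : ℕ) (h : ∀ p m, P p m → P' p m) : Vq P' y ≤ Vq P y := by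
  unfold Vq
  apply Finset.prod_le_prod
  · intro p hp
    exact one_sub_nonneg P' p (mem_pz.1 hp).2
  · intro p hp
    have hp0 : (0 : ℝ) < p := by exact_mod_cast (mem_pz.1 hp).2.pos
    have h1 : (nuB P p : ℝ) ≤ nuB P' p := by exact_mod_cast nuB_mono' P P' p (h p)
    have h2 := div_le_div_of_nonneg_right h1 hp0.le
    linarith

lemma fac_up (a u : ℝ) (j : ℕ) (hu0 : 0 ≤ u) (hu1 : u ≤ 1) (ha0 : 0 ≤ a) (ha1 : a ≤ 1) :
    1 - (a + j * u) ≤ (1 - a) * (1 - u) ^ j := by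
  have hber := one_add_mul_le_pow (a := -u) (by linarith) j
  have h1 : 1 - j * u ≤ (1 - u) ^ j := by
    calc 1 - j * u = 1 + j * -u := by ring
      _ ≤ (1 + -u) ^ j := hber
      _ = (1 - u) ^ j := by ring
  have h2 := mul_le_mul_of_nonneg_left h1 (show 0 ≤ 1 - a by linarith)
  have h3 : 0 ≤ a * (j * u) := by positivity
  have h4 : (1 - a) * (1 - j * u) = 1 - (a + j * u) + a * (j * u) := by ring
  linarith

lemma fac_lo (a u x A : ℝ) (j : ℕ) (hu0 : 0 ≤ u) (hu1 : u ≤ 1) (ha0 : 0 ≤ a) (ha1 : a ≤ 1)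
    (hx : x ≤ a + j * u) (hs : a + j * u ≤ 1) (hA : (a + j * u) ^ 2 ≤ A) :
    (1 - a) * (1 - u) ^ j * (1 - A) ≤ 1 - x := by
  have h2 := pow_le_quad j u hu0 hu1
  have hju : 0 ≤ j * u := by positivity
  obtain ⟨v, hv⟩ : ∃ v : ℝ, v = j * u := ⟨_, rfl⟩
  rw [← hv] at h2 hju hx hs hA
  obtain ⟨P, hP⟩ : ∃ P : ℝ, P = (1 - a) * (1 - u) ^ j := ⟨_, rfl⟩
  have hP0 : 0 ≤ P := by
    rw [hP]
    exact mul_nonneg (by linarith) (pow_nonneg (by linarith) j)
  have hP1 : P ≤ 1 - (a + v) + (a + v) ^ 2 / 2 := by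
    rw [hP]
    have h3 := mul_le_mul_of_nonneg_left h2 (show 0 ≤ 1 - a by linarith)
    nlinarith [mul_nonneg ha0 (sq_nonneg v), sq_nonneg a]
  rw [← hP]
  obtain ⟨s, hs'⟩ : ∃ s : ℝ, s = a + v := ⟨_, rfl⟩
  rw [← hs'] at hP1 hx hs hA
  have hs0 : 0 ≤ s := by rw [hs']; linarith
  have h5 : s ^ 2 ≤ 1 := by nlinarith
  have h4 : P * (1 - A) ≤ P * (1 - s ^ 2) := mul_le_mul_of_nonneg_left (by linarith) hP0
  have h6 : P * (1 - s ^ 2) ≤ (1 - s + s ^ 2 / 2) * (1 - s ^ 2) :=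
    mul_le_mul_of_nonneg_right hP1 (by linarith)
  have h7 : (1 - s + s ^ 2 / 2) * (1 - s ^ 2) ≤ 1 - s := by
    nlinarith [mul_nonneg (sq_nonneg s) (sq_nonneg (1 - s))]
  linarith

open Classical in
/-- upper bound for one factor -/
lemma factor_upR (Q : ℕ → ℕ → Prop) (c : ℕ) (hQ : PerB Q c) (H S : Finset ℕ) (hd : Disjoint H S) (p : ℕ)
    (hp : p.Prime) (hbig : 2 * (S.card * c) ≤ p) : 1 - (nuB (QH Q (H ∪ S)) p : ℝ) / p ≤
      (1 - (nuB (QH Q H) p : ℝ) / p) * (1 - (nuB Q p : ℝ) / p) ^ S.card *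
        (if ClR Q H S p then 1 + ((2 * (S.card * c) : ℕ) : ℝ) / p else 1) := by
  have hp0 : (0 : ℝ) < p := by exact_mod_cast hp.pos
  have hfew := hQ.few p hp
  obtain ⟨k, hk⟩ : ∃ k, k = S.card := ⟨_, rfl⟩
  rw [← hk] at hbig ⊢
  obtain ⟨u, hu⟩ : ∃ u : ℝ, u = (nuB Q p : ℝ) / p := ⟨_, rfl⟩
  obtain ⟨a, ha⟩ : ∃ a : ℝ, a = (nuB (QH Q H) p : ℝ) / p := ⟨_, rfl⟩
  have hu0 : 0 ≤ u := by rw [hu]; positivity
  have hu1 : u ≤ 1 := by
    rw [hu, div_le_one hp0]
    exact_mod_cast nuB_le Q p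
  have ha0 : 0 ≤ a := by rw [ha]; positivity
  have ha1 : a ≤ 1 := by
    rw [ha, div_le_one hp0]
    exact_mod_cast nuB_le _ p
  have hc : (nuB Q p : ℝ) ≤ c := by exact_mod_cast hfew
  have hku : (k : ℝ) * u ≤ ((k * c : ℕ) : ℝ) / p := by
    rw [hu, ← mul_div_assoc]
    apply div_le_div_of_nonneg_right _ hp0.le
    push_cast
    gcongr
  have hkc : ((k * c : ℕ) : ℝ) / p ≤ 1 / 2 := by
    rw [div_le_div_iff₀ hp0 (by norm_num)]
    have : ((2 * (k * c) : ℕ) : ℝ) ≤ p := by exact_mod_cast hbig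
    push_cast at this ⊢
    linarith
  have hber := one_add_mul_le_pow (a := -u) (by linarith) k
  have hber' : 1 - k * u ≤ (1 - u) ^ k := by
    calc 1 - k * u = 1 + k * -u := by ring
      _ ≤ (1 + -u) ^ k := hber
      _ = (1 - u) ^ k := by ring
  rw [← hu, ← ha]
  by_cases h : ClR Q H S p
  · rw [if_pos h]
    have h1 : 1 - (nuB (QH Q (H ∪ S)) p : ℝ) / p ≤ 1 - a := by
      have h2 : (nuB (QH Q H) p : ℝ) ≤ nuB (QH Q (H ∪ S)) p := by exact_mod_cast nuB_rel_ge Q H S p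
      have h3 := div_le_div_of_nonneg_right h2 hp0.le
      rw [← ha] at h3
      linarith
    refine h1.trans ?_
    obtain ⟨t, ht⟩ : ∃ t : ℝ, t = k * u := ⟨_, rfl⟩
    have ht0 : 0 ≤ t := by rw [ht]; positivity
    have ht1 : t ≤ 1 / 2 := by rw [ht]; linarith
    have h2 : 1 + 2 * t ≤ 1 + ((2 * (k * c) : ℕ) : ℝ) / p := by
      have : ((2 * (k * c) : ℕ) : ℝ) / p = 2 * (((k * c : ℕ) : ℝ) / p) := by
        push_cast
        ring
      rw [this, ht]
      linarith
    have h3 : (1 : ℝ) ≤ (1 - u) ^ k * (1 + ((2 * (k * c) : ℕ) : ℝ) / p) := by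
      calc (1 : ℝ) ≤ (1 - t) * (1 + 2 * t) := by nlinarith
        _ ≤ _ := by
          apply mul_le_mul (by rw [ht]; exact hber') h2 (by linarith)
          exact pow_nonneg (by linarith) k
    calc 1 - a = (1 - a) * 1 := (mul_one _).symm
      _ ≤ (1 - a) * ((1 - u) ^ k * (1 + ((2 * (k * c) : ℕ) : ℝ) / p)) :=
        mul_le_mul_of_nonneg_left h3 (by linarith)
      _ = _ := by ring
  · rw [if_neg h, mul_one, nuB_rel Q c hQ H S hd p h, ← hk]
    refine le_trans (le_of_eq ?_) (fac_up a u k hu0 hu1 ha0 ha1)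
    rw [hu, ha]
    push_cast
    ring

open Classical in
/-- lower bound for one factor -/
lemma factor_loR (Q : ℕ → ℕ → Prop) (c : ℕ) (hQ : PerB Q c) (H S : Finset ℕ) (p : ℕ) (hp : p.Prime)
    (hbig : 2 * ((H.card + S.card) * c) ≤ p) :
      (1 - (nuB (QH Q H) p : ℝ) / p) * (1 - (nuB Q p : ℝ) / p) ^ S.card *
        (1 - (((H.card + S.card) * c : ℕ) : ℝ) ^ 2 / (p : ℝ) ^ 2) ≤
        1 - (nuB (QH Q (H ∪ S)) p : ℝ) / p := by
  have hp0 : (0 : ℝ) < p := by exact_mod_cast hp.pos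
  have hfew := hQ.few p hp
  have hsum : (nuB (QH Q H) p : ℝ) / p + S.card * ((nuB Q p : ℝ) / p) ≤
      (((H.card + S.card) * c : ℕ) : ℝ) / p := by
    rw [← mul_div_assoc, ← add_div]
    apply div_le_div_of_nonneg_right _ hp0.le
    have h1 := nuB_QH_le Q c hQ H p
    have h2 : nuB (QH Q H) p + S.card * nuB Q p ≤ (H.card + S.card) * c := by
      calc nuB (QH Q H) p + S.card * nuB Q p ≤ H.card * nuB Q p + S.card * nuB Q p := by omega
        _ = (H.card + S.card) * nuB Q p := by ring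
        _ ≤ _ := Nat.mul_le_mul_left _ hfew
    exact_mod_cast h2
  have hkc : (((H.card + S.card) * c : ℕ) : ℝ) / p ≤ 1 := by
    rw [div_le_one hp0]
    have : (H.card + S.card) * c ≤ p := by omega
    exact_mod_cast this
  have ha1 : (nuB (QH Q H) p : ℝ) / p ≤ 1 := by
    rw [div_le_one hp0]
    exact_mod_cast nuB_le _ p
  have hu1 : (nuB Q p : ℝ) / p ≤ 1 := by
    rw [div_le_one hp0]
    exact_mod_cast nuB_le _ p
  apply fac_lo _ _ _ _ _ (by positivity) hu1 (by positivity) ha1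
  · rw [← mul_div_assoc, ← add_div]
    apply div_le_div_of_nonneg_right _ hp0.le
    exact_mod_cast nuB_rel_le Q c hQ H S p
  · exact hsum.trans hkc
  · rw [← div_pow]
    exact pow_le_pow_left₀ (by positivity) hsum _

/-- the pairs which involve a shift of `S` -/
def prR (H S : Finset ℕ) : Finset (ℕ × ℕ) := (S ×ˢ (H ∪ S)).filter (fun x => x.1 ≠ x.2)

lemma prR_card (H S : Finset ℕ) : (prR H S).card ≤ (H.card + S.card) ^ 2 := by
  unfold prR
  refine (card_filter_le _ _).trans ?_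
  rw [card_product, sq]
  have h1 := card_union_le H S
  exact Nat.mul_le_mul (by omega) h1

open Classical in
/-- upper bound for the tail -/
lemma tail_upR (Q : ℕ → ℕ → Prop) (c : ℕ) (hQ : PerB Q c) (H S : Finset ℕ) (hd : Disjoint H S) (w y : ℕ)
    (hbig : 2 * (S.card * c) ≤ w) :
    Vt (QH Q (H ∪ S)) w y ≤ Vt (QH Q H) w y * Vt Q w y ^ S.card *
      (1 + ∑ x ∈ prR H S, (Fp Q ((1 + 2 * (S.card * c)) ^ ((H.card + S.card) ^ 2) - 1) w y (ad x.1 x.2) - 1)) := by
  obtain ⟨K, hK⟩ : ∃ K, K = 2 * (S.card * c) := ⟨_, rfl⟩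
  have h1 : Vt (QH Q (H ∪ S)) w y ≤ ∏ p ∈ (pz y).filter (fun p => w < p),
      ((1 - (nuB (QH Q H) p : ℝ) / p) * (1 - (nuB Q p : ℝ) / p) ^ S.card *
        (if ClR Q H S p then 1 + (K : ℝ) / p else 1)) := by
    unfold Vt
    apply Finset.prod_le_prod
    · intro p hp
      rw [mem_filter] at hp
      exact one_sub_nonneg _ p (mem_pz.1 hp.1).2
    · intro p hp
      rw [mem_filter] at hp
      have h2 := factor_upR Q c hQ H S hd p (mem_pz.1 hp.1).2 (by omega)
      rw [hK]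
      exact h2
  have h2 : ∏ p ∈ (pz y).filter (fun p => w < p), (if ClR Q H S p then 1 + (K : ℝ) / p else 1) ≤
      ∏ x ∈ prR H S, Fp Q K w y (ad x.1 x.2) := by
    have e : ∏ x ∈ prR H S, Fp Q K w y (ad x.1 x.2) = ∏ p ∈ (pz y).filter (fun p => w < p),
        ∏ x ∈ prR H S, (if CoG Q p (ad x.1 x.2) then 1 + (K : ℝ) / p else 1) := by
      rw [Finset.prod_comm]
      apply Finset.prod_congr rfl
      intro x _
      unfold Fp
      rw [← Finset.filter_filter, Finset.prod_filter]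
    rw [e]
    apply Finset.prod_le_prod
    · intro p _
      split_ifs <;> positivity
    · intro p _
      have hge : ∀ x ∈ prR H S, (1 : ℝ) ≤ (if CoG Q p (ad x.1 x.2) then 1 + (K : ℝ) / p else 1) := by
        intro x _
        have : 0 ≤ (K : ℝ) / p := by positivity
        split_ifs <;> linarith
      split_ifs with h
      · obtain ⟨a, ha, b, hb, hab, hco⟩ := h
        have hmem : (a, b) ∈ prR H S := by
          unfold prR
          rw [mem_filter, mem_product]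
          exact ⟨⟨ha, hb⟩, hab⟩
        have h3 := single_le_prod_one (prR H S)
          (fun x => if CoG Q p (ad x.1 x.2) then 1 + (K : ℝ) / p else 1) hge (a, b) hmem
        simp only [if_pos hco] at h3
        exact h3
      · exact Finset.one_le_prod hge
  have h3 : ∏ x ∈ prR H S, Fp Q K w y (ad x.1 x.2) - 1 ≤
      ∑ x ∈ prR H S, (Fp Q ((1 + K) ^ ((H.card + S.card) ^ 2) - 1) w y (ad x.1 x.2) - 1) := by
    refine (prod_sub_one_le (prR H S) (fun x => Fp Q K w y (ad x.1 x.2))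
      (fun x _ => Fp_ge Q K w y _) ((H.card + S.card) ^ 2) (prR_card H S)).trans ?_
    apply Finset.sum_le_sum
    intro x _
    have := Fp_pow Q K ((H.card + S.card) ^ 2) w y (ad x.1 x.2)
    linarith
  rw [← hK]
  refine h1.trans ?_
  rw [Finset.prod_mul_distrib, Finset.prod_mul_distrib, Finset.prod_pow]
  apply mul_le_mul_of_nonneg_left _ (mul_nonneg (Vt_nonneg _ w y) (pow_nonneg (Vt_nonneg Q w y) _))
  linarith

/-- lower bound for the tail -/
lemma tail_loR (Q : ℕ → ℕ → Prop) (c : ℕ) (hQ : PerB Q c) (H S : Finset ℕ) (w y : ℕ) (hw : 1 ≤ w)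
    (hbig : 2 * ((H.card + S.card) * c) ≤ w) :
    Vt (QH Q H) w y * Vt Q w y ^ S.card * (1 - (((H.card + S.card) * c : ℕ) : ℝ) ^ 2 / w) ≤
      Vt (QH Q (H ∪ S)) w y := by
  obtain ⟨N, hN⟩ : ∃ N : ℕ, N = (H.card + S.card) * c := ⟨_, rfl⟩
  rw [← hN] at hbig ⊢
  have h1 : ∏ p ∈ (pz y).filter (fun p => w < p),
      ((1 - (nuB (QH Q H) p : ℝ) / p) * (1 - (nuB Q p : ℝ) / p) ^ S.card *
        (1 - (N : ℝ) ^ 2 / (p : ℝ) ^ 2)) ≤ Vt (QH Q (H ∪ S)) w y := by
    unfold Vt
    apply Finset.prod_le_prod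
    · intro p hp
      rw [mem_filter] at hp
      apply mul_nonneg (mul_nonneg (one_sub_nonneg _ p (mem_pz.1 hp.1).2)
        (pow_nonneg (one_sub_nonneg Q p (mem_pz.1 hp.1).2) _))
      have hp0 : (0 : ℝ) < p := by exact_mod_cast (mem_pz.1 hp.1).2.pos
      rw [sub_nonneg, div_le_one (by positivity)]
      apply pow_le_pow_left₀ (by positivity)
      have : N ≤ p := by omega
      exact_mod_cast this
    · intro p hp
      rw [mem_filter] at hp
      rw [hN]
      exact factor_loR Q c hQ H S p (mem_pz.1 hp.1).2 (by omega)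
  refine le_trans ?_ h1
  rw [Finset.prod_mul_distrib, Finset.prod_mul_distrib, Finset.prod_pow]
  apply mul_le_mul_of_nonneg_left _ (mul_nonneg (Vt_nonneg _ w y) (pow_nonneg (Vt_nonneg Q w y) _))
  refine le_trans ?_ (prod_one_sub_ge _ _ (fun p _ => by positivity) ?_)
  · have h2 := sum_inv_sq w y hw
    have h3 : ∑ p ∈ (pz y).filter (fun p => w < p), (N : ℝ) ^ 2 / (p : ℝ) ^ 2 ≤ (N : ℝ) ^ 2 * (1 / w) := by
      calc ∑ p ∈ (pz y).filter (fun p => w < p), (N : ℝ) ^ 2 / (p : ℝ) ^ 2 ≤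
          ∑ p ∈ (Icc 1 y).filter (fun n => w < n), (N : ℝ) ^ 2 / (p : ℝ) ^ 2 := by
            apply Finset.sum_le_sum_of_subset_of_nonneg
            · intro p hp
              rw [mem_filter, mem_pz] at hp
              rw [mem_filter, mem_Icc]
              exact ⟨⟨hp.1.2.one_lt.le, hp.1.1⟩, hp.2⟩
            · intros; positivity
        _ = (N : ℝ) ^ 2 * ∑ p ∈ (Icc 1 y).filter (fun n => w < n), 1 / (p : ℝ) ^ 2 := by
            rw [Finset.mul_sum]
            apply Finset.sum_congr rfl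
            intros
            ring
        _ ≤ _ := by gcongr
    have h4 : (N : ℝ) ^ 2 * (1 / w) = (N : ℝ) ^ 2 / w := by ring
    linarith
  · intro p hp
    rw [mem_filter] at hp
    have hp0 : (0 : ℝ) < p := by exact_mod_cast (mem_pz.1 hp.1).2.pos
    rw [div_le_one (by positivity)]
    apply pow_le_pow_left₀ (by positivity)
    have : N ≤ p := by omega
    exact_mod_cast this

open Classical in
/-- the average over the sets of shifts in `W`, as an average over a period -/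
lemma sum_setsR (Q : ℕ → ℕ → Prop) (c : ℕ) (hQ : PerB Q c) (w k : ℕ) (H W : Finset ℕ) :
    (Mw w : ℝ) * ∑ S ∈ powersetCard k W, Vq (QH Q (H ∪ S)) w =
      ∑ m ∈ (range (Mw w)).filter (fun m => Sf (QH Q H) w m),
        (((W.filter (fun h => Sf Q w (m + h))).card.choose k : ℕ) : ℝ) := by
  rw [Finset.mul_sum]
  have h1 : ∀ S ∈ powersetCard k W, (Mw w : ℝ) * Vq (QH Q (H ∪ S)) w =
      ∑ m ∈ (range (Mw w)).filter (fun m => Sf (QH Q H) w m),
        if (∀ h ∈ S, Sf Q w (m + h)) then (1 : ℝ) else 0 := by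
    intro S _
    rw [← exact (QH Q (H ∪ S)) _ (perB_QH Q c hQ (H ∪ S)) w]
    rw [Finset.sum_ite, Finset.sum_const_zero, add_zero, Finset.sum_const, nsmul_eq_mul, mul_one,
      Finset.filter_filter]
    congr 2
    apply Finset.filter_congr
    intro m _
    rw [sf_QH, sf_QH]
    constructor
    · intro h
      exact ⟨fun x hx => h x (mem_union_left _ hx), fun x hx => h x (mem_union_right _ hx)⟩
    · rintro ⟨h2, h3⟩ x hx
      rcases mem_union.1 hx with h | h
      · exact h2 x h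
      · exact h3 x h
  rw [Finset.sum_congr rfl h1, Finset.sum_comm]
  apply Finset.sum_congr rfl
  intro m _
  rw [Finset.sum_ite, Finset.sum_const_zero, add_zero, Finset.sum_const, nsmul_eq_mul, mul_one,
    ← Finset.card_powersetCard]
  congr 2
  ext S
  rw [mem_filter, mem_powersetCard, mem_powersetCard]
  constructor
  · rintro ⟨⟨a1, a2⟩, a3⟩
    exact ⟨fun h hh => mem_filter.2 ⟨a1 hh, a3 h hh⟩, a2⟩
  · rintro ⟨a1, a2⟩
    exact ⟨⟨fun h hh => (mem_filter.1 (a1 hh)).1, a2⟩, fun h hh => (mem_filter.1 (a1 hh)).2⟩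

end Pool.Agent.R463.EX
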