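import Pool.Agent.R463.PS
import Pool.Agent.Y879.PR.Full
import Pool.Agent.W123.RU.PolyV

set_option autoImplicit false

/-!
# The law after primes for systems of polynomials: general form; densities
-/

namespace Pool.Agent.R463.PS

open Polynomial Finset Filter
open Pool.Agent.W123.RP Pool.Agent.H373R2.T7 Pool.Agent.W123.RU Pool.Agent.W123.RU.Poly
open Pool.Agent.TH464.PW Pool.Agent.TH464.PO Pool.Agent.Y879.GL Pool.Agent.Y879.PR

variable {k : ℕ}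

/-- the density divided by the product of `1 - 1 / p`: the product of `(1 - om(p) / p) / (1 - 1 / p)` over
the primes `p ≤ X ^ (1 / r)` -/
noncomputable def W (f : Fin k → ℤ[X]) (X r : ℕ) : ℝ :=
  ∏ p ∈ (Icc 1 ⌊(X : ℝ) ^ (1 / (r : ℝ))⌋₊).filter Nat.Prime, (1 - (om f p : ℝ) / p) / (1 - 1 / (p : ℝ))

open Classical in
/-- the sifted `n` in `(A, A + L]` for which `a n + b` is a PRIME -/
noncomputable def Pr (a b : ℕ) (f : Fin k → ℤ[X]) (X r A L : ℕ) : Finset ℕ :=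
  (Ioc A (A + L)).filter (fun n => (a * n + b).Prime ∧ Sifted f X r n)

open Classical in
/-- the number of the sifted integers in `(n, n + T]` -/
noncomputable def Next (f : Fin k → ℤ[X]) (X r T n : ℕ) : ℕ :=
  ((Ioc n (n + T)).filter (fun l => Sifted f X r l)).card

lemma W_eq (f : Fin k → ℤ[X]) (X r : ℕ) : W f X r = V f X r / Vz ⌊(X : ℝ) ^ (1 / (r : ℝ))⌋₊ := by
  unfold W V Vz
  rw [Finset.prod_div_distrib]
  rfl

lemma Pr_eq (a b : ℕ) (f : Fin k → ℤ[X]) (X r A L : ℕ) :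
    Pr a b f X r A L = Om a b (Q f) ⌊(X : ℝ) ^ (1 / (r : ℝ))⌋₊ A L := by
  classical
  unfold Pr Om
  apply filter_congr
  intro n _
  rw [sf_iff]

lemma Next_eq (f : Fin k → ℤ[X]) (X r T n : ℕ) :
    Next f X r T n = Wc (Sf (Q f) ⌊(X : ℝ) ^ (1 / (r : ℝ))⌋₊) n T := by
  classical
  unfold Next Wc
  congr 1
  apply filter_congr
  intro l _
  exact sf_iff f X r l

open Classical in
/-- the law after primes -/
theorem after (a k D : ℕ) (ha : Squarefree a) (E δ' θ δ : ℝ) (hE : 0 < E) (hδ' : 0 < δ')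
    (hθ : 0 < θ) (hδ : 0 < δ) (hδ1 : δ ≤ 1) (x₀ ε : ℝ) (hε : 0 < ε) (hε1 : ε ≤ 1) :
    ∃ r₀ : ℕ, 2 ≤ r₀ ∧ ∀ r : ℕ, r₀ ≤ r → ∀ C : ℝ, ∀ᶠ X : ℕ in atTop,
      ∀ (f : Fin k → ℤ[X]) (b : ℕ), System D ((X : ℝ) ^ E) ((X : ℝ) ^ δ') f → Nat.Coprime a b →
      (∀ p n : ℕ, p.Prime → p ∣ a → ∀ i, ¬ (p : ℤ) ∣ (f i).eval (n : ℤ)) →
      (∃ i, ∀ n : ℕ, (f i).eval (n : ℤ) = a * n + b) →
      V f X r ≤ C / Real.log X → (b : ℝ) ≤ (X : ℝ) ^ (θ / 4) →
      ∀ x : ℕ, (X : ℝ) ^ θ ≤ x → ∀ A L : ℕ, δ * x ≤ L → A + L ≤ x →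
        |((Pr a b f X r A L).card : ℝ) * Real.log x - L * W f X r| ≤ ε * (L * W f X r) ∧
        ∀ T : ℕ, T * V f X r ≤ x₀ → ∀ B : Finset ℕ,
          |(((Pr a b f X r A L).filter (fun n => Next f X r T n ∈ B)).card : ℝ) -
            (Pr a b f X r A L).card *
              ∑ j ∈ B, Real.exp (-(T * V f X r)) * (T * V f X r) ^ j / j.factorial| ≤
            ε * (Pr a b f X r A L).card := by
  obtain ⟨r0, hr0, h⟩ := prime_full a k D ha E δ' θ δ hE hδ' hθ hδ hδ1 x₀ ε hε hε1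
  refine ⟨r0, hr0, fun r hr C => ?_⟩
  filter_upwards [h r hr C] with X hX f b hf hab hpa hbase hV hb x hx A L hL hAL
  have hV' := hV
  rw [V_eq] at hV'
  obtain ⟨h1, h2⟩ := hX f b hf.us hab (fun p n hp hpa' hq => by
    obtain ⟨i, hi⟩ := hq
    exact hpa p n hp hpa' i hi) hbase hV' hb x hx A L hL hAL
  rw [W_eq, V_eq, Pr_eq]
  refine ⟨h1, ?_⟩
  intro T hT B
  have h3 := h2 T hT B
  simp only [Next_eq]
  exact h3

open Classical in
/-- a system containing a fixed polynomial has density `O(1 / log X)` -/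
theorem V_le_fixed (g : ℤ[X]) (hirr : Irreducible g) (hdeg : 1 ≤ g.natDegree) (hlead : 0 < g.leadingCoeff)
    (hadm : ∀ p : ℕ, p.Prime → ∃ n : ℕ, ¬ (p : ℤ) ∣ g.eval (n : ℤ)) (r : ℕ) (hr : 2 ≤ r) :
    ∃ C : ℝ, 0 < C ∧ ∀ᶠ X : ℕ in atTop, ∀ (k : ℕ) (f : Fin k → ℤ[X]), (∃ i, f i = g) →
      V f X r ≤ C / Real.log X := by
  have hsys : Sys (fun _ : Fin 1 => g) :=
    { irr := fun _ => hirr
      deg := fun _ => by omega
      lead := fun _ => hlead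
      inj := fun i j _ => Subsingleton.elim i j
      adm := fun p hp => by
        obtain ⟨n, hn⟩ := hadm p hp
        exact ⟨n, fun _ => hn⟩ }
  obtain ⟨v, Cv, hv, hCv, hV⟩ := V_bounds _ hsys
  rw [Fintype.card_fin] at hV
  have hrr : (2 : ℝ) ≤ r := by exact_mod_cast hr
  refine ⟨Cv * (2 * r), by positivity, ?_⟩
  filter_upwards [Pool.Agent.Y879.GL.level_ok r hr] with X hX k f hf
  obtain ⟨l1, l2, l3, l4, l5⟩ := hX
  obtain ⟨i, hi⟩ := hf
  rw [V_eq]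
  have h1 : Vq (Q f) ⌊(X : ℝ) ^ (1 / (r : ℝ))⌋₊ ≤
      Vq (Q (fun _ : Fin 1 => g)) ⌊(X : ℝ) ^ (1 / (r : ℝ))⌋₊ := by
    apply Pool.Agent.Y879.GL.Vq_anti
    intro p m _ hq
    obtain ⟨_, hj⟩ := hq
    exact ⟨i, by rw [hi]; exact hj⟩
  refine h1.trans ((hV _ l1).2.trans ?_)
  rw [pow_one, mul_div_assoc, div_eq_mul_one_div Cv]
  apply mul_le_mul_of_nonneg_left _ hCv.le
  rw [one_div, inv_le_comm₀ (by linarith) (by positivity), inv_div]
  exact l2

open Classical in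
/-- the order of magnitude of the density of a fixed system -/
theorem V_fixed (f : Fin k → ℤ[X]) (hirr : ∀ i, Irreducible (f i)) (hdeg : ∀ i, 1 ≤ (f i).natDegree)
    (hlead : ∀ i, 0 < (f i).leadingCoeff) (hinj : Function.Injective f)
    (hadm : ∀ p : ℕ, p.Prime → ∃ n : ℕ, ∀ i, ¬ (p : ℤ) ∣ (f i).eval (n : ℤ)) (r : ℕ) (hr : 2 ≤ r) :
    ∃ v C : ℝ, 0 < v ∧ 0 < C ∧ ∀ᶠ X : ℕ in atTop,
      v / Real.log X ^ k ≤ V f X r ∧ V f X r ≤ C / Real.log X ^ k := by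
  have hsys : Sys f :=
    { irr := hirr
      deg := fun i => by have := hdeg i; omega
      lead := hlead
      inj := hinj
      adm := hadm }
  obtain ⟨v, Cv, hv, hCv, hV⟩ := V_bounds f hsys
  rw [Fintype.card_fin] at hV
  have hrr : (2 : ℝ) ≤ r := by exact_mod_cast hr
  refine ⟨v, Cv * (2 * r) ^ k, hv, by positivity, ?_⟩
  filter_upwards [Pool.Agent.Y879.GL.level_ok r hr] with X hX
  obtain ⟨l1, l2, l3, l4, l5⟩ := hX
  obtain ⟨h1, h2⟩ := hV _ l1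
  have hly : 0 < Real.log (⌊(X : ℝ) ^ (1 / (r : ℝ))⌋₊ : ℝ) := by linarith
  have hlX : 0 < Real.log (X : ℝ) := by linarith
  rw [V_eq]
  constructor
  · refine le_trans ?_ h1
    apply div_le_div_of_nonneg_left hv.le (by positivity)
    exact pow_le_pow_left₀ hly.le l3 k
  · refine h2.trans ?_
    rw [div_le_div_iff₀ (by positivity) (by positivity), mul_assoc]
    apply mul_le_mul_of_nonneg_left _ hCv.le
    rw [← mul_pow]
    apply pow_le_pow_left₀ hlX.le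
    rw [div_le_iff₀ (by positivity)] at l2
    linarith

end Pool.Agent.R463.PS
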