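import Pool.Agent.R463.EX6
import Pool.Agent.R463.PP9

set_option autoImplicit false

/-!
# The exact patterns for systems of polynomials
-/

namespace Pool.Agent.R463.PS

open Polynomial Finset Filter
open Pool.Agent.W123.RP Pool.Agent.H373R2.T7 Pool.Agent.W123.RU Pool.Agent.W123.RU.Poly
open Pool.Agent.TH464.PW Pool.Agent.TH464.PO Pool.Agent.Y879.GL Pool.Agent.R463.EX Pool.Agent.R463.PP

variable {k : ℕ}

open Classical in
/-- the number of the residues `n` modulo `p` for which `p` divides one of the values `f i (n + h)`,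
`h ∈ H` -/
noncomputable def omH (f : Fin k → ℤ[X]) (H : Finset ℕ) (p : ℕ) : ℕ :=
  ((range p).filter (fun n : ℕ => ∃ h ∈ H, ∃ i, (p : ℤ) ∣ (f i).eval ((n + h : ℕ) : ℤ))).card

/-- the product of `1 - omH(p) / p` over the primes `p ≤ X ^ (1 / r)` -/
noncomputable def VH (f : Fin k → ℤ[X]) (H : Finset ℕ) (X r : ℕ) : ℝ :=
  ∏ p ∈ (Icc 1 ⌊(X : ℝ) ^ (1 / (r : ℝ))⌋₊).filter Nat.Prime, (1 - (omH f H p : ℝ) / p)

open Classical in
/-- the number of the integers `Z < n ≤ Z + Y` for which the sifted integers in `[n, n + L]` are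
exactly the integers `n + h`, `h ∈ H` -/
noncomputable def exS (f : Fin k → ℤ[X]) (H : Finset ℕ) (L X r Z Y : ℕ) : ℕ :=
  ((Ioc Z (Z + Y)).filter (fun n => ∀ h ≤ L, Sifted f X r (n + h) ↔ h ∈ H)).card

lemma VH_eq (f : Fin k → ℤ[X]) (H : Finset ℕ) (X r : ℕ) :
    VH f H X r = Vq (QH (Q f) H) ⌊(X : ℝ) ^ (1 / (r : ℝ))⌋₊ := by
  classical
  unfold VH Vq
  apply Finset.prod_congr rfl
  intro p _
  have : omH f H p = nuB (QH (Q f) H) p := by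
    unfold omH nuB QH Q
    congr
  rw [this]

lemma exS_eq (f : Fin k → ℤ[X]) (H : Finset ℕ) (L X r Z Y : ℕ) :
    exS f H L X r Z Y = exN (Q f) H L ⌊(X : ℝ) ^ (1 / (r : ℝ))⌋₊ Z Y := by
  classical
  unfold exS exN
  congr 1
  ext n
  simp only [mem_filter, mem_Ioc, mem_Icc, sf_iff]
  constructor
  · rintro ⟨⟨h1, h2⟩, h3⟩
    exact ⟨⟨by omega, h2⟩, h3⟩
  · rintro ⟨⟨h1, h2⟩, h3⟩
    exact ⟨⟨by omega, h2⟩, h3⟩

open Classical in
/-- **The exact patterns**, uniformly in the systems of polynomials. -/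
theorem blocks (k D a : ℕ) (ha : 1 ≤ a) (E δ θ x0 ε : ℝ) (hE : 0 < E) (hδ : 0 < δ) (hθ : 0 < θ)
    (hε : 0 < ε) :
    ∃ r₀ : ℕ, ∀ r : ℕ, r₀ ≤ r → ∀ Cv : ℝ, ∀ᶠ X : ℕ in atTop, ∀ f : Fin k → ℤ[X],
      System D ((X : ℝ) ^ E) ((X : ℝ) ^ δ) f → V f X r ≤ Cv / Real.log X →
      ∀ Z Y : ℕ, (X : ℝ) ^ θ ≤ Y → ∀ H : Finset ℕ, H.card = a → 0 ∈ H → ∀ L : ℕ,
        (∀ h ∈ H, h ≤ L) → L * V f X r ≤ x0 →
        |(exS f H L X r Z Y : ℝ) - Y * VH f H X r * Real.exp (-(L * V f X r))| ≤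
          ε * (Y * VH f H X r * Real.exp (-(L * V f X r))) := by
  obtain ⟨A1, hA1⟩ : ∃ A1 : ℝ, A1 = 1 + 2 * D * (E + δ * D + 1) := ⟨_, rfl⟩
  have hA10 : 0 < A1 := by rw [hA1]; positivity
  obtain ⟨A, hA⟩ : ∃ A : ℝ, A = A1 * (k * k) + 1 := ⟨_, rfl⟩
  have hA0 : 0 < A := by rw [hA]; positivity
  obtain ⟨r0, h0⟩ := patt_unif (k * D + 1) a (by omega) ha x0 ε A δ θ hε hA0 hδ hθ
  refine ⟨r0, ?_⟩
  intro r hr Cv
  filter_upwards [h0 r hr Cv, eventually_ge_atTop (((2 * D).factorial + (D + 1) * 2 ^ D + 1))] with X hX hXb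
  intro f hf0 hV Z Y hY H hHa h0 L hL hx
  have hf := hf0.us
  have hXr : (((2 * D).factorial + (D + 1) * 2 ^ D + 1 : ℕ) : ℝ) ≤ X := by exact_mod_cast hXb
  push_cast at hXr
  have hf0 : (0 : ℝ) ≤ ((2 * D).factorial : ℝ) := Nat.cast_nonneg _
  have hd0 : (0 : ℝ) ≤ ((D : ℝ) + 1) * 2 ^ D := by positivity
  have hX1 : (1 : ℝ) ≤ X := by linarith
  have hX0 : (0 : ℝ) < X := by linarith
  rw [exS_eq, VH_eq]
  rw [V_eq] at hV hx ⊢
  refine hX _ (us_perB hf) (fun p hp => us_adm hf p hp) hV ?_ Y hY Z H hHa h0 L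
    (fun x hx => mem_range.2 (Nat.lt_succ_of_le (hL x hx))) hx
  intro t ht htU
  refine ⟨RR f t, RR_pos hf t ht htU, ?_, fun p _ _ hc => RR_dvd hf t p hc⟩
  refine (RR_le hf (Real.one_le_rpow hX1 hE.le) t ht htU).trans ?_
  have h1 : ((D : ℝ) + 1) * ((X : ℝ) ^ E * (((X : ℝ) ^ δ) ^ D * 2 ^ D)) ≤ (X : ℝ) ^ (E + δ * D + 1) := by
    calc ((D : ℝ) + 1) * ((X : ℝ) ^ E * (((X : ℝ) ^ δ) ^ D * 2 ^ D)) =
          (((D : ℝ) + 1) * 2 ^ D) * ((X : ℝ) ^ E * ((X : ℝ) ^ δ) ^ D) := by ring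
      _ ≤ X * ((X : ℝ) ^ E * ((X : ℝ) ^ δ) ^ D) := by
          apply mul_le_mul_of_nonneg_right (by linarith) (by positivity)
      _ = (X : ℝ) ^ (E + δ * D + 1) := by
          rw [← Real.rpow_natCast ((X : ℝ) ^ δ), ← Real.rpow_mul hX0.le, ← Real.rpow_add hX0,
            Real.rpow_add hX0 (E + δ * D) 1, Real.rpow_one]
          ring
  have h2 : ((2 * D).factorial : ℝ) * (((D : ℝ) + 1) * ((X : ℝ) ^ E * (((X : ℝ) ^ δ) ^ D * 2 ^ D))) ^ (2 * D) ≤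
      (X : ℝ) ^ A1 := by
    calc ((2 * D).factorial : ℝ) * (((D : ℝ) + 1) * ((X : ℝ) ^ E * (((X : ℝ) ^ δ) ^ D * 2 ^ D))) ^ (2 * D)
        ≤ X * ((X : ℝ) ^ (E + δ * D + 1)) ^ (2 * D) := by
          apply mul_le_mul (by linarith) _ (by positivity) hX0.le
          exact pow_le_pow_left₀ (by positivity) h1 _
      _ = (X : ℝ) ^ A1 := by
          rw [← Real.rpow_natCast, ← Real.rpow_mul hX0.le, hA1]
          nth_rewrite 1 [← Real.rpow_one (X : ℝ)]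
          rw [← Real.rpow_add hX0]
          congr 1
          push_cast
          ring
  calc _ ≤ ((X : ℝ) ^ A1) ^ (k * k) := pow_le_pow_left₀ (by positivity) h2 _
    _ = (X : ℝ) ^ (A1 * (k * k)) := by
        rw [← Real.rpow_natCast, ← Real.rpow_mul hX0.le]
        push_cast
        rfl
    _ ≤ (X : ℝ) ^ A := Real.rpow_le_rpow_of_exponent_le hX1 (by rw [hA]; linarith)

/-- the same, for all sets of at most `K` elements -/
theorem blocks' (k D K : ℕ) (E δ θ x0 ε : ℝ) (hE : 0 < E) (hδ : 0 < δ) (hθ : 0 < θ)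
    (hε : 0 < ε) :
    ∃ r₀ : ℕ, ∀ r : ℕ, r₀ ≤ r → ∀ Cv : ℝ, ∀ᶠ X : ℕ in atTop, ∀ f : Fin k → ℤ[X],
      System D ((X : ℝ) ^ E) ((X : ℝ) ^ δ) f → V f X r ≤ Cv / Real.log X →
      ∀ Z Y : ℕ, (X : ℝ) ^ θ ≤ Y → ∀ H : Finset ℕ, H.card ≤ K → 0 ∈ H → ∀ L : ℕ,
        (∀ h ∈ H, h ≤ L) → L * V f X r ≤ x0 →
        |(exS f H L X r Z Y : ℝ) - Y * VH f H X r * Real.exp (-(L * V f X r))| ≤
          ε * (Y * VH f H X r * Real.exp (-(L * V f X r))) := by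
  choose r0 h using fun a : ℕ => blocks k D (a + 1) (by omega) E δ θ x0 ε hE hδ hθ hε
  refine ⟨∑ a ∈ range K, r0 a, fun r hr Cv => ?_⟩
  have hall : ∀ a ∈ range K, ∀ᶠ X : ℕ in atTop, ∀ f : Fin k → ℤ[X],
      System D ((X : ℝ) ^ E) ((X : ℝ) ^ δ) f → V f X r ≤ Cv / Real.log X →
      ∀ Z Y : ℕ, (X : ℝ) ^ θ ≤ Y → ∀ H : Finset ℕ, H.card = a + 1 → 0 ∈ H → ∀ L : ℕ,
        (∀ h ∈ H, h ≤ L) → L * V f X r ≤ x0 →
        |(exS f H L X r Z Y : ℝ) - Y * VH f H X r * Real.exp (-(L * V f X r))| ≤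
          ε * (Y * VH f H X r * Real.exp (-(L * V f X r))) := fun a ha =>
    h a r ((Finset.single_le_sum (fun _ _ => Nat.zero_le _) ha).trans hr) Cv
  filter_upwards [(Finset.eventually_all (range K)).2 hall] with X hX f hf hV Z Y hY H hH h0 L hL hx
  have hpos : 0 < H.card := card_pos.2 ⟨0, h0⟩
  exact hX (H.card - 1) (mem_range.2 (by omega)) f hf hV Z Y hY H (by omega) h0 L hL hx

end Pool.Agent.R463.PS
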