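import Pool.Agent.R463.PL
import Pool.Agent.Y879.GL.QuadU

set_option autoImplicit false

/-!
# Quadratic polynomials, uniformly in the coefficients: inputs
-/

namespace Pool.Agent.R463.PS

open Polynomial Finset Filter
open Pool.Agent.W123.RP Pool.Agent.H373R2.T7 Pool.Agent.W123.RU Pool.Agent.W123.RU.Poly
open Pool.Agent.TH464.PW Pool.Agent.TH464.PO Pool.Agent.Y879.GL

/-- the system of one quadratic polynomial -/
theorem quad_system (A : ℕ) (X : ℕ) (hX : 1 ≤ X) (a b c : ℤ) (ha : 0 < a)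
    (hg : ∀ p : ℕ, p.Prime → ¬ ((p : ℤ) ∣ a ∧ (p : ℤ) ∣ b ∧ (p : ℤ) ∣ c))
    (hpar : ¬ (Even (a + b) ∧ Even c)) (hD : ¬ IsSquare (b ^ 2 - 4 * a * c))
    (haX : |a| ≤ (X : ℤ) ^ A) (hbX : |b| ≤ (X : ℤ) ^ A) (hcX : |c| ≤ (X : ℤ) ^ A) (U : ℝ) :
    System 2 ((X : ℝ) ^ ((A : ℝ) + 1)) U (qs a b c) := by
  have hX1 : (1 : ℝ) ≤ X := by exact_mod_cast hX
  have hus : US 1 2 ((X : ℝ) ^ ((A : ℝ) + 1)) U (qs a b c) := by
    apply us_single (quad a b c) (quad_irr a b c ha.ne' hg hD)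
    · rw [quad_deg a b c ha.ne']
      norm_num
    · rw [quad_deg a b c ha.ne']
    · intro n
      have h4 := quad_coeff a b c n ((X : ℤ) ^ A) haX hbX hcX
      have h5 : |(((quad a b c).coeff n : ℤ) : ℝ)| ≤ (X : ℝ) ^ A := by exact_mod_cast h4
      refine h5.trans ?_
      rw [← Real.rpow_natCast]
      exact Real.rpow_le_rpow_of_exponent_le hX1 (by linarith)
    · intro p hp
      exact quad_adm a b c hg hpar p hp
  exact
    { irr := hus.irr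
      deg := fun i => ⟨Nat.one_le_iff_ne_zero.2 (hus.deg i), hus.degD i⟩
      hgt := hus.hgt
      adm := hus.adm
      tr := fun i j t ht htU => ⟨fun e => hus.tr i j t ht htU (by rw [e]), fun e => hus.tr i j t ht htU (by
        rw [e]
        exact (Associated.refl _).neg_left)⟩ }

lemma quad_sift (a b c : ℤ) (X r n : ℕ) : Sifted (qs a b c) X r n ↔
    ∀ p : ℕ, p.Prime → (p : ℝ) ≤ (X : ℝ) ^ (1 / (r : ℝ)) → ¬ (p : ℤ) ∣ a * (n : ℤ) ^ 2 + b * n + c := by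
  unfold Sifted
  constructor
  · intro h p hp hpr hd
    apply h p hp hpr 0
    have := (qs_Q a b c p n).2 hd
    obtain ⟨i, hi⟩ := this
    have e : i = 0 := Subsingleton.elim _ _
    rwa [e] at hi
  · intro h p hp hpr i hi
    exact h p hp hpr ((qs_Q a b c p n).1 ⟨i, hi⟩)

lemma quad_om (a b c : ℤ) (p : ℕ) : om (qs a b c) p =
    ((range p).filter (fun n : ℕ => (p : ℤ) ∣ a * (n : ℤ) ^ 2 + b * n + c)).card := by
  classical
  unfold om
  congr 1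
  ext n
  simp only [mem_filter]
  constructor
  · rintro ⟨h1, h2⟩
    exact ⟨h1, (qs_Q a b c p n).1 h2⟩
  · rintro ⟨h1, h2⟩
    exact ⟨h1, (qs_Q a b c p n).2 h2⟩

/-- the product of `1 - 1 / p` over the primes `p ≤ X ^ (1 / r)` is of the order `1 / log X` -/
theorem W0_bounds (r : ℕ) (hr : 2 ≤ r) : ∃ c C : ℝ, 0 < c ∧ 0 < C ∧ ∀ᶠ X : ℕ in atTop,
    c / Real.log X ≤ Vz ⌊(X : ℝ) ^ (1 / (r : ℝ))⌋₊ ∧
    Vz ⌊(X : ℝ) ^ (1 / (r : ℝ))⌋₊ ≤ C / Real.log X := by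
  obtain ⟨c, C, hc, hC, hV⟩ := Vz_bounds
  have hrr : (2 : ℝ) ≤ r := by exact_mod_cast hr
  refine ⟨c, C * (2 * r), hc, by positivity, ?_⟩
  filter_upwards [level_ok r hr] with X hX
  obtain ⟨l1, l2, l3, l4, l5⟩ := hX
  obtain ⟨h6, h7⟩ := hV ⌊(X : ℝ) ^ (1 / (r : ℝ))⌋₊ (by omega)
  have hly : 0 < Real.log (⌊(X : ℝ) ^ (1 / (r : ℝ))⌋₊ : ℝ) := by linarith
  refine ⟨le_trans ?_ h6, h7.trans ?_⟩
  · rw [div_eq_mul_one_div c (Real.log (X : ℝ)), div_eq_mul_one_div c (Real.log (⌊(X : ℝ) ^ (1 / (r : ℝ))⌋₊ : ℝ))]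
    apply mul_le_mul_of_nonneg_left _ hc.le
    exact one_div_le_one_div_of_le hly l3
  · rw [mul_div_assoc, div_eq_mul_one_div C]
    apply mul_le_mul_of_nonneg_left _ hC.le
    rw [one_div, inv_le_comm₀ (by linarith) (by positivity), inv_div]
    exact l2

end Pool.Agent.R463.PS
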