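import Pool.Agent.R463.EX9
import Pool.Agent.R463.EX10
import Pool.Agent.R463.Quad

set_option autoImplicit false

/-!
# The exact patterns with a prime at a prescribed place, for systems of polynomials
-/

namespace Pool.Agent.R463.EX

open Polynomial Finset Filter
open Pool.Agent.W123.RP Pool.Agent.H373R2.T7 Pool.Agent.W123.RU Pool.Agent.W123.RU.Poly
open Pool.Agent.TH464.PW Pool.Agent.TH464.PO Pool.Agent.Y879.GL Pool.Agent.R463.PP Pool.Agent.R463.PS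
open Pool.Agent.Y879.PR

open Classical in
/-- **The blocks with a prime at a prescribed place, uniformly in the sieve conditions.** -/
theorem pattP_unif (c g : ℕ) (hg : 1 ≤ g) (x0 ε δ A δ' θ : ℝ) (hε : 0 < ε) (hδ : 0 < δ)
    (hδ1 : δ ≤ 1) (hA : 0 < A) (hδ' : 0 < δ') (hθ : 0 < θ) :
    ∃ r0 : ℕ, ∀ r : ℕ, r0 ≤ r → ∀ᶠ N : ℕ in atTop, ∀ Q : ℕ → ℕ → Prop, PerB Q c →
      (∀ p : ℕ, p.Prime → nuB Q p < p) → (∀ p n : ℕ, p ∣ n → Q p n) →
      (∀ t : ℕ, 1 ≤ t → (t : ℝ) ≤ (N : ℝ) ^ δ' → ∃ R : ℕ, 0 < R ∧ (R : ℝ) ≤ (N : ℝ) ^ A ∧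
        ∀ p : ℕ, p.Prime → t < p → CoG Q p t → p ∣ R) →
      ∀ X : ℕ, (N : ℝ) ^ θ ≤ X → ∀ H : Finset ℕ, H.card = g → 0 ∈ H → ∀ b ∈ H, ∀ L : ℕ,
        H ⊆ range (L + 1) → L * Vq Q ⌊(N : ℝ) ^ (1 / (r : ℝ))⌋₊ ≤ x0 →
        ∀ u Y : ℕ, δ * X ≤ u → δ * X ≤ Y → u + Y ≤ X →
        |(exP 1 b Q H L ⌊(N : ℝ) ^ (1 / (r : ℝ))⌋₊ u Y : ℝ) * Real.log X -
            Y * (Vq (QH Q H) ⌊(N : ℝ) ^ (1 / (r : ℝ))⌋₊ / Vz ⌊(N : ℝ) ^ (1 / (r : ℝ))⌋₊) *
              Real.exp (-(L * Vq Q ⌊(N : ℝ) ^ (1 / (r : ℝ))⌋₊))| ≤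
          ε * (Y * (Vq (QH Q H) ⌊(N : ℝ) ^ (1 / (r : ℝ))⌋₊ / Vz ⌊(N : ℝ) ^ (1 / (r : ℝ))⌋₊) *
              Real.exp (-(L * Vq Q ⌊(N : ℝ) ^ (1 / (r : ℝ))⌋₊))) := by
  obtain ⟨ε1, hε1⟩ : ∃ ε1 : ℝ, ε1 = min 1 (ε * Real.exp (-x0)) := ⟨_, rfl⟩
  have hex := Real.exp_pos (-x0)
  have hε10 : 0 < ε1 := by rw [hε1]; positivity
  obtain ⟨K, y1, T0, η', κ, x1, hη', hκ, hx1, hmain⟩ := pattP0 1 c g (g * c + 1) squarefree_one hg x0
    ε1 δ hε10 (by rw [hε1]; exact min_le_left _ _) hδ hδ1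
  obtain ⟨r0, hok⟩ := ok_unif c ⟨K, y1 + 1, T0, 0, η', κ, x1, by omega, hη', hκ, hx1⟩ A δ' θ hA hδ' hθ
  obtain ⟨v, hv, hV⟩ := V_lower_unif c
  obtain ⟨v', hv', hV'⟩ := V_lower_unif (g * c)
  obtain ⟨R1, hR1⟩ : ∃ R1 : ℕ, 1 / θ ≤ (R1 : ℝ) := exists_nat_ge _
  refine ⟨max (max r0 R1) 2, ?_⟩
  intro r hr
  have hr0 : r0 ≤ r := (le_max_left _ _).trans ((le_max_left _ _).trans hr)
  have hrR : R1 ≤ r := (le_max_right _ _).trans ((le_max_left _ _).trans hr)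
  have hr2 : 2 ≤ r := (le_max_right _ _).trans hr
  have hrr : (2 : ℝ) ≤ r := by exact_mod_cast hr2
  have hrpos : (0 : ℝ) < r := by linarith
  have hrθ : 1 / (r : ℝ) ≤ θ := by
    rw [div_le_iff₀ hrpos]
    rw [div_le_iff₀ hθ] at hR1
    have : (R1 : ℝ) ≤ r := by exact_mod_cast hrR
    nlinarith
  obtain ⟨w1, w2, hw1, hw2, hW⟩ := W0_bounds r hr2
  have hpow2 : Tendsto (fun X : ℕ => (X : ℝ) ^ (1 / (2 * r : ℝ))) atTop atTop :=
    (tendsto_rpow_atTop (by positivity)).comp tendsto_natCast_atTop_atTop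
  have hlogX : Tendsto (fun X : ℕ => Real.log (X : ℝ)) atTop atTop :=
    Real.tendsto_log_atTop.comp tendsto_natCast_atTop_atTop
  have hq2 : (0 : ℝ) < |x0| / v + 1 := by positivity
  filter_upwards [hok r hr0 w2, hW, eventually_ge_atTop 16,
    hpow2.eventually_ge_atTop (((g * c + 3 : ℕ)) : ℝ), hlogX.eventually_ge_atTop (1 / (v' * θ)),
    logpow_rpow c (|x0| / v + 1) θ hq2 hθ] with N hX hWN hN16 hN1 hN2 hN3
  intro Q hQ hadm hbase hres X hNX H hHg h0 b hb L hHL hLx u Y hu hY huY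
  have hN16r : (16 : ℝ) ≤ N := by exact_mod_cast hN16
  have hNpos : (0 : ℝ) < N := by linarith
  have hlN0 : 0 < Real.log N := Real.log_pos (by linarith)
  obtain ⟨hy1, hy2, hy3, hy4⟩ := level_low r hr2 N (by omega) (by
    refine le_trans ?_ hN1
    push_cast
    have : (0 : ℝ) ≤ g * c := by positivity
    linarith)
  have hyle : ((⌊(N : ℝ) ^ (1 / (r : ℝ))⌋₊ : ℕ) : ℝ) ≤ (N : ℝ) ^ (1 / (r : ℝ)) :=
    Nat.floor_le (by positivity)
  have hVup : Vq Q ⌊(N : ℝ) ^ (1 / (r : ℝ))⌋₊ ≤ w2 / Real.log N := by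
    refine le_trans ?_ hWN.2
    rw [← Vz_Qi]
    exact Vq_anti' Qi Q _ hbase
  have hok1 := hX Q hQ hadm hVup hres 1 (fun p hp hd => absurd (Nat.dvd_one.1 hd) hp.one_lt.ne') X hNX
  obtain ⟨y, hy⟩ : ∃ y, y = ⌊(N : ℝ) ^ (1 / (r : ℝ))⌋₊ := ⟨_, rfl⟩
  rw [← hy] at hy1 hy2 hy3 hy4 hyle hVup hok1 hLx ⊢
  have hyr : ((g * c + 3 : ℕ) : ℝ) ≤ y := hN1.trans hy1
  have hygc : g * c + 3 ≤ y := by exact_mod_cast hyr
  have hlogy : 0 < Real.log y := lt_of_lt_of_le (by positivity) hy2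
  have hyX : (y : ℝ) ≤ X :=
    hyle.trans ((Real.rpow_le_rpow_of_exponent_le (by linarith) hrθ).trans hNX)
  have hy0 : (0 : ℝ) < y := by
    have : 0 < y := by omega
    exact_mod_cast this
  have hlyX : Real.log (y : ℝ) ≤ Real.log X := Real.log_le_log hy0 hyX
  have hlX : 0 < Real.log (X : ℝ) := hlogy.trans_le hlyX
  have hlXN : θ * Real.log N ≤ Real.log X := by
    rw [← Real.log_rpow hNpos]
    exact Real.log_le_log (by positivity) hNX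
  have hlXv : 1 ≤ Real.log X * v' := by
    rw [div_le_iff₀ (by positivity)] at hN2
    calc (1 : ℝ) ≤ Real.log N * (v' * θ) := hN2
      _ = θ * Real.log N * v' := by ring
      _ ≤ Real.log X * v' := mul_le_mul_of_nonneg_right hlXN hv'.le
  have hVlow0 := hV Q hQ hadm y (by omega)
  have hbL : b ≤ L := by
    have := mem_range.1 (hHL hb)
    omega
  have hbX : b ≤ X := by
    have h1 : (L : ℝ) ≤ X := by
      refine le_trans ?_ hNX
      refine le_trans ?_ hN3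
      have h2 : (L : ℝ) * (v / Real.log y ^ c) ≤ x0 :=
        (mul_le_mul_of_nonneg_left hVlow0 (Nat.cast_nonneg _)).trans hLx
      rw [mul_div_assoc', div_le_iff₀ (by positivity)] at h2
      have h3 : Real.log (y : ℝ) ^ c ≤ Real.log (N : ℝ) ^ c := pow_le_pow_left₀ hlogy.le hy3 c
      have h4 : x0 * Real.log (y : ℝ) ^ c ≤ |x0| * Real.log (N : ℝ) ^ c :=
        mul_le_mul (le_abs_self _) h3 (by positivity) (abs_nonneg _)
      have h5 : (L : ℝ) ≤ |x0| / v * Real.log (N : ℝ) ^ c := by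
        rw [div_mul_eq_mul_div, le_div_iff₀ hv]
        linarith
      refine h5.trans ?_
      apply mul_le_mul_of_nonneg_right _ (by positivity)
      linarith
    have h3 : L ≤ X := by exact_mod_cast h1
    omega
  have hperH := perB_QH Q c hQ H
  rw [hHg] at hperH
  have hM0 : 0 ≤ (Y : ℝ) * (Vq (QH Q H) y / Vz y) := mul_nonneg (Nat.cast_nonneg _)
    (div_nonneg (Vq_nonneg _ y) (Pool.Agent.H373R2.T7.Vz_pos y).le)
  by_cases hzero : ∀ p ∈ pz y, nuB (QH Q H) p < p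
  · have hadmH : ∀ p : ℕ, p.Prime → nuB (QH Q H) p < p := by
      intro p hp
      by_cases hpy : p ≤ y
      · exact hzero p (mem_pz.2 ⟨hpy, hp⟩)
      · have := hperH.few p hp
        omega
    have hy5 : y1 ≤ y := by
      have := hok1.hy
      simp only at this
      omega
    have h1 := hmain X y hy5 hok1.hY b hbX (Nat.coprime_one_left b) Q hQ hadm hok1.hV (by
        intro T hT1 hT2
        obtain ⟨t1, t2, t3⟩ := hok1.hT T hT1 hT2
        exact ⟨t1, t3⟩) H hHg h0 (by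
        intro S
        refine ⟨perB_QH Q c hQ (H ∪ S), ?_, ?_⟩
        · intro p n hp hp1
          exact absurd (Nat.dvd_one.1 hp1) hp.one_lt.ne'
        · intro p n _ _ hn
          rw [one_mul] at hn
          exact ⟨b, mem_union_left _ hb, hbase p _ hn⟩) (by
        have h2 := hV' (QH Q H) hperH hadmH y (by omega)
        refine le_trans ?_ h2
        rw [div_le_div_iff₀ (by positivity) (by positivity), one_mul, pow_succ]
        have h3 : Real.log (y : ℝ) ^ (g * c) ≤ Real.log (X : ℝ) ^ (g * c) :=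
          pow_le_pow_left₀ hlogy.le hlyX (g * c)
        have h4 : 0 ≤ Real.log (X : ℝ) ^ (g * c) := by positivity
        calc Real.log (y : ℝ) ^ (g * c) ≤ Real.log (X : ℝ) ^ (g * c) * 1 := by linarith
          _ ≤ Real.log (X : ℝ) ^ (g * c) * (Real.log X * v') := mul_le_mul_of_nonneg_left hlXv h4
          _ = v' * (Real.log (X : ℝ) ^ (g * c) * Real.log X) := by ring) L hHL hLx u Y hu hY huY
    refine h1.trans ?_
    have h2 : ε1 ≤ ε * Real.exp (-(L * Vq Q y)) := by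
      refine (show ε1 ≤ ε * Real.exp (-x0) by rw [hε1]; exact min_le_right _ _).trans ?_
      apply mul_le_mul_of_nonneg_left _ hε.le
      exact Real.exp_le_exp.2 (by linarith)
    calc ε1 * (Y * (Vq (QH Q H) y / Vz y)) ≤
          ε * Real.exp (-(L * Vq Q y)) * (Y * (Vq (QH Q H) y / Vz y)) :=
          mul_le_mul_of_nonneg_right h2 hM0
      _ = _ := by ring
  · push Not at hzero
    obtain ⟨p, hp, hnu⟩ := hzero
    have hnu' : nuB (QH Q H) p = p := le_antisymm (nuB_le _ p) hnu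
    have hp0 : (0 : ℝ) < p := by exact_mod_cast (mem_pz.1 hp).2.pos
    have hV0 : Vq (QH Q H) y = 0 := by
      unfold Vq
      apply Finset.prod_eq_zero hp
      rw [hnu', div_self hp0.ne', sub_self]
    have h1 := exP_le 1 b Q H L y u Y
    rw [exN_eq_zero Q c hQ H L y u Y hHL p hp hnu'] at h1
    have h2 : exP 1 b Q H L y u Y = 0 := by omega
    rw [h2, hV0]
    simp

open Classical in
/-- **The blocks with a prime at a prescribed place, uniformly in the systems of polynomials which contain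
the polynomial `x`.** -/
theorem blocksP (k D g : ℕ) (hg : 1 ≤ g) (E δ' θ δ x0 ε : ℝ) (hE : 0 < E) (hδ' : 0 < δ') (hθ : 0 < θ)
    (hδ : 0 < δ) (hδ1 : δ ≤ 1) (hε : 0 < ε) :
    ∃ r₀ : ℕ, ∀ r : ℕ, r₀ ≤ r → ∀ᶠ N : ℕ in atTop, ∀ f : Fin k → ℤ[X],
      US k D ((N : ℝ) ^ E) ((N : ℝ) ^ δ') f → (∃ i, f i = Polynomial.X) →
      ∀ X : ℕ, (N : ℝ) ^ θ ≤ X → ∀ H : Finset ℕ, H.card = g → 0 ∈ H → ∀ b ∈ H, ∀ L : ℕ,
        (∀ h ∈ H, h ≤ L) → L * PS.V f N r ≤ x0 →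
        ∀ u Y : ℕ, δ * X ≤ u → δ * X ≤ Y → u + Y ≤ X →
        |(((Ioc u (u + Y)).filter (fun n => (n + b).Prime ∧ ∀ h ≤ L, Sifted f N r (n + h) ↔ h ∈ H)).card : ℝ) *
            Real.log X - Y * (VH f H N r / Vz ⌊(N : ℝ) ^ (1 / (r : ℝ))⌋₊) * Real.exp (-(L * PS.V f N r))| ≤
          ε * (Y * (VH f H N r / Vz ⌊(N : ℝ) ^ (1 / (r : ℝ))⌋₊) * Real.exp (-(L * PS.V f N r))) := by
  obtain ⟨A1, hA1⟩ : ∃ A1 : ℝ, A1 = 1 + 2 * D * (E + δ' * D + 1) := ⟨_, rfl⟩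
  have hA10 : 0 < A1 := by rw [hA1]; positivity
  obtain ⟨A, hA⟩ : ∃ A : ℝ, A = A1 * (k * k) + 1 := ⟨_, rfl⟩
  have hA0 : 0 < A := by rw [hA]; positivity
  obtain ⟨r0, h0⟩ := pattP_unif (k * D + 1) g hg x0 ε δ A δ' θ hε hδ hδ1 hA0 hδ' hθ
  refine ⟨r0, ?_⟩
  intro r hr
  filter_upwards [h0 r hr, eventually_ge_atTop (((2 * D).factorial + (D + 1) * 2 ^ D + 1))] with N hX hXb
  intro f hf hbase X hNX H hHa h0 b hb L hL hx u Y hu hY huY
  have hXr : (((2 * D).factorial + (D + 1) * 2 ^ D + 1 : ℕ) : ℝ) ≤ N := by exact_mod_cast hXb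
  push_cast at hXr
  have hf0 : (0 : ℝ) ≤ ((2 * D).factorial : ℝ) := Nat.cast_nonneg _
  have hd0 : (0 : ℝ) ≤ ((D : ℝ) + 1) * 2 ^ D := by positivity
  have hX1 : (1 : ℝ) ≤ N := by linarith
  have hX0 : (0 : ℝ) < N := by linarith
  have e1 : ((Ioc u (u + Y)).filter (fun n => (n + b).Prime ∧ ∀ h ≤ L, Sifted f N r (n + h) ↔ h ∈ H)).card =
      exP 1 b (Q f) H L ⌊(N : ℝ) ^ (1 / (r : ℝ))⌋₊ u Y := by
    unfold exP
    congr 1
    ext n
    simp only [mem_filter, sf_iff, one_mul]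
  rw [e1, VH_eq]
  rw [PS.V_eq] at hx ⊢
  refine hX _ (us_perB hf) (fun p hp => us_adm hf p hp) ?_ ?_ X hNX H hHa h0 b hb L
    (fun x hx => mem_range.2 (Nat.lt_succ_of_le (hL x hx))) hx u Y hu hY huY
  · obtain ⟨i, hi⟩ := hbase
    intro p n hpn
    refine ⟨i, ?_⟩
    rw [hi, eval_X]
    exact_mod_cast hpn
  intro t ht htU
  refine ⟨RR f t, RR_pos hf t ht htU, ?_, fun p _ _ hc => RR_dvd hf t p hc⟩
  refine (RR_le hf (Real.one_le_rpow hX1 hE.le) t ht htU).trans ?_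
  have h1 : ((D : ℝ) + 1) * ((N : ℝ) ^ E * (((N : ℝ) ^ δ') ^ D * 2 ^ D)) ≤ (N : ℝ) ^ (E + δ' * D + 1) := by
    calc ((D : ℝ) + 1) * ((N : ℝ) ^ E * (((N : ℝ) ^ δ') ^ D * 2 ^ D)) =
          (((D : ℝ) + 1) * 2 ^ D) * ((N : ℝ) ^ E * ((N : ℝ) ^ δ') ^ D) := by ring
      _ ≤ N * ((N : ℝ) ^ E * ((N : ℝ) ^ δ') ^ D) := by
          apply mul_le_mul_of_nonneg_right (by linarith) (by positivity)
      _ = (N : ℝ) ^ (E + δ' * D + 1) := by
          rw [← Real.rpow_natCast ((N : ℝ) ^ δ'), ← Real.rpow_mul hX0.le, ← Real.rpow_add hX0,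
            Real.rpow_add hX0 (E + δ' * D) 1, Real.rpow_one]
          ring
  have h2 : ((2 * D).factorial : ℝ) * (((D : ℝ) + 1) * ((N : ℝ) ^ E * (((N : ℝ) ^ δ') ^ D * 2 ^ D))) ^ (2 * D) ≤
      (N : ℝ) ^ A1 := by
    calc ((2 * D).factorial : ℝ) * (((D : ℝ) + 1) * ((N : ℝ) ^ E * (((N : ℝ) ^ δ') ^ D * 2 ^ D))) ^ (2 * D)
        ≤ N * ((N : ℝ) ^ (E + δ' * D + 1)) ^ (2 * D) := by
          apply mul_le_mul (by linarith) _ (by positivity) hX0.le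
          exact pow_le_pow_left₀ (by positivity) h1 _
      _ = (N : ℝ) ^ A1 := by
          rw [← Real.rpow_natCast, ← Real.rpow_mul hX0.le, hA1]
          nth_rewrite 1 [← Real.rpow_one (N : ℝ)]
          rw [← Real.rpow_add hX0]
          congr 1
          push_cast
          ring
  calc _ ≤ ((N : ℝ) ^ A1) ^ (k * k) := pow_le_pow_left₀ (by positivity) h2 _
    _ = (N : ℝ) ^ (A1 * (k * k)) := by
        rw [← Real.rpow_natCast, ← Real.rpow_mul hX0.le]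
        push_cast
        rfl
    _ ≤ (N : ℝ) ^ A := Real.rpow_le_rpow_of_exponent_le hX1 (by rw [hA]; linarith)

end Pool.Agent.R463.EX
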