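import Pool.Agent.R463.Lin2
import Pool.Agent.R490.PrimeArg

set_option autoImplicit false

/-!
# The arguments `n` for which `n` and `f n` have no small prime factors, uniformly in `f`
-/

namespace Pool.Agent.R463.TP

open Polynomial Finset Filter
open Pool.Agent.R463.PS Pool.Agent.Y879.GL
open Pool.Agent.R490.PA (two)

/-- neither `n` nor `f n` has a prime factor `p ≤ X ^ (1 / r)` -/
def GoodT (f : ℤ → ℤ) (X r n : ℕ) : Prop :=
  ∀ p : ℕ, p.Prime → (p : ℝ) ≤ (X : ℝ) ^ (1 / (r : ℝ)) → ¬ p ∣ n ∧ ¬ (p : ℤ) ∣ f (n : ℤ)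

open Classical in
/-- the number of the residues `n` modulo `p` for which `p` divides `n` or `f n` -/
noncomputable def nuT (f : ℤ → ℤ) (p : ℕ) : ℕ :=
  ((range p).filter (fun n : ℕ => p ∣ n ∨ (p : ℤ) ∣ f (n : ℤ))).card

/-- the density -/
noncomputable def VT (f : ℤ → ℤ) (X r : ℕ) : ℝ :=
  ∏ p ∈ (Icc 1 ⌊(X : ℝ) ^ (1 / (r : ℝ))⌋₊).filter Nat.Prime, (1 - (nuT f p : ℝ) / p)

open Classical in
/-- the number of the good `m` in `(Z, Z + Y]` with fewer than `l` good integers in `[m - T, m)` -/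
noncomputable def FarT (f : ℤ → ℤ) (X r l T Z Y : ℕ) : ℕ :=
  ((Ioc Z (Z + Y)).filter (fun m => GoodT f X r m ∧
    ((Ico (m - T) m).filter (fun n => GoodT f X r n)).card < l)).card

/-- the polynomials to which the theorems apply -/
abbrev GoodP (D : ℕ) (H : ℤ) (F : ℤ[X]) (f : ℤ → ℤ) : Prop := Pool.Agent.R490.PA.Good D H F f

lemma sys {D A : ℕ} (hD : 2 ≤ D) {N : ℕ} (hN : 1 ≤ N) {F : ℤ[X]} {f : ℤ → ℤ}
    (h : GoodP D ((N : ℤ) ^ A) F f) (U : ℝ) : System D ((N : ℝ) ^ ((A : ℝ) + 1)) U (two F) := by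
  have hus := h.us hD hN U
  exact
    { irr := hus.irr
      deg := fun i => ⟨Nat.one_le_iff_ne_zero.2 (hus.deg i), hus.degD i⟩
      hgt := hus.hgt
      adm := hus.adm
      tr := fun i j t ht htU => ⟨fun e => hus.tr i j t ht htU (by rw [e]), fun e => hus.tr i j t ht htU (by
        rw [e]
        exact (Associated.refl _).neg_left)⟩ }

lemma sift_iff (F : ℤ[X]) (f : ℤ → ℤ) (hf : ∀ x, F.eval x = f x) (X r n : ℕ) :
    Sifted (two F) X r n ↔ GoodT f X r n := by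
  unfold Sifted GoodT two
  constructor
  · intro h p hp hpX
    have h0 := h p hp hpX 0
    have h1 := h p hp hpX 1
    simp only [Matrix.cons_val_zero, Matrix.cons_val_one, eval_X, hf, Int.natCast_dvd_natCast] at h0 h1
    exact ⟨h0, h1⟩
  · intro h p hp hpX i
    obtain ⟨h0, h1⟩ := h p hp hpX
    fin_cases i
    · simpa [Int.natCast_dvd_natCast] using h0
    · show ¬ (p : ℤ) ∣ F.eval (n : ℤ)
      rw [hf]
      exact h1

lemma om_eq (F : ℤ[X]) (f : ℤ → ℤ) (hf : ∀ x, F.eval x = f x) (p : ℕ) : om (two F) p = nuT f p := by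
  classical
  unfold om nuT
  congr 1
  apply filter_congr
  intro n _
  exact Pool.Agent.R490.PA.two_Q F f hf p n

lemma V_eq (F : ℤ[X]) (f : ℤ → ℤ) (hf : ∀ x, F.eval x = f x) (X r : ℕ) : VT f X r = V (two F) X r := by
  unfold VT V
  simp only [om_eq F f hf]

lemma Far_eq (F : ℤ[X]) (f : ℤ → ℤ) (hf : ∀ x, F.eval x = f x) (X r l T Z Y : ℕ) :
    FarT f X r l T Z Y = Far (two F) X r l T Z Y := by
  classical
  unfold FarT Far
  congr 1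
  apply filter_congr
  intro m _
  rw [sift_iff F f hf]
  have : (Ico (m - T) m).filter (fun n => GoodT f X r n) =
      (Ico (m - T) m).filter (fun n => Sifted (two F) X r n) :=
    filter_congr fun n _ => (sift_iff F f hf X r n).symm
  rw [this]

lemma V_le (F : ℤ[X]) (f : ℤ → ℤ) (hf : ∀ x, F.eval x = f x) (X r : ℕ) :
    V (two F) X r ≤ Pool.Agent.H373R2.T7.Vz ⌊(X : ℝ) ^ (1 / (r : ℝ))⌋₊ := by
  apply V_le_Vz
  intro p hp
  rw [om_eq F f hf]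
  classical
  unfold nuT
  rw [Nat.one_le_iff_ne_zero, Ne, Finset.card_eq_zero, ← Ne, ← Finset.nonempty_iff_ne_empty]
  exact ⟨0, mem_filter.2 ⟨mem_range.2 hp.pos, Or.inl (dvd_zero p)⟩⟩

/-- **The gap laws.** -/
theorem gapsT (D A : ℕ) (hD : 2 ≤ D) (θ : ℝ) (hθ : 0 < θ) (l₀ : ℕ) (x₀ ε : ℝ) (hε : 0 < ε) :
    ∃ r₀ : ℕ, 2 ≤ r₀ ∧ ∀ r : ℕ, r₀ ≤ r → ∀ᶠ X : ℕ in atTop, ∀ (F : ℤ[X]) (f : ℤ → ℤ),
      GoodP D ((X : ℤ) ^ A) F f →
      ∀ Z Y : ℕ, (X : ℝ) ^ θ ≤ Y → ∀ l T : ℕ, (l ≤ l₀ ∨ T * VT f X r ≤ x₀) →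
        |(FarT f X r l T Z Y : ℝ) - Y * VT f X r *
          ∑ j ∈ range l, Real.exp (-(T * VT f X r)) * (T * VT f X r) ^ j / j.factorial| ≤
          ε * (Y * VT f X r) := by
  obtain ⟨r₀, h⟩ := gaps 2 D ((A : ℝ) + 1) 1 θ (by positivity) one_pos hθ l₀ x₀ ε hε
  refine ⟨max r₀ 2, le_max_right _ _, fun r hr => ?_⟩
  obtain ⟨C, hC, hV⟩ := Vz_le r ((le_max_right _ _).trans hr)
  filter_upwards [h r ((le_max_left _ _).trans hr) C, hV, eventually_ge_atTop 1]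
    with X h1 h2 h3 F f hF Z Y hY l T hT
  rw [V_eq F f hF.ev] at hT ⊢
  rw [Far_eq F f hF.ev]
  exact h1 _ (sys hD h3 hF _) ((V_le F f hF.ev X r).trans h2) Z Y hY l T hT

open Classical in
/-- **Regular points.** -/
theorem regT (D A : ℕ) (hD : 2 ≤ D) (θ : ℝ) (hθ : 0 < θ) :
    ∃ r₀ : ℕ, 2 ≤ r₀ ∧ ∀ r : ℕ, r₀ ≤ r → ∀ ε : ℝ, 0 < ε → ∃ c : ℝ, 0 < c ∧
      ∀ δ : ℝ, 0 < δ → ∃ M : ℕ, ∀ᶠ X : ℕ in atTop, ∀ (F : ℤ[X]) (f : ℤ → ℤ),
      GoodP D ((X : ℤ) ^ A) F f →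
      ∀ u Y : ℕ, (X : ℝ) ^ θ ≤ Y → Y ≤ X → Y ≤ u → ∀ S : Set ℕ, (∀ m ∈ S, GoodT f X r m) →
        (((Ioc u (u + Y)).filter (fun m => m ∈ S ∧ ¬ Regular S (VT f X r) c δ M Y m)).card : ℝ) ≤
          ε * (Y * VT f X r) := by
  obtain ⟨r₀, hr₀, h⟩ := regular 2 D 0 ((A : ℝ) + 1) 1 θ (by positivity) one_pos hθ
  refine ⟨r₀, hr₀, fun r hr ε hε => ?_⟩
  obtain ⟨C, hC, hV⟩ := Vz_le r (hr₀.trans hr)
  obtain ⟨c, hc, h1⟩ := h r hr C hC ε hε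
  refine ⟨c, hc, fun δ hδ => ?_⟩
  obtain ⟨M, h2⟩ := h1 δ hδ
  refine ⟨M, ?_⟩
  filter_upwards [h2, hV, eventually_ge_atTop 1] with X h1 h2 h3 F f hF u Y hY hYX hYu S hS
  have hs := sys hD h3 hF ((X : ℝ) ^ (1 : ℝ))
  rw [V_eq F f hF.ev]
  exact h1 _ (sys hD h3 hF _) ∅ (by simp) (fun i j t ht htX _ => hs.tr i j t ht htX)
    ((V_le F f hF.ev X r).trans h2) u Y hY hYX hYu S (fun m hm => (sift_iff F f hF.ev X r m).2 (hS m hm))

end Pool.Agent.R463.TP
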