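import Pool.Agent.R463.EX11
import Pool.Agent.R463.TwoP

set_option autoImplicit false

/-!
# The exact patterns for `n` and `f n`
-/

namespace Pool.Agent.R463.TP

open Polynomial Finset Filter
open Pool.Agent.R463.PS Pool.Agent.R490.PA
open Pool.Agent.H373R2.T7 (Vz)

open Classical in
/-- the number of the residues `n` modulo `p` for which `p` divides `m` or `f m` for an `m = n + h`, `h ∈ H` -/
noncomputable def nuTH (f : ℤ → ℤ) (H : Finset ℕ) (p : ℕ) : ℕ :=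
  ((range p).filter (fun n : ℕ => ∃ h ∈ H, p ∣ n + h ∨ (p : ℤ) ∣ f ((n + h : ℕ) : ℤ))).card

/-- the density of the pattern -/
noncomputable def VTH (f : ℤ → ℤ) (H : Finset ℕ) (X r : ℕ) : ℝ :=
  ∏ p ∈ (Icc 1 ⌊(X : ℝ) ^ (1 / (r : ℝ))⌋₊).filter Nat.Prime, (1 - (nuTH f H p : ℝ) / p)

open Classical in
/-- the number of the `n` in `(Z, Z + Y]` for which the good integers in `[n, n + L]` are the `n + h` -/
noncomputable def BT (f : ℤ → ℤ) (H : Finset ℕ) (L X r Z Y : ℕ) : ℕ :=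
  ((Ioc Z (Z + Y)).filter (fun n => ∀ h ≤ L, GoodT f X r (n + h) ↔ h ∈ H)).card

open Classical in
/-- the same with `n + b` prime -/
noncomputable def BTP (f : ℤ → ℤ) (H : Finset ℕ) (b L X r u Y : ℕ) : ℕ :=
  ((Ioc u (u + Y)).filter (fun n => (n + b).Prime ∧ ∀ h ≤ L, GoodT f X r (n + h) ↔ h ∈ H)).card

lemma VTH_eq (F : ℤ[X]) (f : ℤ → ℤ) (hf : ∀ x, F.eval x = f x) (H : Finset ℕ) (X r : ℕ) :
    VTH f H X r = VH (two F) H X r := by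
  classical
  unfold VTH VH
  apply prod_congr rfl
  intro p _
  have : nuTH f H p = omH (two F) H p := by
    unfold nuTH omH
    congr 1
    ext n
    simp only [mem_filter]
    constructor
    · rintro ⟨h1, h, hh, h2⟩
      exact ⟨h1, h, hh, (two_Q F f hf p (n + h)).2 h2⟩
    · rintro ⟨h1, h, hh, h2⟩
      exact ⟨h1, h, hh, (two_Q F f hf p (n + h)).1 h2⟩
  rw [this]

lemma BT_eq (F : ℤ[X]) (f : ℤ → ℤ) (hf : ∀ x, F.eval x = f x) (H : Finset ℕ) (L X r Z Y : ℕ) :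
    BT f H L X r Z Y = exS (two F) H L X r Z Y := by
  classical
  unfold BT exS
  congr 1
  ext n
  simp only [mem_filter, sift_iff F f hf]

open Classical in
lemma BTP_eq (F : ℤ[X]) (f : ℤ → ℤ) (hf : ∀ x, F.eval x = f x) (H : Finset ℕ) (b L X r u Y : ℕ) :
    BTP f H b L X r u Y = ((Ioc u (u + Y)).filter (fun n => (n + b).Prime ∧
      ∀ h ≤ L, Sifted (two F) X r (n + h) ↔ h ∈ H)).card := by
  unfold BTP
  congr 1
  ext n
  simp only [mem_filter, sift_iff F f hf]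

/-- **The exact patterns.** -/
theorem blocksT (D A K : ℕ) (hD : 2 ≤ D) (θ : ℝ) (hθ : 0 < θ) (x₀ ε : ℝ) (hε : 0 < ε) :
    ∃ r₀ : ℕ, 2 ≤ r₀ ∧ ∀ r : ℕ, r₀ ≤ r → ∀ᶠ X : ℕ in atTop, ∀ (F : ℤ[X]) (f : ℤ → ℤ),
      GoodP D ((X : ℤ) ^ A) F f →
      ∀ Z Y : ℕ, (X : ℝ) ^ θ ≤ Y → ∀ H : Finset ℕ, H.card ≤ K → 0 ∈ H → ∀ L : ℕ,
        (∀ h ∈ H, h ≤ L) → L * VT f X r ≤ x₀ →
        |(BT f H L X r Z Y : ℝ) - Y * VTH f H X r * Real.exp (-(L * VT f X r))| ≤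
          ε * (Y * VTH f H X r * Real.exp (-(L * VT f X r))) := by
  obtain ⟨r₀, h⟩ := blocks' 2 D K ((A : ℝ) + 1) 1 θ x₀ ε (by positivity) one_pos hθ hε
  refine ⟨max r₀ 2, le_max_right _ _, fun r hr => ?_⟩
  obtain ⟨C, hC, hV⟩ := Vz_le r ((le_max_right _ _).trans hr)
  filter_upwards [h r ((le_max_left _ _).trans hr) C, hV, eventually_ge_atTop 1]
    with X h1 h2 h3 F f hF Z Y hY H hH h0 L hL hx
  rw [V_eq F f hF.ev] at hx ⊢
  rw [BT_eq F f hF.ev, VTH_eq F f hF.ev]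
  exact h1 _ (sys hD h3 hF _) ((V_le F f hF.ev X r).trans h2) Z Y hY H hH h0 L hL hx

/-- **The exact patterns with a prime.** -/
theorem blocksTP (D A K : ℕ) (hD : 2 ≤ D) (θ δ : ℝ) (hθ : 0 < θ) (hδ : 0 < δ) (hδ1 : δ ≤ 1) (x₀ ε : ℝ)
    (hε : 0 < ε) :
    ∃ r₀ : ℕ, ∀ r : ℕ, r₀ ≤ r → ∀ᶠ N : ℕ in atTop, ∀ (F : ℤ[X]) (f : ℤ → ℤ),
      GoodP D ((N : ℤ) ^ A) F f →
      ∀ X : ℕ, (N : ℝ) ^ θ ≤ X → ∀ H : Finset ℕ, H.card ≤ K → 0 ∈ H → ∀ b ∈ H, ∀ L : ℕ,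
        (∀ h ∈ H, h ≤ L) → L * VT f N r ≤ x₀ →
        ∀ u Y : ℕ, δ * X ≤ u → δ * X ≤ Y → u + Y ≤ X →
        |(BTP f H b L N r u Y : ℝ) * Real.log X -
            Y * (VTH f H N r / Vz ⌊(N : ℝ) ^ (1 / (r : ℝ))⌋₊) * Real.exp (-(L * VT f N r))| ≤
          ε * (Y * (VTH f H N r / Vz ⌊(N : ℝ) ^ (1 / (r : ℝ))⌋₊) * Real.exp (-(L * VT f N r))) := by
  choose r0 h using fun g : ℕ => Pool.Agent.R463.EX.blocksP 2 D (g + 1) (by omega) ((A : ℝ) + 1) 1 θ δ x₀ ε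
    (by positivity) one_pos hθ hδ hδ1 hε
  refine ⟨∑ g ∈ range K, r0 g, fun r hr => ?_⟩
  have hall := (Finset.eventually_all (range K)).2 (fun g hg =>
    h g r ((Finset.single_le_sum (fun _ _ => Nat.zero_le _) hg).trans hr))
  filter_upwards [hall, eventually_ge_atTop 1] with N hN hN1
  intro F f hF X hX H hH h0 b hb L hL hx u Y hu hY huY
  have hpos : 0 < H.card := card_pos.2 ⟨0, h0⟩
  have h5 := hN (H.card - 1) (mem_range.2 (by omega)) (two F)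
    (hF.us hD hN1 _) ⟨0, rfl⟩ X hX H (by omega) h0 b hb L hL
    (by rw [← V_eq F f hF.ev]; exact hx) u Y hu hY huY
  rw [← VTH_eq F f hF.ev, ← V_eq F f hF.ev] at h5
  rw [BTP_eq F f hF.ev]
  exact h5

end Pool.Agent.R463.TP
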