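import Pool.Agent.Y677.RSZ.Fin
import Pool.Agent.W182.PW.Lin

set_option autoImplicit false

/-!
# Narrow progressions in arbitrary sets of the `m` with rough values of linear forms
-/

namespace Pool.Agent.R463.NL

open Finset Filter Polynomial
open Pool.Agent.W123.RU Pool.Agent.W182.PW
open Pool.Agent.TH977.PW (Rough)

/-- `m` is a term of an `l`-term arithmetic progression with difference at most `D`, all terms of which
are elements of `A` in the interval `(a, b]`. -/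
def InProgression (A : Set ℕ) (l : ℕ) (D : ℝ) (a b m : ℕ) : Prop :=
  ∃ u d : ℕ, 1 ≤ d ∧ (d : ℝ) ≤ D ∧ (∀ i < l, u + i * d ∈ A ∧ a < u + i * d ∧ u + i * d ≤ b) ∧
    ∃ i < l, m = u + i * d

/-- all prime factors of the numbers `a i * m + b i` are larger than `m ^ (1 / r)` -/
def RoughAt {k : ℕ} (a : Fin k → ℕ) (b : Fin k → ℤ) (r : ℕ) : Set ℕ :=
  {m | ∀ i : Fin k, ∀ p : ℕ, p.Prime → (p : ℤ) ∣ (a i : ℤ) * m + b i → (m : ℝ) ^ (1 / (r : ℝ)) < (p : ℝ)}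

theorem sys {k : ℕ} (a : Fin k → ℕ) (b : Fin k → ℤ) (ha : ∀ i, 0 < a i)
    (hab : ∀ i, IsCoprime (a i : ℤ) (b i)) (hinj : ∀ i j, a i = a j → b i = b j → i = j)
    (hadm : ∀ p : ℕ, p.Prime → ∃ m : ℕ, ∀ i, ¬ (p : ℤ) ∣ (a i : ℤ) * m + b i) :
    Poly.Sys (fun i => lin (a i) (b i)) where
  irr := fun i => lin_irr _ _ (ha i) (hab i)
  deg := fun i => lin_deg _ _ (ha i)
  lead := fun i => lin_lead _ _ (ha i)
  inj := fun i j hij => hinj i j (lin_inj hij).1 (lin_inj hij).2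
  adm := fun p hp => by
    obtain ⟨m, hm⟩ := hadm p hp
    refine ⟨m, fun i => ?_⟩
    show ¬ (p : ℤ) ∣ (lin (a i) (b i)).eval (m : ℤ)
    rw [lin_eval]
    exact hm i

open Classical in
theorem narrow_lin {k : ℕ} (hk : 0 < k) (a : Fin k → ℕ) (b : Fin k → ℤ) (ha : ∀ i, 0 < a i)
    (hab : ∀ i, IsCoprime (a i : ℤ) (b i)) (hinj : ∀ i j, a i = a j → b i = b j → i = j)
    (hadm : ∀ p : ℕ, p.Prime → ∃ m : ℕ, ∀ i, ¬ (p : ℤ) ∣ (a i : ℤ) * m + b i)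
    (θ : ℝ) (hθ : 0 < θ) (r : ℕ) (hr : 2 ≤ r) (l : ℕ) (hl : 2 ≤ l) (ε : ℝ) (hε : 0 < ε) :
    ∃ B : ℕ, ∀ᶠ X : ℕ in atTop, ∀ Y : ℕ, (X : ℝ) ^ θ ≤ Y → Y ≤ X →
      ∀ A : Set ℕ, A ⊆ RoughAt a b r →
        (((Ioc X (X + Y)).filter (fun m : ℕ =>
          m ∈ A ∧ ¬ InProgression A l (Real.log X ^ B) X (X + Y) m)).card : ℝ) ≤
        ε * (Y / Real.log X ^ k) := by
  haveI : Nonempty (Fin k) := ⟨⟨0, hk⟩⟩
  obtain ⟨B, hB⟩ := Pool.Agent.Y677.RSZ.narrow (fun i => lin (a i) (b i)) (sys a b ha hab hinj hadm)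
    θ hθ r hr l hl ε hε
  refine ⟨B, ?_⟩
  filter_upwards [hB] with X hX Y hXY hYX A hA
  have h := hX Y hXY hYX A (fun m hm => by
    intro i p hp hd
    apply hA hm i p hp
    rwa [lin_eval] at hd)
  rw [Fintype.card_fin, mul_div_assoc] at h
  refine le_trans (le_of_eq ?_) h
  unfold Pool.Agent.TH977.PW.N
  congr 2
  apply filter_congr
  intro m _
  exact Iff.rfl

end Pool.Agent.R463.NL
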