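import Pool.Agent.R463.LinAP2
import Pool.Agent.R463.NarLin

set_option autoImplicit false

/-!
# Tuples in arithmetic progressions
-/

namespace Pool.Agent.R463.LT

open Finset Filter
open Pool.Agent.R463.PS Pool.Agent.R463.LA

/-- for `n = q m + c` none of the `n + h`, `h ∈ H`, has a prime factor `p ≤ X ^ (1 / r)` -/
def Good (H : Finset ℕ) (q c X r m : ℕ) : Prop :=
  ∀ p : ℕ, p.Prime → (p : ℝ) ≤ (X : ℝ) ^ (1 / (r : ℝ)) → ∀ h ∈ H, ¬ p ∣ q * m + c + h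

/-- `0` for the prime factors of `q`, otherwise the number of the `n` modulo `p` for which `p` divides some
`n + h`, `h ∈ H` -/
def nu (H : Finset ℕ) (q p : ℕ) : ℕ :=
  if p ∣ q then 0 else ((range p).filter (fun n : ℕ => ∃ h ∈ H, p ∣ n + h)).card

/-- the density: the product of `1 - nu(p) / p` over the primes `p ≤ X ^ (1 / r)` -/
noncomputable def V (H : Finset ℕ) (q X r : ℕ) : ℝ :=
  ∏ p ∈ (Icc 1 ⌊(X : ℝ) ^ (1 / (r : ℝ))⌋₊).filter Nat.Prime, (1 - (nu H q p : ℝ) / p)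

open Classical in
/-- the number of the good `m` in `(Z, Z + Y]` with fewer than `l` good integers in `[m - T, m)` -/
noncomputable def Far (H : Finset ℕ) (q c X r l T Z Y : ℕ) : ℕ :=
  ((Ioc Z (Z + Y)).filter (fun m => Good H q c X r m ∧
    ((Ico (m - T) m).filter (fun n => Good H q c X r n)).card < l)).card

/-- the enumeration of `H` -/
noncomputable def en (H : Finset ℕ) : Fin H.card → ℤ := fun i => ((H.orderEmbOfFin rfl i : ℕ) : ℤ)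

/-- the coefficients `1` -/
def on (H : Finset ℕ) : Fin H.card → ℤ := fun _ => 1

lemma en_all (H : Finset ℕ) (P : ℕ → Prop) : (∀ h ∈ H, P h) ↔ ∀ i, P (H.orderEmbOfFin rfl i) := by
  constructor
  · intro h i
    exact h _ (H.orderEmbOfFin_mem rfl i)
  · intro h x hx
    have : x ∈ Set.range (H.orderEmbOfFin rfl) := by
      rw [H.range_orderEmbOfFin rfl]
      exact hx
    obtain ⟨i, hi⟩ := this
    rw [← hi]
    exact h i

lemma en_ex (H : Finset ℕ) (P : ℕ → Prop) : (∃ h ∈ H, P h) ↔ ∃ i, P (H.orderEmbOfFin rfl i) := by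
  have h := en_all H (fun x => ¬ P x)
  constructor
  · rintro ⟨x, hx, hp⟩
    by_contra hne
    push Not at hne
    exact h.2 hne x hx hp
  · rintro ⟨i, hi⟩
    exact ⟨_, H.orderEmbOfFin_mem rfl i, hi⟩

lemma good_iff' (H : Finset ℕ) (q c X r m : ℕ) : Good H q c X r m ↔ GoodL (on H) (en H) q c X r m := by
  unfold Good GoodL
  refine forall_congr' fun p => forall_congr' fun _ => forall_congr' fun _ => ?_
  rw [en_all H (fun h => ¬ p ∣ q * m + c + h)]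
  refine forall_congr' fun i => not_congr ?_
  unfold on en
  rw [one_mul]
  norm_cast

lemma nu_eq (H : Finset ℕ) (q p : ℕ) : nu H q p = nuL (on H) (en H) q p := by
  classical
  unfold nu nuL
  split_ifs
  · rfl
  · congr 1
    apply filter_congr
    intro n _
    rw [en_ex H (fun h => p ∣ n + h)]
    refine exists_congr fun i => ?_
    unfold on en
    rw [one_mul]
    norm_cast

lemma V_eq' (H : Finset ℕ) (q X r : ℕ) : V H q X r = VL (on H) (en H) q X r := by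
  unfold V VL
  simp only [nu_eq]

lemma Far_eq' (H : Finset ℕ) (q c X r l T Z Y : ℕ) :
    Far H q c X r l T Z Y = FarL (on H) (en H) q c X r l T Z Y := by
  classical
  unfold Far FarL
  simp only [good_iff']

lemma adm_H (H : Finset ℕ) (hadm : ∀ p : ℕ, p.Prime → ∃ n : ℕ, ∀ h ∈ H, ¬ p ∣ n + h) :
    AdmL (on H) (en H) := by
  refine ⟨fun _ => one_pos, fun p hp => ?_⟩
  obtain ⟨n, hn⟩ := hadm p hp
  refine ⟨n, fun i hd => ?_⟩
  apply (en_all H (fun h => ¬ p ∣ n + h)).1 hn i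
  unfold on en at hd
  rw [one_mul] at hd
  exact_mod_cast hd

lemma cop_H (H : Finset ℕ) (q c : ℕ) (hc : ∀ h ∈ H, Nat.Coprime q (c + h)) :
    ∀ i, IsCoprime (q : ℤ) (on H i * c + en H i) := by
  intro i
  have h1 := hc _ (H.orderEmbOfFin_mem rfl i)
  have h2 : on H i * c + en H i = ((c + H.orderEmbOfFin rfl i : ℕ) : ℤ) := by
    unfold on en
    push_cast
    ring
  rw [h2]
  exact Nat.isCoprime_iff_coprime.2 h1

lemma two_H (H : Finset ℕ) (hH : 2 ≤ H.card) : ∃ i j, on H i * en H j ≠ on H j * en H i := by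
  refine ⟨⟨0, by omega⟩, ⟨1, by omega⟩, ?_⟩
  unfold on en
  rw [one_mul, one_mul]
  intro h
  have h1 : (H.orderEmbOfFin rfl ⟨1, by omega⟩ : ℕ) = H.orderEmbOfFin rfl ⟨0, by omega⟩ := by exact_mod_cast h
  have h2 := (H.orderEmbOfFin rfl).injective h1
  simp at h2

/-- **The gap laws for tuples in progressions.** -/
theorem gapsH (H : Finset ℕ) (hH : 2 ≤ H.card) (hadm : ∀ p : ℕ, p.Prime → ∃ n : ℕ, ∀ h ∈ H, ¬ p ∣ n + h)
    (A : ℕ) (θ : ℝ) (hθ : 0 < θ) (l₀ : ℕ) (x₀ ε : ℝ) (hε : 0 < ε) :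
    ∃ r₀ : ℕ, 2 ≤ r₀ ∧ ∀ r : ℕ, r₀ ≤ r → ∀ᶠ X : ℕ in atTop, ∀ q c : ℕ, 1 ≤ q → q ≤ X ^ A →
      c ≤ X ^ A → (∀ h ∈ H, Nat.Coprime q (c + h)) → (∀ h ∈ H, h < q) →
      ∀ Z Y : ℕ, (X : ℝ) ^ θ ≤ Y → ∀ l T : ℕ, (l ≤ l₀ ∨ T * V H q X r ≤ x₀) →
        |(Far H q c X r l T Z Y : ℝ) - Y * V H q X r *
          ∑ j ∈ range l, Real.exp (-(T * V H q X r)) * (T * V H q X r) ^ j / j.factorial| ≤
          ε * (Y * V H q X r) := by
  obtain ⟨i, j, hij⟩ := two_H H hH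
  obtain ⟨r₀, hr₀, h⟩ := gapsM (adm_H H hadm) i j hij A θ hθ l₀ x₀ ε hε
  refine ⟨r₀, hr₀, fun r hr => ?_⟩
  filter_upwards [h r hr] with X hX q c hq hqX hcX hcop hlt Z Y hY l T hT
  rw [V_eq'] at hT ⊢
  rw [Far_eq']
  refine hX q c hq hqX hcX (cop_H H q c hcop) (fun i j _ => ?_) Z Y hY l T hT
  have h1 := hlt _ (H.orderEmbOfFin_mem rfl i)
  have h2 : on H j = 1 := rfl
  rw [h2, mul_one]
  unfold en
  have h3 : (0 : ℤ) ≤ ((H.orderEmbOfFin rfl j : ℕ) : ℤ) := Int.natCast_nonneg _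
  have h4 : ((H.orderEmbOfFin rfl i : ℕ) : ℤ) < q := by exact_mod_cast h1
  linarith

open Classical in
/-- **Regular points for tuples in progressions.** -/
theorem regH (H : Finset ℕ) (hH : 2 ≤ H.card) (hadm : ∀ p : ℕ, p.Prime → ∃ n : ℕ, ∀ h ∈ H, ¬ p ∣ n + h)
    (A : ℕ) (θ : ℝ) (hθ : 0 < θ) :
    ∃ r₀ : ℕ, 2 ≤ r₀ ∧ ∀ r : ℕ, r₀ ≤ r → ∀ ε : ℝ, 0 < ε → ∃ κ : ℝ, 0 < κ ∧
      ∀ δ : ℝ, 0 < δ → ∃ D : ℕ, ∀ᶠ X : ℕ in atTop, ∀ q c : ℕ, 1 ≤ q → q ≤ X ^ A →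
      c ≤ X ^ A → (∀ h ∈ H, Nat.Coprime q (c + h)) →
      ∀ u Y : ℕ, (X : ℝ) ^ θ ≤ Y → Y ≤ X → Y ≤ u →
      ∀ S : Set ℕ, (∀ m ∈ S, Good H q c X r m) →
        (((Ioc u (u + Y)).filter (fun m => m ∈ S ∧ ¬ Regular S (V H q X r) κ δ D Y m)).card : ℝ) ≤
          ε * (Y * V H q X r) := by
  obtain ⟨i, j, hij⟩ := two_H H hH
  obtain ⟨r₀, hr₀, h⟩ := regM (adm_H H hadm) i j hij A θ hθ
  refine ⟨r₀, hr₀, fun r hr ε hε => ?_⟩
  obtain ⟨κ, hκ, h1⟩ := h r hr ε hε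
  refine ⟨κ, hκ, fun δ hδ => ?_⟩
  obtain ⟨D, h2⟩ := h1 δ hδ
  refine ⟨D, ?_⟩
  filter_upwards [h2] with X hX q c hq hqX hcX hcop u Y hY hYX hYu S hS
  rw [V_eq']
  exact hX q c hq hqX hcX (cop_H H q c hcop) u Y hY hYX hYu S (fun m hm => (good_iff' H q c X r m).1 (hS m hm))

/-- a criterion for admissibility -/
lemma adm_two (H : Finset ℕ) (n₁ n₂ : ℕ) (hcop : ∀ h ∈ H, ∀ h' ∈ H, Nat.Coprime (n₁ + h) (n₂ + h')) :
    ∀ p : ℕ, p.Prime → ∃ n : ℕ, ∀ h ∈ H, ¬ p ∣ n + h := by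
  intro p hp
  by_cases h1 : ∃ h ∈ H, p ∣ n₁ + h
  · obtain ⟨h, hh, hd⟩ := h1
    refine ⟨n₂, fun h' hh' hd' => ?_⟩
    have h3 := Nat.dvd_gcd hd hd'
    rw [hcop h hh h' hh'] at h3
    exact hp.one_lt.ne' (Nat.dvd_one.1 h3)
  · push Not at h1
    exact ⟨n₁, h1⟩

/-- `m` is a term of an `l`-term arithmetic progression with difference at most `D`, all terms of which
are elements of `A` in the interval `(a, b]`. -/
def InProgression (A : Set ℕ) (l : ℕ) (D : ℝ) (a b m : ℕ) : Prop :=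
  ∃ u d : ℕ, 1 ≤ d ∧ (d : ℝ) ≤ D ∧ (∀ i < l, u + i * d ∈ A ∧ a < u + i * d ∧ u + i * d ≤ b) ∧
    ∃ i < l, m = u + i * d

/-- all prime factors of the numbers `m + h`, `h ∈ H`, are larger than `m ^ (1 / r)` -/
def RoughAt (H : Finset ℕ) (r : ℕ) : Set ℕ :=
  {m | ∀ h ∈ H, ∀ p : ℕ, p.Prime → p ∣ m + h → (m : ℝ) ^ (1 / (r : ℝ)) < (p : ℝ)}

lemma rough_mem (H : Finset ℕ) (r : ℕ) (hr : 2 ≤ r) (n : ℕ) (hn : 2 ≤ n) (hp : ∀ h ∈ H, (n + h).Prime) :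
    n ∈ RoughAt H r := by
  intro h hh p hpp hd
  have h2 : p = n + h := (Nat.prime_dvd_prime_iff_eq hpp (hp h hh)).1 hd
  have hn1 : (1 : ℝ) < n := by exact_mod_cast (by omega : 1 < n)
  have hr2 : (2 : ℝ) ≤ r := by exact_mod_cast hr
  have h4 : (n : ℝ) ^ (1 / (r : ℝ)) < n := by
    have h5 : (1 / (r : ℝ)) < 1 := by
      rw [div_lt_one (by linarith)]
      linarith
    have := Real.rpow_lt_rpow_of_exponent_lt hn1 h5
    rwa [Real.rpow_one] at this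
  refine h4.trans_le ?_
  rw [h2]
  push_cast
  linarith [Nat.cast_nonneg (α := ℝ) h]

open Classical in
/-- **Narrow progressions for tuples.** -/
theorem narH (H : Finset ℕ) (hH : 0 < H.card) (hadm : ∀ p : ℕ, p.Prime → ∃ n : ℕ, ∀ h ∈ H, ¬ p ∣ n + h)
    (θ : ℝ) (hθ : 0 < θ) (r : ℕ) (hr : 2 ≤ r) (l : ℕ) (hl : 2 ≤ l) (ε : ℝ) (hε : 0 < ε) :
    ∃ B : ℕ, ∀ᶠ X : ℕ in atTop, ∀ Y : ℕ, (X : ℝ) ^ θ ≤ Y → Y ≤ X →
      ∀ A : Set ℕ, A ⊆ RoughAt H r →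
        (((Ioc X (X + Y)).filter (fun m : ℕ =>
          m ∈ A ∧ ¬ InProgression A l (Real.log X ^ B) X (X + Y) m)).card : ℝ) ≤
        ε * (Y / Real.log X ^ H.card) := by
  have e : ∀ (p n : ℕ) (i : Fin H.card), (p : ℤ) ∣ ((1 : ℕ) : ℤ) * n + en H i ↔
      p ∣ n + H.orderEmbOfFin rfl i := by
    intro p n i
    unfold en
    rw [Nat.cast_one, one_mul, ← Nat.cast_add, Int.natCast_dvd_natCast]
  obtain ⟨B, hB⟩ := Pool.Agent.R463.NL.narrow_lin hH (fun _ => 1) (en H)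
    (fun _ => one_pos) (fun i => by rw [Nat.cast_one]; exact isCoprime_one_left) (fun i j _ hij => by
      have h1 : (H.orderEmbOfFin rfl i : ℕ) = H.orderEmbOfFin rfl j := by
        unfold en at hij
        exact_mod_cast hij
      exact (H.orderEmbOfFin rfl).injective h1)
    (fun p hp => by
      obtain ⟨n, hn⟩ := hadm p hp
      exact ⟨n, fun i hd => (en_all H (fun h => ¬ p ∣ n + h)).1 hn i ((e p n i).1 hd)⟩) θ hθ r hr l hl ε hε
  refine ⟨B, ?_⟩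
  filter_upwards [hB] with X hX Y hXY hYX A hA
  exact hX Y hXY hYX A (fun n hn i p hp hd => by
    exact hA hn _ (H.orderEmbOfFin_mem rfl i) p hp ((e p n i).1 hd))

end Pool.Agent.R463.LT
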