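import Pool.Agent.R463.Pair

set_option autoImplicit false

/-!
# Pairs `m`, `m + d` in arithmetic progressions: all admissible translations
-/

namespace Pool.Agent.R463.PS

open Polynomial Finset Filter
open Pool.Agent.W123.RP Pool.Agent.H373R2.T7 Pool.Agent.W123.RU Pool.Agent.W123.RU.Poly
open Pool.Agent.TH464.PW Pool.Agent.TH464.PO Pool.Agent.Y879.AP Pool.Agent.Y879.GL

/-- the pair `q n + a`, `q n + a + d` as a system -/
theorem pair_sys2 (A : ℝ) (hA : 0 < A) (δ : ℝ) : ∀ᶠ X : ℕ in atTop, ∀ d q a : ℕ,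
    PairOK X A δ 1 d q a → (∀ t : ℕ, 1 ≤ t → (t : ℝ) ≤ (X : ℝ) ^ δ → d ≠ q * t) →
      System 1 ((X : ℝ) ^ (A + 1)) ((X : ℝ) ^ δ) (pf 1 d q a) := by
  filter_upwards [eventually_ge_atTop 2] with X hX2 d q a h hno0
  have hX2r : (2 : ℝ) ≤ X := by exact_mod_cast hX2
  have hX0 : (0 : ℝ) < X := by linarith
  have hE : (X : ℝ) ^ (A + 1) = (X : ℝ) ^ A * X := by rw [Real.rpow_add hX0, Real.rpow_one]
  have hA0 : 0 < (X : ℝ) ^ A := Real.rpow_pos_of_pos hX0 _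
  have h1 := h.hqX
  have h2 := h.haX
  have h3 := h.hfX
  have hus := pf_us 1 d h.he h.hf q a h.hq h.hqa h.hqf ((X : ℝ) ^ (A + 1)) (by rw [hE]; nlinarith)
    (by rw [hE]; nlinarith)
  have hno := pf_noas 1 d h.he q a h.hq ∅ ((X : ℝ) ^ δ) (fun t ht htU _ h4 => by
    apply hno0 t ht htU
    have h6 := Int.natAbs_eq_iff_sq_eq.2 h4
    rw [Int.natAbs_mul, Int.natAbs_natCast, Int.natAbs_natCast, Int.natAbs_natCast] at h6
    exact h6)
  apply System.of_us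
  exact
    { irr := hus.irr, deg := hus.deg, degD := hus.degD, hgt := hus.hgt, adm := hus.adm
      tr := fun i j t ht htU => hno i j t ht htU (by simp) }

/-! ### The statement in natural numbers -/

/-- for `n = q m + c` neither `n` nor `n + d` has a prime factor `p ≤ X ^ (1 / r)` -/
def GoodP (d q c X r m : ℕ) : Prop :=
  ∀ p : ℕ, p.Prime → (p : ℝ) ≤ (X : ℝ) ^ (1 / (r : ℝ)) → ¬ p ∣ q * m + c ∧ ¬ p ∣ q * m + c + d

/-- `0` for the prime factors of `q`, `1` for the other prime factors of `d`, `2` for the other primes -/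
def nuP (d q p : ℕ) : ℕ := if p ∣ q then 0 else if p ∣ d then 1 else 2

/-- the density -/
noncomputable def VP (d q X r : ℕ) : ℝ :=
  ∏ p ∈ (Icc 1 ⌊(X : ℝ) ^ (1 / (r : ℝ))⌋₊).filter Nat.Prime, (1 - (nuP d q p : ℝ) / p)

/-- the density after primes -/
noncomputable def WP (d q X r : ℕ) : ℝ :=
  ∏ p ∈ (Icc 1 ⌊(X : ℝ) ^ (1 / (r : ℝ))⌋₊).filter Nat.Prime, (1 - (nuP d q p : ℝ) / p) / (1 - 1 / (p : ℝ))

open Classical in
/-- the counting function of the spacings -/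
noncomputable def FarP (d q c X r l T Z Y : ℕ) : ℕ :=
  ((Ioc Z (Z + Y)).filter (fun m => GoodP d q c X r m ∧
    ((Ico (m - T) m).filter (fun n => GoodP d q c X r n)).card < l)).card

open Classical in
/-- the good `m` in `(A, A + L]` for which `q m + c` is a PRIME -/
noncomputable def PrP (d q c X r A L : ℕ) : Finset ℕ :=
  (Ioc A (A + L)).filter (fun m => (q * m + c).Prime ∧ GoodP d q c X r m)

open Classical in
/-- the number of the good integers in `(m, m + T]` -/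
noncomputable def NextP (d q c X r T m : ℕ) : ℕ :=
  ((Ioc m (m + T)).filter (fun n => GoodP d q c X r n)).card

lemma goodP_iff (d q c X r m : ℕ) : GoodP d q c X r m ↔ Sifted (pf 1 d q c) X r m := by
  rw [pair_sift]
  unfold GoodP
  refine forall_congr' fun p => forall_congr' fun _ => forall_congr' fun _ => and_congr ?_ ?_
  · apply not_congr
    norm_cast
  · apply not_congr
    rw [one_mul]
    norm_cast

lemma omP_eq (d q c p : ℕ) (hp : p.Prime) (hqc : Nat.Coprime q c) (hqd : Nat.Coprime q (c + d)) :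
    om (pf 1 d q c) p = nuP d q p := by
  rw [pair_om 1 d (by norm_num) q c p hp hqc (by
    rw [one_mul, ← Nat.cast_add]
    exact Nat.isCoprime_iff_coprime.2 hqd)]
  unfold nuP
  simp only [Int.natCast_dvd_natCast]

lemma VP_eq (d q c X r : ℕ) (hqc : Nat.Coprime q c) (hqd : Nat.Coprime q (c + d)) :
    VP d q X r = V (pf 1 d q c) X r := by
  unfold VP V
  apply prod_congr rfl
  intro p hp
  rw [omP_eq d q c p (mem_filter.1 hp).2 hqc hqd]

lemma FarP_eq (d q c X r l T Z Y : ℕ) : FarP d q c X r l T Z Y = Far (pf 1 d q c) X r l T Z Y := by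
  classical
  unfold FarP Far
  simp only [goodP_iff]

/-- the conditions in natural numbers -/
lemma okP {A δ : ℝ} {X d q c : ℕ} (hd : Even d) (hd0 : 1 ≤ d) (hdX : (d : ℝ) ≤ (X : ℝ) ^ A)
    (hq : 1 ≤ q) (hqX : (q : ℝ) ≤ (X : ℝ) ^ A) (hcX : (c : ℝ) ≤ (X : ℝ) ^ A) (hqc : Nat.Coprime q c)
    (hqd : Nat.Coprime q (c + d)) : PairOK X A δ 1 d q c where
  he := by norm_num
  hf := by exact_mod_cast hd
  hf0 := by exact_mod_cast (by omega : d ≠ 0)
  hfX := by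
    rw [Int.cast_natCast, abs_of_nonneg (Nat.cast_nonneg d)]
    exact hdX
  hq := hq
  hqX := hqX
  haX := hcX
  hqa := hqc
  hqf := by
    rw [one_mul, ← Nat.cast_add]
    exact Nat.isCoprime_iff_coprime.2 hqd

/-- **The gap laws for pairs in progressions.** -/
theorem gapsP (A δ θ : ℝ) (hA : 0 < A) (hδ : 0 < δ) (hθ : 0 < θ) (l₀ : ℕ) (x₀ ε : ℝ) (hε : 0 < ε) :
    ∃ r₀ : ℕ, 2 ≤ r₀ ∧ ∀ r : ℕ, r₀ ≤ r → ∀ᶠ X : ℕ in atTop, ∀ d q c : ℕ, Even d → 1 ≤ d →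
      (d : ℝ) ≤ (X : ℝ) ^ A → 1 ≤ q → (q : ℝ) ≤ (X : ℝ) ^ A → (c : ℝ) ≤ (X : ℝ) ^ A → Nat.Coprime q c →
      Nat.Coprime q (c + d) → (∀ t : ℕ, 1 ≤ t → (t : ℝ) ≤ (X : ℝ) ^ δ → d ≠ q * t) →
      ∀ Z Y : ℕ, (X : ℝ) ^ θ ≤ Y → ∀ l T : ℕ, (l ≤ l₀ ∨ T * VP d q X r ≤ x₀) →
        |(FarP d q c X r l T Z Y : ℝ) - Y * VP d q X r *
          ∑ j ∈ range l, Real.exp (-(T * VP d q X r)) * (T * VP d q X r) ^ j / j.factorial| ≤
          ε * (Y * VP d q X r) := by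
  obtain ⟨r₀, h⟩ := gaps 2 1 (A + 1) δ θ (by linarith) hδ hθ l₀ x₀ ε hε
  refine ⟨max r₀ 2, le_max_right _ _, fun r hr => ?_⟩
  obtain ⟨M, hM, hV⟩ := pair_V A hA δ r ((le_max_right _ _).trans hr)
  filter_upwards [h r ((le_max_left _ _).trans hr) M, hV, pair_sys2 A hA δ]
    with X h1 h2 h3 d q c hd hd0 hdX hq hqX hcX hqc hqd hno Z Y hY l T hT
  have hok : PairOK X A δ 1 d q c := okP hd hd0 hdX hq hqX hcX hqc hqd
  rw [VP_eq d q c X r hqc hqd] at hT ⊢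
  rw [FarP_eq]
  exact h1 _ (h3 d q c hok hno) (h2 1 d q c hok) Z Y hY l T hT

open Classical in
/-- **Regular points for pairs in progressions.** -/
theorem regP (A θ : ℝ) (hA : 0 < A) (hθ : 0 < θ) :
    ∃ r₀ : ℕ, 2 ≤ r₀ ∧ ∀ r : ℕ, r₀ ≤ r → ∀ ε : ℝ, 0 < ε → ∃ κ : ℝ, 0 < κ ∧ ∀ δ : ℝ, 0 < δ →
      ∃ D : ℕ, ∀ᶠ X : ℕ in atTop, ∀ d q c : ℕ, Even d → 1 ≤ d → (d : ℝ) ≤ (X : ℝ) ^ A →
      1 ≤ q → (q : ℝ) ≤ (X : ℝ) ^ A → (c : ℝ) ≤ (X : ℝ) ^ A → Nat.Coprime q c → Nat.Coprime q (c + d) →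
      ∀ u Y : ℕ, (X : ℝ) ^ θ ≤ Y → Y ≤ X → Y ≤ u →
      ∀ S : Set ℕ, (∀ m ∈ S, GoodP d q c X r m) →
        (((Ioc u (u + Y)).filter (fun m => m ∈ S ∧ ¬ Regular S (VP d q X r) κ δ D Y m)).card : ℝ) ≤
          ε * (Y * VP d q X r) := by
  obtain ⟨r₀, hr₀, h⟩ := regular 2 1 1 (A + 1) 1 θ (by linarith) one_pos hθ
  refine ⟨r₀, hr₀, fun r hr ε hε => ?_⟩
  obtain ⟨M, hM, hV⟩ := pair_V A hA 1 r (hr₀.trans hr)
  obtain ⟨κ, hκ, h1⟩ := h r hr M hM ε hε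
  refine ⟨κ, hκ, fun δ hδ => ?_⟩
  obtain ⟨D, h2⟩ := h1 δ hδ
  refine ⟨D, ?_⟩
  filter_upwards [h2, hV, pair_sys0 A hA 1]
    with X h1 h2 h3 d q c hd hd0 hdX hq hqX hcX hqc hqd u Y hY hYX hYu S hS
  have hok : PairOK X A 1 1 d q c := okP hd hd0 hdX hq hqX hcX hqc hqd
  rw [VP_eq d q c X r hqc hqd]
  obtain ⟨h4, h5⟩ := h3 1 d q c hok
  exact h1 _ h4 _ (by simp) h5 (h2 1 d q c hok) u Y hY hYX hYu S
    (fun m hm => (goodP_iff d q c X r m).1 (hS m hm))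

/-- **The law after primes for pairs in progressions.** -/
theorem afterP (q : ℕ) (hq : Squarefree q) (A δ' θ δ : ℝ) (hA : 0 < A) (hδ' : 0 < δ') (hθ : 0 < θ)
    (hδ : 0 < δ) (hδ1 : δ ≤ 1) (x₀ ε : ℝ) (hε : 0 < ε) (hε1 : ε ≤ 1) :
    ∃ r₀ : ℕ, 2 ≤ r₀ ∧ ∀ r : ℕ, r₀ ≤ r → ∀ᶠ X : ℕ in atTop, ∀ d c : ℕ, Even d → 1 ≤ d →
      (d : ℝ) ≤ (X : ℝ) ^ A → c ≤ q → Nat.Coprime q c →
      Nat.Coprime q (c + d) → (∀ t : ℕ, 1 ≤ t → (t : ℝ) ≤ (X : ℝ) ^ δ' → d ≠ q * t) →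
      0 < VP d q X r ∧ 0 < WP d q X r ∧
      ∀ x : ℕ, (X : ℝ) ^ θ ≤ x → ∀ B L : ℕ, δ * x ≤ L → B + L ≤ x →
        |((PrP d q c X r B L).card : ℝ) * Real.log x - L * WP d q X r| ≤ ε * (L * WP d q X r) ∧
        ∀ T : ℕ, T * VP d q X r ≤ x₀ → ∀ J : Finset ℕ,
          |(((PrP d q c X r B L).filter (fun m => NextP d q c X r T m ∈ J)).card : ℝ) -
            (PrP d q c X r B L).card *
              ∑ j ∈ J, Real.exp (-(T * VP d q X r)) * (T * VP d q X r) ^ j / j.factorial| ≤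
            ε * (PrP d q c X r B L).card := by
  classical
  have hq1 : 1 ≤ q := Nat.pos_of_ne_zero hq.ne_zero
  obtain ⟨r₀, hr₀, h⟩ := after q 2 1 hq (A + 1) δ' θ δ (by linarith) hδ' hθ hδ hδ1 x₀ ε hε hε1
  refine ⟨r₀, hr₀, fun r hr => ?_⟩
  obtain ⟨M, hM, hV⟩ := pair_V A hA δ' r (hr₀.trans hr)
  have hqA : ∀ᶠ X : ℕ in atTop, (q : ℝ) ≤ (X : ℝ) ^ A :=
    ((tendsto_rpow_atTop hA).comp tendsto_natCast_atTop_atTop).eventually_ge_atTop _
  have hqθ : ∀ᶠ X : ℕ in atTop, (q : ℝ) ≤ (X : ℝ) ^ (θ / 4) :=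
    ((tendsto_rpow_atTop (by positivity)).comp tendsto_natCast_atTop_atTop).eventually_ge_atTop _
  filter_upwards [h r hr M, hV, pair_sys2 A hA δ', hqA, hqθ]
    with X h1 h2 h3 h4 h5 d c hd hd0 hdX hcq hqc hqd hno
  have hcr : (c : ℝ) ≤ q := by exact_mod_cast hcq
  have hok : PairOK X A δ' 1 d q c := okP hd hd0 hdX hq1 h4 (hcr.trans h4) hqc hqd
  have hsys := h3 d q c hok hno
  have hVpos : 0 < VP d q X r := by
    rw [VP_eq d q c X r hqc hqd, Pool.Agent.R463.PS.V_eq]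
    exact Pool.Agent.TH464.PO.Vq_pos _ (Pool.Agent.Y879.GL.us_adm hsys.us) _
  have hWe : WP d q X r = W (pf 1 d q c) X r := by
    unfold WP W
    apply prod_congr rfl
    intro p hp
    rw [omP_eq d q c p (mem_filter.1 hp).2 hqc hqd]
  have hVe := VP_eq d q c X r hqc hqd
  have hPe : ∀ B L : ℕ, PrP d q c X r B L = Pr q c (pf 1 d q c) X r B L := by
    intro B L
    unfold PrP Pr
    simp only [goodP_iff]
  have hNe : ∀ T m : ℕ, NextP d q c X r T m = Next (pf 1 d q c) X r T m := by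
    intro T m
    unfold NextP Next
    simp only [goodP_iff]
  refine ⟨hVpos, ?_, ?_⟩
  · rw [hWe, W_eq, ← hVe]
    exact div_pos hVpos (Pool.Agent.H373R2.T7.Vz_pos _)
  · intro x hx B L hL hBL
    obtain ⟨g1, g2⟩ := h1 _ c hsys hqc (fun p n hp hpq i hd' => by
        have hcop := Nat.Coprime.coprime_dvd_left hpq hqc
        have hcop2 := Nat.Coprime.coprime_dvd_left hpq hqd
        have hpz : (p : ℤ) ∣ q := Int.natCast_dvd_natCast.2 hpq
        fin_cases i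
        · have e1 : (pf 1 d q c 0).eval (n : ℤ) = q * n + c := (pf_eval 1 d q c n).1
          have h6 : (p : ℤ) ∣ q * n + c := by
            rw [← e1]
            exact hd'
          have h7 : (p : ℤ) ∣ c := (dvd_add_right (hpz.mul_right _)).1 h6
          have h8 : p ∣ c := Int.natCast_dvd_natCast.1 h7
          exact absurd h8 ((Nat.Prime.coprime_iff_not_dvd hp).1 hcop)
        · have e1 : (pf 1 d q c 1).eval (n : ℤ) = 1 * (q * n + c) + d := (pf_eval 1 d q c n).2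
          have h6 : (p : ℤ) ∣ q * n + (c + d) := by
            have e2 : (q : ℤ) * n + (c + d) = 1 * (q * n + c) + d := by ring
            rw [e2, ← e1]
            exact hd'
          have h7 : (p : ℤ) ∣ c + d := (dvd_add_right (hpz.mul_right _)).1 h6
          have h8 : p ∣ c + d := by exact_mod_cast h7
          exact absurd h8 ((Nat.Prime.coprime_iff_not_dvd hp).1 hcop2))
      ⟨0, fun n => (pf_eval 1 d q c n).1⟩ (h2 1 d q c hok) (hcr.trans h5) x hx B L hL hBL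
    rw [hWe, hVe, hPe]
    refine ⟨g1, ?_⟩
    intro T hT J
    simp only [hNe]
    exact g2 T hT J

end Pool.Agent.R463.PS
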