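import Pool.Agent.R463.Quad

set_option autoImplicit false

/-!
# A fixed quadratic polynomial in arithmetic progressions
-/

namespace Pool.Agent.R463.QA

open Polynomial Finset Filter
open Pool.Agent.R463.PS Pool.Agent.H373R2.T7

/-- for `n = q m + b` the number `α n ^ 2 + β n + γ` has no prime factor `p ≤ X ^ (1 / r)` -/
def GoodQ (α β γ : ℤ) (q b X r m : ℕ) : Prop :=
  ∀ p : ℕ, p.Prime → (p : ℝ) ≤ (X : ℝ) ^ (1 / (r : ℝ)) →
    ¬ (p : ℤ) ∣ α * (q * m + b : ℤ) ^ 2 + β * (q * m + b : ℤ) + γ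

/-- `0` for the prime factors of `q`, otherwise the number of the roots modulo `p` -/
def nuQ (α β γ : ℤ) (q p : ℕ) : ℕ :=
  if p ∣ q then 0 else ((range p).filter (fun n : ℕ => (p : ℤ) ∣ α * (n : ℤ) ^ 2 + β * n + γ)).card

/-- the density: the product of `1 - nu(p) / p` over the primes `p ≤ X ^ (1 / r)` -/
noncomputable def VQ (α β γ : ℤ) (q X r : ℕ) : ℝ :=
  ∏ p ∈ (Icc 1 ⌊(X : ℝ) ^ (1 / (r : ℝ))⌋₊).filter Nat.Prime, (1 - (nuQ α β γ q p : ℝ) / p)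

/-- the product of `1 - nu(p) / p` over the prime factors of `q` -/
noncomputable def kap (α β γ : ℤ) (q : ℕ) : ℝ := ∏ p ∈ q.primeFactors, (1 - (nuQ α β γ 1 p : ℝ) / p)

open Classical in
/-- the number of the good `m` in `(Z, Z + Y]` for which fewer than `l` of the integers in `[m - T, m)`
are good -/
noncomputable def FarQ (α β γ : ℤ) (q b X r l T Z Y : ℕ) : ℕ :=
  ((Ioc Z (Z + Y)).filter (fun m => GoodQ α β γ q b X r m ∧
    ((Ico (m - T) m).filter (fun n => GoodQ α β γ q b X r n)).card < l)).card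

/-- the conditions on the polynomial -/
structure Adm (α β γ : ℤ) : Prop where
  pos : 0 < α
  prim : ∀ p : ℕ, p.Prime → ¬ ((p : ℤ) ∣ α ∧ (p : ℤ) ∣ β ∧ (p : ℤ) ∣ γ)
  par : ¬ (Even (α + β) ∧ Even γ)
  disc : ¬ IsSquare (β ^ 2 - 4 * α * γ)

/-- the polynomial in the progression -/
noncomputable abbrev qq (α β γ : ℤ) (q b : ℕ) :=
  Pool.Agent.TH464.PO.qs (α * (q : ℤ) ^ 2) (q * (2 * α * b + β)) (α * (b : ℤ) ^ 2 + β * b + γ)

lemma val (α β γ : ℤ) (q b : ℕ) (m : ℤ) :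
    α * (q : ℤ) ^ 2 * m ^ 2 + (q * (2 * α * b + β)) * m + (α * (b : ℤ) ^ 2 + β * b + γ) =
      α * (q * m + b : ℤ) ^ 2 + β * (q * m + b : ℤ) + γ := by ring

lemma good_iff (α β γ : ℤ) (q b X r n : ℕ) : GoodQ α β γ q b X r n ↔ Sifted (qq α β γ q b) X r n := by
  rw [quad_sift]
  unfold GoodQ
  simp only [val]

lemma om_eq (α β γ : ℤ) (q b p : ℕ) (hp : p.Prime) (hc : IsCoprime (q : ℤ) (α * (b : ℤ) ^ 2 + β * b + γ)) :
    om (qq α β γ q b) p = nuQ α β γ q p := by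
  classical
  rw [quad_om]
  simp only [val]
  unfold nuQ
  split_ifs with hpq
  · rw [Finset.card_eq_zero, Finset.filter_eq_empty_iff]
    intro m _ hd
    have h1 : (p : ℤ) ∣ q := Int.natCast_dvd_natCast.2 hpq
    have h2 : (p : ℤ) ∣ α * (b : ℤ) ^ 2 + β * b + γ := by
      have e : α * (q * m + b : ℤ) ^ 2 + β * (q * m + b : ℤ) + γ =
        q * (α * q * m ^ 2 + 2 * α * m * b + β * m) + (α * (b : ℤ) ^ 2 + β * b + γ) := by ring
      rw [e] at hd
      exact (dvd_add_right (h1.mul_right _)).1 hd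
    obtain ⟨u, v, huv⟩ := hc
    have h3 : (p : ℤ) ∣ 1 := by
      rw [← huv]
      exact dvd_add (h1.mul_left _) (h2.mul_left _)
    have h4 : p ∣ 1 := by exact_mod_cast h3
    exact hp.one_lt.ne' (Nat.dvd_one.1 h4)
  · have hcop : Nat.Coprime p q := (Nat.Prime.coprime_iff_not_dvd hp).2 hpq
    have hmod : ∀ x y : ℤ, (p : ℤ) ∣ x - y →
        ((p : ℤ) ∣ α * x ^ 2 + β * x + γ ↔ (p : ℤ) ∣ α * y ^ 2 + β * y + γ) := by
      intro x y hxy
      have h1 : (p : ℤ) ∣ (α * x ^ 2 + β * x + γ) - (α * y ^ 2 + β * y + γ) := by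
        rw [show (α * x ^ 2 + β * x + γ) - (α * y ^ 2 + β * y + γ) = (x - y) * (α * (x + y) + β) by ring]
        exact hxy.mul_right _
      constructor
      · intro h
        have := dvd_sub h h1
        rwa [sub_sub_cancel] at this
      · intro h
        have := dvd_add h1 h
        rwa [sub_add_cancel] at this
    have hpp := hp.pos
    have hsub : ∀ m : ℕ, (p : ℤ) ∣ (((q * m + b) % p : ℕ) : ℤ) - (q * m + b) := by
      intro m
      have h1 := Nat.div_add_mod (q * m + b) p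
      refine ⟨-(((q * m + b) / p : ℕ) : ℤ), ?_⟩
      have h2 : ((p * ((q * m + b) / p) + (q * m + b) % p : ℕ) : ℤ) = ((q * m + b : ℕ) : ℤ) := by
        exact_mod_cast h1
      push_cast at h2 ⊢
      linarith
    apply card_bij (fun m _ => (q * m + b) % p)
    · intro m hm
      rw [mem_filter] at hm ⊢
      refine ⟨mem_range.2 (Nat.mod_lt _ hpp), ?_⟩
      exact (hmod _ _ (hsub m)).2 hm.2
    · intro m hm m' hm' he
      rw [mem_filter, mem_range] at hm hm'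
      have h1 : q * m + b ≡ q * m' + b [MOD p] := he
      have h2 : q * m ≡ q * m' [MOD p] := Nat.ModEq.add_right_cancel' _ h1
      exact Nat.ModEq.eq_of_lt_of_lt (Nat.ModEq.cancel_left_of_coprime hcop h2) hm.1 hm'.1
    · intro n hn
      rw [mem_filter, mem_range] at hn
      obtain ⟨x, hx⟩ := Pool.Agent.Y879.PR.exists_root q (b + (p - n)) p hp hpq
      have h1 : q * (x % p) + b ≡ n [MOD p] := by
        have h2 : q * (x % p) + (b + (p - n)) ≡ 0 [MOD p] :=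
          (Nat.ModEq.add_right _ (Nat.ModEq.mul_left _ (Nat.mod_modEq x p))).trans
            ((Nat.modEq_zero_iff_dvd).2 hx)
        have h3 : q * (x % p) + b + p ≡ 0 + n [MOD p] := by
          have h4 := Nat.ModEq.add_right n h2
          have e : q * (x % p) + (b + (p - n)) + n = q * (x % p) + b + p := by omega
          rwa [e] at h4
        rw [zero_add] at h3
        have h5 : q * (x % p) + b + p ≡ q * (x % p) + b [MOD p] := by
          unfold Nat.ModEq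
          rw [Nat.add_mod_right]
        exact h5.symm.trans h3
      have h6 : (q * (x % p) + b) % p = n := by
        have h7 : (q * (x % p) + b) % p = n % p := h1
        rw [h7, Nat.mod_eq_of_lt hn.1]
      refine ⟨x % p, ?_, h6⟩
      rw [mem_filter, mem_range]
      refine ⟨Nat.mod_lt _ hpp, ?_⟩
      apply (hmod _ _ (hsub (x % p))).1
      rw [h6]
      exact hn.2

lemma V_eq (α β γ : ℤ) (q b X r : ℕ) (hc : IsCoprime (q : ℤ) (α * (b : ℤ) ^ 2 + β * b + γ)) :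
    VQ α β γ q X r = V (qq α β γ q b) X r := by
  unfold VQ V
  apply prod_congr rfl
  intro p hp
  rw [om_eq α β γ q b p (mem_filter.1 hp).2 hc]

lemma Far_eq (α β γ : ℤ) (q b X r l T Z Y : ℕ) :
    FarQ α β γ q b X r l T Z Y = Far (qq α β γ q b) X r l T Z Y := by
  classical
  unfold FarQ Far
  congr 1
  apply filter_congr
  intro m _
  rw [good_iff]
  have : (Ico (m - T) m).filter (fun n => GoodQ α β γ q b X r n) =
      (Ico (m - T) m).filter (fun n => Sifted (qq α β γ q b) X r n) :=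
    filter_congr fun n _ => good_iff α β γ q b X r n
  rw [this]

/-- the polynomial in a progression as a system -/
theorem sysQ (α β γ : ℤ) (h : Adm α β γ) (A : ℕ) : ∃ D : ℕ, ∀ X : ℕ, D ≤ X → ∀ q b : ℕ, 1 ≤ q → q ≤ X ^ A →
    b ≤ X ^ A → IsCoprime (q : ℤ) (α * (b : ℤ) ^ 2 + β * b + γ) → ∀ U : ℝ,
    System 2 ((X : ℝ) ^ (((2 * A + 1 : ℕ) : ℝ) + 1)) U (qq α β γ q b) := by
  refine ⟨(2 * α.natAbs + β.natAbs + γ.natAbs) + 1, fun X hX q b hq hqX hbX hcop U => ?_⟩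
  have hX1 : 1 ≤ X := by omega
  have hXz : (1 : ℤ) ≤ X := by exact_mod_cast hX1
  obtain ⟨K, hK⟩ : ∃ K : ℤ, K = 2 * |α| + |β| + |γ| := ⟨_, rfl⟩
  have hKX : K ≤ X := by
    rw [hK]
    have e : (2 : ℤ) * |α| + |β| + |γ| = ((2 * α.natAbs + β.natAbs + γ.natAbs : ℕ) : ℤ) := by
      push_cast
      rfl
    rw [e]
    exact_mod_cast (by omega)
  have ha0 := abs_nonneg α
  have hb0 := abs_nonneg β
  have hc0 := abs_nonneg γ
  have hA1 : (1 : ℤ) ≤ (X : ℤ) ^ A := one_le_pow₀ hXz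
  have hqz : (1 : ℤ) ≤ q := by exact_mod_cast hq
  have hqXz : (q : ℤ) ≤ (X : ℤ) ^ A := by exact_mod_cast hqX
  have hbXz : (b : ℤ) ≤ (X : ℤ) ^ A := by exact_mod_cast hbX
  have hbn : (0 : ℤ) ≤ b := Int.natCast_nonneg b
  have hpow : (X : ℤ) ^ (2 * A + 1) = (X : ℤ) ^ A * (X : ℤ) ^ A * X := by ring
  have hAA : (X : ℤ) ^ A ≤ (X : ℤ) ^ A * (X : ℤ) ^ A := by nlinarith
  have hAA1 : (1 : ℤ) ≤ (X : ℤ) ^ A * (X : ℤ) ^ A := by nlinarith
  have hbig : K * ((X : ℤ) ^ A * (X : ℤ) ^ A) ≤ (X : ℤ) ^ (2 * A + 1) := by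
    rw [hpow, mul_comm]
    exact mul_le_mul_of_nonneg_left hKX (by positivity)
  have hqb : (q : ℤ) * b ≤ (X : ℤ) ^ A * (X : ℤ) ^ A :=
    mul_le_mul hqXz hbXz hbn (by positivity)
  have hqq : (q : ℤ) * q ≤ (X : ℤ) ^ A * (X : ℤ) ^ A :=
    mul_le_mul hqXz hqXz (by positivity) (by positivity)
  have hbb : (b : ℤ) * b ≤ (X : ℤ) ^ A * (X : ℤ) ^ A :=
    mul_le_mul hbXz hbXz hbn (by positivity)
  obtain ⟨P, hP⟩ : ∃ P : ℤ, P = (X : ℤ) ^ A * (X : ℤ) ^ A := ⟨_, rfl⟩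
  rw [← hP] at hbig hqb hqq hbb hAA hAA1
  have hqP : (q : ℤ) ≤ P := hqXz.trans hAA
  have hbP : (b : ℤ) ≤ P := hbXz.trans hAA
  have hP0 : (0 : ℤ) ≤ P := by linarith
  refine quad_system (2 * A + 1) X hX1 _ _ _ (mul_pos h.pos (by positivity)) ?_ ?_ ?_ ?_ ?_ ?_ _
  · rintro p hp ⟨g1, g2, g3⟩
    have hp' := Nat.prime_iff_prime_int.1 hp
    have hnq : ¬ (p : ℤ) ∣ q := by
      intro g4
      obtain ⟨u, v, huv⟩ := hcop
      have g5 : (p : ℤ) ∣ 1 := by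
        rw [← huv]
        exact dvd_add (g4.mul_left _) (g3.mul_left _)
      have g6 : p ∣ 1 := by exact_mod_cast g5
      exact hp.one_lt.ne' (Nat.dvd_one.1 g6)
    have g4 : (p : ℤ) ∣ α := by
      rcases hp'.dvd_or_dvd g1 with h4 | h4
      · exact h4
      · exact absurd (hp'.dvd_of_dvd_pow h4) hnq
    have g5 : (p : ℤ) ∣ β := by
      rcases hp'.dvd_or_dvd g2 with h4 | h4
      · exact absurd h4 hnq
      · have : (p : ℤ) ∣ 2 * α * b := ⟨2 * (α / p) * b, by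
          obtain ⟨w, hw⟩ := g4
          rw [hw, Int.mul_ediv_cancel_left _ (by exact_mod_cast hp.ne_zero)]
          ring⟩
        exact (dvd_add_right this).1 h4
    have g6 : (p : ℤ) ∣ γ := by
      have : (p : ℤ) ∣ α * (b : ℤ) ^ 2 + β * b := dvd_add (g4.mul_right _) (g5.mul_right _)
      exact (dvd_add_right this).1 g3
    exact h.prim p hp ⟨g4, g5, g6⟩
  · rintro ⟨g1, g2⟩
    rcases Int.even_or_odd (q : ℤ) with hqe | hqo
    · obtain ⟨u, v, huv⟩ := hcop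
      have g4 : Even (1 : ℤ) := by
        rw [← huv]
        exact (hqe.mul_left _).add (g2.mul_left _)
      exact absurd g4 (by decide)
    · -- q odd: α + β even and α b² + β b + γ even
      have h1 : Even (α + β) := by
        have e : α * (q : ℤ) ^ 2 + q * (2 * α * b + β) =
          (α + β) + (α * ((q : ℤ) ^ 2 - 1) + β * (q - 1) + 2 * (α * b * q)) := by ring
        rw [e] at g1
        have g3 : Even (α * ((q : ℤ) ^ 2 - 1) + β * (q - 1) + 2 * (α * b * q)) := by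
          have g4 : Even ((q : ℤ) - 1) := hqo.sub_odd odd_one
          have g5 : Even ((q : ℤ) ^ 2 - 1) := (hqo.pow).sub_odd odd_one
          exact ((g5.mul_left _).add (g4.mul_left _)).add (even_two_mul _)
        have := g1.sub g3
        rwa [add_sub_cancel_right] at this
      have h2 : Even γ := by
        have g3 : Even (α * (b : ℤ) ^ 2 + β * b) := by
          have e : α * (b : ℤ) ^ 2 + β * b = (α + β) * b + α * (b * (b - 1)) := by ring
          rw [e]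
          exact (h1.mul_right _).add ((Int.even_mul_pred_self _).mul_left _)
        have := g2.sub g3
        rwa [add_sub_cancel_left] at this
      exact h.par ⟨h1, h2⟩
  · rintro ⟨m, hm⟩
    have e : ((q : ℤ) * (2 * α * b + β)) ^ 2 - 4 * (α * (q : ℤ) ^ 2) * (α * (b : ℤ) ^ 2 + β * b + γ) =
      (q : ℤ) ^ 2 * (β ^ 2 - 4 * α * γ) := by ring
    rw [e] at hm
    apply h.disc
    have h5 : (q : ℤ) ^ 2 ∣ m ^ 2 := ⟨β ^ 2 - 4 * α * γ, by rw [sq m, ← hm]⟩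
    have h6 : (q : ℤ) ∣ m := (Int.pow_dvd_pow_iff (by norm_num)).1 h5
    obtain ⟨c, hc⟩ := h6
    refine ⟨c, ?_⟩
    rw [hc] at hm
    have h7 : (q : ℤ) ^ 2 ≠ 0 := by positivity
    apply mul_left_cancel₀ h7
    rw [hm]
    ring
  · have e1 : |α * (q : ℤ) ^ 2| = |α| * (q * q) := by
      rw [abs_mul, sq, abs_of_nonneg (show (0 : ℤ) ≤ (q : ℤ) * q by positivity)]
    rw [e1]
    have h1 : |α| * ((q : ℤ) * q) ≤ |α| * P := mul_le_mul_of_nonneg_left hqq ha0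
    nlinarith
  · have e1 : |(q : ℤ) * (2 * α * b + β)| ≤ 2 * |α| * (q * b) + |β| * q := by
      have e2 : (q : ℤ) * (2 * α * b + β) = (2 * (q * b)) * α + q * β := by ring
      rw [e2]
      refine (abs_add_le _ _).trans ?_
      rw [abs_mul (2 * ((q : ℤ) * b)) α, abs_mul (q : ℤ) β,
        abs_of_nonneg (show (0 : ℤ) ≤ 2 * ((q : ℤ) * b) by positivity),
        abs_of_nonneg (show (0 : ℤ) ≤ (q : ℤ) by positivity)]
      exact le_of_eq (by ring)
    have h1 : 2 * |α| * ((q : ℤ) * b) ≤ 2 * |α| * P := mul_le_mul_of_nonneg_left hqb (by positivity)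
    have h2 : |β| * (q : ℤ) ≤ |β| * P := mul_le_mul_of_nonneg_left hqP hb0
    nlinarith
  · have e1 : |α * (b : ℤ) ^ 2 + β * b + γ| ≤ |α| * (b * b) + |β| * b + |γ| := by
      refine (abs_add_le _ _).trans ?_
      refine add_le_add ((abs_add_le _ _).trans ?_) le_rfl
      rw [abs_mul, abs_mul, sq, abs_of_nonneg (show (0 : ℤ) ≤ (b : ℤ) * b by positivity),
        abs_of_nonneg hbn]
    have h1 : |α| * ((b : ℤ) * b) ≤ |α| * P := mul_le_mul_of_nonneg_left hbb ha0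
    have h2 : |β| * (b : ℤ) ≤ |β| * P := mul_le_mul_of_nonneg_left hbP hb0
    have h3 : |γ| * 1 ≤ |γ| * P := mul_le_mul_of_nonneg_left hAA1 hc0
    nlinarith

lemma nuQ_lt (α β γ : ℤ) (h : Adm α β γ) (q p : ℕ) (hp : p.Prime) : nuQ α β γ q p < p := by
  unfold nuQ
  split_ifs
  · exact hp.pos
  · obtain ⟨m, hm⟩ := Pool.Agent.TH464.PW.quad_adm α β γ h.prim h.par p hp
    have h1 : (range p).filter (fun n : ℕ => (p : ℤ) ∣ α * (n : ℤ) ^ 2 + β * n + γ) ⊂ range p := by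
      rw [Finset.filter_ssubset]
      refine ⟨m % p, mem_range.2 (Nat.mod_lt _ hp.pos), fun hd => hm ?_⟩
      have h2 : (p : ℤ) ∣ (m : ℤ) - ((m % p : ℕ) : ℤ) := by
        refine ⟨((m / p : ℕ) : ℤ), ?_⟩
        have := Nat.div_add_mod m p
        have h3 : ((p * (m / p) + m % p : ℕ) : ℤ) = m := by exact_mod_cast this
        push_cast at h3 ⊢
        linarith
      have h4 : (p : ℤ) ∣ (α * (m : ℤ) ^ 2 + β * m + γ) - (α * ((m % p : ℕ) : ℤ) ^ 2 + β * ((m % p : ℕ) : ℤ) + γ) := by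
        rw [show (α * (m : ℤ) ^ 2 + β * m + γ) - (α * ((m % p : ℕ) : ℤ) ^ 2 + β * ((m % p : ℕ) : ℤ) + γ) =
          ((m : ℤ) - ((m % p : ℕ) : ℤ)) * (α * (m + ((m % p : ℕ) : ℤ)) + β) by ring]
        exact h2.mul_right _
      have h5 := dvd_add h4 hd
      rw [sub_add_cancel] at h5
      rw [Pool.Agent.TH464.PW.quad_eval]
      exact h5
    simpa using card_lt_card h1

lemma nuQ_one (α β γ : ℤ) (q p : ℕ) (hp : p.Prime) (hpq : ¬ p ∣ q) : nuQ α β γ q p = nuQ α β γ 1 p := by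
  unfold nuQ
  rw [if_neg hpq, if_neg (fun h => hp.one_lt.ne' (Nat.dvd_one.1 h))]

lemma fac_pos (α β γ : ℤ) (h : Adm α β γ) (q p : ℕ) (hp : p.Prime) : 0 < 1 - (nuQ α β γ q p : ℝ) / p := by
  have hp0 : (0 : ℝ) < p := by exact_mod_cast hp.pos
  rw [sub_pos, div_lt_one hp0]
  exact_mod_cast nuQ_lt α β γ h q p hp

lemma fac_le (α β γ : ℤ) (q p : ℕ) : 1 - (nuQ α β γ q p : ℝ) / p ≤ 1 := by
  have : (0 : ℝ) ≤ (nuQ α β γ q p : ℝ) / p := by positivity
  linarith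

/-- comparison of the densities -/
lemma V_kap (α β γ : ℤ) (h : Adm α β γ) (q X r : ℕ) (hq : 1 ≤ q) :
    VQ α β γ q X r * kap α β γ q ≤ VQ α β γ 1 X r := by
  classical
  obtain ⟨S, hS⟩ : ∃ S : Finset ℕ, S = (Icc 1 ⌊(X : ℝ) ^ (1 / (r : ℝ))⌋₊).filter Nat.Prime := ⟨_, rfl⟩
  have hSp : ∀ p ∈ S, p.Prime := fun p hp => by
    rw [hS] at hp
    exact (mem_filter.1 hp).2
  unfold VQ kap
  rw [← hS]
  -- the primes of `S` dividing `q`
  have h1 : ∏ p ∈ q.primeFactors, (1 - (nuQ α β γ 1 p : ℝ) / p) ≤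
      ∏ p ∈ S.filter (fun p => p ∣ q), (1 - (nuQ α β γ 1 p : ℝ) / p) := by
    have hsub : S.filter (fun p => p ∣ q) ⊆ q.primeFactors := by
      intro p hp
      rw [mem_filter] at hp
      exact Nat.mem_primeFactors.2 ⟨hSp p hp.1, hp.2, by omega⟩
    rw [← prod_sdiff hsub]
    have h3 : ∏ p ∈ q.primeFactors \ S.filter (fun p => p ∣ q), (1 - (nuQ α β γ 1 p : ℝ) / p) ≤ 1 :=
      prod_le_one (fun p hp => (fac_pos α β γ h 1 p (Nat.prime_of_mem_primeFactors (mem_sdiff.1 hp).1)).le)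
        (fun p _ => fac_le α β γ 1 p)
    have h4 : 0 ≤ ∏ p ∈ S.filter (fun p => p ∣ q), (1 - (nuQ α β γ 1 p : ℝ) / p) :=
      prod_nonneg (fun p hp => (fac_pos α β γ h 1 p (hSp p (mem_filter.1 hp).1)).le)
    calc _ ≤ 1 * ∏ p ∈ S.filter (fun p => p ∣ q), (1 - (nuQ α β γ 1 p : ℝ) / p) :=
          mul_le_mul_of_nonneg_right h3 h4
      _ = _ := one_mul _
  have h2 : ∏ p ∈ S, (1 - (nuQ α β γ q p : ℝ) / p) =
      ∏ p ∈ S.filter (fun p => ¬ p ∣ q), (1 - (nuQ α β γ 1 p : ℝ) / p) := by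
    rw [← prod_filter_mul_prod_filter_not S (fun p => p ∣ q) (fun p => (1 - (nuQ α β γ q p : ℝ) / p))]
    have h3 : ∏ p ∈ S.filter (fun p => p ∣ q), (1 - (nuQ α β γ q p : ℝ) / p) = 1 := by
      apply prod_eq_one
      intro p hp
      unfold nuQ
      rw [if_pos (mem_filter.1 hp).2]
      simp
    rw [h3, one_mul]
    apply prod_congr rfl
    intro p hp
    rw [mem_filter] at hp
    rw [nuQ_one α β γ q p (hSp p hp.1) hp.2]
  rw [h2]
  have h3 : 0 ≤ ∏ p ∈ S.filter (fun p => ¬ p ∣ q), (1 - (nuQ α β γ 1 p : ℝ) / p) :=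
    prod_nonneg (fun p hp => (fac_pos α β γ h 1 p (hSp p (mem_filter.1 hp).1)).le)
  calc (∏ p ∈ S.filter (fun p => ¬ p ∣ q), (1 - (nuQ α β γ 1 p : ℝ) / p)) *
        ∏ p ∈ q.primeFactors, (1 - (nuQ α β γ 1 p : ℝ) / p) ≤
      (∏ p ∈ S.filter (fun p => ¬ p ∣ q), (1 - (nuQ α β γ 1 p : ℝ) / p)) *
        ∏ p ∈ S.filter (fun p => p ∣ q), (1 - (nuQ α β γ 1 p : ℝ) / p) :=
        mul_le_mul_of_nonneg_left h1 h3
    _ = ∏ p ∈ S, (1 - (nuQ α β γ 1 p : ℝ) / p) := by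
        rw [mul_comm, prod_filter_mul_prod_filter_not]

/-- the order of magnitude of the density -/
theorem V_order (α β γ : ℤ) (h : Adm α β γ) (r : ℕ) (hr : 2 ≤ r) : ∃ C : ℝ, 0 < C ∧ ∀ B : ℝ, 0 < B →
    ∀ᶠ X : ℕ in atTop, ∀ q : ℕ, 1 ≤ q → 1 ≤ B * kap α β γ q → VQ α β γ q X r ≤ B * C / Real.log X := by
  obtain ⟨v, C, hv, hC, hV⟩ := V_fixed (Pool.Agent.TH464.PO.qs α β γ)
    (Pool.Agent.TH464.PO.qs_sys α β γ h.pos h.prim h.par h.disc).irr
    (fun i => (Pool.Agent.TH464.PO.qs_sys α β γ h.pos h.prim h.par h.disc).deg i)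
    (Pool.Agent.TH464.PO.qs_sys α β γ h.pos h.prim h.par h.disc).lead
    (Pool.Agent.TH464.PO.qs_sys α β γ h.pos h.prim h.par h.disc).inj
    (Pool.Agent.TH464.PO.qs_sys α β γ h.pos h.prim h.par h.disc).adm r hr
  refine ⟨C, hC, fun B hB => ?_⟩
  filter_upwards [hV, eventually_ge_atTop 3] with X hX h3 q hq hk
  have hlog : 0 < Real.log X := Real.log_pos (by exact_mod_cast (by omega : 1 < X))
  have h1 : VQ α β γ 1 X r ≤ C / Real.log X := by
    have h2 := hX.2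
    rw [pow_one] at h2
    refine le_trans (le_of_eq ?_) h2
    unfold VQ V
    apply prod_congr rfl
    intro p hp
    rw [quad_om]
    unfold nuQ
    rw [if_neg (fun h => (mem_filter.1 hp).2.one_lt.ne' (Nat.dvd_one.1 h))]
  have hVpos : 0 ≤ VQ α β γ q X r := by
    unfold VQ
    exact prod_nonneg (fun p hp => (fac_pos α β γ h q p (mem_filter.1 hp).2).le)
  have h2 := V_kap α β γ h q X r hq
  calc VQ α β γ q X r = VQ α β γ q X r * 1 := (mul_one _).symm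
    _ ≤ VQ α β γ q X r * (B * kap α β γ q) := mul_le_mul_of_nonneg_left hk hVpos
    _ = B * (VQ α β γ q X r * kap α β γ q) := by ring
    _ ≤ B * (C / Real.log X) := mul_le_mul_of_nonneg_left (h2.trans h1) hB.le
    _ = B * C / Real.log X := by ring

/-- **The gap laws for a quadratic polynomial in progressions.** -/
theorem gapsQ (α β γ : ℤ) (h : Adm α β γ) (A : ℕ) (θ : ℝ) (hθ : 0 < θ) (l₀ : ℕ) (x₀ ε : ℝ) (hε : 0 < ε) :
    ∃ r₀ : ℕ, ∀ r : ℕ, r₀ ≤ r → ∀ B : ℝ, 0 < B → ∀ᶠ X : ℕ in atTop, ∀ q b : ℕ, 1 ≤ q → q ≤ X ^ A →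
      b ≤ X ^ A → IsCoprime (q : ℤ) (α * (b : ℤ) ^ 2 + β * b + γ) → 1 ≤ B * kap α β γ q →
      ∀ Z Y : ℕ, (X : ℝ) ^ θ ≤ Y → ∀ l T : ℕ, (l ≤ l₀ ∨ T * VQ α β γ q X r ≤ x₀) →
        |(FarQ α β γ q b X r l T Z Y : ℝ) - Y * VQ α β γ q X r *
          ∑ j ∈ range l, Real.exp (-(T * VQ α β γ q X r)) * (T * VQ α β γ q X r) ^ j / j.factorial| ≤
          ε * (Y * VQ α β γ q X r) := by
  obtain ⟨r₀, hg⟩ := gaps 1 2 (((2 * A + 1 : ℕ) : ℝ) + 1) 1 θ (by positivity) one_pos hθ l₀ x₀ ε hε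
  obtain ⟨D, hD⟩ := sysQ α β γ h A
  refine ⟨max r₀ 2, fun r hr B hB => ?_⟩
  have hr2 : 2 ≤ r := (le_max_right _ _).trans hr
  obtain ⟨C, hC, hV⟩ := V_order α β γ h r hr2
  filter_upwards [hg r ((le_max_left _ _).trans hr) (B * C), hV B hB, eventually_ge_atTop D]
    with X h1 h2 h3 q b hq hqX hbX hcop hk Z Y hY l T hT
  have hVq := h2 q hq hk
  rw [V_eq α β γ q b X r hcop] at hVq hT ⊢
  rw [Far_eq]
  exact h1 _ (hD X h3 q b hq hqX hbX hcop _) hVq Z Y hY l T hT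

lemma no_tr (a b c : ℤ) (ha : 0 < a) (i j : Fin 1) (t : ℕ) (ht : 1 ≤ t) :
    Pool.Agent.TH464.PO.qs a b c i ≠ (Pool.Agent.TH464.PO.qs a b c j).comp
      (Polynomial.X + Polynomial.C (t : ℤ)) ∧
    Pool.Agent.TH464.PO.qs a b c i ≠ -(Pool.Agent.TH464.PO.qs a b c j).comp
      (Polynomial.X + Polynomial.C (t : ℤ)) := by
  have h := Pool.Agent.Y879.GL.no_self (Pool.Agent.TH464.PW.quad a b c)
    (by rw [Pool.Agent.TH464.PW.quad_deg a b c ha.ne']; norm_num) (t : ℤ) (by exact_mod_cast (by omega : t ≠ 0))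
  constructor
  · intro e
    exact h (by
      unfold Pool.Agent.TH464.PO.qs at e
      rw [← e])
  · intro e
    exact h (by
      unfold Pool.Agent.TH464.PO.qs at e
      have e2 : (Pool.Agent.TH464.PW.quad a b c).comp (Polynomial.X + Polynomial.C (t : ℤ)) =
        -(Pool.Agent.TH464.PW.quad a b c) := by rw [← neg_neg ((Pool.Agent.TH464.PW.quad a b c).comp _), ← e]
      rw [e2]
      exact (Associated.refl _).neg_right)

open Classical in
/-- **Regular points for a quadratic polynomial in progressions.** -/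
theorem regQ (α β γ : ℤ) (h : Adm α β γ) (A : ℕ) (θ : ℝ) (hθ : 0 < θ) :
    ∃ r₀ : ℕ, 2 ≤ r₀ ∧ ∀ r : ℕ, r₀ ≤ r → ∀ B : ℝ, 0 < B → ∀ ε : ℝ, 0 < ε → ∃ κ : ℝ, 0 < κ ∧
      ∀ δ : ℝ, 0 < δ → ∃ D : ℕ, ∀ᶠ X : ℕ in atTop, ∀ q b : ℕ, 1 ≤ q → q ≤ X ^ A →
      b ≤ X ^ A → IsCoprime (q : ℤ) (α * (b : ℤ) ^ 2 + β * b + γ) → 1 ≤ B * kap α β γ q →
      ∀ u Y : ℕ, (X : ℝ) ^ θ ≤ Y → Y ≤ X → Y ≤ u →
      ∀ S : Set ℕ, (∀ m ∈ S, GoodQ α β γ q b X r m) →
        (((Ioc u (u + Y)).filter (fun m => m ∈ S ∧ ¬ Regular S (VQ α β γ q X r) κ δ D Y m)).card : ℝ) ≤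
          ε * (Y * VQ α β γ q X r) := by
  obtain ⟨r₀, hr₀, hg⟩ := regular 1 2 0 (((2 * A + 1 : ℕ) : ℝ) + 1) 1 θ (by positivity) one_pos hθ
  obtain ⟨D₀, hD₀⟩ := sysQ α β γ h A
  refine ⟨r₀, hr₀, fun r hr B hB ε hε => ?_⟩
  obtain ⟨C, hC, hV⟩ := V_order α β γ h r (hr₀.trans hr)
  obtain ⟨κ, hκ, h1⟩ := hg r hr (B * C) (by positivity) ε hε
  refine ⟨κ, hκ, fun δ hδ => ?_⟩
  obtain ⟨D, h2⟩ := h1 δ hδ
  refine ⟨D, ?_⟩
  filter_upwards [h2, hV B hB, eventually_ge_atTop D₀]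
    with X h1 h2 h3 q b hq hqX hbX hcop hk u Y hY hYX hYu S hS
  have hVq := h2 q hq hk
  rw [V_eq α β γ q b X r hcop] at hVq ⊢
  have hqz : (1 : ℤ) ≤ q := by exact_mod_cast hq
  exact h1 _ (hD₀ X h3 q b hq hqX hbX hcop _) ∅ (by simp)
    (fun i j t ht _ _ => no_tr _ _ _ (mul_pos h.pos (by positivity)) i j t ht) hVq u Y hY hYX hYu S
    (fun m hm => (good_iff α β γ q b X r m).1 (hS m hm))

end Pool.Agent.R463.QA
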