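import Pool.Agent.R463.EX10
import Pool.Agent.R463.LinT
import Pool.Agent.R463.Pair2
import Pool.Agent.R463.QuadAP

set_option autoImplicit false

/-!
# The exact patterns for linear forms, pairs and quadratic polynomials in progressions
-/

namespace Pool.Agent.R463.LA

open Polynomial Finset Filter
open Pool.Agent.R463.PS
open Pool.Agent.W123.RP Pool.Agent.H373R2.T7 Pool.Agent.W123.RU Pool.Agent.W123.RU.Poly
open Pool.Agent.TH464.PW Pool.Agent.TH464.PO Pool.Agent.Y879.GL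

variable {k : ℕ}

open Classical in
/-- the number of the residues `m` modulo `p` for which `p` divides some `a i * (q (m + h) + c) + b i` -/
noncomputable def nuLH (a b : Fin k → ℤ) (q c : ℕ) (H : Finset ℕ) (p : ℕ) : ℕ :=
  ((range p).filter (fun m : ℕ => ∃ h ∈ H, ∃ i, (p : ℤ) ∣ a i * (q * ((m + h : ℕ) : ℤ) + c : ℤ) + b i)).card

/-- the density of the pattern -/
noncomputable def VLH (a b : Fin k → ℤ) (q c : ℕ) (H : Finset ℕ) (X r : ℕ) : ℝ :=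
  ∏ p ∈ (Icc 1 ⌊(X : ℝ) ^ (1 / (r : ℝ))⌋₊).filter Nat.Prime, (1 - (nuLH a b q c H p : ℝ) / p)

open Classical in
/-- the number of the occurrences of the pattern -/
noncomputable def BL (a b : Fin k → ℤ) (q c : ℕ) (H : Finset ℕ) (L X r Z Y : ℕ) : ℕ :=
  ((Ioc Z (Z + Y)).filter (fun m => ∀ h ≤ L, GoodL a b q c X r (m + h) ↔ h ∈ H)).card

lemma VLH_eq (a b : Fin k → ℤ) (q c : ℕ) (H : Finset ℕ) (X r : ℕ) :
    VLH a b q c H X r = VH (ls (ca a q) (cb a b c)) H X r := by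
  classical
  unfold VLH VH
  apply prod_congr rfl
  intro p _
  have : nuLH a b q c H p = omH (ls (ca a q) (cb a b c)) H p := by
    unfold nuLH omH ls
    simp only [lf_eval, val]
  rw [this]

lemma BL_eq (a b : Fin k → ℤ) (q c : ℕ) (H : Finset ℕ) (L X r Z Y : ℕ) :
    BL a b q c H L X r Z Y = exS (ls (ca a q) (cb a b c)) H L X r Z Y := by
  classical
  unfold BL exS
  congr 1
  ext n
  simp only [mem_filter, good_iff]

/-- **The exact patterns for linear forms in progressions, all moduli.** -/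
theorem blocksM {a b : Fin k → ℤ} (h : AdmL a b) (i₀ j₀ : Fin k) (hij : a i₀ * b j₀ ≠ a j₀ * b i₀) (A K : ℕ)
    (θ : ℝ) (hθ : 0 < θ) (x₀ ε : ℝ) (hε : 0 < ε) :
    ∃ r₀ : ℕ, 2 ≤ r₀ ∧ ∀ r : ℕ, r₀ ≤ r → ∀ᶠ X : ℕ in atTop, ∀ q c : ℕ, 1 ≤ q → q ≤ X ^ A →
      c ≤ X ^ A → (∀ i, IsCoprime (q : ℤ) (a i * c + b i)) → (∀ i j, a i = a j → b i - b j < q * a j) →
      ∀ Z Y : ℕ, (X : ℝ) ^ θ ≤ Y → ∀ H : Finset ℕ, H.card ≤ K → 0 ∈ H → ∀ L : ℕ,
        (∀ h ∈ H, h ≤ L) → L * VL a b q X r ≤ x₀ →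
        |(BL a b q c H L X r Z Y : ℝ) - Y * VLH a b q c H X r * Real.exp (-(L * VL a b q X r))| ≤
          ε * (Y * VLH a b q c H X r * Real.exp (-(L * VL a b q X r))) := by
  obtain ⟨r₀, hg⟩ := blocks' k 1 K (((A + 1 : ℕ) : ℝ)) 1 θ x₀ ε (by positivity) one_pos hθ hε
  refine ⟨max r₀ 2, le_max_right _ _, fun r hr => ?_⟩
  obtain ⟨C, hC, hV⟩ := V_two h i₀ j₀ hij A r ((le_max_right _ _).trans hr)
  filter_upwards [hg r ((le_max_left _ _).trans hr) C, hV, eventually_ge_atTop (ht a b + 1)]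
    with X h1 h2 h3 q c hq hqX hcX hcop hbq Z Y hY H hH h0 L hL hx
  have hVq := h2 q c hq hqX hcop
  rw [V_eq a b q c X r hcop] at hVq hx ⊢
  rw [BL_eq, VLH_eq]
  refine h1 _ (sysL h A X q c h3 hq hqX hcX hcop _ (fun i j t ht _ => ?_)) hVq Z Y hY H hH h0 L hL hx
  rintro ⟨e1, e2⟩
  have h4 := hbq i j e1
  have ha := h.1 j
  have hq0 : (1 : ℤ) ≤ q := by exact_mod_cast hq
  have ht0 : (1 : ℤ) ≤ t := by exact_mod_cast ht
  have h5 : (q : ℤ) * a j * 1 ≤ q * a j * t := mul_le_mul_of_nonneg_left ht0 (by positivity)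
  have h6 : b i - b j = q * a j * t := by
    rw [e2]
    ring
  linarith

end Pool.Agent.R463.LA

namespace Pool.Agent.R463.LT

open Polynomial Finset Filter
open Pool.Agent.R463.PS Pool.Agent.R463.LA

open Classical in
/-- the number of the residues `m` modulo `p` for which `p` divides some `q (m + j) + c + h`, `j ∈ J`,
`h ∈ H` -/
noncomputable def nuJ (H : Finset ℕ) (q c : ℕ) (J : Finset ℕ) (p : ℕ) : ℕ :=
  ((range p).filter (fun m : ℕ => ∃ j ∈ J, ∃ h ∈ H, p ∣ q * (m + j) + c + h)).card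

/-- the density of the pattern -/
noncomputable def VJ (H : Finset ℕ) (q c : ℕ) (J : Finset ℕ) (X r : ℕ) : ℝ :=
  ∏ p ∈ (Icc 1 ⌊(X : ℝ) ^ (1 / (r : ℝ))⌋₊).filter Nat.Prime, (1 - (nuJ H q c J p : ℝ) / p)

open Classical in
/-- the number of the occurrences of the pattern -/
noncomputable def BJ (H : Finset ℕ) (q c : ℕ) (J : Finset ℕ) (L X r Z Y : ℕ) : ℕ :=
  ((Ioc Z (Z + Y)).filter (fun m => ∀ j ≤ L, Good H q c X r (m + j) ↔ j ∈ J)).card

lemma VJ_eq (H : Finset ℕ) (q c : ℕ) (J : Finset ℕ) (X r : ℕ) :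
    VJ H q c J X r = VLH (on H) (en H) q c J X r := by
  classical
  unfold VJ VLH
  apply prod_congr rfl
  intro p _
  have : nuJ H q c J p = nuLH (on H) (en H) q c J p := by
    unfold nuJ nuLH
    congr 1
    ext m
    simp only [mem_filter]
    refine and_congr_right fun _ => exists_congr fun j => and_congr_right fun _ => ?_
    rw [en_ex H (fun h => p ∣ q * (m + j) + c + h)]
    refine exists_congr fun i => ?_
    unfold on en
    rw [one_mul]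
    norm_cast
  rw [this]

lemma BJ_eq (H : Finset ℕ) (q c : ℕ) (J : Finset ℕ) (L X r Z Y : ℕ) :
    BJ H q c J L X r Z Y = BL (on H) (en H) q c J L X r Z Y := by
  classical
  unfold BJ BL
  simp only [good_iff']

/-- **The exact patterns for tuples in progressions.** -/
theorem blocksH (H : Finset ℕ) (hH : 2 ≤ H.card) (hadm : ∀ p : ℕ, p.Prime → ∃ n : ℕ, ∀ h ∈ H, ¬ p ∣ n + h)
    (A K : ℕ) (θ : ℝ) (hθ : 0 < θ) (x₀ ε : ℝ) (hε : 0 < ε) :
    ∃ r₀ : ℕ, 2 ≤ r₀ ∧ ∀ r : ℕ, r₀ ≤ r → ∀ᶠ X : ℕ in atTop, ∀ q c : ℕ, 1 ≤ q → q ≤ X ^ A →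
      c ≤ X ^ A → (∀ h ∈ H, Nat.Coprime q (c + h)) → (∀ h ∈ H, h < q) →
      ∀ Z Y : ℕ, (X : ℝ) ^ θ ≤ Y → ∀ J : Finset ℕ, J.card ≤ K → 0 ∈ J → ∀ L : ℕ,
        (∀ j ∈ J, j ≤ L) → L * V H q X r ≤ x₀ →
        |(BJ H q c J L X r Z Y : ℝ) - Y * VJ H q c J X r * Real.exp (-(L * V H q X r))| ≤
          ε * (Y * VJ H q c J X r * Real.exp (-(L * V H q X r))) := by
  obtain ⟨i, j, hij⟩ := two_H H hH
  obtain ⟨r₀, hr₀, h⟩ := blocksM (adm_H H hadm) i j hij A K θ hθ x₀ ε hε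
  refine ⟨r₀, hr₀, fun r hr => ?_⟩
  filter_upwards [h r hr] with X hX q c hq hqX hcX hcop hlt Z Y hY J hJ h0 L hL hx
  rw [V_eq'] at hx ⊢
  rw [BJ_eq, VJ_eq]
  refine hX q c hq hqX hcX (cop_H H q c hcop) (fun i j _ => ?_) Z Y hY J hJ h0 L hL hx
  have h1 := hlt _ (H.orderEmbOfFin_mem rfl i)
  have h2 : on H j = 1 := rfl
  rw [h2, mul_one]
  unfold en
  have h3 : (0 : ℤ) ≤ ((H.orderEmbOfFin rfl j : ℕ) : ℤ) := Int.natCast_nonneg _
  have h4 : ((H.orderEmbOfFin rfl i : ℕ) : ℤ) < q := by exact_mod_cast h1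
  linarith

end Pool.Agent.R463.LT

namespace Pool.Agent.R463.QA

open Polynomial Finset Filter
open Pool.Agent.R463.PS

open Classical in
/-- the number of the residues `m` modulo `p` for which `p` divides the value at `q (m + h) + b` for an `h ∈ H` -/
noncomputable def nuQH (α β γ : ℤ) (q b : ℕ) (H : Finset ℕ) (p : ℕ) : ℕ :=
  ((range p).filter (fun m : ℕ => ∃ h ∈ H,
    (p : ℤ) ∣ α * (q * ((m + h : ℕ) : ℤ) + b : ℤ) ^ 2 + β * (q * ((m + h : ℕ) : ℤ) + b : ℤ) + γ)).card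

/-- the density of the pattern -/
noncomputable def VQH (α β γ : ℤ) (q b : ℕ) (H : Finset ℕ) (X r : ℕ) : ℝ :=
  ∏ p ∈ (Icc 1 ⌊(X : ℝ) ^ (1 / (r : ℝ))⌋₊).filter Nat.Prime, (1 - (nuQH α β γ q b H p : ℝ) / p)

open Classical in
/-- the number of the occurrences of the pattern -/
noncomputable def BQ (α β γ : ℤ) (q b : ℕ) (H : Finset ℕ) (L X r Z Y : ℕ) : ℕ :=
  ((Ioc Z (Z + Y)).filter (fun m => ∀ h ≤ L, GoodQ α β γ q b X r (m + h) ↔ h ∈ H)).card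

lemma VQH_eq (α β γ : ℤ) (q b : ℕ) (H : Finset ℕ) (X r : ℕ) :
    VQH α β γ q b H X r = VH (qq α β γ q b) H X r := by
  classical
  unfold VQH VH
  apply prod_congr rfl
  intro p _
  have : nuQH α β γ q b H p = omH (qq α β γ q b) H p := by
    unfold nuQH omH
    congr 1
    ext n
    simp only [mem_filter]
    constructor
    · rintro ⟨h1, h, hh, h2⟩
      refine ⟨h1, h, hh, (Pool.Agent.TH464.PO.qs_Q _ _ _ p (n + h)).2 ?_⟩
      rw [val]
      exact h2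
    · rintro ⟨h1, h, hh, h2⟩
      have h3 := (Pool.Agent.TH464.PO.qs_Q _ _ _ p (n + h)).1 h2
      rw [val] at h3
      exact ⟨h1, h, hh, h3⟩
  rw [this]

lemma BQ_eq (α β γ : ℤ) (q b : ℕ) (H : Finset ℕ) (L X r Z Y : ℕ) :
    BQ α β γ q b H L X r Z Y = exS (qq α β γ q b) H L X r Z Y := by
  classical
  unfold BQ exS
  congr 1
  ext n
  simp only [mem_filter, good_iff]

/-- **The exact patterns for a quadratic polynomial in progressions.** -/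
theorem blocksQ (α β γ : ℤ) (h : Adm α β γ) (A K : ℕ) (θ : ℝ) (hθ : 0 < θ) (x₀ ε : ℝ) (hε : 0 < ε) :
    ∃ r₀ : ℕ, ∀ r : ℕ, r₀ ≤ r → ∀ B : ℝ, 0 < B → ∀ᶠ X : ℕ in atTop, ∀ q b : ℕ, 1 ≤ q → q ≤ X ^ A →
      b ≤ X ^ A → IsCoprime (q : ℤ) (α * (b : ℤ) ^ 2 + β * b + γ) → 1 ≤ B * kap α β γ q →
      ∀ Z Y : ℕ, (X : ℝ) ^ θ ≤ Y → ∀ H : Finset ℕ, H.card ≤ K → 0 ∈ H → ∀ L : ℕ,
        (∀ h ∈ H, h ≤ L) → L * VQ α β γ q X r ≤ x₀ →
        |(BQ α β γ q b H L X r Z Y : ℝ) - Y * VQH α β γ q b H X r * Real.exp (-(L * VQ α β γ q X r))| ≤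
          ε * (Y * VQH α β γ q b H X r * Real.exp (-(L * VQ α β γ q X r))) := by
  obtain ⟨r₀, hg⟩ := blocks' 1 2 K (((2 * A + 1 : ℕ) : ℝ) + 1) 1 θ x₀ ε (by positivity) one_pos hθ hε
  obtain ⟨D, hD⟩ := sysQ α β γ h A
  refine ⟨max r₀ 2, fun r hr B hB => ?_⟩
  have hr2 : 2 ≤ r := (le_max_right _ _).trans hr
  obtain ⟨C, hC, hV⟩ := V_order α β γ h r hr2
  filter_upwards [hg r ((le_max_left _ _).trans hr) (B * C), hV B hB, eventually_ge_atTop D]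
    with X h1 h2 h3 q b hq hqX hbX hcop hk Z Y hY H hH h0 L hL hx
  have hVq := h2 q hq hk
  rw [V_eq α β γ q b X r hcop] at hVq hx ⊢
  rw [BQ_eq, VQH_eq]
  exact h1 _ (hD X h3 q b hq hqX hbX hcop _) hVq Z Y hY H hH h0 L hL hx

end Pool.Agent.R463.QA

namespace Pool.Agent.R463.PS

open Polynomial Finset Filter
open Pool.Agent.Y879.GL

open Classical in
/-- the number of the residues `m` modulo `p` for which `p` divides `n` or `n + d` for an `n = q (m + h) + c` -/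
noncomputable def nuPH (d q c : ℕ) (H : Finset ℕ) (p : ℕ) : ℕ :=
  ((range p).filter (fun m : ℕ => ∃ h ∈ H, p ∣ q * (m + h) + c ∨ p ∣ q * (m + h) + c + d)).card

/-- the density of the pattern -/
noncomputable def VPH (d q c : ℕ) (H : Finset ℕ) (X r : ℕ) : ℝ :=
  ∏ p ∈ (Icc 1 ⌊(X : ℝ) ^ (1 / (r : ℝ))⌋₊).filter Nat.Prime, (1 - (nuPH d q c H p : ℝ) / p)

open Classical in
/-- the number of the occurrences of the pattern -/
noncomputable def BP (d q c : ℕ) (H : Finset ℕ) (L X r Z Y : ℕ) : ℕ :=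
  ((Ioc Z (Z + Y)).filter (fun m => ∀ h ≤ L, GoodP d q c X r (m + h) ↔ h ∈ H)).card

lemma VPH_eq (d q c : ℕ) (H : Finset ℕ) (X r : ℕ) : VPH d q c H X r = VH (pf 1 d q c) H X r := by
  classical
  unfold VPH VH
  apply prod_congr rfl
  intro p _
  have : nuPH d q c H p = omH (pf 1 d q c) H p := by
    unfold nuPH omH
    congr 1
    ext m
    simp only [mem_filter]
    refine and_congr_right fun _ => exists_congr fun h => and_congr_right fun _ => ?_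
    rw [Fin.exists_fin_two, (pf_eval 1 d q c _).1, (pf_eval 1 d q c _).2, one_mul]
    norm_cast
  rw [this]

lemma BP_eq (d q c : ℕ) (H : Finset ℕ) (L X r Z Y : ℕ) :
    BP d q c H L X r Z Y = exS (pf 1 d q c) H L X r Z Y := by
  classical
  unfold BP exS
  congr 1
  ext n
  simp only [mem_filter, goodP_iff]

/-- **The exact patterns for pairs in progressions.** -/
theorem blocksPr (A δ θ : ℝ) (K : ℕ) (hA : 0 < A) (hδ : 0 < δ) (hθ : 0 < θ) (x₀ ε : ℝ) (hε : 0 < ε) :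
    ∃ r₀ : ℕ, 2 ≤ r₀ ∧ ∀ r : ℕ, r₀ ≤ r → ∀ᶠ X : ℕ in atTop, ∀ d q c : ℕ, Even d → 1 ≤ d →
      (d : ℝ) ≤ (X : ℝ) ^ A → 1 ≤ q → (q : ℝ) ≤ (X : ℝ) ^ A → (c : ℝ) ≤ (X : ℝ) ^ A → Nat.Coprime q c →
      Nat.Coprime q (c + d) → (∀ t : ℕ, 1 ≤ t → (t : ℝ) ≤ (X : ℝ) ^ δ → d ≠ q * t) →
      ∀ Z Y : ℕ, (X : ℝ) ^ θ ≤ Y → ∀ H : Finset ℕ, H.card ≤ K → 0 ∈ H → ∀ L : ℕ,
        (∀ h ∈ H, h ≤ L) → L * VP d q X r ≤ x₀ →
        |(BP d q c H L X r Z Y : ℝ) - Y * VPH d q c H X r * Real.exp (-(L * VP d q X r))| ≤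
          ε * (Y * VPH d q c H X r * Real.exp (-(L * VP d q X r))) := by
  obtain ⟨r₀, h⟩ := blocks' 2 1 K (A + 1) δ θ x₀ ε (by linarith) hδ hθ hε
  refine ⟨max r₀ 2, le_max_right _ _, fun r hr => ?_⟩
  obtain ⟨M, hM, hV⟩ := pair_V A hA δ r ((le_max_right _ _).trans hr)
  filter_upwards [h r ((le_max_left _ _).trans hr) M, hV, pair_sys2 A hA δ]
    with X h1 h2 h3 d q c hd hd0 hdX hq hqX hcX hqc hqd hno Z Y hY H hH h0 L hL hx
  have hok : PairOK X A δ 1 d q c := okP hd hd0 hdX hq hqX hcX hqc hqd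
  rw [VP_eq d q c X r hqc hqd] at hx ⊢
  rw [BP_eq, VPH_eq]
  exact h1 _ (h3 d q c hok hno) (h2 1 d q c hok) Z Y hY H hH h0 L hL hx

end Pool.Agent.R463.PS
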