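import Pool.Agent.R463.EX1

set_option autoImplicit false

/-!
# Relative averages of the singular series
-/

namespace Pool.Agent.R463.EX

open Finset Filter Pool.Agent.H373R2.T7 Pool.Agent.W123.RP Pool.Agent.W123.RU Pool.Agent.TH464.PO
open Pool.Agent.R463.PP

open Classical in
/-- **The small primes**, relative to `H`. -/
theorem small_avgR (k w : ℕ) (η C : ℝ) (hη : 0 < η) (hC : 0 ≤ C) : ∃ T0 : ℕ, ∀ T : ℕ, T0 ≤ T →
    ∀ (Q : ℕ → ℕ → Prop) (c : ℕ), PerB Q c → (∀ p : ℕ, p.Prime → nuB Q p < p) →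
    ∀ H W : Finset ℕ, W ⊆ Icc 1 T →
    (∀ m : ℕ, |((W.filter (fun h => Sf Q w (m + h))).card : ℝ) - W.card * Vq Q w| ≤ C) →
    |∑ S ∈ powersetCard (k + 1) W, Vq (QH Q (H ∪ S)) w -
      Vq (QH Q H) w * ((W.card * Vq Q w) ^ (k + 1) / (k + 1).factorial)| ≤
      η * (Vq (QH Q H) w * ((T * Vq Q w) ^ (k + 1) / (k + 1).factorial)) := by
  obtain ⟨M, hM⟩ : ∃ M, M = Mw w := ⟨_, rfl⟩
  have hMpos : 0 < M := by rw [hM]; exact Mw_pos w
  have hMr : (0 : ℝ) < M := by exact_mod_cast hMpos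
  obtain ⟨B, hB⟩ : ∃ B : ℝ, B = max (C + k + 1) ((C + (k + 1)) * (k + 1) * 2 ^ k / η) := ⟨_, rfl⟩
  obtain ⟨T0, hT0⟩ : ∃ T0 : ℕ, (M : ℝ) * B ≤ T0 := exists_nat_ge _
  refine ⟨T0, ?_⟩
  intro T hT Q c hQ hadm H W hW hwin
  have hTr : (M : ℝ) * B ≤ T := hT0.trans (by exact_mod_cast hT)
  have hWp := Vq_pos Q hadm w
  have hex := exact Q c hQ w
  rw [← hM] at hex
  have hMW : 1 ≤ (M : ℝ) * Vq Q w := by
    rw [← hex]
    have h1 : (0 : ℝ) < (((range M).filter (fun m => Sf Q w m)).card : ℝ) := by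
      rw [hex]
      positivity
    have h2 : 0 < ((range M).filter (fun m => Sf Q w m)).card := by exact_mod_cast h1
    exact_mod_cast h2
  obtain ⟨x, hx⟩ : ∃ x : ℝ, x = W.card * Vq Q w := ⟨_, rfl⟩
  obtain ⟨z, hz⟩ : ∃ z : ℝ, z = T * Vq Q w := ⟨_, rfl⟩
  rw [← hx, ← hz]
  rw [← hx] at hwin
  have hx0 : 0 ≤ x := by rw [hx]; positivity
  have hWT : (W.card : ℝ) ≤ T := by
    have := card_le_card hW
    rw [Nat.card_Icc, Nat.add_sub_cancel] at this
    exact_mod_cast this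
  have hxz : x ≤ z := by
    rw [hx, hz]
    exact mul_le_mul_of_nonneg_right hWT hWp.le
  have hBz : B ≤ z := by
    have h1 : (M : ℝ) * B ≤ M * z := by
      rw [hz]
      calc (M : ℝ) * B ≤ T := hTr
        _ = T * 1 := (mul_one _).symm
        _ ≤ T * (M * Vq Q w) := by gcongr
        _ = _ := by ring
    exact le_of_mul_le_mul_left h1 hMr
  have hB1 : C + k + 1 ≤ z := (by rw [hB]; exact le_max_left _ _ : C + k + 1 ≤ B).trans hBz
  have hB2 : (C + (k + 1)) * (k + 1) * 2 ^ k ≤ η * z := by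
    have h1 : (C + (k + 1)) * (k + 1) * 2 ^ k / η ≤ z :=
      (by rw [hB]; exact le_max_right _ _ : (C + (k + 1)) * (k + 1) * 2 ^ k / η ≤ B).trans hBz
    rw [div_le_iff₀ hη] at h1
    linarith
  have hz0 : 0 ≤ z := hx0.trans hxz
  have hkf : (0 : ℝ) < (k + 1).factorial := by exact_mod_cast Nat.factorial_pos (k + 1)
  have hsum := sum_setsR Q c hQ w (k + 1) H W
  rw [← hM] at hsum
  have hexH := exact (QH Q H) _ (perB_QH Q c hQ H) w
  rw [← hM] at hexH
  obtain ⟨F, hF⟩ : ∃ F, F = (range M).filter (fun m => Sf (QH Q H) w m) := ⟨_, rfl⟩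
  rw [← hF] at hsum hexH
  have hb : ∀ m ∈ F, |(((W.filter (fun h => Sf Q w (m + h))).card.choose (k + 1) : ℕ) : ℝ) -
      x ^ (k + 1) / (k + 1).factorial| ≤ η * (z ^ (k + 1) / (k + 1).factorial) := by
    intro m _
    refine (choose_near _ k x z C (hwin m) hC hx0 hxz hB1).trans ?_
    rw [← mul_div_assoc]
    apply div_le_div_of_nonneg_right _ hkf.le
    calc (C + (k + 1)) * (k + 1) * (2 * z) ^ k = (C + (k + 1)) * (k + 1) * 2 ^ k * z ^ k := by
          rw [mul_pow]; ring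
      _ ≤ η * z * z ^ k := mul_le_mul_of_nonneg_right hB2 (by positivity)
      _ = _ := by ring
  have e : (M : ℝ) * (∑ S ∈ powersetCard (k + 1) W, Vq (QH Q (H ∪ S)) w -
      Vq (QH Q H) w * (x ^ (k + 1) / (k + 1).factorial)) =
      ∑ m ∈ F, ((((W.filter (fun h => Sf Q w (m + h))).card.choose (k + 1) : ℕ) : ℝ) -
        x ^ (k + 1) / (k + 1).factorial) := by
    rw [mul_sub, hsum, Finset.sum_sub_distrib, Finset.sum_const, nsmul_eq_mul, hexH]
    ring
  have h3 : |(M : ℝ) * (∑ S ∈ powersetCard (k + 1) W, Vq (QH Q (H ∪ S)) w -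
      Vq (QH Q H) w * (x ^ (k + 1) / (k + 1).factorial))| ≤
      M * (η * (Vq (QH Q H) w * (z ^ (k + 1) / (k + 1).factorial))) := by
    rw [e]
    refine (Finset.abs_sum_le_sum_abs _ _).trans ?_
    refine (Finset.sum_le_card_nsmul _ _ _ hb).trans (le_of_eq ?_)
    rw [nsmul_eq_mul, hexH]
    ring
  rw [abs_mul, abs_of_pos hMr] at h3
  exact le_of_mul_le_mul_left h3 hMr

open Classical in
lemma card_one (k T a : ℕ) :
    ((powersetCard (k + 1) (Icc 1 T)).filter (fun H => a ∈ H)).card ≤ T ^ k := by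
  have h1 : ((powersetCard (k + 1) (Icc 1 T)).filter (fun H => a ∈ H)).card ≤
      (powersetCard k (Icc 1 T)).card := by
    apply Finset.card_le_card_of_injOn (fun H => H.erase a)
    · intro H hH
      rw [Finset.mem_coe, mem_filter, mem_powersetCard] at hH
      obtain ⟨⟨h1, h2⟩, h3⟩ := hH
      rw [Finset.mem_coe, mem_powersetCard]
      refine ⟨(erase_subset _ _).trans h1, ?_⟩
      beta_reduce
      rw [card_erase_of_mem h3, h2]
      omega
    · intro H hH H' hH' h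
      rw [Finset.mem_coe, mem_filter] at hH hH'
      simp only at h
      rw [← insert_erase hH.2, ← insert_erase hH'.2, h]
  refine h1.trans ?_
  rw [card_powersetCard, Nat.card_Icc, Nat.add_sub_cancel]
  exact Nat.choose_le_pow T k

open Classical in
lemma sum_dist (T b : ℕ) (hb : b ≤ T) (g : ℕ → ℝ) (hg : ∀ t, 0 ≤ g t) :
    ∑ s ∈ (Icc 1 T).filter (fun s => s ≠ b), g (ad s b) ≤ 2 * ∑ t ∈ Icc 1 T, g t := by
  have h1 : ∑ s ∈ (Icc 1 T).filter (fun s => s ≠ b), g (ad s b) ≤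
      ∑ s ∈ (Icc 1 T).filter (fun s => s < b), g (b - s) + ∑ s ∈ (Icc 1 T).filter (fun s => b < s), g (s - b) := by
    have e : (Icc 1 T).filter (fun s => s ≠ b) =
        (Icc 1 T).filter (fun s => s < b) ∪ (Icc 1 T).filter (fun s => b < s) := by
      ext s
      simp only [mem_filter, mem_union]
      constructor
      · rintro ⟨a1, a2⟩
        rcases Nat.lt_or_gt_of_ne a2 with h | h
        · exact Or.inl ⟨a1, h⟩
        · exact Or.inr ⟨a1, h⟩
      · rintro (⟨a1, a2⟩ | ⟨a1, a2⟩)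
        · exact ⟨a1, a2.ne⟩
        · exact ⟨a1, a2.ne'⟩
    rw [e, Finset.sum_union]
    · apply le_of_eq
      congr 1
      · apply Finset.sum_congr rfl
        intro s hs
        rw [ad_of_lt (mem_filter.1 hs).2]
      · apply Finset.sum_congr rfl
        intro s hs
        rw [ad_of_gt (mem_filter.1 hs).2]
    · rw [Finset.disjoint_left]
      intro s hs hs'
      rw [mem_filter] at hs hs'
      omega
  have h2 : ∑ s ∈ (Icc 1 T).filter (fun s => s < b), g (b - s) ≤ ∑ t ∈ Icc 1 T, g t := by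
    rw [← Finset.sum_image (f := g) (g := fun s => b - s) (by
      intro s hs s' hs' h
      rw [Finset.mem_coe, mem_filter] at hs hs'
      have h' : b - s = b - s' := h
      omega)]
    apply Finset.sum_le_sum_of_subset_of_nonneg
    · intro t ht
      rw [mem_image] at ht
      obtain ⟨s, hs, rfl⟩ := ht
      rw [mem_filter, mem_Icc] at hs
      rw [mem_Icc]
      omega
    · intros
      exact hg _
  have h3 : ∑ s ∈ (Icc 1 T).filter (fun s => b < s), g (s - b) ≤ ∑ t ∈ Icc 1 T, g t := by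
    rw [← Finset.sum_image (f := g) (g := fun s => s - b) (by
      intro s hs s' hs' h
      rw [Finset.mem_coe, mem_filter] at hs hs'
      simp only at h
      omega)]
    apply Finset.sum_le_sum_of_subset_of_nonneg
    · intro t ht
      rw [mem_image] at ht
      obtain ⟨s, hs, rfl⟩ := ht
      rw [mem_filter, mem_Icc] at hs
      rw [mem_Icc]
      omega
    · intros
      exact hg _
  linarith

lemma ad_comm (a b : ℕ) : ad a b = ad b a := by unfold ad; rw [max_comm, min_comm]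

open Classical in
/-- double counting -/
lemma sum_prR (k T : ℕ) (H : Finset ℕ) (hH : H ⊆ range (T + 1)) (g : ℕ → ℝ) (hg : ∀ t, 0 ≤ g t) :
    ∑ S ∈ powersetCard (k + 1) (Icc 1 T), ∑ x ∈ prR H S, g (ad x.1 x.2) ≤
      2 * (H.card + 1) * ((T : ℝ) ^ k * ∑ t ∈ Icc 1 T, g t) := by
  have hsplit : ∀ S : Finset ℕ, ∑ x ∈ prR H S, g (ad x.1 x.2) ≤
      2 * ∑ x ∈ prs S, g (x.2 - x.1) + ∑ b ∈ H, ∑ s ∈ S.filter (fun s => s ≠ b), g (ad s b) := by
    intro S
    have e1 : prR H S ⊆ (S ×ˢ S).filter (fun x => x.1 ≠ x.2) ∪ (S ×ˢ H).filter (fun x => x.1 ≠ x.2) := by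
      intro x hx
      unfold prR at hx
      rw [mem_filter, mem_product, mem_union] at hx
      rw [mem_union, mem_filter, mem_filter, mem_product, mem_product]
      tauto
    have e2 : ∑ x ∈ prR H S, g (ad x.1 x.2) ≤ ∑ x ∈ (S ×ˢ S).filter (fun x => x.1 ≠ x.2), g (ad x.1 x.2) +
        ∑ x ∈ (S ×ˢ H).filter (fun x => x.1 ≠ x.2), g (ad x.1 x.2) := by
      refine (Finset.sum_le_sum_of_subset_of_nonneg e1 (fun _ _ _ => hg _)).trans ?_
      have := Finset.sum_union_inter (s₁ := (S ×ˢ S).filter (fun x => x.1 ≠ x.2))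
        (s₂ := (S ×ˢ H).filter (fun x => x.1 ≠ x.2)) (f := fun x : ℕ × ℕ => g (ad x.1 x.2))
      have h0 : 0 ≤ ∑ x ∈ (S ×ˢ S).filter (fun x => x.1 ≠ x.2) ∩ (S ×ˢ H).filter (fun x => x.1 ≠ x.2),
          g (ad x.1 x.2) := Finset.sum_nonneg fun _ _ => hg _
      linarith
    refine e2.trans (add_le_add ?_ ?_)
    · have e3 : (S ×ˢ S).filter (fun x => x.1 ≠ x.2) = prs S ∪ (prs S).image Prod.swap := by
        ext x
        unfold prs
        simp only [mem_filter, mem_product, mem_union, mem_image, Prod.exists, Prod.swap_prod_mk]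
        constructor
        · rintro ⟨⟨a1, a2⟩, a3⟩
          rcases Nat.lt_or_gt_of_ne a3 with h | h
          · exact Or.inl ⟨⟨a1, a2⟩, h⟩
          · exact Or.inr ⟨x.2, x.1, ⟨⟨a2, a1⟩, h⟩, rfl⟩
        · rintro (⟨⟨a1, a2⟩, a3⟩ | ⟨a, b, ⟨⟨a1, a2⟩, a3⟩, rfl⟩)
          · exact ⟨⟨a1, a2⟩, a3.ne⟩
          · exact ⟨⟨a2, a1⟩, a3.ne'⟩
      rw [e3, Finset.sum_union, Finset.sum_image, two_mul]
      · apply le_of_eq
        congr 1
        · apply Finset.sum_congr rfl
          intro x hx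
          unfold prs at hx
          rw [ad_of_lt (mem_filter.1 hx).2]
        · apply Finset.sum_congr rfl
          intro x hx
          unfold prs at hx
          rw [Prod.fst_swap, Prod.snd_swap, ad_of_gt (mem_filter.1 hx).2]
      · intro x _ x' _ h
        exact Prod.swap_injective h
      · rw [Finset.disjoint_left]
        intro x hx hx'
        unfold prs at hx hx'
        rw [mem_image] at hx'
        obtain ⟨z, hz, rfl⟩ := hx'
        rw [mem_filter] at hx hz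
        rw [Prod.fst_swap, Prod.snd_swap] at hx
        exact absurd (hx.2.trans hz.2) (lt_irrefl _)
    · rw [Finset.sum_filter, Finset.sum_product_right]
      apply le_of_eq
      apply Finset.sum_congr rfl
      intro b _
      rw [Finset.sum_filter]
  refine (Finset.sum_le_sum fun S _ => hsplit S).trans ?_
  rw [Finset.sum_add_distrib, ← Finset.mul_sum]
  have h1 := sum_prs k T g hg
  have h2 : ∑ S ∈ powersetCard (k + 1) (Icc 1 T), ∑ b ∈ H, ∑ s ∈ S.filter (fun s => s ≠ b), g (ad s b) ≤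
      H.card * ((T : ℝ) ^ k * (2 * ∑ t ∈ Icc 1 T, g t)) := by
    rw [Finset.sum_comm, ← nsmul_eq_mul, ← Finset.sum_const]
    apply Finset.sum_le_sum
    intro b hb
    have hbT : b ≤ T := by
      have := mem_range.1 (hH hb)
      omega
    have e : ∀ S ∈ powersetCard (k + 1) (Icc 1 T), ∑ s ∈ S.filter (fun s => s ≠ b), g (ad s b) =
        ∑ s ∈ (Icc 1 T).filter (fun s => s ≠ b), if s ∈ S then g (ad s b) else 0 := by
      intro S hS
      rw [mem_powersetCard] at hS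
      rw [← Finset.sum_filter, Finset.filter_filter]
      apply Finset.sum_congr _ (fun _ _ => rfl)
      ext s
      simp only [mem_filter]
      constructor
      · rintro ⟨a1, a2⟩
        exact ⟨hS.1 a1, a2, a1⟩
      · rintro ⟨_, a2, a1⟩
        exact ⟨a1, a2⟩
    rw [Finset.sum_congr rfl e, Finset.sum_comm]
    calc ∑ s ∈ (Icc 1 T).filter (fun s => s ≠ b), ∑ S ∈ powersetCard (k + 1) (Icc 1 T),
          (if s ∈ S then g (ad s b) else 0) ≤
        ∑ s ∈ (Icc 1 T).filter (fun s => s ≠ b), (T : ℝ) ^ k * g (ad s b) := by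
          apply Finset.sum_le_sum
          intro s _
          rw [← Finset.sum_filter, Finset.sum_const, nsmul_eq_mul]
          apply mul_le_mul_of_nonneg_right _ (hg _)
          exact_mod_cast card_one k T s
      _ = (T : ℝ) ^ k * ∑ s ∈ (Icc 1 T).filter (fun s => s ≠ b), g (ad s b) := by rw [Finset.mul_sum]
      _ ≤ _ := mul_le_mul_of_nonneg_left (sum_dist T b hbT g hg) (by positivity)
  have h3 : 2 * ∑ S ∈ powersetCard (k + 1) (Icc 1 T), ∑ x ∈ prs S, g (x.2 - x.1) ≤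
      2 * ((T : ℝ) ^ k * ∑ t ∈ Icc 1 T, g t) := mul_le_mul_of_nonneg_left h1 (by norm_num)
  calc _ ≤ 2 * ((T : ℝ) ^ k * ∑ t ∈ Icc 1 T, g t) + H.card * ((T : ℝ) ^ k * (2 * ∑ t ∈ Icc 1 T, g t)) :=
        add_le_add h3 h2
    _ = _ := by ring

open Classical in
/-- **The relative average of the singular series.** -/
theorem sing_rel (c a k : ℕ) (η : ℝ) (hη : 0 < η) (hη1 : η ≤ 1) (C : ℕ → ℝ) (hC : ∀ w, 0 ≤ C w) :
    ∃ (w : ℕ) (η' : ℝ) (T0 : ℕ), 0 < η' ∧ ∀ T : ℕ, T0 ≤ T → ∀ Q : ℕ → ℕ → Prop, PerB Q c →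
      (∀ p : ℕ, p.Prime → nuB Q p < p) → ∀ y : ℕ, w ≤ y →
      (∀ t ∈ Icc 1 T, ((((pz y).filter (fun p : ℕ => T < p ∧ CoG Q p t)).card : ℕ) : ℝ) ≤ η' * T) →
      ∀ H : Finset ℕ, H.card = a → H ⊆ range (T + 1) →
      ∀ W : Finset ℕ, W ⊆ Icc 1 T → Disjoint H W →
      (∀ w m : ℕ, |((W.filter (fun h => Sf Q w (m + h))).card : ℝ) - W.card * Vq Q w| ≤ C w) →
      |∑ S ∈ powersetCard (k + 1) W, Vq (QH Q (H ∪ S)) y -
        Vq (QH Q H) y * ((W.card * Vq Q y) ^ (k + 1) / (k + 1).factorial)| ≤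
        η * (Vq (QH Q H) y * ((T * Vq Q y) ^ (k + 1) / (k + 1).factorial)) := by
  obtain ⟨c1, B, w1, hc1, hw12, hW⟩ := W_low c
  obtain ⟨K, hK⟩ : ∃ K : ℕ, K = (1 + 2 * ((k + 1) * c)) ^ ((a + (k + 1)) ^ 2) - 1 := ⟨_, rfl⟩
  obtain ⟨A, hA⟩ : ∃ A : ℕ, A = 24 * (a + 1) * (K * c ^ 2 + 1) * (k + 1).factorial +
      ((a + (k + 1)) * c) ^ 2 := ⟨_, rfl⟩
  obtain ⟨w, hw0, hw2, hAw, hAw'⟩ := exists_w A B (k + 1) c1 (η / 4) hc1 (by positivity)
    (max w1 (2 * ((a + (k + 1)) * c)))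
  have hww1 : w1 ≤ w := (le_max_left _ _).trans hw0
  have hwc : 2 * ((a + (k + 1)) * c) ≤ w := (le_max_right _ _).trans hw0
  have hwc' : 2 * ((k + 1) * c) ≤ w := by
    refine le_trans ?_ hwc
    exact Nat.mul_le_mul_left 2 (Nat.mul_le_mul_right c (by omega))
  have hwr : (0 : ℝ) < w := by exact_mod_cast (by omega : 0 < w)
  obtain ⟨η1, hη1def⟩ : ∃ η1 : ℝ, η1 = ((K * c ^ 2 + 1 : ℕ) : ℝ) / w := ⟨_, rfl⟩
  have hη10 : 0 < η1 := by rw [hη1def]; positivity
  have hfac : (1 : ℝ) ≤ (k + 1).factorial := by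
    exact_mod_cast Nat.factorial_pos (k + 1)
  have ha1 : (1 : ℝ) ≤ a + 1 := by
    have : (0 : ℝ) ≤ a := Nat.cast_nonneg a
    linarith
  have hAge : 24 * (a + 1) * η1 * (k + 1).factorial ≤ (A : ℝ) / w := by
    rw [hη1def, le_div_iff₀ hwr]
    have : ((24 * (a + 1) * (K * c ^ 2 + 1) * (k + 1).factorial : ℕ) : ℝ) ≤ A := by
      exact_mod_cast (by omega : 24 * (a + 1) * (K * c ^ 2 + 1) * (k + 1).factorial ≤ A)
    refine le_trans (le_of_eq ?_) this
    push_cast
    field_simp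
  have hAge2 : (((a + (k + 1)) * c : ℕ) : ℝ) ^ 2 / w ≤ η / 4 := by
    refine le_trans ?_ hAw'
    apply div_le_div_of_nonneg_right _ hwr.le
    exact_mod_cast (by omega : ((a + (k + 1)) * c) ^ 2 ≤ A)
  have hη1le : η1 ≤ 1 := by
    have h1 : 24 * (a + 1) * η1 * (k + 1).factorial ≤ 1 := hAge.trans (hAw'.trans (by linarith))
    have h2 : 24 * η1 ≤ 24 * (a + 1) * η1 * (k + 1).factorial := by
      calc 24 * η1 = 24 * 1 * η1 * 1 := by ring
        _ ≤ 24 * (a + 1) * η1 * (k + 1).factorial := by gcongr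
    linarith
  obtain ⟨T1, hT1, havg⟩ := avg_sharp K (c ^ 2) w (by omega) η1 hη10 (by
    rw [hη1def]
    apply div_le_div_of_nonneg_right _ hwr.le
    push_cast
    linarith)
  obtain ⟨T2, hsmall⟩ := small_avgR k w (η / 4) (C w) (by positivity) (hC w)
  refine ⟨w, η1 / (K + 1), max T1 T2, by positivity, ?_⟩
  intro T hT Q hQ hadm y hwy hlarge H hHa hHT U hU hdis hwin
  have hT1' : T1 ≤ T := (le_max_left _ _).trans hT
  have hT2' : T2 ≤ T := (le_max_right _ _).trans hT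
  have s0 := hsmall T hT2' Q c hQ hadm H U hU (hwin w)
  obtain ⟨s1, s2⟩ := abs_le.1 s0
  have hWpos := Vq_pos Q hadm w
  obtain ⟨W, hWdef⟩ : ∃ W, W = Vq Q w := ⟨_, rfl⟩
  obtain ⟨V, hV⟩ : ∃ V, V = Vt Q w y := ⟨_, rfl⟩
  have hV0 : 0 ≤ V := by rw [hV]; exact Vt_nonneg Q w y
  obtain ⟨P, hP⟩ : ∃ P, P = Vq (QH Q H) w := ⟨_, rfl⟩
  have hP0 : 0 ≤ P := by rw [hP]; exact Vq_nonneg _ w
  obtain ⟨R, hR⟩ : ∃ R, R = Vt (QH Q H) w y := ⟨_, rfl⟩
  have hR0 : 0 ≤ R := by rw [hR]; exact Vt_nonneg _ w y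
  rw [← hWdef] at s1 s2 hWpos
  rw [← hP] at s1 s2
  rw [Vq_split Q w y hwy, Vq_split (QH Q H) w y hwy, ← hWdef, ← hV, ← hP, ← hR]
  have hT0 : (0 : ℝ) ≤ T := Nat.cast_nonneg T
  have hUT : (U.card : ℝ) ≤ T := by
    have := card_le_card hU
    rw [Nat.card_Icc, Nat.add_sub_cancel] at this
    exact_mod_cast this
  have e1 : ∀ x : ℝ, P * R * ((x * (W * V)) ^ (k + 1) / (k + 1).factorial) =
      R * V ^ (k + 1) * (P * ((x * W) ^ (k + 1) / (k + 1).factorial)) := by
    intro x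
    rw [← mul_assoc x, mul_pow (x * W) V]
    ring
  rw [e1, e1]
  obtain ⟨Z, hZ⟩ : ∃ Z : ℝ, Z = P * ((T * W) ^ (k + 1) / ((k + 1).factorial : ℝ)) := ⟨_, rfl⟩
  obtain ⟨z, hz⟩ : ∃ z : ℝ, z = P * ((U.card * W) ^ (k + 1) / ((k + 1).factorial : ℝ)) := ⟨_, rfl⟩
  obtain ⟨S, hS⟩ : ∃ S : ℝ, S = ∑ S ∈ powersetCard (k + 1) U, Vq (QH Q (H ∪ S)) w := ⟨_, rfl⟩
  have hzZ : z ≤ Z := by
    rw [hz, hZ]
    apply mul_le_mul_of_nonneg_left _ hP0
    apply div_le_div_of_nonneg_right _ (by positivity)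
    apply pow_le_pow_left₀ (by positivity)
    exact mul_le_mul_of_nonneg_right hUT hWpos.le
  have hz0 : 0 ≤ z := by rw [hz]; positivity
  rw [← hS, ← hz, ← hZ] at s1 s2
  rw [← hz, ← hZ]
  have hterm : ∀ S ∈ powersetCard (k + 1) U, Vq (QH Q (H ∪ S)) y =
      Vq (QH Q (H ∪ S)) w * Vt (QH Q (H ∪ S)) w y := fun S _ => Vq_split _ w y hwy
  have hRV : 0 ≤ R * V ^ (k + 1) := by positivity
  have hlow : R * V ^ (k + 1) * (1 - η / 4) * S ≤ ∑ S ∈ powersetCard (k + 1) U, Vq (QH Q (H ∪ S)) y := by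
    have h1 : ∀ S ∈ powersetCard (k + 1) U,
        R * V ^ (k + 1) * (1 - η / 4) * Vq (QH Q (H ∪ S)) w ≤ Vq (QH Q (H ∪ S)) y := by
      intro S hS
      rw [hterm S hS]
      rw [mem_powersetCard] at hS
      have h2 := tail_loR Q c hQ H S w y (by omega) (by rw [hS.2, hHa]; exact hwc)
      rw [hS.2, hHa, ← hV, ← hR] at h2
      have h3 : R * V ^ (k + 1) * (1 - η / 4) ≤ Vt (QH Q (H ∪ S)) w y := by
        refine le_trans ?_ h2
        apply mul_le_mul_of_nonneg_left _ hRV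
        linarith
      calc R * V ^ (k + 1) * (1 - η / 4) * Vq (QH Q (H ∪ S)) w ≤
            Vt (QH Q (H ∪ S)) w y * Vq (QH Q (H ∪ S)) w :=
            mul_le_mul_of_nonneg_right h3 (Vq_nonneg _ w)
        _ = _ := mul_comm _ _
    have h2 := Finset.sum_le_sum h1
    rw [← Finset.mul_sum, ← hS] at h2
    exact h2
  have hup : ∑ S ∈ powersetCard (k + 1) U, Vq (QH Q (H ∪ S)) y ≤ R * V ^ (k + 1) * (S + η / 4 * Z) := by
    have h1 : ∀ S ∈ powersetCard (k + 1) U, Vq (QH Q (H ∪ S)) y ≤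
        R * V ^ (k + 1) * (Vq (QH Q (H ∪ S)) w + P * ∑ x ∈ prR H S, (Fp Q K w y (ad x.1 x.2) - 1)) := by
      intro S hS
      rw [hterm S hS]
      rw [mem_powersetCard] at hS
      have hdS : Disjoint H S := Finset.disjoint_of_subset_right hS.1 hdis
      have h2 := tail_upR Q c hQ H S hdS w y (by rw [hS.2]; exact hwc')
      rw [hS.2, hHa, ← hV, ← hR, ← hK] at h2
      have h3 : 0 ≤ ∑ x ∈ prR H S, (Fp Q K w y (ad x.1 x.2) - 1) := by
        apply Finset.sum_nonneg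
        intro x _
        have := Fp_ge Q K w y (ad x.1 x.2)
        linarith
      have h4 := Vq_nonneg (QH Q (H ∪ S)) w
      have h5 : Vq (QH Q (H ∪ S)) w ≤ P := by
        rw [hP]
        exact Vq_anti' _ _ w fun p m ⟨h, hh, hq⟩ => ⟨h, mem_union_left _ hh, hq⟩
      calc Vq (QH Q (H ∪ S)) w * Vt (QH Q (H ∪ S)) w y ≤ Vq (QH Q (H ∪ S)) w * (R * V ^ (k + 1) *
            (1 + ∑ x ∈ prR H S, (Fp Q K w y (ad x.1 x.2) - 1))) := mul_le_mul_of_nonneg_left h2 h4
        _ = R * V ^ (k + 1) * (Vq (QH Q (H ∪ S)) w +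
            Vq (QH Q (H ∪ S)) w * ∑ x ∈ prR H S, (Fp Q K w y (ad x.1 x.2) - 1)) := by ring
        _ ≤ _ := by
          apply mul_le_mul_of_nonneg_left _ hRV
          have := mul_le_mul_of_nonneg_right h5 h3
          linarith
    have h2 := Finset.sum_le_sum h1
    rw [← Finset.mul_sum, Finset.sum_add_distrib, ← hS, ← Finset.mul_sum] at h2
    refine h2.trans ?_
    have h3 := sum_prR k T H hHT (fun t => Fp Q K w y t - 1) (fun t => by
      have := Fp_ge Q K w y t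
      linarith)
    have h4 := havg T hT1' (CoG Q) (coll_gen Q c hQ w) y (η1 / (K + 1)) (by positivity) (by
      rw [← mul_div_assoc, div_le_iff₀ (by positivity)]
      have : (0 : ℝ) ≤ K := Nat.cast_nonneg K
      nlinarith) hlarge
    have h5 : ∑ t ∈ Icc 1 T, (Fp Q K w y t - 1) ≤ 12 * η1 * T := by
      rw [Finset.sum_sub_distrib, Finset.sum_const, Nat.card_Icc, Nat.add_sub_cancel, nsmul_eq_mul,
        mul_one]
      have h6 := exp_bound η1 hη10.le hη1le
      have h7 := mul_le_mul_of_nonneg_right h6 hT0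
      unfold Fp
      linarith
    have hmono : ∑ S ∈ powersetCard (k + 1) U, ∑ x ∈ prR H S, (Fp Q K w y (ad x.1 x.2) - 1) ≤
        ∑ S ∈ powersetCard (k + 1) (Icc 1 T), ∑ x ∈ prR H S, (Fp Q K w y (ad x.1 x.2) - 1) := by
      apply Finset.sum_le_sum_of_subset_of_nonneg (Finset.powersetCard_mono hU)
      intro S _ _
      apply Finset.sum_nonneg
      intro x _
      have := Fp_ge Q K w y (ad x.1 x.2)
      linarith
    have h6 : P * ∑ S ∈ powersetCard (k + 1) (Icc 1 T), ∑ x ∈ prR H S, (Fp Q K w y (ad x.1 x.2) - 1) ≤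
        η / 4 * Z := by
      rw [hZ]
      have h7 : ∑ S ∈ powersetCard (k + 1) (Icc 1 T), ∑ x ∈ prR H S, (Fp Q K w y (ad x.1 x.2) - 1) ≤
          η / 4 * ((T * W) ^ (k + 1) / ((k + 1).factorial : ℝ)) := by
        calc _ ≤ 2 * (H.card + 1) * ((T : ℝ) ^ k * ∑ t ∈ Icc 1 T, (Fp Q K w y t - 1)) := h3
          _ ≤ 2 * (H.card + 1) * ((T : ℝ) ^ k * (12 * η1 * T)) := by
            apply mul_le_mul_of_nonneg_left _ (by positivity)
            exact mul_le_mul_of_nonneg_left h5 (by positivity)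
          _ = 24 * (a + 1) * η1 * (k + 1).factorial * (T ^ (k + 1) / (k + 1).factorial) := by
            rw [pow_succ, hHa]
            field_simp
            ring
          _ ≤ (η / 4 * (c1 / Real.log w ^ B) ^ (k + 1)) * (T ^ (k + 1) / (k + 1).factorial) := by
            apply mul_le_mul_of_nonneg_right (hAge.trans hAw) (by positivity)
          _ ≤ (η / 4 * W ^ (k + 1)) * (T ^ (k + 1) / (k + 1).factorial) := by
            apply mul_le_mul_of_nonneg_right _ (by positivity)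
            apply mul_le_mul_of_nonneg_left _ (by positivity)
            have hlog : 0 < Real.log w := Real.log_pos (by exact_mod_cast (by omega : 1 < w))
            apply pow_le_pow_left₀ (by positivity)
            rw [hWdef]
            exact hW w hww1 Q hQ hadm
          _ = _ := by
            rw [mul_pow]
            ring
      have h8 := mul_le_mul_of_nonneg_left h7 hP0
      refine h8.trans (le_of_eq ?_)
      ring
    apply mul_le_mul_of_nonneg_left _ hRV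
    have := mul_le_mul_of_nonneg_left hmono hP0
    linarith
  have hZ0 : 0 ≤ Z := hz0.trans hzZ
  have hη4 : η / 4 ≤ 1 := by linarith
  have hηZ : 0 ≤ η * Z := by positivity
  have hS0 : 0 ≤ S := by
    rw [hS]
    exact Finset.sum_nonneg fun _ _ => Vq_nonneg _ w
  rw [abs_le]
  constructor
  · have h1 : z - η * Z ≤ (1 - η / 4) * S := by
      have h2 : z - η / 4 * Z ≤ S := by linarith
      have h5 : η / 4 * Z ≤ 1 * Z := mul_le_mul_of_nonneg_right hη4 hZ0
      have h3 : η / 4 * S ≤ η / 4 * (2 * Z) := by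
        apply mul_le_mul_of_nonneg_left _ (by positivity)
        linarith
      linarith
    have h2 := mul_le_mul_of_nonneg_left h1 hRV
    have h3 : R * V ^ (k + 1) * (z - η * Z) = R * V ^ (k + 1) * z - η * (R * V ^ (k + 1) * Z) := by ring
    have h4 : R * V ^ (k + 1) * ((1 - η / 4) * S) = R * V ^ (k + 1) * (1 - η / 4) * S := by ring
    linarith
  · have h1 : S + η / 4 * Z ≤ z + η * Z := by linarith
    have h2 := mul_le_mul_of_nonneg_left h1 hRV
    have h3 : R * V ^ (k + 1) * (z + η * Z) = R * V ^ (k + 1) * z + η * (R * V ^ (k + 1) * Z) := by ring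
    linarith

end Pool.Agent.R463.EX
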