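import Pool.Agent.R463.EX3

set_option autoImplicit false

/-!
# The number of occurrences of an exact pattern of sifted integers
-/

namespace Pool.Agent.R463.EX

open Finset Filter Pool.Agent.H373R2.T7 Pool.Agent.W123.RP Pool.Agent.W123.RU Pool.Agent.TH464.PO
open Pool.Agent.R463.PP

open Classical in
/-- the number of the integers `Z < n ≤ Z + Y` for which the sifted integers in `[n, n + L]` are
exactly the integers `n + h`, `h ∈ H` -/
noncomputable def exN (Q : ℕ → ℕ → Prop) (H : Finset ℕ) (L y Z Y : ℕ) : ℕ :=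
  ((Icc (Z + 1) (Z + Y)).filter (fun n => ∀ h ≤ L, Sf Q y (n + h) ↔ h ∈ H)).card

lemma exp_sub_le (u v : ℝ) (hu : 0 ≤ u) (hv : 0 ≤ v) : |Real.exp (-u) - Real.exp (-v)| ≤ |u - v| := by
  have key : ∀ u v : ℝ, 0 ≤ u → u ≤ v → |Real.exp (-u) - Real.exp (-v)| ≤ |u - v| := by
    intro u v hu huv
    have h1 : Real.exp (-v) ≤ Real.exp (-u) := Real.exp_le_exp.2 (by linarith)
    rw [abs_of_nonneg (by linarith), abs_of_nonpos (by linarith)]
    have h2 := Real.add_one_le_exp (-(v - u))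
    have h3 : Real.exp (-v) = Real.exp (-u) * Real.exp (-(v - u)) := by
      rw [← Real.exp_add]
      congr 1
      ring
    have h4 : Real.exp (-u) ≤ 1 := Real.exp_le_one_iff.2 (by linarith)
    have h5 : 0 < Real.exp (-u) := Real.exp_pos _
    rw [h3]
    have h6 : Real.exp (-u) * (-(v - u) + 1) ≤ Real.exp (-u) * Real.exp (-(v - u)) :=
      mul_le_mul_of_nonneg_left h2 h5.le
    have h7 : Real.exp (-u) * (v - u) ≤ 1 * (v - u) := mul_le_mul_of_nonneg_right h4 (by linarith)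
    linarith
  rcases le_total u v with h | h
  · exact key u v hu h
  · rw [abs_sub_comm, abs_sub_comm u v]
    exact key v u hv h

open Classical in
lemma exN_zero (Q : ℕ → ℕ → Prop) (H : Finset ℕ) (L y Y : ℕ) (h0 : 0 ∈ H) (hL : H ⊆ range (L + 1)) :
    exN Q H L y 0 Y = ((OmH Q H y Y).filter (fun n => NX Q y (Icc 1 L \ H) n ∈ ({0} : Finset ℕ))).card := by
  unfold exN OmH
  rw [zero_add, zero_add, Finset.filter_filter]
  congr 1
  apply Finset.filter_congr
  intro n _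
  rw [sf_QH, mem_singleton]
  unfold NX
  rw [Finset.card_eq_zero, Finset.filter_eq_empty_iff]
  constructor
  · intro h
    refine ⟨fun x hx => (h x ?_).2 hx, fun x hx hs => ?_⟩
    · have := mem_range.1 (hL hx)
      omega
    · rw [Finset.mem_sdiff, mem_Icc] at hx
      exact hx.2 ((h x hx.1.2).1 hs)
  · rintro ⟨h1, h2⟩ x hx
    refine ⟨fun hs => ?_, fun hh => h1 x hh⟩
    by_contra hcon
    have hx0 : x ≠ 0 := by
      rintro rfl
      exact hcon h0
    exact h2 (Finset.mem_sdiff.2 ⟨mem_Icc.2 ⟨by omega, hx⟩, hcon⟩) hs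

open Classical in
lemma windowR (Q : ℕ → ℕ → Prop) (c : ℕ) (hQ : PerB Q c) (H : Finset ℕ) (w m T : ℕ) :
    |((((Icc 1 T \ H).filter (fun h => Sf Q w (m + h))).card : ℕ) : ℝ) - (Icc 1 T \ H).card * Vq Q w| ≤
      Mw w + 2 * H.card := by
  have h1 := window Q c hQ w m T
  have e1 : ((Icc 1 T).filter (fun h => Sf Q w (m + h))).card =
      ((Icc 1 T \ H).filter (fun h => Sf Q w (m + h))).card +
        ((Icc 1 T ∩ H).filter (fun h => Sf Q w (m + h))).card := by
    rw [← card_union_of_disjoint]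
    · rw [← Finset.filter_union, Finset.sdiff_union_inter]
    · exact Finset.disjoint_filter_filter (Finset.disjoint_sdiff_inter _ _)
  have e2 : T = (Icc 1 T \ H).card + (Icc 1 T ∩ H).card := by
    rw [Finset.card_sdiff_add_card_inter, Nat.card_Icc, Nat.add_sub_cancel]
  have h2 : ((Icc 1 T ∩ H).filter (fun h => Sf Q w (m + h))).card ≤ H.card :=
    (card_filter_le _ _).trans (card_le_card Finset.inter_subset_right)
  have h3 : (Icc 1 T ∩ H).card ≤ H.card := card_le_card Finset.inter_subset_right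
  have hV0 := Vq_nonneg Q w
  have hV1 := Vq_le_one Q w
  have e2r : (T : ℝ) = (Icc 1 T \ H).card + (Icc 1 T ∩ H).card := by exact_mod_cast e2
  have h2r : ((((Icc 1 T ∩ H).filter (fun h => Sf Q w (m + h))).card : ℕ) : ℝ) ≤ H.card := Nat.cast_le.2 h2
  have h2s : (0 : ℝ) ≤ ((((Icc 1 T ∩ H).filter (fun h => Sf Q w (m + h))).card : ℕ) : ℝ) := Nat.cast_nonneg _
  have h3r : ((Icc 1 T ∩ H).card : ℝ) ≤ H.card := Nat.cast_le.2 h3
  have h3s : (0 : ℝ) ≤ ((Icc 1 T ∩ H).card : ℝ) := Nat.cast_nonneg _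
  rw [e1] at h1
  push_cast at h1
  have h4 : (T : ℝ) * Vq Q w = (Icc 1 T \ H).card * Vq Q w + (Icc 1 T ∩ H).card * Vq Q w := by
    rw [e2r]
    ring
  have h5 : ((Icc 1 T ∩ H).card : ℝ) * Vq Q w ≤ H.card := by
    have h7 := mul_le_mul_of_nonneg_left hV1 h3s
    linarith
  have h6 : 0 ≤ ((Icc 1 T ∩ H).card : ℝ) * Vq Q w := mul_nonneg h3s hV0
  rw [h4] at h1
  obtain ⟨g1, g2⟩ := abs_le.1 h1
  rw [abs_le]
  constructor <;> linarith

open Classical in
/-- **The exact patterns**, in `[1, Y]`. -/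
theorem patt0 (c a : ℕ) (hc : 1 ≤ c) (ha : 1 ≤ a) (x0 ε : ℝ) (hε : 0 < ε) (hε1 : ε ≤ 1) :
    ∃ P : Par, ∀ (Q : ℕ → ℕ → Prop) (Y y : ℕ), Ok P c 1 Q Y y → ∀ H : Finset ℕ, H.card = a → 0 ∈ H →
      ∀ L : ℕ, H ⊆ range (L + 1) → L * Vq Q y ≤ x0 →
      (∀ T : ℕ, T * Vq Q y ≤ P.x1 → (T : ℝ) ^ P.R0 * √(Y : ℝ) ≤ P.κ * (Y * Vq (QH Q H) y)) →
      |(exN Q H L y 0 Y : ℝ) - Y * Vq (QH Q H) y * Real.exp (-(L * Vq Q y))| ≤
        ε * (Y * Vq (QH Q H) y) := by
  obtain ⟨z, hz⟩ : ∃ z : ℝ, z = max x0 1 := ⟨_, rfl⟩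
  have hz1 : 1 ≤ z := by rw [hz]; exact le_max_right _ _
  have hzx : x0 ≤ z := by rw [hz]; exact le_max_left _ _
  obtain ⟨K0, y0, T0, R0, η', hη', hlaw⟩ := lawR c a hc ha z (ε / 8) (by linarith) (by positivity)
    (by linarith) (fun w => Mw w + 2 * a) (fun w => by positivity)
  have har : (1 : ℝ) ≤ a := by exact_mod_cast ha
  obtain ⟨κ, hκ⟩ : ∃ κ : ℝ, κ = min (ε / (16 * a)) η' := ⟨_, rfl⟩
  have hκ0 : 0 < κ := by rw [hκ]; positivity
  have hκη : κ ≤ η' := by rw [hκ]; exact min_le_right _ _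
  have hκa : κ * a ≤ ε / 16 := by
    have : κ ≤ ε / (16 * a) := by rw [hκ]; exact min_le_left _ _
    rw [le_div_iff₀ (by positivity)] at this
    linarith
  have hκε : κ ≤ ε / 16 := by
    refine le_trans ?_ hκa
    nlinarith
  refine ⟨⟨K0, max y0 1, T0, R0, η', κ, z, le_max_right _ _, hη', hκ0, by linarith⟩, ?_⟩
  intro Q Y y hok H hHa h0 L hHL hLx hcond
  simp only at hcond
  have hper := hok.per
  have hadm := hok.adm
  have hy := hok.hy
  have hY := hok.hY
  have hVκ := hok.hV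
  have hT := hok.hT
  simp only at hy hY hVκ hT
  have hV0 : 0 < Vq Q y := Vq_pos Q hadm y
  obtain ⟨V, hV⟩ : ∃ V, V = Vq Q y := ⟨_, rfl⟩
  obtain ⟨M, hM⟩ : ∃ M : ℝ, M = Y * Vq (QH Q H) y := ⟨_, rfl⟩
  have hM0 : 0 ≤ M := by
    rw [hM]
    exact mul_nonneg (Nat.cast_nonneg _) (Vq_nonneg _ y)
  have hN0 : (0 : ℝ) ≤ ((OmH Q H y Y).card : ℝ) := Nat.cast_nonneg _
  -- the law for a window of length `T`
  have key : ∀ T : ℕ, κ ≤ T * Vq Q y → T * Vq Q y ≤ z → H ⊆ range (T + 1) →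
      |((OmH Q H y Y).card : ℝ) - M| ≤ ε / 8 * M ∧
      |(exN Q H T y 0 Y : ℝ) - (OmH Q H y Y).card * Real.exp (-((Icc 1 T \ H).card * Vq Q y))| ≤
        ε / 8 * (OmH Q H y Y).card := by
    intro T h1 h2 h3
    obtain ⟨t1, _, t3⟩ := hT T h1 h2
    have h4 := hlaw Y y T ((le_max_left _ _).trans hy) hY t1 Q hper hadm h2 t3 H hHa h3 (by
      refine (hcond T h2).trans ?_
      rw [← hM]
      exact mul_le_mul_of_nonneg_right hκη hM0) (Icc 1 T \ H) Finset.sdiff_subset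
      Finset.disjoint_sdiff (fun w m => by
        have := windowR Q c hper H w m T
        rw [hHa] at this
        exact this)
    rw [← hM] at h4
    refine ⟨h4.1, ?_⟩
    have h5 := h4.2 {0}
    rw [← exN_zero Q H T y Y h0 h3] at h5
    simpa using h5
  rw [← hM, ← hV]
  rw [← hV] at hLx key hV0 hVκ
  have hcardW : ∀ T : ℕ, (T : ℝ) - a ≤ (Icc 1 T \ H).card ∧ ((Icc 1 T \ H).card : ℝ) ≤ T := by
    intro T
    have e2 : (Icc 1 T \ H).card + (Icc 1 T ∩ H).card = T := by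
      rw [Finset.card_sdiff_add_card_inter, Nat.card_Icc, Nat.add_sub_cancel]
    have h3 : (Icc 1 T ∩ H).card ≤ a := by
      rw [← hHa]
      exact card_le_card Finset.inter_subset_right
    have e2r : ((Icc 1 T \ H).card : ℝ) + ((Icc 1 T ∩ H).card : ℝ) = T := by exact_mod_cast e2
    have h3r : ((Icc 1 T ∩ H).card : ℝ) ≤ a := by exact_mod_cast h3
    have h3s : (0 : ℝ) ≤ ((Icc 1 T ∩ H).card : ℝ) := Nat.cast_nonneg _
    constructor <;> linarith
  obtain ⟨N, hN⟩ : ∃ N : ℝ, N = ((OmH Q H y Y).card : ℝ) := ⟨_, rfl⟩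
  rw [← hN] at key hN0
  by_cases hcase : κ ≤ L * V
  · obtain ⟨k1, k2⟩ := key L hcase (hLx.trans hzx) hHL
    obtain ⟨c1, c2⟩ := hcardW L
    obtain ⟨w, hw⟩ : ∃ w : ℝ, w = ((Icc 1 L \ H).card : ℝ) := ⟨_, rfl⟩
    rw [← hw] at k2 c1 c2
    have hw0 : 0 ≤ w := by rw [hw]; exact Nat.cast_nonneg _
    have h1 := exp_sub_le (w * V) (L * V) (by positivity) (by positivity)
    have h2 : |w * V - L * V| ≤ ε / 16 := by
      rw [← sub_mul, abs_mul, abs_of_nonneg hV0.le, abs_of_nonpos (by linarith)]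
      have h3 : -(w - L) * V ≤ a * κ := mul_le_mul (by linarith) hVκ hV0.le (by linarith)
      linarith
    have hN2 : N ≤ 2 * M := by
      have h3 := (abs_le.1 k1).2
      nlinarith
    have he0 : 0 < Real.exp (-(w * V)) := Real.exp_pos _
    have he1 : Real.exp (-(w * V)) ≤ 1 := Real.exp_le_one_iff.2 (by
      have : 0 ≤ w * V := by positivity
      linarith)
    have e : (exN Q H L y 0 Y : ℝ) - M * Real.exp (-(L * V)) =
        ((exN Q H L y 0 Y : ℝ) - N * Real.exp (-(w * V))) + (N - M) * Real.exp (-(w * V)) +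
          M * (Real.exp (-(w * V)) - Real.exp (-(L * V))) := by ring
    rw [e]
    refine (abs_add_le _ _).trans ?_
    have h3 := abs_add_le ((exN Q H L y 0 Y : ℝ) - N * Real.exp (-(w * V))) ((N - M) * Real.exp (-(w * V)))
    have h4 : |(N - M) * Real.exp (-(w * V))| ≤ ε / 8 * M := by
      rw [abs_mul, abs_of_pos he0]
      calc |N - M| * Real.exp (-(w * V)) ≤ |N - M| * 1 := by gcongr
        _ ≤ _ := by linarith
    have h5 : |M * (Real.exp (-(w * V)) - Real.exp (-(L * V)))| ≤ M * (ε / 16) := by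
      rw [abs_mul, abs_of_nonneg hM0]
      exact mul_le_mul_of_nonneg_left (h1.trans h2) hM0
    have h6 : ε / 8 * N ≤ ε / 8 * (2 * M) := by gcongr
    have h7 : 0 ≤ ε * M := by positivity
    linarith
  · rw [not_le] at hcase
    obtain ⟨T, w1, w2, w3⟩ := exists_window V κ hV0 hVκ
    have hLT := w3 L hcase
    have hHT : H ⊆ range (T + 1) := hHL.trans (Finset.range_subset_range.2 (by omega))
    obtain ⟨k1, k2⟩ := key T w1 (w2.trans (by linarith)) hHT
    obtain ⟨c1, c2⟩ := hcardW T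
    obtain ⟨w, hw⟩ : ∃ w : ℝ, w = ((Icc 1 T \ H).card : ℝ) := ⟨_, rfl⟩
    rw [← hw] at k2 c1 c2
    have hw0 : 0 ≤ w := by rw [hw]; exact Nat.cast_nonneg _
    have hN2 : N ≤ 2 * M := by
      have h3 := (abs_le.1 k1).2
      nlinarith
    have hlow : (exN Q H T y 0 Y : ℝ) ≤ exN Q H L y 0 Y := by
      rw [exN_zero Q H T y Y h0 hHT, exN_zero Q H L y Y h0 hHL]
      have : ((OmH Q H y Y).filter (fun n => NX Q y (Icc 1 T \ H) n ∈ ({0} : Finset ℕ))).card ≤
          ((OmH Q H y Y).filter (fun n => NX Q y (Icc 1 L \ H) n ∈ ({0} : Finset ℕ))).card := by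
        apply card_le_card
        intro n hn
        rw [mem_filter, mem_singleton] at hn ⊢
        refine ⟨hn.1, ?_⟩
        have h5 : NX Q y (Icc 1 L \ H) n ≤ NX Q y (Icc 1 T \ H) n := by
          unfold NX
          apply card_le_card
          intro h hh
          rw [mem_filter, Finset.mem_sdiff, mem_Icc] at hh ⊢
          exact ⟨⟨⟨hh.1.1.1, hh.1.1.2.trans hLT⟩, hh.1.2⟩, hh.2⟩
        omega
      exact_mod_cast this
    have hup : (exN Q H L y 0 Y : ℝ) ≤ N := by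
      rw [exN_zero Q H L y Y h0 hHL, hN]
      exact_mod_cast card_filter_le _ _
    have hexpw : 1 - 2 * κ ≤ Real.exp (-(w * V)) := by
      have h1 := Real.add_one_le_exp (-(w * V))
      have h2 : w * V ≤ T * V := mul_le_mul_of_nonneg_right c2 hV0.le
      linarith
    have hexpL : 1 - κ ≤ Real.exp (-(L * V)) := by
      have h1 := Real.add_one_le_exp (-(L * V))
      linarith
    have hexpL1 : Real.exp (-(L * V)) ≤ 1 := Real.exp_le_one_iff.2 (by
      have : 0 ≤ L * V := by positivity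
      linarith)
    obtain ⟨q1, q2⟩ := abs_le.1 k1
    obtain ⟨r1, r2⟩ := abs_le.1 k2
    have h1 : N * (1 - 2 * κ) ≤ N * Real.exp (-(w * V)) := mul_le_mul_of_nonneg_left hexpw hN0
    have h2 : κ * N ≤ ε / 16 * (2 * M) := by
      apply mul_le_mul hκε hN2 hN0 (by positivity)
    have h3 : ε / 8 * N ≤ ε / 8 * (2 * M) := by gcongr
    have h4 : M * (1 - κ) ≤ M * Real.exp (-(L * V)) := mul_le_mul_of_nonneg_left hexpL hM0
    have h5 : M * Real.exp (-(L * V)) ≤ M * 1 := mul_le_mul_of_nonneg_left hexpL1 hM0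
    have h6 : M * κ ≤ M * (ε / 16) := mul_le_mul_of_nonneg_left hκε hM0
    have h7 : 0 ≤ ε * M := by positivity
    rw [abs_le]
    constructor
    · linarith
    · linarith

end Pool.Agent.R463.EX
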