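import Pool.Agent.R463.EX4
import Pool.Agent.R463.PP9

set_option autoImplicit false

/-!
# Exact patterns in all short intervals, uniformly in the sieve conditions
-/

namespace Pool.Agent.R463.EX

open Polynomial Finset Filter
open Pool.Agent.W123.RP Pool.Agent.H373R2.T7 Pool.Agent.W123.RU Pool.Agent.W123.RU.Poly
open Pool.Agent.TH464.PW Pool.Agent.TH464.PO Pool.Agent.Y879.GL Pool.Agent.R463.PP

open Classical in
lemma exN_Qt (Q : ℕ → ℕ → Prop) (H : Finset ℕ) (L y Z Y : ℕ) :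
    exN Q H L y Z Y = exN (Qt Q Z) H L y 0 Y := by
  unfold exN
  rw [zero_add, zero_add]
  symm
  apply Finset.card_bij (fun n _ => n + Z)
  · intro n hn
    rw [mem_filter, mem_Icc] at hn ⊢
    refine ⟨⟨by omega, by omega⟩, fun h hh => ?_⟩
    have h1 := hn.2 h hh
    rw [sf_Qt] at h1
    rw [show n + Z + h = n + h + Z by ring]
    exact h1
  · intro n _ n' _ h
    exact Nat.add_right_cancel h
  · intro n hn
    rw [mem_filter, mem_Icc] at hn
    refine ⟨n - Z, ?_, by omega⟩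
    rw [mem_filter, mem_Icc]
    refine ⟨⟨by omega, by omega⟩, fun h hh => ?_⟩
    rw [sf_Qt, show n - Z + h + Z = n + h by omega]
    exact hn.2 h hh

lemma Vq_QH_Qt (Q : ℕ → ℕ → Prop) (c : ℕ) (hQ : PerB Q c) (H : Finset ℕ) (Z y : ℕ) :
    Vq (QH (Qt Q Z) H) y = Vq (QH Q H) y := by
  rw [← Vq_Qt (QH Q H) _ (perB_QH Q c hQ H) Z y]
  apply le_antisymm
  · apply Vq_anti'
    rintro p m ⟨h, hh, hq⟩
    refine ⟨h, hh, ?_⟩
    unfold Qt
    rw [show m + h + Z = m + Z + h by ring]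
    exact hq
  · apply Vq_anti'
    rintro p m ⟨h, hh, hq⟩
    refine ⟨h, hh, ?_⟩
    unfold Qt at hq
    rw [show m + Z + h = m + h + Z by ring]
    exact hq

open Classical in
lemma ok_Qt (P : Par) (c : ℕ) (Q : ℕ → ℕ → Prop) (Y y Z : ℕ) (h : Ok P c 1 Q Y y) :
    Ok P c 1 (Qt Q Z) Y y := by
  have e := Vq_Qt Q c h.per Z y
  refine ⟨perB_Qt Q c h.per Z, fun p hp => by rw [nuB_Qt Q c h.per]; exact h.adm p hp,
    fun p hp hd => absurd (Nat.dvd_one.1 hd) hp.one_lt.ne', h.hy, h.hY, by rw [e]; exact h.hV,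
    by rw [e]; exact h.hsq, by rw [e]; exact h.hbd, ?_⟩
  intro T h1 h2
  rw [e] at h1 h2
  obtain ⟨a1, a2, a3⟩ := h.hT T h1 h2
  refine ⟨a1, a2, fun t ht => le_trans ?_ (a3 t ht)⟩
  have : ((pz y).filter (fun p : ℕ => T < p ∧ CoG (Qt Q Z) p t)).card ≤
      ((pz y).filter (fun p : ℕ => T < p ∧ CoG Q p t)).card := by
    apply card_le_card
    intro p hp
    rw [mem_filter] at hp ⊢
    refine ⟨hp.1, hp.2.1, ?_⟩
    obtain ⟨m, h3, h4⟩ := hp.2.2
    unfold Qt at h3 h4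
    exact ⟨m + Z, h3, by rw [show m + Z + t = m + t + Z by ring]; exact h4⟩
  exact_mod_cast this

open Classical in
/-- **The exact patterns**, in `(Z, Z + Y]`. -/
theorem patt (c a : ℕ) (hc : 1 ≤ c) (ha : 1 ≤ a) (x0 ε : ℝ) (hε : 0 < ε) :
    ∃ P : Par, ∀ (Q : ℕ → ℕ → Prop) (Y y : ℕ), Ok P c 1 Q Y y → ∀ Z : ℕ, ∀ H : Finset ℕ, H.card = a →
      0 ∈ H → ∀ L : ℕ, H ⊆ range (L + 1) → L * Vq Q y ≤ x0 →
      (∀ T : ℕ, T * Vq Q y ≤ P.x1 → (T : ℝ) ^ P.R0 * √(Y : ℝ) ≤ P.κ * (Y * Vq (QH Q H) y)) →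
      |(exN Q H L y Z Y : ℝ) - Y * Vq (QH Q H) y * Real.exp (-(L * Vq Q y))| ≤
        ε * (Y * Vq (QH Q H) y * Real.exp (-(L * Vq Q y))) := by
  obtain ⟨ε1, hε1⟩ : ∃ ε1 : ℝ, ε1 = min 1 (ε * Real.exp (-x0)) := ⟨_, rfl⟩
  have hex := Real.exp_pos (-x0)
  have hε10 : 0 < ε1 := by rw [hε1]; positivity
  obtain ⟨P, hP⟩ := patt0 c a hc ha x0 ε1 hε10 (by rw [hε1]; exact min_le_left _ _)
  refine ⟨P, ?_⟩
  intro Q Y y hok Z H hHa h0 L hHL hLx hcond
  have h1 := hP (Qt Q Z) Y y (ok_Qt P c Q Y y Z hok) H hHa h0 L hHL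
    (by rw [Vq_Qt Q c hok.per]; exact hLx) (by
      intro T hT
      rw [Vq_Qt Q c hok.per] at hT
      rw [Vq_QH_Qt Q c hok.per]
      exact hcond T hT)
  rw [← exN_Qt, Vq_Qt Q c hok.per, Vq_QH_Qt Q c hok.per] at h1
  refine h1.trans ?_
  have hM0 : 0 ≤ (Y : ℝ) * Vq (QH Q H) y := mul_nonneg (Nat.cast_nonneg _) (Vq_nonneg _ y)
  have h2 : ε1 ≤ ε * Real.exp (-(L * Vq Q y)) := by
    refine (show ε1 ≤ ε * Real.exp (-x0) by rw [hε1]; exact min_le_right _ _).trans ?_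
    apply mul_le_mul_of_nonneg_left _ hε.le
    exact Real.exp_le_exp.2 (by linarith)
  calc ε1 * (Y * Vq (QH Q H) y) ≤ ε * Real.exp (-(L * Vq Q y)) * (Y * Vq (QH Q H) y) :=
        mul_le_mul_of_nonneg_right h2 hM0
    _ = _ := by ring

open Classical in
lemma exN_eq_zero (Q : ℕ → ℕ → Prop) (c : ℕ) (hQ : PerB Q c) (H : Finset ℕ) (L y Z Y : ℕ)
    (hHL : H ⊆ range (L + 1)) (p : ℕ) (hp : p ∈ pz y) (hnu : nuB (QH Q H) p = p) :
    exN Q H L y Z Y = 0 := by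
  unfold exN
  rw [Finset.card_eq_zero, Finset.filter_eq_empty_iff]
  intro n _ hn
  have hp0 := (mem_pz.1 hp).2.pos
  have h1 : QH Q H p (n % p) := by
    have h2 : ((range p).filter (fun m => QH Q H p m)).card = (range p).card := by
      rw [card_range]
      have e : nuB (QH Q H) p = ((range p).filter (fun m => QH Q H p m)).card := by
        unfold nuB
        congr
      rw [← e, hnu]
    have h3 : (range p).filter (fun m => QH Q H p m) = range p :=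
      Finset.eq_of_subset_of_card_le (filter_subset _ _) h2.ge
    have h4 : n % p ∈ (range p).filter (fun m => QH Q H p m) := by
      rw [h3]
      exact mem_range.2 (Nat.mod_lt _ hp0)
    exact (mem_filter.1 h4).2
  rw [← (perB_QH Q c hQ H).per p n] at h1
  obtain ⟨h, hh, hq⟩ := h1
  have h5 := (hn h (by
    have := mem_range.1 (hHL hh)
    omega)).2 hh
  exact h5 p hp hq

open Classical in
/-- **The exact patterns, uniformly in the conditions.** -/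
theorem patt_unif (c a : ℕ) (hc : 1 ≤ c) (ha : 1 ≤ a) (x0 ε A δ θ : ℝ) (hε : 0 < ε) (hA : 0 < A)
    (hδ : 0 < δ) (hθ : 0 < θ) :
    ∃ r0 : ℕ, ∀ r : ℕ, r0 ≤ r → ∀ Cv : ℝ, ∀ᶠ X : ℕ in atTop, ∀ Q : ℕ → ℕ → Prop, PerB Q c →
      (∀ p : ℕ, p.Prime → nuB Q p < p) →
      Vq Q ⌊(X : ℝ) ^ (1 / (r : ℝ))⌋₊ ≤ Cv / Real.log X →
      (∀ t : ℕ, 1 ≤ t → (t : ℝ) ≤ (X : ℝ) ^ δ → ∃ R : ℕ, 0 < R ∧ (R : ℝ) ≤ (X : ℝ) ^ A ∧
        ∀ p : ℕ, p.Prime → t < p → CoG Q p t → p ∣ R) →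
      ∀ Y : ℕ, (X : ℝ) ^ θ ≤ Y → ∀ Z : ℕ, ∀ H : Finset ℕ, H.card = a → 0 ∈ H → ∀ L : ℕ,
        H ⊆ range (L + 1) → L * Vq Q ⌊(X : ℝ) ^ (1 / (r : ℝ))⌋₊ ≤ x0 →
        |(exN Q H L ⌊(X : ℝ) ^ (1 / (r : ℝ))⌋₊ Z Y : ℝ) - Y * Vq (QH Q H) ⌊(X : ℝ) ^ (1 / (r : ℝ))⌋₊ *
            Real.exp (-(L * Vq Q ⌊(X : ℝ) ^ (1 / (r : ℝ))⌋₊))| ≤
          ε * (Y * Vq (QH Q H) ⌊(X : ℝ) ^ (1 / (r : ℝ))⌋₊ *
            Real.exp (-(L * Vq Q ⌊(X : ℝ) ^ (1 / (r : ℝ))⌋₊))) := by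
  obtain ⟨P, hP⟩ := patt c a hc ha x0 ε hε
  obtain ⟨r0, hok⟩ := ok_unif c P A δ θ hA hδ hθ
  obtain ⟨v, hv, hV⟩ := V_lower_unif c
  obtain ⟨v', hv', hV'⟩ := V_lower_unif (a * c)
  refine ⟨max r0 2, ?_⟩
  intro r hr Cv
  have hr0 : r0 ≤ r := (le_max_left _ _).trans hr
  have hr2 : 2 ≤ r := (le_max_right _ _).trans hr
  have hrr : (2 : ℝ) ≤ r := by exact_mod_cast hr2
  have hrpos : (0 : ℝ) < r := by linarith
  have hx1 := P.hx1
  have hκ := P.hκ
  have hq0 : (0 : ℝ) < (P.x1 / v) ^ P.R0 / (P.κ * v') + 1 := by positivity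
  have hpow2 : Tendsto (fun X : ℕ => (X : ℝ) ^ (1 / (2 * r : ℝ))) atTop atTop :=
    (tendsto_rpow_atTop (by positivity)).comp tendsto_natCast_atTop_atTop
  filter_upwards [hok r hr0 Cv, eventually_ge_atTop 16,
    hpow2.eventually_ge_atTop (((a * c + 3 : ℕ)) : ℝ),
    logpow_rpow (c * P.R0 + a * c) ((P.x1 / v) ^ P.R0 / (P.κ * v') + 1) (θ / 2) hq0
      (by positivity)] with X hX hX16 hX1 hX2
  intro Q hQ hadm hVup hres Y hXY Z H hHa h0 L hHL hLx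
  have hX16r : (16 : ℝ) ≤ X := by exact_mod_cast hX16
  have hXpos : (0 : ℝ) < X := by linarith
  have hlX0 : 0 < Real.log X := Real.log_pos (by linarith)
  obtain ⟨hy1, hy2, hy3, hy4⟩ := level_low r hr2 X (by omega) (by
    refine le_trans ?_ hX1
    push_cast
    have : (0 : ℝ) ≤ a * c := by positivity
    linarith)
  have hok1 := hX Q hQ hadm hVup hres 1 (fun p hp hd => absurd (Nat.dvd_one.1 hd) hp.one_lt.ne') Y hXY
  obtain ⟨y, hy⟩ : ∃ y, y = ⌊(X : ℝ) ^ (1 / (r : ℝ))⌋₊ := ⟨_, rfl⟩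
  rw [← hy] at hy1 hy2 hy3 hy4 hVup hok1 hLx ⊢
  have hyr : ((a * c + 3 : ℕ) : ℝ) ≤ y := hX1.trans hy1
  have hyac : a * c + 3 ≤ y := by exact_mod_cast hyr
  have hlogy : 0 < Real.log y := lt_of_lt_of_le (by positivity) hy2
  have hperH := perB_QH Q c hQ H
  rw [hHa] at hperH
  by_cases hzero : ∀ p ∈ pz y, nuB (QH Q H) p < p
  · apply hP Q Y y hok1 Z H hHa h0 L hHL hLx
    intro T hT
    have hadmH : ∀ p : ℕ, p.Prime → nuB (QH Q H) p < p := by
      intro p hp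
      by_cases hpy : p ≤ y
      · exact hzero p (mem_pz.2 ⟨hpy, hp⟩)
      · have := hperH.few p hp
        omega
    have hVlow0 := hV Q hQ hadm y (by omega)
    have hVlow : v / Real.log X ^ c ≤ Vq Q y := by
      refine le_trans ?_ hVlow0
      apply div_le_div_of_nonneg_left hv.le (by positivity)
      exact pow_le_pow_left₀ hlogy.le hy3 c
    have hVHlow0 := hV' (QH Q H) hperH hadmH y (by omega)
    have hVHlow : v' / Real.log X ^ (a * c) ≤ Vq (QH Q H) y := by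
      refine le_trans ?_ hVHlow0
      apply div_le_div_of_nonneg_left hv'.le (by positivity)
      exact pow_le_pow_left₀ hlogy.le hy3 _
    have hTr0 : (0 : ℝ) ≤ T := Nat.cast_nonneg _
    have hTup : (T : ℝ) ≤ P.x1 / v * Real.log X ^ c := by
      have h3 : (T : ℝ) * (v / Real.log X ^ c) ≤ P.x1 :=
        (mul_le_mul_of_nonneg_left hVlow hTr0).trans hT
      rw [div_mul_eq_mul_div, le_div_iff₀ hv]
      have h4 := mul_le_mul_of_nonneg_right h3 (show 0 ≤ Real.log X ^ c by positivity)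
      have h5 : (T : ℝ) * (v / Real.log X ^ c) * Real.log X ^ c = T * v := by field_simp
      linarith
    have hsY : (X : ℝ) ^ (θ / 2) ≤ √(Y : ℝ) := by
      apply Real.le_sqrt_of_sq_le
      refine le_trans (le_of_eq ?_) hXY
      rw [← Real.rpow_natCast, ← Real.rpow_mul hXpos.le]
      congr 1
      push_cast
      ring
    have hs0 : 0 ≤ √(Y : ℝ) := Real.sqrt_nonneg _
    have hsq : √(Y : ℝ) * √(Y : ℝ) = Y := Real.mul_self_sqrt (Nat.cast_nonneg Y)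
    have hlc : 0 < Real.log X ^ (c * P.R0 + a * c) := by positivity
    have h6 : (P.x1 / v) ^ P.R0 * Real.log X ^ (c * P.R0) ≤
        √(Y : ℝ) * (P.κ * (v' / Real.log X ^ (a * c))) := by
      have h7 : (P.x1 / v) ^ P.R0 / (P.κ * v') * Real.log X ^ (c * P.R0 + a * c) ≤ √(Y : ℝ) := by
        refine le_trans ?_ (hX2.trans hsY)
        apply mul_le_mul_of_nonneg_right _ hlc.le
        linarith
      calc (P.x1 / v) ^ P.R0 * Real.log X ^ (c * P.R0) =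
            ((P.x1 / v) ^ P.R0 / (P.κ * v') * Real.log X ^ (c * P.R0 + a * c)) *
              (P.κ * (v' / Real.log X ^ (a * c))) := by
            rw [pow_add]
            field_simp
        _ ≤ √(Y : ℝ) * (P.κ * (v' / Real.log X ^ (a * c))) := by
            apply mul_le_mul_of_nonneg_right h7 (by positivity)
    calc (T : ℝ) ^ P.R0 * √(Y : ℝ) ≤ (P.x1 / v * Real.log X ^ c) ^ P.R0 * √(Y : ℝ) := by
          apply mul_le_mul_of_nonneg_right (pow_le_pow_left₀ hTr0 hTup _) hs0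
      _ = (P.x1 / v) ^ P.R0 * Real.log X ^ (c * P.R0) * √(Y : ℝ) := by rw [mul_pow, pow_mul]
      _ ≤ √(Y : ℝ) * (P.κ * (v' / Real.log X ^ (a * c))) * √(Y : ℝ) :=
          mul_le_mul_of_nonneg_right h6 hs0
      _ ≤ √(Y : ℝ) * (P.κ * Vq (QH Q H) y) * √(Y : ℝ) := by
          apply mul_le_mul_of_nonneg_right _ hs0
          apply mul_le_mul_of_nonneg_left _ hs0
          exact mul_le_mul_of_nonneg_left hVHlow hκ.le
      _ = P.κ * ((√(Y : ℝ) * √(Y : ℝ)) * Vq (QH Q H) y) := by ring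
      _ = _ := by rw [hsq]
  · push Not at hzero
    obtain ⟨p, hp, hnu⟩ := hzero
    have hnu' : nuB (QH Q H) p = p := le_antisymm (nuB_le _ p) hnu
    have hp0 : (0 : ℝ) < p := by exact_mod_cast (mem_pz.1 hp).2.pos
    have hV0 : Vq (QH Q H) y = 0 := by
      unfold Vq
      apply Finset.prod_eq_zero hp
      rw [hnu', div_self hp0.ne', sub_self]
    rw [exN_eq_zero Q c hQ H L y Z Y hHL p hp hnu', hV0]
    simp

end Pool.Agent.R463.EX
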