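import Pool.Agent.Y879.PR.Tup

set_option autoImplicit false

/-!
# Poisson law after primes `n` for a fixed system of linear forms `a i * n + b i`, one of them `n`
-/

namespace Pool.Agent.R463.LX

open Polynomial Finset Filter
open Pool.Agent.W123.RP Pool.Agent.H373R2.T7 Pool.Agent.W123.RU Pool.Agent.W123.RU.Poly
open Pool.Agent.TH464.PW Pool.Agent.TH464.PO Pool.Agent.Y879.AP Pool.Agent.Y879.GL Pool.Agent.Y879.PR

variable {k : ℕ}

/-- a system with the form `n` -/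
structure Lx (a b : Fin k → ℤ) : Prop where
  pos : ∀ i, 0 < a i
  inj : Function.Injective a
  cop : ∀ i, IsCoprime (a i) (b i)
  adm : ∀ p : ℕ, p.Prime → ∃ m : ℕ, ∀ i, ¬ (p : ℤ) ∣ a i * m + b i
  base : ∃ i, a i = 1 ∧ b i = 0

/-- no `a i * n + b i` has a prime factor `p ≤ N ^ (1 / r)` -/
def Gd (a b : Fin k → ℤ) (N r n : ℕ) : Prop :=
  ∀ p : ℕ, p.Prime → (p : ℝ) ≤ (N : ℝ) ^ (1 / (r : ℝ)) → ∀ i, ¬ (p : ℤ) ∣ a i * n + b i

open Classical in
/-- the number of the residues `n` modulo `p` with `p ∣ a i * n + b i` for some `i` -/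
noncomputable def nu (a b : Fin k → ℤ) (p : ℕ) : ℕ :=
  ((range p).filter (fun n : ℕ => ∃ i, (p : ℤ) ∣ a i * n + b i)).card

/-- the product of `1 - nu p / p` over the primes `p ≤ N ^ (1 / r)` -/
noncomputable def V (a b : Fin k → ℤ) (N r : ℕ) : ℝ :=
  ∏ p ∈ (Icc 1 ⌊(N : ℝ) ^ (1 / (r : ℝ))⌋₊).filter Nat.Prime, (1 - (nu a b p : ℝ) / p)

/-- the same, divided by the product of `1 - 1 / p` -/
noncomputable def W (a b : Fin k → ℤ) (N r : ℕ) : ℝ :=
  ∏ p ∈ (Icc 1 ⌊(N : ℝ) ^ (1 / (r : ℝ))⌋₊).filter Nat.Prime, (1 - (nu a b p : ℝ) / p) / (1 - 1 / (p : ℝ))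

open Classical in
/-- the primes `n` in `(A, A + L]` which are good -/
noncomputable def P (a b : Fin k → ℤ) (N r : ℕ) (A L : ℕ) : Finset ℕ :=
  (Ioc A (A + L)).filter (fun n => n.Prime ∧ Gd a b N r n)

open Classical in
/-- the number of the good `l` in `(n, n + T]` -/
noncomputable def Next (a b : Fin k → ℤ) (N r T n : ℕ) : ℕ := ((Ioc n (n + T)).filter (fun l => Gd a b N r l)).card

/-- the system -/
noncomputable def sy (a b : Fin k → ℤ) : Fin k → ℤ[X] := fun i => lf (a i) (b i)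

lemma sy_Q (a b : Fin k → ℤ) (p n : ℕ) : Q (sy a b) p n ↔ ∃ i, (p : ℤ) ∣ a i * n + b i := by
  unfold Q sy
  simp only [lf_eval]

lemma gd_iff (a b : Fin k → ℤ) (N r n : ℕ) :
    Gd a b N r n ↔ Sf (Q (sy a b)) ⌊(N : ℝ) ^ (1 / (r : ℝ))⌋₊ n := by
  unfold Gd Sf
  constructor
  · intro h p hp hq
    obtain ⟨hp1, hp2⟩ := mem_pz.1 hp
    rw [sy_Q] at hq
    obtain ⟨i, hi⟩ := hq
    exact h p hp2 ((Nat.le_floor_iff (by positivity)).1 hp1) i hi
  · intro h p hp hpr i hi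
    exact h p (mem_pz.2 ⟨Nat.le_floor hpr, hp⟩) ((sy_Q a b p n).2 ⟨i, hi⟩)

lemma V_eq (a b : Fin k → ℤ) (N r : ℕ) : V a b N r = Vq (Q (sy a b)) ⌊(N : ℝ) ^ (1 / (r : ℝ))⌋₊ := by
  classical
  unfold V Vq
  apply Finset.prod_congr rfl
  intro p _
  have : nu a b p = nuB (Q (sy a b)) p := by
    unfold nu nuB
    congr 1
    apply filter_congr
    intro n _
    exact (sy_Q a b p n).symm
  rw [this]

lemma W_eq (a b : Fin k → ℤ) (N r : ℕ) : W a b N r = V a b N r / Vz ⌊(N : ℝ) ^ (1 / (r : ℝ))⌋₊ := by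
  unfold W V Vz
  rw [Finset.prod_div_distrib]
  rfl

lemma P_eq (a b : Fin k → ℤ) (N r A L : ℕ) :
    P a b N r A L = Om 1 0 (Q (sy a b)) ⌊(N : ℝ) ^ (1 / (r : ℝ))⌋₊ A L := by
  classical
  unfold P Om
  apply filter_congr
  intro n _
  rw [gd_iff, one_mul, add_zero]

lemma Next_eq (a b : Fin k → ℤ) (N r T n : ℕ) :
    Next a b N r T n = Wc (Sf (Q (sy a b)) ⌊(N : ℝ) ^ (1 / (r : ℝ))⌋₊) n T := by
  classical
  unfold Next Wc
  congr 1
  apply filter_congr
  intro l _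
  exact gd_iff a b N r l

lemma hprod (z : ℝ) (hz : 0 ≤ z) (l : List ℕ) (h : ∀ p ∈ l, z ≤ (p : ℝ)) :
    z ^ l.length ≤ ((l.prod : ℕ) : ℝ) := by
  induction l with
  | nil => simp
  | cons a t ih =>
    rw [List.length_cons, pow_succ, List.prod_cons, Nat.cast_mul, mul_comm]
    exact mul_le_mul (h a (by simp)) (ih (fun p hp => h p (by simp [hp]))) (by positivity)
      (Nat.cast_nonneg _)

open Classical in
/-- **The Poisson law after primes `n`.** -/
theorem law (a b : Fin k → ℤ) (h : Lx a b) (θ δ : ℝ) (hθ : 0 < θ) (hδ : 0 < δ) (hδ1 : δ ≤ 1)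
    (x₀ ε : ℝ) (hε : 0 < ε) (hε1 : ε ≤ 1) :
    ∃ r₀ : ℕ, 2 ≤ r₀ ∧ ∀ r : ℕ, r₀ ≤ r → ∃ N₀ : ℕ, ∀ N : ℕ, N₀ ≤ N →
      (∀ n : ℕ, n ≤ N → Gd a b N r n → ∀ i, (a i * n + b i).natAbs.primeFactorsList.length ≤ r) ∧
      0 < V a b N r ∧ 0 < W a b N r ∧
      ∀ X : ℕ, (N : ℝ) ^ θ ≤ X → ∀ A L : ℕ, δ * X ≤ L → A + L ≤ X →
        |((P a b N r A L).card : ℝ) * Real.log X - L * W a b N r| ≤ ε * (L * W a b N r) ∧
        ∀ T : ℕ, T * V a b N r ≤ x₀ → ∀ B : Finset ℕ,
          |(((P a b N r A L).filter (fun n => Next a b N r T n ∈ B)).card : ℝ) -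
            (P a b N r A L).card * ∑ j ∈ B, Real.exp (-(T * V a b N r)) * (T * V a b N r) ^ j / j.factorial| ≤
              ε * (P a b N r A L).card := by
  obtain ⟨r0, hr0, hlaw⟩ := prime_full 1 k 1 squarefree_one 1 1 θ δ one_pos one_pos hθ hδ hδ1 x₀ ε hε hε1
  refine ⟨r0, hr0, ?_⟩
  intro r hr
  have hr2 : 2 ≤ r := hr0.trans hr
  have hrr : (2 : ℝ) ≤ r := by exact_mod_cast hr2
  obtain ⟨C, hC, hV⟩ := V_up_base 1 one_pos r hr2
  obtain ⟨H, hH⟩ : ∃ H : ℝ, H = ∑ i, (|(a i : ℝ)| + |(b i : ℝ)|) := ⟨_, rfl⟩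
  have hHi : ∀ i, |(a i : ℝ)| + |(b i : ℝ)| ≤ H := by
    intro i
    rw [hH]
    exact Finset.single_le_sum (f := fun i => |(a i : ℝ)| + |(b i : ℝ)|) (fun _ _ => by positivity)
      (mem_univ i)
  have hz : ∀ᶠ N : ℕ in atTop, max 2 (H + 1) ≤ (N : ℝ) ^ (1 / (r : ℝ)) :=
    ((tendsto_rpow_atTop (by positivity)).comp tendsto_natCast_atTop_atTop).eventually_ge_atTop _
  have hHN : ∀ᶠ N : ℕ in atTop, H ≤ (N : ℝ) := tendsto_natCast_atTop_atTop.eventually_ge_atTop _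
  obtain ⟨N0, hN0⟩ := eventually_atTop.1 ((hlaw r hr C).and (hV.and (hz.and (hHN.and (eventually_ge_atTop 2)))))
  refine ⟨N0, ?_⟩
  intro N hN
  obtain ⟨h1, h2, h3, h4, h5⟩ := hN0 N hN
  have hNr : (2 : ℝ) ≤ N := by exact_mod_cast h5
  have hz2 : (2 : ℝ) ≤ (N : ℝ) ^ (1 / (r : ℝ)) := (le_max_left _ _).trans h3
  have hzH : H + 1 ≤ (N : ℝ) ^ (1 / (r : ℝ)) := (le_max_right _ _).trans h3
  have hpow : ((N : ℝ) ^ (1 / (r : ℝ))) ^ r = N := by
    rw [← Real.rpow_natCast, ← Real.rpow_mul (by linarith), one_div, inv_mul_cancel₀ (by linarith),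
      Real.rpow_one]
  have hus : US k 1 ((N : ℝ) ^ (1 : ℝ)) ((N : ℝ) ^ (1 : ℝ)) (sy a b) := by
    rw [Real.rpow_one]
    apply us_lf k a b N N (fun i => (h.pos i).ne') h.cop
    · intro i
      have := hHi i
      have h0 : (0 : ℝ) ≤ |(b i : ℝ)| := abs_nonneg _
      linarith
    · intro i
      have := hHi i
      have h0 : (0 : ℝ) ≤ |(a i : ℝ)| := abs_nonneg _
      linarith
    · exact h.adm
    · intro i j t ht _
      constructor
      · rintro ⟨e1, e2⟩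
        have hij := h.inj e1
        subst hij
        have hp := h.pos i
        have ht' : (1 : ℤ) ≤ t := by exact_mod_cast ht
        have : a i * t = 0 := by linarith
        rcases mul_eq_zero.1 this with h0 | h0
        · omega
        · omega
      · rintro ⟨e1, _⟩
        have hp := h.pos i
        have hp' := h.pos j
        omega
  have hVpos : 0 < V a b N r := by
    rw [V_eq]
    exact Vq_pos _ (us_adm hus) _
  have hWpos : 0 < W a b N r := by
    rw [W_eq]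
    exact div_pos hVpos (Pool.Agent.H373R2.T7.Vz_pos _)
  refine ⟨?_, hVpos, hWpos, ?_⟩
  · intro n hn hg i
    by_cases h0 : (a i * n + b i).natAbs = 0
    · rw [h0]
      simp
    · have hz1 : (1 : ℝ) < (N : ℝ) ^ (1 / (r : ℝ)) := by linarith
      have hn' : (n : ℝ) ≤ N := by exact_mod_cast hn
      have habs : (((a i * n + b i).natAbs : ℕ) : ℝ) = |((a i : ℝ) * n + b i)| := by
        rw [Nat.cast_natAbs]
        push_cast
        rfl
      have hlt : (((a i * n + b i).natAbs : ℕ) : ℝ) < ((N : ℝ) ^ (1 / (r : ℝ))) ^ (r + 1) := by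
        rw [pow_succ, hpow, habs]
        have e1 : |((a i : ℝ) * n + b i)| ≤ |(a i : ℝ)| * n + |(b i : ℝ)| := by
          refine (abs_add_le _ _).trans ?_
          rw [abs_mul, Nat.abs_cast]
        have e2 : |(a i : ℝ)| * n ≤ |(a i : ℝ)| * N := mul_le_mul_of_nonneg_left hn' (abs_nonneg _)
        have e3 : |(b i : ℝ)| ≤ |(b i : ℝ)| * N := by
          have : (0 : ℝ) ≤ |(b i : ℝ)| := abs_nonneg _
          nlinarith
        have e4 : (|(a i : ℝ)| + |(b i : ℝ)|) * N ≤ H * N :=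
          mul_le_mul_of_nonneg_right (hHi i) (by linarith)
        have e5 : (H + 1) * N ≤ (N : ℝ) ^ (1 / (r : ℝ)) * N :=
          mul_le_mul_of_nonneg_right hzH (by linarith)
        nlinarith
      by_contra hcon
      rw [not_le] at hcon
      have hrough : ∀ p ∈ (a i * n + b i).natAbs.primeFactorsList, (N : ℝ) ^ (1 / (r : ℝ)) ≤ p := by
        intro p hp
        by_contra hc
        rw [not_le] at hc
        refine hg p (Nat.prime_of_mem_primeFactorsList hp) hc.le i ?_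
        exact Int.natCast_dvd.2 (Nat.dvd_of_mem_primeFactorsList hp)
      have h6 := hprod _ (by linarith) _ hrough
      rw [Nat.prod_primeFactorsList h0] at h6
      have h7 : ((N : ℝ) ^ (1 / (r : ℝ))) ^ (r + 1) ≤
          ((N : ℝ) ^ (1 / (r : ℝ))) ^ (a i * n + b i).natAbs.primeFactorsList.length :=
        pow_le_pow_right₀ hz1.le hcon
      linarith
  · intro X hX A L hL hAL
    obtain ⟨i0, hi1, hi2⟩ := h.base
    have hnu : ∀ p : ℕ, p.Prime → ¬ p ∣ 1 → 1 ≤ nuB (Q (sy a b)) p := by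
      intro p hp _
      refine nuB_pos_of _ p hp 0 (fun n => per (sy a b) p n) ?_
      rw [sy_Q]
      exact ⟨i0, by rw [hi1, hi2]; simp⟩
    have hfin := h1 (sy a b) 0 hus (Nat.coprime_one_left 0) (fun p n hp hp1 => by
        exact absurd (Nat.dvd_one.1 hp1) hp.one_lt.ne') ⟨i0, fun n => by
          unfold sy
          rw [lf_eval, hi1, hi2]
          push_cast
          ring⟩ (h2 _ hnu) (by
          push_cast
          positivity) X hX A L hL hAL
    rw [W_eq, V_eq]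
    rw [P_eq]
    refine ⟨hfin.1, ?_⟩
    intro T hT B
    have h8 := hfin.2 T hT B
    convert h8 using 5
    · apply filter_congr
      intro n _
      rw [Next_eq]

end Pool.Agent.R463.LX
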