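import Pool.Agent.R463.PL
import Pool.Agent.Y879.GL.Linear

set_option autoImplicit false

/-!
# Families of linear forms: inputs
-/

namespace Pool.Agent.R463.PS

open Polynomial Finset Filter
open Pool.Agent.W123.RP Pool.Agent.H373R2.T7 Pool.Agent.W123.RU Pool.Agent.W123.RU.Poly
open Pool.Agent.TH464.PW Pool.Agent.TH464.PO Pool.Agent.Y879.GL

variable {k : ℕ}

/-- the system of the linear forms `a i * n + b i` -/
noncomputable def ls (a b : Fin k → ℤ) : Fin k → ℤ[X] := fun i => lf (a i) (b i)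

/-- admissible families -/
def AdmL (a b : Fin k → ℤ) : Prop :=
  (∀ i, 0 < a i) ∧ ∀ p : ℕ, p.Prime → ∃ n : ℕ, ∀ i, ¬ (p : ℤ) ∣ a i * n + b i

lemma AdmL.cop {a b : Fin k → ℤ} (h : AdmL a b) (i : Fin k) : IsCoprime (a i) (b i) := by
  rw [Int.isCoprime_iff_gcd_eq_one]
  by_contra hne
  obtain ⟨p, hp, hpd⟩ := Nat.exists_prime_and_dvd hne
  obtain ⟨n, hn⟩ := h.2 p hp
  apply hn i
  have h1 : (p : ℤ) ∣ a i := (Int.natCast_dvd_natCast.2 hpd).trans (Int.gcd_dvd_left _ _)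
  have h2 : (p : ℤ) ∣ b i := (Int.natCast_dvd_natCast.2 hpd).trans (Int.gcd_dvd_right _ _)
  exact dvd_add (h1.mul_right _) h2

lemma ls_ne_neg {a b : Fin k → ℤ} (h : AdmL a b) (i j : Fin k) (t : ℤ) :
    ls a b i ≠ -(ls a b j).comp (X + C t) := by
  intro e
  unfold ls at e
  rw [lf_shift, lf_neg] at e
  have h1 := (lf_inj _ _ _ _ e).1
  have h2 := h.1 i
  have h3 := h.1 j
  omega

lemma ls_ne {a b : Fin k → ℤ} (i j : Fin k) (t : ℤ) (h : ¬ (a i = a j ∧ b i = b j + a j * t)) :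
    ls a b i ≠ (ls a b j).comp (X + C t) := by
  intro e
  unfold ls at e
  rw [lf_shift] at e
  exact h (lf_inj _ _ _ _ e)

/-- the family as a system -/
theorem lin_system {a b : Fin k → ℤ} (h : AdmL a b) (H U : ℝ) (ha : ∀ i, |((a i : ℤ) : ℝ)| ≤ H)
    (hb : ∀ i, |((b i : ℤ) : ℝ)| ≤ H)
    (htr : ∀ i j, ∀ t : ℕ, 1 ≤ t → (t : ℝ) ≤ U → ¬ (a i = a j ∧ b i = b j + a j * t)) :
    System 1 H U (ls a b) where
  irr := fun i => lf_irr _ _ (h.1 i).ne' (h.cop i)
  deg := fun i => by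
    have : (ls a b i).natDegree = 1 := lf_deg _ _ (h.1 i).ne'
    omega
  hgt := fun i n => by
    unfold ls
    rw [lf_coeff]
    split_ifs
    · exact hb i
    · exact ha i
    · simpa using (abs_nonneg _).trans (ha i)
  adm := fun p hp => by
    obtain ⟨n, hn⟩ := h.2 p hp
    refine ⟨n, fun i => ?_⟩
    unfold ls
    rw [lf_eval]
    exact hn i
  tr := fun i j t ht htU => ⟨ls_ne i j t (htr i j t ht htU), ls_ne_neg h i j t⟩

lemma ls_sift (a b : Fin k → ℤ) (X r n : ℕ) : Sifted (ls a b) X r n ↔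
    ∀ p : ℕ, p.Prime → (p : ℝ) ≤ (X : ℝ) ^ (1 / (r : ℝ)) → ∀ i, ¬ (p : ℤ) ∣ a i * n + b i := by
  unfold Sifted ls
  simp only [lf_eval]

lemma ls_om (a b : Fin k → ℤ) (p : ℕ) :
    om (ls a b) p = ((range p).filter (fun n : ℕ => ∃ i, (p : ℤ) ∣ a i * n + b i)).card := by
  classical
  unfold om ls
  congr 1
  ext n
  simp only [mem_filter, lf_eval]

/-- the exceptional shifts -/
noncomputable def exc (a b : Fin k → ℤ) : Finset ℕ :=
  (univ : Finset (Fin k × Fin k)).image (fun x => ((b x.1 - b x.2) / a x.2).toNat)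

lemma exc_card (a b : Fin k → ℤ) : (exc a b).card ≤ k * k := by
  unfold exc
  refine card_image_le.trans ?_
  rw [card_univ, Fintype.card_prod, Fintype.card_fin]

lemma exc_mem {a b : Fin k → ℤ} (h : AdmL a b) (i j : Fin k) (t : ℕ) (ht : t ∉ exc a b) :
    ¬ (a i = a j ∧ b i = b j + a j * t) := by
  rintro ⟨h1, h2⟩
  apply ht
  unfold exc
  rw [mem_image]
  refine ⟨(i, j), mem_univ _, ?_⟩
  have h3 := h.1 j
  have : b i - b j = a j * t := by omega
  simp only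
  rw [this, Int.mul_ediv_cancel_left _ h3.ne']
  simp

end Pool.Agent.R463.PS
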