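import Pool.Agent.R463.Lin2
import Pool.Agent.R463.Quad

set_option autoImplicit false

/-!
# Families of linear forms in arithmetic progressions
-/

namespace Pool.Agent.R463.LA

open Polynomial Finset Filter
open Pool.Agent.R463.PS Pool.Agent.H373R2.T7

variable {k : ℕ}

/-- for `n = q m + c` none of the `a i * n + b i` has a prime factor `p ≤ X ^ (1 / r)` -/
def GoodL (a b : Fin k → ℤ) (q c X r m : ℕ) : Prop :=
  ∀ p : ℕ, p.Prime → (p : ℝ) ≤ (X : ℝ) ^ (1 / (r : ℝ)) → ∀ i, ¬ (p : ℤ) ∣ a i * (q * m + c : ℤ) + b i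

/-- `0` for the prime factors of `q`, otherwise the number of the residues `n` modulo `p` for which `p` divides
some `a i * n + b i` -/
def nuL (a b : Fin k → ℤ) (q p : ℕ) : ℕ :=
  if p ∣ q then 0 else ((range p).filter (fun n : ℕ => ∃ i, (p : ℤ) ∣ a i * n + b i)).card

/-- the density -/
noncomputable def VL (a b : Fin k → ℤ) (q X r : ℕ) : ℝ :=
  ∏ p ∈ (Icc 1 ⌊(X : ℝ) ^ (1 / (r : ℝ))⌋₊).filter Nat.Prime, (1 - (nuL a b q p : ℝ) / p)

/-- the product of `1 - nu(p) / p` over the prime factors of `q` -/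
noncomputable def kapL (a b : Fin k → ℤ) (q : ℕ) : ℝ := ∏ p ∈ q.primeFactors, (1 - (nuL a b 1 p : ℝ) / p)

open Classical in
/-- the number of the good `m` in `(Z, Z + Y]` with fewer than `l` good integers in `[m - T, m)` -/
noncomputable def FarL (a b : Fin k → ℤ) (q c X r l T Z Y : ℕ) : ℕ :=
  ((Ioc Z (Z + Y)).filter (fun m => GoodL a b q c X r m ∧
    ((Ico (m - T) m).filter (fun n => GoodL a b q c X r n)).card < l)).card

/-- the coefficients -/
def ca (a : Fin k → ℤ) (q : ℕ) : Fin k → ℤ := fun i => a i * q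
/-- the coefficients -/
def cb (a b : Fin k → ℤ) (c : ℕ) : Fin k → ℤ := fun i => a i * c + b i

lemma val (a b : Fin k → ℤ) (q c : ℕ) (i : Fin k) (m : ℤ) :
    ca a q i * m + cb a b c i = a i * (q * m + c : ℤ) + b i := by
  unfold ca cb
  ring

lemma good_iff (a b : Fin k → ℤ) (q c X r n : ℕ) :
    GoodL a b q c X r n ↔ Sifted (ls (ca a q) (cb a b c)) X r n := by
  rw [ls_sift]
  unfold GoodL
  simp only [val]

lemma om_eq (a b : Fin k → ℤ) (q c p : ℕ) (hp : p.Prime) (hc : ∀ i, IsCoprime (q : ℤ) (a i * c + b i)) :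
    om (ls (ca a q) (cb a b c)) p = nuL a b q p := by
  classical
  rw [ls_om]
  simp only [val]
  unfold nuL
  split_ifs with hpq
  · rw [Finset.card_eq_zero, Finset.filter_eq_empty_iff]
    rintro m _ ⟨i, hd⟩
    have h1 : (p : ℤ) ∣ q := Int.natCast_dvd_natCast.2 hpq
    have h2 : (p : ℤ) ∣ a i * c + b i := by
      have e : a i * (q * m + c : ℤ) + b i = q * (a i * m) + (a i * c + b i) := by ring
      rw [e] at hd
      exact (dvd_add_right (h1.mul_right _)).1 hd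
    obtain ⟨u, v, huv⟩ := hc i
    have h3 : (p : ℤ) ∣ 1 := by
      rw [← huv]
      exact dvd_add (h1.mul_left _) (h2.mul_left _)
    have h4 : p ∣ 1 := by exact_mod_cast h3
    exact hp.one_lt.ne' (Nat.dvd_one.1 h4)
  · have hcop : Nat.Coprime p q := (Nat.Prime.coprime_iff_not_dvd hp).2 hpq
    have hmod : ∀ x y : ℤ, (p : ℤ) ∣ x - y → ∀ i, ((p : ℤ) ∣ a i * x + b i ↔ (p : ℤ) ∣ a i * y + b i) := by
      intro x y hxy i
      have h1 : (p : ℤ) ∣ (a i * x + b i) - (a i * y + b i) := by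
        rw [show (a i * x + b i) - (a i * y + b i) = (x - y) * a i by ring]
        exact hxy.mul_right _
      constructor
      · intro h
        have := dvd_sub h h1
        rwa [sub_sub_cancel] at this
      · intro h
        have := dvd_add h1 h
        rwa [sub_add_cancel] at this
    have hpp := hp.pos
    have hsub : ∀ m : ℕ, (p : ℤ) ∣ (((q * m + c) % p : ℕ) : ℤ) - (q * m + c) := by
      intro m
      have h1 := Nat.div_add_mod (q * m + c) p
      refine ⟨-(((q * m + c) / p : ℕ) : ℤ), ?_⟩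
      have h2 : ((p * ((q * m + c) / p) + (q * m + c) % p : ℕ) : ℤ) = ((q * m + c : ℕ) : ℤ) := by
        exact_mod_cast h1
      push_cast at h2 ⊢
      linarith
    apply card_bij (fun m _ => (q * m + c) % p)
    · intro m hm
      rw [mem_filter] at hm ⊢
      refine ⟨mem_range.2 (Nat.mod_lt _ hpp), ?_⟩
      obtain ⟨i, hi⟩ := hm.2
      exact ⟨i, (hmod _ _ (hsub m) i).2 hi⟩
    · intro m hm m' hm' he
      rw [mem_filter, mem_range] at hm hm'
      have h1 : q * m + c ≡ q * m' + c [MOD p] := he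
      have h2 : q * m ≡ q * m' [MOD p] := Nat.ModEq.add_right_cancel' _ h1
      exact Nat.ModEq.eq_of_lt_of_lt (Nat.ModEq.cancel_left_of_coprime hcop h2) hm.1 hm'.1
    · intro n hn
      rw [mem_filter, mem_range] at hn
      obtain ⟨x, hx⟩ := Pool.Agent.Y879.PR.exists_root q (c + (p - n)) p hp hpq
      have h1 : q * (x % p) + c ≡ n [MOD p] := by
        have h2 : q * (x % p) + (c + (p - n)) ≡ 0 [MOD p] :=
          (Nat.ModEq.add_right _ (Nat.ModEq.mul_left _ (Nat.mod_modEq x p))).trans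
            ((Nat.modEq_zero_iff_dvd).2 hx)
        have h3 : q * (x % p) + c + p ≡ 0 + n [MOD p] := by
          have h4 := Nat.ModEq.add_right n h2
          have e : q * (x % p) + (c + (p - n)) + n = q * (x % p) + c + p := by omega
          rwa [e] at h4
        rw [zero_add] at h3
        have h5 : q * (x % p) + c + p ≡ q * (x % p) + c [MOD p] := by
          unfold Nat.ModEq
          rw [Nat.add_mod_right]
        exact h5.symm.trans h3
      have h6 : (q * (x % p) + c) % p = n := by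
        have h7 : (q * (x % p) + c) % p = n % p := h1
        rw [h7, Nat.mod_eq_of_lt hn.1]
      refine ⟨x % p, ?_, h6⟩
      rw [mem_filter, mem_range]
      refine ⟨Nat.mod_lt _ hpp, ?_⟩
      obtain ⟨i, hi⟩ := hn.2
      refine ⟨i, ?_⟩
      apply (hmod _ _ (hsub (x % p)) i).1
      rw [h6]
      exact hi

lemma V_eq (a b : Fin k → ℤ) (q c X r : ℕ) (hc : ∀ i, IsCoprime (q : ℤ) (a i * c + b i)) :
    VL a b q X r = V (ls (ca a q) (cb a b c)) X r := by
  unfold VL V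
  apply prod_congr rfl
  intro p hp
  rw [om_eq a b q c p (mem_filter.1 hp).2 hc]

lemma Far_eq (a b : Fin k → ℤ) (q c X r l T Z Y : ℕ) :
    FarL a b q c X r l T Z Y = Far (ls (ca a q) (cb a b c)) X r l T Z Y := by
  classical
  unfold FarL Far
  congr 1
  apply filter_congr
  intro m _
  rw [good_iff]
  have : (Ico (m - T) m).filter (fun n => GoodL a b q c X r n) =
      (Ico (m - T) m).filter (fun n => Sifted (ls (ca a q) (cb a b c)) X r n) :=
    filter_congr fun n _ => good_iff a b q c X r n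
  rw [this]

lemma adm_ap {a b : Fin k → ℤ} (h : AdmL a b) (q c : ℕ) (hq : 1 ≤ q)
    (hc : ∀ i, IsCoprime (q : ℤ) (a i * c + b i)) : AdmL (ca a q) (cb a b c) := by
  have hqz : (1 : ℤ) ≤ q := by exact_mod_cast hq
  refine ⟨fun i => ?_, fun p hp => ?_⟩
  · unfold ca
    exact mul_pos (h.1 i) (by linarith)
  · simp only [val]
    by_cases hpq : p ∣ q
    · refine ⟨0, fun i hd => ?_⟩
      have h1 : (p : ℤ) ∣ q := Int.natCast_dvd_natCast.2 hpq
      have h2 : (p : ℤ) ∣ a i * c + b i := by simpa using hd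
      obtain ⟨u, v, huv⟩ := hc i
      have h3 : (p : ℤ) ∣ 1 := by
        rw [← huv]
        exact dvd_add (h1.mul_left _) (h2.mul_left _)
      have h4 : p ∣ 1 := by exact_mod_cast h3
      exact hp.one_lt.ne' (Nat.dvd_one.1 h4)
    · obtain ⟨n, hn⟩ := h.2 p hp
      obtain ⟨x, hx⟩ := Pool.Agent.Y879.PR.exists_root q (c + (p - n % p)) p hp hpq
      refine ⟨x, fun i hd => hn i ?_⟩
      have hlt := Nat.mod_lt n hp.pos
      have h1 : (p : ℤ) ∣ ((q * x + (c + (p - n % p)) : ℕ) : ℤ) := Int.natCast_dvd_natCast.2 hx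
      have h2 : ((q * x + (c + (p - n % p)) : ℕ) : ℤ) = (q * x + c : ℤ) + p - ((n % p : ℕ) : ℤ) := by
        push_cast [Nat.cast_sub hlt.le]
        ring
      have h3 : (p : ℤ) ∣ (n : ℤ) - ((n % p : ℕ) : ℤ) := by
        refine ⟨((n / p : ℕ) : ℤ), ?_⟩
        have := Nat.div_add_mod n p
        have h4 : ((p * (n / p) + n % p : ℕ) : ℤ) = n := by exact_mod_cast this
        push_cast at h4 ⊢
        linarith
      rw [h2] at h1
      have h4 : (p : ℤ) ∣ (q * x + c : ℤ) - n := by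
        have h5 := dvd_sub (dvd_sub h1 (dvd_refl (p : ℤ))) h3
        have e : ((q * x + c : ℤ) + p - ((n % p : ℕ) : ℤ)) - p - ((n : ℤ) - ((n % p : ℕ) : ℤ)) =
          (q * x + c : ℤ) - n := by ring
        rwa [e] at h5
      have h6 : a i * (n : ℤ) + b i = (a i * (q * x + c : ℤ) + b i) - a i * ((q * x + c : ℤ) - n) := by ring
      rw [h6]
      exact dvd_sub hd (h4.mul_left _)

/-- the height -/
noncomputable def ht (a b : Fin k → ℤ) : ℕ := ∑ i, ((a i).natAbs + (b i).natAbs)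

lemma ht_ge (a b : Fin k → ℤ) (i : Fin k) : (a i).natAbs + (b i).natAbs ≤ ht a b :=
  Finset.single_le_sum (f := fun i => (a i).natAbs + (b i).natAbs) (fun _ _ => Nat.zero_le _) (mem_univ i)

/-- the family in a progression as a system -/
theorem sysL {a b : Fin k → ℤ} (h : AdmL a b) (A X q c : ℕ) (hX : ht a b + 1 ≤ X) (hq : 1 ≤ q) (hqX : q ≤ X ^ A)
    (hcX : c ≤ X ^ A) (hc : ∀ i, IsCoprime (q : ℤ) (a i * c + b i)) (U : ℝ)
    (htr : ∀ i j, ∀ t : ℕ, 1 ≤ t → (t : ℝ) ≤ U → ¬ (a i = a j ∧ b i = b j + a j * q * t)) :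
    System 1 ((X : ℝ) ^ (((A + 1 : ℕ) : ℝ))) U (ls (ca a q) (cb a b c)) := by
  have hX1 : 1 ≤ X := by omega
  have hXA : 1 ≤ X ^ A := Nat.one_le_pow _ _ hX1
  have hkey : ∀ i, |ca a q i| ≤ (X : ℤ) ^ (A + 1) ∧ |cb a b c i| ≤ (X : ℤ) ^ (A + 1) := by
    intro i
    have h1 := ht_ge a b i
    have h2 : |a i| + |b i| ≤ (X : ℤ) := by
      have e : |a i| + |b i| = (((a i).natAbs + (b i).natAbs : ℕ) : ℤ) := by
        push_cast
        rfl
      rw [e]
      exact_mod_cast (by omega)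
    have h3 : (q : ℤ) ≤ (X : ℤ) ^ A := by exact_mod_cast hqX
    have h4 : (c : ℤ) ≤ (X : ℤ) ^ A := by exact_mod_cast hcX
    have h5 : (1 : ℤ) ≤ (X : ℤ) ^ A := by exact_mod_cast hXA
    have hq0 : (0 : ℤ) ≤ q := Int.natCast_nonneg q
    have hc0 : (0 : ℤ) ≤ c := Int.natCast_nonneg c
    have ha0 := abs_nonneg (a i)
    have hb0 := abs_nonneg (b i)
    have hpow : (X : ℤ) ^ (A + 1) = (X : ℤ) * (X : ℤ) ^ A := by ring
    obtain ⟨P, hP⟩ : ∃ P : ℤ, P = (X : ℤ) ^ A := ⟨_, rfl⟩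
    rw [hpow]
    rw [← hP] at h3 h4 h5 ⊢
    constructor
    · unfold ca
      rw [abs_mul, abs_of_nonneg hq0]
      exact mul_le_mul (by linarith) h3 hq0 (by positivity)
    · unfold cb
      refine (abs_add_le _ _).trans ?_
      rw [abs_mul, abs_of_nonneg hc0]
      have h6 : |a i| * (c : ℤ) ≤ |a i| * P := mul_le_mul_of_nonneg_left h4 ha0
      have h7 : |b i| * 1 ≤ |b i| * P := mul_le_mul_of_nonneg_left h5 hb0
      have h8 : (|a i| + |b i|) * P ≤ X * P := mul_le_mul_of_nonneg_right h2 (by linarith)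
      linarith
  refine lin_system (adm_ap h q c hq hc) _ _ (fun i => ?_) (fun i => ?_) (fun i j t ht htU => ?_)
  · rw [Real.rpow_natCast]
    exact_mod_cast (hkey i).1
  · rw [Real.rpow_natCast]
    exact_mod_cast (hkey i).2
  · rintro ⟨h1, h2⟩
    have hq0 : (q : ℤ) ≠ 0 := by exact_mod_cast (by omega : q ≠ 0)
    unfold ca at h1 h2
    unfold cb at h2
    have h3 : a i = a j := mul_right_cancel₀ hq0 h1
    refine htr i j t ht htU ⟨h3, ?_⟩
    rw [h3] at h2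
    linarith

lemma nuL_one (a b : Fin k → ℤ) (q p : ℕ) (hp : p.Prime) (hpq : ¬ p ∣ q) : nuL a b q p = nuL a b 1 p := by
  unfold nuL
  rw [if_neg hpq, if_neg (fun h => hp.one_lt.ne' (Nat.dvd_one.1 h))]

lemma nuL_lt {a b : Fin k → ℤ} (h : AdmL a b) (q p : ℕ) (hp : p.Prime) : nuL a b q p < p := by
  unfold nuL
  split_ifs
  · exact hp.pos
  · obtain ⟨n, hn⟩ := h.2 p hp
    have h1 : (range p).filter (fun n : ℕ => ∃ i, (p : ℤ) ∣ a i * n + b i) ⊂ range p := by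
      rw [Finset.filter_ssubset]
      refine ⟨n % p, mem_range.2 (Nat.mod_lt _ hp.pos), ?_⟩
      rintro ⟨i, hd⟩
      apply hn i
      have h3 : (p : ℤ) ∣ (n : ℤ) - ((n % p : ℕ) : ℤ) := by
        refine ⟨((n / p : ℕ) : ℤ), ?_⟩
        have := Nat.div_add_mod n p
        have h4 : ((p * (n / p) + n % p : ℕ) : ℤ) = n := by exact_mod_cast this
        push_cast at h4 ⊢
        linarith
      have h6 : a i * (n : ℤ) + b i = (a i * ((n % p : ℕ) : ℤ) + b i) + a i * ((n : ℤ) - ((n % p : ℕ) : ℤ)) := by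
        ring
      rw [h6]
      exact dvd_add hd (h3.mul_left _)
    simpa using card_lt_card h1

lemma fac_pos {a b : Fin k → ℤ} (h : AdmL a b) (q p : ℕ) (hp : p.Prime) : 0 < 1 - (nuL a b q p : ℝ) / p := by
  have hp0 : (0 : ℝ) < p := by exact_mod_cast hp.pos
  rw [sub_pos, div_lt_one hp0]
  exact_mod_cast nuL_lt h q p hp

lemma fac_le (a b : Fin k → ℤ) (q p : ℕ) : 1 - (nuL a b q p : ℝ) / p ≤ 1 := by
  have : (0 : ℝ) ≤ (nuL a b q p : ℝ) / p := by positivity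
  linarith

lemma V_pos {a b : Fin k → ℤ} (h : AdmL a b) (q X r : ℕ) : 0 < VL a b q X r := by
  unfold VL
  exact prod_pos (fun p hp => fac_pos h q p (mem_filter.1 hp).2)

/-- comparison of the densities -/
lemma V_kap {a b : Fin k → ℤ} (h : AdmL a b) (q X r : ℕ) (hq : 1 ≤ q) :
    VL a b q X r * kapL a b q ≤ VL a b 1 X r := by
  classical
  obtain ⟨S, hS⟩ : ∃ S : Finset ℕ, S = (Icc 1 ⌊(X : ℝ) ^ (1 / (r : ℝ))⌋₊).filter Nat.Prime := ⟨_, rfl⟩
  have hSp : ∀ p ∈ S, p.Prime := fun p hp => by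
    rw [hS] at hp
    exact (mem_filter.1 hp).2
  unfold VL kapL
  rw [← hS]
  have h1 : ∏ p ∈ q.primeFactors, (1 - (nuL a b 1 p : ℝ) / p) ≤
      ∏ p ∈ S.filter (fun p => p ∣ q), (1 - (nuL a b 1 p : ℝ) / p) := by
    have hsub : S.filter (fun p => p ∣ q) ⊆ q.primeFactors := by
      intro p hp
      rw [mem_filter] at hp
      exact Nat.mem_primeFactors.2 ⟨hSp p hp.1, hp.2, by omega⟩
    rw [← prod_sdiff hsub]
    have h3 : ∏ p ∈ q.primeFactors \ S.filter (fun p => p ∣ q), (1 - (nuL a b 1 p : ℝ) / p) ≤ 1 :=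
      prod_le_one (fun p hp => (fac_pos h 1 p (Nat.prime_of_mem_primeFactors (mem_sdiff.1 hp).1)).le)
        (fun p _ => fac_le a b 1 p)
    have h4 : 0 ≤ ∏ p ∈ S.filter (fun p => p ∣ q), (1 - (nuL a b 1 p : ℝ) / p) :=
      prod_nonneg (fun p hp => (fac_pos h 1 p (hSp p (mem_filter.1 hp).1)).le)
    calc _ ≤ 1 * ∏ p ∈ S.filter (fun p => p ∣ q), (1 - (nuL a b 1 p : ℝ) / p) :=
          mul_le_mul_of_nonneg_right h3 h4
      _ = _ := one_mul _
  have h2 : ∏ p ∈ S, (1 - (nuL a b q p : ℝ) / p) =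
      ∏ p ∈ S.filter (fun p => ¬ p ∣ q), (1 - (nuL a b 1 p : ℝ) / p) := by
    rw [← prod_filter_mul_prod_filter_not S (fun p => p ∣ q) (fun p => (1 - (nuL a b q p : ℝ) / p))]
    have h3 : ∏ p ∈ S.filter (fun p => p ∣ q), (1 - (nuL a b q p : ℝ) / p) = 1 := by
      apply prod_eq_one
      intro p hp
      unfold nuL
      rw [if_pos (mem_filter.1 hp).2]
      simp
    rw [h3, one_mul]
    apply prod_congr rfl
    intro p hp
    rw [mem_filter] at hp
    rw [nuL_one a b q p (hSp p hp.1) hp.2]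
  rw [h2]
  have h3 : 0 ≤ ∏ p ∈ S.filter (fun p => ¬ p ∣ q), (1 - (nuL a b 1 p : ℝ) / p) :=
    prod_nonneg (fun p hp => (fac_pos h 1 p (hSp p (mem_filter.1 hp).1)).le)
  calc (∏ p ∈ S.filter (fun p => ¬ p ∣ q), (1 - (nuL a b 1 p : ℝ) / p)) *
        ∏ p ∈ q.primeFactors, (1 - (nuL a b 1 p : ℝ) / p) ≤
      (∏ p ∈ S.filter (fun p => ¬ p ∣ q), (1 - (nuL a b 1 p : ℝ) / p)) *
        ∏ p ∈ S.filter (fun p => p ∣ q), (1 - (nuL a b 1 p : ℝ) / p) :=
        mul_le_mul_of_nonneg_left h1 h3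
    _ = ∏ p ∈ S, (1 - (nuL a b 1 p : ℝ) / p) := by
        rw [mul_comm, prod_filter_mul_prod_filter_not]

/-- the order of magnitude of the density -/
theorem V_order {a b : Fin k → ℤ} (h : AdmL a b) (i : Fin k) (hi : a i = 1) (r : ℕ) (hr : 2 ≤ r) :
    ∃ C : ℝ, 0 < C ∧ ∀ B : ℝ, 0 < B →
    ∀ᶠ X : ℕ in atTop, ∀ q : ℕ, 1 ≤ q → 1 ≤ B * kapL a b q → VL a b q X r ≤ B * C / Real.log X := by
  obtain ⟨C, hC, hV⟩ := Vz_le r hr
  refine ⟨C, hC, fun B hB => ?_⟩
  filter_upwards [hV] with X hX q hq hk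
  have h1 : VL a b 1 X r ≤ C / Real.log X := by
    refine le_trans (le_of_eq ?_) ((V_le_Vz (ls a b) X r (fun p hp => om_monic i hi p hp)).trans hX)
    unfold VL V
    apply prod_congr rfl
    intro p hp
    rw [ls_om]
    unfold nuL
    rw [if_neg (fun h => (mem_filter.1 hp).2.one_lt.ne' (Nat.dvd_one.1 h))]
  have h2 := V_kap h q X r hq
  calc VL a b q X r = VL a b q X r * 1 := (mul_one _).symm
    _ ≤ VL a b q X r * (B * kapL a b q) := mul_le_mul_of_nonneg_left hk (V_pos h q X r).le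
    _ = B * (VL a b q X r * kapL a b q) := by ring
    _ ≤ B * (C / Real.log X) := mul_le_mul_of_nonneg_left (h2.trans h1) hB.le
    _ = B * C / Real.log X := by ring

/-- **The gap laws for linear forms in progressions.** -/
theorem gapsL {a b : Fin k → ℤ} (h : AdmL a b) (i₀ : Fin k) (hi₀ : a i₀ = 1) (A : ℕ) (θ : ℝ) (hθ : 0 < θ)
    (l₀ : ℕ) (x₀ ε : ℝ) (hε : 0 < ε) :
    ∃ r₀ : ℕ, 2 ≤ r₀ ∧ ∀ r : ℕ, r₀ ≤ r → ∀ B : ℝ, 0 < B → ∀ᶠ X : ℕ in atTop, ∀ q c : ℕ, 1 ≤ q → q ≤ X ^ A →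
      c ≤ X ^ A → (∀ i, IsCoprime (q : ℤ) (a i * c + b i)) → (∀ i j, b i - b j < q) → 1 ≤ B * kapL a b q →
      ∀ Z Y : ℕ, (X : ℝ) ^ θ ≤ Y → ∀ l T : ℕ, (l ≤ l₀ ∨ T * VL a b q X r ≤ x₀) →
        |(FarL a b q c X r l T Z Y : ℝ) - Y * VL a b q X r *
          ∑ j ∈ range l, Real.exp (-(T * VL a b q X r)) * (T * VL a b q X r) ^ j / j.factorial| ≤
          ε * (Y * VL a b q X r) := by
  obtain ⟨r₀, hg⟩ := gaps k 1 (((A + 1 : ℕ) : ℝ)) 1 θ (by positivity) one_pos hθ l₀ x₀ ε hε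
  refine ⟨max r₀ 2, le_max_right _ _, fun r hr B hB => ?_⟩
  obtain ⟨C, hC, hV⟩ := V_order h i₀ hi₀ r ((le_max_right _ _).trans hr)
  filter_upwards [hg r ((le_max_left _ _).trans hr) (B * C), hV B hB, eventually_ge_atTop (ht a b + 1)]
    with X h1 h2 h3 q c hq hqX hcX hcop hbq hk Z Y hY l T hT
  have hVq := h2 q hq hk
  rw [V_eq a b q c X r hcop] at hVq hT ⊢
  rw [Far_eq]
  refine h1 _ (sysL h A X q c h3 hq hqX hcX hcop _ (fun i j t ht _ => ?_)) hVq Z Y hY l T hT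
  rintro ⟨e1, e2⟩
  have h4 := hbq i j
  have ha := h.1 j
  have hq0 : (1 : ℤ) ≤ q := by exact_mod_cast hq
  have ht0 : (1 : ℤ) ≤ t := by exact_mod_cast ht
  have h5 : (q : ℤ) ≤ a j * q * t := by
    have h6 : (q : ℤ) * 1 ≤ q * (a j * t) := mul_le_mul_of_nonneg_left (by nlinarith) (by linarith)
    nlinarith
  linarith

open Classical in
/-- **Regular points for linear forms in progressions.** -/
theorem regL {a b : Fin k → ℤ} (h : AdmL a b) (i₀ : Fin k) (hi₀ : a i₀ = 1) (A : ℕ) (θ : ℝ) (hθ : 0 < θ) :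
    ∃ r₀ : ℕ, 2 ≤ r₀ ∧ ∀ r : ℕ, r₀ ≤ r → ∀ B : ℝ, 0 < B → ∀ ε : ℝ, 0 < ε → ∃ κ : ℝ, 0 < κ ∧
      ∀ δ : ℝ, 0 < δ → ∃ D : ℕ, ∀ᶠ X : ℕ in atTop, ∀ q c : ℕ, 1 ≤ q → q ≤ X ^ A →
      c ≤ X ^ A → (∀ i, IsCoprime (q : ℤ) (a i * c + b i)) → 1 ≤ B * kapL a b q →
      ∀ u Y : ℕ, (X : ℝ) ^ θ ≤ Y → Y ≤ X → Y ≤ u →
      ∀ S : Set ℕ, (∀ m ∈ S, GoodL a b q c X r m) →
        (((Ioc u (u + Y)).filter (fun m => m ∈ S ∧ ¬ Regular S (VL a b q X r) κ δ D Y m)).card : ℝ) ≤
          ε * (Y * VL a b q X r) := by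
  obtain ⟨r₀, hr₀, hg⟩ := regular k 1 (k * k) (((A + 1 : ℕ) : ℝ)) 1 θ (by positivity) one_pos hθ
  refine ⟨r₀, hr₀, fun r hr B hB ε hε => ?_⟩
  obtain ⟨C, hC, hV⟩ := V_order h i₀ hi₀ r (hr₀.trans hr)
  obtain ⟨κ, hκ, h1⟩ := hg r hr (B * C) (by positivity) ε hε
  refine ⟨κ, hκ, fun δ hδ => ?_⟩
  obtain ⟨D, h2⟩ := h1 δ hδ
  refine ⟨D, ?_⟩
  filter_upwards [h2, hV B hB, eventually_ge_atTop (ht a b + 1)]
    with X h1 h2 h3 q c hq hqX hcX hcop hk u Y hY hYX hYu S hS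
  have hVq := h2 q hq hk
  rw [V_eq a b q c X r hcop] at hVq ⊢
  have hadm := adm_ap h q c hq hcop
  exact h1 _ (sysL h A X q c h3 hq hqX hcX hcop 0 (fun i j t ht ht0 => by
      have : (1 : ℝ) ≤ t := by exact_mod_cast ht
      linarith)) (exc (ca a q) (cb a b c)) (exc_card _ _)
    (fun i j t ht _ htE => ⟨ls_ne i j t (exc_mem hadm i j t htE), ls_ne_neg hadm i j t⟩) hVq u Y hY hYX hYu S
    (fun m hm => (good_iff a b q c X r m).1 (hS m hm))

end Pool.Agent.R463.LA
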