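import Pool.Agent.R463.LinAP

set_option autoImplicit false

/-!
# Families of linear forms in arithmetic progressions, all moduli
-/

namespace Pool.Agent.R463.LA

open Polynomial Finset Filter
open Pool.Agent.R463.PS Pool.Agent.H373R2.T7

variable {k : ℕ}

lemma exists_rootZ (a b : ℤ) (p : ℕ) (hp : p.Prime) (h : ¬ (p : ℤ) ∣ a) :
    ∃ n : ℕ, n < p ∧ (p : ℤ) ∣ a * n + b := by
  have hp0 : (0 : ℤ) < p := by exact_mod_cast hp.pos
  have hpp : Prime (p : ℤ) := Nat.prime_iff_prime_int.1 hp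
  obtain ⟨u, v, huv⟩ := (hpp.coprime_iff_not_dvd.2 h)
  have h1 : ((((-b * v) % p).toNat : ℕ) : ℤ) = (-b * v) % p := Int.toNat_of_nonneg (Int.emod_nonneg _ hp0.ne')
  refine ⟨((-b * v) % p).toNat, ?_, ?_⟩
  · have := Int.emod_lt_of_pos (-b * v) hp0
    omega
  · rw [h1]
    have h2 := Int.emod_add_mul_ediv (-b * v) p
    refine ⟨b * u - a * ((-b * v) / p), ?_⟩
    have h3 : (-b * v) % p = -b * v - p * ((-b * v) / p) := by linarith
    rw [h3]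
    have h4 : v * a = 1 - u * p := by linarith
    calc a * (-b * v - p * ((-b * v) / p)) + b = -b * (v * a) - a * p * ((-b * v) / p) + b := by ring
      _ = p * (b * u - a * ((-b * v) / p)) := by
        rw [h4]
        ring

/-- two non-proportional forms have different roots -/
lemma two_le (a b : Fin k → ℤ) (i j : Fin k) (q p : ℕ) (hp : p.Prime) (hq : ¬ p ∣ q)
    (hi : ¬ (p : ℤ) ∣ a i) (hj : ¬ (p : ℤ) ∣ a j) (hd : ¬ (p : ℤ) ∣ a i * b j - a j * b i) :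
    2 ≤ nuL a b q p := by
  classical
  unfold nuL
  rw [if_neg hq]
  obtain ⟨n, hn, hn1⟩ := exists_rootZ (a i) (b i) p hp hi
  obtain ⟨m, hm, hm1⟩ := exists_rootZ (a j) (b j) p hp hj
  have hne : n ≠ m := by
    rintro rfl
    apply hd
    have h1 : a i * b j - a j * b i = a i * (a j * n + b j) - a j * (a i * n + b i) := by ring
    rw [h1]
    exact dvd_sub (hm1.mul_left _) (hn1.mul_left _)
  rw [← card_pair hne]
  apply card_le_card
  intro x hx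
  rw [mem_insert, mem_singleton] at hx
  rw [mem_filter, mem_range]
  rcases hx with rfl | rfl
  · exact ⟨hn, i, hn1⟩
  · exact ⟨hm, j, hm1⟩

/-- the order of magnitude of the density, all moduli -/
theorem V_two {a b : Fin k → ℤ} (h : AdmL a b) (i j : Fin k) (hij : a i * b j ≠ a j * b i) (A : ℕ) (r : ℕ)
    (hr : 2 ≤ r) : ∃ M : ℝ, 0 < M ∧ ∀ᶠ X : ℕ in atTop, ∀ q c : ℕ, 1 ≤ q → q ≤ X ^ A →
      (∀ i, IsCoprime (q : ℤ) (a i * c + b i)) → VL a b q X r ≤ M / Real.log X := by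
  classical
  obtain ⟨M, hM, hV⟩ := Pool.Agent.Y879.GL.V2_up ((A : ℝ) + 1) (by positivity) r hr
  obtain ⟨N, hN⟩ : ∃ N : ℕ, N = (a i * a j * (a i * b j - a j * b i)).natAbs := ⟨_, rfl⟩
  have hN0 : 1 ≤ N := by
    rw [hN, Nat.one_le_iff_ne_zero, Ne, Int.natAbs_eq_zero]
    exact mul_ne_zero (mul_ne_zero (h.1 i).ne' (h.1 j).ne') (sub_ne_zero.2 hij)
  refine ⟨M, hM, ?_⟩
  filter_upwards [hV, eventually_ge_atTop N] with X hX hXN q c hq hqX hc
  have hX1 : 1 ≤ X := hN0.trans hXN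
  rw [V_eq a b q c X r hc, Pool.Agent.R463.PS.V_eq]
  have e : ∀ p : ℕ, p.Prime → nuB (Pool.Agent.W123.RU.Poly.Q (ls (ca a q) (cb a b c))) p =
      nuL a b q p := by
    intro p hp
    rw [← om_eq a b q c p hp hc]
    unfold om nuB Pool.Agent.W123.RU.Poly.Q
    congr
  refine hX _ (q * N) ?_ ?_ ?_ ?_
  · intro p hp
    rw [e p hp]
    exact nuL_lt h q p hp
  · exact Nat.mul_pos hq hN0
  · push_cast
    have h1 : (q : ℝ) ≤ (X : ℝ) ^ (A : ℝ) := by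
      rw [Real.rpow_natCast]
      exact_mod_cast hqX
    have h2 : (N : ℝ) ≤ X := by exact_mod_cast hXN
    have hX0 : (0 : ℝ) < X := by exact_mod_cast hX1
    rw [Real.rpow_add hX0, Real.rpow_one]
    exact mul_le_mul h1 h2 (Nat.cast_nonneg _) (by positivity)
  · intro p hp hpD
    rw [e p hp]
    have hp2 : ¬ (p : ℤ) ∣ a i * a j * (a i * b j - a j * b i) := by
      intro hd
      apply hpD
      rw [← Int.natCast_dvd_natCast, Nat.cast_mul, hN, Int.natCast_natAbs]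
      exact Dvd.dvd.mul_left ((dvd_abs _ _).2 hd) _
    exact two_le a b i j q p hp (fun hd => hpD (hd.mul_right _))
      (fun hd => hp2 ((hd.mul_right _).mul_right _)) (fun hd => hp2 ((hd.mul_left _).mul_right _))
      (fun hd => hp2 (hd.mul_left _))

/-- **The gap laws for linear forms in progressions, all moduli.** -/
theorem gapsM {a b : Fin k → ℤ} (h : AdmL a b) (i₀ j₀ : Fin k) (hij : a i₀ * b j₀ ≠ a j₀ * b i₀) (A : ℕ)
    (θ : ℝ) (hθ : 0 < θ) (l₀ : ℕ) (x₀ ε : ℝ) (hε : 0 < ε) :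
    ∃ r₀ : ℕ, 2 ≤ r₀ ∧ ∀ r : ℕ, r₀ ≤ r → ∀ᶠ X : ℕ in atTop, ∀ q c : ℕ, 1 ≤ q → q ≤ X ^ A →
      c ≤ X ^ A → (∀ i, IsCoprime (q : ℤ) (a i * c + b i)) → (∀ i j, a i = a j → b i - b j < q * a j) →
      ∀ Z Y : ℕ, (X : ℝ) ^ θ ≤ Y → ∀ l T : ℕ, (l ≤ l₀ ∨ T * VL a b q X r ≤ x₀) →
        |(FarL a b q c X r l T Z Y : ℝ) - Y * VL a b q X r *
          ∑ j ∈ range l, Real.exp (-(T * VL a b q X r)) * (T * VL a b q X r) ^ j / j.factorial| ≤
          ε * (Y * VL a b q X r) := by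
  obtain ⟨r₀, hg⟩ := gaps k 1 (((A + 1 : ℕ) : ℝ)) 1 θ (by positivity) one_pos hθ l₀ x₀ ε hε
  refine ⟨max r₀ 2, le_max_right _ _, fun r hr => ?_⟩
  obtain ⟨C, hC, hV⟩ := V_two h i₀ j₀ hij A r ((le_max_right _ _).trans hr)
  filter_upwards [hg r ((le_max_left _ _).trans hr) C, hV, eventually_ge_atTop (ht a b + 1)]
    with X h1 h2 h3 q c hq hqX hcX hcop hbq Z Y hY l T hT
  have hVq := h2 q c hq hqX hcop
  rw [V_eq a b q c X r hcop] at hVq hT ⊢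
  rw [Far_eq]
  refine h1 _ (sysL h A X q c h3 hq hqX hcX hcop _ (fun i j t ht _ => ?_)) hVq Z Y hY l T hT
  rintro ⟨e1, e2⟩
  have h4 := hbq i j e1
  have ha := h.1 j
  have hq0 : (1 : ℤ) ≤ q := by exact_mod_cast hq
  have ht0 : (1 : ℤ) ≤ t := by exact_mod_cast ht
  have h5 : (q : ℤ) * a j * 1 ≤ q * a j * t := mul_le_mul_of_nonneg_left ht0 (by positivity)
  have h6 : b i - b j = q * a j * t := by
    rw [e2]
    ring
  linarith

open Classical in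
/-- **Regular points for linear forms in progressions, all moduli.** -/
theorem regM {a b : Fin k → ℤ} (h : AdmL a b) (i₀ j₀ : Fin k) (hij : a i₀ * b j₀ ≠ a j₀ * b i₀) (A : ℕ)
    (θ : ℝ) (hθ : 0 < θ) :
    ∃ r₀ : ℕ, 2 ≤ r₀ ∧ ∀ r : ℕ, r₀ ≤ r → ∀ ε : ℝ, 0 < ε → ∃ κ : ℝ, 0 < κ ∧
      ∀ δ : ℝ, 0 < δ → ∃ D : ℕ, ∀ᶠ X : ℕ in atTop, ∀ q c : ℕ, 1 ≤ q → q ≤ X ^ A →
      c ≤ X ^ A → (∀ i, IsCoprime (q : ℤ) (a i * c + b i)) →
      ∀ u Y : ℕ, (X : ℝ) ^ θ ≤ Y → Y ≤ X → Y ≤ u →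
      ∀ S : Set ℕ, (∀ m ∈ S, GoodL a b q c X r m) →
        (((Ioc u (u + Y)).filter (fun m => m ∈ S ∧ ¬ Regular S (VL a b q X r) κ δ D Y m)).card : ℝ) ≤
          ε * (Y * VL a b q X r) := by
  obtain ⟨r₀, hr₀, hg⟩ := regular k 1 (k * k) (((A + 1 : ℕ) : ℝ)) 1 θ (by positivity) one_pos hθ
  refine ⟨r₀, hr₀, fun r hr ε hε => ?_⟩
  obtain ⟨C, hC, hV⟩ := V_two h i₀ j₀ hij A r (hr₀.trans hr)
  obtain ⟨κ, hκ, h1⟩ := hg r hr C hC ε hε
  refine ⟨κ, hκ, fun δ hδ => ?_⟩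
  obtain ⟨D, h2⟩ := h1 δ hδ
  refine ⟨D, ?_⟩
  filter_upwards [h2, hV, eventually_ge_atTop (ht a b + 1)]
    with X h1 h2 h3 q c hq hqX hcX hcop u Y hY hYX hYu S hS
  have hVq := h2 q c hq hqX hcop
  rw [V_eq a b q c X r hcop] at hVq ⊢
  have hadm := adm_ap h q c hq hcop
  exact h1 _ (sysL h A X q c h3 hq hqX hcX hcop 0 (fun i j t ht ht0 => by
      have : (1 : ℝ) ≤ t := by exact_mod_cast ht
      linarith)) (exc (ca a q) (cb a b c)) (exc_card _ _)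
    (fun i j t ht _ htE => ⟨ls_ne i j t (exc_mem hadm i j t htE), ls_ne_neg hadm i j t⟩) hVq u Y hY hYX hYu S
    (fun m hm => (good_iff a b q c X r m).1 (hS m hm))

end Pool.Agent.R463.LA
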