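import Pool.Agent.R463.LinT

set_option autoImplicit false

/-!
# Tuples in arithmetic progressions, uniformly in the shifts
-/

namespace Pool.Agent.R463.LT

open Finset Filter
open Pool.Agent.R463.PS Pool.Agent.R463.LA

/-- the order of magnitude of the density, uniformly -/
theorem V_up (A : ℕ) (r : ℕ) (hr : 2 ≤ r) : ∃ M : ℝ, 0 < M ∧ ∀ᶠ X : ℕ in atTop, ∀ H : Finset ℕ, 2 ≤ H.card →
    (∀ h ∈ H, h ≤ X ^ A) → (∀ p : ℕ, p.Prime → ∃ n : ℕ, ∀ h ∈ H, ¬ p ∣ n + h) → ∀ q c : ℕ, 1 ≤ q → q ≤ X ^ A →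
      (∀ h ∈ H, Nat.Coprime q (c + h)) → V H q X r ≤ M / Real.log X := by
  classical
  obtain ⟨M, hM, hV⟩ := Pool.Agent.Y879.GL.V2_up ((A : ℝ) + A + 1) (by positivity) r hr
  refine ⟨M, hM, ?_⟩
  filter_upwards [hV, eventually_ge_atTop 1] with X hX hX1 H hH hHX hadm q c hq hqX hc
  have h := adm_H H hadm
  have hc' := cop_H H q c hc
  obtain ⟨x, hx, y, hy, hxy⟩ := Finset.one_lt_card.1 (by omega : 1 < H.card)
  obtain ⟨i, hi⟩ : ∃ i, (H.orderEmbOfFin rfl i : ℕ) = x := by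
    have : x ∈ Set.range (H.orderEmbOfFin rfl) := by
      rw [H.range_orderEmbOfFin rfl]
      exact hx
    exact this
  obtain ⟨j, hj⟩ : ∃ j, (H.orderEmbOfFin rfl j : ℕ) = y := by
    have : y ∈ Set.range (H.orderEmbOfFin rfl) := by
      rw [H.range_orderEmbOfFin rfl]
      exact hy
    exact this
  have hbi : en H i = x := by
    unfold en
    rw [hi]
  have hbj : en H j = y := by
    unfold en
    rw [hj]
  obtain ⟨N, hN⟩ : ∃ N : ℕ, N = ((y : ℤ) - x).natAbs := ⟨_, rfl⟩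
  have hN0 : 1 ≤ N := by
    rw [hN, Nat.one_le_iff_ne_zero, Ne, Int.natAbs_eq_zero]
    have : (x : ℤ) ≠ y := by exact_mod_cast hxy
    omega
  have hNX : N ≤ X ^ A := by
    have h1 := hHX x hx
    have h2 := hHX y hy
    rw [hN]
    omega
  rw [V_eq', LA.V_eq (on H) (en H) q c X r hc', PS.V_eq]
  have e : ∀ p : ℕ, p.Prime → Pool.Agent.H373R2.T7.nuB (Pool.Agent.W123.RU.Poly.Q (ls (ca (on H) q)
      (cb (on H) (en H) c))) p = nuL (on H) (en H) q p := by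
    intro p hp
    rw [← LA.om_eq (on H) (en H) q c p hp hc']
    unfold om Pool.Agent.H373R2.T7.nuB Pool.Agent.W123.RU.Poly.Q
    congr
  refine hX _ (q * N) ?_ ?_ ?_ ?_
  · intro p hp
    rw [e p hp]
    exact nuL_lt h q p hp
  · exact Nat.mul_pos hq hN0
  · push_cast
    have h1 : (q : ℝ) ≤ (X : ℝ) ^ (A : ℝ) := by
      rw [Real.rpow_natCast]
      exact_mod_cast hqX
    have h2 : (N : ℝ) ≤ (X : ℝ) ^ (A : ℝ) := by
      rw [Real.rpow_natCast]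
      exact_mod_cast hNX
    have hXr : (1 : ℝ) ≤ X := by exact_mod_cast hX1
    have hX0 : (0 : ℝ) < X := by linarith
    rw [Real.rpow_add hX0, Real.rpow_add hX0, Real.rpow_one]
    have h3 : (0 : ℝ) ≤ (X : ℝ) ^ (A : ℝ) := by positivity
    calc (q : ℝ) * N ≤ (X : ℝ) ^ (A : ℝ) * (X : ℝ) ^ (A : ℝ) := mul_le_mul h1 h2 (Nat.cast_nonneg _) h3
      _ = (X : ℝ) ^ (A : ℝ) * (X : ℝ) ^ (A : ℝ) * 1 := (mul_one _).symm
      _ ≤ _ := mul_le_mul_of_nonneg_left hXr (mul_nonneg h3 h3)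
  · intro p hp hpD
    rw [e p hp]
    refine two_le (on H) (en H) i j q p hp (fun hd => hpD (hd.mul_right _)) ?_ ?_ ?_
    · intro hd
      have h1 : (p : ℤ) ∣ ((1 : ℕ) : ℤ) := hd
      exact hp.one_lt.ne' (Nat.dvd_one.1 (Int.natCast_dvd_natCast.1 h1))
    · intro hd
      have h1 : (p : ℤ) ∣ ((1 : ℕ) : ℤ) := hd
      exact hp.one_lt.ne' (Nat.dvd_one.1 (Int.natCast_dvd_natCast.1 h1))
    · intro hd
      apply hpD
      have h1 : on H i * en H j - on H j * en H i = (y : ℤ) - x := by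
        rw [hbi, hbj]
        unfold on
        ring
      rw [h1] at hd
      rw [← Int.natCast_dvd_natCast, Nat.cast_mul, hN, Int.natCast_natAbs]
      exact Dvd.dvd.mul_left ((dvd_abs _ _).2 hd) _

/-- the shifts in a progression as a system -/
theorem sysU (A X : ℕ) (hX : 2 ≤ X) (H : Finset ℕ) (hHX : ∀ h ∈ H, h ≤ X ^ A)
    (hadm : ∀ p : ℕ, p.Prime → ∃ n : ℕ, ∀ h ∈ H, ¬ p ∣ n + h) (q c : ℕ) (hq : 1 ≤ q) (hqX : q ≤ X ^ A)
    (hcX : c ≤ X ^ A) (hc : ∀ h ∈ H, Nat.Coprime q (c + h)) (U : ℝ)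
    (htr : ∀ h ∈ H, ∀ h' ∈ H, ∀ t : ℕ, 1 ≤ t → (t : ℝ) ≤ U → h ≠ h' + q * t) :
    System 1 ((X : ℝ) ^ (((A + 1 : ℕ) : ℝ))) U (ls (ca (on H) q) (cb (on H) (en H) c)) := by
  have h := adm_H H hadm
  have hc' := cop_H H q c hc
  have hXA : 1 ≤ X ^ A := Nat.one_le_pow _ _ (by omega)
  have hpow : X ^ (A + 1) = X ^ A * X := pow_succ _ _
  have h2 : X ^ A * 2 ≤ X ^ A * X := Nat.mul_le_mul_left _ hX
  refine lin_system (adm_ap h q c hq hc') _ _ (fun i => ?_) (fun i => ?_) (fun i j t ht htU => ?_)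
  · rw [Real.rpow_natCast]
    have e : ca (on H) q i = (q : ℤ) := by
      unfold ca on
      ring
    rw [e, Int.cast_natCast, abs_of_nonneg (Nat.cast_nonneg q)]
    exact_mod_cast (by omega : q ≤ X ^ (A + 1))
  · rw [Real.rpow_natCast]
    have e : cb (on H) (en H) c i = ((c + H.orderEmbOfFin rfl i : ℕ) : ℤ) := by
      unfold cb on en
      push_cast
      ring
    have h1 := hHX _ (H.orderEmbOfFin_mem rfl i)
    rw [e, Int.cast_natCast, abs_of_nonneg (Nat.cast_nonneg _)]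
    exact_mod_cast (by omega : c + H.orderEmbOfFin rfl i ≤ X ^ (A + 1))
  · rintro ⟨-, h4⟩
    apply htr _ (H.orderEmbOfFin_mem rfl i) _ (H.orderEmbOfFin_mem rfl j) t ht htU
    unfold cb ca on en at h4
    have h5 : ((H.orderEmbOfFin rfl i : ℕ) : ℤ) = ((H.orderEmbOfFin rfl j : ℕ) : ℤ) + q * t := by linarith
    exact_mod_cast h5

/-- **The gap laws for tuples in progressions, uniformly in the shifts.** -/
theorem gapsU (K : ℕ) (hK : 2 ≤ K) (A : ℕ) (δ θ : ℝ) (hδ : 0 < δ) (hθ : 0 < θ) (l₀ : ℕ) (x₀ ε : ℝ)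
    (hε : 0 < ε) :
    ∃ r₀ : ℕ, 2 ≤ r₀ ∧ ∀ r : ℕ, r₀ ≤ r → ∀ᶠ X : ℕ in atTop, ∀ H : Finset ℕ, H.card = K →
      (∀ h ∈ H, h ≤ X ^ A) → (∀ p : ℕ, p.Prime → ∃ n : ℕ, ∀ h ∈ H, ¬ p ∣ n + h) → ∀ q c : ℕ, 1 ≤ q →
      q ≤ X ^ A → c ≤ X ^ A → (∀ h ∈ H, Nat.Coprime q (c + h)) →
      (∀ h ∈ H, ∀ h' ∈ H, ∀ t : ℕ, 1 ≤ t → (t : ℝ) ≤ (X : ℝ) ^ δ → h ≠ h' + q * t) →
      ∀ Z Y : ℕ, (X : ℝ) ^ θ ≤ Y → ∀ l T : ℕ, (l ≤ l₀ ∨ T * V H q X r ≤ x₀) →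
        |(Far H q c X r l T Z Y : ℝ) - Y * V H q X r *
          ∑ j ∈ range l, Real.exp (-(T * V H q X r)) * (T * V H q X r) ^ j / j.factorial| ≤
          ε * (Y * V H q X r) := by
  obtain ⟨r₀, hg⟩ := gaps K 1 (((A + 1 : ℕ) : ℝ)) δ θ (by positivity) hδ hθ l₀ x₀ ε hε
  refine ⟨max r₀ 2, le_max_right _ _, fun r hr => ?_⟩
  obtain ⟨M, hM, hV⟩ := V_up A r ((le_max_right _ _).trans hr)
  filter_upwards [hg r ((le_max_left _ _).trans hr) M, hV, eventually_ge_atTop 2]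
    with X h1 h2 h3 H hHK hHX hadm q c hq hqX hcX hc htr Z Y hY l T hT
  subst hHK
  have hVq := h2 H hK hHX hadm q c hq hqX hc
  have hc' := cop_H H q c hc
  rw [V_eq', LA.V_eq (on H) (en H) q c X r hc'] at hVq hT ⊢
  rw [Far_eq', LA.Far_eq]
  exact h1 _ (sysU A X h3 H hHX hadm q c hq hqX hcX hc _ htr) hVq Z Y hY l T hT

open Classical in
/-- **Regular points for tuples in progressions, uniformly in the shifts.** -/
theorem regU (K : ℕ) (hK : 2 ≤ K) (A : ℕ) (θ : ℝ) (hθ : 0 < θ) :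
    ∃ r₀ : ℕ, 2 ≤ r₀ ∧ ∀ r : ℕ, r₀ ≤ r → ∀ ε : ℝ, 0 < ε → ∃ κ : ℝ, 0 < κ ∧
      ∀ δ : ℝ, 0 < δ → ∃ D : ℕ, ∀ᶠ X : ℕ in atTop, ∀ H : Finset ℕ, H.card = K →
      (∀ h ∈ H, h ≤ X ^ A) → (∀ p : ℕ, p.Prime → ∃ n : ℕ, ∀ h ∈ H, ¬ p ∣ n + h) → ∀ q c : ℕ, 1 ≤ q →
      q ≤ X ^ A → c ≤ X ^ A → (∀ h ∈ H, Nat.Coprime q (c + h)) →
      ∀ u Y : ℕ, (X : ℝ) ^ θ ≤ Y → Y ≤ X → Y ≤ u →
      ∀ S : Set ℕ, (∀ m ∈ S, Good H q c X r m) →
        (((Ioc u (u + Y)).filter (fun m => m ∈ S ∧ ¬ Regular S (V H q X r) κ δ D Y m)).card : ℝ) ≤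
          ε * (Y * V H q X r) := by
  obtain ⟨r₀, hr₀, hg⟩ := regular K 1 (K * K) (((A + 1 : ℕ) : ℝ)) 1 θ (by positivity) one_pos hθ
  refine ⟨r₀, hr₀, fun r hr ε hε => ?_⟩
  obtain ⟨M, hM, hV⟩ := V_up A r (hr₀.trans hr)
  obtain ⟨κ, hκ, h1⟩ := hg r hr M hM ε hε
  refine ⟨κ, hκ, fun δ hδ => ?_⟩
  obtain ⟨D, h2'⟩ := h1 δ hδ
  refine ⟨D, ?_⟩
  filter_upwards [h2', hV, eventually_ge_atTop 2]
    with X h1 h2 h3 H hHK hHX hadm q c hq hqX hcX hc u Y hY hYX hYu S hS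
  subst hHK
  have hVq := h2 H hK hHX hadm q c hq hqX hc
  have hc' := cop_H H q c hc
  rw [V_eq', LA.V_eq (on H) (en H) q c X r hc'] at hVq ⊢
  have hadm' := adm_ap (adm_H H hadm) q c hq hc'
  exact h1 _ (sysU A X h3 H hHX hadm q c hq hqX hcX hc 0 (fun _ _ _ _ t ht ht0 => by
      have : (1 : ℝ) ≤ t := by exact_mod_cast ht
      linarith)) (exc (ca (on H) q) (cb (on H) (en H) c)) (exc_card _ _)
    (fun i j t ht _ htE => ⟨ls_ne i j t (exc_mem hadm' i j t htE), ls_ne_neg hadm' i j t⟩) hVq u Y hY hYX hYu S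
    (fun m hm => (LA.good_iff (on H) (en H) q c X r m).1 ((good_iff' H q c X r m).1 (hS m hm)))

end Pool.Agent.R463.LT
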