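import Pool.Agent.R463.PL

set_option autoImplicit false

/-!
# The polynomials `f (x, n - x)`
-/

namespace Pool.Agent.R463.PS

open Polynomial Finset Filter
open scoped Polynomial.Bivariate
open Pool.Agent.W123.RP Pool.Agent.H373R2.T7 Pool.Agent.W123.RU Pool.Agent.W123.RU.Poly
open Pool.Agent.TH464.PW Pool.Agent.TH464.PO Pool.Agent.Y879.GL

/-- bounded degree and coefficients of polynomial growth -/
def Gr (P : ℕ → ℤ[X]) : Prop := ∃ (D E : ℕ) (K : ℝ), 0 ≤ K ∧ ∀ n : ℕ, 1 ≤ n →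
  (P n).natDegree ≤ D ∧ ∀ j, |(((P n).coeff j : ℤ) : ℝ)| ≤ K * (n : ℝ) ^ E

lemma Gr.add {P Q : ℕ → ℤ[X]} (hP : Gr P) (hQ : Gr Q) : Gr (fun n => P n + Q n) := by
  obtain ⟨D, E, K, hK, h⟩ := hP
  obtain ⟨D', E', K', hK', h'⟩ := hQ
  refine ⟨max D D', max E E', K + K', by positivity, fun n hn => ⟨?_, fun j => ?_⟩⟩
  · exact (natDegree_add_le _ _).trans (max_le_max (h n hn).1 (h' n hn).1)
  · have hn1 : (1 : ℝ) ≤ n := by exact_mod_cast hn
    rw [coeff_add]
    push_cast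
    refine (abs_add_le _ _).trans ?_
    rw [add_mul]
    apply add_le_add
    · refine ((h n hn).2 j).trans ?_
      exact mul_le_mul_of_nonneg_left (pow_le_pow_right₀ hn1 (le_max_left _ _)) hK
    · refine ((h' n hn).2 j).trans ?_
      exact mul_le_mul_of_nonneg_left (pow_le_pow_right₀ hn1 (le_max_right _ _)) hK'

lemma Gr.X_mul {P : ℕ → ℤ[X]} (hP : Gr P) : Gr (fun n => X * P n) := by
  obtain ⟨D, E, K, hK, h⟩ := hP
  refine ⟨D + 1, E, K, hK, fun n hn => ⟨?_, fun j => ?_⟩⟩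
  · refine natDegree_mul_le.trans ?_
    have := natDegree_X_le (R := ℤ)
    have := (h n hn).1
    omega
  · rcases j with _ | j
    · rw [coeff_X_mul_zero]
      simpa using mul_nonneg hK (pow_nonneg (Nat.cast_nonneg n) E)
    · rw [coeff_X_mul]
      exact (h n hn).2 j

lemma Gr.C_mul {P : ℕ → ℤ[X]} (hP : Gr P) (a : ℤ) : Gr (fun n => C a * P n) := by
  obtain ⟨D, E, K, hK, h⟩ := hP
  refine ⟨D, E, |(a : ℝ)| * K, by positivity, fun n hn => ⟨?_, fun j => ?_⟩⟩
  · exact (natDegree_C_mul_le _ _).trans (h n hn).1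
  · rw [coeff_C_mul]
    push_cast
    rw [abs_mul, mul_assoc]
    exact mul_le_mul_of_nonneg_left ((h n hn).2 j) (abs_nonneg _)

lemma Gr.N_mul {P : ℕ → ℤ[X]} (hP : Gr P) : Gr (fun n => C (n : ℤ) * P n) := by
  obtain ⟨D, E, K, hK, h⟩ := hP
  refine ⟨D, E + 1, K, hK, fun n hn => ⟨?_, fun j => ?_⟩⟩
  · exact (natDegree_C_mul_le _ _).trans (h n hn).1
  · rw [coeff_C_mul]
    push_cast
    rw [abs_mul, abs_of_nonneg (Nat.cast_nonneg n), pow_succ]
    calc (n : ℝ) * |(((P n).coeff j : ℤ) : ℝ)| ≤ n * (K * (n : ℝ) ^ E) :=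
          mul_le_mul_of_nonneg_left ((h n hn).2 j) (Nat.cast_nonneg n)
      _ = K * ((n : ℝ) ^ E * n) := by ring

lemma Gr.line {P : ℕ → ℤ[X]} (hP : Gr P) : Gr (fun n => P n * (C (n : ℤ) - X)) := by
  have h1 := hP.N_mul.add ((hP.X_mul).C_mul (-1))
  refine (?_ : (fun n : ℕ => C (n : ℤ) * P n + C (-1) * (X * P n)) =
    fun n : ℕ => P n * (C (n : ℤ) - X)) ▸ h1
  funext n
  rw [C_neg, C_1]
  ring

lemma Gr.const (c : ℤ[X]) : Gr (fun _ => c) := by
  induction c using Polynomial.induction_on with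
  | C a => exact ⟨0, 0, |(a : ℝ)|, abs_nonneg _, fun n _ => ⟨by rw [natDegree_C], fun j => by
      rw [coeff_C, pow_zero, mul_one]
      split_ifs
      · exact le_rfl
      · simp⟩⟩
  | add p q hp hq => exact hp.add hq
  | monomial n a h =>
    refine (?_ : (fun _ : ℕ => X * (C a * X ^ n)) = fun _ => C a * X ^ (n + 1)) ▸ h.X_mul
    funext _
    ring

/-- the polynomial `f (x, n - x)` -/
noncomputable def ln (f : ℤ[X][Y]) (n : ℕ) : ℤ[X] := f.eval (C (n : ℤ) - X)

lemma ln_gr (f : ℤ[X][Y]) : Gr (ln f) := by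
  unfold ln
  induction f using Polynomial.induction_on with
  | C a =>
    simp only [eval_C]
    exact Gr.const a
  | add p q hp hq =>
    simp only [eval_add]
    exact hp.add hq
  | monomial i a h =>
    refine (?_ : (fun n : ℕ => (C a * X ^ i : ℤ[X][Y]).eval (C (n : ℤ) - X) * (C (n : ℤ) - X)) =
      fun n : ℕ => (C a * X ^ (i + 1) : ℤ[X][Y]).eval (C (n : ℤ) - X)) ▸ h.line
    funext n
    simp only [eval_mul, eval_C, eval_pow, eval_X, pow_succ, mul_assoc]

variable {m : ℕ}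

/-- the system -/
noncomputable def lns (f : Fin m → ℤ[X][Y]) (n : ℕ) : Fin m → ℤ[X] := fun k => ln (f k) n

/-- the system at a good `n` -/
theorem lns_system (f : Fin m → ℤ[X][Y]) : ∃ (D : ℕ) (E : ℝ), 0 < E ∧ ∀ᶠ n : ℕ in atTop, ∀ U : ℝ,
    (∀ k, Irreducible (lns f n k)) → (∀ k, 1 ≤ (lns f n k).natDegree) →
    (∀ p : ℕ, p.Prime → ∃ x : ℕ, ∀ k, ¬ (p : ℤ) ∣ (lns f n k).eval (x : ℤ)) →
    (∀ i j, ∀ t : ℕ, 1 ≤ t → (t : ℝ) ≤ U → lns f n i ≠ (lns f n j).comp (X + C (t : ℤ)) ∧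
      lns f n i ≠ -(lns f n j).comp (X + C (t : ℤ))) →
    System D ((n : ℝ) ^ E) U (lns f n) := by
  choose D E K hK h using fun k => ln_gr (f k)
  have hD : ∀ k, D k ≤ ∑ k, D k := fun k => Finset.single_le_sum (fun _ _ => Nat.zero_le _) (mem_univ k)
  have hE : ∀ k, E k ≤ ∑ k, E k := fun k => Finset.single_le_sum (fun _ _ => Nat.zero_le _) (mem_univ k)
  have hK' : ∀ k, K k ≤ ∑ k, K k := fun k =>
    Finset.single_le_sum (f := K) (fun k _ => hK k) (mem_univ k)
  refine ⟨∑ k, D k, ((∑ k, E k : ℕ) : ℝ) + 1, by positivity, ?_⟩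
  filter_upwards [tendsto_natCast_atTop_atTop.eventually_ge_atTop (∑ k, K k), eventually_ge_atTop 1]
    with n hn hn1 U h1 h2 h3 h4
  have hn1r : (1 : ℝ) ≤ n := by exact_mod_cast hn1
  exact
    { irr := h1
      deg := fun k => ⟨h2 k, ((h k n hn1).1).trans (hD k)⟩
      hgt := fun k j => by
        refine ((h k n hn1).2 j).trans ?_
        calc K k * (n : ℝ) ^ (E k) ≤ n * (n : ℝ) ^ (∑ k, E k) := by
              apply mul_le_mul ((hK' k).trans hn) (pow_le_pow_right₀ hn1r (hE k)) (by positivity)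
                (by positivity)
          _ = (n : ℝ) ^ (((∑ k, E k : ℕ) : ℝ) + 1) := by
              rw [Real.rpow_add (by linarith), Real.rpow_natCast, Real.rpow_one]
              ring
      adm := h3
      tr := h4 }

/-- few shifts give translates -/
theorem few_shifts {k : ℕ} (f : Fin k → ℤ[X]) (hf : ∀ i, 1 ≤ (f i).natDegree) :
    ∃ E₀ : Finset ℕ, E₀.card ≤ 2 * (k * k) ∧ ∀ i j, ∀ t : ℕ, t ∉ E₀ →
      f i ≠ (f j).comp (X + C (t : ℤ)) ∧ f i ≠ -(f j).comp (X + C (t : ℤ)) := by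
  classical
  have huniq : ∀ (j : Fin k) (t t' : ℕ), (f j).comp (X + C (t : ℤ)) = (f j).comp (X + C (t' : ℤ)) → t = t' := by
    intro j t t' h
    by_contra hne
    have h1 : f j = (f j).comp (X + C ((t' : ℤ) - t)) := by
      have h2 := congrArg (fun P => P.comp (X - C (t : ℤ))) h
      simp only [comp_assoc, add_comp, X_comp, C_comp] at h2
      rw [sub_add_cancel, comp_X] at h2
      rw [C_sub]
      rw [show (X : ℤ[X]) + (C (t' : ℤ) - C (t : ℤ)) = X - C (t : ℤ) + C (t' : ℤ) by ring]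
      exact h2
    have h3 := periodic_const (f j) _ (by
      intro h4
      apply hne
      omega) h1
    have := hf j
    omega
  obtain ⟨A, hA⟩ : ∃ A : Fin k × Fin k → ℕ, ∀ i j, ∀ t : ℕ, f i = (f j).comp (X + C (t : ℤ)) → t = A (i, j) := by
    refine ⟨fun x => if h : ∃ t : ℕ, f x.1 = (f x.2).comp (X + C (t : ℤ)) then h.choose else 0, ?_⟩
    intro i j t ht
    have h : ∃ t : ℕ, f i = (f j).comp (X + C (t : ℤ)) := ⟨t, ht⟩
    simp only [dif_pos h]
    exact huniq j _ _ (ht.symm.trans h.choose_spec)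
  obtain ⟨B, hB⟩ : ∃ B : Fin k × Fin k → ℕ, ∀ i j, ∀ t : ℕ, f i = -(f j).comp (X + C (t : ℤ)) → t = B (i, j) := by
    refine ⟨fun x => if h : ∃ t : ℕ, f x.1 = -(f x.2).comp (X + C (t : ℤ)) then h.choose else 0, ?_⟩
    intro i j t ht
    have h : ∃ t : ℕ, f i = -(f j).comp (X + C (t : ℤ)) := ⟨t, ht⟩
    simp only [dif_pos h]
    exact huniq j _ _ (neg_injective (ht.symm.trans h.choose_spec))
  refine ⟨(univ.image A) ∪ (univ.image B), ?_, ?_⟩
  · refine (card_union_le _ _).trans ?_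
    have h1 : (univ.image A).card ≤ k * k := by
      refine card_image_le.trans ?_
      rw [card_univ, Fintype.card_prod, Fintype.card_fin]
    have h2 : (univ.image B).card ≤ k * k := by
      refine card_image_le.trans ?_
      rw [card_univ, Fintype.card_prod, Fintype.card_fin]
    omega
  · intro i j t ht
    rw [mem_union, not_or] at ht
    constructor
    · intro e
      exact ht.1 (mem_image.2 ⟨(i, j), mem_univ _, (hA i j t e).symm⟩)
    · intro e
      exact ht.2 (mem_image.2 ⟨(i, j), mem_univ _, (hB i j t e).symm⟩)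

end Pool.Agent.R463.PS
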