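import Pool.Agent.R463.PL
import Pool.Agent.Y879.GL.Prog2

set_option autoImplicit false

/-!
# Pairs `m`, `e m + f` in arithmetic progressions: inputs
-/

namespace Pool.Agent.R463.PS

open Polynomial Finset Filter
open Pool.Agent.W123.RP Pool.Agent.H373R2.T7 Pool.Agent.W123.RU Pool.Agent.W123.RU.Poly
open Pool.Agent.TH464.PW Pool.Agent.TH464.PO Pool.Agent.Y879.AP Pool.Agent.Y879.GL

lemma pf_eval (e f : ℤ) (q a : ℕ) (n : ℤ) :
    (pf e f q a 0).eval n = q * n + a ∧ (pf e f q a 1).eval n = e * (q * n + a) + f := by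
  unfold pf
  rw [lf_eval, lf_eval]
  constructor
  · simp [ca, cb]
  · simp [ca, cb]
    ring

/-- from the library structure to the local one -/
lemma System.of_us {k D : ℕ} {H U : ℝ} {f : Fin k → ℤ[X]} (h : US k D H U f) : System D H U f where
  irr := h.irr
  deg := fun i => ⟨Nat.one_le_iff_ne_zero.2 (h.deg i), h.degD i⟩
  hgt := h.hgt
  adm := h.adm
  tr := fun i j t ht htU => ⟨fun e => h.tr i j t ht htU (by rw [e]), fun e => h.tr i j t ht htU (by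
    rw [e]
    exact (Associated.refl _).neg_left)⟩

/-- the conditions on the pair -/
structure PairOK (X : ℕ) (A δ : ℝ) (e f : ℤ) (q a : ℕ) : Prop where
  he : e * e = 1
  hf : Even f
  hf0 : f ≠ 0
  hfX : |(f : ℝ)| ≤ (X : ℝ) ^ A
  hq : 1 ≤ q
  hqX : (q : ℝ) ≤ (X : ℝ) ^ A
  haX : (a : ℝ) ≤ (X : ℝ) ^ A
  hqa : Nat.Coprime q a
  hqf : IsCoprime (q : ℤ) (e * a + f)

/-- the pair as a system -/
theorem pair_sys (A : ℝ) (hA : 0 < A) (δ : ℝ) : ∀ᶠ X : ℕ in atTop, ∀ (e f : ℤ) (q a : ℕ),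
    PairOK X A δ e f q a → (q : ℝ) * (X : ℝ) ^ δ < |(f : ℝ)| →
      System 1 ((X : ℝ) ^ (A + 1)) ((X : ℝ) ^ δ) (pf e f q a) := by
  filter_upwards [eventually_ge_atTop 2] with X hX2 e f q a h hqf2
  have hX2r : (2 : ℝ) ≤ X := by exact_mod_cast hX2
  have hX0 : (0 : ℝ) < X := by linarith
  have hE : (X : ℝ) ^ (A + 1) = (X : ℝ) ^ A * X := by rw [Real.rpow_add hX0, Real.rpow_one]
  have hA0 : 0 < (X : ℝ) ^ A := Real.rpow_pos_of_pos hX0 _
  have h1 := h.hqX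
  have h2 := h.haX
  have h3 := h.hfX
  have hus := pf_us e f h.he h.hf q a h.hq h.hqa h.hqf ((X : ℝ) ^ (A + 1)) (by rw [hE]; nlinarith)
    (by rw [hE]; nlinarith)
  have hno := pf_noas e f h.he q a h.hq ∅ ((X : ℝ) ^ δ) (fun t _ htU _ h4 => by
    have h6 := Int.natAbs_eq_iff_sq_eq.2 h4
    have h7 : |(f : ℝ)| = q * t := by
      have h8 : ((f.natAbs : ℕ) : ℝ) = |(f : ℝ)| := by
        rw [Nat.cast_natAbs]
        push_cast
        rfl
      rw [← h8, h6, Int.natAbs_mul, Int.natAbs_natCast, Int.natAbs_natCast]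
      push_cast
      ring
    have h9 : (q : ℝ) * t ≤ q * (X : ℝ) ^ δ := mul_le_mul_of_nonneg_left htU (Nat.cast_nonneg _)
    linarith)
  apply System.of_us
  exact
    { irr := hus.irr, deg := hus.deg, degD := hus.degD, hgt := hus.hgt, adm := hus.adm
      tr := fun i j t ht htU => hno i j t ht htU (by simp) }

/-- the pair as a system, with an exceptional translation -/
theorem pair_sys0 (A : ℝ) (hA : 0 < A) (δ : ℝ) : ∀ᶠ X : ℕ in atTop, ∀ (e f : ℤ) (q a : ℕ),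
    PairOK X A δ e f q a → System 1 ((X : ℝ) ^ (A + 1)) 0 (pf e f q a) ∧
      ∀ i j, ∀ t : ℕ, 1 ≤ t → (t : ℝ) ≤ (X : ℝ) ^ (1 : ℝ) → t ∉ ({f.natAbs / q} : Finset ℕ) →
        pf e f q a i ≠ (pf e f q a j).comp (Polynomial.X + Polynomial.C (t : ℤ)) ∧
        pf e f q a i ≠ -(pf e f q a j).comp (Polynomial.X + Polynomial.C (t : ℤ)) := by
  filter_upwards [eventually_ge_atTop 2] with X hX2 e f q a h
  have hX2r : (2 : ℝ) ≤ X := by exact_mod_cast hX2
  have hX0 : (0 : ℝ) < X := by linarith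
  have hE : (X : ℝ) ^ (A + 1) = (X : ℝ) ^ A * X := by rw [Real.rpow_add hX0, Real.rpow_one]
  have hA0 : 0 < (X : ℝ) ^ A := Real.rpow_pos_of_pos hX0 _
  have h1 := h.hqX
  have h2 := h.haX
  have h3 := h.hfX
  have hq := h.hq
  have hus := pf_us e f h.he h.hf q a h.hq h.hqa h.hqf ((X : ℝ) ^ (A + 1)) (by rw [hE]; nlinarith)
    (by rw [hE]; nlinarith)
  have hno := pf_noas e f h.he q a h.hq {f.natAbs / q} ((X : ℝ) ^ (1 : ℝ)) (fun t _ _ htE h4 => by
    apply htE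
    rw [mem_singleton]
    have h5 : f.natAbs = q * t := by
      have h6 := Int.natAbs_eq_iff_sq_eq.2 h4
      rw [h6, Int.natAbs_mul, Int.natAbs_natCast, Int.natAbs_natCast]
    rw [h5, Nat.mul_div_cancel_left _ (by omega)])
  refine ⟨System.of_us hus, ?_⟩
  intro i j t ht htU htE
  refine ⟨fun e2 => hno i j t ht htU htE (by rw [e2]), fun e2 => hno i j t ht htU htE (by
    rw [e2]
    exact (Associated.refl _).neg_left)⟩

/-- the density of the pair -/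
theorem pair_V (A : ℝ) (hA : 0 < A) (δ : ℝ) (r : ℕ) (hr2 : 2 ≤ r) : ∃ M : ℝ, 0 < M ∧ ∀ᶠ X : ℕ in atTop,
    ∀ (e f : ℤ) (q a : ℕ), PairOK X A δ e f q a → V (pf e f q a) X r ≤ M / Real.log X := by
  obtain ⟨M, hM, hV⟩ := pf_Vup A hA r hr2
  refine ⟨M, hM, ?_⟩
  filter_upwards [hV] with X hX e f q a h
  rw [V_eq, pf_Vq e f h.he q a _ h.hqa h.hqf]
  exact hX e f q h.he h.hf h.hf0 h.hfX h.hq h.hqX

lemma pair_om (e f : ℤ) (he : e * e = 1) (q a p : ℕ) (hp : p.Prime) (hqa : Nat.Coprime q a)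
    (hqf : IsCoprime (q : ℤ) (e * a + f)) :
    om (pf e f q a) p = if p ∣ q then 0 else if (p : ℤ) ∣ f then 1 else 2 := by
  classical
  have h0 : om (pf e f q a) p = nuB (Q (pf e f q a)) p := by
    unfold om nuB Q
    congr
  rw [h0, pf_nuB e f he q a p hp hqa hqf]
  split_ifs with h1 h2
  · exact nuB_Qn_dvd _ _ _ h1
  · rw [nuB_Qn_not _ _ _ h1, nuB_Q2 e f he p hp]
    unfold nu2
    rw [if_pos h2]
  · rw [nuB_Qn_not _ _ _ h1, nuB_Q2 e f he p hp]
    unfold nu2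
    rw [if_neg h2]

lemma pair_sift (e f : ℤ) (q a X r n : ℕ) : Sifted (pf e f q a) X r n ↔
    ∀ p : ℕ, p.Prime → (p : ℝ) ≤ (X : ℝ) ^ (1 / (r : ℝ)) →
      ¬ (p : ℤ) ∣ (q : ℤ) * n + a ∧ ¬ (p : ℤ) ∣ e * (q * n + a) + f := by
  unfold Sifted
  constructor
  · intro h p hp hpX
    have h0 := h p hp hpX 0
    have h1 := h p hp hpX 1
    rw [(pf_eval e f q a n).1] at h0
    rw [(pf_eval e f q a n).2] at h1
    exact ⟨h0, h1⟩
  · intro h p hp hpX i
    obtain ⟨h0, h1⟩ := h p hp hpX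
    fin_cases i
    · show ¬ (p : ℤ) ∣ (pf e f q a 0).eval (n : ℤ)
      rw [(pf_eval e f q a n).1]
      exact h0
    · show ¬ (p : ℤ) ∣ (pf e f q a 1).eval (n : ℤ)
      rw [(pf_eval e f q a n).2]
      exact h1

end Pool.Agent.R463.PS
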