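import Pool.Agent.R463.PL

set_option autoImplicit false

/-!
# The systems `N - G, F_1, ..., F_g`
-/

namespace Pool.Agent.R463.PS

open Polynomial Finset Filter
open Pool.Agent.W123.RP Pool.Agent.H373R2.T7 Pool.Agent.W123.RU Pool.Agent.W123.RU.Poly
open Pool.Agent.TH464.PW Pool.Agent.TH464.PO Pool.Agent.Y879.GL

variable {g : ℕ}

/-- the system `N - G, F_1, ..., F_g` -/
noncomputable def sch (F : Fin g → ℤ[X]) (G : ℤ[X]) (N : ℕ) : Fin (g + 1) → ℤ[X] :=
  Fin.cons (C (N : ℤ) - G) F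

/-- the fixed data -/
structure SchData (F : Fin g → ℤ[X]) (G : ℤ[X]) : Prop where
  irr : ∀ i, Irreducible (F i)
  deg : ∀ i, 1 ≤ (F i).natDegree
  lead : ∀ i, 0 < (F i).leadingCoeff
  degG : 1 ≤ G.natDegree
  leadG : 0 < G.leadingCoeff
  tr : ∀ i j, i ≠ j → ∀ t : ℕ, 1 ≤ t → F i ≠ (F j).comp (X + C (t : ℤ))

/-- the admissible `N` -/
structure AdmN (F : Fin g → ℤ[X]) (G : ℤ[X]) (N : ℕ) : Prop where
  irr : Irreducible (C (N : ℤ) - G)
  adm : ∀ p : ℕ, p.Prime → ∃ n : ℕ, ¬ (p : ℤ) ∣ (N : ℤ) - G.eval (n : ℤ) ∧ ∀ i, ¬ (p : ℤ) ∣ (F i).eval (n : ℤ)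

lemma eval_bd (P : ℤ[X]) : ∃ K : ℝ, 0 ≤ K ∧ ∀ x : ℤ, |((P.eval x : ℤ) : ℝ)| ≤ K * (|(x : ℝ)| + 1) ^ P.natDegree := by
  refine ⟨∑ i ∈ range (P.natDegree + 1), |((P.coeff i : ℤ) : ℝ)|, Finset.sum_nonneg fun _ _ => abs_nonneg _, ?_⟩
  intro x
  rw [eval_eq_sum_range]
  push_cast
  rw [Finset.sum_mul]
  refine (Finset.abs_sum_le_sum_abs _ _).trans (Finset.sum_le_sum fun i hi => ?_)
  rw [abs_mul, abs_pow]
  apply mul_le_mul_of_nonneg_left _ (abs_nonneg _)
  have h0 : 0 ≤ |(x : ℝ)| := abs_nonneg _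
  calc |(x : ℝ)| ^ i ≤ (|(x : ℝ)| + 1) ^ i := pow_le_pow_left₀ h0 (by linarith) i
    _ ≤ (|(x : ℝ)| + 1) ^ P.natDegree := pow_le_pow_right₀ (by linarith)
        (Nat.lt_succ_iff.1 (mem_range.1 hi))

lemma coeff_bd (P : ℤ[X]) : ∃ K : ℝ, 0 ≤ K ∧ ∀ n, |((P.coeff n : ℤ) : ℝ)| ≤ K := by
  refine ⟨∑ i ∈ P.support, |((P.coeff i : ℤ) : ℝ)|, Finset.sum_nonneg fun _ _ => abs_nonneg _, fun n => ?_⟩
  by_cases hn : n ∈ P.support
  · exact Finset.single_le_sum (f := fun i => |((P.coeff i : ℤ) : ℝ)|) (fun _ _ => abs_nonneg _) hn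
  · rw [notMem_support_iff.1 hn]
    simpa using Finset.sum_nonneg fun i _ => abs_nonneg ((P.coeff i : ℤ) : ℝ)

lemma sub_deg (G : ℤ[X]) (N : ℤ) : (C N - G).natDegree = G.natDegree := by
  rw [natDegree_sub, natDegree_sub_C]

lemma sub_lead {G : ℤ[X]} (h : 1 ≤ G.natDegree) (N : ℤ) : (C N - G).leadingCoeff = -G.leadingCoeff := by
  unfold leadingCoeff
  rw [sub_deg, coeff_sub, coeff_C, if_neg (by omega), zero_sub]

/-- `N` is larger than the values which translates would give -/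
lemma big_N (F : Fin g → ℤ[X]) (G : ℤ[X]) (hG : 1 ≤ G.natDegree) : ∀ᶠ N : ℕ in atTop,
    ∀ i, ∀ t : ℕ, 1 ≤ t → (t : ℝ) ≤ (N : ℝ) ^ (1 / (2 * (G.natDegree : ℝ))) →
      (N : ℤ) ≠ G.eval (t : ℤ) - (F i).eval 0 ∧ (N : ℤ) ≠ G.eval (-(t : ℤ)) - (F i).eval 0 := by
  obtain ⟨K, hK, hGb⟩ := eval_bd G
  have hd : (0 : ℝ) < G.natDegree := by exact_mod_cast (by omega : 0 < G.natDegree)
  obtain ⟨B, hB⟩ : ∃ B : ℝ, ∀ i, |(((F i).eval 0 : ℤ) : ℝ)| ≤ B :=
    ⟨∑ i, |(((F i).eval 0 : ℤ) : ℝ)|, fun i =>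
      Finset.single_le_sum (f := fun i => |(((F i).eval 0 : ℤ) : ℝ)|) (fun _ _ => abs_nonneg _) (mem_univ i)⟩
  have hpow : Tendsto (fun N : ℕ => (N : ℝ) ^ (1 / 2 : ℝ)) atTop atTop :=
    (tendsto_rpow_atTop (by norm_num)).comp tendsto_natCast_atTop_atTop
  filter_upwards [hpow.eventually_gt_atTop (K * 2 ^ G.natDegree + |B|), eventually_ge_atTop 1] with N hN hN1
  intro i t ht htN
  have hN1r : (1 : ℝ) ≤ N := by exact_mod_cast hN1
  have hN0 : (0 : ℝ) ≤ N := by linarith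
  have ht1 : (1 : ℝ) ≤ t := by exact_mod_cast ht
  have hsq : ((N : ℝ) ^ (1 / (2 * (G.natDegree : ℝ)))) ^ G.natDegree = (N : ℝ) ^ (1 / 2 : ℝ) := by
    rw [← Real.rpow_natCast, ← Real.rpow_mul hN0]
    congr 1
    field_simp
  have htp : ((t : ℝ) + 1) ^ G.natDegree ≤ 2 ^ G.natDegree * (N : ℝ) ^ (1 / 2 : ℝ) := by
    calc ((t : ℝ) + 1) ^ G.natDegree ≤ (2 * t) ^ G.natDegree := pow_le_pow_left₀ (by linarith) (by linarith) _
      _ = 2 ^ G.natDegree * (t : ℝ) ^ G.natDegree := by rw [mul_pow]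
      _ ≤ 2 ^ G.natDegree * ((N : ℝ) ^ (1 / (2 * (G.natDegree : ℝ)))) ^ G.natDegree := by
          apply mul_le_mul_of_nonneg_left _ (by positivity)
          exact pow_le_pow_left₀ (by linarith) htN _
      _ = _ := by rw [hsq]
  have hhalf : (N : ℝ) = (N : ℝ) ^ (1 / 2 : ℝ) * (N : ℝ) ^ (1 / 2 : ℝ) := by
    rw [← Real.rpow_add (by linarith)]
    norm_num
  have hs1 : (1 : ℝ) ≤ (N : ℝ) ^ (1 / 2 : ℝ) := Real.one_le_rpow hN1r (by norm_num)
  have key : ∀ x : ℤ, |(x : ℝ)| = t → (N : ℤ) ≠ G.eval x - (F i).eval 0 := by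
    intro x hx e
    have h1 := hGb x
    rw [hx] at h1
    have h2 := (hB i).trans (le_abs_self B)
    have h3 : (N : ℝ) = ((G.eval x : ℤ) : ℝ) - (((F i).eval 0 : ℤ) : ℝ) := by
      exact_mod_cast e
    have h4 : (N : ℝ) ≤ K * (2 ^ G.natDegree * (N : ℝ) ^ (1 / 2 : ℝ)) + |B| := by
      rw [h3]
      have h5 := (le_abs_self ((G.eval x : ℤ) : ℝ)).trans h1
      have h6 := (neg_le_abs (((F i).eval 0 : ℤ) : ℝ)).trans h2
      have h7 : K * ((t : ℝ) + 1) ^ G.natDegree ≤ K * (2 ^ G.natDegree * (N : ℝ) ^ (1 / 2 : ℝ)) :=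
        mul_le_mul_of_nonneg_left htp hK
      rw [← h3]
      linarith
    have h8 : |B| ≤ |B| * (N : ℝ) ^ (1 / 2 : ℝ) := le_mul_of_one_le_right (abs_nonneg _) hs1
    have h9 : (K * 2 ^ G.natDegree + |B|) * (N : ℝ) ^ (1 / 2 : ℝ) <
        (N : ℝ) ^ (1 / 2 : ℝ) * (N : ℝ) ^ (1 / 2 : ℝ) :=
      mul_lt_mul_of_pos_right hN (by linarith)
    rw [← hhalf] at h9
    linarith
  refine ⟨key t (by rw [Int.cast_natCast, abs_of_nonneg (by linarith)]), key (-t) ?_⟩
  rw [Int.cast_neg, Int.cast_natCast, abs_neg, abs_of_nonneg (by linarith)]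

/-- no translates -/
lemma sch_tr {F : Fin g → ℤ[X]} {G : ℤ[X]} (S : SchData F G) (N t : ℕ) (ht : 1 ≤ t)
    (hN : ∀ i, (N : ℤ) ≠ G.eval (t : ℤ) - (F i).eval 0 ∧ (N : ℤ) ≠ G.eval (-(t : ℤ)) - (F i).eval 0)
    (hS : ∀ i j, i ≠ j → F i ≠ (F j).comp (X + C (t : ℤ))) (i j : Fin (g + 1)) :
    sch F G N i ≠ (sch F G N j).comp (X + C (t : ℤ)) ∧ sch F G N i ≠ -(sch F G N j).comp (X + C (t : ℤ)) := by
  have htz : (t : ℤ) ≠ 0 := by exact_mod_cast (by omega : t ≠ 0)
  have hself : ∀ f : ℤ[X], f.natDegree ≠ 0 → f ≠ f.comp (X + C (t : ℤ)) ∧ f ≠ -f.comp (X + C (t : ℤ)) := by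
    intro f hf
    have h := no_self f hf t htz
    constructor
    · intro e
      apply h
      rw [← e]
    · intro e
      apply h
      have e2 : f.comp (X + C (t : ℤ)) = -f := by rw [← neg_neg (f.comp _), ← e]
      rw [e2]
      exact (Associated.refl _).neg_right
  have hlG := sub_lead S.degG (N : ℤ)
  have hG0 := S.leadG
  induction i using Fin.cases with
  | zero =>
    induction j using Fin.cases with
    | zero =>
      unfold sch
      rw [Fin.cons_zero]
      apply hself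
      rw [sub_deg]
      have := S.degG
      omega
    | succ j =>
      unfold sch
      rw [Fin.cons_zero, Fin.cons_succ]
      constructor
      · intro e
        have h1 := congrArg leadingCoeff e
        rw [lc_shift, hlG] at h1
        have := S.lead j
        omega
      · intro e
        have h1 := congrArg (fun P => Polynomial.eval (-(t : ℤ)) P) e
        simp only [eval_sub, eval_C, eval_neg, eval_comp, eval_add, eval_X] at h1
        rw [show -(t : ℤ) + t = 0 by ring] at h1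
        apply (hN j).2
        linarith
  | succ i =>
    induction j using Fin.cases with
    | zero =>
      unfold sch
      rw [Fin.cons_zero, Fin.cons_succ]
      constructor
      · intro e
        have h1 := congrArg leadingCoeff e
        rw [lc_shift, hlG] at h1
        have := S.lead i
        omega
      · intro e
        have h1 := congrArg (fun P => Polynomial.eval (0 : ℤ) P) e
        simp only [eval_sub, eval_C, eval_neg, eval_comp, eval_add, eval_X] at h1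
        rw [show (0 : ℤ) + t = t by ring] at h1
        apply (hN i).1
        linarith
    | succ j =>
      unfold sch
      rw [Fin.cons_succ, Fin.cons_succ]
      by_cases hij : i = j
      · subst hij
        apply hself
        have := S.deg i
        omega
      · refine ⟨hS i j hij, ?_⟩
        intro e
        have h1 := congrArg leadingCoeff e
        rw [leadingCoeff_neg, lc_shift] at h1
        have := S.lead i
        have := S.lead j
        omega

/-- the degrees -/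
noncomputable def Ds (F : Fin g → ℤ[X]) (G : ℤ[X]) : ℕ := G.natDegree + ∑ i, (F i).natDegree

/-- everything but the translates -/
theorem sch_system0 {F : Fin g → ℤ[X]} {G : ℤ[X]} (S : SchData F G) : ∀ᶠ N : ℕ in atTop, AdmN F G N →
    System (Ds F G) ((N : ℝ) ^ (2 : ℝ)) 0 (sch F G N) := by
  obtain ⟨K, hK, hGc⟩ := coeff_bd G
  choose B hB0 hB using fun i => coeff_bd (F i)
  obtain ⟨L, hL⟩ : ∃ L : ℝ, ∀ i, B i ≤ L := ⟨∑ i, B i, fun i =>
    Finset.single_le_sum (f := B) (fun i _ => hB0 i) (mem_univ i)⟩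
  filter_upwards [tendsto_natCast_atTop_atTop.eventually_ge_atTop (K + |L| + 2)] with N hN hadm
  have hL0 := abs_nonneg L
  have hsq : (N : ℝ) ^ (2 : ℝ) = N * N := by
    rw [show (2 : ℝ) = ((2 : ℕ) : ℝ) by norm_num, Real.rpow_natCast, sq]
  have hN2 : (2 : ℝ) ≤ N := by linarith
  have hNN : (2 : ℝ) * N ≤ N * N := mul_le_mul_of_nonneg_right hN2 (by linarith)
  have h1 : (N : ℝ) + K ≤ (N : ℝ) ^ (2 : ℝ) := by rw [hsq]; linarith
  have h2 : |L| ≤ (N : ℝ) ^ (2 : ℝ) := by rw [hsq]; linarith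
  exact
    { irr := fun i => by
        induction i using Fin.cases with
        | zero => unfold sch; rw [Fin.cons_zero]; exact hadm.irr
        | succ i => unfold sch; rw [Fin.cons_succ]; exact S.irr i
      deg := fun i => by
        induction i using Fin.cases with
        | zero =>
          unfold sch Ds
          rw [Fin.cons_zero, sub_deg]
          exact ⟨S.degG, by omega⟩
        | succ i =>
          unfold sch Ds
          rw [Fin.cons_succ]
          refine ⟨S.deg i, ?_⟩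
          have := Finset.single_le_sum (f := fun i => (F i).natDegree) (fun _ _ => Nat.zero_le _) (mem_univ i)
          omega
      hgt := fun i n => by
        induction i using Fin.cases with
        | zero =>
          unfold sch
          rw [Fin.cons_zero, coeff_sub, coeff_C]
          push_cast
          refine le_trans (abs_sub _ _) (le_trans (add_le_add ?_ (hGc n)) h1)
          split_ifs
          · simp
          · simp
        | succ i =>
          unfold sch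
          rw [Fin.cons_succ]
          exact ((hB i n).trans ((hL i).trans (le_abs_self L))).trans h2
      adm := fun p hp => by
        obtain ⟨n, hn, hn2⟩ := hadm.adm p hp
        refine ⟨n, fun i => ?_⟩
        induction i using Fin.cases with
        | zero =>
          unfold sch
          rw [Fin.cons_zero, eval_sub, eval_C]
          exact hn
        | succ i => unfold sch; rw [Fin.cons_succ]; exact hn2 i
      tr := fun i j t ht ht0 => by
        have h3 : (1 : ℝ) ≤ t := by exact_mod_cast ht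
        linarith }

/-- the systems -/
theorem sch_system {F : Fin g → ℤ[X]} {G : ℤ[X]} (S : SchData F G) : ∀ᶠ N : ℕ in atTop, AdmN F G N →
    System (Ds F G) ((N : ℝ) ^ (2 : ℝ)) ((N : ℝ) ^ (1 / (2 * (G.natDegree : ℝ)))) (sch F G N) := by
  filter_upwards [sch_system0 S, big_N F G S.degG] with N h0 hN hadm
  have h1 := h0 hadm
  exact ⟨h1.irr, h1.deg, h1.hgt, h1.adm, fun i j t ht htU =>
    sch_tr S N t ht (fun i => hN i t ht htU) (fun i j hij => S.tr i j hij t ht) i j⟩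

/-- the density -/
theorem sch_V {F : Fin g → ℤ[X]} {G : ℤ[X]} (S : SchData F G) (hg : 0 < g) (r : ℕ) (hr : 2 ≤ r) :
    ∃ C : ℝ, 0 < C ∧ ∀ᶠ X : ℕ in atTop, ∀ N : ℕ, AdmN F G N → V (sch F G N) X r ≤ C / Real.log X := by
  by_cases h : ∀ p : ℕ, p.Prime → ∃ n : ℕ, ¬ (p : ℤ) ∣ (F ⟨0, hg⟩).eval (n : ℤ)
  · obtain ⟨C, hC, hV⟩ := V_le_fixed (F ⟨0, hg⟩) (S.irr _) (S.deg _) (S.lead _) h r hr
    refine ⟨C, hC, ?_⟩
    filter_upwards [hV] with X hX N _
    apply hX
    refine ⟨Fin.succ ⟨0, hg⟩, ?_⟩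
    unfold sch
    rw [Fin.cons_succ]
  · refine ⟨1, one_pos, Filter.Eventually.of_forall fun X N hN => ?_⟩
    exfalso
    apply h
    intro p hp
    obtain ⟨n, _, hn⟩ := hN.adm p hp
    exact ⟨n, hn _⟩

lemma sch_sift (F : Fin g → ℤ[X]) (G : ℤ[X]) (N X r n : ℕ) : Sifted (sch F G N) X r n ↔
    ∀ p : ℕ, p.Prime → (p : ℝ) ≤ (X : ℝ) ^ (1 / (r : ℝ)) →
      ¬ (p : ℤ) ∣ (N : ℤ) - G.eval (n : ℤ) ∧ ∀ i, ¬ (p : ℤ) ∣ (F i).eval (n : ℤ) := by
  unfold Sifted sch
  constructor
  · intro h p hp hpr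
    have h1 := h p hp hpr
    refine ⟨?_, fun i => ?_⟩
    · have := h1 0
      rwa [Fin.cons_zero, eval_sub, eval_C] at this
    · have := h1 (Fin.succ i)
      rwa [Fin.cons_succ] at this
  · intro h p hp hpr i
    obtain ⟨h1, h2⟩ := h p hp hpr
    induction i using Fin.cases with
    | zero => rwa [Fin.cons_zero, eval_sub, eval_C]
    | succ i => rw [Fin.cons_succ]; exact h2 i

lemma sch_om (F : Fin g → ℤ[X]) (G : ℤ[X]) (N p : ℕ) : om (sch F G N) p =
    ((range p).filter (fun n : ℕ => (p : ℤ) ∣ (N : ℤ) - G.eval (n : ℤ) ∨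
      ∃ i, (p : ℤ) ∣ (F i).eval (n : ℤ))).card := by
  classical
  unfold om sch
  congr 1
  ext n
  simp only [mem_filter, and_congr_right_iff]
  intro _
  rw [Fin.exists_fin_succ]
  simp only [Fin.cons_zero, Fin.cons_succ, eval_sub, eval_C]

end Pool.Agent.R463.PS
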