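import Pool.Agent.TH464.PO.Gen

set_option autoImplicit false

/-!
# The Poisson law for general sets of shifts, along arithmetic progressions
-/

namespace Pool.Agent.R463.PP

open Finset Filter Pool.Agent.H373R2.T7 Pool.Agent.W123.RP Pool.Agent.W123.RU Pool.Agent.TH464.PO

open Classical in
/-- the average over the sets of shifts in `W`, as an average over a period -/
lemma sum_setsW (Q : ℕ → ℕ → Prop) (c : ℕ) (hQ : PerB Q c) (w k : ℕ) (W : Finset ℕ) :
    (Mw w : ℝ) * ∑ H ∈ powersetCard k W, Vq (QH Q H) w =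
      ∑ m ∈ range (Mw w), (((W.filter (fun h => Sf Q w (m + h))).card.choose k : ℕ) : ℝ) := by
  rw [Finset.mul_sum]
  have h1 : ∀ H ∈ powersetCard k W, (Mw w : ℝ) * Vq (QH Q H) w =
      ∑ m ∈ range (Mw w), if (∀ h ∈ H, Sf Q w (m + h)) then (1 : ℝ) else 0 := by
    intro H _
    rw [← exact (QH Q H) _ (perB_QH Q c hQ H) w]
    rw [Finset.sum_ite, Finset.sum_const_zero, add_zero, Finset.sum_const, nsmul_eq_mul, mul_one]
    congr 2
    apply Finset.filter_congr
    intro m _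
    exact sf_QH Q H w m
  rw [Finset.sum_congr rfl h1, Finset.sum_comm]
  apply Finset.sum_congr rfl
  intro m _
  rw [Finset.sum_ite, Finset.sum_const_zero, add_zero, Finset.sum_const, nsmul_eq_mul, mul_one,
    ← Finset.card_powersetCard]
  congr 2
  ext H
  rw [mem_filter, mem_powersetCard, mem_powersetCard]
  constructor
  · rintro ⟨⟨a1, a2⟩, a3⟩
    exact ⟨fun h hh => mem_filter.2 ⟨a1 hh, a3 h hh⟩, a2⟩
  · rintro ⟨a1, a2⟩
    exact ⟨⟨fun h hh => (mem_filter.1 (a1 hh)).1, a2⟩, fun h hh => (mem_filter.1 (a1 hh)).2⟩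

/-- `choose` compared with a power -/
lemma choose_near (N k : ℕ) (x z M : ℝ) (h : |(N : ℝ) - x| ≤ M) (hM : 0 ≤ M) (hx : 0 ≤ x) (hxz : x ≤ z)
    (hMz : M + k + 1 ≤ z) :
    |(N.choose (k + 1) : ℝ) - x ^ (k + 1) / (k + 1).factorial| ≤
      (M + (k + 1)) * (k + 1) * (2 * z) ^ k / (k + 1).factorial := by
  have hkf : (0 : ℝ) < (k + 1).factorial := by exact_mod_cast Nat.factorial_pos (k + 1)
  have hk0 : (0 : ℝ) ≤ k := Nat.cast_nonneg k
  obtain ⟨h1, h2⟩ := abs_le.1 h
  have hz0 : 0 ≤ z := hx.trans hxz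
  have key : ∀ u v : ℝ, 0 ≤ u → 0 ≤ v → u ≤ 2 * z → v ≤ 2 * z → |u - v| ≤ M + (k + 1) →
      |u ^ (k + 1) - v ^ (k + 1)| ≤ (M + (k + 1)) * (k + 1) * (2 * z) ^ k := by
    intro u v hu hv huz hvz huv
    have h3 := abs_pow_sub_pow_le u v (k + 1)
    rw [Nat.add_sub_cancel, abs_of_nonneg hu, abs_of_nonneg hv] at h3
    refine h3.trans ?_
    push_cast
    have h4 : max u v ^ k ≤ (2 * z) ^ k := pow_le_pow_left₀ (le_max_of_le_left hu) (max_le huz hvz) k
    have h5 : |u - v| * ((k : ℝ) + 1) ≤ (M + (k + 1)) * (k + 1) :=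
      mul_le_mul_of_nonneg_right huv (by positivity)
    exact mul_le_mul h5 h4 (pow_nonneg (le_max_of_le_left hu) k) (by positivity)
  rw [abs_le]
  constructor
  · -- lower bound for choose
    have hlow : (max (x - M - (k + 1)) 0) ^ (k + 1) / (k + 1).factorial ≤ (N.choose (k + 1) : ℝ) := by
      by_cases hc : M + (k + 1) ≤ x
      · have h3 := (choose_bounds N (k + 1) x M h (by push_cast; linarith)).1
        rw [max_eq_left (by linarith)]
        refine le_trans (le_of_eq ?_) h3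
        push_cast
        ring
      · rw [max_eq_right (by linarith), zero_pow (Nat.succ_ne_zero k), zero_div]
        positivity
    have h4 := key x (max (x - M - (k + 1)) 0) hx (le_max_right _ _) (by linarith)
      (max_le (by linarith) (by linarith)) (by
        rw [abs_le]
        constructor
        · rcases le_total (x - M - (k + 1)) 0 with h5 | h5
          · rw [max_eq_right h5]; linarith
          · rw [max_eq_left h5]; linarith
        · have := le_max_left (x - M - (k + 1)) 0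
          linarith)
    have h5 := (abs_le.1 h4).2
    have h6 : x ^ (k + 1) / ((k + 1).factorial : ℝ) ≤
        (max (x - M - (k + 1)) 0) ^ (k + 1) / (k + 1).factorial +
        (M + (k + 1)) * (k + 1) * (2 * z) ^ k / (k + 1).factorial := by
      rw [← add_div]
      apply div_le_div_of_nonneg_right _ hkf.le
      linarith
    linarith
  · have hup : (N.choose (k + 1) : ℝ) ≤ (x + M) ^ (k + 1) / (k + 1).factorial := by
      refine (Nat.choose_le_pow_div (k + 1) N).trans ?_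
      apply div_le_div_of_nonneg_right _ hkf.le
      apply pow_le_pow_left₀ (Nat.cast_nonneg _)
      linarith
    have h4 := key (x + M) x (by linarith) hx (by linarith) (by linarith) (by
      rw [abs_of_nonneg (by linarith)]
      linarith)
    have h5 := (abs_le.1 h4).2
    have h6 : (x + M) ^ (k + 1) / ((k + 1).factorial : ℝ) ≤ x ^ (k + 1) / (k + 1).factorial +
        (M + (k + 1)) * (k + 1) * (2 * z) ^ k / (k + 1).factorial := by
      rw [← add_div]
      apply div_le_div_of_nonneg_right _ hkf.le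
      linarith
    linarith

open Classical in
/-- **The small primes**, for a set `W` of shifts. -/
theorem small_avgW (k w : ℕ) (η C : ℝ) (hη : 0 < η) (hC : 0 ≤ C) : ∃ T0 : ℕ, ∀ T : ℕ, T0 ≤ T →
    ∀ (Q : ℕ → ℕ → Prop) (c : ℕ), PerB Q c → (∀ p : ℕ, p.Prime → nuB Q p < p) →
    ∀ W : Finset ℕ, W ⊆ Icc 1 T →
    (∀ m : ℕ, |((W.filter (fun h => Sf Q w (m + h))).card : ℝ) - W.card * Vq Q w| ≤ C) →
    |∑ H ∈ powersetCard (k + 1) W, Vq (QH Q H) w - (W.card * Vq Q w) ^ (k + 1) / (k + 1).factorial| ≤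
      η * ((T * Vq Q w) ^ (k + 1) / (k + 1).factorial) := by
  obtain ⟨M, hM⟩ : ∃ M, M = Mw w := ⟨_, rfl⟩
  have hMpos : 0 < M := by rw [hM]; exact Mw_pos w
  have hMr : (0 : ℝ) < M := by exact_mod_cast hMpos
  obtain ⟨B, hB⟩ : ∃ B : ℝ, B = max (C + k + 1) ((C + (k + 1)) * (k + 1) * 2 ^ k / η) := ⟨_, rfl⟩
  obtain ⟨T0, hT0⟩ : ∃ T0 : ℕ, (M : ℝ) * B ≤ T0 := exists_nat_ge _
  refine ⟨T0, ?_⟩
  intro T hT Q c hQ hadm W hW hwin
  have hTr : (M : ℝ) * B ≤ T := hT0.trans (by exact_mod_cast hT)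
  have hWp := Vq_pos Q hadm w
  have hex := exact Q c hQ w
  rw [← hM] at hex
  have hMW : 1 ≤ (M : ℝ) * Vq Q w := by
    rw [← hex]
    have h1 : (0 : ℝ) < (((range M).filter (fun m => Sf Q w m)).card : ℝ) := by
      rw [hex]
      positivity
    have h2 : 0 < ((range M).filter (fun m => Sf Q w m)).card := by exact_mod_cast h1
    exact_mod_cast h2
  obtain ⟨x, hx⟩ : ∃ x : ℝ, x = W.card * Vq Q w := ⟨_, rfl⟩
  obtain ⟨z, hz⟩ : ∃ z : ℝ, z = T * Vq Q w := ⟨_, rfl⟩
  rw [← hx, ← hz]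
  rw [← hx] at hwin
  have hx0 : 0 ≤ x := by rw [hx]; positivity
  have hWT : (W.card : ℝ) ≤ T := by
    have := card_le_card hW
    rw [Nat.card_Icc, Nat.add_sub_cancel] at this
    exact_mod_cast this
  have hxz : x ≤ z := by
    rw [hx, hz]
    exact mul_le_mul_of_nonneg_right hWT hWp.le
  have hBz : B ≤ z := by
    have h1 : (M : ℝ) * B ≤ M * z := by
      rw [hz]
      calc (M : ℝ) * B ≤ T := hTr
        _ = T * 1 := (mul_one _).symm
        _ ≤ T * (M * Vq Q w) := by gcongr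
        _ = _ := by ring
    exact le_of_mul_le_mul_left h1 hMr
  have hB1 : C + k + 1 ≤ z := (by rw [hB]; exact le_max_left _ _ : C + k + 1 ≤ B).trans hBz
  have hB2 : (C + (k + 1)) * (k + 1) * 2 ^ k ≤ η * z := by
    have h1 : (C + (k + 1)) * (k + 1) * 2 ^ k / η ≤ z :=
      (by rw [hB]; exact le_max_right _ _ : (C + (k + 1)) * (k + 1) * 2 ^ k / η ≤ B).trans hBz
    rw [div_le_iff₀ hη] at h1
    linarith
  have hz0 : 0 ≤ z := hx0.trans hxz
  have hkf : (0 : ℝ) < (k + 1).factorial := by exact_mod_cast Nat.factorial_pos (k + 1)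
  have hsum := sum_setsW Q c hQ w (k + 1) W
  rw [← hM] at hsum
  have hb : ∀ m ∈ range M, |(((W.filter (fun h => Sf Q w (m + h))).card.choose (k + 1) : ℕ) : ℝ) -
      x ^ (k + 1) / (k + 1).factorial| ≤ η * (z ^ (k + 1) / (k + 1).factorial) := by
    intro m _
    refine (choose_near _ k x z C (hwin m) hC hx0 hxz hB1).trans ?_
    rw [← mul_div_assoc]
    apply div_le_div_of_nonneg_right _ hkf.le
    calc (C + (k + 1)) * (k + 1) * (2 * z) ^ k = (C + (k + 1)) * (k + 1) * 2 ^ k * z ^ k := by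
          rw [mul_pow]; ring
      _ ≤ η * z * z ^ k := mul_le_mul_of_nonneg_right hB2 (by positivity)
      _ = _ := by ring
  have e : (M : ℝ) * (∑ H ∈ powersetCard (k + 1) W, Vq (QH Q H) w - x ^ (k + 1) / (k + 1).factorial) =
      ∑ m ∈ range M, ((((W.filter (fun h => Sf Q w (m + h))).card.choose (k + 1) : ℕ) : ℝ) -
        x ^ (k + 1) / (k + 1).factorial) := by
    rw [mul_sub, hsum, Finset.sum_sub_distrib, Finset.sum_const, card_range, nsmul_eq_mul]
  have h3 : |(M : ℝ) * (∑ H ∈ powersetCard (k + 1) W, Vq (QH Q H) w - x ^ (k + 1) / (k + 1).factorial)| ≤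
      M * (η * (z ^ (k + 1) / (k + 1).factorial)) := by
    rw [e]
    refine (Finset.abs_sum_le_sum_abs _ _).trans ?_
    refine (Finset.sum_le_card_nsmul _ _ _ hb).trans (le_of_eq ?_)
    rw [card_range, nsmul_eq_mul]
  rw [abs_mul, abs_of_pos hMr] at h3
  exact le_of_mul_le_mul_left h3 hMr

open Classical in
/-- **The average of the singular series**, for a set `W` of shifts. -/
theorem sing_avgW (c k : ℕ) (η : ℝ) (hη : 0 < η) (hη1 : η ≤ 1) (C : ℕ → ℝ) (hC : ∀ w, 0 ≤ C w) :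
    ∃ (w : ℕ) (η' : ℝ) (T0 : ℕ), 0 < η' ∧ ∀ T : ℕ, T0 ≤ T → ∀ Q : ℕ → ℕ → Prop, PerB Q c →
      (∀ p : ℕ, p.Prime → nuB Q p < p) → ∀ y : ℕ, w ≤ y →
      (∀ t ∈ Icc 1 T, ((((pz y).filter (fun p : ℕ => T < p ∧ CoG Q p t)).card : ℕ) : ℝ) ≤ η' * T) →
      ∀ W : Finset ℕ, W ⊆ Icc 1 T →
      (∀ w m : ℕ, |((W.filter (fun h => Sf Q w (m + h))).card : ℝ) - W.card * Vq Q w| ≤ C w) →
      |∑ H ∈ powersetCard (k + 1) W, Vq (QH Q H) y - (W.card * Vq Q y) ^ (k + 1) / (k + 1).factorial| ≤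
        η * ((T * Vq Q y) ^ (k + 1) / (k + 1).factorial) := by
  obtain ⟨c1, B, w1, hc1, hw12, hW⟩ := W_low c
  obtain ⟨K, hK⟩ : ∃ K : ℕ, K = (1 + 2 * ((k + 1) * c)) ^ ((k + 1) ^ 2) - 1 := ⟨_, rfl⟩
  obtain ⟨A, hA⟩ : ∃ A : ℕ, A = 12 * (K * c ^ 2 + 1) * (k + 1).factorial + ((k + 1) * c) ^ 2 :=
    ⟨_, rfl⟩
  obtain ⟨w, hw0, hw2, hAw, hAw'⟩ := exists_w A B (k + 1) c1 (η / 4) hc1 (by positivity)
    (max w1 (2 * ((k + 1) * c)))
  have hww1 : w1 ≤ w := (le_max_left _ _).trans hw0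
  have hwc : 2 * ((k + 1) * c) ≤ w := (le_max_right _ _).trans hw0
  have hwr : (0 : ℝ) < w := by exact_mod_cast (by omega : 0 < w)
  obtain ⟨η1, hη1def⟩ : ∃ η1 : ℝ, η1 = ((K * c ^ 2 + 1 : ℕ) : ℝ) / w := ⟨_, rfl⟩
  have hη10 : 0 < η1 := by rw [hη1def]; positivity
  have hfac : (1 : ℝ) ≤ (k + 1).factorial := by
    exact_mod_cast Nat.factorial_pos (k + 1)
  have hAge : 12 * η1 * (k + 1).factorial ≤ (A : ℝ) / w := by
    rw [hη1def, le_div_iff₀ hwr]
    have : ((12 * (K * c ^ 2 + 1) * (k + 1).factorial : ℕ) : ℝ) ≤ A := by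
      exact_mod_cast (by omega : 12 * (K * c ^ 2 + 1) * (k + 1).factorial ≤ A)
    refine le_trans (le_of_eq ?_) this
    push_cast
    field_simp
  have hAge2 : (((k + 1) * c : ℕ) : ℝ) ^ 2 / w ≤ η / 4 := by
    refine le_trans ?_ hAw'
    apply div_le_div_of_nonneg_right _ hwr.le
    exact_mod_cast (by omega : ((k + 1) * c) ^ 2 ≤ A)
  have hη1le : η1 ≤ 1 := by nlinarith
  obtain ⟨T1, hT1, havg⟩ := avg_sharp K (c ^ 2) w (by omega) η1 hη10 (by
    rw [hη1def]
    apply div_le_div_of_nonneg_right _ hwr.le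
    push_cast
    linarith)
  obtain ⟨T2, hsmall⟩ := small_avgW k w (η / 4) (C w) (by positivity) (hC w)
  refine ⟨w, η1 / (K + 1), max T1 T2, by positivity, ?_⟩
  intro T hT Q hQ hadm y hwy hlarge U hU hwin
  have hT1' : T1 ≤ T := (le_max_left _ _).trans hT
  have hT2' : T2 ≤ T := (le_max_right _ _).trans hT
  have s0 := hsmall T hT2' Q c hQ hadm U hU (hwin w)
  obtain ⟨s1, s2⟩ := abs_le.1 s0
  have hWpos := Vq_pos Q hadm w
  obtain ⟨W, hWdef⟩ : ∃ W, W = Vq Q w := ⟨_, rfl⟩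
  obtain ⟨V, hV⟩ : ∃ V, V = Vt Q w y := ⟨_, rfl⟩
  have hV0 : 0 ≤ V := by rw [hV]; exact Vt_nonneg Q w y
  rw [← hWdef] at s1 s2 hWpos
  rw [Vq_split Q w y hwy, ← hWdef, ← hV]
  have hT0 : (0 : ℝ) ≤ T := Nat.cast_nonneg T
  have hUT : (U.card : ℝ) ≤ T := by
    have := card_le_card hU
    rw [Nat.card_Icc, Nat.add_sub_cancel] at this
    exact_mod_cast this
  have e1 : ∀ a : ℝ, (a * (W * V)) ^ (k + 1) / (k + 1).factorial =
      V ^ (k + 1) * ((a * W) ^ (k + 1) / (k + 1).factorial) := by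
    intro a
    rw [← mul_assoc, mul_pow (a * W) V]
    ring
  rw [e1, e1]
  obtain ⟨Z, hZ⟩ : ∃ Z : ℝ, Z = (T * W) ^ (k + 1) / ((k + 1).factorial : ℝ) := ⟨_, rfl⟩
  obtain ⟨z, hz⟩ : ∃ z : ℝ, z = (U.card * W) ^ (k + 1) / ((k + 1).factorial : ℝ) := ⟨_, rfl⟩
  obtain ⟨S, hS⟩ : ∃ S : ℝ, S = ∑ H ∈ powersetCard (k + 1) U, Vq (QH Q H) w := ⟨_, rfl⟩
  have hzZ : z ≤ Z := by
    rw [hz, hZ]
    apply div_le_div_of_nonneg_right _ (by positivity)
    apply pow_le_pow_left₀ (by positivity)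
    exact mul_le_mul_of_nonneg_right hUT hWpos.le
  have hz0 : 0 ≤ z := by rw [hz]; positivity
  rw [← hS, ← hz, ← hZ] at s1 s2
  rw [← hz, ← hZ]
  have hterm : ∀ H ∈ powersetCard (k + 1) U, Vq (QH Q H) y = Vq (QH Q H) w * Vt (QH Q H) w y :=
    fun H _ => Vq_split _ w y hwy
  have hVk : 0 ≤ V ^ (k + 1) := by positivity
  have hlow : V ^ (k + 1) * (1 - η / 4) * S ≤ ∑ H ∈ powersetCard (k + 1) U, Vq (QH Q H) y := by
    have h1 : ∀ H ∈ powersetCard (k + 1) U,
        V ^ (k + 1) * (1 - η / 4) * Vq (QH Q H) w ≤ Vq (QH Q H) y := by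
      intro H hH
      rw [hterm H hH]
      rw [mem_powersetCard] at hH
      have h2 := tail_lo Q c hQ H w y (by omega) (by rw [hH.2]; exact hwc)
      rw [hH.2, ← hV] at h2
      have h3 : V ^ (k + 1) * (1 - η / 4) ≤ Vt (QH Q H) w y := by
        refine le_trans ?_ h2
        apply mul_le_mul_of_nonneg_left _ hVk
        linarith
      calc V ^ (k + 1) * (1 - η / 4) * Vq (QH Q H) w ≤ Vt (QH Q H) w y * Vq (QH Q H) w :=
            mul_le_mul_of_nonneg_right h3 (Vq_nonneg _ w)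
        _ = _ := mul_comm _ _
    have h2 := Finset.sum_le_sum h1
    rw [← Finset.mul_sum, ← hS] at h2
    exact h2
  have hup : ∑ H ∈ powersetCard (k + 1) U, Vq (QH Q H) y ≤ V ^ (k + 1) * (S + η / 4 * Z) := by
    have h1 : ∀ H ∈ powersetCard (k + 1) U, Vq (QH Q H) y ≤
        V ^ (k + 1) * (Vq (QH Q H) w + ∑ x ∈ prs H, (Fp Q K w y (x.2 - x.1) - 1)) := by
      intro H hH
      rw [hterm H hH]
      rw [mem_powersetCard] at hH
      have h2 := tail_up Q c hQ H w y (by rw [hH.2]; exact hwc)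
      rw [hH.2, ← hV, ← hK] at h2
      have h3 : 0 ≤ ∑ x ∈ prs H, (Fp Q K w y (x.2 - x.1) - 1) := by
        apply Finset.sum_nonneg
        intro x _
        have := Fp_ge Q K w y (x.2 - x.1)
        linarith
      have h4 := Vq_nonneg (QH Q H) w
      have h5 := Vq_le_one (QH Q H) w
      calc Vq (QH Q H) w * Vt (QH Q H) w y ≤ Vq (QH Q H) w * (V ^ (k + 1) *
            (1 + ∑ x ∈ prs H, (Fp Q K w y (x.2 - x.1) - 1))) := mul_le_mul_of_nonneg_left h2 h4
        _ = V ^ (k + 1) * (Vq (QH Q H) w +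
            Vq (QH Q H) w * ∑ x ∈ prs H, (Fp Q K w y (x.2 - x.1) - 1)) := by ring
        _ ≤ _ := by
          apply mul_le_mul_of_nonneg_left _ hVk
          have := mul_le_mul_of_nonneg_right h5 h3
          linarith
    have h2 := Finset.sum_le_sum h1
    rw [← Finset.mul_sum, Finset.sum_add_distrib, ← hS] at h2
    refine h2.trans ?_
    have h3 := sum_prs k T (fun t => Fp Q K w y t - 1) (fun t => by
      have := Fp_ge Q K w y t
      linarith)
    have h4 := havg T hT1' (CoG Q) (coll_gen Q c hQ w) y (η1 / (K + 1)) (by positivity) (by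
      rw [← mul_div_assoc, div_le_iff₀ (by positivity)]
      have : (0 : ℝ) ≤ K := Nat.cast_nonneg K
      nlinarith) hlarge
    have h5 : ∑ t ∈ Icc 1 T, (Fp Q K w y t - 1) ≤ 12 * η1 * T := by
      rw [Finset.sum_sub_distrib, Finset.sum_const, Nat.card_Icc, Nat.add_sub_cancel, nsmul_eq_mul,
        mul_one]
      have h6 := exp_bound η1 hη10.le hη1le
      have h7 := mul_le_mul_of_nonneg_right h6 hT0
      unfold Fp
      linarith
    have hmono : ∑ H ∈ powersetCard (k + 1) U, ∑ x ∈ prs H, (Fp Q K w y (x.2 - x.1) - 1) ≤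
        ∑ H ∈ powersetCard (k + 1) (Icc 1 T), ∑ x ∈ prs H, (Fp Q K w y (x.2 - x.1) - 1) := by
      apply Finset.sum_le_sum_of_subset_of_nonneg (Finset.powersetCard_mono hU)
      intro H _ _
      apply Finset.sum_nonneg
      intro x _
      have := Fp_ge Q K w y (x.2 - x.1)
      linarith
    have h6 : ∑ H ∈ powersetCard (k + 1) (Icc 1 T), ∑ x ∈ prs H, (Fp Q K w y (x.2 - x.1) - 1) ≤
        η / 4 * Z := by
      rw [hZ]
      calc _ ≤ (T : ℝ) ^ k * ∑ t ∈ Icc 1 T, (Fp Q K w y t - 1) := h3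
        _ ≤ (T : ℝ) ^ k * (12 * η1 * T) := mul_le_mul_of_nonneg_left h5 (by positivity)
        _ = 12 * η1 * (k + 1).factorial * (T ^ (k + 1) / (k + 1).factorial) := by
          rw [pow_succ]
          field_simp
        _ ≤ (η / 4 * (c1 / Real.log w ^ B) ^ (k + 1)) * (T ^ (k + 1) / (k + 1).factorial) := by
          apply mul_le_mul_of_nonneg_right (hAge.trans hAw) (by positivity)
        _ ≤ (η / 4 * W ^ (k + 1)) * (T ^ (k + 1) / (k + 1).factorial) := by
          apply mul_le_mul_of_nonneg_right _ (by positivity)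
          apply mul_le_mul_of_nonneg_left _ (by positivity)
          have hlog : 0 < Real.log w := Real.log_pos (by exact_mod_cast (by omega : 1 < w))
          apply pow_le_pow_left₀ (by positivity)
          rw [hWdef]
          exact hW w hww1 Q hQ hadm
        _ = _ := by
          rw [mul_pow]
          ring
    apply mul_le_mul_of_nonneg_left _ hVk
    linarith
  have hZ0 : 0 ≤ Z := hz0.trans hzZ
  have hη4 : η / 4 ≤ 1 := by linarith
  have hηZ : 0 ≤ η * Z := by positivity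
  rw [abs_le]
  constructor
  · have h1 : z - η * Z ≤ (1 - η / 4) * S := by
      have h2 : z - η / 4 * Z ≤ S := by linarith
      have h3 : η / 4 * S ≤ η / 4 * (2 * Z) := by
        apply mul_le_mul_of_nonneg_left _ (by positivity)
        nlinarith
      linarith
    have h2 := mul_le_mul_of_nonneg_left h1 hVk
    have h3 : V ^ (k + 1) * (z - η * Z) = V ^ (k + 1) * z - η * (V ^ (k + 1) * Z) := by ring
    have h4 : V ^ (k + 1) * ((1 - η / 4) * S) = V ^ (k + 1) * (1 - η / 4) * S := by ring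
    linarith
  · have h1 : S + η / 4 * Z ≤ z + η * Z := by linarith
    have h2 := mul_le_mul_of_nonneg_left h1 hVk
    have h3 : V ^ (k + 1) * (z + η * Z) = V ^ (k + 1) * z + η * (V ^ (k + 1) * Z) := by ring
    linarith

end Pool.Agent.R463.PP
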