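import Pool.Agent.R463.PP9

set_option autoImplicit false

/-!
# The joint law for systems of polynomials
-/

namespace Pool.Agent.R463.PP

open Polynomial Finset Filter
open Pool.Agent.W123.RP Pool.Agent.H373R2.T7 Pool.Agent.W123.RU Pool.Agent.W123.RU.Poly
open Pool.Agent.TH464.PW Pool.Agent.TH464.PO Pool.Agent.Y879.GL Pool.Agent.R463.PS

lemma Par.all {ι : Type*} (s : Finset ι) (P : ι → Par) : ∃ P0 : Par, ∀ (c q : ℕ) (Q : ℕ → ℕ → Prop)
    (Y y : ℕ), Ok P0 c q Q Y y → ∀ i ∈ s, Ok (P i) c q Q Y y := by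
  classical
  induction s using Finset.induction_on with
  | empty =>
    exact ⟨⟨0, 1, 0, 0, 1, 1, 1, le_rfl, one_pos, one_pos, one_pos⟩, fun _ _ _ _ _ _ i hi => by simp at hi⟩
  | insert a s ha ih =>
    obtain ⟨P1, h1⟩ := ih
    obtain ⟨P0, _, h0⟩ := Par.combine (P a) P1
    refine ⟨P0, fun c q Q Y y hok i hi => ?_⟩
    obtain ⟨h2, h3⟩ := h0 c q Q Y y hok
    rcases Finset.mem_insert.1 hi with rfl | h
    · exact h2
    · exact h1 c q Q Y y h3 i h

open Classical in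
/-- the classes modulo `q` without condition at the primes dividing `q` -/
noncomputable def Bc (Q : ℕ → ℕ → Prop) (q : ℕ) : Finset ℕ :=
  (range q).filter (fun a => ∀ p : ℕ, p.Prime → p ∣ q → ¬ Q p a)

open Classical in
lemma periodic_card (A : ℕ → Prop) (q : ℕ) (hA : ∀ n, A (n + q) ↔ A n) (M : ℕ) :
    ((Icc 1 (q * M)).filter A).card = M * ((range q).filter A).card := by
  have hper : Function.Periodic A q := fun n => propext (hA n)
  induction M with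
  | zero => simp
  | succ M ih =>
    have h1 : (Icc 1 (q * (M + 1))).filter A = (Icc 1 (q * M)).filter A ∪
        (Ico (q * M + 1) (q * M + 1 + q)).filter A := by
      ext n
      simp only [mem_filter, mem_union, mem_Icc, mem_Ico]
      rw [mul_add, mul_one]
      constructor
      · rintro ⟨⟨a1, a2⟩, a3⟩
        by_cases h : n ≤ q * M
        · exact Or.inl ⟨⟨a1, h⟩, a3⟩
        · exact Or.inr ⟨⟨by omega, by omega⟩, a3⟩
      · rintro (⟨⟨a1, a2⟩, a3⟩ | ⟨⟨a1, a2⟩, a3⟩)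
        · exact ⟨⟨a1, by omega⟩, a3⟩
        · exact ⟨⟨by omega, by omega⟩, a3⟩
    rw [h1, card_union_of_disjoint, ih, Nat.filter_Ico_card_eq_of_periodic _ _ _ hper, Nat.count_eq_card_filter_range]
    · ring
    · rw [Finset.disjoint_left]
      intro n hn hn'
      simp only [mem_filter, mem_Icc, mem_Ico] at hn hn'
      omega

open Classical in
/-- the number of the classes -/
theorem Bc_card (Q : ℕ → ℕ → Prop) (c : ℕ) (hQ : PerB Q c) (q : ℕ) (hq : 1 ≤ q) :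
    ((Bc Q q).card : ℝ) = q * ∏ p ∈ q.primeFactors, (1 - (nuB Q p : ℝ) / p) := by
  have hS : ∀ p ∈ q.primeFactors, p.Prime := fun p hp => Nat.prime_of_mem_primeFactors hp
  have h1 := fun M : ℕ => count_sys (fun p a => ¬ Q p a) (q * M) q.primeFactors hS 1 le_rfl
    (fun p hp hd => (hS p hp).one_lt.ne' (Nat.dvd_one.1 hd)) 0
  obtain ⟨C, hC⟩ : ∃ C : ℝ, C = ∏ p ∈ q.primeFactors, (((range p).filter (fun a => ¬ Q p a)).card : ℝ) :=
    ⟨_, rfl⟩
  have e1 : ∏ p ∈ q.primeFactors, ((((range p).filter (fun a => ¬ Q p a)).card : ℝ) / p) =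
      ∏ p ∈ q.primeFactors, (1 - (nuB Q p : ℝ) / p) := by
    apply prod_congr rfl
    intro p hp
    have h4 := card_filter_add_card_filter_not (s := range p) (fun a => Q p a)
    rw [card_range] at h4
    have h5 : nuB Q p = ((range p).filter (fun a => Q p a)).card := rfl
    have h6 : nuB Q p + ((range p).filter (fun a => ¬ Q p a)).card = p := by rw [h5]; exact h4
    have h7 : (nuB Q p : ℝ) + (((range p).filter (fun a => ¬ Q p a)).card : ℝ) = p := by exact_mod_cast h6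
    have hp0 : (0 : ℝ) < p := by exact_mod_cast (hS p hp).pos
    rw [div_eq_iff hp0.ne', sub_mul, div_mul_cancel₀ _ hp0.ne']
    linarith
  have h2 : ∀ M : ℕ, |(M : ℝ) * (Bc Q q).card - q * M * ∏ p ∈ q.primeFactors, (1 - (nuB Q p : ℝ) / p)| ≤ C := by
    intro M
    have h3 := h1 M
    rw [e1, ← hC] at h3
    have hA : ∀ n, (∀ p ∈ q.primeFactors, ¬ Q p ((n + q) % p)) ↔ (∀ p ∈ q.primeFactors, ¬ Q p (n % p)) := by
      intro n
      apply forall₂_congr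
      intro p hp
      have : (n + q) % p = n % p := by
        obtain ⟨e, he⟩ := Nat.dvd_of_mem_primeFactors hp
        rw [he, Nat.add_mul_mod_self_left]
      rw [this]
    have h4 := periodic_card (fun n => ∀ p ∈ q.primeFactors, ¬ Q p (n % p)) q hA M
    have h5 : (Icc 1 (q * M)).filter (fun n => n ≡ 0 [MOD 1] ∧ ∀ p ∈ q.primeFactors, ¬ Q p (n % p)) =
        (Icc 1 (q * M)).filter (fun n => ∀ p ∈ q.primeFactors, ¬ Q p (n % p)) := by
      apply filter_congr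
      intro n _
      have : n ≡ 0 [MOD 1] := Nat.modEq_one
      tauto
    have h6 : (range q).filter (fun n => ∀ p ∈ q.primeFactors, ¬ Q p (n % p)) = Bc Q q := by
      unfold Bc
      apply filter_congr
      intro n _
      constructor
      · intro h p hp hpq
        rw [hQ.per]
        exact h p (Nat.mem_primeFactors.2 ⟨hp, hpq, by omega⟩)
      · intro h p hp
        rw [← hQ.per]
        exact h p (hS p hp) (Nat.dvd_of_mem_primeFactors hp)
    have h7 : (((Icc 1 (q * M)).filter (fun n => n ≡ 0 [MOD 1] ∧ ∀ p ∈ q.primeFactors, ¬ Q p (n % p))).card : ℝ) =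
        M * (Bc Q q).card := by
      rw [h5, ← h6]
      have h4' : (((Icc 1 (q * M)).filter (fun n => ∀ p ∈ q.primeFactors, ¬ Q p (n % p))).card : ℕ) =
          M * ((range q).filter (fun n => ∀ p ∈ q.primeFactors, ¬ Q p (n % p))).card := by
        convert h4
      exact_mod_cast h4'
    have h8 : |(((Icc 1 (q * M)).filter (fun n => n ≡ 0 [MOD 1] ∧ ∀ p ∈ q.primeFactors, ¬ Q p (n % p))).card : ℝ) -
        ((q * M : ℕ) : ℝ) / ((1 : ℕ) : ℝ) * ∏ p ∈ q.primeFactors, (1 - (nuB Q p : ℝ) / p)| ≤ C := by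
      convert h3
    rw [h7] at h8
    simp only [Nat.cast_one, div_one, Nat.cast_mul] at h8
    exact h8
  by_contra hne
  obtain ⟨Δ, hΔ⟩ : ∃ Δ : ℝ, Δ = |((Bc Q q).card : ℝ) - q * ∏ p ∈ q.primeFactors, (1 - (nuB Q p : ℝ) / p)| :=
    ⟨_, rfl⟩
  have hΔ0 : 0 < Δ := by
    rw [hΔ]
    exact abs_pos.2 (sub_ne_zero.2 hne)
  obtain ⟨M, hM⟩ := exists_nat_gt (C / Δ)
  have h9 := h2 M
  have h10 : (M : ℝ) * (Bc Q q).card - q * M * ∏ p ∈ q.primeFactors, (1 - (nuB Q p : ℝ) / p) =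
      M * (((Bc Q q).card : ℝ) - q * ∏ p ∈ q.primeFactors, (1 - (nuB Q p : ℝ) / p)) := by ring
  rw [h10, abs_mul, abs_of_nonneg (Nat.cast_nonneg M), ← hΔ] at h9
  rw [div_lt_iff₀ hΔ0] at hM
  linarith

open Classical in
/-- the density of the whole system -/
theorem V_split (Q : ℕ → ℕ → Prop) (c : ℕ) (hQ : PerB Q c) (q y : ℕ) (hq : 1 ≤ q) (hy : q ≤ y) :
    (Bc Q q).card * Vq (Qd Q q) y / q = Vq Q y := by
  have hq0 : (0 : ℝ) < q := by exact_mod_cast hq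
  rw [Bc_card Q c hQ q hq]
  have h1 : Vq Q y = (∏ p ∈ q.primeFactors, (1 - (nuB Q p : ℝ) / p)) * Vq (Qd Q q) y := by
    unfold Vq
    have hsub : q.primeFactors ⊆ pz y := by
      intro p hp
      exact mem_pz.2 ⟨(Nat.le_of_dvd hq (Nat.dvd_of_mem_primeFactors hp)).trans hy,
        Nat.prime_of_mem_primeFactors hp⟩
    rw [← Finset.prod_sdiff hsub, mul_comm]
    congr 1
    rw [← Finset.prod_sdiff (f := fun p : ℕ => (1 - (nuB (Qd Q q) p : ℝ) / p)) hsub]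
    have h2 : ∏ p ∈ q.primeFactors, (1 - (nuB (Qd Q q) p : ℝ) / p) = 1 := by
      apply Finset.prod_eq_one
      intro p hp
      have : nuB (Qd Q q) p = 0 := by
        unfold nuB
        rw [card_eq_zero]
        apply Finset.filter_false_of_mem
        intro m _ h
        exact h.1 (Nat.dvd_of_mem_primeFactors hp)
      rw [this]
      simp
    rw [h2, mul_one]
    apply Finset.prod_congr rfl
    intro p hp
    rw [Finset.mem_sdiff, mem_pz, Nat.mem_primeFactors] at hp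
    have hpq : ¬ p ∣ q := fun h => hp.2 ⟨hp.1.2, h, by omega⟩
    have : nuB (Qd Q q) p = nuB Q p := by
      unfold nuB
      congr 1
      apply filter_congr
      intro m _
      unfold Qd
      tauto
    rw [this]
  rw [h1]
  field_simp

lemma gb_iff (Q : ℕ → ℕ → Prop) (c : ℕ) (hQ : PerB Q c) (q y : ℕ) (hq : 1 ≤ q) (hy : q ≤ y) (m : ℕ) :
    GB (Sf (Qd Q q) y) q (Bc Q q) m ↔ Sf Q y m := by
  classical
  unfold GB Sf Bc Qd
  rw [mem_filter, mem_range]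
  have hper : ∀ p : ℕ, p ∣ q → (Q p (m % q) ↔ Q p m) := by
    intro p hp
    rw [hQ.per p (m % q), hQ.per p m, Nat.mod_mod_of_dvd m hp]
  constructor
  · rintro ⟨⟨_, h1⟩, h2⟩ p hp hpm
    by_cases hpq : p ∣ q
    · exact h1 p (mem_pz.1 hp).2 hpq ((hper p hpq).2 hpm)
    · exact h2 p hp ⟨hpq, hpm⟩
  · intro h
    refine ⟨⟨Nat.mod_lt _ hq, fun p hp hpq hpm => ?_⟩, fun p hp hpm => h p hp hpm.2⟩
    exact h p (mem_pz.2 ⟨(Nat.le_of_dvd hq hpq).trans hy, hp⟩) ((hper p hpq).1 hpm)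

/-- the next element of `S` after `n` -/
noncomputable def next (S : ℕ → Prop) (n : ℕ) : ℕ := sInf {m | n < m ∧ S m}

/-- `n ∈ S` lies in the class `a` modulo `q`; the `(j + 1)`-st element of `S` after `n` lies in the class
`b j` modulo `q`, and the gap before it is in `(s j, t j]`, for `0 ≤ j < K`. -/
def Run (S : ℕ → Prop) (q K a : ℕ) (b s t : ℕ → ℕ) (n : ℕ) : Prop :=
  S n ∧ n % q = a ∧ ∀ j < K, (next S)^[j + 1] n % q = b j ∧
    s j < (next S)^[j + 1] n - (next S)^[j] n ∧ (next S)^[j + 1] n - (next S)^[j] n ≤ t j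

lemma nx_congr (G G' : ℕ → Prop) (h : ∀ m, G m ↔ G' m) : nx G = nx G' := by
  have : G = G' := funext fun m => propext (h m)
  rw [this]

/-- the law for a general system -/
theorem joint_gen (c q K : ℕ) (hc : 1 ≤ c) (hq : 1 ≤ q) (ε : ℝ) (hε : 0 < ε) :
    ∃ P : Par, ∀ (Q : ℕ → ℕ → Prop) (Y y : ℕ), PerB Q c → (∀ p : ℕ, p.Prime → nuB Q p < p) → q ≤ y →
      Ok P c q (Qd Q q) Y y → ∀ Z : ℕ, ∀ a : ℕ, a ∈ Bc Q q → ∀ b s t : ℕ → ℕ, (∀ j < K, b j ∈ Bc Q q) →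
        (∀ j < K, s j ≤ t j) →
        |(((Set.ncard {n : ℕ | Z < n ∧ n ≤ Z + Y ∧ Run (Sf Q y) q K a b s t n} : ℕ)) : ℝ) -
          Y * Vq Q y / (Bc Q q).card ^ (K + 1) *
            ∏ j ∈ range K, (Real.exp (-(Vq Q y * s j)) - Real.exp (-(Vq Q y * t j)))| ≤
          ε * (Y * Vq Q y) := by
  classical
  have hruns : ∀ B : Finset ℕ, ∃ P : Par, B ⊆ range q → 1 ≤ B.card → ∀ (Q : ℕ → ℕ → Prop) (Y y : ℕ),
      Ok P c q Q Y y →
      ∀ Z c0 : ℕ, c0 ∈ B → ∀ b s T : ℕ → ℕ, (∀ j < K, b j ∈ B) → (∀ j < K, s j ≤ T j) →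
        |(cnt Q y q K B c0 b s T Z Y : ℝ) - Y * Vq Q y / q * (gp (Vq Q y) q K B s T / B.card ^ K)| ≤
          ε * (Y * Vq Q y / q) := by
    intro B
    by_cases h : B ⊆ range q ∧ 1 ≤ B.card
    · obtain ⟨P, hP⟩ := runs c q K hc hq B h.1 h.2 ε hε
      exact ⟨P, fun _ _ => hP⟩
    · exact ⟨⟨0, 1, 0, 0, 1, 1, 1, le_rfl, one_pos, one_pos, one_pos⟩, fun h1 h2 => absurd ⟨h1, h2⟩ h⟩
  choose PB hPB using hruns
  obtain ⟨P, hP⟩ := Par.all (range q).powerset PB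
  refine ⟨P, ?_⟩
  intro Q Y y hQ hadm hqy hok Z a ha b s t hb hst
  have hB : Bc Q q ⊆ range q := by
    unfold Bc
    exact filter_subset _ _
  have hB0 : 1 ≤ (Bc Q q).card := card_pos.2 ⟨a, ha⟩
  have h1 := hPB (Bc Q q) hB hB0 (Qd Q q) Y y (hP c q _ Y y hok _ (mem_powerset.2 hB)) Z a ha b s t hb hst
  have hq0 : (0 : ℝ) < q := by exact_mod_cast hq
  have hR0 : (0 : ℝ) < (Bc Q q).card := by exact_mod_cast hB0
  have hR1 : (1 : ℝ) ≤ (Bc Q q).card := by exact_mod_cast hB0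
  have hsplit := V_split Q c hQ q y hq hqy
  have hV' : Vq (Qd Q q) y / q = Vq Q y / (Bc Q q).card := by
    rw [← hsplit]
    field_simp
  have hG : nx (GB (Sf (Qd Q q) y) q (Bc Q q)) = next (Sf Q y) :=
    nx_congr _ _ (gb_iff Q c hQ q y hq hqy)
  have hcnt : cnt (Qd Q q) y q K (Bc Q q) a b s t Z Y =
      Set.ncard {n : ℕ | Z < n ∧ n ≤ Z + Y ∧ Run (Sf Q y) q K a b s t n} := by
    have : {n : ℕ | Z < n ∧ n ≤ Z + Y ∧ Run (Sf Q y) q K a b s t n} =
        (((Ioc Z (Z + Y)).filter (Pat (Sf (Qd Q q) y) q K (Bc Q q) a b s t) : Finset ℕ) : Set ℕ) := by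
      ext n
      rw [Finset.mem_coe, mem_filter, mem_Ioc, Set.mem_ofPred_eq, and_assoc]
      unfold Run Pat Ev sq
      rw [gb_iff Q c hQ q y hq hqy, hG]
    rw [this, Set.ncard_coe_finset]
    unfold cnt
    rfl
  rw [← hcnt]
  have hgp : gp (Vq (Qd Q q) y) q K (Bc Q q) s t =
      ∏ j ∈ range K, (Real.exp (-(Vq Q y * s j)) - Real.exp (-(Vq Q y * t j))) := by
    unfold gp
    rw [hsplit]
  rw [← hgp]
  have e1 : Y * Vq Q y / (Bc Q q).card ^ (K + 1) * gp (Vq (Qd Q q) y) q K (Bc Q q) s t =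
      Y * Vq (Qd Q q) y / q * (gp (Vq (Qd Q q) y) q K (Bc Q q) s t / (Bc Q q).card ^ K) := by
    rw [mul_div_assoc (Y : ℝ) (Vq (Qd Q q) y) (q : ℝ), hV', pow_succ]
    field_simp
  rw [e1]
  refine h1.trans ?_
  apply mul_le_mul_of_nonneg_left _ hε.le
  rw [mul_div_assoc, hV']
  apply mul_le_mul_of_nonneg_left _ (Nat.cast_nonneg _)
  exact div_le_self (Vq_nonneg Q y) hR1

/-- the classes `a` modulo `q` for which no prime factor of `q` divides one of the `f i (a)` -/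
noncomputable def Cl {k : ℕ} (f : Fin k → ℤ[X]) (q : ℕ) : Finset ℕ := by
  classical
  exact (range q).filter (fun a => ∀ p : ℕ, p.Prime → p ∣ q → ∀ i, ¬ (p : ℤ) ∣ (f i).eval (a : ℤ))

lemma Cl_eq {k : ℕ} (f : Fin k → ℤ[X]) (q : ℕ) : Cl f q = Bc (Q f) q := by
  classical
  unfold Cl Bc
  apply filter_congr
  intro a _
  unfold Q
  push Not
  rfl

/-- **The joint law of gaps and residues for systems of polynomials.** -/
theorem joint (k D q K : ℕ) (hq : 1 ≤ q) (E δ θ : ℝ) (hE : 0 < E) (hδ : 0 < δ) (hθ : 0 < θ)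
    (ε : ℝ) (hε : 0 < ε) :
    ∃ r₀ : ℕ, ∀ r : ℕ, r₀ ≤ r → ∀ C : ℝ, ∀ᶠ X : ℕ in atTop, ∀ f : Fin k → ℤ[X],
      System D ((X : ℝ) ^ E) ((X : ℝ) ^ δ) f → V f X r ≤ C / Real.log X →
      ∀ Z Y : ℕ, (X : ℝ) ^ θ ≤ Y → ∀ a ∈ Cl f q, ∀ b s t : ℕ → ℕ, (∀ j < K, b j ∈ Cl f q) →
        (∀ j < K, s j ≤ t j) →
        |((Set.ncard {n : ℕ | Z < n ∧ n ≤ Z + Y ∧ Run (Sifted f X r) q K a b s t n} : ℕ) : ℝ) -
          Y * V f X r / (Cl f q).card ^ (K + 1) *
            ∏ j ∈ range K, (Real.exp (-(V f X r * s j)) - Real.exp (-(V f X r * t j)))| ≤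
          ε * (Y * V f X r) := by
  classical
  obtain ⟨P, hP⟩ := joint_gen (k * D + 1) q K (by omega) hq ε hε
  obtain ⟨r0, h0⟩ := ok_polys k D P E δ θ hE hδ hθ
  refine ⟨max r0 1, fun r hr C => ?_⟩
  have hr1 : 1 ≤ r := (le_max_right _ _).trans hr
  have hrr : (0 : ℝ) < r := by exact_mod_cast hr1
  have hlarge : ∀ᶠ X : ℕ in atTop, (q : ℝ) ≤ (X : ℝ) ^ (1 / (r : ℝ)) :=
    ((tendsto_rpow_atTop (by positivity)).comp tendsto_natCast_atTop_atTop).eventually_ge_atTop _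
  filter_upwards [h0 r ((le_max_left _ _).trans hr) (q * C), hlarge] with X hX hXq f hf hV Z Y hY a ha b s t hb hst
  have hqy : q ≤ ⌊(X : ℝ) ^ (1 / (r : ℝ))⌋₊ := Nat.le_floor hXq
  have hper := us_perB hf.us
  have hq0 : (0 : ℝ) < q := by exact_mod_cast hq
  rw [Cl_eq] at ha
  simp only [Cl_eq] at hb
  have hR1 : (1 : ℝ) ≤ (Bc (Q f) q).card := by exact_mod_cast card_pos.2 ⟨a, ha⟩
  have hsplit := V_split (Q f) _ hper q _ hq hqy
  have hV2 : Vq (Qd (Q f) q) ⌊(X : ℝ) ^ (1 / (r : ℝ))⌋₊ ≤ q * C / Real.log X := by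
    have h1 : Vq (Qd (Q f) q) ⌊(X : ℝ) ^ (1 / (r : ℝ))⌋₊ ≤ q * V f X r := by
      rw [PS.V_eq, ← hsplit]
      have : (q : ℝ) * ((Bc (Q f) q).card * Vq (Qd (Q f) q) ⌊(X : ℝ) ^ (1 / (r : ℝ))⌋₊ / q) =
          (Bc (Q f) q).card * Vq (Qd (Q f) q) ⌊(X : ℝ) ^ (1 / (r : ℝ))⌋₊ := by
        field_simp
      rw [this]
      exact le_mul_of_one_le_left (Vq_nonneg _ _) hR1
    refine h1.trans ?_
    rw [mul_div_assoc]
    exact mul_le_mul_of_nonneg_left hV hq0.le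
  have hok := hX f hf.us q hV2 Y hY
  have h1 := hP (Q f) Y _ hper (us_adm hf.us) hqy hok Z a ha b s t hb hst
  have hS : Sifted f X r = Sf (Q f) ⌊(X : ℝ) ^ (1 / (r : ℝ))⌋₊ := funext fun n => propext (sf_iff f X r n)
  rw [hS, PS.V_eq, Cl_eq]
  exact h1

end Pool.Agent.R463.PP
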