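import Pool.Agent.R463.PP10

set_option autoImplicit false

/-!
# The law of the residues alone
-/

namespace Pool.Agent.R463.PP

open Finset Filter

/-- `n ∈ S` lies in the class `a` modulo `q`, and the `(j + 1)`-st element of `S` after `n` lies in the class
`b j` modulo `q`, for `0 ≤ j < K`. -/
def RunC (S : ℕ → Prop) (q K a : ℕ) (b : ℕ → ℕ) (n : ℕ) : Prop :=
  S n ∧ n % q = a ∧ ∀ j < K, (next S)^[j + 1] n % q = b j

lemma run_runC {S : ℕ → Prop} {q K a : ℕ} {b s t : ℕ → ℕ} {n : ℕ} (h : Run S q K a b s t n) :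
    RunC S q K a b n := ⟨h.1, h.2.1, fun j hj => (h.2.2 j hj).1⟩

lemma fin_set (S : ℕ → Prop) (Z Y : ℕ) : {n : ℕ | Z < n ∧ n ≤ Z + Y ∧ S n}.Finite :=
  (Set.finite_Iic (Z + Y)).subset fun _ hn => hn.2.1

lemma runC_succ (S : ℕ → Prop) (q K a : ℕ) (b b' : ℕ → ℕ) (hb : ∀ j < K, b' j = b j) (n : ℕ) :
    RunC S q (K + 1) a b' n ↔ RunC S q K a b n ∧ (next S)^[K + 1] n % q = b' K := by
  unfold RunC
  constructor
  · rintro ⟨h1, h2, h3⟩
    exact ⟨⟨h1, h2, fun j hj => by rw [← hb j hj]; exact h3 j (by omega)⟩, h3 K (by omega)⟩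
  · rintro ⟨⟨h1, h2, h3⟩, h4⟩
    refine ⟨h1, h2, fun j hj => ?_⟩
    rcases Nat.lt_or_ge j K with h | h
    · rw [hb j h]
      exact h3 j h
    · have : j = K := by omega
      rw [this]
      exact h4

open Classical in
lemma split_classes (S : ℕ → Prop) (q K a : ℕ) (b : ℕ → ℕ) (Z Y : ℕ) (B : Finset ℕ) :
    Set.ncard {n : ℕ | Z < n ∧ n ≤ Z + Y ∧ RunC S q (K + 1) a b n} +
      ∑ β ∈ B.erase (b K), Set.ncard {n : ℕ | Z < n ∧ n ≤ Z + Y ∧ RunC S q (K + 1) a (Function.update b K β) n} ≤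
      Set.ncard {n : ℕ | Z < n ∧ n ≤ Z + Y ∧ RunC S q K a b n} := by
  have hup : ∀ x : ℕ, ∀ j < K, Function.update b K x j = b j := by
    intro x j hj
    rw [Function.update_of_ne (by omega)]
  have key : ∀ b' : ℕ → ℕ, (∀ j < K, b' j = b j) →
      Set.ncard {n : ℕ | Z < n ∧ n ≤ Z + Y ∧ RunC S q (K + 1) a b' n} =
        ∑ n ∈ (Ioc Z (Z + Y)).filter (RunC S q K a b), if (next S)^[K + 1] n % q = b' K then 1 else 0 := by
    intro b' hb'
    rw [Finset.sum_ite, Finset.sum_const_zero, add_zero, Finset.sum_const, smul_eq_mul, mul_one,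
      Finset.filter_filter, ← Set.ncard_coe_finset]
    congr 1
    ext n
    rw [Finset.mem_coe, mem_filter, mem_Ioc, Set.mem_ofPred_eq, and_assoc, runC_succ S q K a b b' hb']
  have key0 : Set.ncard {n : ℕ | Z < n ∧ n ≤ Z + Y ∧ RunC S q K a b n} =
      ∑ n ∈ (Ioc Z (Z + Y)).filter (RunC S q K a b), 1 := by
    rw [Finset.sum_const, smul_eq_mul, mul_one, ← Set.ncard_coe_finset]
    congr 1
    ext n
    rw [Finset.mem_coe, mem_filter, mem_Ioc, Set.mem_ofPred_eq, and_assoc]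
  rw [key0, key b (fun _ _ => rfl), Finset.sum_congr rfl (fun β _ => key _ (hup β)), Finset.sum_comm,
    ← Finset.sum_add_distrib]
  apply Finset.sum_le_sum
  intro n _
  simp only [Function.update_self]
  rw [Finset.sum_ite_eq]
  by_cases h : (next S)^[K + 1] n % q = b K
  · rw [if_pos h, h, if_neg (Finset.notMem_erase _ _)]
    omega
  · rw [if_neg h]
    split_ifs <;> omega

/-- from the joint law to the law of the residues -/
theorem classes_of_joint (S : ℕ → Prop) (q : ℕ) (B : Finset ℕ) (A η : ℝ) (Z Y a : ℕ) (V : ℝ)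
    (hA : 0 ≤ A) (hB : 1 ≤ B.card) (hV : 0 < V) (K : ℕ) (hη : 0 < η)
    (h : ∀ K' ≤ K, ∀ b s t : ℕ → ℕ, (∀ j < K', b j ∈ B) → (∀ j < K', s j ≤ t j) →
      |((Set.ncard {n : ℕ | Z < n ∧ n ≤ Z + Y ∧ Run S q K' a b s t n} : ℕ) : ℝ) -
          A / (B.card : ℝ) ^ (K' + 1) * ∏ j ∈ range K', (Real.exp (-(V * s j)) - Real.exp (-(V * t j)))| ≤
          η * A) :
    ∀ K' ≤ K, ∀ b : ℕ → ℕ, (∀ j < K', b j ∈ B) →
      |((Set.ncard {n : ℕ | Z < n ∧ n ≤ Z + Y ∧ RunC S q K' a b n} : ℕ) : ℝ) -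
          A / (B.card : ℝ) ^ (K' + 1)| ≤ (2 * B.card) ^ (K' + 1) * (η * A) := by
  have hR1 : (1 : ℝ) ≤ B.card := by exact_mod_cast hB
  have hR0 : (0 : ℝ) < B.card := by linarith
  have hηA : 0 ≤ η * A := by positivity
  -- the lower bound
  have hlow : ∀ K' ≤ K, ∀ b : ℕ → ℕ, (∀ j < K', b j ∈ B) →
      A / (B.card : ℝ) ^ (K' + 1) - 2 * (η * A) ≤
        ((Set.ncard {n : ℕ | Z < n ∧ n ≤ Z + Y ∧ RunC S q K' a b n} : ℕ) : ℝ) := by
    intro K' hK' b hb
    have hlim : Tendsto (fun T : ℕ => (1 - Real.exp (-(V * (T : ℝ)))) ^ K') atTop (nhds ((1 - 0) ^ K')) := by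
      apply Tendsto.pow
      apply Tendsto.sub tendsto_const_nhds
      apply Real.tendsto_exp_neg_atTop_nhds_zero.comp
      exact (tendsto_natCast_atTop_atTop).const_mul_atTop hV
    rw [sub_zero, one_pow] at hlim
    obtain ⟨T, hT⟩ := (hlim.eventually (lt_mem_nhds (show 1 - η < 1 by linarith))).exists
    have h1 := h K' hK' b (fun _ => 0) (fun _ => T) hb (fun _ _ => Nat.zero_le _)
    have h2 : ∏ j ∈ range K', (Real.exp (-(V * ((fun _ => 0 : ℕ → ℕ) j : ℕ))) -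
        Real.exp (-(V * ((fun _ => T : ℕ → ℕ) j : ℕ)))) = (1 - Real.exp (-(V * (T : ℝ)))) ^ K' := by
      simp
    rw [h2] at h1
    have h3 := (abs_le.1 h1).1
    have h4 : ((Set.ncard {n : ℕ | Z < n ∧ n ≤ Z + Y ∧ Run S q K' a b (fun _ => 0) (fun _ => T) n} : ℕ) : ℝ) ≤
        ((Set.ncard {n : ℕ | Z < n ∧ n ≤ Z + Y ∧ RunC S q K' a b n} : ℕ) : ℝ) := by
      have : Set.ncard {n : ℕ | Z < n ∧ n ≤ Z + Y ∧ Run S q K' a b (fun _ => 0) (fun _ => T) n} ≤
          Set.ncard {n : ℕ | Z < n ∧ n ≤ Z + Y ∧ RunC S q K' a b n} :=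
        Set.ncard_le_ncard (fun n hn => ⟨hn.1, hn.2.1, run_runC hn.2.2⟩) (fin_set _ Z Y)
      exact_mod_cast this
    have h5 : A / (B.card : ℝ) ^ (K' + 1) * (1 - η) ≤
        A / (B.card : ℝ) ^ (K' + 1) * (1 - Real.exp (-(V * (T : ℝ)))) ^ K' :=
      mul_le_mul_of_nonneg_left hT.le (by positivity)
    have h6 : A / (B.card : ℝ) ^ (K' + 1) * η ≤ η * A := by
      rw [mul_comm]
      apply mul_le_mul_of_nonneg_left _ hη.le
      exact div_le_self hA (one_le_pow₀ hR1)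
    have h7 : A / (B.card : ℝ) ^ (K' + 1) * (1 - η) =
        A / (B.card : ℝ) ^ (K' + 1) - A / (B.card : ℝ) ^ (K' + 1) * η := by ring
    linarith
  -- the upper bound
  have hupp : ∀ K' ≤ K, ∀ b : ℕ → ℕ, (∀ j < K', b j ∈ B) →
      ((Set.ncard {n : ℕ | Z < n ∧ n ≤ Z + Y ∧ RunC S q K' a b n} : ℕ) : ℝ) ≤
        A / (B.card : ℝ) ^ (K' + 1) + (2 * B.card) ^ (K' + 1) * (η * A) := by
    intro K'
    induction K' with
    | zero =>
      intro _ b _
      have h1 := h 0 (Nat.zero_le _) b (fun _ => 0) (fun _ => 0) (fun j hj => absurd hj (by omega))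
        (fun j hj => absurd hj (by omega))
      have h2 := (abs_le.1 h1).2
      rw [Finset.range_zero, Finset.prod_empty, mul_one] at h2
      have h3 : {n : ℕ | Z < n ∧ n ≤ Z + Y ∧ RunC S q 0 a b n} =
          {n : ℕ | Z < n ∧ n ≤ Z + Y ∧ Run S q 0 a b (fun _ => 0) (fun _ => 0) n} := by
        ext n
        unfold RunC Run
        simp
      rw [h3, zero_add, pow_one] at *
      have h4 : 1 * (η * A) ≤ 2 * B.card * (η * A) := mul_le_mul_of_nonneg_right (by linarith) hηA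
      linarith
    | succ K' ih =>
      intro hK' b hb
      have h1 := ih (by omega) b (fun j hj => hb j (by omega))
      have h2 := split_classes S q K' a b Z Y B
      have h3 : ((Set.ncard {n : ℕ | Z < n ∧ n ≤ Z + Y ∧ RunC S q (K' + 1) a b n} : ℕ) : ℝ) +
          ∑ β ∈ B.erase (b K'), ((Set.ncard {n : ℕ | Z < n ∧ n ≤ Z + Y ∧
            RunC S q (K' + 1) a (Function.update b K' β) n} : ℕ) : ℝ) ≤
          ((Set.ncard {n : ℕ | Z < n ∧ n ≤ Z + Y ∧ RunC S q K' a b n} : ℕ) : ℝ) := by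
        exact_mod_cast h2
      have h4 : ((B.card : ℝ) - 1) * (A / (B.card : ℝ) ^ (K' + 1 + 1) - 2 * (η * A)) ≤
          ∑ β ∈ B.erase (b K'), ((Set.ncard {n : ℕ | Z < n ∧ n ≤ Z + Y ∧
            RunC S q (K' + 1) a (Function.update b K' β) n} : ℕ) : ℝ) := by
        have h5 : ((B.card : ℝ) - 1) = ((B.erase (b K')).card : ℝ) := by
          rw [Finset.card_erase_of_mem (hb K' (by omega)), Nat.cast_sub hB, Nat.cast_one]
        rw [h5, ← nsmul_eq_mul, ← Finset.sum_const]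
        apply Finset.sum_le_sum
        intro β hβ
        apply hlow (K' + 1) hK'
        intro j hj
        rcases Nat.lt_or_ge j K' with h | h
        · rw [Function.update_of_ne (by omega)]
          exact hb j (by omega)
        · have : j = K' := by omega
          rw [this, Function.update_self]
          exact Finset.mem_of_mem_erase hβ
      have h6 : A / (B.card : ℝ) ^ (K' + 1) = B.card * (A / (B.card : ℝ) ^ (K' + 1 + 1)) := by
        rw [pow_succ _ (K' + 1)]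
        field_simp
      have h7 : (2 * (B.card : ℝ)) ^ (K' + 1 + 1) * (η * A) =
          2 * B.card * ((2 * (B.card : ℝ)) ^ (K' + 1) * (η * A)) := by ring
      have h8 : (1 : ℝ) ≤ (2 * (B.card : ℝ)) ^ (K' + 1) := one_le_pow₀ (by linarith)
      have h9 : η * A ≤ (2 * (B.card : ℝ)) ^ (K' + 1) * (η * A) := le_mul_of_one_le_left hηA h8
      obtain ⟨W, hW⟩ : ∃ W, W = (2 * (B.card : ℝ)) ^ (K' + 1) * (η * A) := ⟨_, rfl⟩
      rw [← hW] at h1 h7 h9
      have h10 : ((B.card : ℝ) - 1) * (A / (B.card : ℝ) ^ (K' + 1 + 1) - 2 * (η * A)) =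
          B.card * (A / (B.card : ℝ) ^ (K' + 1 + 1)) - A / (B.card : ℝ) ^ (K' + 1 + 1) -
            2 * (B.card * (η * A)) + 2 * (η * A) := by ring
      have h11 : 2 * (B.card : ℝ) * (η * A) ≤ W := by
        rw [hW]
        apply mul_le_mul_of_nonneg_right _ hηA
        calc 2 * (B.card : ℝ) = (2 * (B.card : ℝ)) ^ 1 := (pow_one _).symm
          _ ≤ _ := pow_le_pow_right₀ (by linarith) (by omega)
      have h12 : (1 : ℝ) * W ≤ B.card * W := mul_le_mul_of_nonneg_right hR1 (hηA.trans h9)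
      rw [h7]
      have h15 : ((Set.ncard {n : ℕ | Z < n ∧ n ≤ Z + Y ∧ RunC S q (K' + 1) a b n} : ℕ) : ℝ) ≤
          A / (B.card : ℝ) ^ (K' + 1 + 1) + W + 2 * B.card * (η * A) - 2 * (η * A) := by
        linarith
      linarith
  intro K' hK' b hb
  have h1 := hlow K' hK' b hb
  have h2 := hupp K' hK' b hb
  have h3 : (2 : ℝ) ≤ (2 * B.card) ^ (K' + 1) := by
    calc (2 : ℝ) ≤ 2 * B.card := by linarith
      _ = (2 * (B.card : ℝ)) ^ 1 := (pow_one _).symm
      _ ≤ _ := pow_le_pow_right₀ (by linarith) (by omega)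
  have h4 := mul_le_mul_of_nonneg_right h3 hηA
  rw [abs_le]
  constructor <;> linarith

open Classical Polynomial Pool.Agent.R463.PS in
/-- the joint law for all lengths up to `K`, and the law of the residues -/
theorem joint_full (k D q K : ℕ) (hq : 1 ≤ q) (E δ θ : ℝ) (hE : 0 < E) (hδ : 0 < δ) (hθ : 0 < θ)
    (ε : ℝ) (hε : 0 < ε) :
    ∃ r₀ : ℕ, ∀ r : ℕ, r₀ ≤ r → ∀ C : ℝ, ∀ᶠ X : ℕ in atTop, ∀ f : Fin k → ℤ[X],
      System D ((X : ℝ) ^ E) ((X : ℝ) ^ δ) f → V f X r ≤ C / Real.log X →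
      ∀ Z Y : ℕ, (X : ℝ) ^ θ ≤ Y → ∀ a ∈ Cl f q, ∀ b : ℕ → ℕ, (∀ j < K, b j ∈ Cl f q) →
        (∀ s t : ℕ → ℕ, (∀ j < K, s j ≤ t j) →
          |((Set.ncard {n : ℕ | Z < n ∧ n ≤ Z + Y ∧ Run (Sifted f X r) q K a b s t n} : ℕ) : ℝ) -
            Y * V f X r / (Cl f q).card ^ (K + 1) *
              ∏ j ∈ range K, (Real.exp (-(V f X r * s j)) - Real.exp (-(V f X r * t j)))| ≤
            ε * (Y * V f X r)) ∧
        |((Set.ncard {n : ℕ | Z < n ∧ n ≤ Z + Y ∧ RunC (Sifted f X r) q K a b n} : ℕ) : ℝ) -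
            Y * V f X r / (Cl f q).card ^ (K + 1)| ≤ ε * (Y * V f X r) := by
  obtain ⟨η, hη⟩ : ∃ η : ℝ, η = ε / (2 * q) ^ (K + 1) := ⟨_, rfl⟩
  have hqr : (1 : ℝ) ≤ q := by exact_mod_cast hq
  have hP : (1 : ℝ) ≤ (2 * q) ^ (K + 1) := one_le_pow₀ (by linarith)
  have hη0 : 0 < η := by rw [hη]; positivity
  have hηε : η ≤ ε := by rw [hη]; exact div_le_self hε.le hP
  have hηq : (2 * (q : ℝ)) ^ (K + 1) * η = ε := by
    rw [hη]
    field_simp
  choose r0 h0 using fun K' => joint k D q K' hq E δ θ hE hδ hθ η hη0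
  refine ⟨∑ K' ∈ range (K + 1), r0 K', fun r hr C => ?_⟩
  have hev : ∀ᶠ X : ℕ in atTop, ∀ K' ∈ range (K + 1), ∀ f : Fin k → ℤ[X],
      System D ((X : ℝ) ^ E) ((X : ℝ) ^ δ) f → V f X r ≤ C / Real.log X →
      ∀ Z Y : ℕ, (X : ℝ) ^ θ ≤ Y → ∀ a ∈ Cl f q, ∀ b s t : ℕ → ℕ, (∀ j < K', b j ∈ Cl f q) →
        (∀ j < K', s j ≤ t j) →
        |((Set.ncard {n : ℕ | Z < n ∧ n ≤ Z + Y ∧ Run (Sifted f X r) q K' a b s t n} : ℕ) : ℝ) -
          Y * V f X r / (Cl f q).card ^ (K' + 1) *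
            ∏ j ∈ range K', (Real.exp (-(V f X r * s j)) - Real.exp (-(V f X r * t j)))| ≤
          η * (Y * V f X r) := by
    rw [Finset.eventually_all]
    intro K' hK'
    apply h0 K' r _ C
    refine le_trans ?_ hr
    exact Finset.single_le_sum (f := fun K' => r0 K') (fun _ _ => Nat.zero_le _) hK'
  filter_upwards [hev] with X hX f hf hV Z Y hY a ha b hb
  have hV0 : 0 < V f X r := by
    rw [PS.V_eq]
    exact Pool.Agent.TH464.PO.Vq_pos _ (fun p hp => Pool.Agent.Y879.GL.us_adm hf.us p hp) _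
  have hYV : 0 ≤ Y * V f X r := by positivity
  have hcard : 1 ≤ (Cl f q).card := card_pos.2 ⟨a, ha⟩
  have hcardq : ((Cl f q).card : ℝ) ≤ q := by
    have : (Cl f q).card ≤ q := by
      unfold Cl
      exact (card_filter_le _ _).trans (card_range q).le
    exact_mod_cast this
  constructor
  · intro s t hst
    refine (hX K (mem_range.2 (by omega)) f hf hV Z Y hY a ha b s t hb hst).trans ?_
    exact mul_le_mul_of_nonneg_right hηε hYV
  · have h1 := classes_of_joint (Sifted f X r) q (Cl f q) (Y * V f X r) η Z Y a (V f X r) hYV hcard hV0 K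
      hη0 (fun K' hK' b s t hb hst => hX K' (mem_range.2 (by omega)) f hf hV Z Y hY a ha b s t hb hst)
      K le_rfl b hb
    refine h1.trans ?_
    rw [← hηq, mul_assoc]
    apply mul_le_mul_of_nonneg_right _ (by positivity)
    apply pow_le_pow_left₀ (by positivity)
    linarith

end Pool.Agent.R463.PP
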