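import Pool.Agent.R463.PP1

set_option autoImplicit false

/-!
# The Poisson law for general sets of shifts, along arithmetic progressions: conclusion
-/

namespace Pool.Agent.R463.PP

open Finset Filter Pool.Agent.H373R2.T7 Pool.Agent.W123.RP Pool.Agent.W123.RU Pool.Agent.TH464.PO

/-- the system along the progression `q v + a` -/
def Qr (Q : ℕ → ℕ → Prop) (q a p v : ℕ) : Prop := Q p (q * v + a)

lemma qr_nu (Q : ℕ → ℕ → Prop) (c : ℕ) (hQ : PerB Q c) (q a p : ℕ) (hp : p.Prime)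
    (hq : p ∣ q → ∀ m, ¬ Q p m) : nuB (Qr Q q a) p = nuB Q p := by
  classical
  unfold nuB
  by_cases hpq : p ∣ q
  · have h1 := hq hpq
    have h2 : ∀ m, ¬ Qr Q q a p m := fun m => h1 _
    rw [Finset.filter_false_of_mem (fun m _ => h2 m), Finset.filter_false_of_mem (fun m _ => h1 m)]
  · have hcop : Nat.Coprime p q := (Nat.Prime.coprime_iff_not_dvd hp).2 hpq
    have hinj : ∀ v ∈ range p, ∀ v' ∈ range p, (q * v + a) % p = (q * v' + a) % p → v = v' := by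
      intro v hv v' hv' h
      have h1 : q * v + a ≡ q * v' + a [MOD p] := h
      have h2 : q * v ≡ q * v' [MOD p] := Nat.ModEq.add_right_cancel' a h1
      have h3 : v ≡ v' [MOD p] := Nat.ModEq.cancel_left_of_coprime hcop h2
      exact Nat.ModEq.eq_of_lt_of_lt h3 (mem_range.1 hv) (mem_range.1 hv')
    apply Finset.card_bij (fun v _ => (q * v + a) % p)
    · intro v hv
      rw [mem_filter] at hv ⊢
      refine ⟨mem_range.2 (Nat.mod_lt _ hp.pos), ?_⟩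
      have := hv.2
      unfold Qr at this
      exact (hQ.per p _).1 this
    · intro v hv v' hv' h
      exact hinj v (mem_filter.1 hv).1 v' (mem_filter.1 hv').1 h
    · have hsurj : Set.SurjOn (fun v => (q * v + a) % p) (range p : Finset ℕ) (range p : Finset ℕ) := by
        apply Finset.surjOn_of_injOn_of_card_le
        · intro v _
          exact Finset.mem_coe.2 (mem_range.2 (Nat.mod_lt _ hp.pos))
        · intro v hv v' hv' h
          exact hinj v (Finset.mem_coe.1 hv) v' (Finset.mem_coe.1 hv') h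
        · exact le_rfl
      intro m hm
      rw [mem_filter] at hm
      obtain ⟨v, hv, hvm⟩ := hsurj (Finset.mem_coe.2 hm.1)
      refine ⟨v, ?_, hvm⟩
      rw [mem_filter]
      refine ⟨Finset.mem_coe.1 hv, ?_⟩
      unfold Qr
      rw [hQ.per]
      have : (q * v + a) % p = m := hvm
      rw [this]
      exact hm.2

lemma qr_per (Q : ℕ → ℕ → Prop) (c : ℕ) (hQ : PerB Q c) (q a : ℕ)
    (hq : ∀ p : ℕ, p.Prime → p ∣ q → ∀ m, ¬ Q p m) : PerB (Qr Q q a) c := by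
  constructor
  · intro p v
    unfold Qr
    rw [hQ.per p (q * v + a), hQ.per p (q * (v % p) + a)]
    have : (q * v + a) % p = (q * (v % p) + a) % p := by
      rw [Nat.add_mod, Nat.mul_mod, Nat.add_mod (q * (v % p)), Nat.mul_mod q (v % p), Nat.mod_mod]
    rw [this]
  · intro p hp
    rw [qr_nu Q c hQ q a p hp (hq p hp)]
    exact hQ.few p hp

lemma qr_Vq (Q : ℕ → ℕ → Prop) (c : ℕ) (hQ : PerB Q c) (q a y : ℕ)
    (hq : ∀ p : ℕ, p.Prime → p ∣ q → ∀ m, ¬ Q p m) : Vq (Qr Q q a) y = Vq Q y := by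
  unfold Vq
  apply Finset.prod_congr rfl
  intro p hp
  rw [qr_nu Q c hQ q a p (mem_pz.1 hp).2 (hq p (mem_pz.1 hp).2)]

open Classical in
/-- the number of the shifts `h ∈ W` for which `q v + a + h` is sifted -/
noncomputable def NW (Q : ℕ → ℕ → Prop) (y q a : ℕ) (W : Finset ℕ) (v : ℕ) : ℕ :=
  (W.filter (fun h => Sf Q y (q * v + a + h))).card

open Classical in
/-- binomial moments as sums over sets of shifts -/
lemma moment_eqW (Q : ℕ → ℕ → Prop) (y k Y q a : ℕ) (W : Finset ℕ) :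
    ∑ n ∈ Icc 1 Y, ((NW Q y q a W n).choose k : ℝ) =
      ∑ H ∈ powersetCard k W, (((Icc 1 Y).filter (fun n => Sf (Qr (QH Q H) q a) y n)).card : ℝ) := by
  have h1 : ∀ H ∈ powersetCard k W, (((Icc 1 Y).filter (fun n => Sf (Qr (QH Q H) q a) y n)).card : ℝ) =
      ∑ n ∈ Icc 1 Y, if (∀ h ∈ H, Sf Q y (q * n + a + h)) then (1 : ℝ) else 0 := by
    intro H _
    rw [Finset.sum_ite, Finset.sum_const_zero, add_zero, Finset.sum_const, nsmul_eq_mul, mul_one]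
    congr 2
    apply Finset.filter_congr
    intro m _
    exact sf_QH Q H y (q * m + a)
  rw [Finset.sum_congr rfl h1, Finset.sum_comm]
  apply Finset.sum_congr rfl
  intro m _
  rw [Finset.sum_ite, Finset.sum_const_zero, add_zero, Finset.sum_const, nsmul_eq_mul, mul_one]
  unfold NW
  rw [← Finset.card_powersetCard]
  congr 2
  ext H
  rw [mem_filter, mem_powersetCard, mem_powersetCard]
  constructor
  · rintro ⟨a1, a2⟩
    exact ⟨⟨fun h hh => (mem_filter.1 (a1 hh)).1, a2⟩, fun h hh => (mem_filter.1 (a1 hh)).2⟩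
  · rintro ⟨⟨a1, a2⟩, a3⟩
    exact ⟨fun h hh => mem_filter.2 ⟨a1 hh, a3 h hh⟩, a2⟩

open Classical in
/-- **Binomial moments.** -/
theorem momentW (c k : ℕ) (hc : 1 ≤ c) (η : ℝ) (hη : 0 < η) (hη1 : η ≤ 1) (C : ℕ → ℝ)
    (hC : ∀ w, 0 ≤ C w) :
    ∃ (K0 y0 T0 : ℕ) (η' : ℝ), 0 < η' ∧ ∀ Y y T : ℕ, y0 ≤ y → y ^ K0 ≤ Y → T0 ≤ T →
      ∀ Q : ℕ → ℕ → Prop, PerB Q c → (∀ p : ℕ, p.Prime → nuB Q p < p) →
      (∀ t ∈ Icc 1 T, ((((pz y).filter (fun p : ℕ => T < p ∧ CoG Q p t)).card : ℕ) : ℝ) ≤ η' * T) →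
      ∀ q a : ℕ, (∀ p : ℕ, p.Prime → p ∣ q → ∀ m, ¬ Q p m) →
      ∀ W : Finset ℕ, W ⊆ Icc 1 T →
      (∀ w m : ℕ, |((W.filter (fun h => Sf Q w (m + h))).card : ℝ) - W.card * Vq Q w| ≤ C w) →
      |∑ n ∈ Icc 1 Y, ((NW Q y q a W n).choose (k + 1) : ℝ) -
        Y * ((W.card * Vq Q y) ^ (k + 1) / (k + 1).factorial)| ≤
        η * Y * ((T * Vq Q y) ^ (k + 1) / (k + 1).factorial) + T ^ (k + 1) * √(Y : ℝ) := by
  obtain ⟨K0, x0, hK0, hfund⟩ := sys_fund ((k + 1) * c) (Nat.mul_pos (by omega) hc) (η / 4)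
    (by positivity)
  obtain ⟨w, η', T0, hη', hsing⟩ := sing_avgW c k (η / 4) (by positivity) (by linarith) C hC
  refine ⟨K0, max x0 w, T0, η', hη', ?_⟩
  intro Y y T hy hyY hT Q hQ hadm hlarge q a hq W hW hwin
  have s0 := hsing T hT Q hQ hadm y ((le_max_right _ _).trans hy) hlarge W hW hwin
  obtain ⟨s1, s2⟩ := abs_le.1 s0
  rw [moment_eqW]
  obtain ⟨S, hS⟩ : ∃ S, S = ∑ H ∈ powersetCard (k + 1) W, Vq (QH Q H) y := ⟨_, rfl⟩
  obtain ⟨Z, hZ⟩ : ∃ Z : ℝ, Z = (T * Vq Q y) ^ (k + 1) / (k + 1).factorial := ⟨_, rfl⟩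
  obtain ⟨z, hz⟩ : ∃ z : ℝ, z = (W.card * Vq Q y) ^ (k + 1) / (k + 1).factorial := ⟨_, rfl⟩
  rw [← hS, ← hZ, ← hz] at s1 s2
  rw [← hZ, ← hz]
  have hV0 := Vq_nonneg Q y
  have hZ0 : 0 ≤ Z := by rw [hZ]; positivity
  have hY0 : (0 : ℝ) ≤ Y := Nat.cast_nonneg Y
  have hWT : (W.card : ℝ) ≤ T := by
    have := card_le_card hW
    rw [Nat.card_Icc, Nat.add_sub_cancel] at this
    exact_mod_cast this
  have hzZ : z ≤ Z := by
    rw [hz, hZ]
    apply div_le_div_of_nonneg_right _ (by positivity)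
    apply pow_le_pow_left₀ (by positivity)
    exact mul_le_mul_of_nonneg_right hWT hV0
  have h1 : |∑ H ∈ powersetCard (k + 1) W,
      (((Icc 1 Y).filter (fun n => Sf (Qr (QH Q H) q a) y n)).card : ℝ) - Y * S| ≤
      η / 4 * (Y * S) + T ^ (k + 1) * √(Y : ℝ) := by
    have e : Y * S = ∑ H ∈ powersetCard (k + 1) W, (Y : ℝ) * Vq (QH Q H) y := by
      rw [hS, Finset.mul_sum]
    rw [e, ← Finset.sum_sub_distrib]
    refine (Finset.abs_sum_le_sum_abs _ _).trans ?_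
    have h2 : ∀ H ∈ powersetCard (k + 1) W,
        |(((Icc 1 Y).filter (fun n => Sf (Qr (QH Q H) q a) y n)).card : ℝ) - Y * Vq (QH Q H) y| ≤
        η / 4 * (Y * Vq (QH Q H) y) + √(Y : ℝ) := by
      intro H hH
      rw [mem_powersetCard] at hH
      have hper := perB_QH Q c hQ H
      rw [hH.2] at hper
      have hq' : ∀ p : ℕ, p.Prime → p ∣ q → ∀ m, ¬ QH Q H p m := by
        rintro p hp hpq m ⟨h, _, hh⟩
        exact hq p hp hpq _ hh
      have h3 := hfund Y y ((le_max_left _ _).trans hy) hyY (Qr (QH Q H) q a)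
        (qr_per (QH Q H) _ hper q a hq') Y
      have e1 : ∏ p ∈ pz y, (1 - (nuB (Qr (QH Q H) q a) p : ℝ) / p) = Vq (QH Q H) y :=
        qr_Vq (QH Q H) _ hper q a y hq'
      rw [e1] at h3
      unfold Sf
      convert h3
    refine (Finset.sum_le_sum h2).trans ?_
    rw [Finset.sum_add_distrib, ← Finset.mul_sum, Finset.sum_const, nsmul_eq_mul]
    have h3 : ((powersetCard (k + 1) W).card : ℝ) ≤ (T : ℝ) ^ (k + 1) := by
      rw [card_powersetCard]
      calc ((W.card.choose (k + 1) : ℕ) : ℝ) ≤ ((W.card ^ (k + 1) : ℕ) : ℝ) := by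
            exact_mod_cast Nat.choose_le_pow _ (k + 1)
        _ = (W.card : ℝ) ^ (k + 1) := by push_cast; rfl
        _ ≤ _ := pow_le_pow_left₀ (Nat.cast_nonneg _) hWT _
    have h4 := mul_le_mul_of_nonneg_right h3 (Real.sqrt_nonneg (Y : ℝ))
    linarith
  have h5 : |Y * S - Y * z| ≤ η / 4 * (Y * Z) := by
    rw [← mul_sub, abs_mul, abs_of_nonneg hY0]
    calc (Y : ℝ) * |S - z| ≤ Y * (η / 4 * Z) := mul_le_mul_of_nonneg_left (abs_le.2 ⟨s1, s2⟩) hY0
      _ = _ := by ring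
  have h6 : Y * S ≤ 2 * (Y * Z) := by
    have h7 := (abs_le.1 h5).2
    have h8 : 0 ≤ Y * Z := mul_nonneg hY0 hZ0
    have h9 : Y * z ≤ Y * Z := mul_le_mul_of_nonneg_left hzZ hY0
    nlinarith
  have h8 : 0 ≤ Y * Z := mul_nonneg hY0 hZ0
  have h9 := abs_sub_le (∑ H ∈ powersetCard (k + 1) W,
      (((Icc 1 Y).filter (fun n => Sf (Qr (QH Q H) q a) y n)).card : ℝ)) (Y * S) (Y * z)
  have h10 : η / 4 * (Y * S) ≤ η / 4 * (2 * (Y * Z)) :=
    mul_le_mul_of_nonneg_left h6 (by positivity)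
  have h11 : 0 ≤ η * (Y * Z) := by positivity
  calc _ ≤ _ := h9
    _ ≤ η / 4 * (2 * (Y * Z)) + T ^ (k + 1) * √(Y : ℝ) + η / 4 * (Y * Z) := by linarith
    _ ≤ _ := by linarith

open Classical in
/-- **The Poisson law for sets of shifts**, along progressions, uniform in the system `Q`. -/
theorem lawW (c : ℕ) (hc : 1 ≤ c) (x0 ε : ℝ) (hx0 : 0 ≤ x0) (hε : 0 < ε) (C : ℕ → ℝ) (hC : ∀ w, 0 ≤ C w) :
    ∃ (K0 y0 T0 R0 : ℕ) (η' : ℝ), 0 < η' ∧ ∀ Y y T : ℕ, y0 ≤ y → y ^ K0 ≤ Y → T0 ≤ T → T ^ R0 ≤ Y →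
      ∀ Q : ℕ → ℕ → Prop, PerB Q c → (∀ p : ℕ, p.Prime → nuB Q p < p) → T * Vq Q y ≤ x0 →
      (∀ t ∈ Icc 1 T, ((((pz y).filter (fun p : ℕ => T < p ∧ CoG Q p t)).card : ℕ) : ℝ) ≤ η' * T) →
      ∀ q a : ℕ, (∀ p : ℕ, p.Prime → p ∣ q → ∀ m, ¬ Q p m) →
      ∀ W : Finset ℕ, W ⊆ Icc 1 T →
      (∀ w m : ℕ, |((W.filter (fun h => Sf Q w (m + h))).card : ℝ) - W.card * Vq Q w| ≤ C w) →
      ∀ A : Finset ℕ, |(((Icc 1 Y).filter (fun n => NW Q y q a W n ∈ A)).card : ℝ) -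
        Y * ∑ j ∈ A, Real.exp (-(W.card * Vq Q y)) * (W.card * Vq Q y) ^ j / j.factorial| ≤ ε * Y := by
  obtain ⟨R, η, hη, htv⟩ := law_tv x0 ε hx0 hε
  obtain ⟨X1, hX1⟩ : ∃ X1 : ℝ, X1 = (1 + x0) ^ (R + 1) := ⟨_, rfl⟩
  have hX1pos : 1 ≤ X1 := by rw [hX1]; exact one_le_pow₀ (by linarith)
  obtain ⟨η1, hη1⟩ : ∃ η1 : ℝ, η1 = min 1 (η / (2 * X1)) := ⟨_, rfl⟩
  have hη10 : 0 < η1 := by rw [hη1]; positivity
  have hη11 : η1 ≤ 1 := by rw [hη1]; exact min_le_left _ _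
  have hη12 : η1 * X1 ≤ η / 2 := by
    have : η1 ≤ η / (2 * X1) := by rw [hη1]; exact min_le_right _ _
    rw [le_div_iff₀ (by positivity)] at this
    linarith
  choose K0 y0 T0 η' hη' hmom using fun k => momentW c k hc η1 hη10 hη11 C hC
  obtain ⟨y1, hy1⟩ : ∃ y1 : ℕ, (2 / η) ^ 4 ≤ y1 := exists_nat_ge _
  obtain ⟨η0, hη00, hη0⟩ := exists_lower η' hη' R
  refine ⟨(∑ k ∈ range R, K0 k) + 1, (∑ k ∈ range R, y0 k) + y1 + 1, (∑ k ∈ range R, T0 k) + 1,
    4 * (R + 1), η0, hη00, ?_⟩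
  intro Y y T hy hyY hT hTR Q hQ hadm hx' hlarge q a hq W hW hwin A
  have hV0 := Vq_nonneg Q y
  have hWT : (W.card : ℝ) ≤ T := by
    have := card_le_card hW
    rw [Nat.card_Icc, Nat.add_sub_cancel] at this
    exact_mod_cast this
  obtain ⟨x, hxdef⟩ : ∃ x, x = W.card * Vq Q y := ⟨_, rfl⟩
  have hx : x ≤ x0 := by
    rw [hxdef]
    exact (mul_le_mul_of_nonneg_right hWT hV0).trans hx'
  rw [← hxdef]
  have hx00 : 0 ≤ x := by
    rw [hxdef]
    exact mul_nonneg (Nat.cast_nonneg _) hV0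
  have hy1' : 1 ≤ y := by omega
  have hT1 : 1 ≤ T := by omega
  have hyY' : y ≤ Y := by
    calc y = y ^ 1 := (pow_one y).symm
      _ ≤ y ^ ((∑ k ∈ range R, K0 k) + 1) := Nat.pow_le_pow_right hy1' (by omega)
      _ ≤ Y := hyY
  have hY1 : (2 / η) ^ 4 ≤ (Y : ℝ) := hy1.trans (by exact_mod_cast (by omega : y1 ≤ Y))
  have hYpos : (0 : ℝ) < Y := lt_of_lt_of_le (by positivity) hY1
  have hs4 : 2 / η ≤ √(√(Y : ℝ)) := by
    apply Real.le_sqrt_of_sq_le
    apply Real.le_sqrt_of_sq_le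
    calc ((2 / η) ^ 2) ^ 2 = (2 / η) ^ 4 := by ring
      _ ≤ (Y : ℝ) := hY1
  have hT4 : (T : ℝ) ^ (R + 1) ≤ √(√(Y : ℝ)) := by
    apply Real.le_sqrt_of_sq_le
    apply Real.le_sqrt_of_sq_le
    calc (((T : ℝ) ^ (R + 1)) ^ 2) ^ 2 = (T : ℝ) ^ (4 * (R + 1)) := by
          rw [← pow_mul, ← pow_mul]
          congr 1
          ring
      _ ≤ Y := by exact_mod_cast hTR
  have hTY : (T : ℝ) ^ (R + 1) * √(Y : ℝ) ≤ η / 2 * Y := by
    have e1 : √(√(Y : ℝ)) * √(√(Y : ℝ)) = √(Y : ℝ) := Real.mul_self_sqrt (Real.sqrt_nonneg _)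
    have e2 : √(Y : ℝ) * √(Y : ℝ) = Y := Real.mul_self_sqrt hYpos.le
    have h1 : (T : ℝ) ^ (R + 1) * (2 / η) ≤ √(Y : ℝ) := by
      rw [← e1]
      exact mul_le_mul hT4 hs4 (by positivity) (Real.sqrt_nonneg _)
    calc (T : ℝ) ^ (R + 1) * √(Y : ℝ) = η / 2 * ((T : ℝ) ^ (R + 1) * (2 / η)) * √(Y : ℝ) := by
          field_simp
      _ ≤ η / 2 * √(Y : ℝ) * √(Y : ℝ) := by gcongr
      _ = η / 2 * Y := by rw [mul_assoc, e2]
  have hcard : ((Icc 1 Y).card : ℝ) = Y := by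
    rw [Nat.card_Icc, Nat.add_sub_cancel]
  have hmain := htv (Icc 1 Y) (NW Q y q a W) x hx00 hx (by
    intro k hk
    rw [hcard]
    rcases k with _ | k
    · simp
      positivity
    · have hkR : k ∈ range R := mem_range.2 (by omega)
      have hKk : K0 k ≤ ∑ k ∈ range R, K0 k := Finset.single_le_sum (fun _ _ => Nat.zero_le _) hkR
      have hyk : y0 k ≤ ∑ k ∈ range R, y0 k := Finset.single_le_sum (fun _ _ => Nat.zero_le _) hkR
      have hTk : T0 k ≤ ∑ k ∈ range R, T0 k := Finset.single_le_sum (fun _ _ => Nat.zero_le _) hkR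
      have h1 := hmom k Y y T (by omega)
        ((Nat.pow_le_pow_right hy1' (by omega)).trans hyY) (by omega) Q hQ hadm (fun t ht =>
          (hlarge t ht).trans (mul_le_mul_of_nonneg_right (hη0 k (by omega)) (Nat.cast_nonneg _)))
          q a hq W hW hwin
      rw [← hxdef] at h1
      refine h1.trans ?_
      have h2 : (T * Vq Q y) ^ (k + 1) / ((k + 1).factorial : ℝ) ≤ X1 := by
        have hf1 : (1 : ℝ) ≤ (k + 1).factorial := by exact_mod_cast Nat.factorial_pos (k + 1)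
        have hTV0 : 0 ≤ T * Vq Q y := by positivity
        calc (T * Vq Q y) ^ (k + 1) / ((k + 1).factorial : ℝ) ≤ (T * Vq Q y) ^ (k + 1) :=
              div_le_self (by positivity) hf1
          _ ≤ (1 + x0) ^ (k + 1) := pow_le_pow_left₀ hTV0 (by linarith) _
          _ ≤ (1 + x0) ^ (R + 1) := pow_le_pow_right₀ (by linarith) (by omega)
          _ = X1 := hX1.symm
      have h3 : (T : ℝ) ^ (k + 1) * √(Y : ℝ) ≤ η / 2 * Y := by
        refine le_trans ?_ hTY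
        apply mul_le_mul_of_nonneg_right _ (Real.sqrt_nonneg _)
        apply pow_le_pow_right₀ (by exact_mod_cast hT1) (by omega)
      have h4 : η1 * Y * ((T * Vq Q y) ^ (k + 1) / ((k + 1).factorial : ℝ)) ≤ η / 2 * Y := by
        calc η1 * Y * ((T * Vq Q y) ^ (k + 1) / ((k + 1).factorial : ℝ)) ≤ η1 * Y * X1 :=
              mul_le_mul_of_nonneg_left h2 (by positivity)
          _ = η1 * X1 * Y := by ring
          _ ≤ η / 2 * Y := by gcongr
      linarith) A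
  rw [hcard] at hmain
  exact hmain

end Pool.Agent.R463.PP
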