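import Pool.Agent.R463.PP2

set_option autoImplicit false

/-!
# Cells: the Poisson law for unions of pieces of progressions
-/

namespace Pool.Agent.R463.PP

open Finset Filter Pool.Agent.H373R2.T7 Pool.Agent.W123.RP Pool.Agent.W123.RU Pool.Agent.TH464.PO

/-- the shifts `i q d < h ≤ (i + 1) q d` with `h ≡ s` modulo `q` -/
def cell (q d : ℕ) (c : ℕ × ℕ) : Finset ℕ := (range d).image (fun j => c.1 * (q * d) + c.2 + q * j)

lemma mem_cell (q d : ℕ) (c : ℕ × ℕ) (h : ℕ) : h ∈ cell q d c ↔ ∃ j < d, c.1 * (q * d) + c.2 + q * j = h := by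
  unfold cell
  simp only [mem_image, mem_range]

lemma cell_inj (q d : ℕ) (hq : 1 ≤ q) (c : ℕ × ℕ) :
    Set.InjOn (fun j => c.1 * (q * d) + c.2 + q * j) (range d : Finset ℕ) := by
  intro j _ j' _ h
  have h1 : q * j = q * j' := by
    simp only at h
    omega
  exact Nat.eq_of_mul_eq_mul_left hq h1

lemma cell_card (q d : ℕ) (hq : 1 ≤ q) (c : ℕ × ℕ) : (cell q d c).card = d := by
  unfold cell
  rw [card_image_of_injOn (cell_inj q d hq c), card_range]

lemma cell_bounds (q d : ℕ) (c : ℕ × ℕ) (hc : c.2 ∈ Icc 1 q) (h : ℕ) (hh : h ∈ cell q d c) :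
    c.1 * (q * d) < h ∧ h ≤ (c.1 + 1) * (q * d) := by
  obtain ⟨j, hj, rfl⟩ := (mem_cell q d c h).1 hh
  rw [mem_Icc] at hc
  refine ⟨by omega, ?_⟩
  have h1 : q * j + q ≤ q * d := by
    have : q * (j + 1) ≤ q * d := Nat.mul_le_mul_left q hj
    linarith
  rw [add_mul, one_mul]
  omega

lemma cell_of_slot (q d i h : ℕ) (hq : 1 ≤ q) (h1 : i * (q * d) < h) (h2 : h ≤ (i + 1) * (q * d)) :
    ∃ s ∈ Icc 1 q, h ∈ cell q d (i, s) ∧ h % q = s % q := by
  obtain ⟨u, hu⟩ : ∃ u, u = h - i * (q * d) - 1 := ⟨_, rfl⟩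
  have hh : h = i * (q * d) + 1 + u := by omega
  rw [add_mul, one_mul] at h2
  have hud : u < q * d := by omega
  have hmod : u % q < q := Nat.mod_lt _ hq
  have hdiv := Nat.div_add_mod u q
  refine ⟨u % q + 1, mem_Icc.2 ⟨by omega, by omega⟩, ?_, ?_⟩
  · rw [mem_cell]
    refine ⟨u / q, Nat.div_lt_of_lt_mul hud, ?_⟩
    simp only
    omega
  · have e : h = (u % q + 1) + q * (u / q + i * d) := by
      rw [hh, mul_add]
      have : q * (i * d) = i * (q * d) := by ring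
      omega
    rw [e, Nat.add_mul_mod_self_left]

lemma cell_disj (q d : ℕ) (hq : 1 ≤ q) (c c' : ℕ × ℕ) (hc : c.2 ∈ Icc 1 q) (hc' : c'.2 ∈ Icc 1 q) (hne : c ≠ c') :
    Disjoint (cell q d c) (cell q d c') := by
  rw [Finset.disjoint_left]
  intro h hh hh'
  apply hne
  have b1 := cell_bounds q d c hc h hh
  have b2 := cell_bounds q d c' hc' h hh'
  obtain ⟨j, hj, e1⟩ := (mem_cell q d c h).1 hh
  obtain ⟨j', hj', e2⟩ := (mem_cell q d c' h).1 hh'
  have hi : c.1 = c'.1 := by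
    rcases lt_trichotomy c.1 c'.1 with h1 | h1 | h1
    · have : (c.1 + 1) * (q * d) ≤ c'.1 * (q * d) := Nat.mul_le_mul_right _ h1
      omega
    · exact h1
    · have : (c'.1 + 1) * (q * d) ≤ c.1 * (q * d) := Nat.mul_le_mul_right _ h1
      omega
  rw [mem_Icc] at hc hc'
  rw [hi] at e1
  have e3 : c.2 + q * j = c'.2 + q * j' := by omega
  have e4 : c.2 - 1 + q * j = c'.2 - 1 + q * j' := by omega
  have e5 : (c.2 - 1 + q * j) % q = (c'.2 - 1 + q * j') % q := by rw [e4]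
  rw [Nat.add_mul_mod_self_left, Nat.add_mul_mod_self_left, Nat.mod_eq_of_lt (by omega),
    Nat.mod_eq_of_lt (by omega)] at e5
  exact Prod.ext hi (by omega)

/-- the union of the cells of `S` -/
def WS (q d : ℕ) (S : Finset (ℕ × ℕ)) : Finset ℕ := S.biUnion (cell q d)

lemma WS_card (q d : ℕ) (hq : 1 ≤ q) (S : Finset (ℕ × ℕ)) (hS : ∀ c ∈ S, c.2 ∈ Icc 1 q) :
    (WS q d S).card = S.card * d := by
  unfold WS
  rw [card_biUnion (fun c hc c' hc' hne => cell_disj q d hq c c' (hS c hc) (hS c' hc') hne),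
    Finset.sum_congr rfl (fun c _ => cell_card q d hq c), Finset.sum_const, smul_eq_mul]

lemma WS_sub (q d L : ℕ) (S : Finset (ℕ × ℕ)) (hS : S ⊆ range L ×ˢ Icc 1 q) :
    WS q d S ⊆ Icc 1 (L * (q * d)) := by
  intro h hh
  unfold WS at hh
  rw [mem_biUnion] at hh
  obtain ⟨c, hc, hcc⟩ := hh
  have h1 := mem_product.1 (hS hc)
  have h2 := cell_bounds q d c h1.2 h hcc
  have h3 : (c.1 + 1) * (q * d) ≤ L * (q * d) := Nat.mul_le_mul_right _ (mem_range.1 h1.1)
  rw [mem_Icc]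
  exact ⟨by omega, by omega⟩

open Classical in
/-- the number of sifted integers of a window starting at `0` -/
lemma window0 (Q : ℕ → ℕ → Prop) (c : ℕ) (hQ : PerB Q c) (w T : ℕ) :
    |((((range T).filter (fun h => Sf Q w h)).card : ℕ) : ℝ) - T * Vq Q w| ≤ Mw w := by
  have h1 := window Q c hQ w (Mw w - 1) T
  have hM := Mw_pos w
  have e : ((Icc 1 T).filter (fun h => Sf Q w (Mw w - 1 + h))).card =
      ((range T).filter (fun h => Sf Q w h)).card := by
    symm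
    apply Finset.card_bij (fun j _ => j + 1)
    · intro j hj
      rw [mem_filter, mem_range] at hj
      rw [mem_filter, mem_Icc]
      refine ⟨by omega, ?_⟩
      have h2 := sf_periodic Q c hQ w j
      simp only at h2
      rw [show Mw w - 1 + (j + 1) = j + Mw w by omega, h2]
      exact hj.2
    · intro a _ b _ hab
      omega
    · intro b hb
      rw [mem_filter, mem_Icc] at hb
      refine ⟨b - 1, ?_, by omega⟩
      rw [mem_filter, mem_range]
      refine ⟨by omega, ?_⟩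
      have h2 := sf_periodic Q c hQ w (b - 1)
      simp only at h2
      rw [← h2, show b - 1 + Mw w = Mw w - 1 + b by omega]
      exact hb.2
  rw [e] at h1
  exact h1

open Classical in
lemma cell_win (Q : ℕ → ℕ → Prop) (c0 : ℕ) (hQ : PerB Q c0) (q d : ℕ) (hq : 1 ≤ q)
    (hqQ : ∀ p : ℕ, p.Prime → p ∣ q → ∀ m, ¬ Q p m) (c : ℕ × ℕ) (w m : ℕ) :
    |((((cell q d c).filter (fun h => Sf Q w (m + h))).card : ℕ) : ℝ) - d * Vq Q w| ≤ Mw w := by
  have h1 := window0 (Qr Q q (m + c.1 * (q * d) + c.2)) c0 (qr_per Q c0 hQ q _ hqQ) w d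
  rw [qr_Vq Q c0 hQ q _ w hqQ] at h1
  have e : ((range d).filter (fun h => Sf (Qr Q q (m + c.1 * (q * d) + c.2)) w h)).card =
      ((cell q d c).filter (fun h => Sf Q w (m + h))).card := by
    unfold cell
    rw [Finset.filter_image, card_image_of_injOn ((cell_inj q d hq c).mono (by
      intro x hx
      exact Finset.mem_coe.2 (mem_filter.1 (Finset.mem_coe.1 hx)).1))]
    congr 1
    apply filter_congr
    intro j _
    unfold Sf Qr
    rw [show q * j + (m + c.1 * (q * d) + c.2) = m + (c.1 * (q * d) + c.2 + q * j) by ring]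
  rw [e] at h1
  exact h1

open Classical in
lemma WS_win (Q : ℕ → ℕ → Prop) (c0 : ℕ) (hQ : PerB Q c0) (q d : ℕ) (hq : 1 ≤ q)
    (hqQ : ∀ p : ℕ, p.Prime → p ∣ q → ∀ m, ¬ Q p m) (S : Finset (ℕ × ℕ)) (hS : ∀ c ∈ S, c.2 ∈ Icc 1 q)
    (N : ℕ) (hN : S.card ≤ N) (w m : ℕ) :
    |((((WS q d S).filter (fun h => Sf Q w (m + h))).card : ℕ) : ℝ) - (WS q d S).card * Vq Q w| ≤
      N * Mw w := by
  have h1 : ((WS q d S).filter (fun h => Sf Q w (m + h))).card =
      ∑ c ∈ S, ((cell q d c).filter (fun h => Sf Q w (m + h))).card := by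
    unfold WS
    rw [Finset.filter_biUnion, card_biUnion]
    intro c hc c' hc' hne
    exact Finset.disjoint_filter_filter (cell_disj q d hq c c' (hS c hc) (hS c' hc') hne)
  rw [h1, WS_card q d hq S hS]
  have e : (((∑ c ∈ S, ((cell q d c).filter (fun h => Sf Q w (m + h))).card : ℕ)) : ℝ) -
      ((S.card * d : ℕ) : ℝ) * Vq Q w =
      ∑ c ∈ S, (((((cell q d c).filter (fun h => Sf Q w (m + h))).card : ℕ) : ℝ) - d * Vq Q w) := by
    rw [Finset.sum_sub_distrib, Finset.sum_const, nsmul_eq_mul]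
    push_cast
    ring
  rw [e]
  refine (Finset.abs_sum_le_sum_abs _ _).trans ?_
  refine (Finset.sum_le_card_nsmul _ _ _ (fun c _ => cell_win Q c0 hQ q d hq hqQ c w m)).trans ?_
  rw [nsmul_eq_mul]
  have : (S.card : ℝ) ≤ N := by exact_mod_cast hN
  exact mul_le_mul_of_nonneg_right this (Nat.cast_nonneg _)

open Classical in
/-- the number of elements of `g` in the cells of `S`, from `q v + a` on -/
noncomputable def Nc (g : ℕ → Prop) (q d a : ℕ) (S : Finset (ℕ × ℕ)) (v : ℕ) : ℕ :=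
  ((WS q d S).filter (fun h => g (q * v + a + h))).card

open Classical in
/-- **The Poisson law for unions of cells.** -/
theorem lawC (c q L : ℕ) (hc : 1 ≤ c) (hq : 1 ≤ q) (x0 ε : ℝ) (hx0 : 0 ≤ x0) (hε : 0 < ε) :
    ∃ (K0 y0 T0 R0 : ℕ) (η' : ℝ), 0 < η' ∧ ∀ Y y d : ℕ, y0 ≤ y → y ^ K0 ≤ Y → T0 ≤ L * (q * d) →
      (L * (q * d)) ^ R0 ≤ Y →
      ∀ Q : ℕ → ℕ → Prop, PerB Q c → (∀ p : ℕ, p.Prime → nuB Q p < p) →
      ((L * (q * d) : ℕ) : ℝ) * Vq Q y ≤ x0 →
      (∀ t ∈ Icc 1 (L * (q * d)),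
        ((((pz y).filter (fun p : ℕ => L * (q * d) < p ∧ CoG Q p t)).card : ℕ) : ℝ) ≤
          η' * ((L * (q * d) : ℕ) : ℝ)) →
      (∀ p : ℕ, p.Prime → p ∣ q → ∀ m, ¬ Q p m) →
      ∀ a : ℕ, ∀ S : Finset (ℕ × ℕ), S ⊆ range L ×ˢ Icc 1 q →
      ∀ A : Finset ℕ, |(((Icc 1 Y).filter (fun n => Nc (Sf Q y) q d a S n ∈ A)).card : ℝ) -
        Y * ∑ j ∈ A, Real.exp (-(S.card * (d * Vq Q y))) * (S.card * (d * Vq Q y)) ^ j / j.factorial| ≤
          ε * Y := by
  obtain ⟨K0, y0, T0, R0, η', hη', h⟩ := lawW c hc x0 ε hx0 hε (fun w => ((L * q : ℕ) : ℝ) * Mw w)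
    (fun w => by positivity)
  refine ⟨K0, y0, T0, R0, η', hη', ?_⟩
  intro Y y d hy hyY hT hTR Q hQ hadm hx hlarge hqQ a S hS A
  have hS' : ∀ c ∈ S, c.2 ∈ Icc 1 q := fun c hc => (mem_product.1 (hS hc)).2
  have hN : S.card ≤ L * q := by
    have := card_le_card hS
    rwa [card_product, card_range, Nat.card_Icc, Nat.add_sub_cancel] at this
  have h1 := h Y y (L * (q * d)) hy hyY hT hTR Q hQ hadm hx hlarge q a hqQ (WS q d S) (WS_sub q d L S hS)
    (fun w m => WS_win Q c hQ q d hq hqQ S hS' (L * q) hN w m) A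
  have e : ((WS q d S).card : ℝ) * Vq Q y = S.card * (d * Vq Q y) := by
    rw [WS_card q d hq S hS']
    push_cast
    ring
  rw [e] at h1
  exact h1

end Pool.Agent.R463.PP
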