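import Pool.Agent.R463.PP3

set_option autoImplicit false

/-!
# Patterns of consecutive elements: combinatorics
-/

namespace Pool.Agent.R463.PP

open Finset Filter Pool.Agent.TH464.PO

/-! ### inclusion and exclusion -/

/-- the Poisson law for the cells -/
def HL (g : ℕ → Prop) (q d L Y : ℕ) (μ ε : ℝ) : Prop :=
  ∀ a : ℕ, ∀ S : Finset (ℕ × ℕ), S ⊆ range L ×ˢ Icc 1 q → ∀ A : Finset ℕ,
    |((((Icc 1 Y).filter (fun n => Nc g q d a S n ∈ A)).card : ℕ) : ℝ) -
      Y * ∑ j ∈ A, Real.exp (-(S.card * μ)) * (S.card * μ) ^ j / j.factorial| ≤ ε * Y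

lemma Nc_zero (g : ℕ → Prop) (q d a : ℕ) (S : Finset (ℕ × ℕ)) (v : ℕ) :
    Nc g q d a S v = 0 ↔ ∀ c ∈ S, ∀ h ∈ cell q d c, ¬ g (q * v + a + h) := by
  classical
  unfold Nc WS
  rw [card_eq_zero, Finset.filter_eq_empty_iff]
  simp only [mem_biUnion, forall_exists_index, and_imp]
  constructor
  · intro h c hc x hx
    exact h c hc hx
  · intro h x c hc hx
    exact h c hc x hx

lemma Nc_zero_union (g : ℕ → Prop) (q d a : ℕ) (R S : Finset (ℕ × ℕ)) (v : ℕ) :
    Nc g q d a (R ∪ S) v = 0 ↔ Nc g q d a R v = 0 ∧ ∀ c ∈ S, Nc g q d a {c} v = 0 := by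
  simp only [Nc_zero, mem_union, mem_singleton, forall_eq]
  constructor
  · intro h
    exact ⟨fun c hc => h c (Or.inl hc), fun c hc => h c (Or.inr hc)⟩
  · rintro ⟨h1, h2⟩ c (hc | hc)
    · exact h1 c hc
    · exact h2 c hc

open Classical in
/-- the number of the `v` for which the cells of `R` are empty and those of `C` are not -/
theorem incl_excl (g : ℕ → Prop) (q d L Y : ℕ) (μ ε : ℝ) (h : HL g q d L Y μ ε) (a : ℕ)
    (R C : Finset (ℕ × ℕ)) (hR : R ⊆ range L ×ˢ Icc 1 q) (hC : C ⊆ range L ×ˢ Icc 1 q)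
    (hdis : Disjoint R C) :
    Y * (Real.exp (-(R.card * μ)) * (1 - Real.exp (-μ)) ^ C.card - 2 ^ C.card * ε) ≤
      ((((Icc 1 Y).filter (fun v => Nc g q d a R v = 0 ∧ ∀ c ∈ C, Nc g q d a {c} v ≠ 0)).card : ℕ) : ℝ) := by
  have hind : ∀ v : ℕ, (if (Nc g q d a R v = 0 ∧ ∀ c ∈ C, Nc g q d a {c} v ≠ 0) then (1 : ℝ) else 0) =
      ∑ S ∈ C.powerset, (-1 : ℝ) ^ S.card * (if Nc g q d a (R ∪ S) v = 0 then 1 else 0) := by
    intro v
    have h1 : ∏ c ∈ C, ((1 : ℝ) + (if Nc g q d a {c} v = 0 then -1 else 0)) =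
        ∑ S ∈ C.powerset, ∏ c ∈ S, (if Nc g q d a {c} v = 0 then (-1 : ℝ) else 0) :=
      Finset.prod_one_add _
    have h2 : ∏ c ∈ C, ((1 : ℝ) + (if Nc g q d a {c} v = 0 then -1 else 0)) =
        if (∀ c ∈ C, Nc g q d a {c} v ≠ 0) then 1 else 0 := by
      split_ifs with hh
      · apply Finset.prod_eq_one
        intro c hc
        rw [if_neg (hh c hc), add_zero]
      · push Not at hh
        obtain ⟨c, hc, hc0⟩ := hh
        apply Finset.prod_eq_zero hc
        rw [if_pos hc0]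
        norm_num
    have h3 : ∀ S ∈ C.powerset, ∏ c ∈ S, (if Nc g q d a {c} v = 0 then (-1 : ℝ) else 0) =
        (-1) ^ S.card * (if (∀ c ∈ S, Nc g q d a {c} v = 0) then 1 else 0) := by
      intro S _
      split_ifs with hh
      · rw [mul_one, ← Finset.prod_const]
        apply Finset.prod_congr rfl
        intro c hc
        rw [if_pos (hh c hc)]
      · push Not at hh
        obtain ⟨c, hc, hc0⟩ := hh
        rw [mul_zero]
        apply Finset.prod_eq_zero hc
        rw [if_neg hc0]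
    rw [Finset.sum_congr rfl h3, h2] at h1
    by_cases hR0 : Nc g q d a R v = 0
    · have e1 : ∀ S ∈ C.powerset, (-1 : ℝ) ^ S.card * (if Nc g q d a (R ∪ S) v = 0 then 1 else 0) =
          (-1) ^ S.card * (if (∀ c ∈ S, Nc g q d a {c} v = 0) then 1 else 0) := by
        intro S _
        congr 1
        have : Nc g q d a (R ∪ S) v = 0 ↔ ∀ c ∈ S, Nc g q d a {c} v = 0 := by
          rw [Nc_zero_union]
          exact ⟨fun x => x.2, fun x => ⟨hR0, x⟩⟩
        simp only [this]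
      rw [Finset.sum_congr rfl e1, ← h1]
      have : (Nc g q d a R v = 0 ∧ ∀ c ∈ C, Nc g q d a {c} v ≠ 0) ↔ ∀ c ∈ C, Nc g q d a {c} v ≠ 0 :=
        ⟨fun x => x.2, fun x => ⟨hR0, x⟩⟩
      simp only [this]
    · rw [if_neg (fun x => hR0 x.1)]
      symm
      apply Finset.sum_eq_zero
      intro S _
      rw [if_neg (fun x => hR0 ((Nc_zero_union g q d a R S v).1 x).1), mul_zero]
  have hcount : ((((Icc 1 Y).filter (fun v => Nc g q d a R v = 0 ∧
      ∀ c ∈ C, Nc g q d a {c} v ≠ 0)).card : ℕ) : ℝ) =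
      ∑ S ∈ C.powerset, (-1 : ℝ) ^ S.card *
        ((((Icc 1 Y).filter (fun v => Nc g q d a (R ∪ S) v = 0)).card : ℕ) : ℝ) := by
    have e1 : ((((Icc 1 Y).filter (fun v => Nc g q d a R v = 0 ∧
        ∀ c ∈ C, Nc g q d a {c} v ≠ 0)).card : ℕ) : ℝ) =
        ∑ v ∈ Icc 1 Y, if (Nc g q d a R v = 0 ∧ ∀ c ∈ C, Nc g q d a {c} v ≠ 0) then (1 : ℝ) else 0 := by
      rw [Finset.sum_ite, Finset.sum_const_zero, add_zero, Finset.sum_const, nsmul_eq_mul, mul_one]
    rw [e1, Finset.sum_congr rfl (fun v _ => hind v), Finset.sum_comm]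
    apply Finset.sum_congr rfl
    intro S _
    rw [← Finset.mul_sum]
    congr 1
    rw [Finset.sum_ite, Finset.sum_const_zero, add_zero, Finset.sum_const, nsmul_eq_mul, mul_one]
  have hterm : ∀ S ∈ C.powerset, (-1 : ℝ) ^ S.card * (Y * Real.exp (-((R.card + S.card : ℕ) * μ))) - ε * Y ≤
      (-1 : ℝ) ^ S.card * ((((Icc 1 Y).filter (fun v => Nc g q d a (R ∪ S) v = 0)).card : ℕ) : ℝ) := by
    intro S hS
    have hSC := mem_powerset.1 hS
    have h1 := h a (R ∪ S) (union_subset hR (hSC.trans hC)) {0}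
    have hcard : (R ∪ S).card = R.card + S.card :=
      card_union_of_disjoint (Finset.disjoint_of_subset_right hSC hdis)
    rw [hcard] at h1
    simp only [mem_singleton, sum_singleton, pow_zero, mul_one, Nat.factorial_zero, Nat.cast_one, div_one] at h1
    obtain ⟨h2, h3⟩ := abs_le.1 h1
    rcases neg_one_pow_eq_or ℝ S.card with h4 | h4
    · rw [h4]
      linarith
    · rw [h4]
      linarith
  rw [hcount]
  refine le_trans (le_of_eq ?_) (Finset.sum_le_sum hterm)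
  rw [Finset.sum_sub_distrib, Finset.sum_const, card_powerset, nsmul_eq_mul]
  have e2 : ∑ S ∈ C.powerset, (-1 : ℝ) ^ S.card * (Y * Real.exp (-((R.card + S.card : ℕ) * μ))) =
      Y * (Real.exp (-(R.card * μ)) * (1 - Real.exp (-μ)) ^ C.card) := by
    have e3 : ∏ c ∈ C, ((1 : ℝ) + (-Real.exp (-μ))) = ∑ S ∈ C.powerset, ∏ c ∈ S, (-Real.exp (-μ)) :=
      Finset.prod_one_add _
    rw [Finset.prod_const] at e3
    have e4 : (1 : ℝ) - Real.exp (-μ) = 1 + (-Real.exp (-μ)) := by ring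
    rw [e4, e3, Finset.mul_sum, Finset.mul_sum]
    apply Finset.sum_congr rfl
    intro S _
    rw [Finset.prod_const]
    have e5 : Real.exp (-((R.card + S.card : ℕ) * μ)) = Real.exp (-(R.card * μ)) * Real.exp (-μ) ^ S.card := by
      rw [← Real.exp_nat_mul, ← Real.exp_add]
      congr 1
      push_cast
      ring
    rw [e5, neg_pow (Real.exp (-μ))]
    ring
  rw [e2]
  push_cast
  ring

open Classical in
lemma three (g : ℕ → Prop) (q d L Y : ℕ) (μ ε : ℝ) (hμ : 0 ≤ μ) (h : HL g q d L Y μ ε) (a : ℕ)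
    (S : Finset (ℕ × ℕ)) (hS : S ⊆ range L ×ˢ Icc 1 q) :
    ((((Icc 1 Y).filter (fun v => 3 ≤ Nc g q d a S v)).card : ℕ) : ℝ) ≤ Y * ((S.card * μ) ^ 3 + ε) := by
  have h1 := h a S hS (range 3)
  obtain ⟨h2, h3⟩ := abs_le.1 h1
  have hx : 0 ≤ S.card * μ := by positivity
  have h4 := one_sub_Ck 3 (S.card * μ) hx
  have h5 : (S.card * μ) ^ 3 / ((3 : ℕ).factorial : ℝ) ≤ (S.card * μ) ^ 3 :=
    div_le_self (by positivity) (by exact_mod_cast Nat.factorial_pos 3)
  have h6 : 1 - (S.card * μ) ^ 3 ≤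
      ∑ j ∈ range 3, Real.exp (-(S.card * μ)) * (S.card * μ) ^ j / j.factorial := by
    have : Ck 3 (S.card * μ) = ∑ j ∈ range 3, Real.exp (-(S.card * μ)) * (S.card * μ) ^ j / j.factorial := rfl
    rw [← this]
    linarith
  have h7 : ((Icc 1 Y).filter (fun v => Nc g q d a S v ∈ range 3)).card +
      ((Icc 1 Y).filter (fun v => 3 ≤ Nc g q d a S v)).card = Y := by
    have := Finset.card_filter_add_card_filter_not (s := Icc 1 Y) (fun v => Nc g q d a S v ∈ range 3)
    rw [Nat.card_Icc, Nat.add_sub_cancel] at this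
    refine Eq.trans ?_ this
    congr 2
    apply filter_congr
    intro v _
    rw [mem_range, not_lt]
  have h8 : ((((Icc 1 Y).filter (fun v => Nc g q d a S v ∈ range 3)).card : ℕ) : ℝ) +
      ((((Icc 1 Y).filter (fun v => 3 ≤ Nc g q d a S v)).card : ℕ) : ℝ) = Y := by exact_mod_cast h7
  have hY : (0 : ℝ) ≤ Y := Nat.cast_nonneg Y
  have h9 := mul_le_mul_of_nonneg_left h6 hY
  linarith

/-! ### consecutive elements -/

/-- the least element of `G` larger than `n` -/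
noncomputable def nx (G : ℕ → Prop) (n : ℕ) : ℕ := sInf {m | n < m ∧ G m}

/-- the `j`-th element of `G` after `n` -/
noncomputable def sq (G : ℕ → Prop) (n j : ℕ) : ℕ := (nx G)^[j] n

/-- the residues of the next `l` elements are `b j`, the gaps are in `(s j, T j]` -/
def Ev (G : ℕ → Prop) (q l : ℕ) (b s T : ℕ → ℕ) (n : ℕ) : Prop :=
  ∀ j < l, sq G n (j + 1) % q = b j ∧ s j < sq G n (j + 1) - sq G n j ∧ sq G n (j + 1) - sq G n j ≤ T j

lemma sq_zero (G : ℕ → Prop) (n : ℕ) : sq G n 0 = n := rfl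

lemma sq_succ (G : ℕ → Prop) (n j : ℕ) : sq G n (j + 1) = nx G (sq G n j) := by
  unfold sq
  rw [Function.iterate_succ_apply']

lemma nx_eq (G : ℕ → Prop) (n m : ℕ) (h1 : n < m) (h2 : G m) (h3 : ∀ x, n < x → x < m → ¬ G x) :
    nx G n = m := by
  unfold nx
  have hne : ({m | n < m ∧ G m} : Set ℕ).Nonempty := ⟨m, h1, h2⟩
  apply le_antisymm
  · exact Nat.sInf_le ⟨h1, h2⟩
  · by_contra hcon
    rw [not_le] at hcon
    obtain ⟨h4, h5⟩ := Nat.sInf_mem hne
    exact h3 _ h4 hcon h5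

open Classical in
theorem core (G : ℕ → Prop) (n D q l : ℕ) (P : ℕ → ℕ) (hP : ∀ j < l, P j < P (j + 1)) (hP0 : P 0 = 0)
    (cl : ℕ → ℕ)
    (H1 : ∀ i ≤ P l, (∀ j ≤ l, i ≠ P j) → ∀ m, n + i * D < m → m ≤ n + (i + 1) * D → ¬ G m)
    (H2 : ∀ j ≤ l, ∃ m, n + P j * D < m ∧ m ≤ n + (P j + 1) * D ∧ G m)
    (H2' : ∀ j ≤ l, ∀ m, n + P j * D < m → m ≤ n + (P j + 1) * D → G m → m % q = cl j)
    (H3 : ∀ j ≤ l, 1 ≤ j → ∀ m m', n + P j * D < m → m ≤ n + (P j + 1) * D → n + P j * D < m' →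
      m' ≤ n + (P j + 1) * D → G m → G m' → m = m')
    (b s T : ℕ → ℕ) (hb : ∀ j < l, b j = cl (j + 1)) (hs : ∀ j < l, s j + (P j + 1) * D ≤ P (j + 1) * D)
    (hT : ∀ j < l, (P (j + 1) + 1) * D ≤ T j + P j * D) :
    ∃ p, n < p ∧ p ≤ n + D ∧ G p ∧ p % q = cl 0 ∧ Ev G q l b s T p := by
  have hmax : ∀ j, ∃ x, j ≤ l → (n + P j * D < x ∧ x ≤ n + (P j + 1) * D ∧ G x ∧
      ∀ m, n + P j * D < m → m ≤ n + (P j + 1) * D → G m → m ≤ x) := by
    intro j
    by_cases hj : j ≤ l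
    · obtain ⟨m, h1, h2, h3⟩ := H2 j hj
      obtain ⟨x, hx, hmx⟩ := Finset.exists_max_image ((Ioc (n + P j * D) (n + (P j + 1) * D)).filter G) id
        ⟨m, mem_filter.2 ⟨mem_Ioc.2 ⟨h1, h2⟩, h3⟩⟩
      rw [mem_filter, mem_Ioc] at hx
      refine ⟨x, fun _ => ⟨hx.1.1, hx.1.2, hx.2, fun m' a1 a2 a3 => ?_⟩⟩
      exact hmx m' (mem_filter.2 ⟨mem_Ioc.2 ⟨a1, a2⟩, a3⟩)
    · exact ⟨0, fun h => absurd h hj⟩
  choose x hx using hmax
  have hmono : ∀ a b, a ≤ b → b ≤ l → P a ≤ P b := by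
    intro a b hab hbl
    induction b with
    | zero =>
      have : a = 0 := by omega
      rw [this]
    | succ b ih =>
      rcases Nat.lt_or_ge a (b + 1) with h | h
      · exact (ih (by omega) (by omega)).trans (hP b (by omega)).le
      · have : a = b + 1 := by omega
        rw [this]
  have hD : 0 < D := by
    obtain ⟨m, h1, h2, _⟩ := H2 0 (Nat.zero_le l)
    rw [add_mul, one_mul] at h2
    omega
  have hnx : ∀ j < l, nx G (x j) = x (j + 1) := by
    intro j hj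
    obtain ⟨a1, a2, a3, a4⟩ := hx j (by omega)
    obtain ⟨b1, b2, b3, b4⟩ := hx (j + 1) (by omega)
    have hPj := hP j hj
    apply nx_eq G
    · have : (P j + 1) * D ≤ P (j + 1) * D := Nat.mul_le_mul_right D hPj
      omega
    · exact b3
    · intro m hm1 hm2 hG
      obtain ⟨i, hi⟩ : ∃ i, i = (m - n - 1) / D := ⟨_, rfl⟩
      have hi1 : i * D ≤ m - n - 1 := by rw [hi]; exact Nat.div_mul_le_self _ _
      have hi2 : m - n - 1 < (i + 1) * D := by
        rw [hi]
        have := Nat.lt_div_mul_add (a := m - n - 1) hD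
        rw [add_mul, one_mul]
        exact this
      have hPji : P j ≤ i := by
        rw [hi]
        rw [Nat.le_div_iff_mul_le hD]
        omega
      have hiP : i ≤ P (j + 1) := by
        by_contra hcon
        rw [not_le] at hcon
        have : (P (j + 1) + 1) * D ≤ i * D := Nat.mul_le_mul_right D hcon
        omega
      have hm3 : n + i * D < m := by omega
      have hm4 : m ≤ n + (i + 1) * D := by omega
      by_cases e1 : i = P j
      · rw [e1] at hm3 hm4
        have := a4 m hm3 hm4 hG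
        omega
      by_cases e2 : i = P (j + 1)
      · rw [e2] at hm3 hm4
        have := H3 (j + 1) (by omega) (by omega) m (x (j + 1)) hm3 hm4 b1 b2 hG b3
        omega
      refine H1 i (hiP.trans (hmono _ _ (by omega) le_rfl)) ?_ m hm3 hm4 hG
      intro j' hj' hij
      rcases Nat.lt_or_ge j j' with h | h
      · have := hmono (j + 1) j' h hj'
        omega
      · have := hmono j' j h (by omega)
        omega
  have hsq : ∀ j ≤ l, sq G (x 0) j = x j := by
    intro j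
    induction j with
    | zero => intro _; rfl
    | succ j ih =>
      intro hj
      rw [sq_succ, ih (by omega), hnx j (by omega)]
  obtain ⟨c1, c2, c3, _⟩ := hx 0 (Nat.zero_le l)
  rw [hP0] at c1 c2
  refine ⟨x 0, by omega, by omega, c3, H2' 0 (Nat.zero_le l) (x 0) (by rw [hP0]; exact c1)
    (by rw [hP0]; exact c2) c3, ?_⟩
  intro j hj
  rw [hsq (j + 1) (by omega), hsq j (by omega)]
  obtain ⟨a1, a2, a3, _⟩ := hx j (by omega)
  obtain ⟨b1, b2, b3, _⟩ := hx (j + 1) (by omega)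
  have h1 := hs j hj
  have h2 := hT j hj
  refine ⟨?_, by omega, by omega⟩
  rw [hb j hj]
  exact H2' (j + 1) (by omega) _ b1 b2 b3

end Pool.Agent.R463.PP
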