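import Pool.Agent.R463.PP4

set_option autoImplicit false

/-!
# Patterns of consecutive elements: the lower bound
-/

namespace Pool.Agent.R463.PP

open Finset Filter Pool.Agent.TH464.PO

/-! ### offsets and partial sums -/

lemma off_exists (q a c : ℕ) (hc : c < q) : ∃ s ∈ Icc 1 q, (a + s) % q = c := by
  refine ⟨(c + q - a % q - 1) % q + 1, mem_Icc.2 ⟨by omega, ?_⟩, ?_⟩
  · have := Nat.mod_lt (c + q - a % q - 1) (by omega : 0 < q)
    omega
  · have h0 : a % q < q := Nat.mod_lt _ (by omega)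
    have h1 : (a + ((c + q - a % q - 1) % q + 1)) % q = (a % q + 1 + (c + q - a % q - 1)) % q := by
      have e1 : (a % q + 1 + (c + q - a % q - 1)) ≡ (a + 1 + (c + q - a % q - 1) % q) [MOD q] := by
        apply Nat.ModEq.add
        · exact Nat.ModEq.add_right 1 (Nat.mod_modEq a q)
        · exact (Nat.mod_modEq _ q).symm
      have e2 : a + ((c + q - a % q - 1) % q + 1) = a + 1 + (c + q - a % q - 1) % q := by ring
      rw [e2]
      exact e1.symm
    rw [h1, show a % q + 1 + (c + q - a % q - 1) = c + q by omega, Nat.add_mod_right, Nat.mod_eq_of_lt hc]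

/-- the offset of the class `c` from `a` -/
noncomputable def off (q a c : ℕ) : ℕ := if h : c < q then (off_exists q a c h).choose else 1

lemma off_mem (q a c : ℕ) (hc : c < q) : off q a c ∈ Icc 1 q := by
  unfold off
  rw [dif_pos hc]
  exact (off_exists q a c hc).choose_spec.1

lemma off_mod (q a c : ℕ) (hc : c < q) : (a + off q a c) % q = c := by
  unfold off
  rw [dif_pos hc]
  exact (off_exists q a c hc).choose_spec.2

/-- the offsets of the classes in `B` -/
def SB (q : ℕ) (B : Finset ℕ) (a : ℕ) : Finset ℕ := (Icc 1 q).filter (fun s => (a + s) % q ∈ B)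

lemma add_mod_inj (q a s s' : ℕ) (hs : s ∈ Icc 1 q) (hs' : s' ∈ Icc 1 q) (h : (a + s) % q = (a + s') % q) :
    s = s' := by
  rw [mem_Icc] at hs hs'
  have h1 : a + s ≡ a + s' [MOD q] := h
  have h2 : s ≡ s' [MOD q] := Nat.ModEq.add_left_cancel' a h1
  have h3 : s - 1 ≡ s' - 1 [MOD q] := by
    have e1 : s - 1 + 1 = s := by omega
    have e2 : s' - 1 + 1 = s' := by omega
    rw [← e1, ← e2] at h2
    exact Nat.ModEq.add_right_cancel' 1 h2
  have := Nat.ModEq.eq_of_lt_of_lt h3 (by omega) (by omega)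
  omega

lemma SB_card (q : ℕ) (B : Finset ℕ) (hB : B ⊆ range q) (a : ℕ) : (SB q B a).card = B.card := by
  apply Finset.card_bij (fun s _ => (a + s) % q)
  · intro s hs
    unfold SB at hs
    exact (mem_filter.1 hs).2
  · intro s hs s' hs' h
    unfold SB at hs hs'
    exact add_mod_inj q a s s' (mem_filter.1 hs).1 (mem_filter.1 hs').1 h
  · intro c hc
    have hcq := mem_range.1 (hB hc)
    obtain ⟨s, hs, hs2⟩ := off_exists q a c hcq
    refine ⟨s, ?_, hs2⟩
    unfold SB
    rw [mem_filter]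
    exact ⟨hs, by rw [hs2]; exact hc⟩

/-- partial sums -/
def PS {l : ℕ} (k : Fin l → ℕ) (j : ℕ) : ℕ := ∑ i : Fin l, if (i : ℕ) < j then k i else 0

lemma PS_zero {l : ℕ} (k : Fin l → ℕ) : PS k 0 = 0 := by
  unfold PS
  apply Finset.sum_eq_zero
  intro i _
  rw [if_neg (by omega)]

lemma PS_succ {l : ℕ} (k : Fin l → ℕ) (j : ℕ) (hj : j < l) : PS k (j + 1) = PS k j + k ⟨j, hj⟩ := by
  unfold PS
  have h1 : ∀ i : Fin l, (if (i : ℕ) < j + 1 then k i else 0) =
      (if (i : ℕ) < j then k i else 0) + (if i = ⟨j, hj⟩ then k i else 0) := by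
    intro i
    by_cases h2 : (i : ℕ) < j
    · rw [if_pos h2, if_pos (by omega), if_neg (by rw [Fin.ext_iff]; simp only; omega), add_zero]
    · by_cases h3 : (i : ℕ) = j
      · rw [if_pos (by omega), if_neg h2, if_pos (Fin.ext h3), zero_add]
      · rw [if_neg (by omega), if_neg h2, if_neg (by rw [Fin.ext_iff]; exact h3)]
  rw [Finset.sum_congr rfl (fun i _ => h1 i), Finset.sum_add_distrib, Finset.sum_ite_eq' univ ⟨j, hj⟩ k,
    if_pos (mem_univ _)]

lemma PS_last {l : ℕ} (k : Fin l → ℕ) : PS k l = ∑ i : Fin l, k i := by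
  unfold PS
  apply Finset.sum_congr rfl
  intro i _
  rw [if_pos i.2]

/-- the nonempty cells -/
noncomputable def Cc (q l a : ℕ) (cl : ℕ → ℕ) (k : Fin l → ℕ) : Finset (ℕ × ℕ) :=
  (range (l + 1)).image (fun j => (PS k j, off q a (cl j)))

/-- the empty cells -/
noncomputable def Rc (q l a : ℕ) (B : Finset ℕ) (cl : ℕ → ℕ) (k : Fin l → ℕ) : Finset (ℕ × ℕ) :=
  (range (PS k l + 1) ×ˢ SB q B a) \ Cc q l a cl k

lemma PS_mono {l : ℕ} (k : Fin l → ℕ) (a b : ℕ) (hab : a ≤ b) : PS k a ≤ PS k b := by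
  unfold PS
  apply Finset.sum_le_sum
  intro i _
  split_ifs <;> omega

lemma PS_lt {l : ℕ} (k : Fin l → ℕ) (hk : ∀ i, 1 ≤ k i) (j : ℕ) (hj : j < l) : PS k j < PS k (j + 1) := by
  rw [PS_succ k j hj]
  have := hk ⟨j, hj⟩
  omega

lemma PS_strict {l : ℕ} (k : Fin l → ℕ) (hk : ∀ i, 1 ≤ k i) (a b : ℕ) (hab : a < b) (hb : b ≤ l) :
    PS k a < PS k b :=
  (PS_lt k hk a (by omega)).trans_le (PS_mono k _ _ hab)

lemma PS_inj {l : ℕ} (k : Fin l → ℕ) (hk : ∀ i, 1 ≤ k i) (a b : ℕ) (ha : a ≤ l) (hb : b ≤ l)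
    (h : PS k a = PS k b) : a = b := by
  rcases lt_trichotomy a b with h1 | h1 | h1
  · have := PS_strict k hk a b h1 hb
    omega
  · exact h1
  · have := PS_strict k hk b a h1 ha
    omega

lemma Cc_card (q l a : ℕ) (cl : ℕ → ℕ) (k : Fin l → ℕ) (hk : ∀ i, 1 ≤ k i) :
    (Cc q l a cl k).card = l + 1 := by
  unfold Cc
  rw [card_image_of_injOn, card_range]
  intro j hj j' hj' h
  rw [Finset.coe_range, Set.mem_Iio] at hj hj'
  simp only [Prod.mk.injEq] at h
  exact PS_inj k hk j j' (by omega) (by omega) h.1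

lemma Cc_sub (q l a : ℕ) (B : Finset ℕ) (hB : B ⊆ range q) (cl : ℕ → ℕ) (hcl : ∀ j ≤ l, cl j ∈ B)
    (k : Fin l → ℕ) : Cc q l a cl k ⊆ range (PS k l + 1) ×ˢ SB q B a := by
  intro c hc
  unfold Cc at hc
  rw [mem_image] at hc
  obtain ⟨j, hj, rfl⟩ := hc
  rw [mem_range] at hj
  have h1 := hcl j (by omega)
  have h2 := mem_range.1 (hB h1)
  rw [mem_product, mem_range]
  refine ⟨?_, ?_⟩
  · have := PS_mono k j l (by omega)
    simp only
    omega
  · unfold SB
    rw [mem_filter]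
    exact ⟨off_mem q a _ h2, by simp only; rw [off_mod q a _ h2]; exact h1⟩

lemma prod_sub (q L l a : ℕ) (B : Finset ℕ) (k : Fin l → ℕ) (hL : PS k l < L) :
    range (PS k l + 1) ×ˢ SB q B a ⊆ range L ×ˢ Icc 1 q := by
  apply Finset.product_subset_product
  · intro x hx
    rw [mem_range] at hx ⊢
    omega
  · exact filter_subset _ _

lemma Rc_card (q l a : ℕ) (B : Finset ℕ) (hB : B ⊆ range q) (cl : ℕ → ℕ) (hcl : ∀ j ≤ l, cl j ∈ B)
    (k : Fin l → ℕ) (hk : ∀ i, 1 ≤ k i) :
    (Rc q l a B cl k).card + (l + 1) = (∑ i, k i + 1) * B.card := by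
  unfold Rc
  have h1 := card_sdiff_add_card_eq_card (Cc_sub q l a B hB cl hcl k)
  rw [Cc_card q l a cl k hk, card_product, card_range, SB_card q B hB a] at h1
  rw [← PS_last k]
  exact h1

open Classical in
/-- the events for a base point -/
def Fk (g : ℕ → Prop) (q d l a : ℕ) (B : Finset ℕ) (cl : ℕ → ℕ) (k : Fin l → ℕ) (v : ℕ) : Prop :=
  Nc g q d a (Rc q l a B cl k) v = 0 ∧ ∀ c ∈ Cc q l a cl k, Nc g q d a {c} v ≠ 0

lemma fk_inj (g : ℕ → Prop) (q d l a : ℕ) (B : Finset ℕ) (hB : B ⊆ range q) (cl : ℕ → ℕ)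
    (hcl : ∀ j ≤ l, cl j ∈ B) (k k' : Fin l → ℕ) (hk : ∀ i, 1 ≤ k i) (hk' : ∀ i, 1 ≤ k' i) (v : ℕ)
    (h : Fk g q d l a B cl k v) (h' : Fk g q d l a B cl k' v) : k = k' := by
  -- a nonempty cell of one is not an empty cell of the other
  have key : ∀ (k k' : Fin l → ℕ), (∀ i, 1 ≤ k i) → (∀ i, 1 ≤ k' i) → Fk g q d l a B cl k v →
      Fk g q d l a B cl k' v → ∀ j < l, PS k j = PS k' j → ¬ PS k (j + 1) < PS k' (j + 1) := by
    intro k k' hk hk' h h' j hj hjj hlt
    have hj1 : j + 1 ≤ l := hj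
    have hc : (PS k (j + 1), off q a (cl (j + 1))) ∈ Cc q l a cl k := by
      unfold Cc
      rw [mem_image]
      exact ⟨j + 1, mem_range.2 (by omega), rfl⟩
    have hne := h.2 _ hc
    apply hne
    have hR : (PS k (j + 1), off q a (cl (j + 1))) ∈ Rc q l a B cl k' := by
      unfold Rc
      rw [Finset.mem_sdiff]
      have h1 := hcl (j + 1) hj1
      have h2 := mem_range.1 (hB h1)
      refine ⟨?_, ?_⟩
      · rw [mem_product, mem_range]
        refine ⟨?_, ?_⟩
        · have := PS_mono k' (j + 1) l hj1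
          simp only
          omega
        · unfold SB
          rw [mem_filter]
          exact ⟨off_mem q a _ h2, by simp only; rw [off_mod q a _ h2]; exact h1⟩
      · unfold Cc
        rw [mem_image]
        rintro ⟨i, hi, he⟩
        rw [mem_range] at hi
        simp only [Prod.mk.injEq] at he
        have h3 := PS_lt k hk j hj
        rcases Nat.lt_or_ge j i with h4 | h4
        · have := PS_mono k' (j + 1) i h4
          omega
        · have := PS_mono k' i j h4
          omega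
    rw [Nc_zero]
    intro c hc'
    rw [mem_singleton] at hc'
    subst hc'
    exact (Nc_zero g q d a _ v).1 h'.1 _ hR
  have hall : ∀ j ≤ l, PS k j = PS k' j := by
    intro j
    induction j with
    | zero => intro _; rw [PS_zero, PS_zero]
    | succ j ih =>
      intro hj
      have h1 := ih (by omega)
      have h2 := key k k' hk hk' h h' j hj h1
      have h3 := key k' k hk' hk h' h j hj h1.symm
      omega
  funext i
  have h1 := hall i (by omega)
  have h2 := hall (i + 1) (by omega)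
  rw [PS_succ k i i.2, PS_succ k' i i.2] at h2
  simp only [Fin.eta] at h2
  omega

/-- the elements -/
def GB (g : ℕ → Prop) (q : ℕ) (B : Finset ℕ) (m : ℕ) : Prop := m % q ∈ B ∧ g m

/-- the patterns -/
def Pat (g : ℕ → Prop) (q l : ℕ) (B : Finset ℕ) (c0 : ℕ) (b s T : ℕ → ℕ) (p : ℕ) : Prop :=
  GB g q B p ∧ p % q = c0 ∧ Ev (GB g q B) q l b s T p

open Classical in
lemma fk_core (g : ℕ → Prop) (q d l L a : ℕ) (hq : 1 ≤ q) (B : Finset ℕ) (hB : B ⊆ range q) (cl : ℕ → ℕ)
    (hcl : ∀ j ≤ l, cl j ∈ B) (k : Fin l → ℕ) (hk : ∀ i, 1 ≤ k i) (hL : PS k l < L) (v : ℕ)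
    (h : Fk g q d l a B cl k v) (h3 : ∀ i ∈ Ico 1 L, Nc g q d a (({0, i} : Finset ℕ) ×ˢ SB q B a) v ≤ 2)
    (b s T : ℕ → ℕ) (hb : ∀ j < l, b j = cl (j + 1))
    (hs : ∀ i : Fin l, s i + q * d ≤ k i * (q * d)) (hT : ∀ i : Fin l, (k i + 1) * (q * d) ≤ T i) :
    ∃ p, q * v + a < p ∧ p ≤ q * v + a + q * d ∧ Pat g q l B (cl 0) b s T p := by
  have hcell : ∀ i m, q * v + a + i * (q * d) < m → m ≤ q * v + a + (i + 1) * (q * d) → GB g q B m →
      ∃ s' ∈ SB q B a, ∃ h ∈ cell q d (i, s'), m = q * v + a + h ∧ m % q = (a + s') % q := by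
    intro i m h1 h2 hG
    obtain ⟨s', hs', hc, hmod⟩ := cell_of_slot q d i (m - (q * v + a)) hq (by omega) (by omega)
    have hm : m = q * v + a + (m - (q * v + a)) := by omega
    have hmq : m % q = (a + s') % q := by
      have e1 : m % q = (q * v + a + (m - (q * v + a))) % q := by rw [← hm]
      rw [e1, show q * v + a + (m - (q * v + a)) = a + (m - (q * v + a)) + q * v by ring,
        Nat.add_mul_mod_self_left, Nat.add_mod, hmod, ← Nat.add_mod]
    refine ⟨s', ?_, _, hc, hm, hmq⟩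
    unfold SB
    rw [mem_filter]
    exact ⟨hs', by rw [← hmq]; exact hG.1⟩
  have hCmem : ∀ j ≤ l, (PS k j, off q a (cl j)) ∈ Cc q l a cl k := by
    intro j hj
    unfold Cc
    rw [mem_image]
    exact ⟨j, mem_range.2 (by omega), rfl⟩
  have H2 : ∀ j ≤ l, ∃ m, q * v + a + PS k j * (q * d) < m ∧ m ≤ q * v + a + (PS k j + 1) * (q * d) ∧
      GB g q B m := by
    intro j hj
    have h1 := h.2 _ (hCmem j hj)
    rw [Ne, Nc_zero] at h1
    push Not at h1
    obtain ⟨c, hc, x, hx, hgx⟩ := h1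
    rw [mem_singleton] at hc
    subst hc
    have hc1 := hcl j hj
    have hc2 := mem_range.1 (hB hc1)
    have hb := cell_bounds q d _ (off_mem q a _ hc2) x hx
    simp only at hb
    refine ⟨q * v + a + x, by omega, by omega, ?_, hgx⟩
    obtain ⟨i, _, hi⟩ := (mem_cell q d _ x).1 hx
    simp only at hi
    have : (q * v + a + x) % q = (a + off q a (cl j)) % q := by
      rw [← hi, show q * v + a + (PS k j * (q * d) + off q a (cl j) + q * i) =
        a + off q a (cl j) + q * (v + PS k j * d + i) by ring, Nat.add_mul_mod_self_left]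
    rw [this, off_mod q a _ hc2]
    exact hc1
  have h0mem : ∀ i s', s' ∈ SB q B a → (i, s') ∈ ({0, i} : Finset ℕ) ×ˢ SB q B a := by
    intro i s' hs'
    rw [mem_product]
    exact ⟨by simp, hs'⟩
  have h0mem' : ∀ i s', s' ∈ SB q B a → ((0 : ℕ), s') ∈ ({0, i} : Finset ℕ) ×ˢ SB q B a := by
    intro i s' hs'
    rw [mem_product]
    exact ⟨by simp, hs'⟩
  refine core (GB g q B) (q * v + a) (q * d) q l (PS k)
    (fun j hj => PS_lt k hk j hj) (PS_zero k) cl ?_ H2 ?_ ?_ b s T hb ?_ ?_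
  · -- H1
    intro i hi hne m h1 h2 hG
    obtain ⟨s', hs', x, hx, hm, _⟩ := hcell i m h1 h2 hG
    have hR : (i, s') ∈ Rc q l a B cl k := by
      unfold Rc
      rw [Finset.mem_sdiff, mem_product, mem_range]
      refine ⟨⟨by simp only; omega, hs'⟩, ?_⟩
      unfold Cc
      rw [mem_image]
      rintro ⟨j, hj, he⟩
      rw [mem_range] at hj
      simp only [Prod.mk.injEq] at he
      exact hne j (by omega) he.1.symm
    have := (Nc_zero g q d a _ v).1 h.1 _ hR x hx
    apply this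
    rw [← hm]
    exact hG.2
  · -- H2'
    intro j hj m h1 h2 hG
    obtain ⟨s', hs', x, hx, hm, hmq⟩ := hcell (PS k j) m h1 h2 hG
    by_cases hC : (PS k j, s') ∈ Cc q l a cl k
    · unfold Cc at hC
      rw [mem_image] at hC
      obtain ⟨j', hj', he⟩ := hC
      rw [mem_range] at hj'
      simp only [Prod.mk.injEq] at he
      have hjj := PS_inj k hk j' j (by omega) hj he.1
      subst hjj
      rw [hmq, ← he.2]
      exact off_mod q a _ (mem_range.1 (hB (hcl _ hj)))
    · exfalso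
      have hR : (PS k j, s') ∈ Rc q l a B cl k := by
        unfold Rc
        rw [Finset.mem_sdiff, mem_product, mem_range]
        refine ⟨⟨?_, hs'⟩, hC⟩
        have := PS_mono k j l hj
        simp only
        omega
      have := (Nc_zero g q d a _ v).1 h.1 _ hR x hx
      apply this
      rw [← hm]
      exact hG.2
  · -- H3
    intro j hj hj1 m m' h1 h2 h1' h2' hG hG'
    by_contra hne
    obtain ⟨s1, hs1, x1, hx1, hm1, _⟩ := hcell (PS k j) m h1 h2 hG
    obtain ⟨s2, hs2, x2, hx2, hm2, _⟩ := hcell (PS k j) m' h1' h2' hG'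
    obtain ⟨m0, h10, h20, hG0⟩ := H2 0 (Nat.zero_le l)
    obtain ⟨s0, hs0, x0, hx0, hm0, _⟩ := hcell (PS k 0) m0 h10 h20 hG0
    rw [PS_zero] at hx0 h10 h20
    have hPj : 1 ≤ PS k j := by
      have := PS_strict k hk 0 j hj1 hj
      omega
    have hPL : PS k j < L := (PS_mono k j l hj).trans_lt hL
    have h4 := h3 (PS k j) (mem_Ico.2 ⟨hPj, hPL⟩)
    have hx0b := cell_bounds q d (0, s0) (mem_filter.1 hs0).1 x0 hx0
    have hx1b := cell_bounds q d (PS k j, s1) (mem_filter.1 hs1).1 x1 hx1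
    have hx2b := cell_bounds q d (PS k j, s2) (mem_filter.1 hs2).1 x2 hx2
    simp only at hx0b hx1b hx2b
    have hD1 : 1 * (q * d) ≤ PS k j * (q * d) := Nat.mul_le_mul_right _ hPj
    have hsub : ({x0, x1, x2} : Finset ℕ) ⊆
        (WS q d (({0, PS k j} : Finset ℕ) ×ˢ SB q B a)).filter (fun h => g (q * v + a + h)) := by
      intro x hx
      simp only [mem_insert, mem_singleton] at hx
      rw [mem_filter]
      unfold WS
      rw [mem_biUnion]
      rcases hx with rfl | rfl | rfl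
      · exact ⟨⟨_, h0mem' _ _ hs0, hx0⟩, by rw [← hm0]; exact hG0.2⟩
      · exact ⟨⟨_, h0mem _ _ hs1, hx1⟩, by rw [← hm1]; exact hG.2⟩
      · exact ⟨⟨_, h0mem _ _ hs2, hx2⟩, by rw [← hm2]; exact hG'.2⟩
    have hcard : ({x0, x1, x2} : Finset ℕ).card = 3 := by
      rw [card_eq_three]
      exact ⟨x0, x1, x2, by omega, by omega, by omega, rfl⟩
    have := card_le_card hsub
    unfold Nc at h4
    omega
  · intro j hj
    rw [PS_succ k j hj]
    have := hs ⟨j, hj⟩
    simp only at this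
    rw [add_mul, add_mul, one_mul]
    omega
  · intro j hj
    rw [PS_succ k j hj]
    have := hT ⟨j, hj⟩
    simp only at this
    rw [add_mul, one_mul] at this
    rw [show (PS k j + k ⟨j, hj⟩ + 1) * (q * d) = PS k j * (q * d) + (k ⟨j, hj⟩ * (q * d) + q * d) by ring]
    omega

end Pool.Agent.R463.PP
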