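import Pool.Agent.R463.PP5

set_option autoImplicit false

/-!
# Patterns of consecutive elements: the lower bound, conclusion
-/

namespace Pool.Agent.R463.PP

open Finset Filter Pool.Agent.TH464.PO

/-! ### real inequalities -/

lemma exp_sum_low (δ : ℝ) (hδ : 0 ≤ δ) (a b : ℕ) :
    Real.exp (-(δ * a)) - Real.exp (-(δ * b)) ≤ δ * ∑ k ∈ Ico a b, Real.exp (-(δ * k)) := by
  induction b with
  | zero =>
    rw [Ico_eq_empty (by omega), sum_empty, mul_zero, sub_nonpos]
    apply Real.exp_le_exp.2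
    have : (0 : ℝ) ≤ a := Nat.cast_nonneg a
    push_cast
    nlinarith
  | succ b ih =>
    rcases Nat.lt_or_ge b a with h | h
    · rw [Ico_eq_empty (by omega), sum_empty, mul_zero, sub_nonpos]
      apply Real.exp_le_exp.2
      have : ((b + 1 : ℕ) : ℝ) ≤ a := by exact_mod_cast h
      nlinarith
    · rw [Finset.sum_Ico_succ_top h, mul_add]
      have h1 : Real.exp (-(δ * b)) - Real.exp (-(δ * ((b + 1 : ℕ) : ℝ))) ≤ δ * Real.exp (-(δ * b)) := by
        have e : Real.exp (-(δ * ((b + 1 : ℕ) : ℝ))) = Real.exp (-(δ * b)) * Real.exp (-δ) := by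
          rw [← Real.exp_add]
          congr 1
          push_cast
          ring
        rw [e]
        have h2 := Real.add_one_le_exp (-δ)
        have h3 : 0 < Real.exp (-(δ * b)) := Real.exp_pos _
        nlinarith
      linarith

lemma prod_low {ι : Type*} (S : Finset ι) (f h : ι → ℝ) (θ : ℝ) (hθ : 0 ≤ θ) (hf : ∀ i ∈ S, 0 ≤ f i)
    (h0 : ∀ i ∈ S, 0 ≤ h i) (h1 : ∀ i ∈ S, h i ≤ 1) (hfh : ∀ i ∈ S, h i - θ ≤ f i) :
    ∏ i ∈ S, h i - S.card * θ ≤ ∏ i ∈ S, f i := by
  classical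
  induction S using Finset.induction_on with
  | empty => simp
  | insert a S ha ih =>
    have ih' := ih (fun i hi => hf i (mem_insert_of_mem hi)) (fun i hi => h0 i (mem_insert_of_mem hi))
      (fun i hi => h1 i (mem_insert_of_mem hi)) (fun i hi => hfh i (mem_insert_of_mem hi))
    rw [prod_insert ha, prod_insert ha, card_insert_of_notMem ha]
    have a1 := h0 a (mem_insert_self _ _)
    have a2 := h1 a (mem_insert_self _ _)
    have a3 := hfh a (mem_insert_self _ _)
    have a4 := hf a (mem_insert_self _ _)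
    have b1 : 0 ≤ ∏ i ∈ S, h i := prod_nonneg fun i hi => h0 i (mem_insert_of_mem hi)
    have b2 : ∏ i ∈ S, h i ≤ 1 := prod_le_one (fun i hi => h0 i (mem_insert_of_mem hi))
      (fun i hi => h1 i (mem_insert_of_mem hi))
    have b3 : 0 ≤ ∏ i ∈ S, f i := prod_nonneg fun i hi => hf i (mem_insert_of_mem hi)
    push_cast
    obtain ⟨P, hP⟩ : ∃ P, P = ∏ i ∈ S, h i := ⟨_, rfl⟩
    obtain ⟨F, hF⟩ : ∃ F, F = ∏ i ∈ S, f i := ⟨_, rfl⟩
    rw [← hP] at b1 b2 ih' ⊢
    rw [← hF] at b3 ih' ⊢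
    have hc : (0 : ℝ) ≤ S.card := Nat.cast_nonneg _
    have hcθ : 0 ≤ S.card * θ := by positivity
    by_cases c1 : h a - θ ≤ 0
    · have e1 : h a * P ≤ h a := by nlinarith
      have e2 : 0 ≤ f a * F := mul_nonneg a4 b3
      linarith
    · rw [not_le] at c1
      by_cases c2 : P - S.card * θ ≤ 0
      · have e1 : h a * P ≤ P := by nlinarith
        have e2 : 0 ≤ f a * F := mul_nonneg a4 b3
        linarith
      · rw [not_le] at c2
        have e1 : (h a - θ) * (P - S.card * θ) ≤ f a * F := mul_le_mul a3 ih' c2.le a4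
        have e2 : θ * P ≤ θ := by nlinarith
        have e3 : S.card * θ * h a ≤ S.card * θ := by nlinarith
        have e4 : 0 ≤ θ * (S.card * θ) := by positivity
        nlinarith

/-! ### counting the base points -/

lemma sum_classes (q A Y : ℕ) (f : ℕ → ℝ) :
    ∑ a ∈ range q, ∑ v ∈ Icc 1 Y, f (q * v + (A + a)) = ∑ n ∈ Ico (A + q) (A + q + q * Y), f n := by
  induction Y with
  | zero => simp
  | succ Y ih =>
    have h1 : ∀ a ∈ range q, ∑ v ∈ Icc 1 (Y + 1), f (q * v + (A + a)) =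
        ∑ v ∈ Icc 1 Y, f (q * v + (A + a)) + f (q * (Y + 1) + (A + a)) := by
      intro a _
      rw [Finset.sum_Icc_succ_top (by omega)]
    rw [Finset.sum_congr rfl h1, Finset.sum_add_distrib, ih,
      ← Finset.sum_Ico_consecutive f (show A + q ≤ A + q + q * Y by omega)
        (show A + q + q * Y ≤ A + q + q * (Y + 1) by rw [mul_add]; omega)]
    congr 1
    rw [Finset.sum_Ico_eq_sum_range]
    have e : A + q + q * (Y + 1) - (A + q + q * Y) = q := by
      rw [mul_add]
      omega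
    rw [e]
    apply Finset.sum_congr rfl
    intro a _
    congr 1
    ring

open Classical in
lemma sum_classes_card (q A Y : ℕ) (P : ℕ → Prop) :
    ∑ a ∈ range q, ((((Icc 1 Y).filter (fun v => P (q * v + (A + a)))).card : ℕ) : ℝ) =
      ((((Ico (A + q) (A + q + q * Y)).filter P).card : ℕ) : ℝ) := by
  have h := sum_classes q A Y (fun n => if P n then (1 : ℝ) else 0)
  have e : ∀ (s : Finset ℕ) (R : ℕ → Prop), ∑ n ∈ s, (if R n then (1 : ℝ) else 0) =
      (((s.filter R).card : ℕ) : ℝ) := by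
    intro s R
    rw [Finset.sum_ite, Finset.sum_const_zero, add_zero, Finset.sum_const, nsmul_eq_mul, mul_one]
  rw [e] at h
  rw [← h]
  apply Finset.sum_congr rfl
  intro a _
  rw [e]

open Classical in
lemma cover_count (D u w : ℕ) (P : ℕ → Prop) :
    (((Ico u w).filter (fun n => ∃ p, n < p ∧ p ≤ n + D ∧ P p)).card : ℝ) ≤
      D * (((Ioc u (w + D)).filter P).card : ℝ) := by
  have h : ∀ n, ∃ p, (∃ p, n < p ∧ p ≤ n + D ∧ P p) → (n < p ∧ p ≤ n + D ∧ P p) := by
    intro n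
    by_cases hn : ∃ p, n < p ∧ p ≤ n + D ∧ P p
    · obtain ⟨p, hp⟩ := hn
      exact ⟨p, fun _ => hp⟩
    · exact ⟨0, fun hh => absurd hh hn⟩
  choose f hf using h
  have h1 := Finset.card_le_mul_card_image_of_maps_to (f := f)
    (s := (Ico u w).filter (fun n => ∃ p, n < p ∧ p ≤ n + D ∧ P p)) (t := (Ioc u (w + D)).filter P) (by
      intro n hn
      rw [mem_filter, mem_Ico] at hn
      obtain ⟨a1, a2, a3⟩ := hf n hn.2
      rw [mem_filter, mem_Ioc]
      exact ⟨by omega, a3⟩) D (by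
      intro p hp
      have : (((Ico u w).filter (fun n => ∃ p, n < p ∧ p ≤ n + D ∧ P p)).filter (fun n => f n = p)) ⊆
          Ico (p - D) p := by
        intro n hn
        rw [mem_filter, mem_filter, mem_Ico] at hn
        obtain ⟨a1, a2, a3⟩ := hf n hn.1.2
        rw [hn.2] at a1 a2
        rw [mem_Ico]
        omega
      refine (card_le_card this).trans ?_
      rw [Nat.card_Ico]
      omega)
  exact_mod_cast h1

/-! ### the lower bound -/

open Classical in
lemma per_base (g : ℕ → Prop) (q d L l Y : ℕ) (μ ε : ℝ) (hq : 1 ≤ q) (hμ : 0 ≤ μ) (h : HL g q d L Y μ ε)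
    (B : Finset ℕ) (hB : B ⊆ range q) (cl : ℕ → ℕ) (hcl : ∀ j ≤ l, cl j ∈ B)
    (K : Fin l → Finset ℕ) (hK1 : ∀ i, ∀ k ∈ K i, 1 ≤ k) (hKL : ∀ k ∈ Fintype.piFinset K, ∑ i, k i < L)
    (b s T : ℕ → ℕ) (hb : ∀ j < l, b j = cl (j + 1))
    (hs : ∀ i : Fin l, ∀ k ∈ K i, s i + q * d ≤ k * (q * d))
    (hT : ∀ i : Fin l, ∀ k ∈ K i, (k + 1) * (q * d) ≤ T i) (a : ℕ) :
    ∑ k ∈ Fintype.piFinset K, Y * (μ ^ (l + 1) * Real.exp (-(B.card * μ * (∑ i, (k i : ℝ) + 1))) -
      2 ^ (l + 1) * ε) - L * (Y * ((2 * B.card * μ) ^ 3 + ε)) ≤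
      ((((Icc 1 Y).filter (fun v => ∃ p, q * v + a < p ∧ p ≤ q * v + a + q * d ∧
        Pat g q l B (cl 0) b s T p)).card : ℕ) : ℝ) := by
  have hY0 : (0 : ℝ) ≤ Y := Nat.cast_nonneg Y
  have hk1 : ∀ k ∈ Fintype.piFinset K, ∀ i, 1 ≤ k i := fun k hk i => hK1 i _ (Fintype.mem_piFinset.1 hk i)
  -- the bad points
  obtain ⟨Bad, hBad⟩ : ∃ Bad : Finset ℕ, ∀ v, v ∈ Bad ↔ (v ∈ Icc 1 Y ∧ ∃ i ∈ Ico 1 L,
    3 ≤ Nc g q d a (({0, i} : Finset ℕ) ×ˢ SB q B a) v) := by
    obtain ⟨P, hP⟩ : ∃ P : ℕ → Prop, ∀ v, P v ↔ ∃ i ∈ Ico 1 L,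
      3 ≤ Nc g q d a (({0, i} : Finset ℕ) ×ˢ SB q B a) v := ⟨_, fun _ => Iff.rfl⟩
    refine ⟨(Icc 1 Y).filter P, fun v => ?_⟩
    rw [mem_filter, hP]
  have hbad : (Bad.card : ℝ) ≤ L * (Y * ((2 * B.card * μ) ^ 3 + ε)) := by
    have h1 : Bad ⊆ (Ico 1 L).biUnion (fun i => (Icc 1 Y).filter (fun v =>
        3 ≤ Nc g q d a (({0, i} : Finset ℕ) ×ˢ SB q B a) v)) := by
      intro v hv
      obtain ⟨hv1, i, hi, hv2⟩ := (hBad v).1 hv
      rw [mem_biUnion]
      exact ⟨i, hi, mem_filter.2 ⟨hv1, hv2⟩⟩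
    have h2 : (Bad.card : ℝ) ≤ ∑ i ∈ Ico 1 L, ((((Icc 1 Y).filter (fun v =>
        3 ≤ Nc g q d a (({0, i} : Finset ℕ) ×ˢ SB q B a) v)).card : ℕ) : ℝ) := by
      have := (card_le_card h1).trans card_biUnion_le
      exact_mod_cast this
    refine h2.trans ?_
    have h3 : ∀ i ∈ Ico 1 L, ((((Icc 1 Y).filter (fun v =>
        3 ≤ Nc g q d a (({0, i} : Finset ℕ) ×ˢ SB q B a) v)).card : ℕ) : ℝ) ≤
        Y * ((2 * B.card * μ) ^ 3 + ε) := by
      intro i hi
      rw [mem_Ico] at hi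
      have h4 := three g q d L Y μ ε hμ h a (({0, i} : Finset ℕ) ×ˢ SB q B a) (by
        apply Finset.product_subset_product
        · intro x hx
          simp only [mem_insert, mem_singleton] at hx
          rw [mem_range]
          rcases hx with rfl | rfl <;> omega
        · exact filter_subset _ _)
      have h5 : (({0, i} : Finset ℕ) ×ˢ SB q B a).card = 2 * B.card := by
        rw [card_product, SB_card q B hB a, card_pair (by omega)]
      rw [h5] at h4
      push_cast at h4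
      exact h4
    refine (Finset.sum_le_card_nsmul _ _ _ h3).trans ?_
    rw [Nat.card_Ico, nsmul_eq_mul]
    have h6 : ((L - 1 : ℕ) : ℝ) ≤ L := by exact_mod_cast Nat.sub_le L 1
    have h7 : 0 ≤ (Y : ℝ) * ((2 * B.card * μ) ^ 3 + ε) := by
      rcases Nat.eq_zero_or_pos Y with h0 | h0
      · rw [h0]; simp
      · -- `ε ≥ 0` follows from the law
        have h8 := h 0 ∅ (empty_subset _) ∅
        simp only [notMem_empty, filter_false, card_empty, Nat.cast_zero, sum_empty, mul_zero, sub_zero,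
          abs_zero] at h8
        have hYp : (0 : ℝ) < Y := by exact_mod_cast h0
        have hε : 0 ≤ ε := by
          by_contra hcon
          rw [not_le] at hcon
          nlinarith
        positivity
    exact mul_le_mul_of_nonneg_right h6 h7
  -- the good points
  have hterm : ∀ k ∈ Fintype.piFinset K,
      Y * (μ ^ (l + 1) * Real.exp (-(B.card * μ * (∑ i, (k i : ℝ) + 1))) - 2 ^ (l + 1) * ε) ≤
      ((((Icc 1 Y).filter (fun v => Fk g q d l a B cl k v)).card : ℕ) : ℝ) := by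
    intro k hk
    have hPL : PS k l < L := by rw [PS_last]; exact hKL k hk
    have hsub := prod_sub q L l a B k hPL
    have h1 := incl_excl g q d L Y μ ε h a (Rc q l a B cl k) (Cc q l a cl k)
      ((sdiff_subset).trans hsub) ((Cc_sub q l a B hB cl hcl k).trans hsub) sdiff_disjoint
    have hFk : ((Icc 1 Y).filter (fun v => Nc g q d a (Rc q l a B cl k) v = 0 ∧
        ∀ c ∈ Cc q l a cl k, Nc g q d a {c} v ≠ 0)).card =
        ((Icc 1 Y).filter (fun v => Fk g q d l a B cl k v)).card := by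
      congr 1
      apply filter_congr
      intro v _
      exact Iff.rfl
    rw [hFk] at h1
    refine le_trans ?_ h1
    apply mul_le_mul_of_nonneg_left _ hY0
    rw [Cc_card q l a cl k (hk1 k hk)]
    apply sub_le_sub_right
    have h2 := Rc_card q l a B hB cl hcl k (hk1 k hk)
    have h3 : ((Rc q l a B cl k).card : ℝ) = (∑ i, (k i : ℝ) + 1) * B.card - (l + 1) := by
      have : (((Rc q l a B cl k).card + (l + 1) : ℕ) : ℝ) = (((∑ i, k i + 1) * B.card : ℕ) : ℝ) := by
        exact_mod_cast h2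
      push_cast at this
      linarith
    rw [h3]
    have e1 : Real.exp (-(((∑ i, (k i : ℝ) + 1) * B.card - (l + 1)) * μ)) =
        Real.exp (-(B.card * μ * (∑ i, (k i : ℝ) + 1))) * Real.exp μ ^ (l + 1) := by
      rw [← Real.exp_nat_mul, ← Real.exp_add]
      congr 1
      push_cast
      ring
    have e2 : Real.exp μ ^ (l + 1) * (1 - Real.exp (-μ)) ^ (l + 1) = (Real.exp μ - 1) ^ (l + 1) := by
      rw [← mul_pow, mul_sub, mul_one, ← Real.exp_add, add_neg_cancel, Real.exp_zero]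
    rw [e1]
    obtain ⟨E, hE⟩ : ∃ E, E = Real.exp (-(B.card * μ * (∑ i, (k i : ℝ) + 1))) := ⟨_, rfl⟩
    rw [← hE]
    have hE0 : 0 ≤ E := by rw [hE]; exact (Real.exp_pos _).le
    have h4 : μ ^ (l + 1) ≤ (Real.exp μ - 1) ^ (l + 1) := by
      apply pow_le_pow_left₀ hμ
      have := Real.add_one_le_exp μ
      linarith
    calc μ ^ (l + 1) * E ≤ (Real.exp μ - 1) ^ (l + 1) * E := mul_le_mul_of_nonneg_right h4 hE0
      _ = _ := by rw [← e2]; ring
  have hdisj : ∀ k ∈ Fintype.piFinset K, ∀ k' ∈ Fintype.piFinset K, k ≠ k' →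
      Disjoint ((Icc 1 Y).filter (fun v => Fk g q d l a B cl k v))
        ((Icc 1 Y).filter (fun v => Fk g q d l a B cl k' v)) := by
    intro k hk k' hk' hne
    rw [Finset.disjoint_left]
    intro v hv hv'
    exact hne (fk_inj g q d l a B hB cl hcl k k' (hk1 k hk) (hk1 k' hk') v (mem_filter.1 hv).2
      (mem_filter.1 hv').2)
  have hunion : (((Fintype.piFinset K).biUnion
      (fun k => (Icc 1 Y).filter (fun v => Fk g q d l a B cl k v))).card : ℝ) ≤
      ((((Icc 1 Y).filter (fun v => ∃ p, q * v + a < p ∧ p ≤ q * v + a + q * d ∧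
        Pat g q l B (cl 0) b s T p)).card : ℕ) : ℝ) + Bad.card := by
    have h1 : (Fintype.piFinset K).biUnion
        (fun k => (Icc 1 Y).filter (fun v => Fk g q d l a B cl k v)) ⊆
        ((Icc 1 Y).filter (fun v => ∃ p, q * v + a < p ∧ p ≤ q * v + a + q * d ∧
          Pat g q l B (cl 0) b s T p)) ∪ Bad := by
      intro v hv
      rw [mem_biUnion] at hv
      obtain ⟨k, hk, hv⟩ := hv
      rw [mem_filter] at hv
      rw [mem_union]
      by_cases hvb : ∃ i ∈ Ico 1 L, 3 ≤ Nc g q d a (({0, i} : Finset ℕ) ×ˢ SB q B a) v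
      · right
        exact (hBad v).2 ⟨hv.1, hvb⟩
      · left
        rw [mem_filter]
        refine ⟨hv.1, ?_⟩
        push Not at hvb
        have hki := Fintype.mem_piFinset.1 hk
        refine fk_core g q d l L a hq B hB cl hcl k (hk1 k hk) (by rw [PS_last]; exact hKL k hk) v hv.2
          (fun i hi => ?_) b s T hb (fun i => hs i _ (hki i)) (fun i => hT i _ (hki i))
        have := hvb i hi
        omega
    have h2 := (card_le_card h1).trans (card_union_le _ _)
    exact_mod_cast h2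
  have hsum : ∑ k ∈ Fintype.piFinset K, Y * (μ ^ (l + 1) *
      Real.exp (-(B.card * μ * (∑ i, (k i : ℝ) + 1))) - 2 ^ (l + 1) * ε) ≤
      (((Fintype.piFinset K).biUnion
        (fun k => (Icc 1 Y).filter (fun v => Fk g q d l a B cl k v))).card : ℝ) := by
    rw [card_biUnion hdisj]
    push_cast
    exact Finset.sum_le_sum hterm
  linarith

open Classical in
/-- **The lower bound.** -/
theorem lower (g : ℕ → Prop) (q d L' l Y : ℕ) (μ ε : ℝ) (hq : 1 ≤ q) (hd : 1 ≤ d) (hμ : 0 < μ)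
    (h : HL g q d (l * L' + 1) Y μ ε) (B : Finset ℕ) (hB : B ⊆ range q) (hB0 : 1 ≤ B.card)
    (hδ : B.card * μ ≤ 1) (c0 : ℕ) (hc0 : c0 ∈ B) (b s T : ℕ → ℕ) (hb : ∀ j < l, b j ∈ B)
    (hsT : ∀ j < l, s j ≤ T j) (A : ℕ) :
    q * Y * (μ / B.card ^ l * (∏ j ∈ range l, (Real.exp (-(B.card * μ / (q * d) * s j)) -
      Real.exp (-(B.card * μ / (q * d) * T j))) - l * (4 * (B.card * μ) + Real.exp (-(B.card * μ * L'))) -
        B.card * μ) - ((L' + 1) ^ l * 2 ^ (l + 1) * |ε| + (l * L' + 1) * ((2 * B.card * μ) ^ 3 + |ε|))) ≤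
      q * d * (((Ioc (A + q) (A + q + q * Y + q * d)).filter (Pat g q l B c0 b s T)).card : ℝ) := by
  obtain ⟨cl, hcl⟩ : ∃ cl : ℕ → ℕ, cl = fun j => if j = 0 then c0 else b (j - 1) := ⟨_, rfl⟩
  have hcl0 : cl 0 = c0 := by rw [hcl]; simp
  have hcls : ∀ j, cl (j + 1) = b j := by intro j; rw [hcl]; simp
  have hclB : ∀ j ≤ l, cl j ∈ B := by
    intro j hj
    rcases j with _ | j
    · rw [hcl0]; exact hc0
    · rw [hcls]; exact hb j (by omega)
  obtain ⟨K, hK⟩ : ∃ K : Fin l → Finset ℕ, K = fun i : Fin l =>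
    Ico (s i / (q * d) + 2) (min (T i / (q * d)) (L' + 1)) := ⟨_, rfl⟩
  have hD : 0 < q * d := Nat.mul_pos hq hd
  have hKi : ∀ i : Fin l, ∀ k ∈ K i, s i / (q * d) + 2 ≤ k ∧ k < T i / (q * d) ∧ k < L' + 1 := by
    intro i k hk
    rw [hK] at hk
    simp only [mem_Ico, lt_min_iff] at hk
    exact ⟨hk.1, hk.2.1, hk.2.2⟩
  have hbase := fun a => per_base g q d (l * L' + 1) l Y μ ε hq hμ.le h B hB cl hclB K
    (fun i k hk => le_trans (Nat.succ_le_succ (Nat.zero_le (s i / (q * d) + 1))) (hKi i k hk).1)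
    (fun k hk => by
      have h1 : ∑ i, k i ≤ ∑ _i : Fin l, L' := Finset.sum_le_sum fun i _ => by
        have := (hKi i _ (Fintype.mem_piFinset.1 hk i)).2.2
        omega
      rw [Finset.sum_const, card_univ, Fintype.card_fin, smul_eq_mul] at h1
      omega) b s T (fun j _ => (hcls j).symm) (fun i k hk => by
      have h1 := (hKi i k hk).1
      have h2 := Nat.lt_div_mul_add (a := s i) hD
      have h3 : (s i / (q * d) + 2) * (q * d) ≤ k * (q * d) := Nat.mul_le_mul_right _ h1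
      rw [add_mul] at h3
      omega) (fun i k hk => by
      have h1 := (hKi i k hk).2.1
      have h2 := Nat.div_mul_le_self (T i) (q * d)
      have h3 : (k + 1) * (q * d) ≤ T i / (q * d) * (q * d) := Nat.mul_le_mul_right _ h1
      omega) a
  rw [hcl0] at hbase
  -- sum over the classes of the base points
  have hsum : q * (∑ k ∈ Fintype.piFinset K, Y * (μ ^ (l + 1) *
      Real.exp (-(B.card * μ * (∑ i, (k i : ℝ) + 1))) - 2 ^ (l + 1) * ε) -
        ((l * L' + 1 : ℕ) : ℝ) * (Y * ((2 * B.card * μ) ^ 3 + ε))) ≤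
      q * d * (((Ioc (A + q) (A + q + q * Y + q * d)).filter (Pat g q l B c0 b s T)).card : ℝ) := by
    have h1 := Finset.card_nsmul_le_sum (range q) (fun a => ((((Icc 1 Y).filter (fun v =>
      ∃ p, q * v + (A + a) < p ∧ p ≤ q * v + (A + a) + q * d ∧
        Pat g q l B c0 b s T p)).card : ℕ) : ℝ)) _ (fun a _ => hbase (A + a))
    rw [card_range, nsmul_eq_mul, sum_classes_card q A Y
      (fun n => ∃ p, n < p ∧ p ≤ n + q * d ∧ Pat g q l B c0 b s T p)] at h1
    have h2 := cover_count (q * d) (A + q) (A + q + q * Y) (Pat g q l B c0 b s T)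
    push_cast at h2
    exact h1.trans h2
  refine le_trans ?_ hsum
  have hY0 : (0 : ℝ) ≤ Y := Nat.cast_nonneg Y
  have hq0 : (0 : ℝ) ≤ q := Nat.cast_nonneg q
  obtain ⟨R, hR⟩ : ∃ R : ℝ, R = B.card := ⟨_, rfl⟩
  have hR1 : 1 ≤ R := by rw [hR]; exact_mod_cast hB0
  rw [← hR] at hδ ⊢
  obtain ⟨δ, hδdef⟩ : ∃ δ : ℝ, δ = R * μ := ⟨_, rfl⟩
  have hδ0 : 0 < δ := by rw [hδdef]; positivity
  rw [← hδdef] at hδ ⊢
  have hDr : (0 : ℝ) < q * d := by exact_mod_cast hD
  -- the main sum
  obtain ⟨G, hG⟩ : ∃ G : Fin l → ℝ, G = fun i => δ * ∑ k ∈ K i, Real.exp (-(δ * k)) := ⟨_, rfl⟩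
  obtain ⟨gg, hgg⟩ : ∃ gg : ℕ → ℝ, gg = fun j => Real.exp (-(δ / (q * d) * s j)) -
    Real.exp (-(δ / (q * d) * T j)) := ⟨_, rfl⟩
  obtain ⟨θ, hθ⟩ : ∃ θ : ℝ, θ = 4 * δ + Real.exp (-(δ * L')) := ⟨_, rfl⟩
  have hθ0 : 0 ≤ θ := by
    rw [hθ]
    have := Real.exp_pos (-(δ * (L' : ℝ)))
    linarith
  have hgg0 : ∀ j < l, 0 ≤ gg j := by
    intro j hj
    rw [hgg]
    simp only
    rw [sub_nonneg]
    apply Real.exp_le_exp.2
    apply neg_le_neg
    apply mul_le_mul_of_nonneg_left _ (by positivity)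
    exact_mod_cast hsT j hj
  have hgg1 : ∀ j, gg j ≤ 1 := by
    intro j
    rw [hgg]
    simp only
    have h1 : Real.exp (-(δ / (q * d) * s j)) ≤ 1 := by
      apply Real.exp_le_one_iff.2
      rw [neg_nonpos]
      positivity
    have h2 := Real.exp_pos (-(δ / (q * d) * T j))
    linarith
  have hGg : ∀ i : Fin l, gg i - θ ≤ G i := by
    intro i
    rw [hG, hgg, hK]
    simp only
    refine le_trans ?_ (exp_sum_low δ hδ0.le _ _)
    have e1 : Real.exp (-(δ / (q * d) * s i)) - 2 * δ ≤ Real.exp (-(δ * ((s i / (q * d) + 2 : ℕ) : ℝ))) := by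
      have h1 : ((s i / (q * d) : ℕ) : ℝ) ≤ s i / (q * d) := by
        have := Nat.cast_div_le (α := ℝ) (m := s i) (n := q * d)
        push_cast at this
        exact this
      have h2 : Real.exp (-(δ / (q * d) * s i)) * Real.exp (-(2 * δ)) ≤
          Real.exp (-(δ * ((s i / (q * d) + 2 : ℕ) : ℝ))) := by
        rw [← Real.exp_add]
        apply Real.exp_le_exp.2
        push_cast
        have h3 := mul_le_mul_of_nonneg_left h1 hδ0.le
        have h4 : δ / (q * d) * s i = δ * (s i / (q * d)) := by ring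
        rw [h4]
        linarith
      refine le_trans ?_ h2
      have h5 := Real.add_one_le_exp (-(2 * δ))
      have h6 : Real.exp (-(δ / (q * d) * s i)) ≤ 1 := by
        apply Real.exp_le_one_iff.2
        rw [neg_nonpos]
        positivity
      have h7 := Real.exp_pos (-(δ / (q * d) * s i))
      nlinarith
    have e2 : Real.exp (-(δ * ((min (T i / (q * d)) (L' + 1) : ℕ) : ℝ))) ≤
        Real.exp (-(δ / (q * d) * T i)) + 2 * δ + Real.exp (-(δ * L')) := by
      rcases le_total (T i / (q * d)) (L' + 1) with h1 | h1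
      · rw [min_eq_left h1]
        have h2 : (T i : ℝ) / (q * d) - 1 ≤ ((T i / (q * d) : ℕ) : ℝ) := by
          have h3 := Nat.lt_div_mul_add (a := T i) hD
          have h4 : (T i : ℝ) < ((T i / (q * d) : ℕ) : ℝ) * (q * d) + q * d := by exact_mod_cast h3
          rw [sub_le_iff_le_add, div_le_iff₀ hDr]
          nlinarith
        have h3 : Real.exp (-(δ * ((T i / (q * d) : ℕ) : ℝ))) ≤
            Real.exp (-(δ / (q * d) * T i)) * Real.exp δ := by
          rw [← Real.exp_add]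
          apply Real.exp_le_exp.2
          have h5 := mul_le_mul_of_nonneg_left h2 hδ0.le
          have h4 : δ / (q * d) * T i = δ * (T i / (q * d)) := by ring
          rw [h4]
          linarith
        have h4 := Real.abs_exp_sub_one_le (x := δ) (by rw [abs_of_nonneg hδ0.le]; exact hδ)
        rw [abs_of_nonneg hδ0.le] at h4
        have h5 := (abs_le.1 h4).2
        have h6 : Real.exp (-(δ / (q * d) * T i)) ≤ 1 := by
          apply Real.exp_le_one_iff.2
          rw [neg_nonpos]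
          positivity
        have h7 := Real.exp_pos (-(δ / (q * d) * T i))
        have h8 := Real.exp_pos (-(δ * (L' : ℝ)))
        nlinarith
      · rw [min_eq_right h1]
        have h2 : Real.exp (-(δ * ((L' + 1 : ℕ) : ℝ))) ≤ Real.exp (-(δ * L')) := by
          apply Real.exp_le_exp.2
          push_cast
          nlinarith
        have h7 := Real.exp_pos (-(δ / (q * d) * T i))
        linarith
    rw [hθ]
    linarith
  have hG0 : ∀ i : Fin l, 0 ≤ G i := by
    intro i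
    rw [hG]
    simp only
    exact mul_nonneg hδ0.le (Finset.sum_nonneg fun k _ => (Real.exp_pos _).le)
  have hprod := prod_low (univ : Finset (Fin l)) G (fun i => gg i) θ hθ0 (fun i _ => hG0 i)
    (fun i _ => hgg0 i i.2) (fun i _ => hgg1 i) (fun i _ => hGg i)
  rw [card_univ, Fintype.card_fin] at hprod
  have hprodr : ∏ i : Fin l, gg i = ∏ j ∈ range l, gg j := Fin.prod_univ_eq_prod_range gg l
  rw [hprodr] at hprod
  have hgle : ∏ j ∈ range l, gg j ≤ 1 := prod_le_one (fun j hj => hgg0 j (mem_range.1 hj)) (fun j _ => hgg1 j)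
  have hmain : μ / R ^ l * (∏ j ∈ range l, gg j - l * θ - δ) ≤
      ∑ k ∈ Fintype.piFinset K, μ ^ (l + 1) * Real.exp (-(δ * (∑ i, (k i : ℝ) + 1))) := by
    have h1 : ∑ k ∈ Fintype.piFinset K, μ ^ (l + 1) * Real.exp (-(δ * (∑ i, (k i : ℝ) + 1))) =
        μ ^ (l + 1) * Real.exp (-δ) * ∏ i, ∑ k ∈ K i, Real.exp (-(δ * k)) := by
      rw [Finset.prod_univ_sum, Finset.mul_sum]
      apply Finset.sum_congr rfl
      intro k _
      rw [← Real.exp_sum, mul_assoc, ← Real.exp_add]
      congr 2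
      rw [Finset.sum_neg_distrib, ← Finset.mul_sum]
      ring
    have h2 : ∏ i, G i = δ ^ l * ∏ i, ∑ k ∈ K i, Real.exp (-(δ * k)) := by
      rw [hG]
      simp only
      rw [Finset.prod_mul_distrib, Finset.prod_const, card_univ, Fintype.card_fin]
    have h3 : μ ^ (l + 1) * Real.exp (-δ) * ∏ i, ∑ k ∈ K i, Real.exp (-(δ * k)) =
        μ / R ^ l * (Real.exp (-δ) * ∏ i, G i) := by
      rw [h2, hδdef, mul_pow, pow_succ]
      field_simp
    rw [h1, h3]
    apply mul_le_mul_of_nonneg_left _ (by positivity)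
    have h4 := Real.add_one_le_exp (-δ)
    have h5 : 0 ≤ ∏ i, G i := Finset.prod_nonneg fun i _ => hG0 i
    have h6 : (1 - δ) * ∏ i, G i ≤ Real.exp (-δ) * ∏ i, G i :=
      mul_le_mul_of_nonneg_right (by linarith) h5
    have h7 : (1 - δ) * (∏ j ∈ range l, gg j - l * θ) ≤ (1 - δ) * ∏ i, G i :=
      mul_le_mul_of_nonneg_left hprod (by linarith)
    have h8 : 0 ≤ (l : ℝ) * θ := by positivity
    nlinarith
  have hcardK : ((Fintype.piFinset K).card : ℝ) ≤ (L' + 1) ^ l := by
    have h1 : (Fintype.piFinset K).card ≤ (L' + 1) ^ l := by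
      rw [Fintype.card_piFinset]
      refine (Finset.prod_le_pow_card _ _ (L' + 1) (fun i _ => ?_)).trans (le_of_eq ?_)
      · have : K i ⊆ range (L' + 1) := by
          intro k hk
          rw [mem_range]
          exact (hKi i k hk).2.2
        exact (card_le_card this).trans (le_of_eq (card_range _))
      · rw [card_univ, Fintype.card_fin]
    exact_mod_cast h1
  have hε : ε ≤ |ε| := le_abs_self ε
  have hsplit : ∑ k ∈ Fintype.piFinset K, Y * (μ ^ (l + 1) *
      Real.exp (-(δ * (∑ i, (k i : ℝ) + 1))) - 2 ^ (l + 1) * ε) =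
      Y * ∑ k ∈ Fintype.piFinset K, μ ^ (l + 1) * Real.exp (-(δ * (∑ i, (k i : ℝ) + 1))) -
        (Fintype.piFinset K).card * (Y * (2 ^ (l + 1) * ε)) := by
    rw [Finset.mul_sum, ← nsmul_eq_mul, ← Finset.sum_const, ← Finset.sum_sub_distrib]
    apply Finset.sum_congr rfl
    intro k _
    ring
  have e0 : (2 * R * μ) = 2 * δ := by rw [hδdef]; ring
  rw [hsplit, mul_assoc (q : ℝ) (Y : ℝ)]
  apply mul_le_mul_of_nonneg_left _ hq0
  have f1 : (Fintype.piFinset K).card * (Y * (2 ^ (l + 1) * ε)) ≤ (L' + 1) ^ l * (Y * (2 ^ (l + 1) * |ε|)) := by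
    calc (Fintype.piFinset K).card * (Y * (2 ^ (l + 1) * ε)) ≤
        (Fintype.piFinset K).card * (Y * (2 ^ (l + 1) * |ε|)) := by gcongr
      _ ≤ _ := by
        apply mul_le_mul_of_nonneg_right hcardK
        positivity
  have f2 : ((l * L' + 1 : ℕ) : ℝ) * (Y * ((2 * R * μ) ^ 3 + ε)) ≤
      (l * L' + 1) * (Y * ((2 * R * μ) ^ 3 + |ε|)) := by
    push_cast
    gcongr
  have f3 := mul_le_mul_of_nonneg_left hmain hY0
  have hgoal : ∏ j ∈ range l, (Real.exp (-(δ / (q * d) * s j)) - Real.exp (-(δ / (q * d) * T j))) =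
      ∏ j ∈ range l, gg j := by rw [hgg]
  rw [hgoal, ← hθ]
  nlinarith

end Pool.Agent.R463.PP
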