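import Pool.Agent.R463.PP7a

set_option autoImplicit false

/-!
# The joint law of the gaps and the residues of consecutive elements of sifted sets
-/

namespace Pool.Agent.R463.PP

open Finset Filter Pool.Agent.H373R2.T7 Pool.Agent.W123.RP Pool.Agent.W123.RU Pool.Agent.TH464.PO

/-- the parameters -/
structure Par where
  K0 : ℕ
  y0 : ℕ
  T0 : ℕ
  R0 : ℕ
  η : ℝ
  κ : ℝ
  x1 : ℝ
  hy0 : 1 ≤ y0
  hη : 0 < η
  hκ : 0 < κ
  hx1 : 0 < x1

open Classical in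
/-- the conditions on a sifting problem in `(Z, Z + Y]` -/
structure Ok (P : Par) (c q : ℕ) (Q : ℕ → ℕ → Prop) (Y y : ℕ) : Prop where
  per : PerB Q c
  adm : ∀ p : ℕ, p.Prime → nuB Q p < p
  cop : ∀ p : ℕ, p.Prime → p ∣ q → ∀ m, ¬ Q p m
  hy : P.y0 ≤ y
  hY : y ^ P.K0 ≤ Y
  hV : Vq Q y ≤ P.κ
  hsq : √(Y : ℝ) ≤ P.κ * (Y * Vq Q y)
  hbd : P.x1 / Vq Q y ≤ P.κ * (Y * Vq Q y)
  hT : ∀ T : ℕ, P.κ ≤ T * Vq Q y → T * Vq Q y ≤ P.x1 → P.T0 ≤ T ∧ T ^ P.R0 ≤ Y ∧ ∀ t ∈ Icc 1 T,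
        ((((pz y).filter (fun p : ℕ => T < p ∧ CoG Q p t)).card : ℕ) : ℝ) ≤ P.η * T

lemma Par.combine (P1 P2 : Par) : ∃ P : Par, P.κ ≤ P1.κ ∧ ∀ (c q : ℕ) (Q : ℕ → ℕ → Prop) (Y y : ℕ),
    Ok P c q Q Y y → Ok P1 c q Q Y y ∧ Ok P2 c q Q Y y := by
  refine ⟨⟨max P1.K0 P2.K0, max P1.y0 P2.y0, max P1.T0 P2.T0, max P1.R0 P2.R0, min P1.η P2.η,
    min P1.κ P2.κ, max P1.x1 P2.x1, P1.hy0.trans (le_max_left _ _), lt_min P1.hη P2.hη,
    lt_min P1.hκ P2.hκ, lt_max_of_lt_left P1.hx1⟩, min_le_left _ _, ?_⟩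
  intro c q Q Y y h
  have hy1 : 1 ≤ y := P1.hy0.trans ((le_max_left _ _).trans h.hy)
  have hV0 : 0 < Vq Q y := Vq_pos Q h.adm y
  have key : ∀ P : Par, P.K0 ≤ max P1.K0 P2.K0 → P.y0 ≤ max P1.y0 P2.y0 → P.T0 ≤ max P1.T0 P2.T0 →
      P.R0 ≤ max P1.R0 P2.R0 → min P1.η P2.η ≤ P.η → min P1.κ P2.κ ≤ P.κ → P.x1 ≤ max P1.x1 P2.x1 →
      Ok P c q Q Y y := by
    intro P h1 h2 h3 h4 h5 h6 h7
    have hYV : 0 ≤ Y * Vq Q y := by positivity
    have hm := mul_le_mul_of_nonneg_right h6 hYV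
    refine ⟨h.per, h.adm, h.cop, h2.trans h.hy, (Nat.pow_le_pow_right hy1 h1).trans h.hY, h.hV.trans h6,
      h.hsq.trans hm, ?_, ?_⟩
    · refine le_trans ?_ (h.hbd.trans hm)
      exact div_le_div_of_nonneg_right h7 hV0.le
    · intro T hT1 hT2
      obtain ⟨a1, a2, a3⟩ := h.hT T (h6.trans hT1) (hT2.trans h7)
      have hTpos : 1 ≤ T := by
        by_contra hcon
        have : T = 0 := by omega
        rw [this] at hT1
        have := P.hκ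
        simp only [Nat.cast_zero, zero_mul] at hT1
        linarith
      refine ⟨h3.trans a1, (Nat.pow_le_pow_right hTpos h4).trans a2, fun t ht => (a3 t ht).trans ?_⟩
      exact mul_le_mul_of_nonneg_right h5 (Nat.cast_nonneg _)
  exact ⟨key P1 (le_max_left _ _) (le_max_left _ _) (le_max_left _ _) (le_max_left _ _) (min_le_left _ _)
    (min_le_left _ _) (le_max_left _ _), key P2 (le_max_right _ _) (le_max_right _ _) (le_max_right _ _)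
    (le_max_right _ _) (min_le_right _ _) (min_le_right _ _) (le_max_right _ _)⟩

open Classical in
/-- the number of the patterns -/
noncomputable def cnt (Q : ℕ → ℕ → Prop) (y q l : ℕ) (B : Finset ℕ) (c0 : ℕ) (b s T : ℕ → ℕ) (Z Y : ℕ) : ℕ :=
  ((Ioc Z (Z + Y)).filter (Pat (Sf Q y) q l B c0 b s T)).card

/-- the product of the probabilities -/
noncomputable def gp (V : ℝ) (q l : ℕ) (B : Finset ℕ) (s T : ℕ → ℕ) : ℝ :=
  ∏ j ∈ range l, (Real.exp (-(B.card * V / q * s j)) - Real.exp (-(B.card * V / q * T j)))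

lemma prod_le_one' (R V : ℝ) (q l : ℕ) (s T : ℕ → ℕ) (hR1 : 1 ≤ R) (hV0 : 0 ≤ V) (hqr : (1 : ℝ) ≤ q)
    (hsT : ∀ j < l, s j ≤ T j) :
    ∏ j ∈ range l, (Real.exp (-(R * V / q * s j)) - Real.exp (-(R * V / q * T j))) ≤ 1 := by
  have hRV : 0 ≤ R * V / q := by positivity
  have hf0 : ∀ j ∈ range l, 0 ≤ Real.exp (-(R * V / q * s j)) - Real.exp (-(R * V / q * T j)) := by
    intro j hj
    rw [sub_nonneg]
    apply Real.exp_le_exp.2
    apply neg_le_neg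
    apply mul_le_mul_of_nonneg_left _ hRV
    exact_mod_cast hsT j (mem_range.1 hj)
  refine prod_le_one hf0 (fun j _ => ?_)
  have h1 : Real.exp (-(R * V / q * s j)) ≤ 1 := by
    apply Real.exp_le_one_iff.2
    rw [neg_nonpos]
    positivity
  have h2 := Real.exp_pos (-(R * V / q * T j))
  linarith

lemma div_sub_one_le (Y q : ℕ) (hq : 1 ≤ q) : (Y : ℝ) / q - 1 ≤ ((Y / q : ℕ) : ℝ) := by
  have hqr : (1 : ℝ) ≤ q := by exact_mod_cast hq
  have h3 := Nat.lt_div_mul_add (a := Y) (show 0 < q by omega)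
  have h4 : (Y : ℝ) < ((Y / q : ℕ) : ℝ) * q + q := by exact_mod_cast h3
  rw [sub_le_iff_le_add, div_le_iff₀ (by linarith)]
  linarith

open Classical in
/-- **The lower bound for the patterns.** -/
theorem runs_low (c q l : ℕ) (hc : 1 ≤ c) (hq : 1 ≤ q) (B : Finset ℕ) (hB : B ⊆ range q) (hB0 : 1 ≤ B.card)
    (ε : ℝ) (hε : 0 < ε) (hε1 : ε ≤ 1) : ∃ P : Par, ∀ (Q : ℕ → ℕ → Prop) (Y y : ℕ), Ok P c q Q Y y →
      ∀ Z c0 : ℕ, c0 ∈ B → ∀ b s T : ℕ → ℕ, (∀ j < l, b j ∈ B) → (∀ j < l, s j ≤ T j) →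
        Y * Vq Q y / q * (gp (Vq Q y) q l B s T / B.card ^ l - ε) ≤ cnt Q y q l B c0 b s T Z Y := by
  obtain ⟨R, hR⟩ : ∃ R : ℝ, R = B.card := ⟨_, rfl⟩
  have hR1 : 1 ≤ R := by rw [hR]; exact_mod_cast hB0
  have hqr : (1 : ℝ) ≤ q := by exact_mod_cast hq
  obtain ⟨X1, hX1⟩ : ∃ X1 : ℕ, Real.exp (-(X1 : ℝ)) ≤ ε / (8 * (l + 1)) := by
    have h1 : Tendsto (fun n : ℕ => Real.exp (-(n : ℝ))) atTop (nhds 0) :=
      Real.tendsto_exp_neg_atTop_nhds_zero.comp tendsto_natCast_atTop_atTop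
    have h2 := (h1.eventually (gt_mem_nhds (show (0 : ℝ) < ε / (8 * (l + 1)) by positivity))).exists
    obtain ⟨n, hn⟩ := h2
    exact ⟨n, hn.le⟩
  obtain ⟨δ0, hδ0⟩ : ∃ δ0 : ℝ, δ0 = ε / (64 * R * ((l + 1) * (2 * X1 + 4))) := ⟨_, rfl⟩
  have hδ0p : 0 < δ0 := by rw [hδ0]; positivity
  have hden : 64 ≤ 64 * R * ((l + 1) * (2 * (X1 : ℝ) + 4)) := by
    have h1 : (1 : ℝ) ≤ l + 1 := by
      have : (0 : ℝ) ≤ l := Nat.cast_nonneg l
      linarith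
    have h2 : (1 : ℝ) ≤ 2 * X1 + 4 := by
      have : (0 : ℝ) ≤ X1 := Nat.cast_nonneg X1
      linarith
    have h3 : 1 ≤ (l + 1) * (2 * (X1 : ℝ) + 4) := one_le_mul_of_one_le_of_one_le h1 h2
    have h4 : 1 ≤ R * ((l + 1) * (2 * (X1 : ℝ) + 4)) := one_le_mul_of_one_le_of_one_le hR1 h3
    linarith
  have hδ01 : δ0 ≤ 1 := by
    rw [hδ0, div_le_one (by linarith)]
    linarith
  obtain ⟨L', hL'⟩ : ∃ L' : ℕ, L' = ⌈2 * (X1 : ℝ) / δ0⌉₊ := ⟨_, rfl⟩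
  have hL1 : 2 * (X1 : ℝ) ≤ δ0 * L' := by
    have := Nat.le_ceil (2 * (X1 : ℝ) / δ0)
    rw [← hL', div_le_iff₀ hδ0p] at this
    linarith
  have hL2 : δ0 * L' ≤ 2 * X1 + 1 := by
    have h1 := Nat.ceil_lt_add_one (show 0 ≤ 2 * (X1 : ℝ) / δ0 by positivity)
    rw [← hL'] at h1
    have h2 := mul_le_mul_of_nonneg_left h1.le hδ0p.le
    have h3 : δ0 * (2 * (X1 : ℝ) / δ0 + 1) = 2 * X1 + δ0 := by field_simp
    linarith
  obtain ⟨E, hE⟩ : ∃ E : ℝ, E = (L' + 1) ^ l * 2 ^ (l + 1) + (l * L' + 1) := ⟨_, rfl⟩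
  have hE0 : 0 < E := by rw [hE]; positivity
  obtain ⟨ε', hε'⟩ : ∃ ε' : ℝ, ε' = ε * δ0 / (16 * R * E) := ⟨_, rfl⟩
  have hε'0 : 0 < ε' := by rw [hε']; positivity
  obtain ⟨L, hL⟩ : ∃ L : ℕ, L = l * L' + 1 := ⟨_, rfl⟩
  have hL1' : 1 ≤ L := by omega
  obtain ⟨K1, y1, T1, R1, η1, hη1, hlaw⟩ := lawC c q L hc hq ((L * q : ℕ) : ℝ) ε' (Nat.cast_nonneg _) hε'0
  refine ⟨⟨K1 + 1, max y1 q, T1, R1 + 1, η1, min (δ0 / (2 * R)) (ε / (6 * q)), ((L * q : ℕ) : ℝ),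
    hq.trans (le_max_right _ _), hη1, by positivity, by positivity⟩, ?_⟩
  intro Q Y y hok Z c0 hc0 b s T hb hsT
  obtain ⟨V, hVdef⟩ : ∃ V, V = Vq Q y := ⟨_, rfl⟩
  have hV0 : 0 < V := by rw [hVdef]; exact Vq_pos Q hok.adm y
  have hV1 : V ≤ 1 := by rw [hVdef]; exact Vq_le_one Q y
  have hVκ1 : V ≤ δ0 / (2 * R) := by rw [hVdef]; exact hok.hV.trans (min_le_left _ _)
  have hy1 : y1 ≤ y := (le_max_left _ _).trans hok.hy
  have hyq : q ≤ y := (le_max_right _ _).trans hok.hy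
  obtain ⟨d, hd⟩ : ∃ d : ℕ, d = ⌊δ0 / (R * V)⌋₊ := ⟨_, rfl⟩
  have hRV : 0 < R * V := by positivity
  have hRV2 : R * V ≤ δ0 / 2 := by
    rw [le_div_iff₀ (by positivity)] at hVκ1
    linarith
  have hd1 : (d : ℝ) ≤ δ0 / (R * V) := by rw [hd]; exact Nat.floor_le (by positivity)
  have hd2 : δ0 / (R * V) < d + 1 := by rw [hd]; exact Nat.lt_floor_add_one _
  obtain ⟨μ, hμ⟩ : ∃ μ : ℝ, μ = d * V := ⟨_, rfl⟩
  have hδup : R * μ ≤ δ0 := by
    rw [le_div_iff₀ hRV] at hd1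
    rw [hμ]
    linarith
  have hδlo : δ0 / 2 ≤ R * μ := by
    rw [div_lt_iff₀ hRV] at hd2
    rw [hμ]
    linarith
  have hμ0 : 0 < μ := by
    by_contra hcon
    rw [not_lt] at hcon
    have : R * μ ≤ 0 := mul_nonpos_of_nonneg_of_nonpos (by linarith) hcon
    linarith
  have hdpos : 1 ≤ d := by
    by_contra hcon
    have : d = 0 := by omega
    rw [this] at hμ
    simp only [Nat.cast_zero, zero_mul] at hμ
    linarith
  have hdr : (1 : ℝ) ≤ d := by exact_mod_cast hdpos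
  have hμR : μ ≤ R * μ := le_mul_of_one_le_left hμ0.le hR1
  have hμδ : μ ≤ δ0 := hμR.trans hδup
  -- the window
  have hTV : ((L * (q * d) : ℕ) : ℝ) * V = L * q * μ := by
    rw [hμ]
    push_cast
    ring
  have hLr : (1 : ℝ) ≤ L := by exact_mod_cast hL1'
  have hLq : (1 : ℝ) ≤ L * q := one_le_mul_of_one_le_of_one_le hLr hqr
  have hTx : ((L * (q * d) : ℕ) : ℝ) * V ≤ ((L * q : ℕ) : ℝ) := by
    rw [hTV]
    push_cast
    have h1 : L * q * μ ≤ L * q * 1 := mul_le_mul_of_nonneg_left (hμδ.trans hδ01) (by linarith)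
    linarith
  have hTκ : min (δ0 / (2 * R)) (ε / (6 * q)) ≤ ((L * (q * d) : ℕ) : ℝ) * V := by
    refine (min_le_left _ _).trans ?_
    rw [hTV, div_le_iff₀ (by positivity)]
    have h1 : δ0 ≤ μ * (2 * R) := by linarith
    have h2 : μ * (2 * R) ≤ L * q * μ * (2 * R) := by
      have : μ ≤ L * q * μ := le_mul_of_one_le_left hμ0.le hLq
      exact mul_le_mul_of_nonneg_right this (by linarith)
    linarith
  obtain ⟨t1, t2, t3⟩ := hok.hT (L * (q * d)) (by rw [← hVdef]; exact hTκ) (by rw [← hVdef]; exact hTx)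
  simp only at t1 t2 t3
  have hTq0 : q ≤ L * q := by
    calc q = 1 * q := (one_mul q).symm
      _ ≤ L * q := Nat.mul_le_mul_right _ hL1'
  have hTq : q ≤ L * (q * d) := by
    have h1 : q * 1 ≤ q * d := Nat.mul_le_mul_left q hdpos
    have h2 : 1 * (q * d) ≤ L * (q * d) := Nat.mul_le_mul_right _ hL1'
    omega
  have hYq : ∀ a n : ℕ, q ≤ a → a ^ (n + 1) ≤ Y → a ^ n ≤ Y / q := by
    intro a n ha hn
    rw [Nat.le_div_iff_mul_le (by omega)]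
    calc a ^ n * q ≤ a ^ n * a := Nat.mul_le_mul_left _ ha
      _ = a ^ (n + 1) := (pow_succ a n).symm
      _ ≤ Y := hn
  have hHL : HL (Sf Q y) q d L (Y / q) μ ε' := by
    intro a S hS A
    have := hlaw (Y / q) y d hy1 (hYq y K1 hyq hok.hY) t1 (hYq _ R1 hTq t2) Q hok.per hok.adm
      (by rw [← hVdef]; exact hTx) t3 hok.cop a S hS A
    rw [← hVdef, ← hμ] at this
    exact this
  rw [hL] at hHL
  have hlow := lower (Sf Q y) q d L' l (Y / q) μ ε' hq hdpos hμ0 hHL B hB hB0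
    (by rw [← hR]; linarith) c0 hc0 b s T hb hsT Z
  rw [← hR, abs_of_pos hε'0] at hlow
  -- the boundary
  have hbdry : (((Ioc (Z + q) (Z + q + q * (Y / q) + q * d)).filter (Pat (Sf Q y) q l B c0 b s T)).card : ℝ) ≤
      cnt Q y q l B c0 b s T Z Y + (q + q * d) := by
    have h1 : (Ioc (Z + q) (Z + q + q * (Y / q) + q * d)).filter (Pat (Sf Q y) q l B c0 b s T) ⊆
        (Ioc Z (Z + Y)).filter (Pat (Sf Q y) q l B c0 b s T) ∪ Ioc (Z + Y) (Z + Y + (q + q * d)) := by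
      intro p hp
      rw [mem_filter, mem_Ioc] at hp
      have h2 := Nat.mul_div_le Y q
      rw [mem_union, mem_filter, mem_Ioc, mem_Ioc]
      by_cases h3 : p ≤ Z + Y
      · left
        exact ⟨by omega, hp.2⟩
      · right
        omega
    have h2 := (card_le_card h1).trans (card_union_le _ _)
    rw [Nat.card_Ioc, Nat.add_sub_cancel_left] at h2
    unfold cnt
    exact_mod_cast h2
  -- the algebra
  obtain ⟨M0, hM0⟩ : ∃ M0 : ℝ, M0 = gp V q l B s T := ⟨_, rfl⟩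
  have hprodeq : ∏ j ∈ range l, (Real.exp (-(R * μ / (q * d) * s j)) - Real.exp (-(R * μ / (q * d) * T j))) =
      M0 := by
    rw [hM0]
    unfold gp
    rw [← hR]
    have : R * μ / (q * d) = R * V / q := by
      rw [hμ]
      field_simp
    rw [this]
  rw [hprodeq] at hlow
  have hM01 : M0 ≤ 1 := by
    rw [hM0]
    unfold gp
    rw [← hR]
    exact prod_le_one' R V q l s T hR1 hV0.le hqr hsT
  obtain ⟨Yv, hYv⟩ : ∃ Yv : ℝ, Yv = ((Y / q : ℕ) : ℝ) := ⟨_, rfl⟩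
  have hYv0 : 0 ≤ Yv := by rw [hYv]; positivity
  have hYv1 : Yv ≤ Y / q := by rw [hYv]; exact Nat.cast_div_le
  have hYv2 : Y / q - 1 ≤ Yv := by rw [hYv]; exact div_sub_one_le Y q hq
  rw [← hYv] at hlow
  obtain ⟨N, hN⟩ : ∃ N : ℝ, N = cnt Q y q l B c0 b s T Z Y := ⟨_, rfl⟩
  rw [← hVdef, ← hM0, ← hN, ← hR]
  rw [← hN] at hbdry
  have hX0 : (0 : ℝ) ≤ X1 := Nat.cast_nonneg X1
  have hδsmall : 64 * R * ((l + 1) * (2 * X1 + 4)) * δ0 = ε := by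
    rw [hδ0]
    field_simp
  have herr1 := alg_err1 R μ δ0 X1 ε L' l hR1 hμ0 hδ0p hX0 hδup hδlo hδsmall hL1 hX1
  have herr2 := alg_err2 R μ δ0 X1 ε ε' E L' l hR1 hμ0 hδ0p hX0 hδ01 hδup hδlo hδsmall hL2 hE0 hE hε'
  have hd0 : (0 : ℝ) < d := by linarith
  have hstep := alg_step R μ ε M0 N Yv V q d _ (l * (4 * (R * μ) + Real.exp (-(R * μ * L'))) + R * μ)
    ((L' + 1) ^ l * 2 ^ (l + 1) * ε' + (l * L' + 1) * ((2 * R * μ) ^ 3 + ε')) l hR1 hμ hμ0 hε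
    (by linarith) hd0 hYv0 (by rw [← sub_sub M0]; exact hlow) hbdry herr1 herr2
  have hbd := hok.hbd
  simp only at hbd
  rw [← hVdef] at hbd
  refine alg_fin R ε M0 N Yv Y V q d ((L * q : ℕ) : ℝ) l hR1 hε hqr hV0 hV1 ?_ ?_ hM01 hYv1 hYv2 ?_ hstep
  · rw [← hμ]
    linarith
  · exact_mod_cast hTq0
  · refine hbd.trans ?_
    exact mul_le_mul_of_nonneg_right (min_le_right _ _) (by positivity)

end Pool.Agent.R463.PP
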