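import Pool.Agent.R463.PP6

set_option autoImplicit false

/-!
# The algebra of the error terms
-/

namespace Pool.Agent.R463.PP

open Finset Filter

lemma alg_err1 (R μ δ0 X1 ε : ℝ) (L' l : ℕ) (hR1 : 1 ≤ R) (hμ0 : 0 < μ) (hδ0p : 0 < δ0) (hX0 : 0 ≤ X1)
    (hδup : R * μ ≤ δ0) (hδlo : δ0 / 2 ≤ R * μ)
    (hδsmall : 64 * R * ((l + 1) * (2 * X1 + 4)) * δ0 = ε) (hL1 : 2 * X1 ≤ δ0 * L')
    (hX1 : Real.exp (-X1) ≤ ε / (8 * (l + 1))) :
    l * (4 * (R * μ) + Real.exp (-(R * μ * L'))) + R * μ ≤ ε / 4 := by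
  have hl0 : (0 : ℝ) ≤ l := Nat.cast_nonneg l
  have hε : 0 < ε := by rw [← hδsmall]; positivity
  have hexp : Real.exp (-(R * μ * L')) ≤ ε / (8 * (l + 1)) := by
    refine le_trans ?_ hX1
    apply Real.exp_le_exp.2
    apply neg_le_neg
    have h1 : δ0 / 2 * L' ≤ R * μ * L' := mul_le_mul_of_nonneg_right hδlo (Nat.cast_nonneg _)
    linarith
  have h1 : l * Real.exp (-(R * μ * L')) ≤ ε / 8 := by
    calc l * Real.exp (-(R * μ * L')) ≤ l * (ε / (8 * (l + 1))) := mul_le_mul_of_nonneg_left hexp hl0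
      _ ≤ (l + 1) * (ε / (8 * (l + 1))) := by
        apply mul_le_mul_of_nonneg_right _ (by positivity)
        linarith
      _ = ε / 8 := by field_simp
  have h2 : (4 * (l : ℝ) + 1) * (R * μ) ≤ (4 * (l + 1)) * δ0 := by
    apply mul_le_mul (by linarith) hδup (by positivity) (by positivity)
  have h3 : (4 * ((l : ℝ) + 1)) * δ0 ≤ ε / 8 := by
    have e1 : 32 * (l + 1) * δ0 ≤ 64 * R * ((l + 1) * (2 * X1 + 4)) * δ0 := by
      apply mul_le_mul_of_nonneg_right _ hδ0p.le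
      have e2 : (1 : ℝ) ≤ R * (2 * X1 + 4) := one_le_mul_of_one_le_of_one_le hR1 (by linarith)
      calc 32 * ((l : ℝ) + 1) ≤ 64 * (l + 1) * 1 := by linarith
        _ ≤ 64 * (l + 1) * (R * (2 * X1 + 4)) := mul_le_mul_of_nonneg_left e2 (by positivity)
        _ = _ := by ring
    linarith
  have h4 : l * (4 * (R * μ) + Real.exp (-(R * μ * L'))) + R * μ =
      (4 * (l : ℝ) + 1) * (R * μ) + l * Real.exp (-(R * μ * L')) := by ring
  rw [h4]
  linarith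

lemma alg_err2 (R μ δ0 X1 ε ε' E : ℝ) (L' l : ℕ) (hR1 : 1 ≤ R) (hμ0 : 0 < μ) (hδ0p : 0 < δ0) (hX0 : 0 ≤ X1)
    (hδ01 : δ0 ≤ 1) (hδup : R * μ ≤ δ0) (hδlo : δ0 / 2 ≤ R * μ)
    (hδsmall : 64 * R * ((l + 1) * (2 * X1 + 4)) * δ0 = ε)
    (hL2 : δ0 * L' ≤ 2 * X1 + 1) (hE0 : 0 < E) (hE : E = (L' + 1) ^ l * 2 ^ (l + 1) + (l * L' + 1))
    (hε' : ε' = ε * δ0 / (16 * R * E)) :
    ((L' + 1) ^ l * 2 ^ (l + 1) * ε' + (l * L' + 1) * ((2 * R * μ) ^ 3 + ε')) ≤ μ * (ε / 4) := by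
  have hl0 : (0 : ℝ) ≤ l := Nat.cast_nonneg l
  have hR0 : 0 < R := by linarith
  have hε : 0 < ε := by rw [← hδsmall]; positivity
  have h1 : (L' + 1) ^ l * 2 ^ (l + 1) * ε' + (l * L' + 1) * ((2 * R * μ) ^ 3 + ε') =
      E * ε' + (l * L' + 1) * (2 * R * μ) ^ 3 := by rw [hE]; ring
  have h2 : E * ε' = ε * δ0 / (16 * R) := by
    rw [hε']
    field_simp
  have h3 : ε * δ0 / (16 * R) ≤ μ * (ε / 8) := by
    rw [div_le_iff₀ (by positivity)]
    have : ε * (δ0 / 2) ≤ ε * (R * μ) := mul_le_mul_of_nonneg_left hδlo hε.le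
    linarith
  have h4 : (l * L' + 1) * (2 * R * μ) ^ 3 ≤ μ * (ε / 8) := by
    have e1 : (2 * R * μ) ^ 3 = 8 * R * μ * (R * μ) * (R * μ) := by ring
    have e2 : ((l : ℝ) * L' + 1) * (R * μ) ≤ (l + 1) * (2 * X1 + 4) := by
      have f1 : (L' : ℝ) * (R * μ) ≤ 2 * X1 + 1 := by
        calc (L' : ℝ) * (R * μ) ≤ L' * δ0 := mul_le_mul_of_nonneg_left hδup (Nat.cast_nonneg _)
          _ ≤ _ := by linarith
      have f2 : (l : ℝ) * (L' * (R * μ)) ≤ l * (2 * X1 + 1) := mul_le_mul_of_nonneg_left f1 hl0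
      have f3 : (l : ℝ) * (2 * X1 + 1) ≤ l * (2 * X1 + 4) := mul_le_mul_of_nonneg_left (by linarith) hl0
      calc ((l : ℝ) * L' + 1) * (R * μ) = l * (L' * (R * μ)) + R * μ := by ring
        _ ≤ l * (2 * X1 + 4) + (2 * X1 + 4) := by linarith
        _ = _ := by ring
    have e3 : 8 * R * ((l + 1) * (2 * X1 + 4)) * (R * μ) ≤ ε / 8 := by
      have f1 : 8 * R * ((l + 1) * (2 * X1 + 4)) * (R * μ) ≤ 8 * R * ((l + 1) * (2 * X1 + 4)) * δ0 :=
        mul_le_mul_of_nonneg_left hδup (by positivity)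
      linarith
    calc (l * L' + 1) * (2 * R * μ) ^ 3 = 8 * R * (R * μ) * μ * (((l : ℝ) * L' + 1) * (R * μ)) := by
          rw [e1]; ring
      _ ≤ 8 * R * (R * μ) * μ * ((l + 1) * (2 * X1 + 4)) :=
        mul_le_mul_of_nonneg_left e2 (by positivity)
      _ = μ * (8 * R * ((l + 1) * (2 * X1 + 4)) * (R * μ)) := by ring
      _ ≤ μ * (ε / 8) := mul_le_mul_of_nonneg_left e3 hμ0.le
  rw [h1]
  linarith

lemma alg_step (R μ ε M0 N Yv V q d A E1 E2 : ℝ) (l : ℕ) (hR1 : 1 ≤ R) (hμ : μ = d * V) (hμ0 : 0 < μ)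
    (hε : 0 < ε) (hq : 0 < q) (hd : 0 < d) (hYv : 0 ≤ Yv)
    (hlow : q * Yv * (μ / R ^ l * (M0 - E1) - E2) ≤ q * d * A) (hA : A ≤ N + (q + q * d))
    (h1 : E1 ≤ ε / 4) (h2 : E2 ≤ μ * (ε / 4)) :
    Yv * V * (M0 / R ^ l - ε / 2) ≤ N + (q + q * d) := by
  have hR0 : (0 : ℝ) < R ^ l := by positivity
  have hRl : 1 ≤ R ^ l := one_le_pow₀ hR1
  have hqd : 0 < q * d := mul_pos hq hd
  have h0 : q * Yv * (μ / R ^ l * (M0 - E1) - E2) ≤ q * d * (N + (q + q * d)) :=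
    hlow.trans (mul_le_mul_of_nonneg_left hA hqd.le)
  have h3 : μ / R ^ l * (M0 - ε / 4) ≤ μ / R ^ l * (M0 - E1) :=
    mul_le_mul_of_nonneg_left (by linarith) (by positivity)
  have h4 : μ / R ^ l * (ε / 4) ≤ μ * (ε / 4) := by
    apply mul_le_mul_of_nonneg_right _ (by positivity)
    exact div_le_self hμ0.le hRl
  have h5 : μ * (M0 / R ^ l - ε / 2) = μ / R ^ l * M0 - μ * (ε / 4) - μ * (ε / 4) := by ring
  have h6 : μ / R ^ l * (M0 - ε / 4) = μ / R ^ l * M0 - μ / R ^ l * (ε / 4) := by ring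
  have h7 : q * Yv * (μ * (M0 / R ^ l - ε / 2)) ≤ q * Yv * (μ / R ^ l * (M0 - E1) - E2) := by
    apply mul_le_mul_of_nonneg_left _ (by positivity)
    linarith
  have h8 : q * Yv * (μ * (M0 / R ^ l - ε / 2)) = q * d * (Yv * V * (M0 / R ^ l - ε / 2)) := by
    rw [hμ]
    ring
  rw [h8] at h7
  exact le_of_mul_le_mul_left (h7.trans h0) hqd

lemma alg_fin (R ε M0 N Yv Y V q d Lq : ℝ) (l : ℕ) (hR1 : 1 ≤ R) (hε : 0 < ε) (hq : 1 ≤ q)
    (hV0 : 0 < V) (hV1 : V ≤ 1) (hdV : d * V ≤ 1) (hLq : q ≤ Lq) (hM : M0 ≤ 1)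
    (hYv1 : Yv ≤ Y / q) (hYv2 : Y / q - 1 ≤ Yv)
    (hbd : Lq / V ≤ ε / (6 * q) * (Y * V))
    (hstep : Yv * V * (M0 / R ^ l - ε / 2) ≤ N + (q + q * d)) :
    Y * V / q * (M0 / R ^ l - ε) ≤ N := by
  have hR0 : (0 : ℝ) < R ^ l := by positivity
  have hRl : 1 ≤ R ^ l := one_le_pow₀ hR1
  have hq0 : 0 < q := by linarith
  obtain ⟨m, hm⟩ : ∃ m : ℝ, m = M0 / R ^ l - ε / 2 := ⟨_, rfl⟩
  rw [← hm] at hstep
  have hm1 : m ≤ 1 := by
    rw [hm]
    have : M0 / R ^ l ≤ 1 := by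
      rw [div_le_one hR0]
      linarith
    linarith
  have hYV : Y / q * V * m - V ≤ Yv * V * m := by
    rcases le_total 0 m with h | h
    · have h1 : (Y / q - 1) * (V * m) ≤ Yv * (V * m) := mul_le_mul_of_nonneg_right hYv2 (by positivity)
      have h2 : V * m ≤ V * 1 := mul_le_mul_of_nonneg_left hm1 hV0.le
      have h3 : (Y / q - 1) * (V * m) = Y / q * V * m - V * m := by ring
      have h4 : Yv * (V * m) = Yv * V * m := by ring
      linarith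
    · have h1 : Y / q * (V * m) ≤ Yv * (V * m) :=
        mul_le_mul_of_nonpos_right hYv1 (mul_nonpos_of_nonneg_of_nonpos hV0.le h)
      have h3 : Y / q * (V * m) = Y / q * V * m := by ring
      have h4 : Yv * (V * m) = Yv * V * m := by ring
      linarith
  have hfin : V + (q + q * d) ≤ ε / 2 * (Y * V / q) := by
    have h1 : q + q * d ≤ 2 * q / V := by
      rw [le_div_iff₀ hV0]
      have e1 : q * (d * V) ≤ q * 1 := mul_le_mul_of_nonneg_left hdV hq0.le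
      have e2 : q * V ≤ q * 1 := mul_le_mul_of_nonneg_left hV1 hq0.le
      have e3 : (q + q * d) * V = q * V + q * (d * V) := by ring
      linarith
    have h2 : V ≤ q / V := by
      rw [le_div_iff₀ hV0]
      have e1 : V * V ≤ 1 * 1 := mul_le_mul hV1 hV1 hV0.le (by norm_num)
      linarith
    have h3 : q / V ≤ Lq / V := div_le_div_of_nonneg_right hLq hV0.le
    have h5 : 2 * q / V = 2 * (q / V) := by ring
    have h6 : ε / 2 * (Y * V / q) = 3 * (ε / (6 * q) * (Y * V)) := by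
      field_simp
      ring
    rw [h6]
    linarith
  have hgoal : Y * V / q * (M0 / R ^ l - ε) = Y / q * V * m - ε / 2 * (Y * V / q) := by
    rw [hm]
    ring
  rw [hgoal]
  linarith

end Pool.Agent.R463.PP
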