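import Pool.Agent.Y879.GL.HerPoly

set_option autoImplicit false

/-!
# Sifted arguments of systems of polynomials: definitions and the general theorems
-/

namespace Pool.Agent.R463.PS

open Polynomial Finset Filter
open Pool.Agent.W123.RP Pool.Agent.H373R2.T7 Pool.Agent.W123.RU Pool.Agent.W123.RU.Poly
open Pool.Agent.TH464.PW Pool.Agent.TH464.PO Pool.Agent.Y879.GL

variable {k : ℕ}

/-- no prime `p ≤ X ^ (1 / r)` divides one of the values `f i (n)` -/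
def Sifted (f : Fin k → ℤ[X]) (X r n : ℕ) : Prop :=
  ∀ p : ℕ, p.Prime → (p : ℝ) ≤ (X : ℝ) ^ (1 / (r : ℝ)) → ∀ i, ¬ (p : ℤ) ∣ (f i).eval (n : ℤ)

open Classical in
/-- the number of the residues `n` modulo `p` for which `p` divides one of the values `f i (n)` -/
noncomputable def om (f : Fin k → ℤ[X]) (p : ℕ) : ℕ :=
  ((range p).filter (fun n : ℕ => ∃ i, (p : ℤ) ∣ (f i).eval (n : ℤ))).card

/-- the density of the sifted integers: the product of `1 - om(p) / p` over the primes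
`p ≤ X ^ (1 / r)` -/
noncomputable def V (f : Fin k → ℤ[X]) (X r : ℕ) : ℝ :=
  ∏ p ∈ (Icc 1 ⌊(X : ℝ) ^ (1 / (r : ℝ))⌋₊).filter Nat.Prime, (1 - (om f p : ℝ) / p)

open Classical in
/-- the number of the sifted `b` in `(Z, Z + Y]` for which fewer than `l` of the integers in `[b - T, b)`
are sifted -/
noncomputable def Far (f : Fin k → ℤ[X]) (X r l T Z Y : ℕ) : ℕ :=
  ((Ioc Z (Z + Y)).filter (fun b => Sifted f X r b ∧
    ((Ico (b - T) b).filter (fun m => Sifted f X r m)).card < l)).card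

/-- A system of `k` irreducible integer polynomials of degrees between `1` and `D`, with coefficients of
absolute value at most `H`, whose product has no fixed prime divisor, such that no two of them are
translates by a positive integer `t ≤ U` of each other, up to the sign: `f i ≠ ± f j (x + t)`. -/
structure System (D : ℕ) (H U : ℝ) (f : Fin k → ℤ[X]) : Prop where
  irr : ∀ i, Irreducible (f i)
  deg : ∀ i, 1 ≤ (f i).natDegree ∧ (f i).natDegree ≤ D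
  hgt : ∀ i n, |(((f i).coeff n : ℤ) : ℝ)| ≤ H
  adm : ∀ p : ℕ, p.Prime → ∃ n : ℕ, ∀ i, ¬ (p : ℤ) ∣ (f i).eval (n : ℤ)
  tr : ∀ i j, ∀ t : ℕ, 1 ≤ t → (t : ℝ) ≤ U →
    f i ≠ (f j).comp (X + C (t : ℤ)) ∧ f i ≠ -(f j).comp (X + C (t : ℤ))

lemma System.us {D : ℕ} {H U : ℝ} {f : Fin k → ℤ[X]} (h : System D H U f) : US k D H U f where
  irr := h.irr
  deg := fun i => by have := (h.deg i).1; omega
  degD := fun i => (h.deg i).2
  hgt := h.hgt
  adm := h.adm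
  tr := fun i j t ht htU ha => by
    rcases assoc_cases ha with h1 | h1
    · exact (h.tr i j t ht htU).1 h1
    · exact (h.tr i j t ht htU).2 h1

lemma sf_iff (f : Fin k → ℤ[X]) (X r n : ℕ) :
    Sifted f X r n ↔ Sf (Q f) ⌊(X : ℝ) ^ (1 / (r : ℝ))⌋₊ n := by
  unfold Sifted Sf
  constructor
  · intro h p hp hq
    obtain ⟨hp1, hp2⟩ := mem_pz.1 hp
    obtain ⟨i, hi⟩ := hq
    exact h p hp2 ((Nat.le_floor_iff (by positivity)).1 hp1) i hi
  · intro h p hp hpr i hi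
    exact h p (mem_pz.2 ⟨Nat.le_floor hpr, hp⟩) ⟨i, hi⟩

lemma V_eq (f : Fin k → ℤ[X]) (X r : ℕ) : V f X r = Vq (Q f) ⌊(X : ℝ) ^ (1 / (r : ℝ))⌋₊ := by
  classical
  unfold V Vq
  apply Finset.prod_congr rfl
  intro p _
  have : om f p = nuB (Q f) p := by
    unfold om nuB Q
    congr
  rw [this]

lemma Far_eq (f : Fin k → ℤ[X]) (X r l T Z Y : ℕ) :
    Far f X r l T Z Y = Pk (Sf (Q f) ⌊(X : ℝ) ^ (1 / (r : ℝ))⌋₊) l T Z Y := by
  classical
  unfold Far Pk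
  congr 1
  apply filter_congr
  intro b _
  rw [sf_iff]
  have : (Ico (b - T) b).filter (fun m => Sifted f X r m) =
      (Ico (b - T) b).filter (Sf (Q f) ⌊(X : ℝ) ^ (1 / (r : ℝ))⌋₊) :=
    filter_congr fun m _ => sf_iff f X r m
  rw [this]

lemma Ck_eq (l : ℕ) (x : ℝ) : Ck l x = ∑ j ∈ range l, Real.exp (-x) * x ^ j / j.factorial := rfl

open Classical in
/-- the gap laws -/
theorem gaps (k D : ℕ) (E δ θ : ℝ) (hE : 0 < E) (hδ : 0 < δ) (hθ : 0 < θ) (l₀ : ℕ)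
    (x₀ ε : ℝ) (hε : 0 < ε) :
    ∃ r₀ : ℕ, ∀ r : ℕ, r₀ ≤ r → ∀ C : ℝ, ∀ᶠ X : ℕ in atTop, ∀ f : Fin k → ℤ[X],
      System D ((X : ℝ) ^ E) ((X : ℝ) ^ δ) f → V f X r ≤ C / Real.log X →
      ∀ Z Y : ℕ, (X : ℝ) ^ θ ≤ Y → ∀ l T : ℕ, (l ≤ l₀ ∨ T * V f X r ≤ x₀) →
        |(Far f X r l T Z Y : ℝ) - Y * V f X r *
          ∑ j ∈ range l, Real.exp (-(T * V f X r)) * (T * V f X r) ^ j / j.factorial| ≤
          ε * (Y * V f X r) := by
  obtain ⟨r0, h0⟩ := gap_polys k D E δ θ hE hδ hθ l₀ x₀ ε hε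
  refine ⟨r0, fun r hr C => ?_⟩
  filter_upwards [h0 r hr C] with X hX f hf hV Z Y hY l T hT
  rw [V_eq] at hV hT ⊢
  rw [Far_eq]
  exact hX f hf.us hV Z Y hY l T hT

/-! ### Regular points -/

open Classical in
/-- the number of elements of `A` in `(a, b]` -/
noncomputable def cnt (A : Set ℕ) (a b : ℕ) : ℕ := ((Ioc a b).filter (fun m => m ∈ A)).card

/-- Every interval `(m - s, m + t]` with `s, t ≤ Y` of a length `s + t ≥ 1 / (c V)` contains between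
`c (s + t) V` and `(s + t) V / c` elements of `A`. -/
def RightOrder (A : Set ℕ) (V c : ℝ) (Y m : ℕ) : Prop :=
  ∀ s t : ℕ, s ≤ Y → t ≤ Y → 1 ≤ c * (s + t) * V →
    c * (s + t) * V ≤ cnt A (m - s) (m + t) ∧ c * (cnt A (m - s) (m + t) : ℝ) ≤ (s + t) * V

/-- There is `c ≤ lam ≤ 1 / c` such that all intervals `(m - s, m + t]`, `s, t ≤ 2 ^ j`, contain
`lam (s + t) V` elements of `A`, up to `δ 2 ^ j V`. -/
def ConstantDensity (A : Set ℕ) (V c δ : ℝ) (m j : ℕ) : Prop :=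
  ∃ lam : ℝ, c ≤ lam ∧ lam ≤ 1 / c ∧ ∀ s t : ℕ, s ≤ 2 ^ j → t ≤ 2 ^ j →
    |(cnt A (m - s) (m + t) : ℝ) - lam * (s + t) * V| ≤ δ * 2 ^ j * V

open Classical in
/-- `m` is a regular point of `A`: all windows around `m` contain the right order of elements of `A`,
and at all scales `1 / V ≤ 2 ^ j ≤ Y`, with at most `B` exceptions, `A` has a constant density on both
sides of `m`, up to `δ`. -/
def Regular (A : Set ℕ) (V c δ : ℝ) (B Y m : ℕ) : Prop :=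
  RightOrder A V c Y m ∧
    ((range (Nat.log 2 Y + 1)).filter (fun j => 1 ≤ (2 : ℝ) ^ j * V ∧ ¬ ConstantDensity A V c δ m j)).card ≤ B

lemma cnt_eq (A : Set ℕ) (a b : ℕ) : cnt A a b = Pool.Agent.TH977.PW.N A a b := rfl

lemma ro_iff (A : Set ℕ) (V c : ℝ) (hV : 0 < V) (hc : 0 < c) (Y m : ℕ) :
    RO A (1 / V) c Y m ↔ RightOrder A V c Y m := by
  unfold RO RightOrder
  have e : ∀ x : ℝ, x / (1 / V) = x * V := fun x => by rw [div_div_eq_mul_div, div_one]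
  constructor
  · intro h s t hs ht h1
    have h2 := h s t hs ht (by rw [div_le_iff₀ hV]; exact h1)
    rw [e] at h2
    refine ⟨h2.1, ?_⟩
    have h3 := h2.2
    rw [mul_one_div, div_div_eq_mul_div, le_div_iff₀ hc] at h3
    rw [cnt_eq]
    linarith
  · intro h s t hs ht h1
    have h2 := h s t hs ht (by rwa [div_le_iff₀ hV] at h1)
    rw [e]
    refine ⟨h2.1, ?_⟩
    have h3 := h2.2
    rw [cnt_eq] at h3
    rw [mul_one_div, div_div_eq_mul_div, le_div_iff₀ hc]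
    linarith

lemma cd_iff (A : Set ℕ) (V c δ : ℝ) (m j : ℕ) :
    CD A (1 / V) c δ m j ↔ ConstantDensity A V c δ m j := by
  unfold CD ConstantDensity
  have e : ∀ x : ℝ, x / (1 / V) = x * V := fun x => by rw [div_div_eq_mul_div, div_one]
  simp only [e, cnt_eq]

lemma irr_iff (A : Set ℕ) (V c δ : ℝ) (hV : 0 < V) (hc : 0 < c) (B Y m : ℕ) :
    m ∈ Irr A (1 / V) c δ B Y ↔ m ∈ A ∧ ¬ Regular A V c δ B Y m := by
  classical
  unfold Irr
  rw [Set.mem_ofPred_eq, ro_iff A V c hV hc]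
  unfold Regular bS
  have : (range (Nat.log 2 Y + 1)).filter (fun j => 1 / V ≤ (2 : ℝ) ^ j ∧ ¬ CD A (1 / V) c δ m j) =
      (range (Nat.log 2 Y + 1)).filter (fun j => 1 ≤ (2 : ℝ) ^ j * V ∧ ¬ ConstantDensity A V c δ m j) := by
    apply filter_congr
    intro j _
    rw [cd_iff, div_le_iff₀ hV]
  rw [this]

open Classical in
/-- the regular points -/
theorem regular (k D e : ℕ) (E δ' θ : ℝ) (hE : 0 < E) (hδ' : 0 < δ') (hθ : 0 < θ) :
    ∃ r₀ : ℕ, 2 ≤ r₀ ∧ ∀ r : ℕ, r₀ ≤ r → ∀ C : ℝ, 0 < C → ∀ ε : ℝ, 0 < ε → ∃ c : ℝ, 0 < c ∧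
      ∀ δ : ℝ, 0 < δ → ∃ B : ℕ, ∀ᶠ X : ℕ in atTop, ∀ f : Fin k → ℤ[X],
      System D ((X : ℝ) ^ E) 0 f → ∀ E₀ : Finset ℕ, E₀.card ≤ e →
      (∀ i j, ∀ t : ℕ, 1 ≤ t → (t : ℝ) ≤ (X : ℝ) ^ δ' → t ∉ E₀ →
        f i ≠ (f j).comp (Polynomial.X + Polynomial.C (t : ℤ)) ∧
        f i ≠ -(f j).comp (Polynomial.X + Polynomial.C (t : ℤ))) →
      V f X r ≤ C / Real.log X →
      ∀ u Y : ℕ, (X : ℝ) ^ θ ≤ Y → Y ≤ X → Y ≤ u →
      ∀ A : Set ℕ, (∀ m ∈ A, Sifted f X r m) →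
        (((Ioc u (u + Y)).filter (fun m => m ∈ A ∧ ¬ Regular A (V f X r) c δ B Y m)).card : ℝ) ≤
          ε * (Y * V f X r) := by
  obtain ⟨r0, hr0, h⟩ := hered_polys k D e E δ' θ hE hδ' hθ
  refine ⟨r0, hr0, fun r hr C hC ε hε => ?_⟩
  obtain ⟨c, hc, h2⟩ := h r hr C hC ε hε
  refine ⟨c, hc, fun δ hδ => ?_⟩
  obtain ⟨B, h3⟩ := h2 δ hδ
  refine ⟨B, ?_⟩
  filter_upwards [h3] with X hX f hf E0 hE0 hno hV u Y hXY hYX hYu A hA
  have hVpos : 0 < V f X r := by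
    rw [V_eq]
    exact Vq_pos _ (us_adm hf.us) _
  have hV' := hV
  rw [V_eq] at hV'
  have h4 := hX f hf.us E0 hE0 (fun i j t ht htU htE ha => by
    rcases assoc_cases ha with h1 | h1
    · exact (hno i j t ht htU htE).1 h1
    · exact (hno i j t ht htU htE).2 h1) hV' u Y hXY hYX hYu A (fun m hm => (sf_iff f X r m).1 (hA m hm))
  rw [← V_eq] at h4
  refine le_trans (le_of_eq ?_) h4
  unfold Pool.Agent.TH977.PW.N
  congr 2
  apply filter_congr
  intro m _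
  exact (irr_iff A (V f X r) c δ hVpos hc B Y m).symm

end Pool.Agent.R463.PS
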