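import Pool.Agent.R463.NarLin
import Pool.Agent.TH977.PW.Hered

set_option autoImplicit false

/-!
# Regular points of sets of primes or almost primes, with the logarithmic normalisation
-/

namespace Pool.Agent.R463.PrReg

open Polynomial Finset Filter
open Pool.Agent.TH977.PW

open Classical in
/-- the number of elements of `A` in `(a, b]` -/
noncomputable def cnt (A : Set ℕ) (a b : ℕ) : ℕ := ((Finset.Ioc a b).filter (fun m => m ∈ A)).card

/-- All intervals `(m - s, m + t]` with `s, t ≤ Y` of length at least `log X / c` contain between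
`c (s + t) / log X` and `(s + t) / (c log X)` elements of `A`. -/
def RightOrder (A : Set ℕ) (c : ℝ) (X Y m : ℕ) : Prop :=
  ∀ s t : ℕ, s ≤ Y → t ≤ Y → Real.log X ≤ c * (s + t) →
    c * (s + t) / Real.log X ≤ cnt A (m - s) (m + t) ∧
      (cnt A (m - s) (m + t) : ℝ) ≤ (s + t) / (c * Real.log X)

/-- There is `c ≤ lam ≤ 1 / c` such that all intervals `(m - s, m + t]`, `s, t ≤ 2 ^ j`, contain
`lam (s + t) / log X` elements of `A`, up to `δ 2 ^ j / log X`. -/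
def ConstantDensity (A : Set ℕ) (c δ : ℝ) (X m j : ℕ) : Prop :=
  ∃ lam : ℝ, c ≤ lam ∧ lam ≤ 1 / c ∧ ∀ s t : ℕ, s ≤ 2 ^ j → t ≤ 2 ^ j →
    |(cnt A (m - s) (m + t) : ℝ) - lam * (s + t) / Real.log X| ≤ δ * 2 ^ j / Real.log X

open Classical in
/-- `m` is a regular point of `A` -/
def Regular (A : Set ℕ) (c δ : ℝ) (B X Y m : ℕ) : Prop :=
  RightOrder A c X Y m ∧ ((Finset.range (Nat.log 2 Y + 1)).filter (fun j => Real.log X ≤ (2 : ℝ) ^ j ∧
    ¬ ConstantDensity A c δ X m j)).card ≤ B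

lemma ro_iff (A : Set ℕ) (c : ℝ) (X Y m : ℕ) :
    Pool.Agent.TH977.PW.RightOrder A 1 c X Y m ↔ RightOrder A c X Y m := by
  unfold Pool.Agent.TH977.PW.RightOrder RightOrder
  simp only [pow_one]
  rfl

lemma cd_iff (A : Set ℕ) (c δ : ℝ) (X m j : ℕ) :
    Pool.Agent.TH977.PW.ConstantDensity A 1 c δ X m j ↔ ConstantDensity A c δ X m j := by
  unfold Pool.Agent.TH977.PW.ConstantDensity ConstantDensity
  simp only [pow_one]
  rfl

lemma irr_iff (A : Set ℕ) (c δ : ℝ) (B X Y m : ℕ) :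
    m ∈ Irregular A 1 c δ B X Y ↔ m ∈ A ∧ ¬ Regular A c δ B X Y m := by
  classical
  show (m ∈ A ∧ ¬ (Pool.Agent.TH977.PW.RightOrder A 1 c X Y m ∧ badScales A 1 c δ X Y m ≤ B)) ↔ _
  rw [ro_iff]
  unfold Regular badScales
  have : (Finset.range (Nat.log 2 Y + 1)).filter (fun j => Real.log X ^ 1 ≤ (2 : ℝ) ^ j ∧
      ¬ Pool.Agent.TH977.PW.ConstantDensity A 1 c δ X m j) =
      (Finset.range (Nat.log 2 Y + 1)).filter (fun j => Real.log X ≤ (2 : ℝ) ^ j ∧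
      ¬ ConstantDensity A c δ X m j) := by
    apply filter_congr
    intro j _
    rw [cd_iff, pow_one]
  rw [this]

open Classical in
theorem reg (θ : ℝ) (hθ : 0 < θ) (hθ1 : θ ≤ 1) :
    ∃ r0 : ℕ, 2 ≤ r0 ∧ ∀ r : ℕ, r0 ≤ r →
    ∀ ε : ℝ, 0 < ε → ∃ c : ℝ, 0 < c ∧ ∀ δ : ℝ, 0 < δ → ∃ B : ℕ,
      ∀ᶠ X : ℕ in atTop, ∀ Y : ℕ, (X : ℝ) ^ θ ≤ Y → 2 * Y ≤ X →
        ∀ A : Set ℕ, (∀ m ∈ A, ∀ p : ℕ, p.Prime → p ∣ m → (m : ℝ) ^ (1 / (r : ℝ)) < (p : ℝ)) →
        (((Ioc X (X + Y)).filter (fun m => m ∈ A ∧ ¬ Regular A c δ B X Y m)).card : ℝ) ≤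
            ε * Y / Real.log X := by
  obtain ⟨r0, hr0, h⟩ := hereditary (ι := Fin 1) _ (Pool.Agent.R463.NL.sys (fun _ : Fin 1 => 1) (fun _ => 0)
    (fun _ => one_pos) (fun _ => by rw [Nat.cast_one]; exact isCoprime_one_left)
    (fun i j _ _ => Subsingleton.elim i j) (fun p hp => ⟨1, fun _ h => by
      have h1 : (p : ℤ) ∣ ((1 : ℕ) : ℤ) := by simpa using h
      exact hp.one_lt.ne' (Nat.dvd_one.1 (Int.natCast_dvd_natCast.1 h1))⟩)) θ hθ hθ1
  refine ⟨r0, hr0, fun r hr ε hε => ?_⟩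
  obtain ⟨c, hc, h1⟩ := h r hr ε hε
  refine ⟨c, hc, fun δ hδ => ?_⟩
  obtain ⟨B, h2⟩ := h1 δ hδ
  refine ⟨B, ?_⟩
  filter_upwards [h2] with X hX Y hXY hYX A hA
  have h3 := hX Y hXY hYX A (fun m hm i p hp hd => by
    refine hA m hm p hp ?_
    rw [Pool.Agent.W182.PW.lin_eval] at hd
    have h1 : (p : ℤ) ∣ (m : ℤ) := by simpa using hd
    exact_mod_cast h1)
  rw [Fintype.card_fin, pow_one] at h3
  refine le_trans (le_of_eq ?_) h3
  unfold N
  congr 2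
  apply filter_congr
  intro m _
  exact (irr_iff A c δ B X Y m).symm

end Pool.Agent.R463.PrReg
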