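import Pool.Agent.R463.NarLin
import Pool.Agent.R490.PrimeArg

set_option autoImplicit false

/-!
# Narrow progressions in sets of `n` for which `n` and `F n` are almost prime
-/

namespace Pool.Agent.R463.TN

open Polynomial Finset Filter
open Pool.Agent.R463.NL (InProgression)
open Pool.Agent.R490.PA (two)
open Pool.Agent.W123.RU.Poly (Sys)

/-- all prime factors of `n` and `f n` are larger than `n ^ (1 / r)` -/
def RoughT (f : ℤ → ℤ) (r : ℕ) : Set ℕ :=
  {n | ∀ p : ℕ, p.Prime → (p ∣ n ∨ (p : ℤ) ∣ f (n : ℤ)) → (n : ℝ) ^ (1 / (r : ℝ)) < (p : ℝ)}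

lemma two_sys (F : ℤ[X]) (f : ℤ → ℤ) (hf : ∀ x, F.eval x = f x) (hirr : Irreducible F)
    (hdeg : 2 ≤ F.natDegree) (hlead : 0 < F.leadingCoeff)
    (hadm : ∀ p : ℕ, p.Prime → ∃ m : ℕ, ¬ p ∣ m ∧ ¬ (p : ℤ) ∣ f (m : ℤ)) : Sys (two F) where
  irr := fun i => by
    fin_cases i
    · exact Polynomial.irreducible_X
    · exact hirr
  deg := fun i => by
    fin_cases i
    · simp [two]
    · show 0 < F.natDegree
      omega
  lead := fun i => by
    fin_cases i
    · show 0 < (X : ℤ[X]).leadingCoeff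
      simp
    · exact hlead
  inj := fun i j hij => by
    fin_cases i <;> fin_cases j
    · rfl
    · exfalso
      have h : (X : ℤ[X]) = F := hij
      have := congrArg Polynomial.natDegree h
      rw [natDegree_X] at this
      omega
    · exfalso
      have h : F = (X : ℤ[X]) := hij
      have := congrArg Polynomial.natDegree h
      rw [natDegree_X] at this
      omega
    · rfl
  adm := fun p hp => by
    obtain ⟨m, h1, h2⟩ := hadm p hp
    refine ⟨m, fun i => ?_⟩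
    fin_cases i
    · show ¬ (p : ℤ) ∣ (X : ℤ[X]).eval (m : ℤ)
      rw [eval_X]
      exact_mod_cast h1
    · show ¬ (p : ℤ) ∣ F.eval (m : ℤ)
      rw [hf]
      exact h2

open Classical in
theorem narrowT (F : ℤ[X]) (f : ℤ → ℤ) (hf : ∀ x, F.eval x = f x) (hirr : Irreducible F)
    (hdeg : 2 ≤ F.natDegree) (hlead : 0 < F.leadingCoeff)
    (hadm : ∀ p : ℕ, p.Prime → ∃ m : ℕ, ¬ p ∣ m ∧ ¬ (p : ℤ) ∣ f (m : ℤ))
    (θ : ℝ) (hθ : 0 < θ) (r : ℕ) (hr : 2 ≤ r) (l : ℕ) (hl : 2 ≤ l) (ε : ℝ) (hε : 0 < ε) :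
    ∃ B : ℕ, ∀ᶠ X : ℕ in atTop, ∀ Y : ℕ, (X : ℝ) ^ θ ≤ Y → Y ≤ X →
      ∀ A : Set ℕ, A ⊆ RoughT f r →
        (((Ioc X (X + Y)).filter (fun m : ℕ =>
          m ∈ A ∧ ¬ InProgression A l (Real.log X ^ B) X (X + Y) m)).card : ℝ) ≤
        ε * (Y / Real.log X ^ 2) := by
  obtain ⟨B, hB⟩ := Pool.Agent.Y677.RSZ.narrow (two F) (two_sys F f hf hirr hdeg hlead hadm)
    θ hθ r hr l hl ε hε
  refine ⟨B, ?_⟩
  filter_upwards [hB] with X hX Y hXY hYX A hA
  have h := hX Y hXY hYX A (fun m hm => by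
    intro i p hp hd
    apply hA hm p hp
    fin_cases i
    · left
      have : (p : ℤ) ∣ (Polynomial.X : ℤ[X]).eval (m : ℤ) := hd
      rw [eval_X] at this
      exact_mod_cast this
    · right
      have : (p : ℤ) ∣ F.eval (m : ℤ) := hd
      rwa [hf] at this)
  rw [Fintype.card_fin, mul_div_assoc] at h
  refine le_trans (le_of_eq ?_) h
  unfold Pool.Agent.TH977.PW.N
  congr 2
  apply filter_congr
  intro m _
  exact Iff.rfl

end Pool.Agent.R463.TN
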